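import Pool.Agent.N843.Ej

/-!
# The central values of the even weights, over `K` and over `ℚ`
-/

set_option autoImplicit false
set_option linter.unusedSectionVars false
set_option linter.unusedSimpArgs false
set_option linter.unusedVariables false

open Filter IsDedekindDomain
open scoped Topology PeriodPair NumberTheorySymbols

namespace Pool.Agent.N843.E

open H667R3 Pool.Agent.TH936.CW Pool.Agent.W192.HK Pool.Agent.TH936.PU
open Pool.Agent.N843 Pool.Agent.N843.X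
open Pool.Agent.Y698 (RR al al_sq al_ne bl bl_ne al_mul_bl LD aR aR_coe bR bR_coe cX cY co
  v_two v_two_lt fin_quot aR_mul_bR two_coe nR mul_cj cj cj_coe exists_gen e7 fR nR_aR nR_bR
  AP EX card_sp)
open Pool.Agent.Y698.SG (Pe sy gd mc mr inp)
open Pool.Agent.R384 (OO)
open Pool.Agent.R426.QD (r4 Ev tp Pn)

/-- **the central values of all the even weights** -/
theorem coreE {D : ℕ} {S : Finset RR} (h : FD D S)
    (hg : gd (mc fun p : RR => p) (mr fun p : RR => p) S ≠ 0) {z : ℂ} (hz : z ^ 2 = z - 2) :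
    ∃ ψ : Ideal OO → ℂ, PsiE D z ψ ∧
      (∀ A : HeightOneSpectrum OO, ((14 * D : ℕ) : OO) ∉ A.asIdeal →
        ((Nat.card {x : (OO ⧸ A.asIdeal) × (OO ⧸ A.asIdeal) //
          ((WM D).map (Int.castRingHom (OO ⧸ A.asIdeal))).toAffine.Equation x.1 x.2} : ℕ) : ℂ) =
        (Nat.card (OO ⧸ A.asIdeal) : ℂ) - (ψ A.asIdeal + (starRingEnd ℂ) (ψ A.asIdeal))) ∧
      ∀ n : ℕ, J1 ψ (2 * n + 2) ∧ J1 ψ (1 - (2 * n + 2)) := by
  classical
  have hbasic := Pool.Agent.W287.HK.h_basic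
  have hcls := Pool.Agent.W571.HK.h_cls hbasic
  have hfp := Pool.Agent.W53.HK.h_fp hbasic hcls
  have hfpr := Pool.Agent.W366.HK.h_fpr hbasic hcls
  have hlat := Pool.Agent.W585.HK.h_lat hbasic
  have hker := Pool.Agent.W692.HK.h_ker hbasic hcls hfpr
  have hcnt := Pool.Agent.W584.HK.h_cnt hbasic hcls hfpr hlat hker
  have hdec := Pool.Agent.W856.HK.h_dec hbasic
  have hgauss := Pool.Agent.W636.HK.h_gauss hbasic hfp
  have hpois := Pool.Agent.W348.HK.h_pois hbasic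
  have htheta := Pool.Agent.TH936.HK.h_theta hbasic hfp hdec hgauss hpois hcnt
  have hafe := Pool.Agent.TH936.HK.h_afe hbasic hfp hcnt hgauss htheta
  obtain ⟨j, hj⟩ : ∃ j, D = 1 + 4 * j := ⟨D / 4, by have := h.m8; omega⟩
  have hC := xE_cx h
  have key : ∀ n : ℕ, J1 (psi (xE S)) (2 * n + 2) := by
    intro n
    have h2 := nonvanE hbasic hfp hcnt hdec hafe inp.rec' (Fe.of h.ev) hg h.chA h.chB n
    have h3 := hC.oneJ hbasic (e := 2 * n + 1) h2
    have e : (((2 * n + 1 : ℕ) : ℤ) + 1) = 2 * n + 2 := by push_cast; ring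
    rw [e] at h3
    exact h3
  rcases conj_z hz with rfl | rfl
  · exact ⟨_, psiE_of h, eulE h hj hz (psiE_of h) (psiX_of h), fun n => ⟨key n, (key n).swap⟩⟩
  · refine ⟨_, (psiE_of h).conj, eulE h hj hz (psiE_of h).conj (psiX_of h).conj,
      fun n => ⟨?_, (key n).conj⟩⟩
    have h1 := (key n).swap.conj
    rwa [sub_sub_cancel] at h1

/-- **the central values over `ℚ`** -/
theorem coreLE {D : ℕ} {S : Finset RR} (h : FD D S)
    (hg : gd (mc fun p : RR => p) (mr fun p : RR => p) S ≠ 0) {z : ℂ} (hz : z ^ 2 = z - 2) (n : ℕ) :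
    ∃ F : ℂ → ℂ, Differentiable ℂ F ∧
      (∀ s : ℂ, ((2 * n + 2 : ℕ) : ℝ) + 1 / 2 < s.re →
        LSeriesHasSum (fun l => ((ZMod.χ₄ (l : ZMod 4) * jacobiSym l D : ℤ) : ℂ) *
          cf z (2 * (2 * n + 1) + 1) l) s (F s)) ∧
      F ((2 * n + 2 : ℕ) : ℂ) ≠ 0 := by
  classical
  have hbasic := Pool.Agent.W287.HK.h_basic
  have hcls := Pool.Agent.W571.HK.h_cls hbasic
  have hfp := Pool.Agent.W53.HK.h_fp hbasic hcls
  have hfpr := Pool.Agent.W366.HK.h_fpr hbasic hcls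
  have hlat := Pool.Agent.W585.HK.h_lat hbasic
  have hker := Pool.Agent.W692.HK.h_ker hbasic hcls hfpr
  have hcnt := Pool.Agent.W584.HK.h_cnt hbasic hcls hfpr hlat hker
  have hdec := Pool.Agent.W856.HK.h_dec hbasic
  have hgauss := Pool.Agent.W636.HK.h_gauss hbasic hfp
  have hpois := Pool.Agent.W348.HK.h_pois hbasic
  have htheta := Pool.Agent.TH936.HK.h_theta hbasic hfp hdec hgauss hpois hcnt
  have hafe := Pool.Agent.TH936.HK.h_afe hbasic hfp hcnt hgauss htheta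
  have hC := xE_cx h
  obtain ⟨F, hF1, hF2, hF3⟩ := nonvanE hbasic hfp hcnt hdec hafe inp.rec' (Fe.of h.ev) hg
    h.chA h.chB n
  refine ⟨F, hF1, fun s hs => ?_, hF3⟩
  have h1 := lser hC (m := 2 * (2 * n + 1) + 1) (by omega) (hF2 s hs)
  have hzz : cf z (2 * (2 * n + 1) + 1) = cf al (2 * (2 * n + 1) + 1) := by
    rcases conj_z hz with rfl | rfl
    · rfl
    · rw [al_cj]
      exact funext fun l => cf_conj _ l
  rw [hzz]
  refine (congrArg (fun g => LSeriesHasSum g s (F s)) (funext fun l => ?_)).mp h1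
  unfold cf
  rw [← mul_div_assoc, Finset.mul_sum]
  congr 1
  refine Finset.sum_congr rfl fun v hv => ?_
  unfold xE
  rw [h.ch_eq, e4_nR, nR_rv, mem_vecs.1 hv, mul_pow, e7_rv, mul_pow, mul_pow, rv_coe]
  have k1 : ((jacobiSym (v.1 + 4 * v.2) 7 : ℤ) : ℂ) ^ (2 * (2 * n + 1) + 1) =
      ((jacobiSym (v.1 + 4 * v.2) 7 : ℤ) : ℂ) := by
    apply odd_pow_sgn
    rcases jacobiSym.trichotomy (v.1 + 4 * v.2) 7 with h | h | h <;> rw [h] <;> simp
  have k2 : ((jacobiSym (l : ℤ) D : ℤ) : ℂ) ^ (2 * (2 * n + 1) + 1) =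
      ((jacobiSym (l : ℤ) D : ℤ) : ℂ) := by
    apply odd_pow_sgn
    rcases jacobiSym.trichotomy (l : ℤ) D with h | h | h <;> rw [h] <;> simp
  have k3 : ((ZMod.χ₄ (((l : ℤ) : ℤ) : ZMod 4) : ℤ) : ℂ) ^ (2 * (2 * n + 1) + 1) =
      ((ZMod.χ₄ (l : ZMod 4) : ℤ) : ℂ) := by
    rw [Int.cast_natCast]
    apply odd_pow_sgn
    have : ∀ t : ZMod 4, ZMod.χ₄ t = 0 ∨ ZMod.χ₄ t = 1 ∨ ZMod.χ₄ t = -1 := by decide
    rcases this (l : ZMod 4) with h | h | h <;> rw [h] <;> simp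
  rw [k1, k2, k3]
  push_cast
  ring

end Pool.Agent.N843.E
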