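import Pool.Agent.N843.Lt4
import Pool.Agent.Y698.SG.Wm

/-!
# Weighted sums of even distributions over the points of odd order
-/

set_option autoImplicit false
set_option linter.unusedSectionVars false
set_option linter.unusedSimpArgs false

open Filter
open scoped Topology PeriodPair

namespace Pool.Agent.N843

open H667R3 Pool.Agent.TH936.CW Pool.Agent.W192.HK Pool.Agent.Y690.NV Pool.Agent.TH936.PU
open Pool.Agent.Y698 (RR al al_sq al_ne bl bl_ne al_mul_bl LD tA tB aR aR_coe bR bR_coe cX cY co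
  co_uniq al_im_pos Xx_per Tb v_two v_two_lt v_bl fin_quot aR_mul_bR two_coe nR cj mul_cj cj_coe
  cXY_int cXY_of RR_ext)
open Pool.Agent.Y698.SG (Pe sy sy_per sy_val sy_sgn tr tr_per tr_mul Mu hc hc_val hc_per
  sp_mem_iff prime_mem)
open Pool.Agent.TH936.CM (IsLat)

variable {L : PeriodPair} {Ω : ℂ}

/-! ### elements congruent to one modulo four -/

/-- congruent to one modulo four -/
def Fo (n : RR) : Prop := (4 : RR) ∣ n - 1

lemma four_coe : ((4 : RR) : ℂ) = 4 := rfl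

lemma Fo.one : Fo 1 := by
  unfold Fo
  rw [sub_self]
  exact dvd_zero _

lemma Fo.mul {m n : RR} (hm : Fo m) (hn : Fo n) : Fo (m * n) := by
  obtain ⟨a, ha⟩ := hm
  obtain ⟨b, hb⟩ := hn
  exact ⟨a + m * b, by linear_combination ha + m * hb⟩

lemma Fo.prod {ι : Type} {S : Finset ι} {π : ι → RR} (h : ∀ i ∈ S, Fo (π i)) :
    Fo (∏ i ∈ S, π i) := by
  classical
  induction S using Finset.induction_on with
  | empty => exact Fo.one
  | insert q S hq ih =>
    rw [Finset.prod_insert hq]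
    exact (h q (Finset.mem_insert_self _ _)).mul
      (ih fun p hp => h p (Finset.mem_insert_of_mem hp))

lemma Fo.ne {n : RR} (h : Fo n) : n ≠ 0 := by
  rintro rfl
  obtain ⟨u, hu⟩ := h
  apply Pool.Agent.Y698.two_nu
  exact IsUnit.of_mul_eq_one (2 * -u) (by linear_combination hu)

lemma Fo.cj {n : RR} (h : Fo n) : Fo (cj n) := by
  obtain ⟨u, hu⟩ := h
  refine ⟨Pool.Agent.Y698.cj u, ?_⟩
  have := congrArg Pool.Agent.Y698.cj hu
  rwa [map_sub, map_one, map_mul, map_ofNat] at this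

lemma four_dvd_int {m : ℤ} (h : (4 : RR) ∣ (m : RR)) : (4 : ℤ) ∣ m := by
  obtain ⟨u, hu⟩ := h
  have h1 : cX (m : RR) = 4 * cX u ∧ cY (m : RR) = 4 * cY u := by
    apply cXY_of
    rw [hu]
    push_cast
    rw [four_coe, co u]
    ring
  rw [(cXY_int m).1] at h1
  exact ⟨_, h1.1⟩

lemma Fo.nR {n : RR} (h : Fo n) : (4 : ℤ) ∣ nR n - 1 := by
  apply four_dvd_int
  have h1 := h.mul h.cj
  rw [mul_cj] at h1
  push_cast
  exact h1

lemma Fo.od (hL : IsLat L RR Ω) {n : RR} (h : Fo n) (x : RR) : Od L (Ω * x / n) := by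
  have h1 := Pool.Agent.Y698.nR_nonneg n
  obtain ⟨N, hN⟩ := Int.eq_ofNat_of_zero_le h1
  have h2 := h.nR
  have hn : (n : ℂ) ≠ 0 := Pool.Agent.TH936.PU.coe_ne h.ne
  refine ⟨N, ?_, ?_⟩
  · rw [Nat.odd_iff]
    omega
  · have e : (N : ℂ) = ((Pool.Agent.Y698.cj n : RR) : ℂ) * n := by
      have h9 := congrArg (fun r : RR => (r : ℂ)) (mul_cj n)
      rw [hN] at h9
      push_cast at h9
      rw [← h9]
      ring
    have h3 := hL.mem_mul (Pool.Agent.Y698.cj n * x)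
    convert h3 using 1
    rw [e]
    push_cast
    field_simp

lemma Fo.cop_four {n : RR} (h : Fo n) : IsCoprime (4 : RR) n := by
  obtain ⟨u, hu⟩ := h
  exact ⟨-u, 1, by linear_combination hu⟩

lemma Fo.cop_aR {n : RR} (h : Fo n) : IsCoprime aR n := by
  refine h.cop_four.of_isCoprime_of_dvd_left ⟨bR * 2, ?_⟩
  linear_combination (-2 : RR) * aR_mul_bR

lemma Fo.cop_bR {n : RR} (h : Fo n) : IsCoprime bR n := by
  refine h.cop_four.of_isCoprime_of_dvd_left ⟨aR * 2, ?_⟩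
  linear_combination (-2 : RR) * aR_mul_bR

/-! ### reindexing -/

lemma sum_unit {n u : RR} (h : IsCoprime u n) [Fintype (RR ⧸ sp n)] {F : RR → ℂ} (hF : Pe n F) :
    ∑ x : RR ⧸ sp n, F (u * x.out) = ∑ x : RR ⧸ sp n, F x.out := by
  obtain ⟨a, b, hab⟩ := h
  symm
  refine sum_rep (fun x : RR ⧸ sp n => u * x.out) ?_ F hF
  have h1 : (fun x : RR ⧸ sp n => Ideal.Quotient.mk (sp n) (u * x.out)) =
      fun x => Ideal.Quotient.mk (sp n) u * x := by
    funext x
    rw [map_mul, Ideal.Quotient.mk_out]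
  rw [h1]
  have h2 : Ideal.Quotient.mk (sp n) a * Ideal.Quotient.mk (sp n) u = 1 := by
    rw [← map_mul, ← map_one (Ideal.Quotient.mk (sp n)), Ideal.Quotient.mk_eq_mk_iff_sub_mem,
      Ideal.mem_span_singleton']
    exact ⟨-b, by linear_combination -hab⟩
  constructor
  · intro x y hxy
    have := congrArg (fun t => Ideal.Quotient.mk (sp n) a * t) hxy
    simp only [← mul_assoc, h2, one_mul] at this
    exact this
  · intro y
    refine ⟨Ideal.Quotient.mk (sp n) a * y, ?_⟩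
    show Ideal.Quotient.mk (sp n) u * (Ideal.Quotient.mk (sp n) a * y) = y
    rw [← mul_assoc, mul_comm (Ideal.Quotient.mk (sp n) u), h2, one_mul]

/-! ### the distributions -/

/-- even distributions on the points of odd order -/
structure Ds (L : PeriodPair) (Ω : ℂ) (lam : RR → ℂ) (W : ℂ → ℂ) : Prop where
  per : ∀ z w : ℂ, Od L z → w - z ∈ L.lattice → W w = W z
  ev : ∀ z : ℂ, Od L z → W (-z) = W z
  dist : ∀ c : RR, Fo c → ∀ [Fintype (RR ⧸ sp c)], ∀ z : ℂ, Od L z →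
    ∑ t : RR ⧸ sp c, W (z + Ω * t.out / c) = lam c * W (c * z)

/-- the weighted sum -/
noncomputable def Bd (Ω : ℂ) (W : ℂ → ℂ) (n : RR) (φ : RR → ℂ) : ℂ :=
  ∑ᶠ x : RR ⧸ sp n, φ x.out * W (Ω * x.out / (n : ℂ))

lemma Bd_eq (W : ℂ → ℂ) (n : RR) [Fintype (RR ⧸ sp n)] (φ : RR → ℂ) :
    Bd Ω W n φ = ∑ x : RR ⧸ sp n, φ x.out * W (Ω * x.out / (n : ℂ)) :=
  finsum_eq_sum_of_fintype _

variable {lam : RR → ℂ} {W : ℂ → ℂ}

lemma Ds.pe (hW : Ds L Ω lam W) (hL : IsLat L RR Ω) {n : RR} (hn : Fo n) :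
    Pe n (fun x => W (Ω * x / (n : ℂ))) := by
  intro x y h
  apply hW.per _ _ (hn.od hL y)
  have h1 := (div_mem_iff hL hn.ne (x - y)).2 h
  convert h1 using 1
  push_cast
  ring

lemma Bd_term (hW : Ds L Ω lam W) (hL : IsLat L RR Ω) {n : RR} (hn : Fo n)
    {φ : RR → ℂ} (hφ : Pe n φ) {x y : RR} (h : x - y ∈ sp n) :
    φ x * W (Ω * x / (n : ℂ)) = φ y * W (Ω * y / (n : ℂ)) := by
  have h1 : W (Ω * x / (n : ℂ)) = W (Ω * y / (n : ℂ)) := hW.pe hL hn x y h
  rw [hφ _ _ h, h1]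

theorem Bd_dist (hW : Ds L Ω lam W) (hL : IsLat L RR Ω) {n q : RR} (hn : Fo n)
    (hq : Fo q) {φ : RR → ℂ} (hφ : Pe n φ) :
    Bd Ω W (q * n) φ = lam q * Bd Ω W n φ := by
  have hn0 := hn.ne
  have hq0 := hq.ne
  have hqn := hq.mul hn
  have hqn0 := hqn.ne
  have f1 := fin_quot hn0
  have f2 := fin_quot hq0
  have f3 := fin_quot hqn0
  let _ : Fintype (RR ⧸ sp n) := Fintype.ofFinite _
  let _ : Fintype (RR ⧸ sp q) := Fintype.ofFinite _
  let _ : Fintype (RR ⧸ sp (q * n)) := Fintype.ofFinite _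
  have hφ' : Pe (q * n) φ := hφ.mono (Dvd.intro_left q rfl)
  have hn0' := Pool.Agent.TH936.PU.coe_ne hn0
  have hq0' := Pool.Agent.TH936.PU.coe_ne hq0
  rw [Bd_eq, Bd_eq]
  have hb := bij_mul (R := RR) (a := q) (f := n) hn0
  rw [sum_rep _ hb (fun x : RR => φ x * W (Ω * x / ((q * n : RR) : ℂ)))
    (fun x y h => Bd_term hW hL hqn hφ' h), Fintype.sum_prod_type, Finset.mul_sum]
  refine Finset.sum_congr rfl fun y _ => ?_
  have h1 := hW.dist q hq (Ω * y.out / ((q * n : RR) : ℂ)) (hqn.od hL _)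
  have h2 : ∀ t : RR ⧸ sp q, φ (y.out + n * t.out) = φ y.out := by
    intro t
    apply hφ
    rw [add_sub_cancel_left, Ideal.mem_span_singleton']
    exact ⟨t.out, mul_comm _ _⟩
  have e1 : ∀ t : RR ⧸ sp q, Ω * ((y.out + n * t.out : RR) : ℂ) / ((q * n : RR) : ℂ) =
      Ω * y.out / ((q * n : RR) : ℂ) + Ω * t.out / q := by
    intro t
    push_cast
    field_simp
  have e2 : (q : ℂ) * (Ω * y.out / ((q * n : RR) : ℂ)) = Ω * y.out / (n : ℂ) := by
    push_cast
    field_simp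
  simp only [h2, e1]
  rw [← Finset.mul_sum, h1, e2]
  ring

open Classical in
/-- the multiples of `q` -/
theorem Bd_mult (hW : Ds L Ω lam W) (hL : IsLat L RR Ω) {n q : RR} (hn : Fo n)
    (hq : Fo q) {φ : RR → ℂ} (hφ : Pe n φ) :
    Bd Ω W (q * n) (fun m => if m ∈ sp q then φ m else 0) =
      Bd Ω W n (fun m => φ (q * m)) := by
  have hn0 := hn.ne
  have hq0 := hq.ne
  have hqn := hq.mul hn
  have hqn0 := hqn.ne
  have f1 := fin_quot hn0
  have f3 := fin_quot hqn0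
  let _ : Fintype (RR ⧸ sp n) := Fintype.ofFinite _
  let _ : Fintype (RR ⧸ sp (q * n)) := Fintype.ofFinite _
  have hφ' : Pe (q * n) φ := hφ.mono (Dvd.intro_left q rfl)
  have hq0' : (q : ℂ) ≠ 0 := Pool.Agent.TH936.PU.coe_ne hq0
  have hn0' : (n : ℂ) ≠ 0 := Pool.Agent.TH936.PU.coe_ne hn0
  rw [Bd_eq, Bd_eq]
  set g : RR ⧸ sp n → RR ⧸ sp (q * n) := fun y => Ideal.Quotient.mk _ (q * y.out) with hg
  have hginj : Function.Injective g := by
    intro y y' h
    have h1 : q * y.out - q * y'.out ∈ sp (q * n) := by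
      rw [← Ideal.Quotient.mk_eq_mk_iff_sub_mem]
      exact h
    rw [Ideal.mem_span_singleton'] at h1
    obtain ⟨b, hb⟩ := h1
    apply mk_eq
    rw [Ideal.mem_span_singleton']
    refine ⟨b, ?_⟩
    apply mul_left_cancel₀ hq0
    linear_combination hb
  have hterm : ∀ y : RR ⧸ sp n, (if (g y).out ∈ sp q then φ (g y).out else 0) *
      W (Ω * (g y).out / ((q * n : RR) : ℂ)) =
      φ (q * y.out) * W (Ω * y.out / (n : ℂ)) := by
    intro y
    have h1 : (g y).out - q * y.out ∈ sp (q * n) := by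
      have := neg_mem (out_mk (sp (q * n)) (q * y.out))
      rwa [neg_sub] at this
    have h2 : (g y).out ∈ sp q := by
      have h3 : (g y).out - q * y.out ∈ sp q := by
        rw [Ideal.mem_span_singleton'] at h1 ⊢
        obtain ⟨b, hb⟩ := h1
        exact ⟨b * n, by linear_combination hb⟩
      have h4 := add_mem h3 (Ideal.mul_mem_right y.out (sp q) (Ideal.mem_span_singleton_self q))
      rwa [sub_add_cancel] at h4
    rw [if_pos h2, Bd_term hW hL hqn hφ' h1]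
    congr 2
    push_cast
    field_simp
  rw [← Finset.sum_congr rfl (fun y _ => hterm y)]
  rw [← Finset.sum_image (s := Finset.univ) (g := g) (f := fun x : RR ⧸ sp (q * n) =>
    (if x.out ∈ sp q then φ x.out else 0) *
      W (Ω * x.out / ((q * n : RR) : ℂ))) (fun a _ b _ h => hginj h)]
  symm
  refine Finset.sum_subset (Finset.subset_univ _) fun x _ hx => ?_
  rw [if_neg, zero_mul]
  intro hd
  apply hx
  rw [Ideal.mem_span_singleton'] at hd
  obtain ⟨c, hc⟩ := hd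
  rw [Finset.mem_image]
  refine ⟨Ideal.Quotient.mk _ c, Finset.mem_univ _, ?_⟩
  show Ideal.Quotient.mk _ (q * (Ideal.Quotient.mk (sp n) c).out) = x
  conv_rhs => rw [← Ideal.Quotient.mk_out x]
  rw [Ideal.Quotient.mk_eq_mk_iff_sub_mem]
  have h1 := out_mk (sp n) c
  rw [Ideal.mem_span_singleton'] at h1
  obtain ⟨b, hb⟩ := h1
  rw [Ideal.mem_span_singleton']
  exact ⟨-b, by linear_combination -q * hb - hc⟩

open Classical in
/-- removing a prime -/
theorem Bd_rem (hW : Ds L Ω lam W) (hL : IsLat L RR Ω) {n q : RR} (hn : Fo n)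
    (hq : Fo q) {κ : ℂ} {φ : RR → ℂ}
    (hφ : Pe n φ) (hφq : ∀ m : RR, φ (q * m) = κ * φ m) :
    Bd Ω W (q * n) (fun m => if m ∈ sp q then 0 else φ m) =
      (lam q - κ) * Bd Ω W n φ := by
  have hn0 := hn.ne
  have hqn0 := (hq.mul hn).ne
  have f1 := fin_quot hn0
  let _ : Fintype (RR ⧸ sp n) := Fintype.ofFinite _
  have f3 := fin_quot hqn0
  let _ : Fintype (RR ⧸ sp (q * n)) := Fintype.ofFinite _
  have h1 := Bd_dist hW hL hn hq hφ
  have h2 := Bd_mult hW hL hn hq hφ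
  simp only [hφq] at h2
  have h3 : Bd Ω W (q * n) (fun m => if m ∈ sp q then 0 else φ m) =
      Bd Ω W (q * n) φ - Bd Ω W (q * n) (fun m => if m ∈ sp q then φ m else 0) := by
    rw [Bd_eq, Bd_eq, Bd_eq, ← Finset.sum_sub_distrib]
    refine Finset.sum_congr rfl fun x _ => ?_
    split_ifs <;> ring
  have h4 : Bd Ω W n (fun m => κ * φ m) = κ * Bd Ω W n φ := by
    rw [Bd_eq, Bd_eq, Finset.mul_sum]
    exact Finset.sum_congr rfl fun x _ => by ring
  rw [h3, h1, h2, h4]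
  ring

lemma Bd_smul {n : RR} (hn : n ≠ 0) (c : ℂ) (φ : RR → ℂ) :
    Bd Ω W n (fun m => c * φ m) = c * Bd Ω W n φ := by
  have f1 := fin_quot hn
  let _ : Fintype (RR ⧸ sp n) := Fintype.ofFinite _
  rw [Bd_eq, Bd_eq, Finset.mul_sum]
  exact Finset.sum_congr rfl fun x _ => by ring

lemma Bd_sum {n : RR} (hn : n ≠ 0) {ι : Type*} (s : Finset ι) (φ : ι → RR → ℂ) :
    Bd Ω W n (fun m => ∑ i ∈ s, φ i m) = ∑ i ∈ s, Bd Ω W n (φ i) := by
  have f1 := fin_quot hn
  let _ : Fintype (RR ⧸ sp n) := Fintype.ofFinite _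
  simp only [Bd_eq]
  rw [Finset.sum_comm]
  exact Finset.sum_congr rfl fun x _ => by rw [Finset.sum_mul]

/-! ### the primes -/

/-- the primes -/
structure Pd (ϖ : RR) : Prop where
  pr : Prime ϖ
  fo : Fo ϖ

lemma Pd.two {ϖ : RR} (h : Pd ϖ) : (2 : RR) ∉ sp ϖ := by
  intro h2
  rw [Ideal.mem_span_singleton] at h2
  obtain ⟨u, hu⟩ := h.fo
  apply h.pr.not_isUnit
  have e : (1 : RR) = ϖ - 2 * (2 * u) := by linear_combination -hu
  exact isUnit_of_dvd_one (by rw [e]; exact dvd_sub dvd_rfl (h2.mul_right _))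

/-- the symbols are multiplicative -/
lemma Pd.mul {ϖ : RR} (h : Pd ϖ) (x y : RR) : sy ϖ (x * y) = sy ϖ x * sy ϖ y := by
  classical
  have hmax := Pool.Agent.Y698.maximal_sp h.pr.irreducible
  have f1 := fin_quot h.pr.ne_zero
  let _ : Fintype (RR ⧸ sp ϖ) := Fintype.ofFinite _
  let _ : Field (RR ⧸ sp ϖ) := Ideal.Quotient.field _
  have key : ∀ x : RR, sy ϖ x = ((quadraticCharFun (RR ⧸ sp ϖ)
      (Ideal.Quotient.mk (sp ϖ) x) : ℤ) : ℂ) := by
    intro x
    unfold sy quadraticCharFun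
    by_cases hx : x ∈ sp ϖ
    · rw [if_pos hx, if_pos (Ideal.Quotient.eq_zero_iff_mem.2 hx), Int.cast_zero]
    · rw [if_neg hx, if_neg (fun h => hx (Ideal.Quotient.eq_zero_iff_mem.1 h))]
      split_ifs <;> push_cast <;> rfl
  rw [key, key, key, map_mul]
  by_cases h2 : ringChar (RR ⧸ sp ϖ) = 2
  · exfalso
    apply h.two
    rw [← Ideal.Quotient.eq_zero_iff_mem]
    have := ringChar.Nat.cast_ringChar (R := RR ⧸ sp ϖ)
    rw [h2] at this
    exact_mod_cast this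
  · rw [quadraticCharFun_mul]
    push_cast
    rfl

lemma Pd.card {ϖ : RR} : (Nat.card (RR ⧸ sp ϖ) : ℤ) = nR ϖ := Pool.Agent.Y698.card_sp ϖ

lemma Pd.neg {ϖ : RR} (h : Pd ϖ) : sy ϖ (-1) = 1 := by
  classical
  have hmax := Pool.Agent.Y698.maximal_sp h.pr.irreducible
  have f1 := fin_quot h.pr.ne_zero
  let _ : Fintype (RR ⧸ sp ϖ) := Fintype.ofFinite _
  let _ : Field (RR ⧸ sp ϖ) := Ideal.Quotient.field _
  have h1 : IsSquare (-1 : RR ⧸ sp ϖ) := by
    rw [FiniteField.isSquare_neg_one_iff, ← Nat.card_eq_fintype_card]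
    have h3 := h.fo.nR
    rw [← Pd.card] at h3
    omega
  unfold sy
  rw [if_neg, if_pos]
  · rwa [map_neg, map_one]
  · intro h2
    have := neg_mem h2
    rw [neg_neg] at this
    exact h.pr.not_isUnit (isUnit_of_dvd_one (Ideal.mem_span_singleton.1 this))

lemma Pd.sum {ϖ : RR} (h : Pd ϖ) [Fintype (RR ⧸ sp ϖ)] : ∑ x : RR ⧸ sp ϖ, sy ϖ x.out = 0 := by
  classical
  have hmax := Pool.Agent.Y698.maximal_sp h.pr.irreducible
  let _ : Field (RR ⧸ sp ϖ) := Ideal.Quotient.field _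
  have h2 : ringChar (RR ⧸ sp ϖ) ≠ 2 := by
    intro h2
    apply h.two
    rw [← Ideal.Quotient.eq_zero_iff_mem]
    have := ringChar.Nat.cast_ringChar (R := RR ⧸ sp ϖ)
    rw [h2] at this
    exact_mod_cast this
  have h3 := quadraticChar_sum_zero h2
  have h4 := congrArg (fun t : ℤ => (t : ℂ)) h3
  simp only [Int.cast_sum, Int.cast_zero] at h4
  rw [← h4]
  refine Finset.sum_congr rfl fun x _ => ?_
  rw [quadraticChar_apply]
  unfold sy quadraticCharFun
  have e : Ideal.Quotient.mk (sp ϖ) x.out = x := Ideal.Quotient.mk_out x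
  by_cases hx : x.out ∈ sp ϖ
  · rw [if_pos hx, if_pos (by rw [← e]; exact Ideal.Quotient.eq_zero_iff_mem.2 hx), Int.cast_zero]
  · have hx0 : x ≠ 0 := fun h => hx (Ideal.Quotient.eq_zero_iff_mem.1 (by rw [e]; exact h))
    rw [if_neg hx, if_neg hx0]
    simp only [e]
    split_ifs <;> push_cast <;> rfl

lemma Pd.symneg {ϖ : RR} (h : Pd ϖ) (x : RR) : sy ϖ (-x) = sy ϖ x := by
  rw [← neg_one_mul, h.mul, h.neg, one_mul]

lemma tr_neg (ϖ x : RR) : tr ϖ (-x) = tr ϖ x := by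
  unfold tr
  rw [neg_mem_iff]

lemma Pd.hcneg {ϖ : RR} (h : Pd ϖ) (x : RR) : hc ϖ (-x) = hc ϖ x := by
  unfold hc
  rw [h.symneg, tr_neg]

/-- families of primes -/
structure Fm {ι : Type} (S : Finset ι) (π : ι → RR) : Prop where
  pd : ∀ i ∈ S, Pd (π i)
  ne : ∀ i ∈ S, ∀ j ∈ S, i ≠ j → π i ∉ sp (π j)

lemma Fm.mono {ι : Type} {S S' : Finset ι} {π : ι → RR} (h : Fm S π) (hs : S' ⊆ S) :
    Fm S' π := ⟨fun i hi => h.pd i (hs hi), fun i hi j hj => h.ne i (hs hi) j (hs hj)⟩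

lemma Fm.fo {ι : Type} {S : Finset ι} {π : ι → RR} (h : Fm S π) : Fo (∏ i ∈ S, π i) :=
  Fo.prod fun i hi => (h.pd i hi).fo

/-- removing several primes -/
theorem Bd_rems {ι : Type} (hW : Ds L Ω lam W) (hL : IsLat L RR Ω) {n : RR} (hn : Fo n)
    {φ : RR → ℂ} (hφ : Pe n φ) {π : ι → RR} (κ : ι → ℂ) (B : Finset ι) (hB : Fm B π)
    (hκ : ∀ i ∈ B, Mu (π i) φ (κ i)) :
    Bd Ω W ((∏ i ∈ B, π i) * n) (fun m => φ m * ∏ i ∈ B, tr (π i) m) =
      (∏ i ∈ B, (lam (π i) - κ i)) * Bd Ω W n φ := by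
  classical
  induction B using Finset.induction_on with
  | empty => simp
  | insert q B hq ih =>
    have hBs : Fm B π := hB.mono (Finset.subset_insert _ _)
    have ih' := ih hBs fun p hp => hκ p (Finset.mem_insert_of_mem hp)
    have h1 := hB.pd q (Finset.mem_insert_self _ _)
    rw [Finset.prod_insert hq, mul_assoc, Finset.prod_insert hq, mul_assoc, ← ih']
    have e : (fun m : RR => φ m * ∏ i ∈ insert q B, tr (π i) m) =
        fun m : RR => if m ∈ sp (π q) then 0 else φ m * ∏ i ∈ B, tr (π i) m := by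
      funext m
      rw [Finset.prod_insert hq]
      unfold tr
      split_ifs <;> ring
    rw [e]
    have hne : ∀ p ∈ B, p ≠ q := fun p hp h => hq (h ▸ hp)
    refine Bd_rem hW hL (hBs.fo.mul hn) h1.fo ?_ ?_
    · exact (hφ.mono (Dvd.intro_left _ rfl)).mul ((Pe.prod fun p _ => tr_per (π p)).mono
        (Dvd.intro _ rfl))
    · have h2 : Mu (π q) (fun m => φ m * ∏ i ∈ B, tr (π i) m) (κ q * ∏ i ∈ B, (1 : ℂ)) := by
        refine (hκ q (Finset.mem_insert_self _ _)).mul (Mu.prod fun p hp m => ?_)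
        rw [one_mul]
        exact tr_mul (hBs.pd p hp).pr (hB.ne q (Finset.mem_insert_self _ _) p
          (Finset.mem_insert_of_mem hp) (hne p hp).symm) m
      intro m
      have h3 := h2 m
      rw [Finset.prod_const_one, mul_one] at h3
      exact h3

/-- the product of the symbols -/
noncomputable def ch {ι : Type} (π : ι → RR) (A : Finset ι) (m : RR) : ℂ := ∏ i ∈ A, sy (π i) m

lemma ch_per {ι : Type} (π : ι → RR) (A : Finset ι) : Pe (∏ i ∈ A, π i) (ch π A) :=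
  Pe.prod fun p _ => sy_per (π p)

lemma Fm.ch_mul {ι : Type} {A : Finset ι} {π : ι → RR} (h : Fm A π) (x y : RR) :
    ch π A (x * y) = ch π A x * ch π A y := by
  unfold ch
  rw [← Finset.prod_mul_distrib]
  exact Finset.prod_congr rfl fun i hi => (h.pd i hi).mul x y

lemma Fm.ch_neg {ι : Type} {A : Finset ι} {π : ι → RR} (h : Fm A π) (x : RR) :
    ch π A (-x) = ch π A x :=
  Finset.prod_congr rfl fun i hi => (h.pd i hi).symneg x

/-- the sum over the subsets -/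
theorem Bd_subsets {ι : Type} [DecidableEq ι] (hW : Ds L Ω lam W) (hL : IsLat L RR Ω)
    {π : ι → RR} (S : Finset ι) (hS : Fm S π) :
    ∑ A ∈ S.powerset, (∏ i ∈ S \ A, (lam (π i) - ch π A (π i))) *
      Bd Ω W (∏ i ∈ A, π i) (ch π A) =
    2 ^ S.card * Bd Ω W (∏ i ∈ S, π i) (fun m => ∏ i ∈ S, hc (π i) m) := by
  have h1 : ∀ A ∈ S.powerset, (∏ i ∈ S \ A, (lam (π i) - ch π A (π i))) *
      Bd Ω W (∏ i ∈ A, π i) (ch π A) =
      Bd Ω W (∏ i ∈ S, π i)
        (fun m => ((∏ i ∈ A, sy (π i) m) * ∏ i ∈ S \ A, tr (π i) m)) := by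
    intro A hA
    rw [Finset.mem_powerset] at hA
    have hAg := (hS.mono hA).fo
    have e0 : (∏ i ∈ S \ A, π i) * ∏ i ∈ A, π i = ∏ i ∈ S, π i := Finset.prod_sdiff hA
    rw [← Bd_rems hW hL hAg (ch_per π A) (fun i => ch π A (π i)) (S \ A)
      (hS.mono Finset.sdiff_subset) ?_]
    · rw [e0]
      rfl
    · intro i _
      exact fun m => (hS.mono hA).ch_mul (π i) m
  rw [Finset.sum_congr rfl h1, ← Bd_sum hS.fo.ne, ← Bd_smul hS.fo.ne]
  congr 1
  funext m
  have h2 : ∏ i ∈ S, (sy (π i) m + tr (π i) m) =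
      ∑ A ∈ S.powerset, (∏ i ∈ A, sy (π i) m) * ∏ i ∈ S \ A, tr (π i) m :=
    Finset.prod_add _ _ _
  have h3 : ∏ i ∈ S, (sy (π i) m + tr (π i) m) = 2 ^ S.card * ∏ i ∈ S, hc (π i) m := by
    rw [← Finset.prod_const, ← Finset.prod_mul_distrib]
    refine Finset.prod_congr rfl fun q _ => ?_
    unfold hc
    ring
  rw [← h2, h3]

end Pool.Agent.N843
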