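import Pool.Agent.N843.Zb

/-!
# The Selmer groups of the even weights of the twists by `-D`, `D ≡ 1 mod 8`
-/

set_option autoImplicit false
set_option linter.unusedSectionVars false
set_option linter.unusedSimpArgs false
set_option linter.unusedVariables false

namespace Pool.Agent.N843.E

open QuadraticAlgebra

open Pool.Agent.N843 Pool.Agent.N843.X
open Pool.Agent.Y698 (RR aR bR fR)
open Pool.Agent.Y698.SG (gd mc mr)
open Pool.Agent.R384
open Pool.Agent.Y715.Red Pool.Agent.Y715.Nr Pool.Agent.W237.RK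
open Pool.Agent.Y715.Gi (QB KK GK i₀_mem gk_fix)
open Pool.Agent.Y715.Df (Cmp exists_cmp)
open Pool.Agent.Y715.Lc (norm_two_odd)

open scoped Classical

section one

variable {i₀ : QB} (hi : i₀ ^ 2 = i₀ - 2)
variable {κ κ' : GK i₀ →* ℤ_[2]ˣ} {r I : QB}

/-- **The vanishing theorem** for the curve `E_{-D}`. -/
theorem vanishE {D : ℕ} {S : Finset RR} (h : FD D S)
    (hg : gd (mc fun p : RR => p) (mr fun p : RR => p) S ≠ 0)
    (kd : KD hi κ κ' (s7 * ((D : ℤ) : OO)) r I) (j : ℤ) {ϖ ϖ' : OO}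
    (hϖ : (Odd j ∧ ϖ = om ∧ ϖ' = 1 - om) ∨ (Even j ∧ ϖ = 1 - om ∧ ϖ' = om))
    {c : GK i₀ → ℚ_[2]} (hc : Coc (κ ^ j * κ' ^ (1 - j)) c)
    (hodd : ∀ (p : ℕ) [Fact p.Prime] (ι : QB →ₐ[ℚ] PadicAlgCl p), p ≠ 2 →
      CobOn (κ ^ j * κ' ^ (1 - j)) (II ι) c)
    (hstr : ∀ ι : QB →ₐ[ℚ] PadicAlgCl 2, ‖ι (em hi ϖ)‖ < 1 →
      CobOn (κ ^ j * κ' ^ (1 - j)) (DD ι) c) :
    ∃ y : ℚ_[2], ∀ σ, c σ = (vl (κ ^ j * κ' ^ (1 - j)) σ - 1) * y := by
  obtain ⟨m, s, hm, cd⟩ := chiD7 hi kd j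
  have h8 := eight_of h.m8
  rcases hϖ with ⟨hj, h1, h2⟩ | ⟨hj, h1, h2⟩
  · have hm' : m = -(s7 * ((D : ℤ) : OO)) := by
      rcases hm with ⟨h, -⟩ | ⟨-, h⟩
      · exact absurd h (Int.not_even_iff_odd.2 hj)
      · exact h
    refine mainG hi h hg cd pE (Or.inl ⟨h1, h2⟩) (by rw [h1, pE_om]) (Or.inl pE_s7) ?_
      (fun ι hι => ?_) hc hodd hstr
    · rw [hm', map_neg, map_mul, pE_s7, map_intCast]
      ring
    · rw [h1] at hι
      rw [hm']
      exact (s7_five hi h8).1 hι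
  · have hm' : m = s7 * ((D : ℤ) : OO) := by
      rcases hm with ⟨-, h⟩ | ⟨h, -⟩
      · exact h
      · exact absurd hj (Int.not_even_iff_odd.2 h)
    refine mainG hi h hg cd pE' (Or.inr ⟨h1, h2⟩) (by rw [h1, pE'_om']) (Or.inr pE'_s7) ?_
      (fun ι hι => ?_) hc hodd hstr
    · rw [hm', map_mul, pE'_s7, map_intCast]
    · rw [h1] at hι
      rw [hm']
      exact (s7_five hi h8).2 hι

variable {D : OO} {n : ℕ} {s : Fin n → QB}

/-- **The vanishing theorem over multiquadratic fields.** -/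
theorem vanish_mqE {E : Fin n → OO} (hE : ∀ i, s i ^ 2 = em hi (E i)) (kd : KD hi κ κ' D r I)
    (hD : D ≠ 0) (hE0 : ∀ i, E i ≠ 0)
    (hgood : ∀ T : Finset (Fin n), ∃ (D0 : ℕ) (S : Finset RR) (z : OO), FD D0 S ∧
      gd (mc fun p : RR => p) (mr fun p : RR => p) S ≠ 0 ∧ z ≠ 0 ∧
      D * ∏ i ∈ T, E i = (s7 * ((D0 : ℤ) : OO)) * z ^ 2) (j : ℤ) {ϖ ϖ' : OO}
    (hϖ : (Odd j ∧ ϖ = om ∧ ϖ' = 1 - om) ∨ (Even j ∧ ϖ = 1 - om ∧ ϖ' = om)) :
    VanOn hi ϖ (κ ^ j * κ' ^ (1 - j)) (fixs s Finset.univ) := by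
  classical
  have hs0 : ∀ i, s i ≠ 0 := by
    intro i h
    have h1 := hE i
    rw [h, zero_pow two_ne_zero] at h1
    exact hE0 i (em_inj hi h1.symm)
  have hs : ∀ (i) (σ : GK i₀), σ (s i) = s i ∨ σ (s i) = -s i := fun i σ => rt_or hi (hE i) σ
  refine van_all hi hs0 hs ϖ Finset.univ _ fun T _ => ?_
  obtain ⟨D0, S0, z, hF, hg, hz, hprod⟩ := hgood T
  have kd1 := KD.twists hi hs0 hs hE kd hD hE0 T
  have hz0 : em hi z ≠ 0 := em_ne hi hz
  have kd2 := KD.resc hi kd1 (D' := (s7 * ((D0 : ℤ) : OO))) (u := (em hi z)⁻¹) (inv_ne_zero hz0)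
    (fun σ => by rw [map_inv₀, gk_em]) (by
      rw [mul_pow, kd1.hr, hprod, map_mul, map_pow]
      field_simp)
  set S := ∏ i ∈ T, sgc (es (hs0 i) (hs i)) with hS
  have e : κ ^ j * κ' ^ (1 - j) * S = (κ * S) ^ j * (κ' * S) ^ (1 - j) := by
    refine MonoidHom.ext fun σ => ?_
    have key : ∀ a b c : ℤ_[2]ˣ, a ^ j * b ^ (1 - j) * c = (a * c) ^ j * (b * c) ^ (1 - j) :=
      fun a b c => by
        rw [mul_zpow, mul_zpow, mul_mul_mul_comm, ← zpow_add, add_sub_cancel, zpow_one]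
    exact key _ _ _
  intro c hc hodd hstr
  rw [e] at hc hodd hstr ⊢
  obtain ⟨y, hy⟩ := vanishE hi hF hg kd2 j hϖ
    (c := c) ⟨by
      have := hc.cont
      rwa [Subgroup.coe_top, continuousOn_univ] at this, fun σ τ => hc.mul σ trivial τ trivial⟩
    (fun p _ ι hp => by
      obtain ⟨y, hy⟩ := hodd p ι hp
      exact ⟨y, fun σ hσ => hy σ hσ trivial⟩)
    (fun ι hι => by
      obtain ⟨y, hy⟩ := hstr ι hι
      exact ⟨y, fun σ hσ => hy σ hσ trivial⟩)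
  exact ⟨y, fun σ _ => hy σ⟩

/-- there is an element of an inertia group of a place above seven at which the character is `-1` -/
theorem exists_moneE {D : ℕ} (h7 : ¬ 7 ∣ D) (kd : KD hi κ κ' (s7 * ((D : ℤ) : OO)) r I) (j : ℤ) :
    ∃ (p : ℕ) (_ : Fact p.Prime) (ι : QB →ₐ[ℚ] PadicAlgCl p), p ≠ 2 ∧
      ‖em (iw hi ι) s7‖ < 1 ∧
      ∃ (σ : GK i₀) (τ : Au p), Cmp ι τ σ ∧ Inert τ ∧ (κ ^ j * κ' ^ (1 - j)) σ = -1 := by
  obtain ⟨m, s, hm, cd⟩ := chiD7 hi kd j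
  obtain ⟨m1, hm1, hm1'⟩ : ∃ m1, m = s7 * m1 ∧ ¬ s7 ∣ m1 := by
    rcases hm with ⟨-, h⟩ | ⟨-, h⟩
    · exact ⟨((D : ℤ) : OO), by rw [h], s7_ndvd h7⟩
    · exact ⟨-((D : ℤ) : OO), by rw [h]; ring, by rw [dvd_neg]; exact s7_ndvd h7⟩
  obtain ⟨l, hl, ι, hι⟩ := exists_emb hi prime_s7
  rw [ι_em] at hι
  have hl7 := p_seven (iw hi ι) hι
  have hl2 : l ≠ 2 := by rw [hl7]; norm_num
  obtain ⟨σ₀, ⟨τ, hτ, hin⟩, h2⟩ := exists_ram hi cd prime_s7 hm1 hm1' hι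
  exact ⟨l, hl, ι, hl2, hι, σ₀, τ, hτ, hin, (cd.inert l ι τ σ₀ hl2 hτ hin).2 h2⟩

end one

open Pool.Agent.N843.Z (Fm Gp gp_ne)
open Pool.Agent.Results.MP_787500_nt.AllWeightsMultiquadraticX49 (RankZeroShaTwo tw tw_eq tw_ne
  Chr QBar OK E ED Iso TateModule SelmerZero GalL galL_eq selmer_of chi K gen emb emb_eq gen_sq
  curve zv qv Eigen IsBasis ActsBy tr tr_act curve_eq)

/-- the characters -/
theorem exists_tateO {w : QBar} (hw : w ^ 2 = w - 2) {D : OK} (hD : D ≠ 0) :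
    ∃ κ κ' : Chr w, TateModule D κ κ' ∧ ∃ r I : QBar,
      Pool.Agent.R384.KD hw κ κ' D r I := by
  have h : Pool.Agent.R384.WD w (Pool.Agent.R384.em hw D) := ⟨hw, Pool.Agent.R384.em_ne hw hD⟩
  obtain ⟨r, hr⟩ : ∃ r : QBar, r ^ 2 = Pool.Agent.R384.em hw D :=
    IsAlgClosed.exists_pow_nat_eq _ (by norm_num)
  obtain ⟨I, hI⟩ : ∃ I : QBar, I ^ 2 = -1 := IsAlgClosed.exists_pow_nat_eq _ (by norm_num)
  have fx : ∀ σ : Pool.Agent.Results.MP_787500_nt.AllWeightsMultiquadraticX49.Gal w,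
      Pool.Agent.R384.Fx w (Pool.Agent.R384.em hw D) (Pool.Agent.R384.rh σ) := fun σ =>
    ⟨Pool.Agent.Y715.Gi.gk_fix σ, Pool.Agent.R384.gk_em hw σ D⟩
  obtain ⟨κ, κ', x, y, kd, hx, hy, ax, ay⟩ := Pool.Agent.R384.exists_kd hw hD h hr hI fx
  have td := Pool.Agent.R384.td h
  set T := tr (curve_eq hw (D := D)) with hT
  have hor : ∀ {p : ℕ} [Fact p.Prime] (ι : QBar →ₐ[ℚ] PadicAlgCl p) (s : QBar) (z : OK),
      s ^ 2 = Pool.Agent.R384.em hw z →
      ∀ σ : Pool.Agent.Results.MP_787500_nt.AllWeightsMultiquadraticX49.Gal w,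
        σ s = s ∨ σ s = -s := fun ι s z hs σ =>
    Pool.Agent.R384.rt_or hw hs σ
  have hIr : (I * r) ^ 2 = Pool.Agent.R384.em hw (-D) := by rw [mul_pow, hI, hr, map_neg]; ring
  refine ⟨κ, κ', ⟨⟨fun n => T.symm (y n), fun n => T.symm (x n), ⟨?_, ?_, ?_, ?_⟩,
    ⟨Units.continuous_val.comp kd.cont, fun σ => ?_⟩,
    ⟨Units.continuous_val.comp kd.cont', fun σ => ?_⟩⟩, ?_, ?_⟩, ⟨r, I, kd⟩⟩
  · show T.symm (y 0) = 0 ∧ T.symm (x 0) = 0
    rw [hx.zero, hy.zero, map_zero]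
    exact ⟨rfl, rfl⟩
  · intro n
    show T.symm (y (n + 1)) + T.symm (y (n + 1)) = T.symm (y n) ∧
      T.symm (x (n + 1)) + T.symm (x (n + 1)) = T.symm (x n)
    rw [← map_add, ← map_add, hx.dbl, hy.dbl]
    exact ⟨rfl, rfl⟩
  · intro n P hP
    have h1 : (2 ^ n : ℤ) • T P = 0 := by rw [← map_zsmul, hP, map_zero]
    obtain ⟨a, b, hab⟩ := Pool.Agent.R384.Tow.basis td hx hy h1
    refine ⟨b, a, ?_⟩
    apply T.injective
    show T P = T (b • T.symm (y n) + a • T.symm (x n))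
    rw [map_add, map_zsmul, map_zsmul, T.apply_symm_apply, T.apply_symm_apply, hab, add_comm]
  · intro n a b hab
    have h1 : T (a • T.symm (y n) + b • T.symm (x n)) = 0 := by
      show T ((fun n => a • T.symm (y n) + b • T.symm (x n)) n) = 0
      rw [show (fun n => a • T.symm (y n) + b • T.symm (x n)) n = 0 from hab, map_zero]
    rw [map_add, map_zsmul, map_zsmul, T.apply_symm_apply, T.apply_symm_apply, add_comm] at h1
    exact (Pool.Agent.R384.Tow.uniq td hx hy h1).symm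
  · intro n k hk
    show Pool.Agent.Results.MP_787500_nt.AllWeightsMultiquadraticX49.act σ (T.symm (y n)) =
      k • T.symm (y n)
    apply T.injective
    rw [hT, tr_act hw h fx σ, ← hT, T.apply_symm_apply, map_zsmul, T.apply_symm_apply]
    exact ay σ n k hk
  · intro n k hk
    show Pool.Agent.Results.MP_787500_nt.AllWeightsMultiquadraticX49.act σ (T.symm (x n)) =
      k • T.symm (x n)
    apply T.injective
    rw [hT, tr_act hw h fx σ, ← hT, T.apply_symm_apply, map_zsmul, T.apply_symm_apply]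
    exact ax σ n k hk
  · rintro p _ ι hn σ ⟨τ, hτ, hin⟩
    have h1 := kd.inert p ι τ σ hτ hin hn
    unfold zv
    rcases hor ι _ _ hIr σ with h2 | h2
    · rw [h1.1 h2, Units.val_one, one_pow]
    · rw [h1.2 h2, Units.val_neg, Units.val_one, neg_one_sq]
  · rintro p _ ι hn σ ⟨τ, hτ, hin⟩
    have h1 := kd.inert' p ι τ σ hτ hin hn
    unfold zv
    rcases hor ι _ _ hr σ with h2 | h2
    · rw [h1.1 h2, Units.val_one, one_pow]
    · rw [h1.2 h2, Units.val_neg, Units.val_one, neg_one_sq]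

/-! ### The curves -/

/-- the twist of `X_0(49)` by `-D` -/
def EN (D : ℕ) : WeierstrassCurve ℚ :=
  ⟨0, 3 * (D : ℚ), 0, -32 * (D : ℚ) ^ 2, 64 * (D : ℚ) ^ 3⟩

lemma gen_isoN {F : Type} [Field F] {g d : F} (hg : g ^ 2 = g - 2) :
    (⟨1, (g + 2) * d, 0, 0⟩ : WeierstrassCurve.VariableChange F) •
      (⟨0, 3 * d, 0, -32 * d ^ 2, 64 * d ^ 3⟩ : WeierstrassCurve F) =
      ⟨0, 3 * (1 - g) * (2 * d * g - d), 0, g ^ 4 * (2 * d * g - d) ^ 2, 0⟩ := by
  have hu : (((1 : Fˣ)⁻¹ : Fˣ) : F) = 1 := by simp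
  ext
  · simp only [WeierstrassCurve.variableChange_a₁, hu]
    ring
  · simp only [WeierstrassCurve.variableChange_a₂, hu]
    linear_combination (6 * d) * hg
  · simp only [WeierstrassCurve.variableChange_a₃, hu]
    ring
  · simp only [WeierstrassCurve.variableChange_a₄, hu]
    linear_combination ((-4 * g ^ 4 + 7 * g ^ 2 + 7 * g - 4) * d ^ 2) * hg
  · simp only [WeierstrassCurve.variableChange_a₆, hu]
    linear_combination ((g + 10) * d ^ 3) * hg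

lemma tw_isoN {w : QBar} (hw : w ^ 2 = w - 2) (D : ℕ) :
    ∃ C : WeierstrassCurve.VariableChange (K w),
      C • (EN D).map (algebraMap ℚ (K w)) = ED w (-Pool.Agent.Results.MP_787500_nt.AllWeightsMultiquadraticX49.tw D) := by
  have hg := gen_sq.2 hw
  have hemb : (emb (gen w) (-Pool.Agent.Results.MP_787500_nt.AllWeightsMultiquadraticX49.tw D) : K w) = 2 * D * gen w - D := by
    unfold emb Pool.Agent.Results.MP_787500_nt.AllWeightsMultiquadraticX49.tw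
    simp only [QuadraticAlgebra.re_neg, QuadraticAlgebra.im_neg]
    push_cast
    ring
  refine ⟨_, Eq.trans (congrArg _ ?_) ((gen_isoN (d := (D : K w)) hg).trans ?_)⟩
  · unfold EN WeierstrassCurve.map
    congr 1 <;> simp
  · unfold ED curve
    rw [hemb]

/-- the characters are not trivial on the Galois groups of the multiquadratic fields -/
theorem exists_fixE {w : QBar} (hw : w ^ 2 = w - 2) {M n : ℕ} {d : Fin n → ℕ} (hG : Gp M d)
    {κ κ' : Chr w} {r I : QBar} (kd : KD hw κ κ' (-Pool.Agent.Results.MP_787500_nt.AllWeightsMultiquadraticX49.tw M) r I) {s : Fin n → QBar}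
    (hs : ∀ i, s i ^ 2 = (d i : QBar)) (j : ℤ) :
    ∃ σ : Pool.Agent.Results.MP_787500_nt.AllWeightsMultiquadraticX49.Gal w,
      (∀ i, σ (s i) = s i) ∧ (κ ^ j * κ' ^ (1 - j)) σ = -1 := by
  obtain ⟨D0, k0, hk0, hA0, he0⟩ := hG ∅
  rw [Finset.prod_empty, mul_one] at he0
  have hk0' : (k0 : QB) ≠ 0 := Nat.cast_ne_zero.2 hk0
  have kd2 : KD hw κ κ' (s7 * ((D0 : ℤ) : OO)) ((k0 : QB)⁻¹ * r) I := by
    refine KD.resc hw kd (inv_ne_zero hk0') (fun σ => by rw [map_inv₀, map_natCast]) ?_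
    have h1 : ((M : ℤ) : OO) = ((D0 : ℤ) : OO) * ((k0 : ℤ) : OO) ^ 2 := by
      rw [he0]
      push_cast
      ring
    have h2 : em hw (((k0 : ℤ) : OO)) = (k0 : QB) := by
      rw [map_intCast]
      norm_cast
    rw [mul_pow, kd.hr, tw_eq, h1, neg_neg, map_mul, map_mul, map_pow, h2, map_mul]
    field_simp
  obtain ⟨p, hp, ι, hp2, hι, σ, τ, hc, hin, hσ⟩ := exists_moneE hw hA0.n7 kd2 j
  refine ⟨σ, fun i => ?_, hσ⟩
  obtain ⟨D1, k1, hk1, hA1, he1⟩ := hG {i}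
  rw [Finset.prod_singleton] at he1
  obtain ⟨a, ha⟩ : ∃ a : QB, a ^ 2 = ((D0 * D1 : ℕ) : QB) :=
    IsAlgClosed.exists_pow_nat_eq _ (by norm_num)
  have h7 : ¬ 7 ∣ D0 * D1 := by
    intro h
    rcases (Nat.Prime.dvd_mul (by norm_num)).1 h with h | h
    · exact hA0.n7 h
    · exact hA1.n7 h
  have hfa := fix_seven hw h7 ha hp2 hι hc hin
  have hD0 : (D0 : QB) ≠ 0 := Nat.cast_ne_zero.2 hA0.sq.ne_zero
  have h1 : (s i * (D0 * k0)) ^ 2 = (a * k1) ^ 2 := by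
    have h2 : ((M * d i : ℕ) : QB) = ((D1 * k1 ^ 2 : ℕ) : QB) := congrArg _ he1
    rw [he0] at h2
    push_cast at h2 ha
    rw [mul_pow (s i), mul_pow a, hs i, ha]
    linear_combination (D0 : QB) * h2
  have hne : (D0 : QB) * k0 ≠ 0 := mul_ne_zero hD0 hk0'
  have hfix : ∀ y : QB, y = a * k1 ∨ y = -(a * k1) → σ y = y := by
    rintro y (rfl | rfl)
    · rw [map_mul, map_natCast, hfa]
    · rw [map_neg, map_mul, map_natCast, hfa]
  have h3 := hfix _ (sq_eq_sq_iff_eq_or_eq_neg.1 h1)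
  rw [map_mul, map_mul, map_natCast, map_natCast] at h3
  exact mul_right_cancel₀ hne h3

/-- the even weights -/
def EvenWeights {w : QBar} (κ κ' : Chr w) {n : ℕ} (s : Fin n → QBar) : Prop :=
  ∀ k : ℤ, 0 < k → Even k → SelmerZero (1 - w) (GalL w s) (chi κ κ' k) ∧
    SelmerZero w (GalL w s) (chi κ κ' (1 - k))

/-- **the Selmer groups are zero in all even weights** -/
theorem even_weights {w : QBar} (hw : w ^ 2 = w - 2) {M n : ℕ} {d : Fin n → ℕ} (hG : Gp M d)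
    {κ κ' : Chr w} {r I : QBar} (kd : KD hw κ κ' (-Pool.Agent.Results.MP_787500_nt.AllWeightsMultiquadraticX49.tw M) r I) {s : Fin n → QBar}
    (hs : ∀ i, s i ^ 2 = (d i : QBar)) : EvenWeights κ κ' s := by
  obtain ⟨hM0, hd0⟩ := gp_ne hG
  have hE : ∀ i, s i ^ 2 = em hw (((d i : ℤ) : OO)) := by
    intro i
    rw [hs i, map_intCast]
    norm_cast
  have hE0 : ∀ i, ((d i : ℤ) : OO) ≠ 0 := by
    intro i h
    have h1 := congrArg QuadraticAlgebra.re h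
    have h2 : ((d i : ℤ)) = 0 := by simpa using h1
    exact hd0 i (by exact_mod_cast h2)
  have hgood : ∀ T : Finset (Fin n), ∃ (D0 : ℕ) (S : Finset RR) (z : OO), FD D0 S ∧
      gd (mc fun p : RR => p) (mr fun p : RR => p) S ≠ 0 ∧ z ≠ 0 ∧
      -Pool.Agent.Results.MP_787500_nt.AllWeightsMultiquadraticX49.tw M * ∏ i ∈ T, ((d i : ℤ) : OO) = (s7 * ((D0 : ℤ) : OO)) * z ^ 2 := by
    intro T
    obtain ⟨D, k, hk, hF, he⟩ := hG T
    obtain ⟨S, hS, hg⟩ := hF.fam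
    refine ⟨D, S, ((k : ℤ) : OO), hS, hg, ?_, ?_⟩
    · intro h
      have h1 := congrArg QuadraticAlgebra.re h
      have h2 : ((k : ℤ)) = 0 := by simpa using h1
      exact hk (by exact_mod_cast h2)
    · have h1 : (((M * ∏ i ∈ T, d i : ℕ) : ℤ) : OO) = (((D * k ^ 2 : ℕ) : ℤ) : OO) := by rw [he]
      push_cast at h1
      rw [tw_eq]
      push_cast
      linear_combination s7 * h1
  intro k hk hk'
  have hko : Odd (1 - k) := by
    rw [Int.odd_sub]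
    simp [hk']
  rw [galL_eq]
  have hne : -Pool.Agent.Results.MP_787500_nt.AllWeightsMultiquadraticX49.tw M ≠ 0 := neg_ne_zero.2 (tw_ne hM0)
  exact ⟨selmer_of hw (vanish_mqE hw hE kd hne hE0 hgood k (Or.inr ⟨hk', rfl, rfl⟩))
      (Pool.Agent.Kdt384.em_om' hw),
    selmer_of hw (vanish_mqE hw hE kd hne hE0 hgood (1 - k) (Or.inl ⟨hko, rfl, rfl⟩))
      (Pool.Agent.Kdt384.em_om hw)⟩

end Pool.Agent.N843.E
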