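import Pool.Agent.N843.Zb
import Pool.Agent.N973.ND.Fin
import Pool.Agent.N226.DM.Asy
import Pool.Agent.N226.DM.KEY
import Pool.Agent.N186.DM.KD
import Pool.Agent.N186.DM.LOW

/-!
# The density in the residue classes
-/

set_option autoImplicit false

namespace Pool.Agent.N843.Z

open Pool.Agent.N973.ND

/-- **the natural density in the residue classes** -/
theorem dm_den : Pool.Agent.N843.DM.M_DEN :=
  Pool.Agent.N226.DM.Asy.t_NS (Pool.Agent.N226.DM.Asy.t_DQ t_EQ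
    (t_LA (t_ALT Pool.Agent.Y839.CQ.t_SYM) Pool.Agent.Y948.CQ.t_C2) t_BOX
    Pool.Agent.N226.DM.KEY.t_KEY Pool.Agent.N713.ND.CNT.t_CNT Pool.Agent.Y488.CX.t_SIE
    Pool.Agent.N897.ND.t_HAL Pool.Agent.N897.ND.t_BAD Pool.Agent.N713.ND.FEW.t_FEW
    Pool.Agent.Y405.CQ.t_MER Pool.Agent.N186.DM.t_LOW Pool.Agent.N186.DM.t_KD
    Pool.Agent.N713.ND.NS.t_NEG Pool.Agent.Y948.CQ.t_C2)

end Pool.Agent.N843.Z
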