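import Pool.Agent.N843.Ek
import Pool.Agent.N843.El
import Pool.Agent.N843.Zd

/-!
# All the weights: the twists by `D` and by `-D`
-/

set_option autoImplicit false
set_option linter.unusedSectionVars false
set_option linter.unusedSimpArgs false
set_option linter.unusedVariables false

open Filter IsDedekindDomain
open scoped NumberTheorySymbols

namespace Pool.Agent.N843.A

open Pool.Agent.N843
open Pool.Agent.Y698 (RR EX)
open Pool.Agent.Y698.SG (gd mc mr)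
open Pool.Agent.R384 (OO KD em om s7)
open Pool.Agent.N843.X (FD coreX coreL cf psiX_of eulX)
open Pool.Agent.N843.E (PsiE WM coreE coreLE eulE cnt_EX cnt_WM exists_tateO even_weights exists_fixE)
open Pool.Agent.N843.Z (Gp gp_ne odd_weights exists_fixG)

/-- `y² = x³ - 3 d x² - 32 d² x - 64 d³` -/
def mZ (d : ℤ) : WeierstrassCurve ℤ := ⟨0, -3 * d, 0, -32 * d ^ 2, -64 * d ^ 3⟩

/-- the quadratic character of the twist -/
def quad (d n : ℤ) : ℤ := (if d < 0 then ZMod.χ₄ (n : ZMod 4) else 1) * jacobiSym n d.natAbs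

lemma quad_pos {D : ℕ} (n : ℤ) : quad (D : ℤ) n = jacobiSym n D := by
  unfold quad
  rw [if_neg (by omega), one_mul, Int.natAbs_natCast]

lemma quad_neg {D : ℕ} (hD : D ≠ 0) (n : ℤ) :
    quad (-(D : ℤ)) n = ZMod.χ₄ (n : ZMod 4) * jacobiSym n D := by
  unfold quad
  rw [if_pos (by omega), Int.natAbs_neg, Int.natAbs_natCast]

/-- the weights -/
def W (d k : ℤ) : Prop := 0 < k ∧ ((0 < d ∧ Odd k) ∨ (d < 0 ∧ Even k))

/-- the Hecke character of the twist -/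
structure PsiZ (d : ℤ) (z : ℂ) (ψ : Ideal OO → ℂ) : Prop where
  mul : ∀ I J : Ideal OO, ψ (I * J) = ψ I * ψ J
  val : ∀ x : OO, ψ (Ideal.span {x}) = (jacobiSym (x.re + 4 * x.im) 7 : ℂ) *
    (quad d (x.re ^ 2 + x.re * x.im + 2 * x.im ^ 2) : ℂ) * ((x.re : ℂ) + (x.im : ℂ) * z)

section points

variable {F : Type} [Field F] [Fintype F] [DecidableEq F]

lemma mZ_neg (D : ℕ) : mZ (-(D : ℤ)) = WM D := by
  unfold mZ WM
  ext
  · rfl
  · show -3 * -(D : ℤ) = 3 * D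
    ring
  · rfl
  · show -32 * (-(D : ℤ)) ^ 2 = -32 * (D : ℤ) ^ 2
    ring
  · show -64 * (-(D : ℤ)) ^ 3 = 64 * (D : ℤ) ^ 3
    ring

lemma cnt_mZ (hF : ringChar F ≠ 2) {D j : ℕ} (hj : D = 1 + 4 * j) : Nat.card {v : F × F //
    ((mZ D).map (Int.castRingHom F)).toAffine.Equation v.1 v.2} = Nat.card {v : F × F //
      (EX F (j : F)).toAffine.Equation v.1 v.2} := by
  rw [cnt_EX hF]
  refine Nat.card_congr (Equiv.subtypeEquivRight fun v => ?_)
  rw [WeierstrassCurve.Affine.equation_iff]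
  have hD : (D : F) = 1 + 4 * (j : F) := by
    rw [hj]
    push_cast
    rfl
  have e1 : ((mZ D).map (Int.castRingHom F)).toAffine.a₁ = 0 := by
    show (Int.castRingHom F) 0 = 0
    rw [map_zero]
  have e2 : ((mZ D).map (Int.castRingHom F)).toAffine.a₂ = -3 * (D : F) := by
    show (Int.castRingHom F) (-3 * (D : ℤ)) = _
    rw [eq_intCast]
    push_cast
    rfl
  have e3 : ((mZ D).map (Int.castRingHom F)).toAffine.a₃ = 0 := by
    show (Int.castRingHom F) 0 = 0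
    rw [map_zero]
  have e4 : ((mZ D).map (Int.castRingHom F)).toAffine.a₄ = -32 * (D : F) ^ 2 := by
    show (Int.castRingHom F) (-32 * (D : ℤ) ^ 2) = _
    rw [eq_intCast]
    push_cast
    rfl
  have e6 : ((mZ D).map (Int.castRingHom F)).toAffine.a₆ = -64 * (D : F) ^ 3 := by
    show (Int.castRingHom F) (-64 * (D : ℤ) ^ 3) = _
    rw [eq_intCast]
    push_cast
    rfl
  rw [e1, e2, e3, e4, e6, hD]
  constructor
  · intro h
    show v.2 ^ 2 = _
    linear_combination h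
  · intro h
    have h' : v.2 ^ 2 = v.1 ^ 3 - 3 * (1 + 4 * (j : F)) * v.1 ^ 2 - 32 * (1 + 4 * (j : F)) ^ 2 * v.1 -
      64 * (1 + 4 * (j : F)) ^ 3 := h
    linear_combination h'

end points

lemma two_not {d : ℤ} {A : HeightOneSpectrum OO} (h : ((14 * d : ℤ) : OO) ∉ A.asIdeal) :
    (2 : OO) ∉ A.asIdeal := by
  intro h1
  apply h
  have := A.asIdeal.mul_mem_left ((7 * d : ℤ) : OO) h1
  convert this using 1
  push_cast
  ring

/-- the points of the short model -/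
theorem eulP {D : ℕ} {S : Finset RR} (h : FD D S) {j : ℕ}
    (hj : D = 1 + 4 * j) {z : ℂ} (hz : z ^ 2 = z - 2)
    {ψ : Ideal OO → ℂ} (hψ : PsiQ D z ψ) (A : HeightOneSpectrum OO)
    (h7D : ((14 * (D : ℤ) : ℤ) : OO) ∉ A.asIdeal) :
    ((Nat.card {x : (OO ⧸ A.asIdeal) × (OO ⧸ A.asIdeal) //
        ((mZ D).map (Int.castRingHom (OO ⧸ A.asIdeal))).toAffine.Equation x.1 x.2} : ℕ) : ℂ) =
      (Nat.card (OO ⧸ A.asIdeal) : ℂ) - (ψ A.asIdeal + (starRingEnd ℂ) (ψ A.asIdeal)) := by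
  classical
  have h7 : ((7 * (1 + 4 * j) : ℕ) : OO) ∉ A.asIdeal := by
    intro h1
    apply h7D
    have := A.asIdeal.mul_mem_left 2 h1
    convert this using 1
    rw [hj]
    push_cast
    ring
  have h2 := two_not h7D
  have key := eulX h hj hz hψ A h7
  rw [← key]
  obtain ⟨g, hg⟩ : ∃ g : OO, A.asIdeal = Ideal.span {g} := by
    obtain ⟨g, hg⟩ := (IsPrincipalIdealRing.principal A.asIdeal).principal
    exact ⟨g, hg⟩
  have hg0 : g ≠ 0 := by
    rintro rfl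
    rw [Ideal.span_singleton_zero] at hg
    exact A.ne_bot hg
  have hcard := card_map g
  rw [← hg] at hcard
  have hfin : Finite (OO ⧸ A.asIdeal) := by
    apply Nat.finite_of_card_ne_zero
    have h3 := Pool.Agent.Y698.nR_pos (r := pH g) (fun h0 => hg0 (pH_inj (by rw [h0, map_zero])))
    rw [← hcard] at h3
    omega
  have hmax : A.asIdeal.IsMaximal := A.isPrime.isMaximal A.ne_bot
  letI : Field (OO ⧸ A.asIdeal) := Ideal.Quotient.field _
  letI : Fintype (OO ⧸ A.asIdeal) := Fintype.ofFinite _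
  have hF : ringChar (OO ⧸ A.asIdeal) ≠ 2 := by
    intro h1
    have h3 : ((2 : ℕ) : OO ⧸ A.asIdeal) = 0 := by
      rw [ringChar.spec, h1]
    apply h2
    rw [← Ideal.Quotient.eq_zero_iff_mem]
    rw [map_ofNat]
    exact_mod_cast h3
  have h5 := cnt_mZ (F := OO ⧸ A.asIdeal) hF hj
  exact congrArg (fun t : ℕ => (t : ℂ)) h5

lemma psiZ_pos {D : ℕ} {z : ℂ} {ψ : Ideal OO → ℂ} (h : PsiQ D z ψ) : PsiZ (D : ℤ) z ψ :=
  ⟨h.mul, fun x => by rw [h.val, quad_pos]⟩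

lemma psiZ_neg {D : ℕ} (hD : D ≠ 0) {z : ℂ} {ψ : Ideal OO → ℂ} (h : PsiE D z ψ) :
    PsiZ (-(D : ℤ)) z ψ :=
  ⟨h.mul, fun x => by rw [h.val, quad_neg hD]⟩

/-- **the central values of all the weights** -/
theorem coreZ {D : ℕ} (hD : Z.Fm D) {d : ℤ} (hd : d = D ∨ d = -(D : ℤ)) {z : ℂ} (hz : z ^ 2 = z - 2) :
    ∃ ψ : Ideal OO → ℂ, PsiZ d z ψ ∧
      (∀ A : HeightOneSpectrum OO, ((14 * d : ℤ) : OO) ∉ A.asIdeal →
        ((Nat.card {x : (OO ⧸ A.asIdeal) × (OO ⧸ A.asIdeal) //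
          ((mZ d).map (Int.castRingHom (OO ⧸ A.asIdeal))).toAffine.Equation x.1 x.2} : ℕ) : ℂ) =
        (Nat.card (OO ⧸ A.asIdeal) : ℂ) - (ψ A.asIdeal + (starRingEnd ℂ) (ψ A.asIdeal))) ∧
      ∀ k : ℤ, W d k → J1 ψ k ∧ J1 ψ (1 - k) := by
  obtain ⟨S, hS, hg⟩ := hD.fam
  have h0 : D ≠ 0 := hD.sq.ne_zero
  obtain ⟨j, hj⟩ : ∃ j, D = 1 + 4 * j := ⟨D / 4, by have := hD.m8; omega⟩
  rcases hd with rfl | rfl
  · obtain ⟨ψ, h1, h2, h3⟩ := coreX hS hg hz
    refine ⟨ψ, psiZ_pos h1, fun A hA => eulP hS hj hz h1 A hA, ?_⟩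
    rintro k ⟨hk, ⟨-, hk'⟩ | ⟨hk', -⟩⟩
    · obtain ⟨m, hm⟩ := hk'
      obtain ⟨n, rfl⟩ : ∃ n : ℕ, m = n := ⟨m.toNat, by omega⟩
      rw [hm]
      exact h3 n
    · omega
  · obtain ⟨ψ, h1, h2, h3⟩ := coreE hS hg hz
    refine ⟨ψ, psiZ_neg h0 h1, fun A hA => ?_, ?_⟩
    · rw [mZ_neg]
      refine h2 A fun h => hA ?_
      have := neg_mem h
      convert this using 1
      push_cast
      ring
    · rintro k ⟨hk, ⟨hk', -⟩ | ⟨-, hk'⟩⟩
      · omega
      · obtain ⟨m, hm⟩ := hk'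
        obtain ⟨n, hn⟩ : ∃ n : ℕ, m = n + 1 := ⟨(m - 1).toNat, by omega⟩
        have e : k = 2 * (n : ℤ) + 2 := by omega
        rw [e]
        exact h3 n

/-- **the central values over `ℚ`** -/
theorem coreLZ {D : ℕ} (hD : Z.Fm D) {z : ℂ} (hz : z ^ 2 = z - 2) {k : ℕ} (hk : 1 ≤ k) :
    ∃ F : ℂ → ℂ, Differentiable ℂ F ∧
      (∀ s : ℂ, (k : ℝ) + 1 / 2 < s.re →
        LSeriesHasSum (fun l => (quad ((-1) ^ (k + 1) * D) l : ℂ) * cf z (2 * k - 1) l) s (F s)) ∧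
      F (k : ℂ) ≠ 0 := by
  obtain ⟨S, hS, hg⟩ := hD.fam
  have h0 : D ≠ 0 := hD.sq.ne_zero
  rcases Nat.even_or_odd k with h | h
  · obtain ⟨m, hm⟩ := h
    obtain ⟨n, hn⟩ : ∃ n, k = 2 * n + 2 := ⟨m - 1, by omega⟩
    obtain ⟨F, h1, h2, h3⟩ := coreLE hS hg hz n
    have e1 : ((-1 : ℤ) ^ (k + 1) * D) = -(D : ℤ) := by
      rw [Odd.neg_one_pow ⟨n + 1, by omega⟩]
      ring
    have e2 : 2 * k - 1 = 2 * (2 * n + 1) + 1 := by omega
    refine ⟨F, h1, fun s hs => ?_, ?_⟩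
    · rw [e1, e2]
      have h4 := h2 s (by rw [← hn]; exact hs)
      refine (congrArg (fun g => LSeriesHasSum g s (F s)) (funext fun l => ?_)).mp h4
      rw [quad_neg h0, Int.cast_natCast (R := ZMod 4)]
    · rw [hn]
      exact h3
  · obtain ⟨n, hn⟩ := h
    obtain ⟨F, h1, h2, h3⟩ := coreL hS hg hz n
    have e1 : ((-1 : ℤ) ^ (k + 1) * D) = (D : ℤ) := by
      rw [Even.neg_one_pow ⟨n + 1, by omega⟩]
      ring
    have e2 : 2 * k - 1 = 2 * (2 * n) + 1 := by omega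
    refine ⟨F, h1, fun s hs => ?_, ?_⟩
    · rw [e1, e2]
      have h4 := h2 s (by rw [← hn]; exact hs)
      refine (congrArg (fun g => LSeriesHasSum g s (F s)) (funext fun l => ?_)).mp h4
      rw [quad_pos]
    · rw [hn]
      exact h3

/-! ### the Selmer side -/

open Pool.Agent.Results.MP_787500_nt.AllWeightsMultiquadraticX49 (tw_eq tw_ne
  Chr QBar OK ED Iso TateModule SelmerZero GalL chi K gen emb emb_eq gen_sq curve)

/-- the element `-√-7 d` -/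
def twZ (d : ℤ) : OK := ⟨d, -2 * d⟩

lemma twZ_pos (D : ℕ) : twZ (D : ℤ) =
    Pool.Agent.Results.MP_787500_nt.AllWeightsMultiquadraticX49.tw D := rfl

lemma twZ_neg (D : ℕ) : twZ (-(D : ℤ)) =
    -Pool.Agent.Results.MP_787500_nt.AllWeightsMultiquadraticX49.tw D := by
  unfold twZ Pool.Agent.Results.MP_787500_nt.AllWeightsMultiquadraticX49.tw
  ext
  · rfl
  · show -2 * -(D : ℤ) = -(-2 * (D : ℤ))
    ring

lemma twZ_ne {d : ℤ} (hd : d ≠ 0) : twZ d ≠ 0 := by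
  intro h
  exact hd (congrArg QuadraticAlgebra.re h)

lemma abs_or (d : ℤ) : d = (d.natAbs : ℤ) ∨ d = -(d.natAbs : ℤ) := Int.natAbs_eq d

lemma isoZ {w : QBar} (hw : w ^ 2 = w - 2) (d : ℤ) :
    Iso ((mZ d).map (Int.castRingHom (K w))) (ED w (twZ d)) := by
  have hg := gen_sq.2 hw
  have hemb : (emb (gen w) (twZ d) : K w) = d - 2 * d * gen w := by
    unfold emb twZ
    push_cast
    ring
  have h1 := Pool.Agent.N843.E.gen_isoN (d := -(d : K w)) hg
  refine ⟨_, Eq.trans (congrArg _ ?_) (h1.trans ?_)⟩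
  · unfold mZ WeierstrassCurve.map
    refine WeierstrassCurve.ext ?_ ?_ ?_ ?_ ?_
    · simp
    · show (Int.castRingHom (K w)) (-3 * d) = 3 * -(d : K w)
      rw [eq_intCast]
      push_cast
      ring
    · simp
    · show (Int.castRingHom (K w)) (-32 * d ^ 2) = -32 * (-(d : K w)) ^ 2
      rw [eq_intCast]
      push_cast
      ring
    · show (Int.castRingHom (K w)) (-64 * d ^ 3) = 64 * (-(d : K w)) ^ 3
      rw [eq_intCast]
      push_cast
      ring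
  · unfold ED curve
    rw [hemb]
    refine WeierstrassCurve.ext ?_ ?_ ?_ ?_ ?_
    · rfl
    · show 3 * (1 - gen w) * (2 * -(d : K w) * gen w - -(d : K w)) =
        3 * (1 - gen w) * (d - 2 * d * gen w)
      ring
    · rfl
    · show gen w ^ 4 * (2 * -(d : K w) * gen w - -(d : K w)) ^ 2 =
        gen w ^ 4 * (d - 2 * d * gen w) ^ 2
      ring
    · rfl

/-- **the Selmer groups are zero in all the weights** -/
theorem selZ {w : QBar} (hw : w ^ 2 = w - 2) {M : ℤ} {n : ℕ} {d : Fin n → ℕ} (hG : Gp M.natAbs d)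
    {κ κ' : Chr w} {r I : QBar} (kd : KD hw κ κ' (twZ M) r I) {s : Fin n → QBar}
    (hs : ∀ i, s i ^ 2 = (d i : QBar)) : ∀ k : ℤ, W M k →
      SelmerZero (1 - w) (GalL w s) (chi κ κ' k) ∧ SelmerZero w (GalL w s) (chi κ κ' (1 - k)) := by
  rintro k ⟨hk, ⟨h1, h2⟩ | ⟨h1, h2⟩⟩
  · have e : M = (M.natAbs : ℤ) := by omega
    rw [e, twZ_pos] at kd
    exact odd_weights hw hG kd hs k hk h2
  · have e : M = -(M.natAbs : ℤ) := by omega
    rw [e, twZ_neg] at kd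
    exact even_weights hw hG kd hs k hk h2

theorem fixZ {w : QBar} (hw : w ^ 2 = w - 2) {M : ℤ} {n : ℕ} {d : Fin n → ℕ} (hG : Gp M.natAbs d)
    {κ κ' : Chr w} {r I : QBar} (kd : KD hw κ κ' (twZ M) r I) {s : Fin n → QBar}
    (hs : ∀ i, s i ^ 2 = (d i : QBar)) (j : ℤ) :
    ∃ σ : Pool.Agent.Results.MP_787500_nt.AllWeightsMultiquadraticX49.Gal w,
      (∀ i, σ (s i) = s i) ∧ (κ ^ j * κ' ^ (1 - j)) σ = -1 := by
  rcases abs_or M with e | e
  · rw [e, twZ_pos] at kd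
    exact exists_fixG hw hG kd hs j
  · rw [e, twZ_neg] at kd
    exact exists_fixE hw hG kd hs j

end Pool.Agent.N843.A
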