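import Mathlib

import Pool.Agent.Results.MP_6e2fc3_nt.CMFormsAllWeights

/-!
# From the characters to the induced representations, over multiquadratic fields which need not be real
-/

set_option autoImplicit false

namespace Pool.Agent.F843

open Pool.Agent.Results.MP_787500_nt.AllWeightsMultiquadraticX49
open Pool.Agent.Results.MP_6e2fc3_nt.CMFormsAllWeights
open WeierstrassCurve Filter Topology
open scoped Classical

open Pool.Agent.R384 (rs rs_apply rs_cont)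

variable {w : QBar} (hw : w ^ 2 = w - 2)
variable {c₀ : GQ} (hc₀ : c₀ w = 1 - w)
variable {n : ℕ} {s : Fin n → QBar}

lemma sgnZ {d : Fin n → ℤ} (hs : ∀ i, s i ^ 2 = (d i : QBar)) (c : GQ) (i : Fin n) :
    c (s i) = s i ∨ c (s i) = -(s i) := by
  have h : (c (s i)) ^ 2 = (s i) ^ 2 := by rw [← map_pow, hs, map_intCast]
  exact sq_eq_sq_iff_eq_or_eq_neg.1 h

lemma conj_memZ {d : Fin n → ℤ} (hs : ∀ i, s i ^ 2 = (d i : QBar)) {σ : GQ} (h : σ ∈ GF s) (c : GQ) :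
    c⁻¹ * σ * c ∈ GF s := by
  rw [mem_GF] at h ⊢
  intro i
  rw [AlgEquiv.mul_apply, AlgEquiv.mul_apply]
  have h1 : c⁻¹ (c (s i)) = s i := by
    rw [← AlgEquiv.mul_apply, inv_mul_cancel, AlgEquiv.one_apply]
  rcases sgnZ hs c i with h2 | h2
  · rw [h2] at h1 ⊢
    rw [h i, h1]
  · rw [h2] at h1 ⊢
    rw [map_neg, h i, h1]

include hw hc₀ in
/-- **From the characters to the representation.** -/
theorem zero_ofZ {d : Fin n → ℤ} (hs : ∀ i, s i ^ 2 = (d i : QBar)) {χ : Chr w}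
    (hz : SelmerZero (1 - w) (GalL w s) χ) : Pool.Agent.Results.MP_6e2fc3_nt.CMFormsAllWeights.Zero s χ c₀ := by
  refine ⟨ind_mul hw hc₀, fun b hb hsel => ?_⟩
  -- the first component
  obtain ⟨y₁, hy₁⟩ : ∃ y₁ : ℚ_[2], ∀ σ ∈ GalL w s, (b (rs w σ)).1 = (qv χ σ - 1) * y₁ := by
    have g1 : ContinuousOn (fun σ => (b (rs w σ)).1) (GalL w s) := by
      refine (continuous_fst.comp_continuousOn hb.cont).comp (rs_cont w).continuousOn ?_
      intro σ hσ
      exact rs_mem hσ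
    have g2 : ∀ σ ∈ GalL w s, ∀ τ ∈ GalL w s,
        (b (rs w (σ * τ))).1 = (b (rs w σ)).1 + qv χ σ * (b (rs w τ)).1 := by
      intro σ hσ τ hτ
      rw [map_mul, hb.mul _ (rs_mem hσ) _ (rs_mem hτ), Prod.fst_add]
      unfold ind
      rw [if_pos (rs_w σ)]
      show _ + val χ (rs w σ) * _ = _
      unfold val
      rw [up_rs]
    have g3 : ∀ (p : ℕ) [Fact p.Prime] (ι : QBar →ₐ[ℚ] PadicAlgCl p), p ≠ 2 →
        TrivialOn (GalL w s) χ (Inr ι) (fun σ => (b (rs w σ)).1) := by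
      intro p _ ι hp
      obtain ⟨y, hy⟩ := hsel.odd p ι hp
      refine ⟨y.1, fun σ hσ hσ' => ?_⟩
      have h1 := hy (rs w σ) (by
        obtain ⟨τ, h1, h2⟩ := hσ
        exact ⟨τ, h1, h2⟩) (rs_mem hσ')
      show (b (rs w σ)).1 = _
      rw [h1]
      unfold ind
      rw [if_pos (rs_w σ)]
      show val χ (rs w σ) * y.1 - y.1 = _
      unfold val
      rw [up_rs]
      ring
    have g4 : ∀ ι : QBar →ₐ[ℚ] PadicAlgCl 2, ‖ι (1 - w)‖ < 1 →
        TrivialOn (GalL w s) χ (Dec ι) (fun σ => (b (rs w σ)).1) := by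
      intro ι hι
      obtain ⟨u, hu⟩ := hsel.two ι hι
      refine ⟨u, fun σ hσ hσ' => ?_⟩
      have h1 := hu (rs w σ) (by
        obtain ⟨τ, h1⟩ := hσ
        exact ⟨τ, h1⟩) (rs_mem hσ')
      show (b (rs w σ)).1 = _
      rw [h1]
      unfold val
      rw [up_rs]
    obtain ⟨y, hy⟩ := hz (fun σ => (b (rs w σ)).1) ⟨g1, g2⟩ ⟨g3, g4⟩
    exact ⟨y, fun σ hσ => hy σ (Set.mem_univ σ) hσ⟩
  -- the second component
  have hco : ∀ σ : Gal w, c₀ * (c₀⁻¹ * rs w σ * c₀) * c₀⁻¹ = rs w σ := fun σ => by group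
  obtain ⟨y₂, hy₂⟩ : ∃ y₂ : ℚ_[2], ∀ σ ∈ GalL w s,
      (b (c₀⁻¹ * rs w σ * c₀)).2 = (qv χ σ - 1) * y₂ := by
    have g1 : ContinuousOn (fun σ => (b (c₀⁻¹ * rs w σ * c₀)).2) (GalL w s) := by
      refine (continuous_snd.comp_continuousOn hb.cont).comp
        (Continuous.continuousOn ?_) ?_
      · exact (continuous_const.mul (rs_cont w)).mul continuous_const
      · intro σ hσ
        exact conj_memZ hs (rs_mem hσ) c₀
    have g2 : ∀ σ ∈ GalL w s, ∀ τ ∈ GalL w s, (b (c₀⁻¹ * rs w (σ * τ) * c₀)).2 =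
        (b (c₀⁻¹ * rs w σ * c₀)).2 + qv χ σ * (b (c₀⁻¹ * rs w τ * c₀)).2 := by
      intro σ hσ τ hτ
      rw [map_mul, show c₀⁻¹ * (rs w σ * rs w τ) * c₀ =
        (c₀⁻¹ * rs w σ * c₀) * (c₀⁻¹ * rs w τ * c₀) by group,
        hb.mul _ (conj_memZ hs (rs_mem hσ) c₀) _ (conj_memZ hs (rs_mem hτ) c₀), Prod.snd_add]
      unfold ind
      rw [if_pos (conj_w' hc₀ (rs_w σ)), hco]
      show _ + val χ (rs w σ) * _ = _
      unfold val
      rw [up_rs]
    have g3 : ∀ (p : ℕ) [Fact p.Prime] (ι : QBar →ₐ[ℚ] PadicAlgCl p), p ≠ 2 →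
        TrivialOn (GalL w s) χ (Inr ι) (fun σ => (b (c₀⁻¹ * rs w σ * c₀)).2) := by
      intro p _ ι hp
      obtain ⟨y, hy⟩ := hsel.odd p (ι.comp (c₀ : QBar →ₐ[ℚ] QBar)) hp
      refine ⟨y.2, fun σ hσ hσ' => ?_⟩
      have h1 := hy (c₀⁻¹ * rs w σ * c₀) (by
        obtain ⟨τ, h1, h2⟩ := hσ
        refine ⟨τ, fun x => ?_, h2⟩
        show τ (ι (c₀ x)) = ι (c₀ ((c₀⁻¹ * rs w σ * c₀) x))
        rw [h1, ← AlgEquiv.mul_apply, show c₀ * (c₀⁻¹ * rs w σ * c₀) = rs w σ * c₀ by group]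
        rfl) (conj_memZ hs (rs_mem hσ') c₀)
      show (b (c₀⁻¹ * rs w σ * c₀)).2 = _
      rw [h1]
      unfold ind
      rw [if_pos (conj_w' hc₀ (rs_w σ)), hco]
      show val χ (rs w σ) * y.2 - y.2 = _
      unfold val
      rw [up_rs]
      ring
    have g4 : ∀ ι : QBar →ₐ[ℚ] PadicAlgCl 2, ‖ι (1 - w)‖ < 1 →
        TrivialOn (GalL w s) χ (Dec ι) (fun σ => (b (c₀⁻¹ * rs w σ * c₀)).2) := by
      intro ι hι
      obtain ⟨v, hv⟩ := hsel.one (ι.comp (c₀ : QBar →ₐ[ℚ] QBar)) (by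
        show ‖ι (c₀ w)‖ < 1
        rwa [hc₀])
      refine ⟨v, fun σ hσ hσ' => ?_⟩
      have h1 := hv (c₀⁻¹ * rs w σ * c₀) (by
        obtain ⟨τ, h1⟩ := hσ
        refine ⟨τ, fun x => ?_⟩
        show τ (ι (c₀ x)) = ι (c₀ ((c₀⁻¹ * rs w σ * c₀) x))
        rw [h1, ← AlgEquiv.mul_apply, show c₀ * (c₀⁻¹ * rs w σ * c₀) = rs w σ * c₀ by group]
        rfl) (conj_memZ hs (rs_mem hσ') c₀)
      show (b (c₀⁻¹ * rs w σ * c₀)).2 = _
      rw [h1, hco]
      unfold val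
      rw [up_rs]
    obtain ⟨y, hy⟩ := hz (fun σ => (b (c₀⁻¹ * rs w σ * c₀)).2) ⟨g1, g2⟩ ⟨g3, g4⟩
    exact ⟨y, fun σ hσ => hy σ (Set.mem_univ σ) hσ⟩
  -- the restriction to the absolute Galois group of `F K`
  set y : ℚ_[2] × ℚ_[2] := (y₁, y₂) with hy
  set b' : GQ → ℚ_[2] × ℚ_[2] := fun σ => b σ - (ind χ c₀ σ y - y) with hb'
  have hlin : ∀ (σ : GQ) (u v : ℚ_[2] × ℚ_[2]), ind χ c₀ σ (u - v) = ind χ c₀ σ u - ind χ c₀ σ v := by
    intro σ u v
    unfold ind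
    split_ifs
    · ext <;> simp only [Prod.fst_sub, Prod.snd_sub] <;> ring
    · ext <;> simp only [Prod.fst_sub, Prod.snd_sub] <;> ring
  have hmul : ∀ σ ∈ GF s, ∀ τ ∈ GF s, b' (σ * τ) = b' σ + ind χ c₀ σ (b' τ) := by
    intro σ hσ τ hτ
    simp only [hb']
    rw [hb.mul σ hσ τ hτ, ind_mul hw hc₀, hlin, hlin]
    abel
  have hzero : ∀ σ ∈ GF s, σ w = w → b' σ = 0 := by
    intro σ hσ hσw
    have h1 : up w σ ∈ GalL w s := by
      rw [mem_GalL]
      intro i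
      rw [up_apply hσw]
      exact mem_GF.1 hσ i
    have h2 := hy₁ _ h1
    rw [rs_up hσw] at h2
    -- the conjugate
    have hσ' : c₀ * σ * c₀⁻¹ ∈ GF s := by
      have := conj_memZ hs hσ c₀⁻¹
      rwa [inv_inv] at this
    have h3 : up w (c₀ * σ * c₀⁻¹) ∈ GalL w s := by
      rw [mem_GalL]
      intro i
      rw [up_apply (conj_w hc₀ hσw)]
      exact mem_GF.1 hσ' i
    have h4 := hy₂ _ h3
    rw [rs_up (conj_w hc₀ hσw), show c₀⁻¹ * (c₀ * σ * c₀⁻¹) * c₀ = σ by group] at h4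
    simp only [hb']
    unfold ind
    rw [if_pos hσw]
    ext
    · simp only [Prod.fst_sub, Prod.fst_zero]
      rw [h2]
      unfold val
      ring
    · simp only [Prod.snd_sub, Prod.snd_zero]
      rw [h4]
      unfold val
      ring
  -- the other elements
  by_cases hex : ∃ τ ∈ GF s, ¬ τ w = w
  · obtain ⟨τ, hτ, hτw⟩ := hex
    have hτw' : τ w = 1 - w := (or_w hw τ).resolve_left hτw
    have hall : ∀ σ ∈ GF s, ¬ σ w = w → b' σ = b' τ := by
      intro σ hσ hσw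
      have hσw' : σ w = 1 - w := (or_w hw σ).resolve_left hσw
      have h1 : (τ⁻¹ * σ) ∈ GF s := (GF s).mul_mem ((GF s).inv_mem hτ) hσ
      have h2 : (τ⁻¹ * σ) w = w := by
        rw [AlgEquiv.mul_apply, hσw', map_sub, map_one, inv_w hτw']
        ring
      have h3 := hmul τ hτ _ h1
      rw [mul_inv_cancel_left, hzero _ h1 h2] at h3
      have h4 : ind χ c₀ τ 0 = 0 := by
        have := hlin τ 0 0
        rwa [sub_self, sub_self] at this
      rw [h4, add_zero] at h3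
      exact h3
    have hfix : ∀ σ ∈ GF s, σ w = w → ind χ c₀ σ (b' τ) = b' τ := by
      intro σ hσ hσw
      have h1 := hmul σ hσ τ hτ
      rw [hzero σ hσ hσw, zero_add, hall (σ * τ) ((GF s).mul_mem hσ hτ) (by
        rw [AlgEquiv.mul_apply, hτw', map_sub, map_one, hσw]
        exact (w_ne hw).symm)] at h1
      exact h1.symm
    have hneg : ∀ σ ∈ GF s, ¬ σ w = w → ind χ c₀ σ (b' τ) = -(b' τ) := by
      intro σ hσ hσw
      have hσw' : σ w = 1 - w := (or_w hw σ).resolve_left hσw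
      have h1 := hmul σ hσ τ hτ
      have h2 : (σ * τ) w = w := by
        rw [AlgEquiv.mul_apply, hτw', map_sub, map_one, hσw']
        ring
      rw [hzero _ ((GF s).mul_mem hσ hτ) h2, hall σ hσ hσw] at h1
      exact (neg_eq_of_add_eq_zero_right h1.symm).symm
    have h20 : (2 : ℚ_[2]) ≠ 0 := two_ne_zero
    -- half of the value
    set v : ℚ_[2] × ℚ_[2] := ((b' τ).1 / 2, (b' τ).2 / 2) with hv
    have hvv : b' τ = v + v := by
      rw [hv]
      ext
      · simp only [Prod.fst_add]; ring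
      · simp only [Prod.snd_add]; ring
    have hadd : ∀ (σ : GQ) (u v : ℚ_[2] × ℚ_[2]),
        ind χ c₀ σ (u + v) = ind χ c₀ σ u + ind χ c₀ σ v := by
      intro σ u v
      unfold ind
      split_ifs
      · ext <;> simp only [Prod.fst_add, Prod.snd_add] <;> ring
      · ext <;> simp only [Prod.fst_add, Prod.snd_add] <;> ring
    have hhalf : ∀ u z : ℚ_[2] × ℚ_[2], u + u = z + z → u = z := by
      intro u z h
      have h1 := congrArg Prod.fst h
      have h2 := congrArg Prod.snd h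
      simp only [Prod.fst_add, Prod.snd_add] at h1 h2
      ext
      · have : (2 : ℚ_[2]) * (u.1 - z.1) = 0 := by linear_combination h1
        exact sub_eq_zero.1 ((mul_eq_zero.1 this).resolve_left h20)
      · have : (2 : ℚ_[2]) * (u.2 - z.2) = 0 := by linear_combination h2
        exact sub_eq_zero.1 ((mul_eq_zero.1 this).resolve_left h20)
    refine ⟨y - v, fun σ _ hσ => ?_⟩
    have hbσ : b σ = b' σ + (ind χ c₀ σ y - y) := by simp only [hb']; abel
    by_cases hσw : σ w = w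
    · have h1 : ind χ c₀ σ v = v := by
        apply hhalf
        rw [← hadd, ← hvv]
        exact hfix σ hσ hσw
      rw [hbσ, hzero σ hσ hσw, hlin, h1]
      abel
    · have h1 : ind χ c₀ σ v = -v := by
        apply hhalf
        rw [← hadd, ← hvv, hneg σ hσ hσw, hvv]
        abel
      rw [hbσ, hall σ hσ hσw, hvv, hlin, h1]
      abel
  · push Not at hex
    refine ⟨y, fun σ _ hσ => ?_⟩
    have h1 := hzero σ hσ (hex σ hσ)
    simp only [hb'] at h1
    exact sub_eq_zero.1 h1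

end Pool.Agent.F843
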