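import Pool.Agent.R384.Y.Kdt

/-!
# The characters have no invariants over multiquadratic fields
-/

set_option autoImplicit false
set_option linter.unusedSectionVars false
set_option linter.unusedSimpArgs false
set_option linter.unusedVariables false

namespace Pool.Agent.N843

open Pool.Agent.R384
open Pool.Agent.Y715.Red Pool.Agent.Y715.Nr Pool.Agent.W237.RK
open Pool.Agent.Y715.Gi (QB KK GK i₀_mem gk_fix)
open Pool.Agent.Y715.Df (Cmp exists_cmp)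
open Pool.Agent.Y715.Lc (norm_two_odd)
open Pool.Agent.Results.MP_787500_nt.AllWeightsMultiquadraticX49 (Adm RankZeroShaTwo Good tw tw_eq
  Chr QBar)

section gen

variable {i₀ : QB} (hi : i₀ ^ 2 = i₀ - 2)
variable {κ κ' : GK i₀ →* ℤ_[2]ˣ} {r I : QB}

lemma s7_ndvd {D : ℕ} (h7 : ¬ 7 ∣ D) : ¬ s7 ∣ ((D : ℤ) : OO) := by
  rintro ⟨t, ht⟩
  obtain ⟨a, b⟩ := t
  have h2 := congrArg QuadraticAlgebra.re ht
  have h3 := congrArg QuadraticAlgebra.im ht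
  simp [s7] at h2 h3
  apply h7
  have h4 : (7 : ℤ) ∣ (D : ℤ) := ⟨a, by linarith⟩
  exact_mod_cast h4

/-- there is an element of an inertia group of a place above seven at which the character is `-1` -/
theorem exists_mone {D : ℕ} (h7 : ¬ 7 ∣ D) (kd : KD hi κ κ' (-(s7 * ((D : ℤ) : OO))) r I) (j : ℤ) :
    ∃ (p : ℕ) (_ : Fact p.Prime) (ι : QB →ₐ[ℚ] PadicAlgCl p), p ≠ 2 ∧
      ‖em (iw hi ι) s7‖ < 1 ∧
      ∃ (σ : GK i₀) (τ : Au p), Cmp ι τ σ ∧ Inert τ ∧ (κ ^ j * κ' ^ (1 - j)) σ = -1 := by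
  obtain ⟨m, s, hm, cd⟩ := chiD7 hi kd j
  obtain ⟨m1, hm1, hm1'⟩ : ∃ m1, m = s7 * m1 ∧ ¬ s7 ∣ m1 := by
    rcases hm with ⟨-, h⟩ | ⟨-, h⟩
    · exact ⟨-((D : ℤ) : OO), by rw [h]; ring, by rw [dvd_neg]; exact s7_ndvd h7⟩
    · exact ⟨((D : ℤ) : OO), by rw [h]; ring, s7_ndvd h7⟩
  obtain ⟨l, hl, ι, hι⟩ := exists_emb hi prime_s7
  rw [ι_em] at hι
  have hl7 := p_seven (iw hi ι) hι
  have hl2 : l ≠ 2 := by rw [hl7]; norm_num
  obtain ⟨σ₀, ⟨τ, hτ, hin⟩, h2⟩ := exists_ram hi cd prime_s7 hm1 hm1' hι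
  exact ⟨l, hl, ι, hl2, hι, σ₀, τ, hτ, hin, (cd.inert l ι τ σ₀ hl2 hτ hin).2 h2⟩

/-- the inertia groups of the places above seven fix the square roots of numbers prime to seven -/
lemma fix_seven {D : ℕ} (h7 : ¬ 7 ∣ D) {a : QB} (ha : a ^ 2 = (D : QB)) {p : ℕ} [Fact p.Prime]
    (hp : p ≠ 2) {ι : QB →ₐ[ℚ] PadicAlgCl p} (hι : ‖em (iw hi ι) s7‖ < 1) {σ : GK i₀} {τ : Au p}
    (h : Cmp ι τ σ) (hin : Inert τ) : σ a = a := by
  have h1 : (ι a) ^ 2 = em (iw hi ι) ((D : ℤ) : OO) := by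
    rw [← map_pow, ha, map_natCast, map_intCast]
    norm_cast
  have h2 : τ (ι a) = ι a := by
    refine fix_of_unit (iw hi ι) hp h1 ?_ hin h.fix
    rw [← dvd_iff (iw hi ι) prime_s7 hι]
    exact s7_ndvd h7
  apply ι.injective
  show ι (σ a) = ι a
  rw [← h, h2]

end gen

lemma adm_seven {D : ℕ} (h : Adm D) : ¬ 7 ∣ D := by
  intro h7
  rcases h.2.2 7 (by norm_num) h7 with h1 | h1 <;> omega

/-- the characters are not trivial on the Galois groups of the multiquadratic fields -/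
theorem exists_fix {w : QBar} (hw : w ^ 2 = w - 2) {M n : ℕ} {d : Fin n → ℕ} (hG : Good M d)
    {κ κ' : Chr w} {r I : QBar} (kd : KD hw κ κ' (tw M) r I) {s : Fin n → QBar}
    (hs : ∀ i, s i ^ 2 = (d i : QBar)) (j : ℤ) :
    ∃ σ : Pool.Agent.Results.MP_787500_nt.AllWeightsMultiquadraticX49.Gal w,
      (∀ i, σ (s i) = s i) ∧ (κ ^ j * κ' ^ (1 - j)) σ = -1 := by
  obtain ⟨D0, k0, hk0, hA0, -, he0⟩ := hG ∅
  rw [Finset.prod_empty, mul_one] at he0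
  have hk0' : (k0 : QB) ≠ 0 := Nat.cast_ne_zero.2 hk0
  have kd2 : KD hw κ κ' (-(s7 * ((D0 : ℤ) : OO))) ((k0 : QB)⁻¹ * r) I := by
    refine KD.resc hw kd (inv_ne_zero hk0') (fun σ => by rw [map_inv₀, map_natCast]) ?_
    have h1 : ((M : ℤ) : OO) = ((D0 : ℤ) : OO) * ((k0 : ℤ) : OO) ^ 2 := by
      rw [he0]
      push_cast
      ring
    have h2 : em hw (((k0 : ℤ) : OO)) = (k0 : QB) := by
      rw [map_intCast]
      norm_cast
    rw [mul_pow, kd.hr, tw_eq, h1, map_neg, map_mul, map_mul, map_pow, h2, map_neg, map_mul]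
    field_simp
  obtain ⟨p, hp, ι, hp2, hι, σ, τ, hc, hin, hσ⟩ := exists_mone hw (adm_seven hA0) kd2 j
  refine ⟨σ, fun i => ?_, hσ⟩
  obtain ⟨D1, k1, hk1, hA1, -, he1⟩ := hG {i}
  rw [Finset.prod_singleton] at he1
  obtain ⟨a, ha⟩ : ∃ a : QB, a ^ 2 = ((D0 * D1 : ℕ) : QB) :=
    IsAlgClosed.exists_pow_nat_eq _ (by norm_num)
  have h7 : ¬ 7 ∣ D0 * D1 := by
    intro h
    rcases (Nat.Prime.dvd_mul (by norm_num)).1 h with h | h
    · exact adm_seven hA0 h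
    · exact adm_seven hA1 h
  have hfa := fix_seven hw h7 ha hp2 hι hc hin
  have hD0 : (D0 : QB) ≠ 0 := Nat.cast_ne_zero.2 hA0.1.ne_zero
  have h1 : (s i * (D0 * k0)) ^ 2 = (a * k1) ^ 2 := by
    have h2 : ((M * d i : ℕ) : QB) = ((D1 * k1 ^ 2 : ℕ) : QB) := congrArg _ he1
    rw [he0] at h2
    push_cast at h2 ha
    rw [mul_pow (s i), mul_pow a, hs i, ha]
    linear_combination (D0 : QB) * h2
  have hne : (D0 : QB) * k0 ≠ 0 := mul_ne_zero hD0 hk0'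
  have hfix : ∀ y : QB, y = a * k1 ∨ y = -(a * k1) → σ y = y := by
    rintro y (rfl | rfl)
    · rw [map_mul, map_natCast, hfa]
    · rw [map_neg, map_mul, map_natCast, hfa]
  have h3 := hfix _ (sq_eq_sq_iff_eq_or_eq_neg.1 h1)
  rw [map_mul, map_mul, map_natCast, map_natCast] at h3
  exact mul_right_cancel₀ hne h3

end Pool.Agent.N843
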