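import Pool.Agent.N843.Tra

/-!
# The two signs
-/

set_option autoImplicit false
set_option linter.unusedSectionVars false
set_option linter.unusedSimpArgs false
set_option linter.unusedVariables false

open Filter IsDedekindDomain
open scoped Topology PeriodPair

namespace Pool.Agent.N843

open H667R3 Pool.Agent.TH936.CW Pool.Agent.W192.HK Pool.Agent.TH936.PU
open Pool.Agent.Y698 (RR al al_sq al_ne bl bl_ne al_mul_bl LD aR aR_coe bR bR_coe cX cY co
  v_two v_two_lt fin_quot aR_mul_bR two_coe nR mul_cj cj_coe exists_gen)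
open Pool.Agent.Y698.SG (Pe sy sy_val)
open Pool.Agent.R384 (OO om qs Sqm Pr em qs_zero Indec)

/-! ### symbols on the abstract ring -/

open Classical in
/-- the quadratic symbol -/
noncomputable def smb (q x : OO) : ℤ := if q ∣ x then 0 else if Sqm q x then 1 else -1

open Classical in
/-- the sign modulo `v ^ 2` -/
noncomputable def sgm (v x : OO) : ℤ := if v ∣ x then 0 else if v ^ 2 ∣ x - 1 then 1 else -1

lemma sy_smb (q x : OO) : sy (pH q) (pH x) = (smb q x : ℂ) := by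
  unfold smb
  by_cases h : q ∣ x
  · rw [if_pos h]
    have h1 : pH x ∈ sp (pH q) := pH_mem.2 h
    rcases sy_val (pH q) (pH x) with ⟨_, h2⟩ | ⟨h2, _⟩
    · rw [h2]; norm_num
    · exact absurd h1 h2
  · rw [if_neg h]
    have h1 : pH x ∉ sp (pH q) := fun h1 => h (pH_mem.1 h1)
    by_cases h2 : Sqm q x
    · rw [if_pos h2, (sy_pH h).2 h2]
      norm_num
    · rw [if_neg h2]
      rcases Pool.Agent.Y698.SG.sy_sgn h1 with h3 | h3
      · exact absurd ((sy_pH h).1 h3) h2
      · rw [h3]; norm_num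

lemma pH_b : pH (1 - om) = bR := by
  rw [map_sub, map_one, pH_om]
  rfl

lemma sg_sgm (x : OO) : sg (pH x) = (sgm (1 - om) x : ℂ) := by
  unfold sgm
  by_cases h : (1 - om) ∣ x
  · rw [if_pos h, sg_zero.2]
    · norm_num
    · rw [← pH_b]
      exact pH_mem.2 h
  · rw [if_neg h]
    have h1 : pH x ∉ sp bR := fun h1 => h (by
      rw [← pH_b] at h1
      exact pH_mem.1 h1)
    have hb : pH ((1 - om) ^ 2) = bR * bR := by rw [map_pow, pH_b, pow_two]
    by_cases h2 : (1 - om) ^ 2 ∣ x - 1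
    · rw [if_pos h2]
      have h3 : sg (pH x) = sg 1 := by
        apply sg_per
        rw [Ideal.mem_span_singleton, ← hb, ← map_one pH, ← map_sub]
        exact pH_dvd.2 h2
      rw [h3, sg_one]
      norm_num
    · rw [if_neg h2]
      rcases sg_sgn h1 with h3 | h3
      · exfalso
        apply h2
        rw [← pH_dvd, hb, map_sub, map_one, ← Ideal.mem_span_singleton, ← r4b_zero, map_sub,
          map_one, sub_eq_zero]
        unfold sg at h3
        have h4 : ∀ t : ZMod 4, ZMod.χ₄ t = 1 → t = 1 := by decide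
        apply h4
        exact_mod_cast h3
      · rw [h3]; norm_num

open Pool.Agent.R384 (cj cjH cj_cj cj_dvd sqm_cj)

lemma cj_dvd_iff {x y : OO} : cj x ∣ cj y ↔ x ∣ y :=
  ⟨fun h => by
    have := cj_dvd h
    rwa [cj_cj, cj_cj] at this, cj_dvd⟩

lemma ite3 {a b a' b' : Prop} [Decidable a] [Decidable b] [Decidable a'] [Decidable b']
    (h1 : a ↔ a') (h2 : b ↔ b') : (if a then (0 : ℤ) else if b then 1 else -1) =
      if a' then (0 : ℤ) else if b' then 1 else -1 := by
  by_cases ha : a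
  · rw [if_pos ha, if_pos (h1.1 ha)]
  · rw [if_neg ha, if_neg fun h => ha (h1.2 h)]
    by_cases hb : b
    · rw [if_pos hb, if_pos (h2.1 hb)]
    · rw [if_neg hb, if_neg fun h => hb (h2.2 h)]

open Classical in
lemma smb_cj (q x : OO) : smb (cj q) (cj x) = smb q x := by
  unfold smb
  exact ite3 cj_dvd_iff sqm_cj

open Classical in
lemma sgm_cj (v x : OO) : sgm (cj v) (cj x) = sgm v x := by
  unfold sgm
  have h1 : cj v ^ 2 ∣ cj x - 1 ↔ v ^ 2 ∣ x - 1 := by
    have e1 : cj v ^ 2 = cj (v ^ 2) := (map_pow cjH v 2).symm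
    have e2 : cj x - 1 = cj (x - 1) := by
      show cjH x - 1 = cjH (x - 1)
      rw [map_sub, map_one]
    rw [e1, e2, cj_dvd_iff]
  exact ite3 cj_dvd_iff h1

lemma cj_om : cj (1 - om) = om := by
  have h1 : (1 - om : OO) = ⟨1, -1⟩ := by
    ext
    · show (1 : ℤ) - 0 = 1
      norm_num
    · show (0 : ℤ) - 1 = -1
      norm_num
  rw [h1]
  ext
  · show (1 : ℤ) + -1 = 0
    norm_num
  · show -(-1 : ℤ) = 1
    norm_num

lemma al_cj : (starRingEnd ℂ) al = 1 - al := by
  rw [conj_al]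
  rfl

/-! ### the characters -/

/-- the Hecke character on the ideals -/
structure Psi {n : ℕ} (q : Fin n → OO) (v : OO) (z : ℂ) (ψ : Ideal OO → ℂ) : Prop where
  mul : ∀ I J : Ideal OO, ψ (I * J) = ψ I * ψ J
  val : ∀ x : OO, ψ (Ideal.span {x}) =
    (sgm v x : ℂ) * (∏ i, (smb (q i) x : ℂ)) * ((x.re : ℂ) + (x.im : ℂ) * z)

lemma pH_coe (x : OO) : ((pH x : RR) : ℂ) = (x.re : ℂ) + (x.im : ℂ) * al := by
  rw [pH_apply]
  push_cast
  rw [aR_coe]

lemma AllJ.conj {ψ : Ideal OO → ℂ} (h : AllJ ψ) : AllJ (fun I => (starRingEnd ℂ) (ψ I)) := by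
  intro j
  obtain ⟨L, h1, h2, h3⟩ := h (1 - j)
  refine ⟨L, h1, fun s hs => ?_, h3⟩
  have h4 := h2 s hs
  rw [sub_sub_cancel] at h4
  convert h4 using 4
  rw [Complex.conj_conj]
  ring

lemma conj_z {z : ℂ} (hz : z ^ 2 = z - 2) : z = al ∨ z = (starRingEnd ℂ) al := by
  have h1 : al ^ 2 = al - 2 := by
    have := al_sq
    linear_combination this
  have h3 : (starRingEnd ℂ) al = 1 - al := al_cj
  have h4 : (z - al) * (z - (1 - al)) = 0 := by linear_combination hz - h1
  rcases mul_eq_zero.1 h4 with h5 | h5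
  · left; linear_combination h5
  · right; rw [h3]; linear_combination h5

lemma Psi.conj {n : ℕ} {q : Fin n → OO} {v : OO} {z : ℂ} {ψ : Ideal OO → ℂ} (h : Psi q v z ψ) :
    Psi q v ((starRingEnd ℂ) z) (fun I => (starRingEnd ℂ) (ψ I)) := by
  refine ⟨fun I J => by rw [h.mul, map_mul], fun x => ?_⟩
  rw [h.val, map_mul, map_mul, map_intCast, map_prod, map_add, map_mul, map_intCast, map_intCast]
  congr 2
  exact Finset.prod_congr rfl fun i _ => map_intCast _ _

section fam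

variable {n : ℕ} {q : Fin n → OO} (hq : ∀ i, Pr (q i)) (hinj : Function.Injective q)
  (h5 : (8 : OO) ∣ ∏ i, q i - 5) (hind : Indec q)

include hq hinj

lemma psi_psi : Psi q (1 - om) al (psi (xs (pq q) Finset.univ)) := by
  have hC := xs_cx (pq_fm hq hinj Finset.univ)
  refine ⟨hC.psi_mul, fun x => ?_⟩
  rw [hC.psi_sp, pH_coe]
  unfold xs ch pq
  rw [sg_sgm]
  simp only [sy_smb]

lemma n_pos (h5 : (8 : OO) ∣ ∏ i, q i - 5) : (Finset.univ : Finset (Fin n)).Nonempty := by
  rw [Finset.univ_nonempty_iff]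
  by_contra hcon
  rw [not_nonempty_iff] at hcon
  rw [Finset.univ_eq_empty, Finset.prod_empty] at h5
  obtain ⟨c, hc⟩ := h5
  have h1 := congrArg QuadraticAlgebra.re hc
  rw [QuadraticAlgebra.re_mul] at h1
  have e8 : (8 : OO).re = 8 ∧ (8 : OO).im = 0 := ⟨rfl, rfl⟩
  have e1 : (1 - 5 : OO).re = -4 := rfl
  rw [e8.1, e8.2, e1] at h1
  omega

include h5 hind

theorem allJ_plus (hbasic : H_BASIC) (hfp : H_FP) (hcnt : H_CNT) (hdec : H_DEC) (hafe : H_AFE) :
    AllJ (psi (xs (pq q) Finset.univ)) := by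
  have hF := pq_fm hq hinj (Finset.univ : Finset (Fin n))
  obtain ⟨c1, c2⟩ := cond hq hinj h5 hind
  exact (xs_cx hF).allJ hbasic (nz_of hbasic hfp hcnt hdec hafe hF (n_pos hq hinj h5) c1 c2)

end fam

/-- the conjugation as an isomorphism -/
noncomputable def cjE : OO ≃+* OO := RingEquiv.ofBijective cjH
  ⟨fun x y h => by
    have h1 : cj (cj x) = cj (cj y) := congrArg cj h
    rwa [cj_cj, cj_cj] at h1, fun x => ⟨cj x, cj_cj x⟩⟩

lemma cjE_apply (x : OO) : cjE x = cj x := rfl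

/-- the conjugate of a function on the ideals -/
noncomputable def cjf (ψ : Ideal OO → ℂ) (I : Ideal OO) : ℂ :=
  (starRingEnd ℂ) (ψ (I.map (cjE : OO →+* OO)))

lemma cj_val (z : ℂ) (hz : z ^ 2 = z - 2) (x : OO) :
    (starRingEnd ℂ) (((cj x).re : ℂ) + ((cj x).im : ℂ) * z) = (x.re : ℂ) + (x.im : ℂ) * z := by
  have h3 : (starRingEnd ℂ) z = 1 - z := by
    have h3 : (starRingEnd ℂ) al = 1 - al := al_cj
    rcases conj_z hz with h | h
    · rw [h, h3]
    · rw [h, Complex.conj_conj, h3]; ring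
  rw [map_add, map_mul, map_intCast, map_intCast, h3]
  have e1 : (cj x).re = x.re + x.im := rfl
  have e2 : (cj x).im = -x.im := rfl
  rw [e1, e2]
  push_cast
  ring

lemma Psi.cjf {n : ℕ} {q : Fin n → OO} {v : OO} {z : ℂ} {ψ : Ideal OO → ℂ} (hz : z ^ 2 = z - 2)
    (h : Psi (fun i => cj (q i)) (cj v) z ψ) : Psi q v z (cjf ψ) := by
  refine ⟨fun I J => ?_, fun x => ?_⟩
  · unfold N843.cjf
    rw [Ideal.map_mul, h.mul, map_mul]
  · unfold N843.cjf
    have e : (Ideal.span {x}).map (cjE : OO →+* OO) = Ideal.span {cj x} := by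
      rw [Ideal.map_span, Set.image_singleton]
      rfl
    rw [e, h.val, map_mul, cj_val z hz, map_mul, map_prod, map_intCast, sgm_cj]
    congr 2
    refine Finset.prod_congr rfl fun i _ => ?_
    rw [map_intCast, smb_cj]

lemma AllJ.cjf {ψ : Ideal OO → ℂ} (h : AllJ ψ) : AllJ (cjf ψ) := by
  intro j
  obtain ⟨L, h1, h2, h3⟩ := h (1 - j)
  refine ⟨L, h1, fun s hs => ?_, h3⟩
  have h4 := h2 s hs
  have h5 := ((HeightOneSpectrum.equivOfRingEquiv cjE).hasProd_iff (a := L s)).2 h4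
  have h6 : ((fun P : HeightOneSpectrum OO =>
      (1 - ψ P.asIdeal ^ (1 - j) * (starRingEnd ℂ) (ψ P.asIdeal) ^ (1 - (1 - j)) *
        (Nat.card (OO ⧸ P.asIdeal) : ℂ) ^ (-s))⁻¹) ∘ (HeightOneSpectrum.equivOfRingEquiv cjE)) =
      fun P : HeightOneSpectrum OO =>
      (1 - N843.cjf ψ P.asIdeal ^ j * (starRingEnd ℂ) (N843.cjf ψ P.asIdeal) ^ (1 - j) *
        (Nat.card (OO ⧸ P.asIdeal) : ℂ) ^ (-s))⁻¹ := by
    funext P
    have e1 : ((HeightOneSpectrum.equivOfRingEquiv cjE) P).asIdeal =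
        P.asIdeal.map (cjE : OO →+* OO) := by
      show (P.asIdeal).comap (cjE.symm : OO →+* OO) = _
      exact Ideal.comap_symm cjE
    have e2 : Nat.card (OO ⧸ P.asIdeal.map (cjE : OO →+* OO)) = Nat.card (OO ⧸ P.asIdeal) :=
      (Nat.card_congr (Ideal.quotientEquiv P.asIdeal (P.asIdeal.map (cjE : OO →+* OO)) cjE
        rfl).toEquiv).symm
    simp only [Function.comp]
    rw [e1, e2, sub_sub_cancel]
    unfold N843.cjf
    rw [Complex.conj_conj]
    ring
  rw [h6] at h5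
  exact h5

section fam

variable {n : ℕ} {q : Fin n → OO} (hq : ∀ i, Pr (q i)) (hinj : Function.Injective q)
  (h5 : (8 : OO) ∣ ∏ i, q i - 5) (hind : Indec q)

include hq hinj h5 hind

theorem exists_psi (hbasic : H_BASIC) (hfp : H_FP) (hcnt : H_CNT) (hdec : H_DEC) (hafe : H_AFE)
    {z : ℂ} (hz : z ^ 2 = z - 2) {v : OO} (hv : v = 1 - om ∨ v = om) :
    ∃ ψ : Ideal OO → ℂ, Psi q v z ψ ∧ AllJ ψ := by
  have key : ∀ z : ℂ, z ^ 2 = z - 2 → ∀ (q : Fin n → OO), (∀ i, Pr (q i)) →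
      Function.Injective q → (8 : OO) ∣ ∏ i, q i - 5 → Indec q →
      ∃ ψ : Ideal OO → ℂ, Psi q (1 - om) z ψ ∧ AllJ ψ := by
    intro z hz q hq hinj h5 hind
    rcases conj_z hz with rfl | rfl
    · exact ⟨_, psi_psi hq hinj, allJ_plus hq hinj h5 hind hbasic hfp hcnt hdec hafe⟩
    · exact ⟨_, (psi_psi hq hinj).conj,
        (allJ_plus hq hinj h5 hind hbasic hfp hcnt hdec hafe).conj⟩
  rcases hv with rfl | rfl
  · exact key z hz q hq hinj h5 hind
  · have k1 : (8 : OO) ∣ ∏ i, cj (q i) - 5 := by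
      have h1 := cj_dvd h5
      have e1 : cj 8 = 8 := by
        show cjH _ = _
        rw [map_ofNat]
      have e2 : cj (∏ i, q i - 5) = ∏ i, cj (q i) - 5 := by
        show cjH _ = ∏ i, cjH _ - 5
        rw [map_sub, map_prod, map_ofNat]
      rwa [e1, e2] at h1
    have k2 : Indec (fun i => cj (q i)) := by
      intro S hS hS'
      have e : ∀ T : Finset (Fin n), ∏ k ∈ T, cj (q k) = cj (∏ k ∈ T, q k) := fun T =>
        (map_prod cjH _ _).symm
      refine hind S (fun i hi => ?_) fun i hi => ?_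
      · have := hS i hi
        rwa [e, sqm_cj] at this
      · have := hS' i hi
        rwa [e, sqm_cj] at this
    obtain ⟨ψ, h1, h2⟩ := key z hz (fun i => cj (q i)) (fun i => (hq i).cj)
      (fun i j h => hinj (by
        have h1 : cj (cj (q i)) = cj (cj (q j)) := congrArg cj h
        rwa [cj_cj, cj_cj] at h1)) k1 k2
    refine ⟨cjf ψ, Psi.cjf hz ?_, h2.cjf⟩
    have e : cj om = 1 - om := by rw [← cj_om, cj_cj, cj_om]
    rw [e]
    exact h1

end fam

end Pool.Agent.N843
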