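import Pool.Agent.R426.QC.Tr
import Pool.Agent.N843.Sgn

/-!
# The numbers of points
-/

set_option autoImplicit false
set_option linter.unusedSectionVars false
set_option linter.unusedSimpArgs false
set_option linter.unusedVariables false

open IsDedekindDomain

namespace Pool.Agent.N843

open H667R3 Pool.Agent.TH936.CW Pool.Agent.W192.HK Pool.Agent.TH936.PU
open Pool.Agent.Y698 (RR al al_sq al_ne bl bl_ne al_mul_bl LD aR aR_coe bR bR_coe cX cY co
  v_two v_two_lt fin_quot aR_mul_bR two_coe nR mul_cj cj_coe exists_gen AP EX count_tw count_sq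
  card_sp fR)
open Pool.Agent.Y698.SG (Pe sy sy_val)
open Pool.Agent.R384 (OO om qs Sqm Pr em qs_zero Indec)

/-- the curve -/
def crv {R : Type} [CommRing R] (w d : R) : WeierstrassCurve R :=
  ⟨0, 3 * (1 - w) * d, 0, w ^ 4 * d ^ 2, 0⟩

/-- completing the cube -/
lemma crv_iff {R : Type} [CommRing R] {w d : R} (hw : w ^ 2 = w - 2) (x y : R) :
    (crv w d).toAffine.Equation x y ↔
      y ^ 2 = (x + (1 - w) * d) ^ 3 + 5 * d ^ 2 * (x + (1 - w) * d) + 2 * (2 * w - 1) * d ^ 3 := by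
  rw [WeierstrassCurve.Affine.equation_iff]
  unfold crv
  simp only
  constructor
  · intro h
    linear_combination h - (d ^ 2 * x * (-w ^ 2 - w + 4) + d ^ 3 * (2 - w)) * hw
  · intro h
    linear_combination h + (d ^ 2 * x * (-w ^ 2 - w + 4) + d ^ 3 * (2 - w)) * hw

section fld

variable (k : Type) [Field k]

lemma card_crv {w d : k} (hw : w ^ 2 = w - 2) :
    Nat.card {x : k × k // (crv w d).toAffine.Equation x.1 x.2} =
      Nat.card {x : k × k // x.2 ^ 2 = x.1 ^ 3 + 5 * d ^ 2 * x.1 + 2 * (2 * w - 1) * d ^ 3} := by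
  refine Nat.card_congr
    { toFun := fun Q => ⟨(Q.1.1 + (1 - w) * d, Q.1.2), (crv_iff hw _ _).1 Q.2⟩
      invFun := fun Q => ⟨(Q.1.1 - (1 - w) * d, Q.1.2), (crv_iff hw _ _).2 ?_⟩
      left_inv := ?_
      right_inv := ?_ }
  · have h := Q.2
    simp only at h ⊢
    rw [sub_add_cancel]
    exact h
  · rintro ⟨⟨x, y⟩, h⟩
    apply Subtype.ext
    apply Prod.ext
    · simp only
      ring
    · rfl
  · rintro ⟨⟨x, y⟩, h⟩
    apply Subtype.ext
    apply Prod.ext
    · simp only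
      ring
    · rfl

variable [Fintype k] [DecidableEq k]

lemma char_ne (h2 : (2 : k) ≠ 0) : ringChar k ≠ 2 := by
  intro h
  apply h2
  have h3 : ((2 : ℕ) : k) = 0 := by
    rw [← h]
    exact ringChar.Nat.cast_ringChar
  exact_mod_cast h3

/-- the number of points, as a twist -/
lemma card_tw (h2 : (2 : k) ≠ 0) (h7 : (7 : k) ≠ 0) {w d : k} (hw : w ^ 2 = w - 2) (hd : d ≠ 0) :
    (Nat.card k : ℤ) - Nat.card {x : k × k // (crv w d).toAffine.Equation x.1 x.2} =
      quadraticChar k (-(2 * w - 1) * d) * ((Nat.card k : ℤ) - Nat.card (AP (EX k 0))) := by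
  have hf : (2 * w - 1) ^ 2 = (-7 : k) := by linear_combination 4 * hw
  have hf0 : (2 * w - 1 : k) ≠ 0 := by
    intro h
    rw [h] at hf
    apply h7
    linear_combination hf
  obtain ⟨t, ht⟩ : ∃ t : k, t = -d / (2 * w - 1) := ⟨_, rfl⟩
  have ht1 : t * (2 * w - 1) = -d := by rw [ht, div_mul_cancel₀ _ hf0]
  have ht0 : t ≠ 0 := by
    rintro rfl
    rw [zero_mul] at ht1
    exact hd (neg_eq_zero.1 ht1.symm)
  have h1 := count_tw (char_ne k h2) (-35) (-98) ht0
  rw [card_crv k hw, Pool.Agent.R426.QC.card_AP_EX' k h2 0, Nat.card_eq_fintype_card (α := k)]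
  have e1 : quadraticChar k (-(2 * w - 1) * d) = quadraticChar k t := by
    have e2 : -(2 * w - 1) * d = t * (2 * w - 1) ^ 2 := by
      linear_combination (2 * w - 1) * (-ht1)
    rw [e2, map_mul, map_pow, quadraticChar_sq_one hf0, mul_one]
  have e3 : (Nat.card {x : k × k // x.2 ^ 2 = x.1 ^ 3 + 5 * d ^ 2 * x.1 +
      2 * (2 * w - 1) * d ^ 3}) = Nat.card {x : k × k // x.2 ^ 2 = x.1 ^ 3 +
        (-35) * t ^ 2 * x.1 + (-98) * t ^ 3} := by
    have e4 : t ^ 2 * (-7) = d ^ 2 := by rw [← hf]; linear_combination (t * (2 * w - 1) - d) * ht1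
    have e7 : 7 * t = (2 * w - 1) * d := by linear_combination t * hf - (2 * w - 1) * ht1
    have e5 : (-98) * t ^ 3 = 2 * (2 * w - 1) * d ^ 3 := by
      linear_combination (14 * t) * e4 + 2 * d ^ 2 * e7
    refine Nat.card_congr (Equiv.subtypeEquivRight fun x => ?_)
    rw [e5, show (-35) * t ^ 2 * x.1 = 5 * d ^ 2 * x.1 by linear_combination (5 * x.1) * e4]
  have e6 : (Nat.card {x : k × k // x.2 ^ 2 = x.1 ^ 3 + (-35) * (1 + 4 * (0 : k)) ^ 2 * x.1 +
      (-98) * (1 + 4 * (0 : k)) ^ 3}) =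
      Nat.card {x : k × k // x.2 ^ 2 = x.1 ^ 3 + (-35) * x.1 + (-98)} := by
    refine Nat.card_congr (Equiv.subtypeEquivRight fun x => ?_)
    have : (1 + 4 * (0 : k)) = 1 := by ring
    rw [this, one_pow, one_pow, mul_one, mul_one]
  rw [e1, e3, e6]
  exact h1

/-- the prime above seven -/
lemma card_sev (h2 : (2 : k) ≠ 0) (h7 : (7 : k) = 0) (h4 : Fintype.card k % 4 = 3) {w d : k}
    (hw : w ^ 2 = w - 2) :
    (Nat.card k : ℤ) - Nat.card {x : k × k // (crv w d).toAffine.Equation x.1 x.2} = 0 := by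
  have hf : (2 * w - 1) ^ 2 = (-7 : k) := by linear_combination 4 * hw
  have hf0 : (2 * w - 1 : k) = 0 := by
    rw [h7, neg_zero] at hf
    exact pow_eq_zero_iff (two_ne_zero) |>.1 hf
  rw [card_crv k hw, hf0, count_sq (char_ne k h2) (fun x => x ^ 3 + 5 * d ^ 2 * x + 2 * 0 * d ^ 3),
    Nat.card_eq_fintype_card (α := k)]
  have h1 : quadraticChar k (-1) = -1 := by
    rw [quadraticChar_neg_one_iff_not_isSquare, FiniteField.isSquare_neg_one_iff]
    exact not_not.2 h4
  have h3 : ∑ x, quadraticChar k (x ^ 3 + 5 * d ^ 2 * x + 2 * 0 * d ^ 3) =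
      -∑ x, quadraticChar k (x ^ 3 + 5 * d ^ 2 * x + 2 * 0 * d ^ 3) := by
    rw [← Finset.sum_neg_distrib, ← Equiv.sum_comp (Equiv.neg k)]
    refine Finset.sum_congr rfl fun x _ => ?_
    rw [Equiv.neg_apply]
    have e1 : (-x) ^ 3 + 5 * d ^ 2 * -x + 2 * 0 * d ^ 3 =
        -1 * (x ^ 3 + 5 * d ^ 2 * x + 2 * 0 * d ^ 3) := by ring
    rw [e1, map_mul, h1]
    ring
  linarith

end fld

/-! ### the symbols -/

section sym

variable {g : OO}

lemma smb_qc [hP : (Ideal.span {g}).IsMaximal] (x : OO) :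
    letI : Field (OO ⧸ Ideal.span {g}) := Ideal.Quotient.field _
    ∀ [Fintype (OO ⧸ Ideal.span {g})] [DecidableEq (OO ⧸ Ideal.span {g})],
    quadraticChar (OO ⧸ Ideal.span {g}) (Ideal.Quotient.mk _ x) = smb g x := by
  letI : Field (OO ⧸ Ideal.span {g}) := Ideal.Quotient.field _
  intro _ _
  unfold smb
  have h0 : (Ideal.Quotient.mk (Ideal.span {g}) x) = 0 ↔ g ∣ x := by
    rw [Ideal.Quotient.eq_zero_iff_mem, Ideal.mem_span_singleton]
  have h1 : IsSquare (Ideal.Quotient.mk (Ideal.span {g}) x) ↔ Sqm g x := by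
    constructor
    · rintro ⟨t, ht⟩
      obtain ⟨y, rfl⟩ := Ideal.Quotient.mk_surjective t
      refine ⟨y, ?_⟩
      rw [← Ideal.mem_span_singleton, ← Ideal.Quotient.mk_eq_mk_iff_sub_mem, ht, map_pow, pow_two]
    · rintro ⟨y, hy⟩
      refine ⟨Ideal.Quotient.mk _ y, ?_⟩
      rw [← map_mul, Ideal.Quotient.mk_eq_mk_iff_sub_mem, Ideal.mem_span_singleton, ← pow_two]
      exact hy
  by_cases h : g ∣ x
  · rw [if_pos h, h0.2 h]
    exact MulChar.map_zero _
  · rw [if_neg h]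
    have h2 : (Ideal.Quotient.mk (Ideal.span {g}) x) ≠ 0 := fun h3 => h (h0.1 h3)
    by_cases h3 : Sqm g x
    · rw [if_pos h3]
      exact (quadraticChar_one_iff_isSquare h2).2 (h1.2 h3)
    · rw [if_neg h3]
      exact quadraticChar_neg_one_iff_not_isSquare.2 fun h4 => h3 (h1.1 h4)

end sym

end Pool.Agent.N843
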