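import Pool.Agent.N843.Vals
import Pool.Agent.TH936.PU.Vl

/-!
# Congruences for the values
-/

set_option autoImplicit false
set_option linter.unusedSectionVars false
set_option linter.unusedSimpArgs false

namespace Pool.Agent.N843

open Pool.Agent.Y690.NV MvPolynomial Finset Pool.Agent.TH936.PU

/-- a quarter of the parameter -/
noncomputable def b4 : A := C (1 / 4) * aB

lemma C_ofNat (n : ℕ) [n.AtLeastTwo] : (C (OfNat.ofNat n : ℂ) : A) = OfNat.ofNat n := map_ofNat C n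

lemma aB_eq : aB = 4 * b4 := by
  unfold b4
  have h : (4 : A) = C 4 := (C_ofNat 4).symm
  rw [h, ← mul_assoc, ← map_mul]
  norm_num

/-- the integral subring -/
noncomputable def WW : Subring A := Subring.closure {b4, aX, aH, aE, aT}

lemma b4_mem : b4 ∈ WW := Subring.subset_closure (by simp)
lemma aX_mem : aX ∈ WW := Subring.subset_closure (by simp)
lemma aH_mem : aH ∈ WW := Subring.subset_closure (by simp)
lemma aE_mem : aE ∈ WW := Subring.subset_closure (by simp)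
lemma aT_mem : aT ∈ WW := Subring.subset_closure (by simp)

lemma nat_mem_WW (n : ℕ) : (n : A) ∈ WW := natCast_mem WW n

lemma ofNat_mem_WW (n : ℕ) [n.AtLeastTwo] : (OfNat.ofNat n : A) ∈ WW := by
  have h : (OfNat.ofNat n : A) = ((OfNat.ofNat n : ℕ) : A) := (Nat.cast_ofNat).symm
  rw [h]
  exact natCast_mem WW _

lemma aB_mem : aB ∈ WW := by
  rw [aB_eq]
  exact WW.mul_mem (ofNat_mem_WW 4) b4_mem

lemma da_b4 : da b4 = b4 - 16 * b4 ^ 2 := by
  have h : da b4 = C (1 / 4) * (aB - 4 * aB ^ 2) := by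
    unfold b4
    rw [A_mul, A_C, da_B]
    ring
  have h2 : C (1 / 4) * (aB - 4 * aB ^ 2) = b4 - 4 * (b4 * aB) := by
    unfold b4
    ring
  rw [h, h2, aB_eq]
  ring

lemma fX_mem : fX ∈ WW := by
  unfold fX
  refine WW.add_mem (WW.add_mem ?_ ?_) ?_
  · exact WW.mul_mem (WW.mul_mem (ofNat_mem_WW 2) aE_mem) aH_mem
  · exact WW.mul_mem (WW.mul_mem (ofNat_mem_WW 2) aB_mem) (WW.pow_mem aX_mem 2)
  · exact WW.mul_mem (WW.sub_mem WW.one_mem (WW.mul_mem (ofNat_mem_WW 2) aB_mem)) aX_mem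

lemma da_WW {w : A} (h : w ∈ WW) : da w ∈ WW := by
  induction h using Subring.closure_induction with
  | mem x hx =>
    simp only [Set.mem_insert_iff, Set.mem_singleton_iff] at hx
    rcases hx with rfl | rfl | rfl | rfl | rfl
    · rw [da_b4]
      exact WW.sub_mem b4_mem (WW.mul_mem (ofNat_mem_WW 16) (WW.pow_mem b4_mem 2))
    · rw [da_X]
      exact fX_mem
    · rw [da_H]
      refine WW.add_mem (WW.mul_mem aH_mem (WW.sub_mem (WW.add_mem ?_ WW.one_mem) ?_))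
        (WW.mul_mem aE_mem (WW.add_mem (WW.add_mem ?_ ?_) aB_mem))
      · exact WW.mul_mem (WW.mul_mem (ofNat_mem_WW 3) aB_mem) aX_mem
      · exact WW.mul_mem (ofNat_mem_WW 3) aB_mem
      · exact WW.mul_mem (WW.mul_mem (ofNat_mem_WW 3) aB_mem) (WW.pow_mem aX_mem 2)
      · exact WW.mul_mem (WW.sub_mem (ofNat_mem_WW 2) (WW.mul_mem (ofNat_mem_WW 4) aB_mem)) aX_mem
    · rw [da_E]
      exact WW.neg_mem (WW.mul_mem aB_mem (WW.add_mem (WW.mul_mem aE_mem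
        (WW.add_mem aX_mem WW.one_mem)) aH_mem))
    · rw [da_T]
      exact WW.neg_mem (WW.mul_mem (WW.pow_mem aT_mem 2) fX_mem)
  | zero => rw [map_zero]; exact WW.zero_mem
  | one => rw [Derivation.map_one_eq_zero]; exact WW.zero_mem
  | add x y _ _ h1 h2 => rw [map_add]; exact WW.add_mem h1 h2
  | neg x _ h1 => rw [map_neg]; exact WW.neg_mem h1
  | mul x y hx hy h1 h2 =>
    rw [A_mul]
    exact WW.add_mem (WW.mul_mem hx h2) (WW.mul_mem hy h1)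

lemma aβ_eq : aβ = 4 * (b4 * (1 - 4 * aB)) := by
  unfold aβ
  rw [aB_eq]
  ring

lemma bb_mem : b4 * (1 - 4 * aB) ∈ WW :=
  WW.mul_mem b4_mem (WW.sub_mem WW.one_mem (WW.mul_mem (ofNat_mem_WW 4) aB_mem))

lemma Mq_mem {m : A} (hm : m ∈ WW) (n : ℕ) : Mq m n ∈ WW ∧ Mq m (n + 1) ∈ WW := by
  induction n with
  | zero =>
    refine ⟨by rw [Mq_zero]; exact hm, ?_⟩
    rw [zero_add, Mq_one]
    exact da_WW hm
  | succ n ih =>
    refine ⟨ih.2, ?_⟩
    rw [show n + 1 + 1 = n + 2 from rfl, Mq_rec, aβ_eq]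
    exact WW.add_mem (da_WW ih.2) (WW.mul_mem (WW.pow_mem (WW.add_mem (nat_mem_WW n) WW.one_mem) 2)
      (WW.mul_mem (WW.mul_mem (ofNat_mem_WW 4) bb_mem) ih.1))

/-- `4 W` is stable -/
lemma da_four {w : A} : da (4 * w) = 4 * da w := by
  have : da (4 : A) = 0 := A_ofNat da 4
  rw [A_mul, this]
  ring

lemma Mq_T (n : ℕ) : ∃ w ∈ WW, Mq (1 + 2 * aT) (n + 1) = 2 * (aT ^ 2 * aX) + 4 * w := by
  have d2 : da (2 : A) = 0 := A_ofNat da 2
  induction n with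
  | zero =>
    refine ⟨-(aT ^ 2 * (aE * aH + aB * aX ^ 2 + (1 - aB) * aX)), ?_, ?_⟩
    · refine WW.neg_mem (WW.mul_mem (WW.pow_mem aT_mem 2) (WW.add_mem (WW.add_mem
        (WW.mul_mem aE_mem aH_mem) (WW.mul_mem aB_mem (WW.pow_mem aX_mem 2)))
        (WW.mul_mem (WW.sub_mem WW.one_mem aB_mem) aX_mem)))
    · rw [zero_add, Mq_one, map_add, A_mul, d2, Derivation.map_one_eq_zero, da_T]
      unfold fX
      ring
  | succ n ih =>
    obtain ⟨w, hw, h⟩ := ih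
    have hM : Mq (1 + 2 * aT) n ∈ WW := (Mq_mem (WW.add_mem WW.one_mem
      (WW.mul_mem (ofNat_mem_WW 2) aT_mem)) n).1
    refine ⟨-(aT ^ 3 * fX * aX) + aT ^ 2 * (aE * aH + aB * aX ^ 2 - aB * aX) + da w +
      (n + 1) ^ 2 * (b4 * (1 - 4 * aB) * Mq (1 + 2 * aT) n), ?_, ?_⟩
    · refine WW.add_mem (WW.add_mem (WW.add_mem (WW.neg_mem (WW.mul_mem (WW.mul_mem
        (WW.pow_mem aT_mem 3) fX_mem) aX_mem)) (WW.mul_mem (WW.pow_mem aT_mem 2)
        (WW.sub_mem (WW.add_mem (WW.mul_mem aE_mem aH_mem) (WW.mul_mem aB_mem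
        (WW.pow_mem aX_mem 2))) (WW.mul_mem aB_mem aX_mem)))) (da_WW hw))
        (WW.mul_mem (WW.pow_mem (WW.add_mem (nat_mem_WW n) WW.one_mem) 2) (WW.mul_mem bb_mem hM))
    · rw [show n + 1 + 1 = n + 2 from rfl, Mq_rec, aβ_eq, h, map_add, da_four, A_mul, A_mul, d2,
        A_pow, da_T, da_X]
      unfold fX
      push_cast
      ring

lemma Mq_one4 (n : ℕ) : ∃ w ∈ WW, Mq 1 (n + 1) = 4 * w := by
  induction n with
  | zero =>
    exact ⟨0, WW.zero_mem, by rw [zero_add, Mq_one, Derivation.map_one_eq_zero, mul_zero]⟩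
  | succ n ih =>
    obtain ⟨w, hw, h⟩ := ih
    have hM : Mq 1 n ∈ WW := (Mq_mem WW.one_mem n).1
    refine ⟨da w + (n + 1) ^ 2 * (b4 * (1 - 4 * aB) * Mq 1 n),
      WW.add_mem (da_WW hw) (WW.mul_mem (WW.pow_mem (WW.add_mem (nat_mem_WW n) WW.one_mem) 2)
      (WW.mul_mem bb_mem hM)), ?_⟩
    rw [show n + 1 + 1 = n + 2 from rfl, Mq_rec, aβ_eq, h, da_four]
    ring

lemma Mq_one16 (n : ℕ) : ∃ w ∈ WW, Mq 1 (n + 2) = aB + 16 * w := by
  induction n with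
  | zero =>
    refine ⟨-(4 * b4 ^ 2), WW.neg_mem (WW.mul_mem (ofNat_mem_WW 4) (WW.pow_mem b4_mem 2)), ?_⟩
    rw [Mq_rec, Mq_zero, zero_add, Mq_one, Derivation.map_one_eq_zero, map_zero]
    unfold aβ
    rw [aB_eq]
    push_cast
    ring
  | succ n ih =>
    obtain ⟨w, hw, h⟩ := ih
    obtain ⟨w', hw', h'⟩ := Mq_one4 n
    have d16 : da (16 : A) = 0 := A_ofNat da 16
    refine ⟨-(4 * b4 ^ 2) + da w + (n + 2) ^ 2 * (b4 * (1 - 4 * aB) * w'), ?_, ?_⟩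
    · exact WW.add_mem (WW.add_mem (WW.neg_mem (WW.mul_mem (ofNat_mem_WW 4) (WW.pow_mem b4_mem 2)))
        (da_WW hw)) (WW.mul_mem (WW.pow_mem (WW.add_mem (nat_mem_WW n) (ofNat_mem_WW 2)) 2)
        (WW.mul_mem bb_mem hw'))
    · rw [show n + 1 + 2 = (n + 1) + 2 from rfl, Mq_rec, show n + 1 + 1 = n + 2 from rfl, h, h', map_add,
        A_mul, d16, da_B, aβ_eq, aB_eq]
      push_cast
      ring

/-! ### evaluation -/

section val

variable {Γ : Type*} [LinearOrderedCommGroupWithZero Γ] {v : Valuation ℂ Γ}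

lemma v_nat (n : ℕ) : v (n : ℂ) ≤ 1 := by
  induction n with
  | zero => simp
  | succ n ih =>
    rw [Nat.cast_succ]
    exact v_add_le ih (by rw [map_one])

lemma v_int (n : ℤ) : v (n : ℂ) ≤ 1 := by
  obtain ⟨m, rfl | rfl⟩ := n.eq_nat_or_neg
  · rw [Int.cast_natCast]
    exact v_nat m
  · rw [Int.cast_neg, Int.cast_natCast, Valuation.map_neg]
    exact v_nat m

variable {B ξ η ε : ℂ} (h0 : v B ≤ v 4) (h1 : v ξ ≤ 1) (h2 : v η ≤ 1) (h3 : v ε ≤ 1)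
  (h4 : v (ξ - 1)⁻¹ ≤ 1)

include h0 h1 h2 h3 h4 in
lemma ev_WW {w : A} (h : w ∈ WW) : v (eval (ptQ B ξ η ε) w) ≤ 1 := by
  induction h using Subring.closure_induction with
  | mem x hx =>
    simp only [Set.mem_insert_iff, Set.mem_singleton_iff] at hx
    rcases hx with rfl | rfl | rfl | rfl | rfl
    · unfold b4 aB ptQ
      rw [map_mul, eval_C, eval_X]
      simp only [Matrix.cons_val]
      rw [map_mul, one_div, map_inv₀]
      by_cases hB : v (4 : ℂ) = 0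
      · rw [hB, inv_zero, zero_mul]
        exact zero_le_one
      · calc (v 4)⁻¹ * v B ≤ (v 4)⁻¹ * v 4 := mul_le_mul_right h0 _
          _ = 1 := inv_mul_cancel₀ hB
    · unfold aX ptQ
      rw [eval_X]
      exact h1
    · unfold aH ptQ
      rw [eval_X]
      exact h2
    · unfold aE ptQ
      rw [eval_X]
      exact h3
    · unfold aT ptQ
      rw [eval_X]
      exact h4
  | zero => rw [map_zero, map_zero]; exact zero_le_one
  | one => rw [map_one, map_one]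
  | add x y _ _ g1 g2 => rw [map_add]; exact v_add_le g1 g2
  | neg x _ g1 => rw [map_neg, Valuation.map_neg]; exact g1
  | mul x y _ _ g1 g2 => rw [map_mul]; exact v_mul_le g1 g2

/-- the higher terms of the change of gauge -/
lemma Sg_cong {ψ : ℂ} {g : Γ} (hψ : v ψ ≤ g) (hg : g ≤ 1) {M : ℕ → ℂ} (hM : ∀ n, v (M n) ≤ 1)
    (n : ℕ) : v (Sg ψ M n - M n) ≤ g := by
  unfold Sg
  rw [sum_range_succ', ca_zero]
  have e : ∑ k ∈ range n, (ca n (k + 1) : ℂ) * (ψ ^ (k + 1) * M (n - (k + 1))) +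
      ((1 : ℕ) : ℂ) * (ψ ^ 0 * M (n - 0)) - M n =
      ∑ k ∈ range n, (ca n (k + 1) : ℂ) * (ψ ^ (k + 1) * M (n - (k + 1))) := by
    rw [Nat.sub_zero, pow_zero]
    push_cast
    ring
  rw [e]
  refine Valuation.map_sum_le v fun k _ => ?_
  rw [pow_succ', mul_assoc, map_mul, map_mul]
  calc v (ca n (k + 1) : ℂ) * (v ψ * v (ψ ^ k * M (n - (k + 1)))) ≤ 1 * (g * 1) := by
        refine mul_le_mul' (v_nat _) (mul_le_mul' hψ (v_mul_le (v_pow_le (hψ.trans hg) k) (hM _)))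
    _ = g := by rw [one_mul, mul_one]

include h0 h1 h2 h3 h4 in
theorem cong_Q {ψ : ℂ} (hψ : v ψ ≤ v 4) (r : ℕ) :
    v (Sg ψ (fun k => eval (ptQ B ξ η ε) (Mq (1 + 2 * aT) k)) (r + 1) -
      2 * (((ξ - 1)⁻¹) ^ 2 * ξ)) ≤ v 4 := by
  have hv4 : v (4 : ℂ) ≤ 1 := by
    have := v_nat (v := v) 4
    exact_mod_cast this
  have hM : ∀ n, v (eval (ptQ B ξ η ε) (Mq (1 + 2 * aT) n)) ≤ 1 := fun n =>
    ev_WW h0 h1 h2 h3 h4 (Mq_mem (WW.add_mem WW.one_mem (WW.mul_mem (ofNat_mem_WW 2) aT_mem)) n).1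
  have k1 := Sg_cong hψ hv4 hM (r + 1)
  obtain ⟨w, hw, h⟩ := Mq_T r
  have k2 := ev_WW h0 h1 h2 h3 h4 hw
  have e : eval (ptQ B ξ η ε) (Mq (1 + 2 * aT) (r + 1)) = 2 * (((ξ - 1)⁻¹) ^ 2 * ξ) +
      4 * eval (ptQ B ξ η ε) w := by
    rw [h]
    simp only [map_add, map_mul, map_pow, map_ofNat]
    unfold aT aX ptQ
    rw [eval_X, eval_X]
    simp only [Matrix.cons_val]
  have e2 : Sg ψ (fun k => eval (ptQ B ξ η ε) (Mq (1 + 2 * aT) k)) (r + 1) -
      2 * (((ξ - 1)⁻¹) ^ 2 * ξ) = (Sg ψ (fun k => eval (ptQ B ξ η ε) (Mq (1 + 2 * aT) k)) (r + 1) -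
      eval (ptQ B ξ η ε) (Mq (1 + 2 * aT) (r + 1))) + 4 * eval (ptQ B ξ η ε) w := by
    rw [e]
    ring
  rw [e2]
  refine v_add_le k1 ?_
  rw [map_mul]
  calc v 4 * v (eval (ptQ B ξ η ε) w) ≤ v 4 * 1 := mul_le_mul_right k2 _
    _ = v 4 := mul_one _

include h0 h1 h2 h3 h4 in
theorem cong_T {ψ : ℂ} (hψ : v ψ ≤ v 4) (r : ℕ) :
    v (Sg ψ (fun k => eval (ptQ B ξ η ε) (Mq 1 k)) (r + 1)) ≤ v 4 := by
  have hv4 : v (4 : ℂ) ≤ 1 := by
    have := v_nat (v := v) 4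
    exact_mod_cast this
  have hM : ∀ n, v (eval (ptQ B ξ η ε) (Mq 1 n)) ≤ 1 := fun n =>
    ev_WW h0 h1 h2 h3 h4 (Mq_mem WW.one_mem n).1
  have k1 := Sg_cong hψ hv4 hM (r + 1)
  obtain ⟨w, hw, h⟩ := Mq_one4 r
  have k2 := ev_WW h0 h1 h2 h3 h4 hw
  have e : eval (ptQ B ξ η ε) (Mq 1 (r + 1)) = 4 * eval (ptQ B ξ η ε) w := by
    rw [h]
    simp only [map_mul, map_ofNat]
  have e2 : Sg ψ (fun k => eval (ptQ B ξ η ε) (Mq 1 k)) (r + 1) =
      (Sg ψ (fun k => eval (ptQ B ξ η ε) (Mq 1 k)) (r + 1) -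
      eval (ptQ B ξ η ε) (Mq 1 (r + 1))) + 4 * eval (ptQ B ξ η ε) w := by
    rw [e]
    ring
  rw [e2]
  refine v_add_le k1 ?_
  rw [map_mul]
  calc v 4 * v (eval (ptQ B ξ η ε) w) ≤ v 4 * 1 := mul_le_mul_right k2 _
    _ = v 4 := mul_one _

include h1 h2 h3 h4 in
/-- the exact valuation of the value at `T` -/
theorem exact_T {ψ : ℂ} (hB : v B = v 4) (hψ : v ψ = v 4) (h2' : v 2 < 1) (h20 : v 2 ≠ 0) (r : ℕ) :
    v (Sg ψ (fun k => eval (ptQ B ξ η ε) (Mq 1 k)) (r + 1)) = v 4 := by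
  have h0 : v B ≤ v 4 := hB.le
  have e4 : v (4 : ℂ) = v 2 * v 2 := by rw [← map_mul]; norm_num
  have hv4 : v (4 : ℂ) ≤ 1 := by
    have := v_nat (v := v) 4
    exact_mod_cast this
  have v40 : v (4 : ℂ) ≠ 0 := by rw [e4]; exact mul_ne_zero h20 h20
  have v8 : v (8 : ℂ) < v 4 := by
    have : (8 : ℂ) = 2 * 4 := by norm_num
    rw [this, map_mul]
    calc v 2 * v 4 < 1 * v 4 := mul_lt_mul_of_pos_right h2' (zero_lt_iff.2 v40)
      _ = v 4 := one_mul _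
  have v16 : v (4 : ℂ) * v 4 < v 4 := by
    have v41 : v (4 : ℂ) < 1 := by
      rw [e4]
      exact mul_lt_one_of_lt_of_le h2' h2'.le
    calc v 4 * v 4 < 1 * v 4 := mul_lt_mul_of_pos_right v41 (zero_lt_iff.2 v40)
      _ = v 4 := one_mul _
  have hM : ∀ n, v (eval (ptQ B ξ η ε) (Mq 1 n)) ≤ 1 := fun n =>
    ev_WW h0 h1 h2 h3 h4 (Mq_mem WW.one_mem n).1
  have hM4 : ∀ n, v (eval (ptQ B ξ η ε) (Mq 1 (n + 1))) ≤ v 4 := by
    intro n
    obtain ⟨w, hw, h⟩ := Mq_one4 n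
    have k2 := ev_WW h0 h1 h2 h3 h4 hw
    rw [h, map_mul, map_ofNat, map_mul]
    calc v 4 * v (eval (ptQ B ξ η ε) w) ≤ v 4 * 1 := mul_le_mul_right k2 _
      _ = v 4 := mul_one _
  rcases r with _ | r
  · rw [zero_add, Sg_one, Mq_one, Mq_zero, Derivation.map_one_eq_zero, map_zero, map_one, zero_add,
      mul_one, hψ]
  · obtain ⟨w, hw, h⟩ := Mq_one16 r
    have k2 := ev_WW h0 h1 h2 h3 h4 hw
    have e : eval (ptQ B ξ η ε) (Mq 1 (r + 2)) = B + 16 * eval (ptQ B ξ η ε) w := by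
      rw [h]
      simp only [map_add, map_mul, map_ofNat]
      unfold aB ptQ
      rw [eval_X]
      simp only [Matrix.cons_val]
    have kk : v (Sg ψ (fun k => eval (ptQ B ξ η ε) (Mq 1 k)) (r + 2) -
        eval (ptQ B ξ η ε) (Mq 1 (r + 2))) ≤ v 4 * v 4 := by
      unfold Sg
      rw [sum_range_succ', ca_zero]
      have e' : ∑ k ∈ range (r + 2), (ca (r + 2) (k + 1) : ℂ) * (ψ ^ (k + 1) *
          (fun k => eval (ptQ B ξ η ε) (Mq 1 k)) (r + 2 - (k + 1))) +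
          ((1 : ℕ) : ℂ) * (ψ ^ 0 * (fun k => eval (ptQ B ξ η ε) (Mq 1 k)) (r + 2 - 0)) -
          eval (ptQ B ξ η ε) (Mq 1 (r + 2)) =
          ∑ k ∈ range (r + 2), (ca (r + 2) (k + 1) : ℂ) * (ψ ^ (k + 1) *
          (fun k => eval (ptQ B ξ η ε) (Mq 1 k)) (r + 2 - (k + 1))) := by
        rw [Nat.sub_zero, pow_zero]
        push_cast
        ring
      rw [e']
      refine Valuation.map_sum_le v fun k hk => ?_
      have hk' := mem_range.1 hk
      rcases Nat.lt_or_ge k (r + 1) with hk2 | hk2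
      · obtain ⟨m, hm⟩ : ∃ m, r + 2 - (k + 1) = m + 1 := ⟨r - k, by omega⟩
        rw [hm, pow_succ', mul_assoc, map_mul, map_mul, map_mul]
        calc v (ca (r + 2) (k + 1) : ℂ) * (v ψ * (v (ψ ^ k) *
              v (eval (ptQ B ξ η ε) (Mq 1 (m + 1))))) ≤ 1 * (v 4 * (1 * v 4)) :=
              mul_le_mul' (v_nat _) (mul_le_mul' hψ.le (mul_le_mul'
                (v_pow_le (hψ.le.trans hv4) k) (hM4 m)))
          _ = v 4 * v 4 := by rw [one_mul, one_mul]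
      · have hk3 : k = r + 1 := by omega
        subst hk3
        rw [pow_succ', pow_succ', mul_assoc, mul_assoc, map_mul, map_mul, map_mul]
        calc v (ca (r + 2) (r + 1 + 1) : ℂ) * (v ψ * (v ψ * v (ψ ^ r *
              eval (ptQ B ξ η ε) (Mq 1 (r + 2 - (r + 1 + 1)))))) ≤ 1 * (v 4 * (v 4 * 1)) :=
              mul_le_mul' (v_nat _) (mul_le_mul' hψ.le (mul_le_mul' hψ.le
                (v_mul_le (v_pow_le (hψ.le.trans hv4) r) (hM _))))
          _ = v 4 * v 4 := by rw [one_mul, mul_one]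
    have e3 : Sg ψ (fun k => eval (ptQ B ξ η ε) (Mq 1 k)) (r + 2) = B +
        ((Sg ψ (fun k => eval (ptQ B ξ η ε) (Mq 1 k)) (r + 2) -
        eval (ptQ B ξ η ε) (Mq 1 (r + 2))) + 16 * eval (ptQ B ξ η ε) w) := by
      rw [e]
      ring
    have k3 : v ((Sg ψ (fun k => eval (ptQ B ξ η ε) (Mq 1 k)) (r + 2) -
        eval (ptQ B ξ η ε) (Mq 1 (r + 2))) + 16 * eval (ptQ B ξ η ε) w) < v B := by
      rw [hB]
      refine v_add_lt (kk.trans_lt v16) ?_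
      have e16 : (16 : ℂ) = 4 * 4 := by norm_num
      rw [e16, map_mul, map_mul]
      calc v 4 * v 4 * v (eval (ptQ B ξ η ε) w) ≤ v 4 * v 4 * 1 := mul_le_mul_right k2 _
        _ < v 4 := by rw [mul_one]; exact v16
    rw [e3, Valuation.map_add_eq_of_lt_left v k3, hB]

end val

end Pool.Agent.N843
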