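import Pool.Agent.N843.Bd

/-!
# Counting the points
-/

set_option autoImplicit false
set_option linter.unusedSectionVars false
set_option linter.unusedSimpArgs false

open Filter
open scoped Topology PeriodPair

namespace Pool.Agent.N843

open H667R3 Pool.Agent.TH936.CW Pool.Agent.W192.HK Pool.Agent.Y690.NV Pool.Agent.TH936.PU
open Pool.Agent.Y698 (RR al al_sq al_ne bl bl_ne al_mul_bl LD tA tB aR aR_coe bR bR_coe cX cY co
  co_uniq al_im_pos Xx_per Tb v_two v_two_lt v_bl fin_quot aR_mul_bR two_coe nR cj mul_cj cj_coe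
  cXY_int cXY_of RR_ext)
open Pool.Agent.Y698.SG (Pe sy sy_per sy_val sy_sgn tr tr_per tr_mul Mu hc hc_val hc_per
  sp_mem_iff prime_mem)
open Pool.Agent.TH936.CM (IsLat)

variable {L : PeriodPair} {Ω : ℂ}

/-- half of a set with an involution without fixed points -/
theorem exists_half {α : Type*} [Fintype α] (σ : α → α) (hσ : ∀ x, σ (σ x) = x) (w : α → ℂ)
    (hw : ∀ x, w x = 0 ∨ w x = 1) (hws : ∀ x, w (σ x) = w x) (hne : ∀ x, w x = 1 → σ x ≠ x) :
    ∃ H : Finset α, (∀ x ∈ H, w x = 1) ∧ ∀ G : α → ℂ, (∀ x, w x = 1 → G (σ x) = G x) →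
      ∑ x, w x * G x = 2 * ∑ x ∈ H, G x := by
  classical
  set e := Fintype.equivFin α
  refine ⟨Finset.univ.filter (fun x => w x = 1 ∧ e x < e (σ x)), fun x hx =>
    ((Finset.mem_filter.1 hx).2).1, fun G hG => ?_⟩
  have h1 : ∀ x, w x * G x = (if w x = 1 ∧ e x < e (σ x) then G x else 0) +
      (if w x = 1 ∧ e (σ x) < e x then G x else 0) := by
    intro x
    rcases hw x with h | h
    · rw [if_neg (fun h' => by rw [h] at h'; exact zero_ne_one h'.1),
        if_neg (fun h' => by rw [h] at h'; exact zero_ne_one h'.1), h]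
      ring
    · rcases lt_trichotomy (e x) (e (σ x)) with h2 | h2 | h2
      · rw [if_pos ⟨h, h2⟩, if_neg (fun h' => lt_asymm h2 h'.2), h]
        ring
      · exact absurd (e.injective h2).symm (hne x h)
      · rw [if_neg (fun h' => lt_asymm h2 h'.2), if_pos ⟨h, h2⟩, h]
        ring
  rw [Finset.sum_congr rfl (fun x _ => h1 x), Finset.sum_add_distrib, Finset.sum_filter, two_mul]
  congr 1
  set τ : α ≃ α := ⟨σ, σ, hσ, hσ⟩
  rw [← Equiv.sum_comp τ]
  refine Finset.sum_congr rfl fun x _ => ?_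
  show (if w (σ x) = 1 ∧ e (σ (σ x)) < e (σ x) then G (σ x) else 0) = _
  rw [hws, hσ]
  by_cases h : w x = 1 ∧ e x < e (σ x)
  · rw [if_pos h, if_pos h, hG x h.1]
  · rw [if_neg h, if_neg h]

/-! ### sums over coprime moduli -/

theorem sum_crt {a b : RR} (h : IsCoprime a b) [Fintype (RR ⧸ sp a)] [Fintype (RR ⧸ sp b)]
    [Fintype (RR ⧸ sp (a * b))] {f g : RR → ℂ} (hf : Pe a f) (hg : Pe b g) :
    ∑ x : RR ⧸ sp (a * b), f x.out * g x.out =
      (∑ x : RR ⧸ sp a, f x.out) * ∑ x : RR ⧸ sp b, g x.out := by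
  obtain ⟨a', b', hab⟩ := h
  have hpe : ∀ x y : RR, x - y ∈ sp (a * b) → f x * g x = f y * g y := fun x y hxy => by
    rw [hf.mono (Dvd.intro _ rfl) x y hxy, hg.mono (Dvd.intro_left _ rfl) x y hxy]
  have hbij : Function.Bijective (fun p : (RR ⧸ sp a) × (RR ⧸ sp b) =>
      Ideal.Quotient.mk (sp (a * b)) (p.1.out * (b' * b) + p.2.out * (a' * a))) := by
    constructor
    · rintro ⟨x, y⟩ ⟨x', y'⟩ h
      have h1 : (x.out * (b' * b) + y.out * (a' * a)) -
          (x'.out * (b' * b) + y'.out * (a' * a)) ∈ sp (a * b) := by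
        rw [← Ideal.Quotient.mk_eq_mk_iff_sub_mem]
        exact h
      rw [Ideal.mem_span_singleton'] at h1
      obtain ⟨c, hc⟩ := h1
      have h2 : x = x' := by
        refine mk_eq ?_
        rw [Ideal.mem_span_singleton']
        refine ⟨c * b - (y.out - y'.out) * a' + (x.out - x'.out) * a', ?_⟩
        linear_combination hc + (x.out - x'.out) * hab
      have h3 : y = y' := by
        refine mk_eq ?_
        rw [Ideal.mem_span_singleton']
        refine ⟨c * a - (x.out - x'.out) * b' + (y.out - y'.out) * b', ?_⟩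
        linear_combination hc + (y.out - y'.out) * hab
      rw [h2, h3]
    · intro z
      have h1 := out_mk (sp a) z.out
      have h2 := out_mk (sp b) z.out
      rw [Ideal.mem_span_singleton'] at h1 h2
      obtain ⟨c, hc⟩ := h1
      obtain ⟨d, hd⟩ := h2
      refine ⟨⟨Ideal.Quotient.mk _ z.out, Ideal.Quotient.mk _ z.out⟩, ?_⟩
      show Ideal.Quotient.mk (sp (a * b)) ((Ideal.Quotient.mk (sp a) z.out).out * (b' * b) +
        (Ideal.Quotient.mk (sp b) z.out).out * (a' * a)) = z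
      conv_rhs => rw [← Ideal.Quotient.mk_out z]
      rw [Ideal.Quotient.mk_eq_mk_iff_sub_mem, Ideal.mem_span_singleton']
      exact ⟨-(c * b') - d * a', by linear_combination (-(b' * b)) * hc - (a' * a) * hd -
        z.out * hab⟩
  rw [sum_rep _ hbij (fun x => f x * g x) hpe, Fintype.sum_prod_type, Finset.sum_mul]
  refine Finset.sum_congr rfl fun x _ => ?_
  rw [Finset.mul_sum]
  refine Finset.sum_congr rfl fun y _ => ?_
  have e1 : f (x.out * (b' * b) + y.out * (a' * a)) = f x.out := by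
    apply hf
    rw [Ideal.mem_span_singleton']
    exact ⟨(y.out - x.out) * a', by linear_combination (-x.out) * hab⟩
  have e2 : g (x.out * (b' * b) + y.out * (a' * a)) = g y.out := by
    apply hg
    rw [Ideal.mem_span_singleton']
    exact ⟨(x.out - y.out) * b', by linear_combination (-y.out) * hab⟩
  rw [e1, e2]

/-- sums over the residues -/
noncomputable def Sm (n : RR) (φ : RR → ℂ) : ℂ := ∑ᶠ x : RR ⧸ sp n, φ x.out

lemma Sm_eq (n : RR) [Fintype (RR ⧸ sp n)] (φ : RR → ℂ) :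
    Sm n φ = ∑ x : RR ⧸ sp n, φ x.out := finsum_eq_sum_of_fintype _

lemma Pd.cop {ϖ m : RR} (h : Pd ϖ) (hm : m ∉ sp ϖ) : IsCoprime ϖ m := by
  rw [Ideal.mem_span_singleton] at hm
  exact (Irreducible.coprime_iff_not_dvd h.pr.irreducible).2 hm

lemma Fm.cop {ι : Type} {S : Finset ι} {π : ι → RR} {q : ι} (hq : q ∉ S) [DecidableEq ι]
    (h : Fm (insert q S) π) : IsCoprime (π q) (∏ i ∈ S, π i) := by
  refine IsCoprime.prod_right fun i hi => ?_
  have hi' : i ∈ insert q S := Finset.mem_insert_of_mem hi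
  have hq' : q ∈ insert q S := Finset.mem_insert_self _ _
  exact (h.pd q hq').cop (h.ne i hi' q hq' fun h' => hq (h' ▸ hi))

theorem Sm_prod {ι : Type} {π : ι → RR} (f : ι → RR → ℂ) (S : Finset ι) (hS : Fm S π)
    (hf : ∀ i ∈ S, Pe (π i) (f i)) :
    Sm (∏ i ∈ S, π i) (fun m => ∏ i ∈ S, f i m) = ∏ i ∈ S, Sm (π i) (f i) := by
  classical
  induction S using Finset.induction_on with
  | empty =>
    simp only [Finset.prod_empty]
    have f1 := fin_quot (one_ne_zero (α := RR))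
    let _ : Fintype (RR ⧸ sp 1) := Fintype.ofFinite _
    rw [Sm_eq]
    have h1 : Subsingleton (RR ⧸ sp 1) := by
      rw [Ideal.Quotient.subsingleton_iff]
      exact Ideal.span_singleton_one
    simp only [Finset.sum_const, nsmul_eq_mul, mul_one]
    have : Fintype.card (RR ⧸ sp 1) = 1 := Fintype.card_eq_one_iff_nonempty_unique.2
      ⟨⟨⟨0⟩, fun a => Subsingleton.elim _ _⟩⟩
    rw [Finset.card_univ, this]
    norm_num
  | insert q S hq ih =>
    have hSs : Fm S π := hS.mono (Finset.subset_insert _ _)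
    have ih' := ih hSs fun p hp => hf p (Finset.mem_insert_of_mem hp)
    have hqf := hS.pd q (Finset.mem_insert_self _ _)
    rw [Finset.prod_insert hq, Finset.prod_insert hq, ← ih']
    have f1 := fin_quot hqf.pr.ne_zero
    have f2 := fin_quot hSs.fo.ne
    have f3 := fin_quot (mul_ne_zero hqf.pr.ne_zero hSs.fo.ne)
    let _ : Fintype (RR ⧸ sp (π q)) := Fintype.ofFinite _
    let _ : Fintype (RR ⧸ sp (∏ i ∈ S, π i)) := Fintype.ofFinite _
    let _ : Fintype (RR ⧸ sp (π q * ∏ i ∈ S, π i)) := Fintype.ofFinite _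
    rw [Sm_eq, Sm_eq, Sm_eq, ← sum_crt (hS.cop hq) (hf q (Finset.mem_insert_self _ _))
      (Pe.prod fun p hp => hf p (Finset.mem_insert_of_mem hp))]
    refine Finset.sum_congr rfl fun x _ => ?_
    rw [Finset.prod_insert hq]

lemma Pd.sum_hc {ϖ : RR} (h : Pd ϖ) : Sm ϖ (hc ϖ) = ((nR ϖ : ℤ) - 1) / 2 := by
  classical
  have f1 := fin_quot h.pr.ne_zero
  let _ : Fintype (RR ⧸ sp ϖ) := Fintype.ofFinite _
  rw [Sm_eq]
  unfold hc
  rw [← Finset.sum_div, Finset.sum_add_distrib, h.sum, zero_add]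
  congr 1
  have h1 : ∀ x : RR ⧸ sp ϖ, tr ϖ x.out = if x = 0 then 0 else 1 := by
    intro x
    unfold tr
    have e : (x.out ∈ sp ϖ) ↔ x = 0 := by
      rw [← Ideal.Quotient.eq_zero_iff_mem, Ideal.Quotient.mk_out]
    simp only [e]
  rw [Finset.sum_congr rfl (fun x _ => h1 x), Finset.sum_ite, Finset.sum_const_zero, zero_add,
    Finset.sum_const, nsmul_eq_mul, mul_one, Finset.filter_ne' , Finset.card_erase_of_mem
    (Finset.mem_univ _), Finset.card_univ, ← Nat.card_eq_fintype_card]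
  have h2 := Pd.card (ϖ := ϖ)
  have h3 : 0 < Nat.card (RR ⧸ sp ϖ) := Nat.card_pos
  rw [← h2, Nat.cast_sub h3]
  push_cast
  rfl

/-- a quarter of the norm minus one -/
noncomputable def tt (ϖ : RR) : ℕ := ((nR ϖ - 1) / 4).toNat

lemma Pd.tt {ϖ : RR} (h : Pd ϖ) : (nR ϖ : ℤ) = 4 * (tt ϖ : ℤ) + 1 := by
  unfold N843.tt
  have h1 := h.fo.nR
  have h2 : 0 < nR ϖ := Pool.Agent.Y698.nR_pos h.pr.ne_zero
  omega

/-- the sum over the points where all the symbols are one -/
theorem Bd_half {ι : Type} {S : Finset ι} {π : ι → RR} (hS : Fm S π)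
    (hne : S.Nonempty) (hL : IsLat L RR Ω) :
    ∃ H : Finset (RR ⧸ sp (∏ i ∈ S, π i)),
      (∀ x ∈ H, Ω * (x.out : RR) / ((∏ i ∈ S, π i : RR) : ℂ) ∉ L.lattice) ∧
      H.card = 2 ^ (S.card - 1) * ∏ i ∈ S, tt (π i) ∧
      ∀ (lam : RR → ℂ) (W : ℂ → ℂ), Ds L Ω lam W →
        Bd Ω W (∏ i ∈ S, π i) (fun m => ∏ i ∈ S, hc (π i) m) =
          2 * ∑ x ∈ H, W (Ω * (x.out : RR) / ((∏ i ∈ S, π i : RR) : ℂ)) := by
  classical
  obtain ⟨i₀, hi₀⟩ := hne
  set n : RR := ∏ i ∈ S, π i with hn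
  have hfo : Fo n := hS.fo
  have f1 := fin_quot hfo.ne
  let _ : Fintype (RR ⧸ sp n) := Fintype.ofFinite _
  have hper : Pe n (fun m => ∏ i ∈ S, hc (π i) m) := Pe.prod fun p _ => hc_per (π p)
  have hout : ∀ x : RR ⧸ sp n, (-x).out - (-x.out) ∈ sp n := by
    intro x
    rw [← Ideal.Quotient.mk_eq_mk_iff_sub_mem, Ideal.Quotient.mk_out, map_neg,
      Ideal.Quotient.mk_out]
  have hval : ∀ x : RR, (∏ i ∈ S, hc (π i) x = 0 ∨ ∏ i ∈ S, hc (π i) x = 1) ∧
      (∏ i ∈ S, hc (π i) x = 1 → x ∉ sp (π i₀)) := by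
    intro x
    constructor
    · by_cases h : ∃ i ∈ S, hc (π i) x = 0
      · obtain ⟨i, hi, h⟩ := h
        exact Or.inl (Finset.prod_eq_zero hi h)
      · push Not at h
        exact Or.inr (Finset.prod_eq_one fun i hi => ((hc_val (π i) x).1).resolve_left (h i hi))
    · intro h hx
      rw [Finset.prod_eq_zero hi₀ ((hc_val (π i₀) x).2 hx)] at h
      exact zero_ne_one h
  have hdvd : π i₀ ∣ n := Finset.dvd_prod_of_mem _ hi₀
  have hsub : ∀ x : RR, x ∈ sp n → x ∈ sp (π i₀) := fun x hx =>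
    (Ideal.span_singleton_le_span_singleton.2 hdvd) hx
  obtain ⟨H, hH1, hH2⟩ := exists_half (α := RR ⧸ sp n) (fun x => -x) neg_neg
    (fun x => ∏ i ∈ S, hc (π i) x.out) (fun x => (hval _).1) (fun x => by
      refine (hper _ _ (hout x)).trans ?_
      exact Finset.prod_congr rfl fun i hi => (hS.pd i hi).hcneg _) (fun x hx h => by
      have h2 := (hval _).2 hx
      have h3 : x.out - (-x.out) ∈ sp n := by
        have := hout x
        rwa [show (-x) = x from h] at this
      have h4 := hsub _ h3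
      have h5 : 2 * x.out ∈ sp (π i₀) := by
        convert h4 using 1
        ring
      rw [Ideal.mem_span_singleton] at h5 h2
      rcases (hS.pd i₀ hi₀).pr.dvd_or_dvd h5 with h6 | h6
      · exact (hS.pd i₀ hi₀).two (Ideal.mem_span_singleton.2 h6)
      · exact h2 h6)
  refine ⟨H, fun x hx h => ?_, ?_, fun lam W hW => ?_⟩
  · rw [div_mem_iff hL hfo.ne] at h
    exact (hval _).2 (hH1 x hx) (hsub _ h)
  · have h1 := hH2 (fun _ => 1) (fun _ _ => rfl)
    simp only [mul_one] at h1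
    rw [Finset.sum_const, nsmul_eq_mul, mul_one] at h1
    have h2 := Sm_prod (fun i => hc (π i)) S hS fun i _ => hc_per (π i)
    rw [← hn, Sm_eq, h1] at h2
    have h3 : ∀ i ∈ S, Sm (π i) (hc (π i)) = 2 * (tt (π i) : ℂ) := by
      intro i hi
      rw [(hS.pd i hi).sum_hc, (hS.pd i hi).tt]
      push_cast
      ring
    rw [Finset.prod_congr rfl h3, Finset.prod_mul_distrib, Finset.prod_const] at h2
    have h4 : S.card = (S.card - 1) + 1 := by
      have := Finset.card_pos.2 ⟨i₀, hi₀⟩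
      omega
    rw [h4, pow_succ'] at h2
    have h5 : (H.card : ℂ) = ((2 ^ (S.card - 1) * ∏ i ∈ S, tt (π i) : ℕ) : ℂ) := by
      push_cast
      linear_combination (1 / 2 : ℂ) * h2
    exact_mod_cast h5
  · rw [Bd_eq]
    refine hH2 (fun x => W (Ω * x.out / (n : ℂ))) fun x _ => ?_
    show W (Ω * (-x).out / (n : ℂ)) = _
    have h1 : W (Ω * ((-x).out : RR) / (n : ℂ)) = W (Ω * ((-x.out : RR) : ℂ) / (n : ℂ)) :=
      hW.pe hL hfo _ _ (hout x)
    rw [h1]
    have e : Ω * ((-x.out : RR) : ℂ) / (n : ℂ) = -(Ω * x.out / (n : ℂ)) := by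
      push_cast
      ring
    rw [e, hW.ev _ (hfo.od hL _)]

end Pool.Agent.N843
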