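import Pool.Agent.N843.Ekp
import Pool.Agent.Y690.X.Val2

/-!
# The distribution relation for the Eisenstein-Kronecker numbers and the value formula, general case
-/

set_option autoImplicit false
set_option linter.unusedSectionVars false

open Filter
open scoped Topology PeriodPair

namespace Pool.Agent.N843

open H667R3 Pool.Agent.TH936.CW Pool.Agent.W192.HK Pool.Agent.Y690.NV
open Pool.Agent.TH936.CM (IsLat latE latE_coe out_sub exists_gen)

variable {L : PeriodPair} {R : Subring ℂ} {Ω p q : ℂ}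
variable (hq : ∀ l ∈ L.lattice, eta L l = p * l + q * (starRingEnd ℂ) l)

include hq in
theorem TT_Dkp (e : ℕ) {z t : ℂ} (h0 : z ∉ L.lattice) (h1 : z + t ∉ L.lattice)
    (h2 : z - t ∉ L.lattice) :
    TT L e ((starRingEnd ℂ) z) t z = (q ^ e)⁻¹ * Dk L p q e z t := by
  obtain ⟨C, hC⟩ := TT_Dk hq e t
  have n0 : -z ∉ L.lattice := fun h => h0 (by have := neg_mem h; rwa [neg_neg] at this)
  have n1 : -z + t ∉ L.lattice := fun h => h2 (by
    have := neg_mem h
    rwa [show -(-z + t) = z - t by ring] at this)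
  have n2 : -z - t ∉ L.lattice := fun h => h1 (by
    have := neg_mem h
    rwa [show -(-z - t) = z + t by ring] at this)
  have a1 := hC z h0 h1 h2
  have a2 := hC (-z) n0 n1 n2
  have hqe : (q ^ e)⁻¹ ≠ 0 := inv_ne_zero (pow_ne_zero _ (q_ne hq))
  have a3 : Dk L p q e (-z) t = -Dk L p q e z t := by
    unfold Dk
    rw [ekp_neg e h0]
    have b1 : ek L p q e (-z + t) = -ek L p q e (z - t) := by
      rw [← ekp_neg e h2]; congr 1; ring
    have b2 : ek L p q e (-z - t) = -ek L p q e (z + t) := by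
      rw [← ekp_neg e h1]; congr 1; ring
    rw [b1, b2]
    ring
  rw [TT_odd, a1, a3] at a2
  have a4 : (q ^ e)⁻¹ * C = 0 := by linear_combination (-1 / 2 : ℂ) * a2
  have a5 := (mul_eq_zero.1 a4).resolve_left hqe
  rw [a1, a5, add_zero]

/-- the defect of the distribution relation -/
noncomputable def Fdp (L : PeriodPair) (p q Ω : ℂ) (e : ℕ) (μ : R) [Fintype (R ⧸ sp μ)] (z : ℂ) : ℂ :=
  ∑ y : R ⧸ sp μ, ek L p q e (z + Ω * y.out / μ) - gm e μ * ek L p q e (μ * z)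

include hq in
lemma Fdp_two (hL : IsLat L R Ω) (e : ℕ) (μ : R) (hμ : μ ≠ 0) [Fintype (R ⧸ sp μ)] {z t : ℂ}
    (hz : (μ : ℂ) * z ∉ L.lattice) (h1 : (μ : ℂ) * (z + t) ∉ L.lattice)
    (h2 : (μ : ℂ) * (z - t) ∉ L.lattice) :
    Fdp L p q Ω e μ (z + t) + Fdp L p q Ω e μ (z - t) = 2 * Fdp L p q Ω e μ z := by
  have h := TT_dm hL e μ hμ (t := t) hz
  have hqe : (q ^ e)⁻¹ ≠ 0 := inv_ne_zero (pow_ne_zero _ (q_ne hq))
  have a1 : ∀ y : R ⧸ sp μ, TT L e ((starRingEnd ℂ) (z + Ω * y.out / μ)) t (z + Ω * y.out / μ) =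
      (q ^ e)⁻¹ * (ek L p q e (z + t + Ω * y.out / μ) + ek L p q e (z - t + Ω * y.out / μ) -
        2 * ek L p q e (z + Ω * y.out / μ)) := by
    intro y
    have b1 : z + Ω * y.out / μ + t = z + t + Ω * y.out / μ := by ring
    have b2 : z + Ω * y.out / μ - t = z - t + Ω * y.out / μ := by ring
    rw [TT_Dkp hq e (mu_mul hL μ hμ _ hz)
      (by rw [b1]; exact mu_mul hL μ hμ _ h1)
      (by rw [b2]; exact mu_mul hL μ hμ _ h2)]
    unfold Dk
    rw [b1, b2]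
  have a2 : TT L e ((starRingEnd ℂ) (μ * z)) (μ * t) (μ * z) = (q ^ e)⁻¹ *
      (ek L p q e (μ * (z + t)) + ek L p q e (μ * (z - t)) - 2 * ek L p q e (μ * z)) := by
    rw [TT_Dkp hq e hz (by rw [← mul_add]; exact h1) (by rw [← mul_sub]; exact h2)]
    unfold Dk
    rw [← mul_add, ← mul_sub]
  rw [Finset.sum_congr rfl (fun y _ => a1 y), a2, ← Finset.mul_sum, Finset.sum_sub_distrib,
    Finset.sum_add_distrib, ← Finset.mul_sum, mul_left_comm] at h
  have h3 := mul_left_cancel₀ hqe h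
  unfold Fdp
  linear_combination h3

include hq in
lemma Fdp_per (hL : IsLat L R Ω) (e : ℕ) (μ : R) (hμ : μ ≠ 0) [Fintype (R ⧸ sp μ)] {z w : ℂ}
    (hz : (μ : ℂ) * z ∉ L.lattice) (h : w - z ∈ L.lattice) : Fdp L p q Ω e μ w = Fdp L p q Ω e μ z := by
  unfold Fdp
  congr 1
  · refine Finset.sum_congr rfl fun y _ => ?_
    refine ek_per hq e (mu_mul hL μ hμ _ hz) ?_
    rwa [add_sub_add_right_eq_sub]
  · congr 1
    refine ek_per hq e hz ?_
    rw [← mul_sub]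
    exact hL.mul μ _ h

include hq in
lemma Fdp_neg (hL : IsLat L R Ω) (e : ℕ) (μ : R) (hμ : μ ≠ 0) [Fintype (R ⧸ sp μ)] {z : ℂ}
    (hz : (μ : ℂ) * z ∉ L.lattice) : Fdp L p q Ω e μ (-z) = -Fdp L p q Ω e μ z := by
  unfold Fdp
  have h1 : ∑ y : R ⧸ sp μ, ek L p q e (-z + Ω * y.out / μ) =
      -∑ y : R ⧸ sp μ, ek L p q e (z + Ω * y.out / μ) := by
    rw [← Equiv.sum_comp (Equiv.neg (R ⧸ sp μ)) (fun y => ek L p q e (-z + Ω * y.out / μ)),
      ← Finset.sum_neg_distrib]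
    refine Finset.sum_congr rfl fun y _ => ?_
    rw [Equiv.neg_apply, ← ekp_neg e (mu_mul hL μ hμ _ hz)]
    have hz' : (μ : ℂ) * (-z) ∉ L.lattice := fun h => hz (by
      have := neg_mem h
      rwa [mul_neg, neg_neg] at this)
    refine ek_per hq e ?_ ?_
    · intro h
      have := neg_mem h
      rw [neg_neg] at this
      exact mu_mul hL μ hμ _ hz this
    · have h1 : (-y).out - (-y.out) ∈ sp μ := by
        have := out_sub (sp μ) (-y.out)
        rwa [map_neg, Ideal.Quotient.mk_out] at this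
      have h2 := (lat_dm_iff hL μ hμ _).2 h1
      convert h2 using 1
      push_cast
      ring
  rw [h1, mul_neg, ekp_neg e hz]
  ring

include hq in
/-- the distribution relation at torsion points -/
theorem Fdp_zero (hL : IsLat L R Ω) (e : ℕ) (μ : R) (hμ : μ ≠ 0) [Fintype (R ⧸ sp μ)] {z : ℂ}
    (hz : (μ : ℂ) * z ∉ L.lattice) {N : ℕ} (hN : 0 < N) (hNz : (N : ℂ) * z ∈ L.lattice) :
    Fdp L p q Ω e μ z = 0 := by
  classical
  have hμ' := coe_ne hμ
  obtain ⟨s', hs'⟩ := exists_gen L ((Finset.range (N + 3)).image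
    fun j : ℕ => (μ : ℂ) * ((j : ℂ) * z - z))
  set s : ℂ := s' / μ with hs
  have gen : ∀ j : ℕ, j < N + 3 → (μ : ℂ) * (s + ((j : ℂ) * z - z)) ∉ L.lattice := by
    intro j hj
    have := (hs' _ (Finset.mem_image.2 ⟨j, Finset.mem_range.2 hj, rfl⟩)).2
    convert this using 2
    rw [hs]
    field_simp
  have key : ∀ j : ℕ, j ≤ N → Fdp L p q Ω e μ (s + ((j : ℂ) * z - z)) = Fdp L p q Ω e μ (s - z) +
      j * (Fdp L p q Ω e μ s - Fdp L p q Ω e μ (s - z)) ∧
      Fdp L p q Ω e μ (s + (((j + 1 : ℕ) : ℂ) * z - z)) = Fdp L p q Ω e μ (s - z) +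
      (j + 1) * (Fdp L p q Ω e μ s - Fdp L p q Ω e μ (s - z)) := by
    intro j
    induction j with
    | zero =>
      intro _
      refine ⟨?_, ?_⟩
      · have : s + (((0 : ℕ) : ℂ) * z - z) = s - z := by push_cast; ring
        rw [this]; push_cast; ring
      · have : s + (((0 + 1 : ℕ) : ℂ) * z - z) = s := by push_cast; ring
        rw [this]; push_cast; ring
    | succ j ih =>
      intro hj
      obtain ⟨i1, i2⟩ := ih (by omega)
      refine ⟨by rw [i2]; push_cast; ring, ?_⟩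
      have h0 := gen (j + 1) (by omega)
      have h1 := gen (j + 2) (by omega)
      have h2 := gen j (by omega)
      have e1 : s + (((j + 1 : ℕ) : ℂ) * z - z) + z = s + (((j + 2 : ℕ) : ℂ) * z - z) := by
        push_cast; ring
      have e2 : s + (((j + 1 : ℕ) : ℂ) * z - z) - z = s + ((j : ℂ) * z - z) := by
        push_cast; ring
      have h3 := Fdp_two hq hL e μ hμ (t := z) h0 (by rw [e1]; exact h1) (by rw [e2]; exact h2)
      rw [e1, e2, i1, i2] at h3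
      have e3 : ((j + 1 + 1 : ℕ) : ℂ) = ((j + 2 : ℕ) : ℂ) := by push_cast; ring
      rw [e3]
      push_cast at h3 ⊢
      linear_combination h3
  have hsz : (μ : ℂ) * (s - z) ∉ L.lattice := by
    have := gen 0 (by omega)
    convert this using 2
    push_cast; ring
  have hs0 : (μ : ℂ) * s ∉ L.lattice := by
    have := gen 1 (by omega)
    convert this using 2
    push_cast; ring
  have hsp : (μ : ℂ) * (s + z) ∉ L.lattice := by
    have := gen 2 (by omega)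
    convert this using 2
    push_cast; ring
  have k1 := (key N le_rfl).1
  have e1 : Fdp L p q Ω e μ (s + ((N : ℂ) * z - z)) = Fdp L p q Ω e μ (s - z) := by
    refine Fdp_per hq hL e μ hμ hsz ?_
    convert hNz using 1
    ring
  rw [e1] at k1
  have hN0 : (N : ℂ) ≠ 0 := by exact_mod_cast hN.ne'
  have k2 : Fdp L p q Ω e μ s - Fdp L p q Ω e μ (s - z) = 0 := by
    have : (N : ℂ) * (Fdp L p q Ω e μ s - Fdp L p q Ω e μ (s - z)) = 0 := by linear_combination -k1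
    exact (mul_eq_zero.1 this).resolve_left hN0
  have k3 := Fdp_two hq hL e μ hμ (t := z) hs0 hsp hsz
  have hzs : (μ : ℂ) * (z - s) ∉ L.lattice := fun h => hsz (by
    have := neg_mem h
    rwa [← mul_neg, neg_sub] at this)
  have k4 := Fdp_two hq hL e μ hμ (z := z) (t := s) hz (by rw [add_comm]; exact hsp) hzs
  have k5 : Fdp L p q Ω e μ (z - s) = -Fdp L p q Ω e μ (s - z) := by
    rw [← Fdp_neg hq hL e μ hμ hsz]
    congr 1
    ring
  rw [add_comm z s, k5] at k4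
  linear_combination (1 / 2) * k3 - (1 / 2) * k4 + k2

include hq in
theorem ekp_dist (hL : IsLat L R Ω) (e : ℕ) (μ : R) (hμ : μ ≠ 0) [Fintype (R ⧸ sp μ)] {z : ℂ}
    (hz : (μ : ℂ) * z ∉ L.lattice) {N : ℕ} (hN : 0 < N) (hNz : (N : ℂ) * z ∈ L.lattice) :
    ∑ y : R ⧸ sp μ, ek L p q e (z + Ω * y.out / μ) = gm e μ * ek L p q e (μ * z) := by
  have h := Fdp_zero hq hL e μ hμ hz hN hNz
  unfold Fdp at h
  exact sub_eq_zero.mp h

include hq in
theorem limp_one (hL : IsLat L R Ω) (e : ℕ) {m k : ℕ} (hk : k = m + 1) (hm : 0 < m)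
    [Fintype (R ⧸ sp ((k : ℕ) : R))] {z : ℂ} (hz : z ∉ L.lattice)
    (hmz : (m : ℂ) * z ∈ L.lattice) :
    Tendsto (fun δ : ℝ => (k : ℂ) * EK R Ω e (δ * Complex.normSq (((k : ℕ) : R) : ℂ)⁻¹) z -
      (Fintype.card (R ⧸ sp ((k : ℕ) : R)) : ℂ) * EK R Ω e δ z) (𝓝[>] 0)
      (𝓝 (((k : ℂ) - (Fintype.card (R ⧸ sp ((k : ℕ) : R)) : ℂ)) *
        ((q ^ e)⁻¹ * ek L p q e z))) := by
  have hk0 : 0 < k := by omega
  have hkR : ((k : ℕ) : R) ≠ 0 := by
    intro h
    have h5 := congrArg Subtype.val h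
    push_cast at h5
    exact hk0.ne' (by exact_mod_cast h5)
  have hkC : (((k : ℕ) : R) : ℂ) = (k : ℂ) := by push_cast; rfl
  have hkz : (((k : ℕ) : R) : ℂ) * z ∉ L.lattice := by
    rw [hkC, hk]
    intro h
    apply hz
    have h1 := sub_mem h hmz
    convert h1 using 1
    push_cast
    ring
  have hkzz : (((k : ℕ) : R) : ℂ) * z - z ∈ L.lattice := by
    rw [hkC, hk]
    convert hmz using 1
    push_cast
    ring
  have hgm : gm e (((k : ℕ) : R) : ℂ) = k := by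
    rw [hkC]
    exact gg_nat e k
  set t : R ⧸ sp ((k : ℕ) : R) → ℂ := fun y => Ω * y.out / (((k : ℕ) : R) : ℂ) with ht
  have hmem : ∀ y, z + t y ∉ L.lattice := fun y => mu_mul hL _ hkR _ hkz
  have hmem' : ∀ y, z - t y ∉ L.lattice := by
    intro y
    have := mu_mul hL _ hkR (-y.out) hkz
    convert this using 2
    simp only [ht]
    push_cast
    ring
  have hneg : ∀ (f : ℂ → ℂ), (∀ a b : ℂ, a ∉ L.lattice → b - a ∈ L.lattice → f b = f a) →
      ∑ y, f (z + t y) = ∑ y, f (z - t y) := by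
    intro f hf
    rw [← Equiv.sum_comp (Equiv.neg (R ⧸ sp ((k : ℕ) : R))) (fun y => f (z + t y))]
    refine Finset.sum_congr rfl fun y _ => ?_
    refine hf _ _ (hmem' y) ?_
    have h1 : (-y).out - (-y.out) ∈ sp ((k : ℕ) : R) := by
      have := out_sub (sp ((k : ℕ) : R)) (-y.out)
      rwa [map_neg, Ideal.Quotient.mk_out] at this
    have h2 := (lat_dm_iff hL _ hkR _).2 h1
    convert h2 using 1
    simp only [ht, Equiv.neg_apply]
    push_cast
    ring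
  -- the limit
  have h1 : Tendsto (fun δ : ℝ => ∑ y, (1 / 2 : ℂ) * (EK R Ω e δ (z + t y) +
      EK R Ω e δ (z - t y) - 2 * EK R Ω e δ z)) (𝓝[>] 0)
      (𝓝 (∑ y, (1 / 2 : ℂ) * TT L e ((starRingEnd ℂ) z) (t y) z)) :=
    tendsto_finsetSum _ fun y _ => (lim_TT hL e hz).const_mul _
  have h2 : ∑ y, (1 / 2 : ℂ) * TT L e ((starRingEnd ℂ) z) (t y) z =
      ((k : ℂ) - (Fintype.card (R ⧸ sp ((k : ℕ) : R)) : ℂ)) * ((q ^ e)⁻¹ * ek L p q e z) := by
    have h3 : ∀ y, (1 / 2 : ℂ) * TT L e ((starRingEnd ℂ) z) (t y) z =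
        (1 / 2) * (q ^ e)⁻¹ * (ek L p q e (z + t y) + ek L p q e (z - t y) -
          2 * ek L p q e z) := by
      intro y
      rw [TT_Dkp hq e hz (hmem y) (hmem' y)]
      unfold Dk
      ring
    rw [Finset.sum_congr rfl (fun y _ => h3 y), ← Finset.mul_sum, Finset.sum_sub_distrib,
      Finset.sum_add_distrib, ← hneg (fun w => ek L p q e w) (fun a b ha hb => ek_per hq e ha hb),
      Finset.sum_const, Finset.card_univ, nsmul_eq_mul]
    have h4 := ekp_dist hq hL e _ hkR hkz hm hmz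
    rw [hgm, ek_per hq e hz hkzz] at h4
    rw [h4]
    ring
  rw [h2] at h1
  refine h1.congr' ?_
  filter_upwards [self_mem_nhdsWithin] with δ (hδ : 0 < δ)
  have e1 := EK_dm hL e hδ _ hkR z
  rw [hgm, EK_per hL e _ hkzz] at e1
  rw [← e1, ← Finset.mul_sum, Finset.sum_sub_distrib, Finset.sum_add_distrib,
    ← hneg (fun w => EK R Ω e δ w) (fun a b _ hb => EK_per hL e δ hb), Finset.sum_const,
    Finset.card_univ, nsmul_eq_mul]
  ring

include hq in
/-- the value formula -/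
theorem valuep (hbasic : H_BASIC) {ω : ℂ} (hR : QR R ω) (hL : IsLat L R Ω) (e : ℕ) (μ : R)
    (hμ : μ ≠ 0) [Fintype (R ⧸ sp μ)] (c : R → ℂ) (hc : ∀ a b : R, a - b ∈ sp μ → c a = c b)
    (hc0 : ∀ a ∈ sp μ, c a = 0) (hc1 : ∀ a : R, ‖c a‖ ≤ 1) {ℓ : ℂ}
    (hℓ : Tendsto (fun δ : ℝ => SK e c δ) (𝓝[>] 0) (𝓝 ℓ)) :
    ℓ = gg e ((starRingEnd ℂ) ((μ : ℂ) / Ω)) ((μ : ℂ) / Ω) * ((q ^ e)⁻¹ *
      ∑ x : R ⧸ sp μ, c x.out * ek L p q e (Ω * x.out / μ)) := by
  obtain ⟨-, b2, b3, b4, b5, -, -, -, b9⟩ := hbasic R ω hR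
  have hμC := coe_ne hμ
  have hΩ := hL.ne
  have hns : 0 < Complex.normSq (μ : ℂ) := Complex.normSq_pos.2 hμC
  -- a natural number in the ideal
  obtain ⟨m, hm, hmμ⟩ : ∃ m : ℕ, 0 < m ∧ (m : R) ∈ sp μ := by
    refine ⟨Nat.card (R ⧸ sp μ), Nat.card_pos, ?_⟩
    rw [← Ideal.Quotient.eq_zero_iff_mem, map_natCast]
    have := Finite.of_fintype (R ⧸ sp μ)
    rw [Nat.card_eq_fintype_card]
    have h1 := card_nsmul_eq_zero' (G := R ⧸ sp μ) (x := 1)
    rwa [Nat.card_eq_fintype_card, nsmul_one] at h1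
  obtain ⟨k, hk⟩ : ∃ k : ℕ, k = m + 1 := ⟨_, rfl⟩
  have hk0 : 0 < k := by omega
  have hkR : ((k : ℕ) : R) ≠ 0 := by
    intro h
    have h5 := congrArg Subtype.val h
    push_cast at h5
    exact hk0.ne' (by exact_mod_cast h5)
  have hkC : (((k : ℕ) : R) : ℂ) = (k : ℂ) := by push_cast; rfl
  have hcard : (Nat.card (R ⧸ sp ((k : ℕ) : R)) : ℝ) = (k : ℝ) ^ 2 := by
    have := b5 ((k : ℕ) : R)
    unfold nm at this
    rw [this, hkC, Complex.normSq_natCast]
    ring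
  have hfin : Finite (R ⧸ sp ((k : ℕ) : R)) := by
    refine Nat.finite_of_card_ne_zero ?_
    intro h
    rw [h] at hcard
    have : (0 : ℝ) < (k : ℝ) ^ 2 := by positivity
    push_cast at hcard
    linarith
  have := Fintype.ofFinite (R ⧸ sp ((k : ℕ) : R))
  have hKk : ((k : ℕ) : ℂ) - (Fintype.card (R ⧸ sp ((k : ℕ) : R)) : ℂ) ≠ 0 := by
    rw [← Nat.card_eq_fintype_card]
    have h2 : Nat.card (R ⧸ sp ((k : ℕ) : R)) = k ^ 2 := by exact_mod_cast hcard
    rw [h2, sub_ne_zero]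
    intro h3
    have h4 : k = k ^ 2 := by exact_mod_cast h3
    have h5 : 2 ≤ k := by omega
    nlinarith
  set κ : ℂ := gg e ((starRingEnd ℂ) ((μ : ℂ) / Ω)) ((μ : ℂ) / Ω) with hκ
  have hκ0 : κ ≠ 0 := by
    rw [hκ]
    have h : (μ : ℂ) / Ω ≠ 0 := div_ne_zero hμC hΩ
    unfold gg
    exact mul_ne_zero (pow_ne_zero _ ((map_ne_zero _).2 h)) (pow_ne_zero _ (inv_ne_zero h))
  have hΩn : 0 < Complex.normSq Ω := Complex.normSq_pos.2 hΩ
  have hnsΩ : 0 < Complex.normSq ((μ : ℂ) / Ω) := Complex.normSq_pos.2 (div_ne_zero hμC hΩ)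
  have hnk : 0 < Complex.normSq (((k : ℕ) : R) : ℂ)⁻¹ :=
    Complex.normSq_pos.2 (inv_ne_zero (coe_ne hkR))
  have hcs : ∀ δ : ℝ, 0 < δ → Summable (fun α : R => c α * gd e δ (α : ℂ)) := by
    intro δ hδ
    have h1 := summ_gd hL e 0 (δ := δ / Complex.normSq Ω) (by positivity)
    have h2 : Summable (fun α : R => ‖gd e δ (α : ℂ)‖) := by
      have h3 := (h1.mul_left (gg e ((starRingEnd ℂ) Ω⁻¹) Ω⁻¹)).norm
      refine h3.congr fun α => ?_
      have e : (α : ℂ) = Ω⁻¹ * (0 + Ω * α) := by field_simp; ring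
      conv_rhs => rw [e, gd_mul, Complex.normSq_inv]
      rw [div_eq_mul_inv]
    refine Summable.of_norm_bounded h2 fun α => ?_
    rw [norm_mul]
    exact mul_le_of_le_one_left (norm_nonneg _) (hc1 α)
  -- the limit of the sums
  have hl1 : Tendsto (fun δ : ℝ => ∑ x : R ⧸ sp μ, c x.out * ((k : ℂ) *
      EK R Ω e (δ * Complex.normSq (((k : ℕ) : R) : ℂ)⁻¹) (Ω * x.out / μ) -
      (Fintype.card (R ⧸ sp ((k : ℕ) : R)) : ℂ) * EK R Ω e δ (Ω * x.out / μ))) (𝓝[>] 0)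
      (𝓝 (∑ x : R ⧸ sp μ, c x.out * (((k : ℂ) - (Fintype.card (R ⧸ sp ((k : ℕ) : R)) : ℂ)) *
        ((q ^ e)⁻¹ * ek L p q e (Ω * x.out / μ))))) := by
    refine tendsto_finsetSum _ fun x _ => ?_
    by_cases hx : c x.out = 0
    · simp only [hx, zero_mul]
      exact tendsto_const_nhds
    · refine Tendsto.const_mul _ ?_
      have hxn : (x.out : R) ∉ sp μ := fun h => hx (hc0 _ h)
      have hz : Ω * (x.out : R) / μ ∉ L.lattice := fun h => hxn ((lat_dm_iff hL μ hμ _).1 h)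
      refine limp_one hq hL e hk hm hz ?_
      rw [Ideal.mem_span_singleton'] at hmμ
      obtain ⟨a, ha⟩ := hmμ
      have haC : (a : ℂ) * μ = m := by
        have := congrArg Subtype.val ha
        push_cast at this
        exact this
      have : (m : ℂ) * (Ω * (x.out : R) / μ) = Ω * ((a * x.out : R) : ℂ) := by
        rw [← haC]
        push_cast
        field_simp
      rw [this]
      exact hL.mem_mul _
  have hl2 := hl1.comp (lim_scale hnsΩ)
  have hl3 : Tendsto (fun δ : ℝ => κ⁻¹ * ((k : ℂ) * SK e c (δ * Complex.normSq (((k : ℕ) : R) : ℂ)⁻¹) -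
      (Fintype.card (R ⧸ sp ((k : ℕ) : R)) : ℂ) * SK e c δ)) (𝓝[>] 0)
      (𝓝 (κ⁻¹ * ((k : ℂ) * ℓ - (Fintype.card (R ⧸ sp ((k : ℕ) : R)) : ℂ) * ℓ))) :=
    (((hℓ.comp (lim_scale hnk)).const_mul _).sub (hℓ.const_mul _)).const_mul _
  have heq := tendsto_nhds_unique (hl2.congr' ?_) hl3
  · rw [Finset.sum_congr rfl (fun x _ => mul_left_comm (c x.out) _ _), ← Finset.mul_sum,
      Finset.sum_congr rfl (fun x _ => mul_left_comm (c x.out) ((q ^ e)⁻¹) _), ← Finset.mul_sum]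
      at heq
    have h3 : ((k : ℂ) - (Fintype.card (R ⧸ sp ((k : ℕ) : R)) : ℂ)) * (κ * ((q ^ e)⁻¹ *
        ∑ x : R ⧸ sp μ, c x.out * ek L p q e (Ω * x.out / μ))) =
        ((k : ℂ) - (Fintype.card (R ⧸ sp ((k : ℕ) : R)) : ℂ)) * ℓ := by
      rw [mul_left_comm, heq, mul_inv_cancel_left₀ hκ0]
      ring
    exact (mul_left_cancel₀ hKk h3).symm
  · filter_upwards [self_mem_nhdsWithin] with δ (hδ : 0 < δ)
    have hδk : 0 < δ * Complex.normSq (((k : ℕ) : R) : ℂ)⁻¹ := mul_pos hδ hnk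
    rw [sum_Em hL e μ hμ c hc (hcs _ hδk), sum_Em hL e μ hμ c hc (hcs _ hδ)]
    simp only [Function.comp_apply]
    have e4 : δ * Complex.normSq (((k : ℕ) : R) : ℂ)⁻¹ * Complex.normSq ((μ : ℂ) / Ω) =
        δ * Complex.normSq ((μ : ℂ) / Ω) * Complex.normSq (((k : ℕ) : R) : ℂ)⁻¹ := by ring
    rw [e4, ← hκ]
    have e5 : κ⁻¹ * ((k : ℂ) * (κ * ∑ x : R ⧸ sp μ, c x.out *
        EK R Ω e (δ * Complex.normSq ((μ : ℂ) / Ω) * Complex.normSq (((k : ℕ) : R) : ℂ)⁻¹)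
          (Ω * x.out / μ)) - (Fintype.card (R ⧸ sp ((k : ℕ) : R)) : ℂ) * (κ *
        ∑ x : R ⧸ sp μ, c x.out * EK R Ω e (δ * Complex.normSq ((μ : ℂ) / Ω)) (Ω * x.out / μ))) =
        (k : ℂ) * (∑ x : R ⧸ sp μ, c x.out *
        EK R Ω e (δ * Complex.normSq ((μ : ℂ) / Ω) * Complex.normSq (((k : ℕ) : R) : ℂ)⁻¹)
          (Ω * x.out / μ)) - (Fintype.card (R ⧸ sp ((k : ℕ) : R)) : ℂ) * (
        ∑ x : R ⧸ sp μ, c x.out * EK R Ω e (δ * Complex.normSq ((μ : ℂ) / Ω)) (Ω * x.out / μ)) := by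
      field_simp
    rw [e5, Finset.mul_sum, Finset.mul_sum, ← Finset.sum_sub_distrib]
    refine Finset.sum_congr rfl fun x _ => ?_
    ring

end Pool.Agent.N843
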