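import Pool.Agent.Y690.W.Det

/-!
# The determinants of the induction
-/

set_option autoImplicit false
set_option linter.unusedSectionVars false

namespace Pool.Agent.N843

open Matrix Pool.Agent.Y690.AW

variable {α : Type} [DecidableEq α] (a : α → α → ZMod 2)

/-- the determinant with the distinguished element `i` -/
def uu (i : α) (S : Finset α) : ZMod 2 := (Mx (Pi.single i 1) a S).det

lemma sg_apply (i j : α) : (Pi.single i 1 : α → ZMod 2) j = if j = i then 1 else 0 :=
  Pi.single_apply i 1 j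

lemma uu_zero {i : α} {S : Finset α} (hi : i ∉ S) (hS : S.Nonempty) : uu a i S = 0 := by
  obtain ⟨x, hx⟩ := hS
  unfold uu
  rw [← Matrix.exists_mulVec_eq_zero_iff]
  refine ⟨fun _ => 1, fun h => one_ne_zero (congrFun h ⟨x, hx⟩), ?_⟩
  ext j
  have h3 : (Mx (Pi.single i 1) a S *ᵥ (fun _ => 1)) j =
      ∑ k, Mx (Pi.single i 1) a S j k * 1 := rfl
  have hj : (j : α) ≠ i := fun h => hi (h ▸ j.2)
  rw [h3, Pi.zero_apply]
  simp only [Mx_apply, mul_one, Finset.sum_add_distrib]
  rw [Finset.sum_ite_eq Finset.univ j, if_pos (Finset.mem_univ _), sg_apply, if_neg hj, zero_add,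
    Finset.sum_coe_sort S (fun l => a j l)]
  exact two_zero _

lemma uu_single (i j : α) : uu a i {j} = if j = i then 1 else 0 := by
  by_cases h : j = i
  · subst h
    rw [if_pos rfl]
    unfold uu
    rw [Matrix.det_eq_elem_of_subsingleton _ (⟨j, Finset.mem_singleton_self j⟩ : ({j} : Finset α)),
      Mx_apply, if_pos rfl, sg_apply, if_pos rfl, Finset.sum_singleton, add_assoc, two_zero,
      add_zero]
  · rw [if_neg h]
    exact uu_zero a (fun h' => h (Finset.mem_singleton.1 h').symm) (Finset.singleton_nonempty j)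

theorem uu_rec (i : α) {S : Finset α} (hS : 1 < S.card) :
    uu a i S = ∑ A ∈ (S.powerset.erase S).erase ∅, (∏ p ∈ S \ A, ∑ l ∈ A, a p l) * uu a i A := by
  have hne : S.Nonempty := Finset.card_pos.1 (by omega)
  have h1 := det_rec (Pi.single i 1) a hne
  have hemp : ∅ ∈ S.powerset.erase S := by
    rw [Finset.mem_erase, Finset.mem_powerset]
    exact ⟨hne.ne_empty.symm, Finset.empty_subset S⟩
  rw [← Finset.add_sum_erase _ _ (Finset.mem_powerset_self S),
    ← Finset.add_sum_erase _ _ hemp, Finset.sdiff_self, Finset.prod_empty, one_mul] at h1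
  have h2 : ∏ p ∈ S \ ∅, ((Pi.single i 1 : α → ZMod 2) p + ∑ l ∈ (∅ : Finset α), a p l) = 0 := by
    rw [Finset.sdiff_empty]
    obtain ⟨j, hj, hji⟩ : ∃ j ∈ S, j ≠ i := by
      by_contra hcon
      push Not at hcon
      have : S ⊆ {i} := fun x hx => Finset.mem_singleton.2 (hcon x hx)
      have := Finset.card_le_card this
      rw [Finset.card_singleton] at this
      omega
    refine Finset.prod_eq_zero hj ?_
    rw [Finset.sum_empty, add_zero, sg_apply, if_neg hji]
  rw [h2, zero_mul, zero_add] at h1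
  have h3 := eq_neg_of_add_eq_zero_left h1
  unfold uu
  rw [h3, ZMod.neg_eq_self_mod_two]
  refine Finset.sum_congr rfl fun A hA => ?_
  rw [Finset.mem_erase, Finset.mem_erase, Finset.mem_powerset] at hA
  by_cases hi : i ∈ A
  · congr 1
    refine Finset.prod_congr rfl fun p hp => ?_
    rw [Finset.mem_sdiff] at hp
    rw [sg_apply, if_neg (by rintro rfl; exact hp.2 hi), zero_add]
  · have := uu_zero a hi (Finset.nonempty_iff_ne_empty.2 hA.1)
    unfold uu at this
    rw [this, mul_zero, mul_zero]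

/-- the determinants are one for the indecomposable symmetric matrices -/
theorem uu_one {i : α} {S : Finset α} (hi : i ∈ S) (hsym : ∀ p ∈ S, ∀ l ∈ S, a p l = a l p)
    (h : ∀ V ⊆ S, V.Nonempty → V ≠ S → (∃ p ∈ V, ∑ l ∈ S \ V, a p l = 1) ∨
      (∃ p ∈ S \ V, ∑ l ∈ V, a p l = 1)) : uu a i S = 1 := by
  unfold uu
  refine det_one _ _ fun V hV hVn => ?_
  by_cases hVS : V = S
  · subst hVS
    left
    exact ⟨i, hi, by rw [Finset.sdiff_self, Finset.sum_empty, add_zero, sg_apply, if_pos rfl]⟩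
  by_contra hcon
  push Not at hcon
  obtain ⟨c1, c2⟩ := hcon
  have two : ∀ y : ZMod 2, y ≠ 1 → y = 0 := by decide
  have c2' : ∀ p ∈ S \ V, ∑ l ∈ V, a p l = 0 := fun p hp => two _ (c2 p hp)
  have c1' : ∀ p ∈ V, ∑ l ∈ S \ V, a p l = (if p = i then 1 else 0) := by
    intro p hp
    have := two _ (c1 p hp)
    rw [sg_apply] at this
    have h4 := eq_neg_of_add_eq_zero_right this
    rw [h4, ZMod.neg_eq_self_mod_two]
  have e1 : ∑ p ∈ V, ∑ l ∈ S \ V, a p l = 0 := by
    rw [Finset.sum_comm]
    refine Finset.sum_eq_zero fun l hl => ?_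
    rw [← c2' l hl]
    refine Finset.sum_congr rfl fun p hp => ?_
    exact hsym _ (hV hp) _ (Finset.mem_sdiff.1 hl).1
  rw [Finset.sum_congr rfl c1', Finset.sum_ite_eq'] at e1
  have hiV : i ∉ V := fun h => by
    rw [if_pos h] at e1
    exact one_ne_zero e1
  rcases h V hV hVn hVS with ⟨p, hp, h5⟩ | ⟨p, hp, h5⟩
  · rw [c1' p hp, if_neg (by rintro rfl; exact hiV hp)] at h5
    exact zero_ne_one h5
  · rw [c2' p hp] at h5
    exact zero_ne_one h5

variable (k : α → ZMod 2)

/-- the combination -/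
def cc (S0 S : Finset α) : ZMod 2 := ∑ i ∈ S0, k i * uu a i S

lemma cc_single {S0 : Finset α} {j : α} (hj : j ∈ S0) : cc a k S0 {j} = k j := by
  unfold cc
  simp only [uu_single]
  have : ∀ i ∈ S0, k i * (if j = i then (1 : ZMod 2) else 0) = if j = i then k i else 0 := by
    intro i _
    split_ifs <;> ring
  rw [Finset.sum_congr rfl this, Finset.sum_ite_eq, if_pos hj]

theorem cc_rec (S0 : Finset α) {S : Finset α} (hS : 1 < S.card) :
    cc a k S0 S = ∑ A ∈ (S.powerset.erase S).erase ∅, (∏ p ∈ S \ A, ∑ l ∈ A, a p l) *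
      cc a k S0 A := by
  unfold cc
  simp only [Finset.mul_sum]
  rw [Finset.sum_comm]
  refine Finset.sum_congr rfl fun i _ => ?_
  rw [uu_rec a i hS, Finset.mul_sum]
  refine Finset.sum_congr rfl fun A _ => ?_
  ring

end Pool.Agent.N843
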