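import Pool.Agent.N843.Vt

/-!
# The two points of order four for the even weights
-/

set_option autoImplicit false
set_option linter.unusedSectionVars false
set_option linter.unusedSimpArgs false

open Filter
open scoped Topology PeriodPair

namespace Pool.Agent.N843.E

open H667R3 Pool.Agent.TH936.CW Pool.Agent.W192.HK Pool.Agent.Y690.NV Pool.Agent.TH936.PU
open Pool.Agent.N843
open Pool.Agent.Y698 (RR al al_sq al_ne bl bl_ne al_mul_bl LD tA tB aR aR_coe bR bR_coe cX cY co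
  co_uniq al_im_pos Xx_per Tb v_two v_two_lt v_bl fin_quot aR_mul_bR two_coe)
open Pool.Agent.TH936.CM (IsLat)

variable {L : PeriodPair} {Ω p q : ℂ}

/-- a quarter of the period -/
noncomputable def tP (Ω : ℂ) : ℂ := Ω * (1 / 4)
/-- the other point of order four -/
noncomputable def tM (Ω : ℂ) : ℂ := Ω * ((2 * al - 1) / 4)

/-- the square root of seven -/
noncomputable def rho (L : PeriodPair) (Ω : ℂ) : ℂ := ℘[L] (tP Ω) - 7 / 4

/-- the square root of minus one -/
noncomputable def io (L : PeriodPair) (Ω : ℂ) : ℂ := (2 * al - 1) / rho L Ω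

lemma mem_RR (hL : IsLat L RR Ω) (x y : ℤ) : Ω * (x + y * al) ∈ L.lattice := by
  rw [hL.mem]
  refine ⟨(x : RR) + (y : RR) * aR, ?_⟩
  push_cast
  rw [aR_coe]

lemma quart (hL : IsLat L RR Ω) {x y : ℤ} (h : Ω * ((x + y * al) / 4) ∈ L.lattice) :
    (4 : ℤ) ∣ x ∧ (4 : ℤ) ∣ y := quarter hL h

lemma tP_two (hL : IsLat L RR Ω) : 2 * tP Ω ∉ L.lattice := by
  intro h
  have h1 : Ω * (((2 : ℤ) + ((0 : ℤ) : ℂ) * al) / 4) ∈ L.lattice := by
    convert h using 1
    unfold tP
    push_cast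
    ring
  have := (quart hL h1).1
  omega

lemma tP_four (hL : IsLat L RR Ω) : 4 * tP Ω ∈ L.lattice := by
  have := mem_RR hL 1 0
  convert this using 1
  unfold tP
  push_cast
  ring

lemma tM_two (hL : IsLat L RR Ω) : 2 * tM Ω ∉ L.lattice := by
  intro h
  have h1 : Ω * (((-2 : ℤ) + ((4 : ℤ) : ℂ) * al) / 4) ∈ L.lattice := by
    convert h using 1
    unfold tM
    push_cast
    ring
  have := (quart hL h1).1
  omega

lemma tM_four (hL : IsLat L RR Ω) : 4 * tM Ω ∈ L.lattice := by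
  have := mem_RR hL (-1) 2
  convert this using 1
  unfold tM
  push_cast
  ring

lemma tP_ne (hL : IsLat L RR Ω) : tP Ω ∉ L.lattice := two_mul_notMem_of L (tP_two hL)
lemma tM_ne (hL : IsLat L RR Ω) : tM Ω ∉ L.lattice := two_mul_notMem_of L (tM_two hL)

lemma tP_sub (hL : IsLat L RR Ω) : tP Ω - tM Ω ∉ L.lattice := by
  intro h
  have h1 : Ω * (((2 : ℤ) + ((-2 : ℤ) : ℂ) * al) / 4) ∈ L.lattice := by
    convert h using 1
    unfold tP tM
    push_cast
    ring
  have := (quart hL h1).1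
  omega

lemma tP_add (hL : IsLat L RR Ω) : tP Ω + tM Ω ∉ L.lattice := by
  intro h
  have h1 : Ω * (((0 : ℤ) + ((2 : ℤ) : ℂ) * al) / 4) ∈ L.lattice := by
    convert h using 1
    unfold tP tM
    push_cast
    ring
  have := (quart hL h1).2
  omega

lemma half_eq : tA Ω + tB Ω = 2 * tP Ω := by
  have h1 := al_ne
  have h2 := bl_ne
  unfold tA tB tP
  have h3 := al_mul_bl
  have h4 : bl = 1 - al := rfl
  field_simp
  rw [h4] at h3 ⊢
  linear_combination (-2 * Ω) * h3

lemma X_half (h : LD L Ω) {T : ℂ} (hT : 2 * T - 2 * tP Ω ∈ L.lattice) :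
    Pool.Agent.Y698.Xx L (2 * T) = 2 := by
  rw [Xx_per hT, ← half_eq]
  unfold Pool.Agent.Y698.Xx
  rw [h.ec]
  norm_num

lemma sq_seven (h : LD L Ω) {T : ℂ} (h2 : 2 * T ∉ L.lattice) (hT : 2 * T - 2 * tP Ω ∈ L.lattice) :
    (℘[L] T - 7 / 4) ^ 2 = 7 := by
  have h1 := h.dupl h2
  have h3 := h.ode (two_mul_notMem_of L h2)
  rw [X_half h hT, h3] at h1
  have h4 : ((℘[L] T - 7 / 4) ^ 2 - 7) ^ 2 = 0 := by
    have e : ℘[L] T - 7 / 4 = Pool.Agent.Y698.Xx L T - 2 := by
      unfold Pool.Agent.Y698.Xx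
      ring
    rw [e]
    linear_combination -h1
  have h5 := pow_eq_zero_iff (two_ne_zero) |>.1 h4
  exact sub_eq_zero.1 h5

lemma rho_sq (h : LD L Ω) : rho L Ω ^ 2 = 7 := by
  unfold rho
  exact sq_seven h (tP_two h.lat) (by rw [sub_self]; exact zero_mem _)

lemma rho_ne (h : LD L Ω) : rho L Ω ≠ 0 := by
  intro h0
  have := rho_sq h
  rw [h0] at this
  norm_num at this

lemma wp_tP : ℘[L] (tP Ω) = 7 / 4 + rho L Ω := by
  unfold rho
  ring

lemma wp_tM (h : LD L Ω) : ℘[L] (tM Ω) = 7 / 4 + -rho L Ω := by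
  have hL := h.lat
  have h1 := sq_seven h (tM_two hL) (T := tM Ω) (by
    have := mem_RR hL (-1) 1
    convert this using 1
    unfold tM tP
    push_cast
    ring)
  have h2 := rho_sq h
  have h3 : (℘[L] (tM Ω) - 7 / 4 - rho L Ω) * (℘[L] (tM Ω) - 7 / 4 + rho L Ω) = 0 := by
    linear_combination h1 - h2
  rcases mul_eq_zero.1 h3 with h4 | h4
  · exfalso
    have h5 : ℘[L] (tP Ω) - ℘[L] (tM Ω) ≠ 0 := by
      rw [sub_ne_zero, Ne, wp_eq_iff L (tP_ne hL) (tM_ne hL)]
      rintro (h6 | h6)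
      · exact tP_add hL h6
      · exact tP_sub hL h6
    apply h5
    rw [wp_tP]
    linear_combination -h4
  · linear_combination h4

lemma io_sq (h : LD L Ω) : io L Ω ^ 2 = -1 := by
  have h1 := rho_sq h
  have h2 := rho_ne h
  unfold io
  rw [div_pow, h1]
  linear_combination (4 / 7 : ℂ) * al_sq

lemma io_rho (h : LD L Ω) : io L Ω * rho L Ω = 2 * al - 1 := by
  have h2 := rho_ne h
  unfold io
  field_simp

/-- the data at a point of order four -/
lemma tq_gen (h : LD L Ω) (hpq : ∀ l ∈ L.lattice, eta L l = p * l + q * (starRingEnd ℂ) l)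
    {T r c : ℂ} (h2 : 2 * T ∉ L.lattice) (h4 : 4 * T ∈ L.lattice) (hT : ℘[L] T = 7 / 4 + r)
    (hr : r ^ 2 = 7) (hc : c ^ 2 = 4 * r * (8 - 3 * r) / 7) :
    TQ L p q c (4 * (8 - 3 * r)) 1 T ∨ TQ L p q c (4 * (8 - 3 * r)) 1 (-T) := by
  have hL := h.lat
  have hr0 : r ≠ 0 := by
    rintro rfl
    norm_num at hr
  have hu : (8 - 3 * r) * (8 + 3 * r) = 1 := by linear_combination (-9 : ℂ) * hr
  have hu0 : 8 - 3 * r ≠ 0 := left_ne_zero_of_mul_eq_one hu
  have hc0 : c ≠ 0 := by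
    rintro rfl
    have h1 : 4 * r * (8 - 3 * r) / 7 = 0 := by rw [← hc]; ring
    exact (div_ne_zero (mul_ne_zero (mul_ne_zero (by norm_num) hr0) hu0) (by norm_num)) h1
  have hB0 : (4 * (8 - 3 * r) : ℂ) ≠ 0 := mul_ne_zero (by norm_num) hu0
  have hy : ℘'[L] T ^ 2 = 7 * r * (8 + 3 * r) := by
    rw [Pool.Agent.TH936.PU.ode (two_mul_notMem_of L h2), h.g2, h.g3, hT]
    linear_combination (4 * r) * hr
  have hy0 : ℘'[L] T ≠ 0 := by
    intro h0
    rw [h0] at hy
    have : 7 * r * (8 + 3 * r) = 0 := by rw [← hy]; ring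
    exact (mul_ne_zero (mul_ne_zero (by norm_num) hr0) (right_ne_zero_of_mul_eq_one hu)) this
  have hE : E1 L p q T * ℘'[L] T = -(7 * (8 + 3 * r)) / 4 := by
    have h5 := E1p_dup (p := p) (q := q) h2
    have h6 : E1 L p q (2 * T) = 0 := E1_half hpq h2 (by
      convert h4 using 1
      ring)
    rw [h6, hT, h.g2] at h5
    field_simp at h5
    linear_combination (-1 / 128 : ℂ) * h5 - (3 / 2 : ℂ) * hr
  have hcy : (c * ℘'[L] T - 2 * r) * (c * ℘'[L] T + 2 * r) = 0 := by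
    have e : (c * ℘'[L] T - 2 * r) * (c * ℘'[L] T + 2 * r) = c ^ 2 * ℘'[L] T ^ 2 - 4 * r ^ 2 := by
      ring
    rw [e, hc, hy]
    linear_combination (4 * r ^ 2) * hu
  have hx : c ^ 2 * (7 / 4 + r) = (1 + 4 * (8 - 3 * r)) / 3 := by
    rw [hc]
    linear_combination (11 / 7 - 12 / 7 * r : ℂ) * hr
  have hg : c ^ 4 * L.g₂ = 4 / 3 * (1 - 4 * (4 * (8 - 3 * r)) + (4 * (8 - 3 * r)) ^ 2) := by
    have e : c ^ 4 = (c ^ 2) ^ 2 := by ring
    rw [e, hc, h.g2]
    linear_combination (180 / 7 * r ^ 2 - 960 / 7 * r + 1196 / 7) * hr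
  rcases mul_eq_zero.1 hcy with h5 | h5
  · right
    have h6 : c * ℘'[L] T = 2 * r := sub_eq_zero.1 h5
    have h7 : c * E1 L p q T = -(1 / 2) := by
      have h8 : (c * E1 L p q T + 1 / 2) * (2 * r) = 0 := by
        have e : (c * E1 L p q T + 1 / 2) * (2 * r) =
            c * E1 L p q T * (c * ℘'[L] T) + r := by rw [h6]; ring
        rw [e]
        have e2 : c * E1 L p q T * (c * ℘'[L] T) + r = c ^ 2 * (E1 L p q T * ℘'[L] T) + r := by
          ring
        rw [e2, hc, hE]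
        linear_combination (-r) * hu
      have h9 := (mul_eq_zero.1 h8).resolve_right (mul_ne_zero two_ne_zero hr0)
      linear_combination h9
    refine ⟨fun h1 => h2 ?_, ?_, hc0, hB0, ?_, ?_, ?_, hg⟩
    · have := neg_mem h1
      rwa [← mul_neg, neg_neg] at this
    · have := neg_mem h4
      rwa [← mul_neg] at this
    · rw [L.weierstrassP_neg, hT, hx]
    · rw [L.derivWeierstrassP_neg]
      have e : c ^ 3 * -℘'[L] T = -(c ^ 2 * (c * ℘'[L] T)) := by ring
      rw [e, h6, hc]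
      linear_combination (-(8 * (8 - 3 * r)) / 7) * hr
    · rw [E1p_neg]
      linear_combination -h7
  · left
    have h6 : c * ℘'[L] T = -(2 * r) := by linear_combination h5
    have h7 : c * E1 L p q T = 1 / 2 := by
      have h8 : (c * E1 L p q T - 1 / 2) * (-(2 * r)) = 0 := by
        have e : (c * E1 L p q T - 1 / 2) * (-(2 * r)) =
            c * E1 L p q T * (c * ℘'[L] T) + r := by rw [h6]; ring
        rw [e]
        have e2 : c * E1 L p q T * (c * ℘'[L] T) + r = c ^ 2 * (E1 L p q T * ℘'[L] T) + r := by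
          ring
        rw [e2, hc, hE]
        linear_combination (-r) * hu
      have h9 := (mul_eq_zero.1 h8).resolve_right (neg_ne_zero.2 (mul_ne_zero two_ne_zero hr0))
      linear_combination h9
    refine ⟨h2, h4, hc0, hB0, ?_, ?_, ?_, hg⟩
    · rw [hT, hx]
    · have e : c ^ 3 * ℘'[L] T = c ^ 2 * (c * ℘'[L] T) := by ring
      rw [e, h6, hc]
      linear_combination (-(8 * (8 - 3 * r)) / 7) * hr
    · rw [h7]

end Pool.Agent.N843.E
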