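import Pool.Agent.N843.Ea

/-!
# Congruences between the values at two points of evaluation
-/

set_option autoImplicit false
set_option linter.unusedSectionVars false
set_option linter.unusedSimpArgs false

namespace Pool.Agent.N843.E

open H667R3 Pool.Agent.TH936.CW Pool.Agent.W192.HK Pool.Agent.Y690.NV Pool.Agent.TH936.PU
open Pool.Agent.N843
open MvPolynomial (eval C eval_C eval_X)
open Finset

section cong

variable {Γ : Type*} [LinearOrderedCommGroupWithZero Γ] {v : Valuation ℂ Γ}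

lemma vm {x y : ℂ} {g : Γ} (hx : v x ≤ g) (hy : v y ≤ 1) : v (x * y) ≤ g := by
  rw [map_mul]
  calc v x * v y ≤ g * 1 := mul_le_mul' hx hy
    _ = g := mul_one _

lemma vm' {x y : ℂ} {g : Γ} (hx : v x ≤ 1) (hy : v y ≤ g) : v (x * y) ≤ g := by
  rw [mul_comm]
  exact vm hy hx

/-- two points of evaluation which are congruent modulo two -/
structure Two (v : Valuation ℂ Γ) (B ξ η ε B' ξ' η' ε' : ℂ) : Prop where
  b0 : v B ≤ v 4
  b0' : v B' ≤ v 4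
  x : v ξ ≤ 1
  x' : v ξ' ≤ 1
  h : v η ≤ 1
  h' : v η' ≤ 1
  e : v ε ≤ 1
  e' : v ε' ≤ 1
  t : v (ξ - 1)⁻¹ ≤ 1
  t' : v (ξ' - 1)⁻¹ ≤ 1
  db : v (B - B') ≤ v 8
  dx : v (ξ - ξ') ≤ v 2
  dh : v (η - η') ≤ v 2
  de : v (ε - ε') ≤ v 2
  dt : v ((ξ - 1)⁻¹ - (ξ' - 1)⁻¹) ≤ v 2

variable {B ξ η ε B' ξ' η' ε' : ℂ}

lemma ev_two (H : Two v B ξ η ε B' ξ' η' ε') (h4 : v (4 : ℂ) ≠ 0) {w : A} (hw : w ∈ WW) :
    v (eval (ptQ B ξ η ε) w - eval (ptQ B' ξ' η' ε') w) ≤ v 2 := by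
  induction hw using Subring.closure_induction with
  | mem x hx =>
    simp only [Set.mem_insert_iff, Set.mem_singleton_iff] at hx
    rcases hx with rfl | rfl | rfl | rfl | rfl
    · unfold b4 aB ptQ
      rw [map_mul, eval_C, eval_X, map_mul, eval_C, eval_X]
      simp only [Matrix.cons_val]
      rw [← mul_sub, map_mul, one_div, map_inv₀]
      have e8 : v (8 : ℂ) = v 4 * v 2 := by
        rw [← map_mul]
        norm_num
      calc (v 4)⁻¹ * v (B - B') ≤ (v 4)⁻¹ * (v 4 * v 2) := mul_le_mul_right (e8 ▸ H.db) _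
        _ = v 2 := by rw [← mul_assoc, inv_mul_cancel₀ h4, one_mul]
    · unfold aX ptQ
      rw [eval_X, eval_X]
      exact H.dx
    · unfold aH ptQ
      rw [eval_X, eval_X]
      exact H.dh
    · unfold aE ptQ
      rw [eval_X, eval_X]
      exact H.de
    · unfold aT ptQ
      rw [eval_X, eval_X]
      exact H.dt
  | zero => rw [map_zero, map_zero, sub_self, map_zero]; exact zero_le
  | one => rw [map_one, map_one, sub_self, map_zero]; exact zero_le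
  | add x y _ _ g1 g2 =>
    rw [map_add, map_add, add_sub_add_comm]
    exact v_add_le g1 g2
  | neg x _ g1 =>
    rw [map_neg, map_neg, neg_sub_neg, Valuation.map_sub_swap]
    exact g1
  | mul x y hx hy g1 g2 =>
    have k1 := ev_WW H.b0 H.x H.h H.e H.t (hy)
    have k2 := ev_WW H.b0' H.x' H.h' H.e' H.t' (hx)
    have e : eval (ptQ B ξ η ε) (x * y) - eval (ptQ B' ξ' η' ε') (x * y) =
        (eval (ptQ B ξ η ε) x - eval (ptQ B' ξ' η' ε') x) * eval (ptQ B ξ η ε) y +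
        eval (ptQ B' ξ' η' ε') x * (eval (ptQ B ξ η ε) y - eval (ptQ B' ξ' η' ε') y) := by
      rw [map_mul, map_mul]
      ring
    rw [e]
    exact v_add_le (vm g1 k1) (vm' k2 g2)

lemma pow_sub_le {x y : ℂ} {g : Γ} (hx : v x ≤ 1) (hy : v y ≤ 1) (h : v (x - y) ≤ g) (n : ℕ) :
    v (x ^ n - y ^ n) ≤ g := by
  induction n with
  | zero =>
    rw [pow_zero, pow_zero, sub_self, map_zero]
    exact zero_le
  | succ n ih =>
    have e : x ^ (n + 1) - y ^ (n + 1) = (x ^ n - y ^ n) * x + y ^ n * (x - y) := by ring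
    rw [e]
    exact v_add_le (vm ih hx) (vm' (v_pow_le hy n) h)

lemma Sg_two {ψ ψ' : ℂ} (hψ : v ψ ≤ v 4) (hψ' : v ψ' ≤ v 4) (hd : v (ψ - ψ') ≤ v 8)
    {M M' : ℕ → ℂ} (hM : ∀ n, v (M n) ≤ 1) (hdM : ∀ n, v (M n - M' n) ≤ v 2) (n : ℕ) :
    v ((Sg ψ M n - Sg ψ' M' n) - (M n - M' n)) ≤ v 8 := by
  have hv4 : v (4 : ℂ) ≤ 1 := by
    have := v_nat (v := v) 4
    exact_mod_cast this
  unfold Sg
  rw [sum_range_succ', ca_zero, sum_range_succ', ca_zero]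
  have e : (∑ k ∈ range n, (ca n (k + 1) : ℂ) * (ψ ^ (k + 1) * M (n - (k + 1))) +
      ((1 : ℕ) : ℂ) * (ψ ^ 0 * M (n - 0)) -
      (∑ k ∈ range n, (ca n (k + 1) : ℂ) * (ψ' ^ (k + 1) * M' (n - (k + 1))) +
      ((1 : ℕ) : ℂ) * (ψ' ^ 0 * M' (n - 0)))) - (M n - M' n) =
      ∑ k ∈ range n, ((ca n (k + 1) : ℂ) * (ψ ^ (k + 1) * M (n - (k + 1)) -
        ψ' ^ (k + 1) * M' (n - (k + 1)))) := by
    rw [Nat.sub_zero, pow_zero, pow_zero]
    simp only [mul_sub]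
    rw [Finset.sum_sub_distrib]
    push_cast
    ring
  rw [e]
  refine Valuation.map_sum_le v fun k _ => vm' (v_nat _) ?_
  have e2 : ψ ^ (k + 1) * M (n - (k + 1)) - ψ' ^ (k + 1) * M' (n - (k + 1)) =
      (ψ ^ (k + 1) - ψ' ^ (k + 1)) * M (n - (k + 1)) +
      (ψ' * (M (n - (k + 1)) - M' (n - (k + 1)))) * ψ' ^ k := by
    ring
  rw [e2]
  refine v_add_le (vm (pow_sub_le (hψ.trans hv4) (hψ'.trans hv4) hd _) (hM _))
    (vm ?_ (v_pow_le (hψ'.trans hv4) k))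
  rw [map_mul, show (8 : ℂ) = 4 * 2 by norm_num, map_mul]
  exact mul_le_mul' hψ' (hdM _)

/-- the odd terms modulo four -/
theorem Mq_odd (n : ℕ) : Q4 (Mq aM (2 * n + 1)) (if n = 0 then q1 else q3) := by
  rcases n with _ | n
  · rw [if_pos rfl, Nat.mul_zero, zero_add, Mq_one]
    exact st1
  · rw [if_neg (Nat.succ_ne_zero n)]
    have e : 2 * (n + 1) + 1 = 2 * n + 1 + 2 := by ring
    rw [e]
    exact Q4_step (n := 2 * n + 1) (Mq_even n) st3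

lemma ev_q1 : eval (ptQ B ξ η ε) q1 = 2 * (ξ - 1)⁻¹ * ε - (ξ - 1)⁻¹ ^ 2 * η +
    2 * (ξ - 1)⁻¹ ^ 2 * ε := by
  unfold q1 aT aH aE ptQ
  simp only [map_add, map_sub, map_mul, map_pow, map_ofNat, MvPolynomial.eval_X]
  simp only [Matrix.cons_val]

lemma ev_q3 : eval (ptQ B ξ η ε) q3 = eval (ptQ B ξ η ε) q1 + 2 * (ξ - 1)⁻¹ ^ 3 * η +
    2 * (ξ - 1)⁻¹ ^ 4 * η := by
  rw [ev_q1]
  unfold q3 aT aH aE ptQ
  simp only [map_add, map_sub, map_mul, map_pow, map_ofNat, MvPolynomial.eval_X]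
  simp only [Matrix.cons_val]

/-- the difference of the values modulo eight -/
theorem S_two (H : Two v B ξ η ε B' ξ' η' ε') (h4 : v (4 : ℂ) ≠ 0) (h1 : ξ - 1 ≠ 0)
    (h1' : ξ' - 1 ≠ 0) (hrel : η ^ 2 = ξ ^ 2 + B * ξ * (ξ - 1) ^ 2)
    (hrel' : η' ^ 2 = ξ' ^ 2 + B' * ξ' * (ξ' - 1) ^ 2) {ψ ψ' : ℂ} (hψ : v ψ ≤ v 4)
    (hψ' : v ψ' ≤ v 4) (hd : v (ψ - ψ') ≤ v 8) (n : ℕ) :
    v ((Sg ψ (fun k => eval (ptQ B ξ η ε) (Mq aM k)) (2 * n + 1) -
      Sg ψ' (fun k => eval (ptQ B' ξ' η' ε') (Mq aM k)) (2 * n + 1)) -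
      (eval (ptQ B ξ η ε) (if n = 0 then q1 else q3) -
        eval (ptQ B' ξ' η' ε') (if n = 0 then q1 else q3))) ≤ v 8 := by
  have hM : ∀ n, v (eval (ptQ B ξ η ε) (Mq aM n)) ≤ 1 := fun n =>
    ev_WW H.b0 H.x H.h H.e H.t (Mq_mem aM_mem n).1
  have hdM : ∀ n, v (eval (ptQ B ξ η ε) (Mq aM n) - eval (ptQ B' ξ' η' ε') (Mq aM n)) ≤ v 2 :=
    fun n => ev_two H h4 (Mq_mem aM_mem n).1
  have k1 := Sg_two hψ hψ' hd hM hdM (2 * n + 1)
  obtain ⟨w, hw, z, hz, h⟩ := Mq_odd n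
  have k2 := ev_two H h4 hw
  have k3 := evp_II (B := B) (ε := ε) h1 hrel hz
  have k4 := evp_II (B := B') (ε := ε') h1' hrel' hz
  set Q := (if n = 0 then q1 else q3 : A)
  have e : eval (ptQ B ξ η ε) (Mq aM (2 * n + 1)) - eval (ptQ B' ξ' η' ε') (Mq aM (2 * n + 1)) =
      (eval (ptQ B ξ η ε) Q - eval (ptQ B' ξ' η' ε') Q) +
      4 * (eval (ptQ B ξ η ε) w - eval (ptQ B' ξ' η' ε') w) := by
    rw [h]
    simp only [map_add, map_mul, map_ofNat]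
    rw [k3, k4]
    ring
  rw [e] at k1
  have e2 : ∀ s a b : ℂ, s - a = (s - (a + b)) + b := fun s a b => by ring
  rw [e2 _ _ (4 * (eval (ptQ B ξ η ε) w - eval (ptQ B' ξ' η' ε') w))]
  refine v_add_le k1 ?_
  rw [map_mul, show (8 : ℂ) = 4 * 2 by norm_num, map_mul]
  exact mul_le_mul' le_rfl k2

end cong

end Pool.Agent.N843.E
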