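import Pool.Agent.N843.Eb

/-!
# The coordinates at the points of order four
-/

set_option autoImplicit false
set_option linter.unusedSectionVars false
set_option linter.unusedSimpArgs false

open Filter
open scoped Topology PeriodPair

namespace Pool.Agent.N843.E

open H667R3 Pool.Agent.TH936.CW Pool.Agent.W192.HK Pool.Agent.Y690.NV Pool.Agent.TH936.PU
open Pool.Agent.N843
open Pool.Agent.Y698 (RR al al_sq al_ne bl bl_ne al_mul_bl LD tA tB aR aR_coe bR bR_coe cX cY co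
  co_uniq al_im_pos Xx_per Tb v_two v_two_lt v_bl fin_quot aR_mul_bR two_coe)
open Pool.Agent.TH936.CM (IsLat)
open MvPolynomial (eval C eval_C eval_X)

variable {L : PeriodPair} {Ω p q : ℂ}

/-- the quotient of the scaling factors -/
noncomputable def gg (i r : ℂ) : ℂ := (1 + i) * (3 + r) / (2 * bl)

/-- the numbers `i`, `r` with `i² = -1`, `r² = 7` -/
structure IR (i r : ℂ) : Prop where
  i2 : i ^ 2 = -1
  r2 : r ^ 2 = 7
  ir : i * r = 2 * al - 1

lemma IR.conj {i r : ℂ} (h : IR i r) : IR (-i) (-r) :=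
  ⟨by rw [neg_sq]; exact h.i2, by rw [neg_sq]; exact h.r2, by rw [neg_mul_neg]; exact h.ir⟩

lemma ir_LD (h : LD L Ω) : IR (io L Ω) (rho L Ω) := ⟨io_sq h, rho_sq h, io_rho h⟩

section ir

variable {i r : ℂ} (H : IR i r)
include H

lemma IR.i0 : i ≠ 0 := by
  rintro rfl
  have := H.i2
  norm_num at this

lemma IR.r0 : r ≠ 0 := by
  rintro rfl
  have := H.r2
  norm_num at this

lemma IR.u : (8 - 3 * r) * (8 + 3 * r) = 1 := by linear_combination (-9 : ℂ) * H.r2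

lemma IR.g2 : gg i r ^ 2 * bl ^ 2 = i * (8 + 3 * r) := by
  have hb := bl_ne
  unfold gg
  field_simp
  linear_combination (9 + 6 * r + r ^ 2) * H.i2 + (2 * i) * H.r2

lemma IR.g0 : gg i r ≠ 0 := by
  intro h0
  have h1 := H.g2
  rw [h0] at h1
  have h2 : i * (8 + 3 * r) = 0 := by rw [← h1]; ring
  exact (mul_ne_zero H.i0 (right_ne_zero_of_mul_eq_one H.u)) h2

lemma IR.c2 (h : LD L Ω) : (cT L Ω / gg i r) ^ 2 = 4 * r * (8 - 3 * r) / 7 := by
  have hg := H.g0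
  have hb := bl_ne
  rw [div_pow, div_eq_iff (pow_ne_zero 2 hg), cT_sq h]
  have h1 : (4 * r * (8 - 3 * r) / 7 * gg i r ^ 2) * bl ^ 2 = -(3 * al + 2) / 7 * bl ^ 2 := by
    have e : (4 * r * (8 - 3 * r) / 7 * gg i r ^ 2) * bl ^ 2 =
        4 * r * (8 - 3 * r) / 7 * (gg i r ^ 2 * bl ^ 2) := by ring
    rw [e, H.g2]
    have h2 := H.ir
    have h3 := H.u
    unfold bl
    linear_combination (4 / 7 * (8 - 3 * r) * (8 + 3 * r)) * h2 + (4 / 7 * (2 * al - 1)) * h3 +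
      (3 / 7 * al - 1 / 7) * al_sq
  exact (mul_right_cancel₀ (pow_ne_zero 2 hb) h1).symm

/-- the first coordinate -/
lemma IR.xi (h : LD L Ω) (z : ℂ) : xiQ L (cT L Ω / gg i r) (4 * (8 - 3 * r)) z =
    -i * (xiQ L (cT L Ω) BT z + al ^ 2) / bl ^ 2 := by
  have hr := H.r0
  have hb := bl_ne
  have hu := left_ne_zero_of_mul_eq_one H.u
  have hs := s_ne
  have x1 := xi_s h z
  have e1 : xiQ L (cT L Ω) BT z = 1 + bl * (bl * Pool.Agent.Y698.Xx L z - 1) / (1 - 2 * al) := by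
    rw [← x1]
    field_simp
    ring
  have e2 : xiQ L (cT L Ω / gg i r) (4 * (8 - 3 * r)) z = (Pool.Agent.Y698.Xx L z - 2) / r := by
    unfold xiQ
    rw [H.c2 h]
    unfold Pool.Agent.Y698.Xx
    have hu4 : (4 * (8 - 3 * r) : ℂ) ≠ 0 := mul_ne_zero (by norm_num) hu
    rw [eq_div_iff hr, add_mul, one_mul, div_mul_eq_mul_div, eq_comm, ← sub_eq_iff_eq_add',
      eq_div_iff hu4]
    have := H.r2
    linear_combination (-(℘[L] z) * (4 / 7) * (8 - 3 * r) + 8) * this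
  rw [e2, e1]
  have h2 := H.ir
  have h3 : r = -((1 - 2 * al) * i⁻¹) := by
    have hi := H.i0
    field_simp
    linear_combination h2
  have hi := H.i0
  rw [h3]
  set X := Pool.Agent.Y698.Xx L z
  have hs2 : (1 - al * 2 : ℂ) ≠ 0 := by rwa [mul_comm]
  field_simp
  unfold bl
  linear_combination (1 - 2 * al) * al_sq

/-- the second coordinate -/
lemma IR.et (h : LD L Ω) (z : ℂ) : etQ L (cT L Ω / gg i r) (4 * (8 - 3 * r)) z =
    -i * etQ L (cT L Ω) BT z / (gg i r * bl ^ 2) := by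
  have hb := bl_ne
  have hg := H.g0
  have hi := H.i0
  have hu := left_ne_zero_of_mul_eq_one H.u
  have hB := BT_ne
  have h1 := H.g2
  have h2 : BT * (16 : ℂ) = 16 * (al ^ 4 / 4) := by rw [BT_eq]; ring
  have h3 : al ^ 4 * bl ^ 4 = 16 := by
    have := congrArg (fun x : ℂ => x ^ 4) al_mul_bl
    simp only [mul_pow] at this
    rw [this]
    norm_num
  have h4 : BT * bl ^ 4 = 4 := by
    rw [BT_eq]
    linear_combination (1 / 4 : ℂ) * h3
  have key : BT * bl ^ 2 = -i * gg i r ^ 2 * (4 * (8 - 3 * r)) := by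
    have k1 : BT * bl ^ 2 * bl ^ 2 = -i * gg i r ^ 2 * (4 * (8 - 3 * r)) * bl ^ 2 := by
      have e : -i * gg i r ^ 2 * (4 * (8 - 3 * r)) * bl ^ 2 =
          -i * (gg i r ^ 2 * bl ^ 2) * (4 * (8 - 3 * r)) := by ring
      rw [e, h1]
      linear_combination h4 + 4 * (8 + 3 * r) * (8 - 3 * r) * H.i2 - 4 * H.u
    exact mul_right_cancel₀ (pow_ne_zero 2 hb) k1
  unfold etQ
  have hu4 : (4 * (8 - 3 * r) : ℂ) ≠ 0 := mul_ne_zero (by norm_num) hu
  rw [div_pow, div_mul_eq_mul_div, div_div, mul_div_assoc', div_div, div_eq_div_iff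
    (mul_ne_zero (pow_ne_zero 3 hg) (mul_ne_zero two_ne_zero hu4))
    (mul_ne_zero (mul_ne_zero two_ne_zero hB) (mul_ne_zero hg (pow_ne_zero 2 hb)))]
  linear_combination (2 * cT L Ω ^ 3 * ℘'[L] z * gg i r) * key

/-- the third coordinate -/
lemma IR.ep (z : ℂ) : epQ L p q (cT L Ω / gg i r) z = epQ L p q (cT L Ω) z / gg i r := by
  unfold epQ
  ring

/-- the change of gauge -/
lemma IR.psi (h : LD L Ω) (hp : p = 1 / 4) : ψt p (cT L Ω / gg i r) (4 * (8 - 3 * r)) =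
    56 - 148 * r / 7 := by
  unfold ψt
  rw [H.c2 h, hp]
  linear_combination (3 / 7 : ℂ) * H.r2

/-- the data -/
lemma IR.tq (h : LD L Ω) (hpq : ∀ l ∈ L.lattice, eta L l = p * l + q * (starRingEnd ℂ) l)
    {T : ℂ} (h2 : 2 * T ∉ L.lattice) (h4 : 4 * T ∈ L.lattice) (hT : ℘[L] T = 7 / 4 + r) :
    TQ L p q (cT L Ω / gg i r) (4 * (8 - 3 * r)) 1 T ∨
      TQ L p q (cT L Ω / gg i r) (4 * (8 - 3 * r)) 1 (-T) :=
  tq_gen h hpq h2 h4 hT H.r2 (H.c2 h)

/-- the values -/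
theorem IR.val (h : LD L Ω) (hpq : ∀ l ∈ L.lattice, eta L l = p * l + q * (starRingEnd ℂ) l)
    {T Q : ℂ} (h2 : 2 * T ∉ L.lattice) (h4 : 4 * T ∈ L.lattice) (hT : ℘[L] T = 7 / 4 + r)
    (hQ : Q ∉ L.lattice) (k1 : T + Q ∉ L.lattice) (k2 : T - Q ∉ L.lattice) (n : ℕ) :
    (n.factorial : ℂ) * (cT L Ω ^ (2 * n + 1) * (ek L p q n (T + Q) + ek L p q n (-T + Q))) =
      2 * gg i r ^ (2 * n + 1) * Sg (56 - 148 * r / 7) (fun k =>
        eval (ptQ (4 * (8 - 3 * r)) (-i * (xiQ L (cT L Ω) BT Q + al ^ 2) / bl ^ 2)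
          (-i * etQ L (cT L Ω) BT Q / (gg i r * bl ^ 2)) (epQ L p q (cT L Ω) Q / gg i r))
        (Mq aM k)) n := by
  have hg := H.g0
  have e1 : ∀ x : ℂ, cT L Ω ^ (2 * n + 1) * x =
      gg i r ^ (2 * n + 1) * ((cT L Ω / gg i r) ^ (2 * n + 1) * x) := by
    intro x
    rw [div_pow]
    field_simp
  have k1' : -T + Q ∉ L.lattice := fun h3 => k2 (by
    have := neg_mem h3
    convert this using 1
    ring)
  have k2' : -T - Q ∉ L.lattice := fun h3 => k1 (by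
    have := neg_mem h3
    convert this using 1
    ring)
  have key : (n.factorial : ℂ) * ((cT L Ω / gg i r) ^ (2 * n + 1) *
      (ek L p q n (T + Q) + ek L p q n (-T + Q))) = 2 * Sg (56 - 148 * r / 7) (fun k =>
        eval (ptQ (4 * (8 - 3 * r)) (-i * (xiQ L (cT L Ω) BT Q + al ^ 2) / bl ^ 2)
          (-i * etQ L (cT L Ω) BT Q / (gg i r * bl ^ 2)) (epQ L p q (cT L Ω) Q / gg i r))
        (Mq aM k)) n := by
    rw [← H.psi h (p_val h hpq), ← H.xi h Q, ← H.et h Q, ← H.ep]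
    rcases H.tq h hpq h2 h4 hT with hT1 | hT1
    · exact val_sum hT1 hQ k1 k2 n
    · have := val_sum hT1 hQ k1' k2' n
      rw [neg_neg] at this
      rw [← this]
      ring
  rw [e1, mul_left_comm, key]
  ring

end ir

end Pool.Agent.N843.E
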