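import Pool.Agent.N843.Ec

/-!
# The final congruence for the even weights: the algebra
-/

set_option autoImplicit false
set_option linter.unusedSectionVars false
set_option linter.unusedSimpArgs false
set_option linter.unusedVariables false

namespace Pool.Agent.N843.E

open H667R3 Pool.Agent.TH936.CW Pool.Agent.W192.HK Pool.Agent.Y690.NV Pool.Agent.TH936.PU
open Pool.Agent.N843

section O

variable {Γ : Type*} [LinearOrderedCommGroupWithZero Γ]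

/-- divisible by the power of two -/
def O (v : Valuation ℂ Γ) (k : ℕ) (x : ℂ) : Prop := v x ≤ v 2 ^ k

variable {v : Valuation ℂ Γ} {j k : ℕ} {x y : ℂ}

lemma O.add (hx : O v k x) (hy : O v k y) : O v k (x + y) := v_add_le hx hy
lemma O.sub (hx : O v k x) (hy : O v k y) : O v k (x - y) := v_sub_le hx hy
lemma O.neg (hx : O v k x) : O v k (-x) := by
  unfold O
  rw [Valuation.map_neg]
  exact hx
lemma O.mul (hx : O v j x) (hy : O v k y) : O v (j + k) (x * y) := by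
  unfold O
  rw [map_mul, pow_add]
  exact mul_le_mul' hx hy
lemma O.mono (h2 : v 2 ≤ 1) (hx : O v j x) (h : k ≤ j) : O v k x := by
  refine le_trans hx ?_
  obtain ⟨m, rfl⟩ := Nat.exists_eq_add_of_le h
  rw [pow_add]
  calc v 2 ^ k * v 2 ^ m ≤ v 2 ^ k * 1 := mul_le_mul' le_rfl (pow_le_one₀ zero_le h2)
    _ = v 2 ^ k := mul_one _
lemma O.zero_iff : O v 0 x ↔ v x ≤ 1 := by
  unfold O
  rw [pow_zero]
lemma O.of_eq (h : v x = 1) : O v 0 x := O.zero_iff.2 h.le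
lemma O.inv (h : v x = 1) : O v 0 x⁻¹ := by
  rw [O.zero_iff, map_inv₀, h, inv_one]
lemma O.two : O v 1 (2 : ℂ) := by
  unfold O
  rw [pow_one]
lemma O.four : O v 2 (4 : ℂ) := by
  have := (O.two (v := v)).mul (O.two (v := v))
  norm_num at this
  exact this
lemma O.eight : O v 3 (8 : ℂ) := by
  have := (O.four (v := v)).mul (O.two (v := v))
  norm_num at this
  exact this
lemma O.sixteen : O v 4 (16 : ℂ) := by
  have := (O.four (v := v)).mul (O.four (v := v))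
  norm_num at this
  exact this
lemma O.one : O v 0 (1 : ℂ) := by
  rw [O.zero_iff, map_one]
lemma O.nat (n : ℕ) : O v 0 (n : ℂ) := O.zero_iff.2 (v_nat n)
lemma O.m0 (hx : O v k x) (hy : O v 0 y) : O v k (x * y) := by
  have := hx.mul hy
  rwa [add_zero] at this
lemma O.m0' (hx : O v 0 x) (hy : O v k y) : O v k (x * y) := by
  have := hx.mul hy
  rwa [zero_add] at this
lemma O.pow (hx : O v 0 x) (n : ℕ) : O v 0 (x ^ n) := by
  rw [O.zero_iff] at hx ⊢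
  exact v_pow_le hx n

lemma O.pow_one_sub (hx : O v 0 x) (h : O v k (x - 1)) (n : ℕ) : O v k (x ^ n - 1) := by
  have := pow_sub_le (v := v) (x := x) (y := 1) (O.zero_iff.1 hx) (by rw [map_one]) h n
  rwa [one_pow] at this

end O

section alg

variable {Γ : Type*} [LinearOrderedCommGroupWithZero Γ] {v : Valuation ℂ Γ}

/-- the numbers of the congruence -/
structure Num (v : Valuation ℂ Γ) (i g g' a b ξ η ε : ℂ) : Prop where
  two : v 2 < 1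
  i2 : i ^ 2 = -1
  g1 : v g = 1
  g1' : v g' = 1
  b1 : v b = 1
  dg : O v 3 (g - g')
  g2 : O v 2 (g ^ 2 - 1)
  b2 : O v 2 (b ^ 2 - 1)
  a2 : O v 2 (a ^ 2)
  x : O v 0 ξ
  h : O v 0 η
  e : O v 0 ε
  e1 : O v 1 (ε - 1)
  hx : O v 1 (η - ξ)
  x1 : v (ξ - 1) = 1

variable {i g g' a b ξ η ε : ℂ}

section num

variable (H : Num v i g g' a b ξ η ε)
include H

lemma Num.vi : v i = 1 := by
  have h1 := congrArg v H.i2
  rw [map_pow, Valuation.map_neg, map_one] at h1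
  exact (pow_eq_one_iff_of_nonneg zero_le two_ne_zero).1 h1

lemma Num.b0 : b ≠ 0 := by
  rintro rfl
  have := H.b1
  rw [map_zero] at this
  exact zero_ne_one this

lemma Num.g0 : g ≠ 0 := by
  rintro rfl
  have := H.g1
  rw [map_zero] at this
  exact zero_ne_one this

lemma Num.g0' : g' ≠ 0 := by
  rintro rfl
  have := H.g1'
  rw [map_zero] at this
  exact zero_ne_one this

lemma Num.x2 : v (ξ + 1) = 1 := by
  have e : ξ + 1 = (ξ - 1) + 2 := by ring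
  rw [e, Valuation.map_add_eq_of_lt_left v, H.x1]
  rw [H.x1]
  exact H.two

lemma Num.xx : v (ξ ^ 2 + 1) = 1 := by
  have e : ξ ^ 2 + 1 = (ξ - 1) ^ 2 + 2 * ξ := by ring
  have h1 : v ((ξ - 1) ^ 2) = 1 := by rw [map_pow, H.x1, one_pow]
  rw [e, Valuation.map_add_eq_of_lt_left v, h1]
  rw [h1, map_mul]
  exact mul_lt_one_of_lt_of_le H.two (O.zero_iff.1 H.x)

lemma Num.u_int : O v 0 (-i * (ξ + a ^ 2) / b ^ 2) := by
  rw [div_eq_mul_inv]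
  refine ((O.of_eq H.vi).neg.m0 (H.x.add (H.a2.mono H.two.le (Nat.zero_le 2)))).m0 (O.inv ?_)
  rw [map_pow, H.b1, one_pow]

/-- `u = -i ξ` modulo four -/
lemma Num.u_cong : O v 2 (-i * (ξ + a ^ 2) / b ^ 2 + i * ξ) := by
  have hb := H.b0
  have e : -i * (ξ + a ^ 2) / b ^ 2 + i * ξ = i * ((ξ * (b ^ 2 - 1) - a ^ 2) * (b ^ 2)⁻¹) := by
    field_simp
    ring
  rw [e]
  refine (O.of_eq H.vi).m0' (((H.x.m0' H.b2).sub H.a2).m0 (O.inv ?_))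
  rw [map_pow, H.b1, one_pow]

lemma Num.u_sq : O v 2 ((-i * (ξ + a ^ 2) / b ^ 2) ^ 2 + ξ ^ 2) := by
  have k1 := H.u_cong
  have k2 := H.u_int
  set u := -i * (ξ + a ^ 2) / b ^ 2
  have e : u ^ 2 + ξ ^ 2 = (u + i * ξ) * (u - i * ξ) := by
    linear_combination (ξ ^ 2) * H.i2
  rw [e]
  exact k1.m0 (k2.sub ((O.of_eq H.vi).m0 H.x))

lemma Num.u_unit : v ((-i * (ξ + a ^ 2) / b ^ 2) ^ 2 - 1) = 1 := by
  have k1 := H.u_sq
  set u := -i * (ξ + a ^ 2) / b ^ 2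
  have e : u ^ 2 - 1 = -(ξ ^ 2 + 1) + (u ^ 2 + ξ ^ 2) := by ring
  rw [e, Valuation.map_add_eq_of_lt_left v, Valuation.map_neg, H.xx]
  rw [Valuation.map_neg, H.xx]
  refine lt_of_le_of_lt k1 ?_
  exact pow_lt_one₀ zero_le H.two two_ne_zero

lemma Num.u_m : v (-i * (ξ + a ^ 2) / b ^ 2 - 1) = 1 ∧ v (-i * (ξ + a ^ 2) / b ^ 2 + 1) = 1 := by
  have k1 := H.u_unit
  have k2 := H.u_int
  set u := -i * (ξ + a ^ 2) / b ^ 2
  have e : u ^ 2 - 1 = (u - 1) * (u + 1) := by ring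
  rw [e, map_mul] at k1
  have h1 : v (u - 1) ≤ 1 := O.zero_iff.1 (k2.sub O.one)
  have h2 : v (u + 1) ≤ 1 := O.zero_iff.1 (k2.add O.one)
  refine ⟨le_antisymm h1 ?_, le_antisymm h2 ?_⟩
  · by_contra hlt
    rw [not_le] at hlt
    have := mul_lt_one_of_lt_of_le hlt h2
    rw [k1] at this
    exact lt_irrefl _ this
  · by_contra hlt
    rw [not_le] at hlt
    have := mul_lt_one_of_lt_of_le hlt h1
    rw [mul_comm, k1] at this
    exact lt_irrefl _ this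

/-- the first part: the difference of the values -/
theorem Num.diff1 (m : ℕ) (u : ℂ) (hu : u = -i * (ξ + a ^ 2) / b ^ 2) :
    O v 4 (2 * g ^ (2 * m + 1) * ((2 * (u - 1)⁻¹ * (ε / g) - (u - 1)⁻¹ ^ 2 * (-i * η / (g * b ^ 2)) +
      2 * (u - 1)⁻¹ ^ 2 * (ε / g)) - (2 * (-u - 1)⁻¹ * (ε / g') - (-u - 1)⁻¹ ^ 2 *
      (i * η / (g' * b ^ 2)) + 2 * (-u - 1)⁻¹ ^ 2 * (ε / g'))) -
      2 * i * (2 * (η / ((ξ - 1) * (ξ - 1 + 2))))) := by
  have hg := H.g0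
  have hg' := H.g0'
  have hb := H.b0
  have k0 := H.u_int
  have k1 := H.u_cong
  have k2 := H.u_sq
  have k3 := H.u_unit
  obtain ⟨k4, k5⟩ := H.u_m
  rw [← hu] at k0 k1 k2 k3 k4 k5
  have ne : ∀ x : ℂ, v x = 1 → x ≠ 0 := fun x hx h0 => by
    rw [h0, map_zero] at hx
    exact zero_ne_one hx
  have n1 := ne _ k4
  have n2 := ne _ k5
  have n3 := ne _ H.x1
  have n4 := ne _ H.x2
  have n5 := ne _ H.xx
  have n6 := ne _ k3
  have n7 : -u - 1 ≠ 0 := by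
    intro h0
    exact n2 (by linear_combination -h0)
  have vi := O.of_eq H.vi
  -- the difference of the two points
  set K := (u ^ 2 + 1) / (u ^ 2 - 1) ^ 2 with hK
  have oK : O v 0 K := by
    rw [hK, div_eq_mul_inv]
    refine ((k0.pow 2).add O.one).m0 (O.inv ?_)
    rw [map_pow, k3, one_pow]
  set δ := 2 * u * (ε / g - ε / g') - (-i * η / (g * b ^ 2) + i * η / (g' * b ^ 2)) with hδ
  have oδ : O v 3 δ := by
    have e : δ = (g - g') * ((g * g')⁻¹ * (-(2 * u * ε) - i * η * (b ^ 2)⁻¹)) := by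
      rw [hδ]
      field_simp
      ring
    rw [e]
    refine H.dg.m0 ((O.inv (by rw [map_mul, H.g1, H.g1', mul_one])).m0
      (((O.two.mono H.two.le (Nat.zero_le 1)).m0 k0).m0 H.e |>.neg.sub
        ((vi.m0 H.h).m0 (O.inv (by rw [map_pow, H.b1, one_pow])))))
  have main : (2 * (u - 1)⁻¹ * (ε / g) - (u - 1)⁻¹ ^ 2 * (-i * η / (g * b ^ 2)) +
      2 * (u - 1)⁻¹ ^ 2 * (ε / g)) - (2 * (-u - 1)⁻¹ * (ε / g') - (-u - 1)⁻¹ ^ 2 *
      (i * η / (g' * b ^ 2)) + 2 * (-u - 1)⁻¹ ^ 2 * (ε / g')) =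
      2 * K * (2 * u * (ε / g) + i * η / (g * b ^ 2)) - (u + 1)⁻¹ ^ 2 * δ := by
    rw [hK, hδ]
    have e1 : (-u - 1)⁻¹ = -(u + 1)⁻¹ := by
      rw [show -u - 1 = -(u + 1) by ring, inv_neg]
    have e2 : u ^ 2 - 1 = (u - 1) * (u + 1) := by ring
    rw [e1, e2]
    field_simp
    ring
  rw [main]
  have oinv : O v 0 ((u + 1)⁻¹) := O.inv k5
  -- the power of g
  have og : O v 0 (g ^ 2) := (O.of_eq H.g1).pow 2
  have ogm : O v 2 ((g ^ 2) ^ m - 1) := O.pow_one_sub og H.g2 m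
  set K0 := (1 - ξ ^ 2) / (ξ ^ 2 + 1) ^ 2 with hK0
  have oKK : O v 2 (K - K0) := by
    have e : K - K0 = (u ^ 2 + ξ ^ 2) * (((ξ ^ 2 + 1) ^ 2 - (1 - ξ ^ 2) * (u ^ 2 - ξ ^ 2 - 2)) *
        ((u ^ 2 - 1)⁻¹ ^ 2 * (ξ ^ 2 + 1)⁻¹ ^ 2)) := by
      rw [hK, hK0]
      field_simp
      ring
    rw [e]
    have o2 := (O.two (v := v)).mono H.two.le (Nat.zero_le 1)
    refine k2.m0 (((((H.x.pow 2).add O.one).pow 2).sub ((O.one.sub (H.x.pow 2)).m0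
      (((k0.pow 2).sub (H.x.pow 2)).sub o2))).m0 (((O.inv k3).pow 2).m0 ((O.inv H.xx).pow 2)))
  have oK0 : O v 0 K0 := by
    have := oK.sub (oKK.mono H.two.le (Nat.zero_le 2))
    rwa [sub_sub_cancel] at this
  -- the terms
  have T1 : O v 4 (-(2 * g ^ (2 * m + 1) * ((u + 1)⁻¹ ^ 2 * δ))) := by
    refine O.neg ?_
    have := (O.two (v := v)).mul (((O.of_eq H.g1).pow (2 * m + 1)).m0' ((oinv.pow 2).m0' oδ))
    rw [mul_assoc]
    exact this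
  have T2 : O v 4 (4 * (K * (((g ^ 2) ^ m - 1) * (2 * u * ε + i * η * (b ^ 2)⁻¹)))) := by
    refine O.four.mul (oK.m0' (ogm.m0 ?_))
    exact ((((O.two.mono H.two.le (Nat.zero_le 1)).m0 k0).m0 H.e).add
      ((vi.m0 H.h).m0 (O.inv (by rw [map_pow, H.b1, one_pow]))))
  have T3 : O v 4 (8 * (K * (u * (ε - 1)))) := O.eight.mul (oK.m0' (k0.m0' H.e1))
  have T4 : O v 4 (8 * (K * (u + i * ξ))) :=
    (O.eight.mul (oK.m0' k1)).mono H.two.le (by norm_num)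
  have T5 : O v 4 (4 * (K * (i * η * ((b ^ 2 - 1) * (b ^ 2)⁻¹)))) :=
    O.four.mul (oK.m0' ((vi.m0 H.h).m0' (H.b2.m0 (O.inv (by rw [map_pow, H.b1, one_pow])))))
  have T6 : O v 4 (16 * (K * (i * ξ))) := O.sixteen.m0 (oK.m0 (vi.m0 H.x))
  have T7 : O v 4 (4 * ((K - K0) * (i * (η + 2 * ξ)))) :=
    O.four.mul (oKK.m0 (vi.m0 (H.h.add ((O.two.mono H.two.le (Nat.zero_le 1)).m0 H.x))))
  have T8 : O v 4 (4 * (2 * (i * (((η - ξ) * (ξ ^ 2 - 1) ^ 2 + 2 * (ξ * (ξ ^ 2 - 1) ^ 2 + η * ξ ^ 2)) *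
      ((ξ ^ 2 + 1)⁻¹ ^ 2 * ((ξ - 1)⁻¹ * (ξ + 1)⁻¹)))))) := by
    have o1 : O v 0 (ξ ^ 2 - 1) := (H.x.pow 2).sub O.one
    have o2 : O v 1 ((η - ξ) * (ξ ^ 2 - 1) ^ 2 + 2 * (ξ * (ξ ^ 2 - 1) ^ 2 + η * ξ ^ 2)) :=
      (H.hx.m0 (o1.pow 2)).add (O.two.m0 ((H.x.m0 (o1.pow 2)).add (H.h.m0 (H.x.pow 2))))
    exact O.four.mul (O.two.mul (vi.m0' (o2.m0 (((O.inv H.xx).pow 2).m0
      ((O.inv H.x1).m0 (O.inv H.x2))))))
  have eg : g ^ (2 * m + 1) = (g ^ 2) ^ m * g := by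
    rw [pow_succ, pow_mul]
  have fin : 2 * g ^ (2 * m + 1) * (2 * K * (2 * u * (ε / g) + i * η / (g * b ^ 2)) -
      (u + 1)⁻¹ ^ 2 * δ) - 2 * i * (2 * (η / ((ξ - 1) * (ξ - 1 + 2)))) =
      -(2 * g ^ (2 * m + 1) * ((u + 1)⁻¹ ^ 2 * δ)) +
      4 * (K * (((g ^ 2) ^ m - 1) * (2 * u * ε + i * η * (b ^ 2)⁻¹))) +
      8 * (K * (u * (ε - 1))) + 8 * (K * (u + i * ξ)) -
      4 * (K * (i * η * ((b ^ 2 - 1) * (b ^ 2)⁻¹))) - 16 * (K * (i * ξ)) +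
      4 * ((K - K0) * (i * (η + 2 * ξ))) -
      4 * (2 * (i * (((η - ξ) * (ξ ^ 2 - 1) ^ 2 + 2 * (ξ * (ξ ^ 2 - 1) ^ 2 + η * ξ ^ 2)) *
      ((ξ ^ 2 + 1)⁻¹ ^ 2 * ((ξ - 1)⁻¹ * (ξ + 1)⁻¹))))) := by
    have e1 : 2 * g ^ (2 * m + 1) * (2 * K * (2 * u * (ε / g) + i * η / (g * b ^ 2)) -
      (u + 1)⁻¹ ^ 2 * δ) = -(2 * g ^ (2 * m + 1) * ((u + 1)⁻¹ ^ 2 * δ)) +
      4 * K * (g ^ 2) ^ m * (2 * u * ε + i * η * (b ^ 2)⁻¹) := by
      rw [eg]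
      field_simp
      ring
    have e2 : K0 * (η + 2 * ξ) - η / ((ξ - 1) * (ξ - 1 + 2)) =
      -(2 * (((η - ξ) * (ξ ^ 2 - 1) ^ 2 + 2 * (ξ * (ξ ^ 2 - 1) ^ 2 + η * ξ ^ 2)) *
      ((ξ ^ 2 + 1)⁻¹ ^ 2 * ((ξ - 1)⁻¹ * (ξ + 1)⁻¹)))) := by
      rw [hK0]
      have e3 : ξ - 1 + 2 = ξ + 1 := by ring
      rw [e3]
      field_simp
      ring
    have e4 : (b ^ 2)⁻¹ = 1 - (b ^ 2 - 1) * (b ^ 2)⁻¹ := by
      field_simp
      ring
    rw [e1]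
    linear_combination (4 * i) * e2 + (4 * K * i * η) * e4
  rw [fin]
  exact (((((((T1.add T2).add T3).add T4).sub T5).sub T6).add T7).sub T8)

/-- the second part of the difference of the values -/
theorem Num.diff2 (u : ℂ) (hu : u = -i * (ξ + a ^ 2) / b ^ 2) :
    O v 3 ((2 * (u - 1)⁻¹ ^ 3 * (-i * η / (g * b ^ 2)) +
      2 * (u - 1)⁻¹ ^ 4 * (-i * η / (g * b ^ 2))) - (2 * (-u - 1)⁻¹ ^ 3 * (i * η / (g' * b ^ 2)) +
      2 * (-u - 1)⁻¹ ^ 4 * (i * η / (g' * b ^ 2)))) := by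
  have hg := H.g0
  have hg' := H.g0'
  have hb := H.b0
  have k0 := H.u_int
  obtain ⟨k4, k5⟩ := H.u_m
  rw [← hu] at k0 k4 k5
  have ne : ∀ x : ℂ, v x = 1 → x ≠ 0 := fun x hx h0 => by
    rw [h0, map_zero] at hx
    exact zero_ne_one hx
  have n1 := ne _ k4
  have n2 := ne _ k5
  have vi := O.of_eq H.vi
  have e1 : (-u - 1)⁻¹ = -(u + 1)⁻¹ := by
    rw [show -u - 1 = -(u + 1) by ring, inv_neg]
  have e : (2 * (u - 1)⁻¹ ^ 3 * (-i * η / (g * b ^ 2)) +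
      2 * (u - 1)⁻¹ ^ 4 * (-i * η / (g * b ^ 2))) - (2 * (-u - 1)⁻¹ ^ 3 * (i * η / (g' * b ^ 2)) +
      2 * (-u - 1)⁻¹ ^ 4 * (i * η / (g' * b ^ 2))) =
      8 * (2 * u * (u * (u ^ 2 + 1) * ((u - 1)⁻¹ ^ 4 * (u + 1)⁻¹ ^ 4) * (-i * η * (g * b ^ 2)⁻¹))) +
      2 * (u * ((u + 1)⁻¹ ^ 4 * ((g - g') * (i * η * (g * g' * b ^ 2)⁻¹)))) := by
    rw [e1]
    field_simp
    ring
  rw [e]
  have oa : O v 0 ((u - 1)⁻¹) := O.inv k4
  have ob : O v 0 ((u + 1)⁻¹) := O.inv k5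
  have o2 := (O.two (v := v)).mono H.two.le (Nat.zero_le 1)
  refine O.add (O.eight.m0 ((o2.m0 k0).m0 (((k0.m0 ((k0.pow 2).add O.one)).m0
    ((oa.pow 4).m0 (ob.pow 4))).m0 ((vi.neg.m0 H.h).m0 (O.inv ?_))))) (o2.m0' (k0.m0'
      ((ob.pow 4).m0' (H.dg.m0 ((vi.m0 H.h).m0 (O.inv ?_))))))
  · rw [map_mul, map_pow, H.g1, H.b1, one_pow, mul_one]
  · rw [map_mul, map_mul, map_pow, H.g1, H.g1', H.b1, one_pow, mul_one, mul_one]

end num

end alg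

end Pool.Agent.N843.E
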