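import Pool.Agent.N843.Ed

/-!
# The distribution for the even weights and its congruence
-/

set_option autoImplicit false
set_option linter.unusedSectionVars false
set_option linter.unusedSimpArgs false
set_option linter.unusedVariables false

open Filter
open scoped Topology PeriodPair

namespace Pool.Agent.N843.E

open H667R3 Pool.Agent.TH936.CW Pool.Agent.W192.HK Pool.Agent.Y690.NV Pool.Agent.TH936.PU
open Pool.Agent.N843
open Pool.Agent.Y698 (RR al al_sq al_ne bl bl_ne al_mul_bl LD tA tB aR aR_coe bR bR_coe cX cY co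
  co_uniq al_im_pos Xx_per Tb v_two v_two_lt v_bl fin_quot aR_mul_bR two_coe)
open Pool.Agent.TH936.CM (IsLat)
open MvPolynomial (eval C eval_C eval_X)

variable {L : PeriodPair} {Ω p q : ℂ}

section val

variable {Γ : Type*} [LinearOrderedCommGroupWithZero Γ] {v : Valuation ℂ Γ}

lemma o_al (hv : v al < 1) : O v 1 al := by
  unfold O
  rw [pow_one, v_two hv]

lemma v_cor (hv : v al < 1) {i r : ℂ} (H : IR i r) : v i = 1 ∧ v r = 1 ∧ v (8 - 3 * r) = 1 ∧
    v (8 + 3 * r) = 1 := by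
  have h1 := congrArg v H.i2
  rw [map_pow, Valuation.map_neg, map_one] at h1
  have hi := (pow_eq_one_iff_of_nonneg zero_le two_ne_zero).1 h1
  have h2 := congrArg v H.r2
  rw [map_pow, v_seven hv] at h2
  have hr := (pow_eq_one_iff_of_nonneg zero_le two_ne_zero).1 h2
  have k1 : v (8 - 3 * r) ≤ 1 := O.zero_iff.1 (by
    have a := O.nat (v := v) 8
    have b := O.nat (v := v) 3
    push_cast at a b
    exact a.sub (b.m0 (O.of_eq hr)))
  have k2 : v (8 + 3 * r) ≤ 1 := O.zero_iff.1 (by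
    have a := O.nat (v := v) 8
    have b := O.nat (v := v) 3
    push_cast at a b
    exact a.add (b.m0 (O.of_eq hr)))
  have k3 := congrArg v H.u
  rw [map_mul, map_one] at k3
  refine ⟨hi, hr, le_antisymm k1 ?_, le_antisymm k2 ?_⟩
  · by_contra hlt
    rw [not_le] at hlt
    have := mul_lt_one_of_lt_of_le hlt k2
    rw [k3] at this
    exact lt_irrefl _ this
  · by_contra hlt
    rw [not_le] at hlt
    have := mul_lt_one_of_lt_of_le hlt k1
    rw [mul_comm, k3] at this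
    exact lt_irrefl _ this

lemma v_gg (hv : v al < 1) {i r : ℂ} (H : IR i r) : v (gg i r) = 1 := by
  have h1 := congrArg v H.g2
  obtain ⟨a, b, c, d⟩ := v_cor hv H
  rw [map_mul, map_pow, map_pow, v_bl hv, one_pow, mul_one, map_mul, a, d, mul_one] at h1
  exact (pow_eq_one_iff_of_nonneg zero_le two_ne_zero).1 h1

lemma gg_sub (hv : v al < 1) {i r : ℂ} (H : IR i r) : O v 3 (gg i r - gg (-i) (-r)) := by
  have hb := bl_ne
  have h1 : r = -i * (2 * al - 1) := by
    have h2 := H.ir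
    have h3 := H.i2
    linear_combination r * h3 - i * h2
  have e : gg i r - gg (-i) (-r) = 2 * (-i * (al ^ 2 * bl⁻¹)) := by
    unfold gg
    rw [h1]
    field_simp
    linear_combination (4 * i) * al_sq
  rw [e]
  have o2 : O v 2 (al ^ 2) := by
    have := (o_al hv).mul (o_al hv)
    rwa [← pow_two] at this
  exact O.two.mul ((O.of_eq (v_cor hv H).1).neg.m0' (o2.m0 (O.inv (v_bl hv))))

lemma gg_sq (hv : v al < 1) {i r : ℂ} (H : IR i r) : O v 2 (gg i r ^ 2 - 1) := by
  have hb := bl_ne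
  have h1 := H.g2
  have h2 : gg i r ^ 2 = i * (8 + 3 * r) / bl ^ 2 := by
    rw [← h1]
    field_simp
  have e : gg i r ^ 2 - 1 = (8 * i + al ^ 2 * (3 * bl + 1)) * (bl ^ 2)⁻¹ := by
    rw [h2]
    have h3 := H.ir
    field_simp
    unfold bl
    linear_combination (3 : ℂ) * h3 + (3 * al - 2) * al_sq
  rw [e]
  have o2 : O v 2 (al ^ 2) := by
    have := (o_al hv).mul (o_al hv)
    rwa [← pow_two] at this
  have o3 := O.nat (v := v) 3
  push_cast at o3
  have t := v_two_lt hv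
  refine ((((O.eight.m0 (O.of_eq (v_cor hv H).1)).mono t.le (by norm_num)).add
    (o2.m0 ((o3.m0 (O.of_eq (v_bl hv))).add O.one)))).m0 (O.inv ?_)
  rw [map_pow, v_bl hv, one_pow]

lemma o_bl (hv : v al < 1) : O v 2 (bl ^ 2 - 1) := by
  have e : bl ^ 2 - 1 = al ^ 2 * al := by
    unfold bl
    linear_combination (-al) * al_sq
  have o2 : O v 2 (al ^ 2) := by
    have := (o_al hv).mul (o_al hv)
    rwa [← pow_two] at this
  rw [e]
  exact o2.m0 ((o_al hv).mono (v_two_lt hv).le (Nat.zero_le 1))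

/-- the first coordinate is a unit -/
lemma v_xi0 (h : LD L Ω) (hv : v al < 1)
    (hpq : ∀ l ∈ L.lattice, eta L l = p * l + q * (starRingEnd ℂ) l) {z : ℂ} (ho : Od L z)
    (hz : z ∉ L.lattice) : v (xiQ L (cT L Ω) BT z) = 1 := by
  have v1 := v_xi h hv ho hz
  have k1 := rel_Q (tq h hpq) (Or.inl rfl) hz
  have k2 := v_et h hv ho hz
  have c1 : v (xiQ L (cT L Ω) BT z) ≤ 1 := by
    have e : xiQ L (cT L Ω) BT z = (xiQ L (cT L Ω) BT z - 1) + 1 := by ring
    rw [e]
    exact v_add_le v1.le (by rw [map_one])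
  set ξ := xiQ L (cT L Ω) BT z
  have e : ξ ^ 2 + BT * ξ * (ξ - 1) ^ 2 = ξ * (ξ + BT * (ξ - 1) ^ 2) := by ring
  rw [e] at k1
  have k3 := congrArg v k1
  rw [map_pow, k2, one_pow, map_mul] at k3
  have c2 : v (ξ + BT * (ξ - 1) ^ 2) ≤ 1 := by
    refine v_add_le c1 ?_
    rw [map_mul, map_pow, v1, one_pow, mul_one, v_BT hv]
    exact O.zero_iff.1 (O.four.mono (v_two_lt hv).le (Nat.zero_le 2))
  refine le_antisymm c1 ?_
  by_contra hlt
  rw [not_le] at hlt
  have := mul_lt_one_of_lt_of_le hlt c2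
  rw [← k3] at this
  exact lt_irrefl _ this

/-- the relation of the coordinates modulo two -/
lemma et_xi (h : LD L Ω) (hv : v al < 1)
    (hpq : ∀ l ∈ L.lattice, eta L l = p * l + q * (starRingEnd ℂ) l) {z : ℂ} (ho : Od L z)
    (hz : z ∉ L.lattice) : O v 1 (etQ L (cT L Ω) BT z - xiQ L (cT L Ω) BT z) := by
  have v1 := v_xi h hv ho hz
  have k1 := rel_Q (tq h hpq) (Or.inl rfl) hz
  have k2 := v_et h hv ho hz
  have k3 := v_xi0 h hv hpq ho hz
  set ξ := xiQ L (cT L Ω) BT z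
  set η := etQ L (cT L Ω) BT z
  have e : (η - ξ) * (η - ξ + 2 * ξ) = BT * ξ * (ξ - 1) ^ 2 := by linear_combination k1
  have k4 := congrArg v e
  rw [map_mul, map_mul, map_mul, map_pow, v1, k3, one_pow, mul_one, mul_one, v_BT hv] at k4
  have h4 : v (4 : ℂ) = v 2 * v 2 := by
    rw [← map_mul]
    norm_num
  unfold O
  rw [pow_one]
  by_contra hlt
  rw [not_le] at hlt
  have k5 : v (η - ξ + 2 * ξ) = v (η - ξ) := by
    rw [Valuation.map_add_eq_of_lt_left v]
    rw [map_mul, k3, mul_one]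
    exact hlt
  rw [k5, h4] at k4
  have k6 : v 2 * v 2 < v (η - ξ) * v (η - ξ) := mul_lt_mul'' hlt hlt zero_le zero_le
  rw [k4] at k6
  exact lt_irrefl _ k6

lemma XB (h : LD L Ω) (z : ℂ) : cT L Ω ^ 2 * (Pool.Agent.Y698.Xx L z -
    Pool.Agent.Y698.Xx L (tB Ω)) = BT * xiQ L (cT L Ω) BT z := by
  have h1 := xi_sub h z
  rw [Xx_T0 h] at h1
  rw [Xx_tB h]
  have hB := BT_ne
  have h2 : xiQ L (cT L Ω) BT z = 1 + cT L Ω ^ 2 * (Pool.Agent.Y698.Xx L z - al / 2) / BT := by
    rw [← h1]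
    ring
  rw [h2]
  have h3 := cT_sq h
  field_simp
  rw [h3]
  unfold BT
  linear_combination (-18 / 7 : ℂ) * al_sq

/-- the third coordinate is one modulo two -/
lemma ep_one (h : LD L Ω) (hv : v al < 1)
    (hpq : ∀ l ∈ L.lattice, eta L l = p * l + q * (starRingEnd ℂ) l) {z : ℂ} (ho : Od L z)
    (hz : z ∉ L.lattice) : O v 1 (epQ L p q (cT L Ω) z - 1) := by
  have hL := h.lat
  have hb := bl_ne
  have step : ∀ z : ℂ, Od L z → z ∉ L.lattice → O v 1 (epQ L p q (cT L Ω) (bl * z) - 1) := by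
    intro z ho hz
    have h1 := E1_bl' h hpq ho hz
    have k1 := XB h z
    have k3 := v_xi0 h hv hpq ho hz
    have k4 := et_xi h hv hpq ho hz
    have k5 := v_ep h hv hpq ho hz
    have hξ : xiQ L (cT L Ω) BT z ≠ 0 := by
      intro h0
      rw [h0, map_zero] at k3
      exact zero_ne_one k3
    have hc := cT_ne h
    have hB := BT_ne
    have hX : Pool.Agent.Y698.Xx L z - Pool.Agent.Y698.Xx L (tB Ω) ≠ 0 := by
      intro h0
      rw [h0, mul_zero] at k1
      exact (mul_ne_zero hB hξ) k1.symm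
    have e : epQ L p q (cT L Ω) (bl * z) - 1 = (2 * epQ L p q (cT L Ω) z +
        (etQ L (cT L Ω) BT z - xiQ L (cT L Ω) BT z) * (xiQ L (cT L Ω) BT z)⁻¹ + al) * bl⁻¹ := by
      have e1 : ℘'[L] z / (Pool.Agent.Y698.Xx L z - Pool.Agent.Y698.Xx L (tB Ω)) =
          2 * etQ L (cT L Ω) BT z / (cT L Ω * xiQ L (cT L Ω) BT z) := by
        rw [div_eq_div_iff hX (mul_ne_zero hc hξ)]
        have e2 : BT * (℘'[L] z * (cT L Ω * xiQ L (cT L Ω) BT z)) = BT * (2 * etQ L (cT L Ω) BT z *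
            (Pool.Agent.Y698.Xx L z - Pool.Agent.Y698.Xx L (tB Ω))) := by
          have e3 : BT * (℘'[L] z * (cT L Ω * xiQ L (cT L Ω) BT z)) =
              ℘'[L] z * cT L Ω * (BT * xiQ L (cT L Ω) BT z) := by ring
          rw [e3, ← k1]
          unfold etQ
          field_simp
        exact mul_left_cancel₀ hB e2
      rw [e1] at h1
      unfold epQ at *
      have e4 : al = 1 - bl := by unfold bl; ring
      rw [e4]
      field_simp at h1 ⊢
      linear_combination h1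
    rw [e]
    refine O.m0 (O.add (O.add (O.two.m0 (O.zero_iff.2 k5)) (k4.m0 (O.inv k3))) (o_al hv))
      (O.inv (v_bl hv))
  obtain ⟨m, hm, hper⟩ := exists_per hL ho
  obtain ⟨m, rfl⟩ : ∃ k, m = k + 1 := ⟨m - 1, by omega⟩
  have key : ∀ m : ℕ, Od L (bl ^ m * z) ∧ bl ^ m * z ∉ L.lattice := by
    intro m
    induction m with
    | zero =>
      rw [pow_zero, one_mul]
      exact ⟨ho, hz⟩
    | succ m ih =>
      have e : bl ^ (m + 1) * z = bl * (bl ^ m * z) := by ring
      rw [e]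
      exact ⟨ih.1.bl hL, ih.1.bl_ne hL ih.2⟩
  obtain ⟨k1, k2⟩ := key m
  have k3 := step _ k1 k2
  have e : bl * (bl ^ m * z) = bl ^ (m + 1) * z := by ring
  rw [e] at k3
  have e2 : epQ L p q (cT L Ω) (bl ^ (m + 1) * z) = epQ L p q (cT L Ω) z := by
    unfold epQ
    rw [E1_per' hpq hz hper]
  rwa [e2] at k3

/-- the numbers of the congruence -/
theorem num_of (h : LD L Ω) (hv : v al < 1)
    (hpq : ∀ l ∈ L.lattice, eta L l = p * l + q * (starRingEnd ℂ) l) {z : ℂ} (ho : Od L z)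
    (hz : z ∉ L.lattice) {i r : ℂ} (H : IR i r) : Num v i (gg i r) (gg (-i) (-r)) al bl
      (xiQ L (cT L Ω) BT z) (etQ L (cT L Ω) BT z) (epQ L p q (cT L Ω) z) := by
  refine ⟨v_two_lt hv, H.i2, v_gg hv H, v_gg hv H.conj, v_bl hv, gg_sub hv H, gg_sq hv H, o_bl hv,
    ?_, O.of_eq (v_xi0 h hv hpq ho hz), O.of_eq (v_et h hv ho hz),
    O.zero_iff.2 (v_ep h hv hpq ho hz), ep_one h hv hpq ho hz, et_xi h hv hpq ho hz,
    v_xi h hv ho hz⟩
  have := (o_al hv).mul (o_al hv)
  rwa [← pow_two] at this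

end val

end Pool.Agent.N843.E
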