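import Pool.Agent.N843.Ee

/-!
# The congruence for the even weights
-/

set_option autoImplicit false
set_option linter.unusedSectionVars false
set_option linter.unusedSimpArgs false
set_option linter.unusedVariables false

open Filter
open scoped Topology PeriodPair

namespace Pool.Agent.N843.E

open H667R3 Pool.Agent.TH936.CW Pool.Agent.W192.HK Pool.Agent.Y690.NV Pool.Agent.TH936.PU
open Pool.Agent.N843
open Pool.Agent.Y698 (RR al al_sq al_ne bl bl_ne al_mul_bl LD tA tB aR aR_coe bR bR_coe cX cY co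
  co_uniq al_im_pos Xx_per Tb v_two v_two_lt v_bl fin_quot aR_mul_bR two_coe)
open Pool.Agent.TH936.CM (IsLat)
open MvPolynomial (eval C eval_C eval_X)

variable {L : PeriodPair} {Ω p q : ℂ}

/-- the sum over the points of order four -/
noncomputable def FS (L : PeriodPair) (p q Ω : ℂ) (n : ℕ) (z : ℂ) : ℂ :=
  (n.factorial : ℂ) * (cT L Ω ^ (2 * n + 1) * (ek L p q n (tP Ω + z) + ek L p q n (-tP Ω + z))) -
  (n.factorial : ℂ) * (cT L Ω ^ (2 * n + 1) * (ek L p q n (tM Ω + z) + ek L p q n (-tM Ω + z)))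

lemma Od.q_add {T z : ℂ} (h : Od L z) (h2 : 2 * T ∉ L.lattice) (h4 : 4 * T ∈ L.lattice) :
    T + z ∉ L.lattice := by
  obtain ⟨N, ⟨k, hk⟩, h3⟩ := h
  intro h5
  apply h2
  have h6 := nat_mul_mem (sub_mem (nat_mul_mem h5 N) h3) 2
  have h7 := nat_mul_mem h4 k
  have := sub_mem h6 h7
  convert this using 1
  rw [hk]
  push_cast
  ring

lemma Od.q_sub {T z : ℂ} (h : Od L z) (h2 : 2 * T ∉ L.lattice) (h4 : 4 * T ∈ L.lattice) :
    T - z ∉ L.lattice := by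
  rw [sub_eq_add_neg]
  exact Od.q_add h.neg h2 h4

lemma FS_lat (hL : IsLat L RR Ω) (hpq : ∀ l ∈ L.lattice, eta L l = p * l + q * (starRingEnd ℂ) l)
    (n : ℕ) {z : ℂ} (hz : z ∈ L.lattice) : FS L p q Ω n z = 0 := by
  unfold FS
  have key : ∀ T : ℂ, T ∉ L.lattice → ek L p q n (T + z) + ek L p q n (-T + z) = 0 := by
    intro T hT
    have hT' : -T ∉ L.lattice := fun h1 => hT (by
      have := neg_mem h1
      rwa [neg_neg] at this)
    have e1 : ek L p q n (T + z) = ek L p q n T := ek_per hpq n hT (by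
      rwa [add_sub_cancel_left])
    have e2 : ek L p q n (-T + z) = ek L p q n (-T) := ek_per hpq n hT' (by
      rwa [add_sub_cancel_left])
    rw [e1, e2, ekp_neg n hT]
    ring
  rw [key _ (tP_ne hL), key _ (tM_ne hL)]
  ring

section val

variable {Γ : Type*} [LinearOrderedCommGroupWithZero Γ] {v : Valuation ℂ Γ}

/-- the two points of evaluation are congruent modulo two -/
lemma two_of (h : LD L Ω) (hv : v al < 1) {i r : ℂ} (H : IR i r) {ξ η ε : ℂ}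
    (N : Num v i (gg i r) (gg (-i) (-r)) al bl ξ η ε) :
    Two v (4 * (8 - 3 * r)) (-i * (ξ + al ^ 2) / bl ^ 2) (-i * η / (gg i r * bl ^ 2)) (ε / gg i r)
      (4 * (8 - 3 * -r)) (-(-i) * (ξ + al ^ 2) / bl ^ 2)
      (-(-i) * η / (gg (-i) (-r) * bl ^ 2)) (ε / gg (-i) (-r)) := by
  have t := N.two
  have hb := N.b0
  have hg := N.g0
  have hg' := N.g0'
  obtain ⟨vi, vr, v1, v2⟩ := v_cor hv H
  have oi := O.of_eq vi
  have k0 := N.u_int
  obtain ⟨k4, k5⟩ := N.u_m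
  have eu : -(-i) * (ξ + al ^ 2) / bl ^ 2 = -(-i * (ξ + al ^ 2) / bl ^ 2) := by ring
  rw [eu]
  set u := -i * (ξ + al ^ 2) / bl ^ 2
  have ne : ∀ x : ℂ, v x = 1 → x ≠ 0 := fun x hx h0 => by
    rw [h0, map_zero] at hx
    exact zero_ne_one hx
  have n1 := ne _ k4
  have n2 := ne _ k5
  have e1 : (-u - 1)⁻¹ = -(u + 1)⁻¹ := by
    rw [show -u - 1 = -(u + 1) by ring, inv_neg]
  have vgb : v (gg i r * bl ^ 2) = 1 := by rw [map_mul, map_pow, N.g1, N.b1, one_pow, mul_one]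
  have vgb' : v (gg (-i) (-r) * bl ^ 2) = 1 := by
    rw [map_mul, map_pow, N.g1', N.b1, one_pow, mul_one]
  have e8 : v (8 + 3 * r) = v (8 - 3 * -r) := by
    congr 1
    ring
  refine ⟨?_, ?_, O.zero_iff.1 k0, O.zero_iff.1 k0.neg, ?_, ?_, ?_, ?_, ?_, ?_, ?_, ?_, ?_, ?_, ?_⟩
  · rw [map_mul, v1, mul_one]
  · rw [map_mul, ← e8, v2, mul_one]
  · rw [div_eq_mul_inv]
    exact O.zero_iff.1 ((oi.neg.m0 N.h).m0 (O.inv vgb))
  · rw [div_eq_mul_inv]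
    exact O.zero_iff.1 ((oi.neg.neg.m0 N.h).m0 (O.inv vgb'))
  · rw [div_eq_mul_inv]
    exact O.zero_iff.1 (N.e.m0 (O.inv N.g1))
  · rw [div_eq_mul_inv]
    exact O.zero_iff.1 (N.e.m0 (O.inv N.g1'))
  · exact O.zero_iff.1 (O.inv k4)
  · rw [e1]
    exact O.zero_iff.1 (O.inv k5).neg
  · have e : (4 : ℂ) * (8 - 3 * r) - 4 * (8 - 3 * -r) = 8 * (-3 * r) := by ring
    rw [e]
    have o3 := O.nat (v := v) 3
    push_cast at o3
    exact vm le_rfl (O.zero_iff.1 (o3.neg.m0 (O.of_eq vr)))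
  · have e : u - -u = 2 * u := by ring
    rw [e]
    exact vm le_rfl (O.zero_iff.1 k0)
  · have e : -i * η / (gg i r * bl ^ 2) - -(-i) * η / (gg (-i) (-r) * bl ^ 2) =
        -(i * η * ((gg i r - gg (-i) (-r)) + 2 * gg (-i) (-r)) *
          (gg i r * gg (-i) (-r) * bl ^ 2)⁻¹) := by
      field_simp
      ring
    rw [e]
    have : O v 1 (-(i * η * ((gg i r - gg (-i) (-r)) + 2 * gg (-i) (-r)) *
          (gg i r * gg (-i) (-r) * bl ^ 2)⁻¹)) := by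
      refine (((oi.m0 N.h).m0' ((N.dg.mono t.le (by norm_num)).add
        (O.two.m0 (O.of_eq N.g1')))).m0 (O.inv ?_)).neg
      rw [map_mul, map_mul, map_pow, N.g1, N.g1', N.b1, one_pow, mul_one, mul_one]
    unfold O at this
    rwa [pow_one] at this
  · have e : ε / gg i r - ε / gg (-i) (-r) =
        -((gg i r - gg (-i) (-r)) * (ε * (gg i r * gg (-i) (-r))⁻¹)) := by
      field_simp
      ring
    rw [e]
    have : O v 1 (-((gg i r - gg (-i) (-r)) * (ε * (gg i r * gg (-i) (-r))⁻¹))) := by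
      refine O.neg ((N.dg.mono t.le (by norm_num)).m0 (N.e.m0 (O.inv ?_)))
      rw [map_mul, N.g1, N.g1', mul_one]
    unfold O at this
    rwa [pow_one] at this
  · rw [e1]
    have e : (u - 1)⁻¹ - -(u + 1)⁻¹ = 2 * (u * ((u - 1)⁻¹ * (u + 1)⁻¹)) := by
      field_simp
      ring
    rw [e]
    exact vm le_rfl (O.zero_iff.1 (k0.m0 ((O.inv k4).m0 (O.inv k5))))

lemma Sg_int {ψ : ℂ} (hψ : v ψ ≤ v 4) {M : ℕ → ℂ} (hM : ∀ n, v (M n) ≤ 1) (n : ℕ) :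
    v (Sg ψ M n) ≤ 1 := by
  have hv4 : v (4 : ℂ) ≤ 1 := by
    have := v_nat (v := v) 4
    exact_mod_cast this
  have k1 := Sg_cong hψ hv4 hM n
  have e : Sg ψ M n = (Sg ψ M n - M n) + M n := by ring
  rw [e]
  exact v_add_le (k1.trans hv4) (hM n)

/-- **the congruence for the even weights** -/
theorem FS_cong (h : LD L Ω) (hv : v al < 1)
    (hpq : ∀ l ∈ L.lattice, eta L l = p * l + q * (starRingEnd ℂ) l) (n : ℕ) {z : ℂ}
    (ho : Od L z) : O v 4 (FS L p q Ω (2 * n + 1) z - 2 * io L Ω * HD L p q Ω z) := by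
  have hL := h.lat
  by_cases hz : z ∈ L.lattice
  · unfold HD
    rw [FS_lat hL hpq _ hz, HS_lat hz, HS_lat (al_mem hL hz)]
    unfold O
    rw [mul_zero, sub_self, mul_zero, sub_self, map_zero]
    exact zero_le
  have H := ir_LD h
  have N := num_of h hv hpq ho hz H
  have t := N.two
  have hz' := ho.al_ne hL hz
  have v1 := v_xi h hv ho hz
  have v2 := v_xi h hv (ho.al hL) hz'
  have ne : ∀ x : ℂ, v x = 1 → x ≠ 0 := fun x hx h0 => by
    rw [h0, map_zero] at hx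
    exact zero_ne_one hx
  obtain ⟨-, kHD⟩ := HD_eq h hpq ho hz (ne _ v1) (ne _ v2)
  rw [kHD]
  -- the two values
  have q1' := (H.val h hpq (tP_two hL) (tP_four hL) wp_tP hz (Od.q_add ho (tP_two hL) (tP_four hL))
    (Od.q_sub ho (tP_two hL) (tP_four hL)) (2 * n + 1))
  have q2' := (H.conj.val h hpq (tM_two hL) (tM_four hL) (wp_tM h) hz
    (Od.q_add ho (tM_two hL) (tM_four hL)) (Od.q_sub ho (tM_two hL) (tM_four hL)) (2 * n + 1))
  unfold FS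
  rw [q1', q2']
  -- the relations
  have r1 : (-io L Ω * etQ L (cT L Ω) BT z / (gg (io L Ω) (rho L Ω) * bl ^ 2)) ^ 2 =
      (-io L Ω * (xiQ L (cT L Ω) BT z + al ^ 2) / bl ^ 2) ^ 2 + (4 * (8 - 3 * rho L Ω)) *
      (-io L Ω * (xiQ L (cT L Ω) BT z + al ^ 2) / bl ^ 2) *
      (-io L Ω * (xiQ L (cT L Ω) BT z + al ^ 2) / bl ^ 2 - 1) ^ 2 := by
    rw [← H.xi h z, ← H.et h z]
    rcases H.tq h hpq (tP_two hL) (tP_four hL) wp_tP with hT | hT
    · exact rel_Q hT (Or.inl rfl) hz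
    · exact rel_Q hT (Or.inl rfl) hz
  have r2 : (-(-io L Ω) * etQ L (cT L Ω) BT z / (gg (-io L Ω) (-rho L Ω) * bl ^ 2)) ^ 2 =
      (-(-io L Ω) * (xiQ L (cT L Ω) BT z + al ^ 2) / bl ^ 2) ^ 2 + (4 * (8 - 3 * -rho L Ω)) *
      (-(-io L Ω) * (xiQ L (cT L Ω) BT z + al ^ 2) / bl ^ 2) *
      (-(-io L Ω) * (xiQ L (cT L Ω) BT z + al ^ 2) / bl ^ 2 - 1) ^ 2 := by
    rw [← H.conj.xi h z, ← H.conj.et h z]
    rcases H.conj.tq h hpq (tM_two hL) (tM_four hL) (wp_tM h) with hT | hT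
    · exact rel_Q hT (Or.inl rfl) hz
    · exact rel_Q hT (Or.inl rfl) hz
  have TT := two_of h hv H N
  set ξ := xiQ L (cT L Ω) BT z
  set η := etQ L (cT L Ω) BT z
  set ε := epQ L p q (cT L Ω) z
  set i := io L Ω
  set r := rho L Ω
  obtain ⟨vi, vr, v3, v4⟩ := v_cor hv H
  obtain ⟨k4, k5⟩ := N.u_m
  have eu : -(-i) * (ξ + al ^ 2) / bl ^ 2 = -(-i * (ξ + al ^ 2) / bl ^ 2) := by ring
  have n1 := ne _ k4
  have n2 : -(-i) * (ξ + al ^ 2) / bl ^ 2 - 1 ≠ 0 := by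
    rw [eu]
    intro h0
    exact ne _ k5 (by linear_combination -h0)
  have h40 : v (4 : ℂ) ≠ 0 := by rw [v_four hv]; exact pow_ne_zero _ v_al0
  have pψ : ∀ s : ℂ, v s = 1 → v (56 - 148 * s / 7) ≤ v 4 := by
    intro s hs
    have e : 56 - 148 * s / 7 = 4 * (14 - 37 * s * 7⁻¹) := by ring
    rw [e]
    have o1 := O.nat (v := v) 14
    have o2 := O.nat (v := v) 37
    push_cast at o1 o2
    exact vm le_rfl (O.zero_iff.1 (o1.sub ((o2.m0 (O.of_eq hs)).m0 (O.inv (v_seven hv)))))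
  have dψ : v ((56 - 148 * r / 7) - (56 - 148 * -r / 7)) ≤ v 8 := by
    have e : (56 - 148 * r / 7) - (56 - 148 * -r / 7) = 8 * (-(37 * r * 7⁻¹)) := by ring
    rw [e]
    have o2 := O.nat (v := v) 37
    push_cast at o2
    exact vm le_rfl (O.zero_iff.1 ((o2.m0 (O.of_eq vr)).m0 (O.inv (v_seven hv))).neg)
  have vr' : v (-r) = 1 := by rw [Valuation.map_neg]; exact vr
  have S := S_two TT h40 n1 n2 r1 r2 (pψ r vr) (pψ (-r) vr') dψ n
  have hM2 : ∀ k, v (eval (ptQ (4 * (8 - 3 * -r)) (-(-i) * (ξ + al ^ 2) / bl ^ 2)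
      (-(-i) * η / (gg (-i) (-r) * bl ^ 2)) (ε / gg (-i) (-r))) (Mq aM k)) ≤ 1 := fun k =>
    ev_WW TT.b0' TT.x' TT.h' TT.e' TT.t' (Mq_mem aM_mem k).1
  have i2 := Sg_int (pψ (-r) vr') hM2 (2 * n + 1)
  set S1 := Sg (56 - 148 * r / 7) (fun k => eval (ptQ (4 * (8 - 3 * r))
    (-i * (ξ + al ^ 2) / bl ^ 2) (-i * η / (gg i r * bl ^ 2)) (ε / gg i r)) (Mq aM k)) (2 * n + 1)
  set S2 := Sg (56 - 148 * -r / 7) (fun k => eval (ptQ (4 * (8 - 3 * -r))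
    (-(-i) * (ξ + al ^ 2) / bl ^ 2) (-(-i) * η / (gg (-i) (-r) * bl ^ 2)) (ε / gg (-i) (-r)))
    (Mq aM k)) (2 * n + 1)
  have o8 : v (8 : ℂ) = v 2 ^ 3 := by
    rw [← map_pow]
    norm_num
  rw [o8] at S
  have S' : O v 3 ((S1 - S2) - (eval (ptQ (4 * (8 - 3 * r)) (-i * (ξ + al ^ 2) / bl ^ 2)
    (-i * η / (gg i r * bl ^ 2)) (ε / gg i r)) (if n = 0 then q1 else q3) -
    eval (ptQ (4 * (8 - 3 * -r)) (-(-i) * (ξ + al ^ 2) / bl ^ 2)
      (-(-i) * η / (gg (-i) (-r) * bl ^ 2)) (ε / gg (-i) (-r))) (if n = 0 then q1 else q3))) := S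
  have D1 := N.diff1 (2 * n + 1) _ rfl
  have D2 := N.diff2 _ rfl
  -- the difference of the values
  have Q : O v 3 ((eval (ptQ (4 * (8 - 3 * r)) (-i * (ξ + al ^ 2) / bl ^ 2)
    (-i * η / (gg i r * bl ^ 2)) (ε / gg i r)) (if n = 0 then q1 else q3) -
    eval (ptQ (4 * (8 - 3 * -r)) (-(-i) * (ξ + al ^ 2) / bl ^ 2)
      (-(-i) * η / (gg (-i) (-r) * bl ^ 2)) (ε / gg (-i) (-r))) (if n = 0 then q1 else q3)) -
    (eval (ptQ (4 * (8 - 3 * r)) (-i * (ξ + al ^ 2) / bl ^ 2)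
    (-i * η / (gg i r * bl ^ 2)) (ε / gg i r)) q1 -
    eval (ptQ (4 * (8 - 3 * -r)) (-(-i) * (ξ + al ^ 2) / bl ^ 2)
      (-(-i) * η / (gg (-i) (-r) * bl ^ 2)) (ε / gg (-i) (-r))) q1)) := by
    split_ifs with h0
    · unfold O
      rw [sub_self, map_zero]
      exact zero_le
    · rw [ev_q3, ev_q3, eu]
      have e2 : -(-i) * η / (gg (-i) (-r) * bl ^ 2) = i * η / (gg (-i) (-r) * bl ^ 2) := by ring
      rw [e2]
      convert D2 using 1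
      ring
  rw [ev_q1, ev_q1, eu] at Q
  have e2 : -(-i) * η / (gg (-i) (-r) * bl ^ 2) = i * η / (gg (-i) (-r) * bl ^ 2) := by ring
  rw [eu, e2] at S'
  rw [e2] at Q
  set q1v := eval (ptQ (4 * (8 - 3 * r)) (-i * (ξ + al ^ 2) / bl ^ 2)
    (-i * η / (gg i r * bl ^ 2)) (ε / gg i r)) (if n = 0 then q1 else q3)
  set q2v := eval (ptQ (4 * (8 - 3 * -r)) (-(-i * (ξ + al ^ 2) / bl ^ 2))
      (i * η / (gg (-i) (-r) * bl ^ 2)) (ε / gg (-i) (-r))) (if n = 0 then q1 else q3)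
  set u := -i * (ξ + al ^ 2) / bl ^ 2
  have og := O.of_eq N.g1
  have dgm : O v 3 (gg i r ^ (2 * (2 * n + 1) + 1) - gg (-i) (-r) ^ (2 * (2 * n + 1) + 1)) :=
    pow_sub_le N.g1.le N.g1'.le N.dg _
  have A1 : O v 4 (2 * ((gg i r ^ (2 * (2 * n + 1) + 1) - gg (-i) (-r) ^ (2 * (2 * n + 1) + 1)) *
      S2)) := (O.two (v := v)).mul (dgm.m0 (O.zero_iff.2 i2))
  have A2 : O v 4 (2 * (gg i r ^ (2 * (2 * n + 1) + 1) * ((S1 - S2) - (q1v - q2v)))) :=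
    (O.two (v := v)).mul ((og.pow _).m0' S')
  have A3 := (O.two (v := v)).mul ((og.pow (2 * (2 * n + 1) + 1)).m0' Q)
  have e3 : 2 * gg i r ^ (2 * (2 * n + 1) + 1) * S1 - 2 * gg (-i) (-r) ^ (2 * (2 * n + 1) + 1) * S2 -
      2 * i * (2 * (η / ((ξ - 1) * (ξ - 1 + 2)))) =
      2 * ((gg i r ^ (2 * (2 * n + 1) + 1) - gg (-i) (-r) ^ (2 * (2 * n + 1) + 1)) * S2) +
      2 * (gg i r ^ (2 * (2 * n + 1) + 1) * ((S1 - S2) - (q1v - q2v))) +
      2 * (gg i r ^ (2 * (2 * n + 1) + 1) * ((q1v - q2v) - ((2 * (u - 1)⁻¹ * (ε / gg i r) -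
        (u - 1)⁻¹ ^ 2 * (-i * η / (gg i r * bl ^ 2)) + 2 * (u - 1)⁻¹ ^ 2 * (ε / gg i r)) -
        (2 * (-u - 1)⁻¹ * (ε / gg (-i) (-r)) - (-u - 1)⁻¹ ^ 2 *
        (i * η / (gg (-i) (-r) * bl ^ 2)) + 2 * (-u - 1)⁻¹ ^ 2 * (ε / gg (-i) (-r)))))) +
      (2 * gg i r ^ (2 * (2 * n + 1) + 1) * ((2 * (u - 1)⁻¹ * (ε / gg i r) -
        (u - 1)⁻¹ ^ 2 * (-i * η / (gg i r * bl ^ 2)) + 2 * (u - 1)⁻¹ ^ 2 * (ε / gg i r)) -
        (2 * (-u - 1)⁻¹ * (ε / gg (-i) (-r)) - (-u - 1)⁻¹ ^ 2 *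
        (i * η / (gg (-i) (-r) * bl ^ 2)) + 2 * (-u - 1)⁻¹ ^ 2 * (ε / gg (-i) (-r)))) -
        2 * i * (2 * (η / ((ξ - 1) * (ξ - 1 + 2))))) := by ring
  rw [e3]
  exact ((A1.add A2).add A3).add D1

end val

end Pool.Agent.N843.E
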