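import Pool.Agent.N843.Xc

/-!
# The nonvanishing of the sums and of the central values, all families
-/

set_option autoImplicit false
set_option linter.unusedSectionVars false
set_option linter.unusedSimpArgs false

open Filter
open scoped Topology PeriodPair

namespace Pool.Agent.N843.X

open H667R3 Pool.Agent.TH936.CW Pool.Agent.W192.HK Pool.Agent.Y690.NV Pool.Agent.TH936.PU
open Pool.Agent.N843
open Pool.Agent.Y698 (RR al al_sq al_ne bl bl_ne al_mul_bl LD tA tB aR aR_coe bR bR_coe cX cY co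
  co_uniq al_im_pos Xx_per Tb v_two v_two_lt v_bl fin_quot aR_mul_bR two_coe nR cj mul_cj cj_coe
  nR_mul e7 e7_per e7_mul e7_neg e7_one e7_eq_zero e7_sq fR fR_ne fR_sq irr_fR)
open Pool.Agent.Y698.SG (Pe Mu Rd sy sy_per hc hc_val hcprod tr v_RR gd mc mr S_REC lg)
open Pool.Agent.TH936.CM (IsLat Dd)
open Pool.Agent.W192.CM (nu)
open Pool.Agent.R426.QD (Pn Fa r4 r4_zero tp nb nb_or nb_r4 Lv pe C7 fa_ext c7_cop sy_fR)
open Pool.Agent.R426.QC (sy_negm)


variable {L : PeriodPair} {Ω p q : ℂ}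
variable {ι : Type} [DecidableEq ι] {π : ι → RR}

/-- the families of the even type prime to `√-7` -/
structure Fe (S : Finset ι) (π : ι → RR) : Prop where
  fa : Fa S π
  c7 : C7 S π
  tp : ∑ i ∈ S, tp (π i) = 0

lemma Fe.of {S : Finset ι} (h : Pool.Agent.R426.QD.Ev S π) : Fe S π := ⟨h.fa, h.c7, h.tp⟩

/-- the quadratic character -/
noncomputable def ch (π : ι → RR) (S : Finset ι) (m : RR) : ℂ := ∏ i ∈ S, sy (π i) m

/-- the determinant of the extended family -/
lemma gd_ext {S : Finset ι} (h : Fe S π) :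
    gd (fun o => tp (pe π o)) (fun o o' => lg (sy (pe π o) (pe π o'))) S.insertNone =
      gd (mc π) (mr π) S := by
  obtain ⟨hS, h7, ht⟩ := h
  have hrel : ∀ i ∈ S, ∀ j ∈ S, i ≠ j → mr π i j + mr π j i = tp (π i) * tp (π j) := by
    intro i hi j hj hij
    have := Pool.Agent.R426.QD.rel_sy hS hi hj hij
    unfold mr
    rw [add_comm]
    exact this
  exact Pool.Agent.R426.QD.gd_insert (A := S) (t := fun i => tp (π i)) (c := mc π) (r := mr π)
    (t' := fun o => tp (pe π o)) (r' := fun o o' => lg (sy (pe π o) (pe π o'))) ht hrel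
    (by
      show tp (-fR) = 1
      exact (Pool.Agent.R426.QD.p3_fR.negp).tp)
    (fun i _ => rfl)
    (fun j _ => by
      show lg (sy (-fR) (π j)) = mc π j
      rw [sy_negm, sy_fR]
      rfl)
    (fun i hi => by
      show lg (sy (π i) (-fR)) = tp (π i) + mc π i
      have hp := hS.pn i hi
      rw [Pool.Agent.R426.QD.lg_neg' hp.pr hp.od (h7 i hi).2, hp.seven (h7 i hi).1 (h7 i hi).2]
      rfl)
    (fun i _ j _ _ => rfl)

lemma prod_ext {S : Finset ι} : ∏ o ∈ S.insertNone, pe π o = -fR * ∏ i ∈ S, π i := by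
  rw [Finset.prod_insertNone]
  rfl

lemma chi_ext {S : Finset ι} (m : RR) : ∏ o ∈ S.insertNone, sy (pe π o) m =
    e7 m * ch π S m := by
  rw [Finset.prod_insertNone]
  show sy (-fR) m * _ = _
  rw [sy_negm, sy_fR]
  rfl

section val

variable {Γ : Type*} [LinearOrderedCommGroupWithZero Γ] {v : Valuation ℂ Γ}
variable (hv : v al < 1)
include hv

/-- the sums of the depleted numbers of weight one -/
lemma v_bqGD_eq (hrec : S_REC) (h : LD L Ω)
    (hpq : ∀ l ∈ L.lattice, eta L l = p * l + q * (starRingEnd ℂ) l) {S : Finset ι}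
    (hS : Fe S π) (hg : gd (mc π) (mr π) S ≠ 0) (h1 : ch π S aR = 1) (h2 : ch π S bR = 1) :
    v (bq Ω (GD L p q Ω) (pe π) S.insertNone) = v 4 := by
  have hL := h.lat
  have hE := fa_ext hS.fa hS.c7
  obtain ⟨m, hN⟩ := lv_S0 hv hE
  have k1 := rd_Wm hv hrec h hE hN (Finset.Subset.refl _) ⟨none, Finset.none_mem_insertNone⟩
  rw [gd_ext hS, (Pool.Agent.Y698.SG.zm2 _).resolve_left hg, Rd.one_iff] at k1
  rw [bq_GD_eq hv hL hpq hE (Finset.Subset.refl _) hN, chi_ext, chi_ext, h1, h2, e7_aR, e7_bR,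
    mul_one, map_mul, map_mul, map_mul, v_c2 hv h, one_mul, v_bl_sub_one hv, v_four2 hv]
  set a := Pool.Agent.R426.QD.Bd Ω (Pool.Agent.R426.QD.Wm L Ω m) (∏ i ∈ S.insertNone, pe π i)
    (fun m => ∏ i ∈ S.insertNone, sy (pe π i) m) / 2 ^ S.insertNone.card
  have e : a = 1 + (a - 1) := by ring
  rw [e, v.map_one_add_of_lt k1, mul_one]

/-- **the nonvanishing of the sums** -/
theorem nv_sums (hrec : S_REC) (h : LD L Ω)
    (hpq : ∀ l ∈ L.lattice, eta L l = p * l + q * (starRingEnd ℂ) l) (n : ℕ) {S : Finset ι}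
    (hS : Fe S π) (hg : gd (mc π) (mr π) S ≠ 0) (h1 : ch π S aR = 1) (h2 : ch π S bR = 1) :
    Pool.Agent.R426.QD.Bd Ω (E0 L p q (2 * n)) (-fR * ∏ i ∈ S, π i) (fun x => e7 x * ch π S x) ≠ 0 := by
  have hL := h.lat
  have hE := fa_ext hS.fa hS.c7
  have hNo := fa_no hE
  have t2 := v_two_lt hv
  have efun : (fun m => ∏ o ∈ S.insertNone, sy (pe π o) m) = fun x => e7 x * ch π S x :=
    funext fun m => chi_ext m
  intro h0
  rw [← prod_ext, ← efun] at h0
  have hper : Pe (∏ o ∈ S.insertNone, pe π o) (fun m => ∏ o ∈ S.insertNone, sy (pe π o) m) :=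
    Pe.prod fun p _ => sy_per (pe π p)
  have s1 := sq_one_of (chi_unit hE (x := bR) fun i hi => pn_bR (hE.pn i hi))
  have s2 := sq_one_of (chi_unit hE (x := aR) fun i hi => pn_aR (hE.pn i hi))
  have k4 := v_bqGD_eq hv hrec h hpq hS hg h1 h2
  have h40 : 0 < v (4 : ℂ) := zero_lt_iff.2 (by rw [v_four hv]; exact pow_ne_zero _ v_al0)
  rcases n with _ | n
  · have k0 : bq Ω (GD L p q Ω) (pe π) S.insertNone = 0 := by
      unfold bq
      rw [mul_zero] at h0
      rw [bq_GD hL hpq hNo hE.prod_ne dvd_rfl hper (chi_mul hE) s1 s2, h0, mul_zero, zero_div]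
    rw [k0, map_zero] at k4
    exact h40.ne k4
  · have e2 : 2 * (n + 1) = 2 * n + 2 := by ring
    rw [e2] at h0
    have k0 : bq Ω (G L p q Ω (2 * n + 2)) (pe π) S.insertNone = 0 := by
      unfold bq
      rw [bq_G hL hpq _ hNo hE.prod_ne dvd_rfl hper (chi_mul hE) s1, h0, mul_zero, zero_div]
    have k5 := indX hv hrec h hpq n hE S.insertNone (Finset.Subset.refl _)
    rw [k0, zero_sub, Valuation.map_neg, k4, v_eight hv] at k5
    have k6 : v (2 : ℂ) * v 4 < v 4 := by
      calc v 2 * v 4 < 1 * v 4 := mul_lt_mul_of_pos_right t2 h40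
        _ = v 4 := one_mul _
    exact absurd k5 (not_le.2 k6)

end val

/-! ### the link with the L-function -/

/-- the nonvanishing of the central value follows from that of the finite sum -/
theorem nonvanG (hbasic : H_BASIC) (hfp : H_FP) (hcnt : H_CNT) (hdec : H_DEC) (hafe : H_AFE)
    (h : LD L Ω) (hpq : ∀ l ∈ L.lattice, eta L l = p * l + q * (starRingEnd ℂ) l)
    {μ : RR} {x : RR → ℂ} (hx : Cx μ x) (e : ℕ) (hne : Pool.Agent.R426.QD.Bd Ω (E0 L p q e) μ x ≠ 0) :
    NZ1 x e := by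
  classical
  have hL := h.lat
  have hθ := hx.hc e
  set θ := tw x (2 * e + 1) with hθd
  have hμ : μ ≠ 0 := hx.ne
  have hμC := Pool.Agent.TH936.PU.coe_ne hμ
  have hQR := Pool.Agent.Y698.qr
  obtain ⟨b1, b2, b3, b4, b5, b6, b7, -, -⟩ := hbasic RR al hQR
  have f1 := fin_quot hμ
  let _ : Fintype (RR ⧸ sp μ) := Fintype.ofFinite _
  obtain ⟨T, hSys⟩ : ∃ T : Finset RR, Sys (sp μ) {⊤} ⊤ μ T := by
    refine ⟨Finset.univ.image (fun x : RR ⧸ sp μ => x.out), ?_⟩
    refine ⟨⟨?_, ?_⟩, ?_, ?_, ?_, ?_, ?_, ⟨?_, ?_⟩⟩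
    · intro b hb
      rw [Finset.mem_singleton] at hb
      rw [hb]
      exact top_ne_bot
    · intro J hJ
      refine ⟨⊤, ⟨Finset.mem_singleton_self _, ?_⟩, ?_⟩
      · obtain ⟨α, hα⟩ := (IsPrincipalIdealRing.principal J).principal
        exact ⟨α, by rw [Ideal.mul_top]; exact hα⟩
      · rintro b ⟨hb, -⟩
        exact Finset.mem_singleton.mp hb
    · intro b hb
      rw [Finset.mem_singleton] at hb
      rw [hb, ← Ideal.one_eq_top]
      exact isCoprime_one_left
    · intro b hb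
      rw [Finset.mem_singleton] at hb
      rw [hb]
    · exact top_ne_bot
    · rw [← Ideal.one_eq_top]
      exact isCoprime_one_left
    · rw [Ideal.mul_top]
    · intro x _
      exact Submodule.mem_top
    · intro α
      refine ⟨(Ideal.Quotient.mk (sp μ) α).out,
        ⟨Finset.mem_image_of_mem _ (Finset.mem_univ _), ?_⟩, ?_⟩
      · exact out_mk (sp μ) α
      · rintro y ⟨hy, hy2⟩
        obtain ⟨x, -, rfl⟩ := Finset.mem_image.mp hy
        have h1 : Ideal.Quotient.mk (sp μ) α = x := by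
          rw [← Ideal.Quotient.mk_eq_mk_iff_sub_mem, Ideal.Quotient.mk_out] at hy2
          exact hy2
        rw [h1]
  obtain ⟨F, hF1, hF2, hF3⟩ := lim_LK hbasic hfp hcnt hdec hafe hQR hθ hSys
  refine ⟨F, hF1, hF2, fun hF0 => hne ?_⟩
  have hθ1 : θ ⊤ = 1 := by
    have h1 := hθ.princ 1 one_ne_zero (by rw [sub_self]; exact (sp _).zero_mem)
    have h2 : sp (1 : RR) = ⊤ := Ideal.span_singleton_one
    rw [h2] at h1
    rw [h1]
    have h3 : ((1 : RR) : ℂ) = 1 := rfl
    rw [h3, one_pow]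
  have hnm : nm (⊤ : Ideal RR) = 1 := (b7 ⊤).mpr rfl
  rw [hF0, map_zero, mul_zero] at hF3
  have hlim : Tendsto (fun δ : ℝ => SK e (ck e θ ⊤) δ) (𝓝[>] 0) (𝓝 0) := by
    refine hF3.congr fun δ => ?_
    rw [Finset.sum_singleton, hθ1, hnm]
    simp
  set c : RR → ℂ := ck e θ ⊤ with hc
  have hx0 : x 0 = 0 := by
    have := hx.neg 0
    rw [neg_zero] at this
    linear_combination (1 / 2 : ℂ) * this
  have hcv : ∀ r : RR, c r = x r := by
    intro r
    rw [hc]
    unfold ck fp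
    rw [if_pos Submodule.mem_top, hθd, hx.tw_sp, mul_pow, hx.pow_odd]
    by_cases hr : r = 0
    · rw [hr, hx0]
      simp
    · rw [mul_div_cancel_right₀ _ (pow_ne_zero _ (Pool.Agent.TH936.PU.coe_ne hr))]
      by_cases hcop : IsCoprime r μ
      · rcases hx.sgn r hcop with h1 | h1 <;> rw [h1] <;> simp
      · rw [(hx.zero r).2 hcop, map_zero]
  have hcper : ∀ a b : RR, a - b ∈ sp μ → c a = c b := by
    intro a b h
    rw [hcv, hcv, hx.per a b h]
  have hc0 : ∀ a ∈ sp μ, c a = 0 := by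
    intro a ha
    rw [hcv, ← hx0]
    exact hx.per _ _ (by rwa [sub_zero])
  have hc1 : ∀ a : RR, ‖c a‖ ≤ 1 := by
    intro a
    rw [hcv]
    by_cases hcop : IsCoprime a μ
    · rcases hx.sgn a hcop with h1 | h1 <;> rw [h1] <;> simp
    · rw [(hx.zero a).2 hcop, norm_zero]
      exact zero_le_one
  have hval := valuep hpq hbasic hQR hL e μ hμ c hcper hc0 hc1 hlim
  have hΩ := hL.ne
  have hκ : gg e ((starRingEnd ℂ) ((μ : ℂ) / Ω)) ((μ : ℂ) / Ω) ≠ 0 := by
    have h : (μ : ℂ) / Ω ≠ 0 := div_ne_zero hμC hΩ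
    unfold gg
    exact mul_ne_zero (pow_ne_zero _ ((map_ne_zero _).2 h)) (pow_ne_zero _ (inv_ne_zero h))
  have hqe : (q ^ e)⁻¹ ≠ 0 := inv_ne_zero (pow_ne_zero _ (q_ne hpq))
  have hs : ∑ x : RR ⧸ sp μ, c x.out * ek L p q e (Ω * x.out / μ) = 0 := by
    have h1 := (mul_eq_zero.1 hval.symm).resolve_left hκ
    exact (mul_eq_zero.1 h1).resolve_left hqe
  rw [Pool.Agent.R426.QD.Bd_eq, ← hs]
  refine Finset.sum_congr rfl fun y _ => ?_
  by_cases hy : y.out ∈ sp μ
  · rw [hc0 _ hy, E0_lat ((div_mem_iff hL hμ _).2 hy), mul_zero, zero_mul]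
  · rw [hcv, E0_of (fun h => hy ((div_mem_iff hL hμ _).1 h))]

/-- the change of the sign of the modulus -/
lemma bq_negm (hL : IsLat L RR Ω) {N : RR} {lam : RR → ℂ} {W : ℂ → ℂ} (hW : Pool.Agent.R426.QD.Ds L Ω N lam W)
    (ho : ∀ z, W (-z) = -W z) {n : RR} (hn : n ≠ 0) {φ : RR → ℂ} (hφ : Pe n φ) :
    Pool.Agent.R426.QD.Bd Ω W (-n) φ = -Pool.Agent.R426.QD.Bd Ω W n φ := by
  have hn' : -n ≠ 0 := neg_ne_zero.2 hn
  have f1 := fin_quot hn
  have f2 := fin_quot hn'
  let _ : Fintype (RR ⧸ sp n) := Fintype.ofFinite _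
  let _ : Fintype (RR ⧸ sp (-n)) := Fintype.ofFinite _
  have esp : sp (-n) = sp n := Ideal.span_singleton_neg _
  have hφ' : Pe (-n) φ := fun x y hxy => hφ x y (by rwa [← esp])
  have hb : Function.Bijective (fun x : RR ⧸ sp n => Ideal.Quotient.mk (sp (-n)) x.out) := by
    rw [esp]
    have e1 : (fun x : RR ⧸ sp n => Ideal.Quotient.mk (sp n) x.out) = id := by
      funext x
      exact Ideal.Quotient.mk_out x
    rw [e1]
    exact Function.bijective_id
  rw [Pool.Agent.R426.QD.Bd_eq, Pool.Agent.R426.QD.Bd_eq,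
    sum_rep (I := sp (-n)) (fun x : RR ⧸ sp n => x.out) hb
      (fun x : RR => φ x * W (Ω * x / ((-n : RR) : ℂ)))
      (fun x y h => Pool.Agent.R426.QD.Bd_term hW hL hn' hφ' h), ← Finset.sum_neg_distrib]
  refine Finset.sum_congr rfl fun x _ => ?_
  have e : Ω * x.out / ((-n : RR) : ℂ) = -(Ω * x.out / (n : ℂ)) := by
    push_cast
    rw [div_neg]
  rw [e, ho]
  ring

/-! ### the character -/

theorem cx_ev {S : Finset ι} (hS : Fe S π) :
    Cx (fR * ∏ i ∈ S, π i) (fun g => e7 g * ch π S g) := by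
  obtain ⟨hf, h7, ht⟩ := hS
  have hcf : IsCoprime fR (∏ i ∈ S, π i) := c7_cop h7
  have hμ : fR * ∏ i ∈ S, π i ≠ 0 := mul_ne_zero fR_ne hf.prod_ne
  have hcop : ∀ g : RR, IsCoprime g (fR * ∏ i ∈ S, π i) ↔ g ∉ sp fR ∧ ∀ i ∈ S, g ∉ sp (π i) := by
    intro g
    rw [IsCoprime.mul_right_iff, cop_prime irr_fR.prime, IsCoprime.prod_right_iff]
    refine and_congr_right fun _ => forall_congr' fun i => forall_congr' fun hi => ?_
    exact cop_prime (hf.pn i hi).pr
  have hval : ∀ a, IsCoprime a (fR * ∏ i ∈ S, π i) → e7 a * ch π S a = 1 ∨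
      e7 a * ch π S a = -1 := by
    intro a ha
    rw [hcop] at ha
    exact Pool.Agent.Y698.SG.sgn_mul (e7_val ha.1) (chi_unit hf ha.2)
  have hper7 : Pe fR e7 := fun x y h => e7_per h
  have hperc : Pe (∏ i ∈ S, π i) (ch π S) := Pe.prod fun p _ => sy_per (π p)
  have hper : Pe (fR * ∏ i ∈ S, π i) (fun g => e7 g * ch π S g) :=
    (hper7.mono (Dvd.intro _ rfl)).mul (hperc.mono (Dvd.intro_left _ rfl))
  have hone : ch π S 1 = 1 := Finset.prod_eq_one fun i hi =>
    Pool.Agent.R426.QD.sy_oneO (hf.pn i hi).pr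
  refine ⟨hμ, ?_, ?_, ?_, hper, ?_, hval, ?_⟩
  · intro a b
    have h1 := chi_mul hf a b
    show e7 (a * b) * ch π S (a * b) = e7 a * ch π S a * (e7 b * ch π S b)
    rw [e7_mul]
    unfold ch
    rw [h1]
    ring
  · show e7 1 * ch π S 1 = 1
    rw [e7_one, one_mul, hone]
  · intro a
    show e7 (-a) * ch π S (-a) = -(e7 a * ch π S a)
    have h1 := Pool.Agent.R426.QD.prod_sy_neg hf ht a
    unfold ch
    rw [h1, e7_neg]
    ring
  · intro a
    constructor
    · intro h1 h2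
      rcases hval a h2 with h3 | h3
      · rw [h3] at h1; exact one_ne_zero h1
      · rw [h3] at h1; norm_num at h1
    · intro h1
      rw [hcop, not_and_or] at h1
      show e7 a * ch π S a = 0
      rcases h1 with h1 | h1
      · rw [not_not] at h1
        rw [e7_eq_zero.2 h1, zero_mul]
      · push Not at h1
        obtain ⟨i, hi, h2⟩ := h1
        have : ch π S a = 0 := Finset.prod_eq_zero hi (Pool.Agent.R426.QC.sy_zero_iff.2 h2)
        rw [this, mul_zero]
  · intro m hm hm2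
    obtain ⟨k, hk⟩ := hm
    have hk0 : k ≠ 0 := by
      rintro rfl
      rw [mul_zero] at hk
      exact hμ hk
    have hku : ¬ IsUnit k := by
      intro hu
      apply hm2
      rw [hk]
      exact (IsUnit.mul_right_dvd hu).2 dvd_rfl
    obtain ⟨ρ, hρ, hρk⟩ := WfDvdMonoid.exists_irreducible_factor hku hk0
    have hρp : Prime ρ := hρ.prime
    obtain ⟨k', hk'⟩ := hρk
    have hμk : fR * ∏ i ∈ S, π i = ρ * (m * k') := by rw [hk, hk']; ring
    have hρm : ρ ∣ fR * ∏ i ∈ S, π i := ⟨m * k', hμk⟩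
    have hcase : ρ ∣ fR ∨ ∃ i ∈ S, ρ ∣ π i := by
      rcases hρp.dvd_or_dvd hρm with h1 | h1
      · exact Or.inl h1
      · exact Or.inr ((hρp.dvd_finsetProd_iff _).1 h1)
    rcases hcase with h1 | ⟨i, hi, h1⟩
    · -- the quadratic character modulo `√-7`
      obtain ⟨u, hu⟩ := (hρp.dvd_prime_iff_associated irr_fR.prime).1 h1
      obtain ⟨a, ha1, ha2⟩ := crt2 hcf (-1) 1
      have hsg : e7 a = -1 := by
        rw [← e7_one, ← e7_neg]
        exact e7_per (Ideal.mem_span_singleton.2 ha1)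
      have hch : ch π S a = 1 := by
        rw [hperc a 1 (Ideal.mem_span_singleton.2 ha2)]
        exact hone
      refine ⟨a, ?_, by show e7 a * ch π S a = -1; rw [hsg, hch, mul_one]⟩
      have h2 : m ∣ ∏ i ∈ S, π i := by
        have h3 : ρ * (m * k') = ρ * (↑u * ∏ i ∈ S, π i) := by
          rw [← hμk]
          linear_combination (-(∏ i ∈ S, π i)) * hu
        have h4 := mul_left_cancel₀ hρp.ne_zero h3
        have h5 : m ∣ ↑u * ∏ i ∈ S, π i := ⟨k', h4.symm⟩
        exact (IsUnit.dvd_mul_left u.isUnit).1 h5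
      exact h2.trans ha2
    · -- a nonresidue
      have hpi := hf.pn i hi
      obtain ⟨u, hu⟩ := (hρp.dvd_prime_iff_associated hpi.pr).1 h1
      obtain ⟨t, ht'⟩ := Pool.Agent.R426.QD.nonsq hpi.pr hpi.od
      have hci : IsCoprime (π i) (fR * ∏ j ∈ S.erase i, π j) := by
        have c1 : IsCoprime (π i) (∏ j ∈ S.erase i, π j) := by
          refine IsCoprime.prod_right fun j hj => ?_
          rw [Finset.mem_erase] at hj
          exact Pool.Agent.R426.QD.fa_cop hf hi hj.2 (Ne.symm hj.1)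
        have c2 : IsCoprime fR (π i) := by
          rw [Finset.mul_prod_erase _ _ hi |>.symm] at hcf
          exact hcf.of_mul_right_left
        exact c2.symm.mul_right c1
      obtain ⟨a, ha1, ha2⟩ := crt2 hci t 1
      have hsi : sy (π i) a = -1 := by
        rw [← ht']
        exact sy_per _ _ _ (Ideal.mem_span_singleton.2 ha1)
      have hsg : e7 a = 1 := by
        rw [← e7_one]
        exact e7_per (Ideal.mem_span_singleton.2 ((Dvd.intro _ rfl).trans ha2))
      have hch : ch π S a = -1 := by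
        unfold ch
        rw [← Finset.mul_prod_erase _ _ hi, hsi]
        have : ∏ j ∈ S.erase i, sy (π j) a = 1 := by
          refine Finset.prod_eq_one fun j hj => ?_
          have hjS := (Finset.mem_erase.1 hj).2
          rw [← Pool.Agent.R426.QD.sy_oneO (hf.pn j hjS).pr]
          refine sy_per _ _ _ (Ideal.mem_span_singleton.2 (dvd_trans ?_ ha2))
          exact (Finset.dvd_prod_of_mem _ hj).trans (Dvd.intro_left _ rfl)
        rw [this, mul_one]
      refine ⟨a, ?_, by show e7 a * ch π S a = -1; rw [hsg, hch, one_mul]⟩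
      have h2 : m ∣ fR * ∏ j ∈ S.erase i, π j := by
        have h3 : ρ * (m * k') = ρ * (↑u * (fR * ∏ j ∈ S.erase i, π j)) := by
          rw [← hμk, ← Finset.mul_prod_erase _ _ hi]
          linear_combination (-(fR * ∏ j ∈ S.erase i, π j)) * hu
        have h4 := mul_left_cancel₀ hρp.ne_zero h3
        have h5 : m ∣ ↑u * (fR * ∏ j ∈ S.erase i, π j) := ⟨k', h4.symm⟩
        exact (IsUnit.dvd_mul_left u.isUnit).1 h5
      exact h2.trans ha2

/-- **the nonvanishing of the central values** -/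
theorem nonvanX (hbasic : H_BASIC) (hfp : H_FP) (hcnt : H_CNT) (hdec : H_DEC) (hafe : H_AFE)
    (hrec : S_REC) {S : Finset ι} (hS : Fe S π) (hg : gd (mc π) (mr π) S ≠ 0)
    (h1 : ch π S aR = 1) (h2 : ch π S bR = 1) (n : ℕ) :
    NZ1 (fun g => e7 g * ch π S g) (2 * n) := by
  obtain ⟨L, Ω, h⟩ := Pool.Agent.Y698.exists_LD
  obtain ⟨p, q, hpq⟩ := exists_pq (L := L)
  have hp : Prime aR := Pool.Agent.R426.QC.prime_aR
  have hP : (sp aR).IsPrime := (Ideal.span_singleton_prime hp.ne_zero).2 hp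
  obtain ⟨B, hB⟩ := Pool.Agent.Y698.exists_vs (sp aR)
  have hv : B.valuation al < 1 := by
    have := hB aR (Ideal.mem_span_singleton_self aR)
    rwa [aR_coe] at this
  have k1 := nv_sums hv hrec h hpq n hS hg h1 h2
  have hμ : fR * ∏ i ∈ S, π i ≠ 0 := mul_ne_zero fR_ne hS.fa.prod_ne
  have hcx := cx_ev hS
  refine nonvanG hbasic hfp hcnt hdec hafe h hpq hcx (2 * n) fun h0 => k1 ?_
  rw [neg_mul, bq_negm h.lat (E0_ds h.lat hpq (2 * n) hμ) (fun z => E0_neg _ z) hμ hcx.per, h0,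
    neg_zero]

end Pool.Agent.N843.X
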