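import Pool.Agent.N843.Ef
import Pool.Agent.N843.Xd
import Pool.Agent.R426.QD.Mn

/-!
# The sums over the points of order four
-/

set_option autoImplicit false
set_option linter.unusedSectionVars false
set_option linter.unusedSimpArgs false

open Filter
open scoped Topology PeriodPair

namespace Pool.Agent.N843.E

open H667R3 Pool.Agent.TH936.CW Pool.Agent.W192.HK Pool.Agent.Y690.NV Pool.Agent.TH936.PU
open Pool.Agent.N843 Pool.Agent.N843.X
open Pool.Agent.Y698 (RR al al_sq al_ne bl bl_ne al_mul_bl LD tA tB aR aR_coe bR bR_coe cX cY co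
  co_uniq al_im_pos Xx_per Tb v_two v_two_lt v_bl fin_quot aR_mul_bR two_coe nR cj mul_cj cj_coe
  cXY_of cj_cj)
open Pool.Agent.Y698.SG (Pe Mu)
open Pool.Agent.TH936.CM (IsLat)
open Pool.Agent.R426.QD (r4 r4_zero r4_unit)

variable {L : PeriodPair} {Ω p q : ℂ}

/-- the character modulo four of the norm -/
noncomputable def e4 (x : RR) : ℂ := ((ZMod.χ₄ (r4 x) * ZMod.χ₄ (r4 (cj x)) : ℤ) : ℂ)

lemma e4_mul (x y : RR) : e4 (x * y) = e4 x * e4 y := by
  unfold e4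
  rw [map_mul, map_mul, map_mul, map_mul, map_mul]
  push_cast
  ring

lemma e4_one : e4 1 = 1 := by
  unfold e4
  rw [map_one, map_one, map_one, map_one]
  norm_num

lemma chi4_neg : ∀ a : ZMod 4, ZMod.χ₄ (-a) = -ZMod.χ₄ a := by decide

lemma e4_neg (x : RR) : e4 (-x) = e4 x := by
  unfold e4
  rw [map_neg r4, map_neg cj, map_neg r4, chi4_neg, chi4_neg]
  push_cast
  ring

lemma r4_four (x : RR) (h : x ∈ sp (4 : RR)) : r4 x = 0 ∧ r4 (cj x) = 0 := by
  rw [Ideal.mem_span_singleton'] at h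
  obtain ⟨c, rfl⟩ := h
  have h4 : (4 : ZMod 4) = 0 := by decide
  constructor
  · rw [map_mul, map_ofNat, h4, mul_zero]
  · rw [map_mul, map_mul, map_ofNat, map_ofNat, h4, mul_zero]

lemma e4_per : Pe 4 e4 := by
  intro x y h
  obtain ⟨h1, h2⟩ := r4_four _ h
  rw [map_sub, sub_eq_zero] at h1
  rw [map_sub, map_sub, sub_eq_zero] at h2
  unfold e4
  rw [h1, h2]

lemma cj_aR' : cj aR = bR := by
  apply Subtype.ext
  rw [Pool.Agent.Y698.cj_aR, bR_coe]
  rfl

lemma cj_bR' : cj bR = aR := by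
  rw [← cj_aR', cj_cj]

lemma chi4_unit : ∀ a : ZMod 4, (a = 1 ∨ a = 3) → ZMod.χ₄ a = 1 ∨ ZMod.χ₄ a = -1 := by decide

lemma e4_unit {x : RR} (h : ¬ aR ∣ x) (h' : ¬ bR ∣ x) : e4 x = 1 ∨ e4 x = -1 := by
  have h1 := chi4_unit _ (r4_unit h)
  have h2 := chi4_unit _ (r4_unit (x := cj x) (fun h3 => h' (by
    obtain ⟨c, hc⟩ := h3
    refine ⟨cj c, ?_⟩
    have := congrArg cj hc
    rwa [cj_cj, map_mul, cj_aR'] at this)))
  unfold e4
  rcases h1 with h1 | h1 <;> rcases h2 with h2 | h2 <;> rw [h1, h2] <;> norm_num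

lemma not_dvd_of_cop {π x : RR} (hp : Prime π) (h : IsCoprime π x) : ¬ π ∣ x := fun h1 =>
  hp.not_isUnit (h.isUnit_of_dvd' dvd_rfl h1)

lemma no_e4 {N : RR} (h : No N) : e4 N = 1 ∨ e4 N = -1 :=
  e4_unit (not_dvd_of_cop Pool.Agent.R426.QC.prime_aR h.a)
    (not_dvd_of_cop Pool.Agent.N843.prime_bR h.b)

lemma no_four {N : RR} (h : No N) : IsCoprime (4 : RR) N := by
  have e : (4 : RR) = (aR * bR) * (aR * bR) := by
    rw [aR_mul_bR]
    norm_num
  rw [e]
  exact (h.a.mul_left h.b).mul_left (h.a.mul_left h.b)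

/-- the sum over the points of order four -/
noncomputable def E4 (L : PeriodPair) (p q Ω : ℂ) (r : ℕ) (z : ℂ) : ℂ :=
  ∑ᶠ u : RR ⧸ sp (4 : RR), e4 u.out * E0 L p q r (z + Ω * u.out / 4)

lemma four_ne : (4 : RR) ≠ 0 := by
  have h : ((4 : ℕ) : RR) ≠ 0 := Nat.cast_ne_zero.2 (by norm_num)
  exact_mod_cast h

lemma four_coe : ((4 : RR) : ℂ) = 4 := rfl

lemma E4_eq [Fintype (RR ⧸ sp (4 : RR))] (r : ℕ) (z : ℂ) :
    E4 L p q Ω r z = ∑ u : RR ⧸ sp (4 : RR), e4 u.out * E0 L p q r (z + Ω * u.out / 4) :=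
  finsum_eq_sum_of_fintype _

section basic

variable (hL : IsLat L RR Ω) (hpq : ∀ l ∈ L.lattice, eta L l = p * l + q * (starRingEnd ℂ) l)
include hL hpq

lemma E4_term (r : ℕ) (z : ℂ) : Pe (4 : RR) (fun x => e4 x * E0 L p q r (z + Ω * x / 4)) := by
  intro x y h
  simp only
  rw [e4_per x y h]
  congr 1
  refine E0_per hpq r ?_
  have h1 := (div_mem_iff hL four_ne (x - y)).2 h
  convert h1 using 1
  rw [four_coe]
  push_cast
  ring

omit hL in
lemma E4_per (r : ℕ) {z w : ℂ} (h : z - w ∈ L.lattice) :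
    E4 L p q Ω r z = E4 L p q Ω r w := by
  unfold E4
  refine finsum_congr fun u => ?_
  congr 1
  refine E0_per hpq r ?_
  rwa [add_sub_add_right_eq_sub]

lemma E4_neg (r : ℕ) (z : ℂ) : E4 L p q Ω r (-z) = -E4 L p q Ω r z := by
  have f1 := fin_quot four_ne
  let _ : Fintype (RR ⧸ sp (4 : RR)) := Fintype.ofFinite _
  have h := sum_unit (n := (4 : RR)) (u := -1) (isCoprime_one_left.neg_left)
    (E4_term hL hpq r (-z))
  rw [E4_eq, E4_eq, ← h, ← Finset.sum_neg_distrib]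
  refine Finset.sum_congr rfl fun u _ => ?_
  have e1 : e4 (-1 * u.out) = e4 u.out := by rw [neg_one_mul, e4_neg]
  have e2 : -z + Ω * ((-1 * u.out : RR) : ℂ) / 4 = -(z + Ω * u.out / 4) := by
    push_cast
    ring
  rw [e1, e2, E0_neg]
  ring

theorem E4_ds (r : ℕ) {N : RR} (hN : No N) :
    Pool.Agent.R426.QD.Ds L Ω N (fun c => e4 c * gm r (c : ℂ)) (E4 L p q Ω r) := by
  refine ⟨fun z w h => E4_per hpq r h, fun c hc hcN _ z hz => ?_⟩
  have f1 := fin_quot four_ne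
  let _ : Fintype (RR ⧸ sp (4 : RR)) := Fintype.ofFinite _
  have hNc : No c := ⟨hc, hN.a.of_isCoprime_of_dvd_right hcN, hN.b.of_isCoprime_of_dvd_right hcN⟩
  have hc' := Pool.Agent.TH936.PU.coe_ne hc
  obtain ⟨M, hM, -, hMz⟩ := nat_kill hL hN.ne hz
  have h1 : ∀ t : RR ⧸ sp c, E4 L p q Ω r (z + Ω * t.out / c) =
      ∑ u : RR ⧸ sp (4 : RR), e4 u.out * E0 L p q r (z + Ω * t.out / c + Ω * u.out / 4) :=
    fun t => E4_eq r _
  simp only [h1]
  rw [Finset.sum_comm]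
  have h2 : ∀ u : RR ⧸ sp (4 : RR), ∑ t : RR ⧸ sp c, e4 u.out *
      E0 L p q r (z + Ω * t.out / c + Ω * u.out / 4) =
      (e4 c * gm r (c : ℂ)) * (e4 (c * u.out) *
        E0 L p q r (c * z + Ω * ((c * u.out : RR) : ℂ) / 4)) := by
    intro u
    have h3 := E0_dist (p := p) (q := q) hL hpq r hc (z := z + Ω * u.out / 4) (M := 4 * M)
      (by omega) (by
        have k1 := nat_mul_mem hMz 4
        have k2 := nat_mul_mem (hL.mem_mul u.out) M
        have := add_mem k1 k2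
        convert this using 1
        push_cast
        ring)
    have h4 : (c : ℂ) * (z + Ω * u.out / 4) = c * z + Ω * ((c * u.out : RR) : ℂ) / 4 := by
      push_cast
      ring
    rw [h4] at h3
    have h5 : ∀ t : RR ⧸ sp c, E0 L p q r (z + Ω * t.out / c + Ω * u.out / 4) =
        E0 L p q r (z + Ω * u.out / 4 + Ω * t.out / c) := fun t => by
      congr 1
      ring
    simp only [h5]
    rw [← Finset.mul_sum, h3, e4_mul]
    have h6 : e4 c * e4 c = 1 := sq_one_of (no_e4 hNc)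
    linear_combination (-(e4 u.out * (gm r (c : ℂ) *
      E0 L p q r (c * z + Ω * ((c * u.out : RR) : ℂ) / 4)))) * h6
  rw [Finset.sum_congr rfl fun u _ => h2 u, ← Finset.mul_sum,
    sum_unit (no_four hNc).symm (E4_term hL hpq r (c * z)), ← E4_eq]

/-- the sums modulo `4 n` -/
theorem Bd_four (r : ℕ) {n : RR} (hn : No n) {φ : RR → ℂ} (hφ : Pe n φ)
    (h4 : ∀ x, φ (4 * x) = φ x) :
    Pool.Agent.R426.QD.Bd Ω (E0 L p q r) (4 * n) (fun x => e4 x * φ x) =
      e4 n * Pool.Agent.R426.QD.Bd Ω (E4 L p q Ω r) n φ := by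
  have hN0 : 4 * n ≠ 0 := mul_ne_zero four_ne hn.ne
  have f1 := fin_quot four_ne
  have f2 := fin_quot hn.ne
  have f3 := fin_quot hN0
  let _ : Fintype (RR ⧸ sp (4 : RR)) := Fintype.ofFinite _
  let _ : Fintype (RR ⧸ sp n) := Fintype.ofFinite _
  let _ : Fintype (RR ⧸ sp (4 * n)) := Fintype.ofFinite _
  have hbij := Pool.Agent.R426.QD.bij_crt four_ne hn.ne (no_four hn)
  have hW := E0_ds hL hpq r hN0
  have hper : Pe (4 * n) (fun x => e4 x * φ x) :=
    (e4_per.mono (Dvd.intro _ rfl)).mul (hφ.mono (Dvd.intro_left _ rfl))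
  rw [Pool.Agent.R426.QD.Bd_eq, sum_rep _ hbij (fun x : RR => e4 x * φ x *
    E0 L p q r (Ω * x / ((4 * n : RR) : ℂ)))
    (fun x y h => Pool.Agent.R426.QD.Bd_term hW hL hN0 hper h), Fintype.sum_prod_type,
    Pool.Agent.R426.QD.Bd_eq, Finset.mul_sum]
  refine Finset.sum_congr rfl fun x _ => ?_
  have hnc : (n : ℂ) ≠ 0 := Pool.Agent.TH936.PU.coe_ne hn.ne
  rw [E4_eq]
  have e1 : ∀ y : RR ⧸ sp (4 : RR), e4 (n * y.out + 4 * x.out) * φ (n * y.out + 4 * x.out) *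
      E0 L p q r (Ω * ((n * y.out + 4 * x.out : RR) : ℂ) / ((4 * n : RR) : ℂ)) =
      e4 n * φ x.out * (e4 y.out * E0 L p q r (Ω * x.out / n + Ω * y.out / 4)) := by
    intro y
    have e2 : Ω * ((n * y.out + 4 * x.out : RR) : ℂ) / ((4 * n : RR) : ℂ) =
        Ω * x.out / n + Ω * y.out / 4 := by
      push_cast
      rw [four_coe]
      field_simp
      ring
    have e3 : e4 (n * y.out + 4 * x.out) = e4 n * e4 y.out := by
      rw [← e4_mul]
      apply e4_per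
      rw [add_sub_cancel_left]
      exact Ideal.mul_mem_right _ _ (Ideal.mem_span_singleton_self _)
    have e5 : φ (n * y.out + 4 * x.out) = φ x.out := by
      rw [← h4 x.out]
      apply hφ
      rw [add_sub_cancel_right]
      exact Ideal.mul_mem_right _ _ (Ideal.mem_span_singleton_self _)
    rw [e2, e3, e5]
    ring
  rw [Finset.sum_congr rfl fun y _ => e1 y, ← Finset.mul_sum]
  ring

end basic

/-! ### the sixteen classes modulo four -/

/-- the representatives -/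
noncomputable def g16 (i : Fin 4 × Fin 4) : RR := ((i.1 : ℕ) : RR) + ((i.2 : ℕ) : RR) * aR

lemma g16_co (i : Fin 4 × Fin 4) : (g16 i : ℂ) = ((i.1 : ℕ) : ℂ) + ((i.2 : ℕ) : ℂ) * al := by
  unfold g16
  push_cast
  rw [aR_coe]

lemma mem_four (g : RR) : g ∈ sp (4 : RR) ↔ (4 : ℤ) ∣ cX g ∧ (4 : ℤ) ∣ cY g := by
  rw [Ideal.mem_span_singleton']
  have e : g = ((cX g : ℤ) : RR) + ((cY g : ℤ) : RR) * aR := by
    apply Subtype.ext
    push_cast
    rw [aR_coe]
    exact co g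
  constructor
  · rintro ⟨c, hc⟩
    have h1 : cX g = 4 * cX c ∧ cY g = 4 * cY c := by
      apply cXY_of
      rw [← hc]
      push_cast
      rw [four_coe, co c]
      ring
    exact ⟨⟨_, h1.1⟩, ⟨_, h1.2⟩⟩
  · rintro ⟨⟨k, hk⟩, ⟨l, hl⟩⟩
    refine ⟨(k : RR) + (l : RR) * aR, ?_⟩
    rw [e, hk, hl]
    push_cast
    ring

lemma bij16 : Function.Bijective (fun i : Fin 4 × Fin 4 => Ideal.Quotient.mk (sp (4 : RR))
    (g16 i)) := by
  constructor
  · rintro ⟨a, b⟩ ⟨c, d⟩ h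
    have h1 : g16 (a, b) - g16 (c, d) ∈ sp (4 : RR) := by
      rw [← Ideal.Quotient.mk_eq_mk_iff_sub_mem]
      exact h
    rw [mem_four] at h1
    have h2 : cX (g16 (a, b) - g16 (c, d)) = ((a : ℕ) : ℤ) - ((c : ℕ) : ℤ) ∧
        cY (g16 (a, b) - g16 (c, d)) = ((b : ℕ) : ℤ) - ((d : ℕ) : ℤ) := by
      apply cXY_of
      push_cast
      rw [g16_co, g16_co]
      ring
    rw [h2.1, h2.2] at h1
    obtain ⟨h3, h4⟩ := h1
    have := a.2
    have := b.2
    have := c.2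
    have := d.2
    refine Prod.ext (Fin.ext ?_) (Fin.ext ?_)
    · show (a : ℕ) = c
      omega
    · show (b : ℕ) = d
      omega
  · intro z
    obtain ⟨x, rfl⟩ := Ideal.Quotient.mk_surjective z
    have h1 := Int.emod_nonneg (cX x) (by norm_num : (4 : ℤ) ≠ 0)
    have h2 := Int.emod_lt_of_pos (cX x) (by norm_num : (0 : ℤ) < 4)
    have h3 := Int.emod_nonneg (cY x) (by norm_num : (4 : ℤ) ≠ 0)
    have h4 := Int.emod_lt_of_pos (cY x) (by norm_num : (0 : ℤ) < 4)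
    obtain ⟨a, ha⟩ := Int.eq_ofNat_of_zero_le h1
    obtain ⟨b, hb⟩ := Int.eq_ofNat_of_zero_le h3
    refine ⟨(⟨a, by omega⟩, ⟨b, by omega⟩), ?_⟩
    show Ideal.Quotient.mk (sp (4 : RR)) (g16 (⟨a, _⟩, ⟨b, _⟩)) = _
    rw [Ideal.Quotient.mk_eq_mk_iff_sub_mem, mem_four]
    have h5 : cX (g16 ((⟨a, by omega⟩, ⟨b, by omega⟩) : Fin 4 × Fin 4) - x) = (a : ℤ) - cX x ∧
        cY (g16 ((⟨a, by omega⟩, ⟨b, by omega⟩) : Fin 4 × Fin 4) - x) = (b : ℤ) - cY x := by
      apply cXY_of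
      push_cast
      rw [g16_co, co x]
      ring
    rw [h5.1, h5.2]
    omega

lemma e4_g16 (i : Fin 4 × Fin 4) : e4 (g16 i) =
    ((ZMod.χ₄ (((i.1 : ℕ) : ZMod 4) + ((i.2 : ℕ) : ZMod 4) * 2) *
      ZMod.χ₄ (((i.1 : ℕ) : ZMod 4) - ((i.2 : ℕ) : ZMod 4)) : ℤ) : ℂ) := by
  unfold e4 g16
  have h1 : r4 (((i.1 : ℕ) : RR) + ((i.2 : ℕ) : RR) * aR) = ((i.1 : ℕ) : ZMod 4) +
      ((i.2 : ℕ) : ZMod 4) * 2 := by
    rw [map_add, map_mul, map_natCast, map_natCast, Pool.Agent.R426.QD.r4_a]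
  have h2 : r4 (cj (((i.1 : ℕ) : RR) + ((i.2 : ℕ) : RR) * aR)) = ((i.1 : ℕ) : ZMod 4) -
      ((i.2 : ℕ) : ZMod 4) := by
    have h3 : cj aR = 1 - aR := by
      rw [cj_aR']
      apply Subtype.ext
      push_cast
      rw [bR_coe, aR_coe]
      rfl
    rw [map_add, map_mul, map_natCast, map_natCast, h3, map_add, map_mul, map_natCast,
      map_natCast, map_sub, map_one, Pool.Agent.R426.QD.r4_a]
    have : (1 - 2 : ZMod 4) = -1 := by decide
    rw [this]
    ring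
  rw [h1, h2]

/-- the sum over the four primitive points -/
theorem E4_four (hL : IsLat L RR Ω)
    (hpq : ∀ l ∈ L.lattice, eta L l = p * l + q * (starRingEnd ℂ) l) (r : ℕ) (z : ℂ) :
    E4 L p q Ω r z = (E0 L p q r (tP Ω + z) + E0 L p q r (-tP Ω + z)) -
      (E0 L p q r (tM Ω + z) + E0 L p q r (-tM Ω + z)) := by
  have f1 := fin_quot four_ne
  let _ : Fintype (RR ⧸ sp (4 : RR)) := Fintype.ofFinite _
  rw [E4_eq, sum_rep g16 bij16 _ (E4_term hL hpq r z), Fintype.sum_prod_type]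
  simp only [Fin.sum_univ_four, e4_g16]
  have c : ∀ a b : Fin 4, ZMod.χ₄ (((a : ℕ) : ZMod 4) + ((b : ℕ) : ZMod 4) * 2) *
      ZMod.χ₄ (((a : ℕ) : ZMod 4) - ((b : ℕ) : ZMod 4)) =
      if a = 1 ∨ a = 3 then (if b = 0 then 1 else if b = 2 then -1 else 0) else 0 := by
    decide
  simp only [c]
  have k1 : E0 L p q r (z + Ω * (g16 (1, 0) : ℂ) / 4) = E0 L p q r (tP Ω + z) := by
    congr 1
    rw [g16_co]
    unfold tP
    simp
    ring
  have k2 : E0 L p q r (z + Ω * (g16 (3, 0) : ℂ) / 4) = E0 L p q r (-tP Ω + z) := by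
    refine E0_per hpq r ?_
    have := mem_RR hL 1 0
    convert this using 1
    rw [g16_co]
    unfold tP
    simp
    ring
  have k3 : E0 L p q r (z + Ω * (g16 (1, 2) : ℂ) / 4) = E0 L p q r (-tM Ω + z) := by
    refine E0_per hpq r ?_
    have := mem_RR hL 0 1
    convert this using 1
    rw [g16_co]
    unfold tM
    simp
    ring
  have k4 : E0 L p q r (z + Ω * (g16 (3, 2) : ℂ) / 4) = E0 L p q r (tM Ω + z) := by
    refine E0_per hpq r ?_
    have := mem_RR hL 1 0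
    convert this using 1
    rw [g16_co]
    unfold tM
    simp
    ring
  rw [k1, k2, k3, k4]
  simp
  ring

end Pool.Agent.N843.E
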