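import Pool.Agent.N843.Eg

/-!
# The induction for the even weights
-/

set_option autoImplicit false
set_option linter.unusedSectionVars false
set_option linter.unusedSimpArgs false

open Filter
open scoped Topology PeriodPair

namespace Pool.Agent.N843.E

open H667R3 Pool.Agent.TH936.CW Pool.Agent.W192.HK Pool.Agent.Y690.NV Pool.Agent.TH936.PU
open Pool.Agent.N843 Pool.Agent.N843.X
open Pool.Agent.Y698 (RR al al_sq al_ne bl bl_ne al_mul_bl LD tA tB aR aR_coe bR bR_coe cX cY co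
  co_uniq al_im_pos Xx_per Tb v_two v_two_lt v_bl fin_quot aR_mul_bR two_coe nR cj mul_cj cj_coe
  nR_mul e7 e7_per e7_mul e7_neg e7_one e7_eq_zero e7_sq fR fR_ne fR_sq irr_fR cj_cj)
open Pool.Agent.Y698.SG (Pe Mu Rd sy sy_per hc hc_val hcprod tr v_RR gd mc mr S_REC lg)
open Pool.Agent.TH936.CM (IsLat Dd)
open Pool.Agent.R426.QD (Pn Fa r4 r4_zero r4_unit tp nb nb_or nb_r4 Lv pe C7 fa_ext c7_cop)

variable {L : PeriodPair} {Ω p q : ℂ}
variable {ι : Type} [DecidableEq ι] {π : ι → RR}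

section val

variable {Γ : Type*} [LinearOrderedCommGroupWithZero Γ] {v : Valuation ℂ Γ}
variable (hv : v al < 1)
include hv

lemma v_fac' {lam : RR → ℂ} {S A : Finset ι} (hS : Fa S π)
    (hl : ∀ i ∈ S, v (lam (π i) - 1) ≤ v 4) (hA : A ⊆ S) :
    ∀ i ∈ S \ A, v ((lam (π i) - ∏ j ∈ A, sy (π j) (π i)) / 2) ≤ 1 := by
  intro i hi
  obtain ⟨hiS, hiA⟩ := Finset.mem_sdiff.1 hi
  have h1 := chi_sgn hS hiS hA hiA
  have h2 := hl i hiS
  have h20 := v_two0 hv
  have e : (lam (π i) - ∏ j ∈ A, sy (π j) (π i)) / 2 =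
      (lam (π i) - 1) / 2 + (1 - ∏ j ∈ A, sy (π j) (π i)) / 2 := by
    ring
  rw [e]
  refine v_add_le (v_half h20 ?_) ?_
  · rw [mul_one]
    refine h2.trans ?_
    rw [v_four2 hv]
    exact mul_le_of_le_one_right' (v_two_lt hv).le
  · rcases h1 with h1 | h1 <;> rw [h1]
    · rw [sub_self, zero_div, map_zero]
      exact zero_le_one
    · have : (1 - (-1) : ℂ) / 2 = 1 := by norm_num
      rw [this, map_one]

lemma v_er' {lam : RR → ℂ} {S A : Finset ι} (hS : Fa S π)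
    (hl : ∀ i ∈ S, v (lam (π i) - 1) ≤ v 4) (hA : A ⊆ S) :
    v (er lam π S A) ≤ 1 := by
  unfold er
  exact Pool.Agent.Y698.v_prod_le _ fun i hi => v_fac' hv hS hl hA i hi

lemma v_er_sub' {lam lam' : RR → ℂ} {S A : Finset ι} (hS : Fa S π)
    (hl : ∀ i ∈ S, v (lam (π i) - 1) ≤ v 4) (hl' : ∀ i ∈ S, v (lam' (π i) - 1) ≤ v 4)
    (hA : A ⊆ S) : v (er lam π S A - er lam' π S A) ≤ v 2 := by
  unfold er
  have key : ∀ B ⊆ S \ A, v (∏ i ∈ B, ((lam (π i) - ∏ j ∈ A, sy (π j) (π i)) / 2) -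
      ∏ i ∈ B, ((lam' (π i) - ∏ j ∈ A, sy (π j) (π i)) / 2)) ≤ v 2 := by
    intro B
    induction B using Finset.induction_on with
    | empty =>
      intro _
      rw [Finset.prod_empty, Finset.prod_empty, sub_self, map_zero]
      exact zero_le
    | insert j B hj ih =>
      intro hB
      have hjS : j ∈ S \ A := hB (Finset.mem_insert_self _ _)
      have hBs : B ⊆ S \ A := (Finset.subset_insert _ _).trans hB
      have ih' := ih hBs
      rw [Finset.prod_insert hj, Finset.prod_insert hj]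
      set X := ∏ i ∈ B, ((lam (π i) - ∏ j ∈ A, sy (π j) (π i)) / 2)
      set Y := ∏ i ∈ B, ((lam' (π i) - ∏ j ∈ A, sy (π j) (π i)) / 2) with hY
      have hYv : v Y ≤ 1 := by
        rw [hY]
        exact Pool.Agent.Y698.v_prod_le _ fun i hi => v_fac' hv hS hl' hA i (hBs hi)
      have hx := v_fac' hv hS hl hA j hjS
      have hj' := (Finset.mem_sdiff.1 hjS).1
      have hd : v ((lam (π j) - ∏ j' ∈ A, sy (π j') (π j)) / 2 -
          (lam' (π j) - ∏ j' ∈ A, sy (π j') (π j)) / 2) ≤ v 2 := by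
        have e : (lam (π j) - ∏ j' ∈ A, sy (π j') (π j)) / 2 -
            (lam' (π j) - ∏ j' ∈ A, sy (π j') (π j)) / 2 =
            ((lam (π j) - 1) - (lam' (π j) - 1)) / 2 := by
          ring
        rw [e]
        refine v_half (v_two0 hv) ?_
        rw [← v_four2 hv]
        exact v_sub_le (hl j hj') (hl' j hj')
      have e : (lam (π j) - ∏ j' ∈ A, sy (π j') (π j)) / 2 * X -
          (lam' (π j) - ∏ j' ∈ A, sy (π j') (π j)) / 2 * Y =
          (lam (π j) - ∏ j' ∈ A, sy (π j') (π j)) / 2 * (X - Y) +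
          ((lam (π j) - ∏ j' ∈ A, sy (π j') (π j)) / 2 -
          (lam' (π j) - ∏ j' ∈ A, sy (π j') (π j)) / 2) * Y := by
        ring
      rw [e]
      refine v_add_le ?_ ?_
      · rw [map_mul]
        calc _ ≤ 1 * v 2 := mul_le_mul' hx ih'
          _ = v 2 := one_mul _
      · rw [map_mul]
        calc _ ≤ v 2 * 1 := mul_le_mul' hd hYv
          _ = v 2 := mul_one _
  exact key _ (subset_refl _)

/-- the congruence between the sums, general form -/
theorem indW (hrec : S_REC) (h : LD L Ω)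
    (hpq : ∀ l ∈ L.lattice, eta L l = p * l + q * (starRingEnd ℂ) l)
    {S0 : Finset ι} (hS0 : Fa S0 π) {lam : RR → ℂ} {W : ℂ → ℂ}
    (hW : Pool.Agent.R426.QD.Ds L Ω (∏ i ∈ S0, π i) lam W)
    (hl : ∀ i ∈ S0, v (lam (π i) - 1) ≤ v 4)
    (hdif : ∀ z : ℂ, Od L z → v (W z - X.GD L p q Ω z) ≤ v 8)
    (S : Finset ι) (hSS : S ⊆ S0) :
    v (bq Ω W π S - bq Ω (X.GD L p q Ω) π S) ≤ v 8 := by
  have hL := h.lat
  have t2 := v_two_lt hv
  have e8 := v_eight hv
  have hNo := fa_no hS0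
  have hD := X.GD_ds hL hpq hNo
  have hl0 : ∀ i ∈ S0, v ((fun c : RR => gm 0 (c : ℂ)) (π i) - 1) ≤ v 4 := fun i hi => by
    have := v_gmP hv 0 (hS0.pn i hi)
    rwa [mul_zero] at this
  induction S using Finset.strongInduction with
  | H S ih =>
    have hS := hS0.mono hSS
    have hNS : ∏ i ∈ S, π i ∣ ∏ i ∈ S0, π i := Finset.prod_dvd_prod_of_subset _ _ _ hSS
    have r1 := rec_q hW hL hS hNS
    have r2 := rec_q hD hL hS hNS
    have hfin : bq Ω W π S - bq Ω (X.GD L p q Ω) π S =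
        (Pool.Agent.R426.QD.Bd Ω W (∏ i ∈ S, π i) (fun m => ∏ i ∈ S, hc (π i) m) -
          Pool.Agent.R426.QD.Bd Ω (X.GD L p q Ω) (∏ i ∈ S, π i) (fun m => ∏ i ∈ S, hc (π i) m)) -
        ∑ A ∈ S.powerset.erase S, (er lam π S A *
          (bq Ω W π A - bq Ω (X.GD L p q Ω) π A) +
          (er lam π S A - er (fun c => gm 0 (c : ℂ)) π S A) *
            bq Ω (X.GD L p q Ω) π A) := by
      have e1 : ∑ A ∈ S.powerset.erase S, (er lam π S A *
          (bq Ω W π A - bq Ω (X.GD L p q Ω) π A) +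
          (er lam π S A - er (fun c => gm 0 (c : ℂ)) π S A) *
            bq Ω (X.GD L p q Ω) π A) = ∑ A ∈ S.powerset.erase S,
          er lam π S A * bq Ω W π A -
          ∑ A ∈ S.powerset.erase S, er (fun c => gm 0 (c : ℂ)) π S A *
            bq Ω (X.GD L p q Ω) π A := by
        rw [← Finset.sum_sub_distrib]
        exact Finset.sum_congr rfl fun A _ => by ring
      rw [e1]
      linear_combination r1 - r2
    rw [hfin]
    refine v_sub_le ?_ (Valuation.map_sum_le v fun A hA => ?_)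
    · have hn := hS.prod_ne
      have f1 := fin_quot hn
      let _ : Fintype (RR ⧸ sp (∏ i ∈ S, π i)) := Fintype.ofFinite _
      rw [Pool.Agent.R426.QD.Bd_eq, Pool.Agent.R426.QD.Bd_eq, ← Finset.sum_sub_distrib]
      refine Valuation.map_sum_le v fun x _ => ?_
      rw [← mul_sub, map_mul]
      have hod : Od L (Ω * (x.out : RR) / ((∏ i ∈ S, π i : RR) : ℂ)) :=
        hNo.od hL (Pool.Agent.R426.QD.pt_lat hL hn hNS _)
      calc _ ≤ 1 * v 8 := mul_le_mul' (hcprod (v := v) S π x.out).1 (hdif _ hod)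
        _ = _ := one_mul _
    · rw [Finset.mem_erase, Finset.mem_powerset] at hA
      have hAS0 : A ⊆ S0 := hA.2.trans hSS
      refine v_add_le ?_ ?_
      · have k1 := ih A (hA.2.ssubset_of_ne hA.1) hAS0
        have k2 := v_er' hv hS (fun i hi => hl i (hSS hi)) hA.2
        have := v_mul_le2 k2 k1
        rwa [one_mul] at this
      · rw [e8]
        have k3 := v_er_sub' (lam := lam) (lam' := fun c : RR => gm 0 (c : ℂ)) hv hS
          (fun i hi => hl i (hSS hi)) (fun i hi => hl0 i (hSS hi)) hA.2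
        exact v_mul_le2 k3 (v_bqGD hv hrec h hpq hS0 hAS0)

/-- the Euler factors of the even weights are one modulo four -/
lemma v_lam (n : ℕ) {ϖ : RR} (h : Pn ϖ) :
    v (e4 ϖ * gm (2 * n + 1) (ϖ : ℂ) - 1) ≤ v 4 := by
  rw [gm_eq, ← cj_coe]
  have k1 := v_r4 hv h.r4
  have k2 := v_r4 hv (nb_r4 h)
  have u1 := v_unit4 hv k1
  have u2 := v_unit4 hv k2
  have h3 : ((cj (nb ϖ) : RR) : ℂ) ^ (2 * n + 1) ≠ 0 := by
    intro h
    have := congrArg v h
    rw [map_pow, u2, one_pow, map_zero] at this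
    exact one_ne_zero this
  have h40 : ∀ a : ZMod 4, a = 1 → ZMod.χ₄ a = 1 := by decide
  have k3 : r4 (cj (nb ϖ)) = 1 := nb_r4 h
  have e1 : e4 ϖ * ((ϖ : ℂ) ^ (2 * n + 1 + 1) / ((cj ϖ : RR) : ℂ) ^ (2 * n + 1)) =
      (ϖ : ℂ) ^ (2 * n + 1 + 1) / ((cj (nb ϖ) : RR) : ℂ) ^ (2 * n + 1) := by
    rcases nb_or ϖ with h1 | h1
    · have : e4 ϖ = 1 := by
        unfold e4
        rw [h1] at k3
        rw [h40 _ h.r4, h40 _ k3]
        norm_num
      rw [this, h1, one_mul]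
    · have : e4 ϖ = -1 := by
        rw [h1] at k3
        rw [← e4_neg]
        have h5 : r4 (-ϖ) = -1 := by rw [map_neg r4, h.r4]
        have h6 : ∀ a : ZMod 4, a = -1 → ZMod.χ₄ a = -1 := by decide
        unfold e4
        rw [h6 _ h5, h40 _ k3]
        norm_num
      rw [this, h1, map_neg cj]
      push_cast
      rw [Odd.neg_pow ⟨n, rfl⟩, div_neg]
      ring
  rw [e1]
  have h1 := v_pw k1 u1.le (2 * n + 1 + 1)
  have h2 := v_pw k2 u2.le (2 * n + 1)
  have e : (ϖ : ℂ) ^ (2 * n + 1 + 1) / ((cj (nb ϖ) : RR) : ℂ) ^ (2 * n + 1) - 1 =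
      (((ϖ : ℂ) ^ (2 * n + 1 + 1) - 1) - (((cj (nb ϖ) : RR) : ℂ) ^ (2 * n + 1) - 1)) /
        ((cj (nb ϖ) : RR) : ℂ) ^ (2 * n + 1) := by
    field_simp
    ring
  rw [e, map_div₀, map_pow v, u2, one_pow, div_one]
  exact v_sub_le h1 h2

/-- the normalized numbers of even weight -/
noncomputable def WE (L : PeriodPair) (p q Ω : ℂ) (n : ℕ) (z : ℂ) : ℂ :=
  (((2 * n + 1).factorial : ℂ) * cT L Ω ^ (2 * (2 * n + 1) + 1) / (2 * io L Ω)) *
    E4 L p q Ω (2 * n + 1) z

omit hv in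
lemma io_ne (h : LD L Ω) : io L Ω ≠ 0 := by
  intro h0
  have := io_sq h
  rw [h0] at this
  norm_num at this

omit hv in
lemma FS_E4 (hL : IsLat L RR Ω)
    (hpq : ∀ l ∈ L.lattice, eta L l = p * l + q * (starRingEnd ℂ) l) (n : ℕ) {z : ℂ}
    (hz : Od L z) : FS L p q Ω n z = ((n.factorial : ℂ) * cT L Ω ^ (2 * n + 1)) *
      E4 L p q Ω n z := by
  rw [E4_four hL hpq]
  have k : ∀ T : ℂ, 2 * T ∉ L.lattice → 4 * T ∈ L.lattice →
      E0 L p q n (T + z) = ek L p q n (T + z) ∧ E0 L p q n (-T + z) = ek L p q n (-T + z) := by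
    intro T h2 h4
    refine ⟨E0_of (Od.q_add hz h2 h4), E0_of ?_⟩
    have h5 := Od.q_sub hz h2 h4
    intro h6
    apply h5
    have := neg_mem h6
    convert this using 1
    ring
  rw [(k _ (tP_two hL) (tP_four hL)).1, (k _ (tP_two hL) (tP_four hL)).2,
    (k _ (tM_two hL) (tM_four hL)).1, (k _ (tM_two hL) (tM_four hL)).2]
  unfold FS
  ring

lemma WE_dif (h : LD L Ω)
    (hpq : ∀ l ∈ L.lattice, eta L l = p * l + q * (starRingEnd ℂ) l) (n : ℕ) {z : ℂ}
    (hz : Od L z) : v (WE L p q Ω n z - X.GD L p q Ω z) ≤ v 8 := by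
  have hL := h.lat
  have k := FS_cong h hv hpq n hz
  rw [FS_E4 hL hpq _ hz] at k
  have hi := io_ne h
  rw [X.GD_eq hL hpq hz]
  unfold WE
  have e : (((2 * n + 1).factorial : ℂ) * cT L Ω ^ (2 * (2 * n + 1) + 1) / (2 * io L Ω)) *
      E4 L p q Ω (2 * n + 1) z - HD L p q Ω z =
      ((((2 * n + 1).factorial : ℂ) * cT L Ω ^ (2 * (2 * n + 1) + 1)) *
        E4 L p q Ω (2 * n + 1) z - 2 * io L Ω * HD L p q Ω z) / io L Ω / 2 := by
    field_simp
  rw [e]
  refine v_half (v_two0 hv) ?_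
  have vi : v (io L Ω) = 1 := by
    have h1 := congrArg v (io_sq h)
    rw [map_pow, Valuation.map_neg, map_one] at h1
    exact (pow_eq_one_iff_of_nonneg zero_le two_ne_zero).1 h1
  rw [map_div₀, vi, div_one]
  unfold O at k
  refine k.trans (le_of_eq ?_)
  have : (8 : ℂ) = 2 ^ 3 := by norm_num
  rw [this, map_pow, ← pow_succ']

/-- **the nonvanishing of the sums of even weight** -/
theorem nv_even (hrec : S_REC) (h : LD L Ω)
    (hpq : ∀ l ∈ L.lattice, eta L l = p * l + q * (starRingEnd ℂ) l) (n : ℕ) {S : Finset ι}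
    (hS : Fe S π) (hg : gd (mc π) (mr π) S ≠ 0) (h1 : X.ch π S aR = 1) (h2 : X.ch π S bR = 1) :
    Pool.Agent.R426.QD.Bd Ω (E4 L p q Ω (2 * n + 1)) (-fR * ∏ i ∈ S, π i)
      (fun x => e7 x * X.ch π S x) ≠ 0 := by
  have hL := h.lat
  have hE := fa_ext hS.fa hS.c7
  have hNo := fa_no hE
  have t2 := v_two_lt hv
  have efun : (fun m => ∏ o ∈ S.insertNone, sy (pe π o) m) = fun x => e7 x * X.ch π S x :=
    funext fun m => chi_ext m
  intro h0
  rw [← prod_ext, ← efun] at h0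
  have k4 := v_bqGD_eq hv hrec h hpq hS hg h1 h2
  have h40 : 0 < v (4 : ℂ) := zero_lt_iff.2 (by rw [v_four hv]; exact pow_ne_zero _ v_al0)
  have hds := E4_ds hL hpq (2 * n + 1) hNo
  have hW : Pool.Agent.R426.QD.Ds L Ω (∏ o ∈ S.insertNone, pe π o)
      (fun c => e4 c * gm (2 * n + 1) (c : ℂ)) (WE L p q Ω n) := by
    have := ds_lin hds hds (((2 * n + 1).factorial : ℂ) * cT L Ω ^ (2 * (2 * n + 1) + 1) /
      (2 * io L Ω)) 0
    refine (congrArg (fun F => Pool.Agent.R426.QD.Ds L Ω (∏ o ∈ S.insertNone, pe π o)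
      (fun c => e4 c * gm (2 * n + 1) (c : ℂ)) F) (funext fun z => ?_)).mp this
    unfold WE
    ring
  have k0 : bq Ω (WE L p q Ω n) (pe π) S.insertNone = 0 := by
    have h3 := bq_lin (Ω := Ω) (W := E4 L p q Ω (2 * n + 1)) (W' := E4 L p q Ω (2 * n + 1))
      hE.prod_ne (fun m => ∏ o ∈ S.insertNone, sy (pe π o) m)
      (((2 * n + 1).factorial : ℂ) * cT L Ω ^ (2 * (2 * n + 1) + 1) / (2 * io L Ω)) 0
    rw [h0, mul_zero, mul_zero, add_zero] at h3
    unfold bq
    have e : (fun z => (((2 * n + 1).factorial : ℂ) * cT L Ω ^ (2 * (2 * n + 1) + 1) /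
        (2 * io L Ω)) * E4 L p q Ω (2 * n + 1) z + 0 * E4 L p q Ω (2 * n + 1) z) =
        WE L p q Ω n := by
      funext z
      unfold WE
      ring
    rw [← e, h3, zero_div]
  have k5 := indW hv hrec h hpq hE hW (fun i hi => v_lam hv n (hE.pn i hi))
    (fun z hz => WE_dif hv h hpq n hz) S.insertNone (Finset.Subset.refl _)
  rw [k0, zero_sub, Valuation.map_neg, k4, v_eight hv] at k5
  have k6 : v (2 : ℂ) * v 4 < v 4 := by
    calc v 2 * v 4 < 1 * v 4 := mul_lt_mul_of_pos_right t2 h40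
      _ = v 4 := one_mul _
  exact absurd k5 (not_le.2 k6)

end val

end Pool.Agent.N843.E
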