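import Pool.Agent.N843.Eh

/-!
# The nonvanishing of the central values of even weight
-/

set_option autoImplicit false
set_option linter.unusedSectionVars false
set_option linter.unusedSimpArgs false

open Filter
open scoped Topology PeriodPair

namespace Pool.Agent.N843.E

open H667R3 Pool.Agent.TH936.CW Pool.Agent.W192.HK Pool.Agent.Y690.NV Pool.Agent.TH936.PU
open Pool.Agent.N843 Pool.Agent.N843.X
open Pool.Agent.Y698 (RR al al_sq al_ne bl bl_ne al_mul_bl LD tA tB aR aR_coe bR bR_coe cX cY co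
  co_uniq al_im_pos Xx_per Tb v_two v_two_lt v_bl fin_quot aR_mul_bR two_coe nR cj mul_cj cj_coe
  nR_mul e7 e7_per e7_mul e7_neg e7_one e7_eq_zero e7_sq fR fR_ne fR_sq irr_fR cj_cj)
open Pool.Agent.Y698.SG (Pe Mu Rd sy sy_per hc hc_val hcprod tr v_RR gd mc mr S_REC lg)
open Pool.Agent.TH936.CM (IsLat Dd)
open Pool.Agent.R426.QD (Pn Fa r4 r4_zero r4_unit r4_a tp nb nb_or nb_r4 Lv pe C7 fa_ext c7_cop)
open Pool.Agent.R426.QC (prime_aR)

variable {L : PeriodPair} {Ω p q : ℂ}
variable {ι : Type} [DecidableEq ι] {π : ι → RR}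

lemma four_eq : (4 : RR) = (aR * aR) * (bR * bR) := by
  have h : (2 : RR) = aR * bR := aR_mul_bR.symm
  have e : (4 : RR) = 2 * 2 := by norm_num
  rw [e, h]
  ring

lemma cop_four {a : RR} : IsCoprime a (4 : RR) ↔ ¬ aR ∣ a ∧ ¬ bR ∣ a := by
  rw [four_eq, IsCoprime.mul_right_iff, IsCoprime.mul_right_iff, IsCoprime.mul_right_iff,
    and_self_iff, and_self_iff, cop_prime prime_aR, cop_prime prime_bR,
    Ideal.mem_span_singleton, Ideal.mem_span_singleton]

lemma aR_cop_bR : IsCoprime aR bR := by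
  refine ⟨1, 1, ?_⟩
  apply Subtype.ext
  push_cast
  rw [aR_coe, bR_coe]
  unfold bl
  ring

lemma e4_zero_a {a : RR} (h : aR ∣ a) : e4 a = 0 := by
  obtain ⟨c, rfl⟩ := h
  unfold e4
  rw [map_mul r4, r4_a]
  have : ∀ t : ZMod 4, ZMod.χ₄ (2 * t) = 0 := by decide
  rw [this, zero_mul]
  norm_num

lemma e4_zero_b {a : RR} (h : bR ∣ a) : e4 a = 0 := by
  obtain ⟨c, rfl⟩ := h
  unfold e4
  rw [map_mul cj, cj_bR', map_mul r4 aR, r4_a]
  have : ∀ t : ZMod 4, ZMod.χ₄ (2 * t) = 0 := by decide
  rw [this, mul_zero]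
  norm_num

lemma e4_zero {a : RR} : e4 a = 0 ↔ ¬ IsCoprime a (4 : RR) := by
  rw [cop_four]
  constructor
  · rintro h ⟨h1, h2⟩
    rcases e4_unit h1 h2 with h3 | h3 <;> rw [h3] at h <;> norm_num at h
  · intro h
    rw [not_and_or, not_not, not_not] at h
    rcases h with h | h
    · exact e4_zero_a h
    · exact e4_zero_b h

lemma r4_sq {x : RR} (h : aR * aR ∣ x) : r4 x = 0 := by
  obtain ⟨c, rfl⟩ := h
  rw [map_mul, map_mul, r4_a]
  have : (2 : ZMod 4) * 2 = 0 := by decide
  rw [this, zero_mul]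

lemma r4_sq' {x : RR} (h : bR * bR ∣ x) : r4 (cj x) = 0 := by
  obtain ⟨c, rfl⟩ := h
  apply r4_sq
  rw [map_mul, map_mul, cj_bR']
  exact Dvd.intro _ rfl

lemma chi4_one : ZMod.χ₄ 1 = 1 := by decide
lemma chi4_m : ZMod.χ₄ (-1) = -1 := by decide

/-- the character modulo `4 μ` -/
theorem cx_four {μ : RR} {y : RR → ℂ} (h : Cx μ y) (hμ : No μ) :
    Cx (4 * μ) (fun g => e4 g * y g) := by
  have hc := no_four hμ
  have h4 : (4 : RR) * μ ≠ 0 := mul_ne_zero four_ne hμ.ne
  have hcop : ∀ a, IsCoprime a (4 * μ) ↔ IsCoprime a (4 : RR) ∧ IsCoprime a μ := fun a =>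
    IsCoprime.mul_right_iff
  have hval : ∀ a, IsCoprime a (4 * μ) → e4 a * y a = 1 ∨ e4 a * y a = -1 := by
    intro a ha
    rw [hcop, cop_four] at ha
    exact Pool.Agent.Y698.SG.sgn_mul (e4_unit ha.1.1 ha.1.2) (h.sgn a ha.2)
  refine ⟨h4, ?_, ?_, ?_, (e4_per.mono (Dvd.intro _ rfl)).mul
    (h.per.mono (Dvd.intro_left _ rfl)), ?_, hval, ?_⟩
  · intro a b
    show e4 (a * b) * y (a * b) = e4 a * y a * (e4 b * y b)
    rw [e4_mul, h.mul]
    ring
  · show e4 1 * y 1 = 1
    rw [e4_one, h.one, one_mul]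
  · intro a
    show e4 (-a) * y (-a) = -(e4 a * y a)
    rw [e4_neg, h.neg]
    ring
  · intro a
    show e4 a * y a = 0 ↔ _
    rw [mul_eq_zero, hcop, not_and_or, e4_zero, h.zero]
  · intro m hm hm2
    obtain ⟨k, hk⟩ := hm
    have hk0 : k ≠ 0 := by
      rintro rfl
      rw [mul_zero] at hk
      exact h4 hk
    have hku : ¬ IsUnit k := by
      intro hu
      apply hm2
      rw [hk]
      exact (IsUnit.mul_right_dvd hu).2 dvd_rfl
    obtain ⟨ρ, hρ, hρk⟩ := WfDvdMonoid.exists_irreducible_factor hku hk0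
    have hρp : Prime ρ := hρ.prime
    obtain ⟨k', hk'⟩ := hρk
    have hμk : 4 * μ = ρ * (m * k') := by rw [hk, hk']; ring
    have hρm : ρ ∣ 4 * μ := ⟨m * k', hμk⟩
    have two : aR * bR ∣ (2 : RR) := by rw [aR_mul_bR]
    rcases hρp.dvd_or_dvd hρm with h1 | h1
    · -- the prime divides four
      rw [four_eq] at h1
      have h2 : ρ ∣ aR ∨ ρ ∣ bR := by
        rcases hρp.dvd_or_dvd h1 with h1 | h1
        · rcases hρp.dvd_or_dvd h1 with h1 | h1 <;> exact Or.inl h1
        · rcases hρp.dvd_or_dvd h1 with h1 | h1 <;> exact Or.inr h1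
      rcases h2 with h2 | h2
      · obtain ⟨u, hu⟩ := (hρp.dvd_prime_iff_associated prime_aR).1 h2
        have hcc : IsCoprime (aR * aR) (bR * bR * μ) :=
          ((aR_cop_bR.mul_right aR_cop_bR).mul_right hμ.a).mul_left
            ((aR_cop_bR.mul_right aR_cop_bR).mul_right hμ.a)
        obtain ⟨a, ha1, ha2⟩ := crt2 hcc (-1) 1
        have hr : r4 a = -1 := by
          have := r4_sq ha1
          rw [map_sub r4, map_neg r4, map_one r4, sub_eq_zero] at this
          exact this
        have hr' : r4 (cj a) = 1 := by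
          have := r4_sq' (x := a - 1) ((Dvd.intro _ rfl).trans ha2)
          rw [map_sub cj, map_sub r4, map_one cj, map_one r4, sub_eq_zero] at this
          exact this
        have hy : y a = 1 := by
          rw [← h.one]
          exact h.per _ _ (Ideal.mem_span_singleton.2 ((Dvd.intro_left _ rfl).trans ha2))
        refine ⟨a, ?_, ?_⟩
        · have h3 : m ∣ aR * (bR * bR * μ) := by
            have h4' : ρ * (m * k') = ρ * (↑u * (aR * (bR * bR * μ))) := by
              rw [← hμk, four_eq]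
              linear_combination (-(aR * (bR * bR) * μ)) * hu
            have h5 := mul_left_cancel₀ hρp.ne_zero h4'
            have h6 : m ∣ ↑u * (aR * (bR * bR * μ)) := ⟨k', h5.symm⟩
            exact (IsUnit.dvd_mul_left u.isUnit).1 h6
          refine h3.trans (IsCoprime.mul_dvd ?_ ?_ ha2)
          · exact (aR_cop_bR.mul_right aR_cop_bR).mul_right hμ.a
          · have e : a - 1 = (a - -1) - 2 := by ring
            rw [e]
            exact dvd_sub ((Dvd.intro _ rfl).trans ha1) ((Dvd.intro _ rfl).trans two)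
        · show e4 a * y a = -1
          unfold e4
          rw [hr, hr', hy, chi4_m, chi4_one]
          norm_num
      · obtain ⟨u, hu⟩ := (hρp.dvd_prime_iff_associated prime_bR).1 h2
        have cba := aR_cop_bR.symm
        have hcc : IsCoprime (bR * bR) (aR * aR * μ) :=
          ((cba.mul_right cba).mul_right hμ.b).mul_left ((cba.mul_right cba).mul_right hμ.b)
        obtain ⟨a, ha1, ha2⟩ := crt2 hcc (-1) 1
        have hr : r4 a = 1 := by
          have := r4_sq (x := a - 1) ((Dvd.intro _ rfl).trans ha2)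
          rw [map_sub r4, map_one r4, sub_eq_zero] at this
          exact this
        have hr' : r4 (cj a) = -1 := by
          have := r4_sq' ha1
          rw [map_sub cj, map_sub r4, map_neg cj, map_neg r4, map_one cj, map_one r4,
            sub_eq_zero] at this
          exact this
        have hy : y a = 1 := by
          rw [← h.one]
          exact h.per _ _ (Ideal.mem_span_singleton.2 ((Dvd.intro_left _ rfl).trans ha2))
        refine ⟨a, ?_, ?_⟩
        · have h3 : m ∣ bR * (aR * aR * μ) := by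
            have h4' : ρ * (m * k') = ρ * (↑u * (bR * (aR * aR * μ))) := by
              rw [← hμk, four_eq]
              linear_combination (-(bR * (aR * aR) * μ)) * hu
            have h5 := mul_left_cancel₀ hρp.ne_zero h4'
            have h6 : m ∣ ↑u * (bR * (aR * aR * μ)) := ⟨k', h5.symm⟩
            exact (IsUnit.dvd_mul_left u.isUnit).1 h6
          refine h3.trans (IsCoprime.mul_dvd ?_ ?_ ha2)
          · exact (cba.mul_right cba).mul_right hμ.b
          · have e : a - 1 = (a - -1) - 2 := by ring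
            rw [e]
            exact dvd_sub ((Dvd.intro _ rfl).trans ha1) ((Dvd.intro_left _ rfl).trans two)
        · show e4 a * y a = -1
          unfold e4
          rw [hr, hr', hy, chi4_m, chi4_one]
          norm_num
    · -- the prime divides `μ`
      obtain ⟨μ', hμ'⟩ := h1
      have hμ0 := hμ.ne
      have hn : ¬ μ ∣ μ' := by
        rintro ⟨c, hc'⟩
        have h5 : μ * (ρ * c) = μ * 1 := by
          rw [mul_one]
          conv_rhs => rw [hμ', hc']
          ring
        have h6 := mul_left_cancel₀ hμ0 h5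
        exact hρp.not_isUnit (IsUnit.of_mul_eq_one c h6)
      obtain ⟨a', ha1, ha2⟩ := h.prim μ' (Dvd.intro_left _ hμ'.symm) hn
      obtain ⟨a, hb1, hb2⟩ := crt2 hc 1 a'
      have hy : y a = -1 := by
        rw [← ha2]
        exact h.per _ _ (Ideal.mem_span_singleton.2 hb2)
      have he : e4 a = 1 := by
        rw [← e4_one]
        exact e4_per _ _ (Ideal.mem_span_singleton.2 hb1)
      refine ⟨a, ?_, by show e4 a * y a = -1; rw [he, hy, one_mul]⟩
      have h3 : m ∣ 4 * μ' := by
        have h4' : ρ * (m * k') = ρ * (4 * μ') := by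
          rw [← hμk]
          conv_lhs => rw [hμ']
          ring
        exact ⟨k', (mul_left_cancel₀ hρp.ne_zero h4').symm⟩
      have hc' : IsCoprime (4 : RR) μ' := hc.of_isCoprime_of_dvd_right (Dvd.intro_left _ hμ'.symm)
      refine h3.trans (IsCoprime.mul_dvd hc' hb1 ?_)
      have e : a - 1 = (a - a') + (a' - 1) := by ring
      rw [e]
      exact dvd_add ((Dvd.intro_left _ hμ'.symm).trans hb2) ha1

lemma no_fR {S : Finset ι} (hS : Fe S π) : No (fR * ∏ i ∈ S, π i) := by
  have h := fa_no (fa_ext hS.fa hS.c7)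
  rw [prod_ext, neg_mul] at h
  refine ⟨neg_ne_zero.1 h.ne, ?_, ?_⟩
  · exact (IsCoprime.neg_right_iff _ _).1 h.a
  · exact (IsCoprime.neg_right_iff _ _).1 h.b

lemma cx_mul4 {μ : RR} {y : RR → ℂ} (h : Cx μ y) (h2 : IsCoprime (2 : RR) μ) (x : RR) :
    y (4 * x) = y x := by
  have h5 : (4 : RR) = 2 * 2 := by norm_num
  rw [h.mul, h5, h.mul, sq_one_of (h.sgn _ h2), one_mul]

/-- **the nonvanishing of the central values of even weight** -/
theorem nonvanE (hbasic : H_BASIC) (hfp : H_FP) (hcnt : H_CNT) (hdec : H_DEC) (hafe : H_AFE)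
    (hrec : S_REC) {S : Finset ι} (hS : Fe S π) (hg : gd (mc π) (mr π) S ≠ 0)
    (h1 : X.ch π S aR = 1) (h2 : X.ch π S bR = 1) (n : ℕ) :
    NZ1 (fun g => e4 g * (e7 g * X.ch π S g)) (2 * n + 1) := by
  obtain ⟨L, Ω, h⟩ := Pool.Agent.Y698.exists_LD
  obtain ⟨p, q, hpq⟩ := exists_pq (L := L)
  have hp : Prime aR := Pool.Agent.R426.QC.prime_aR
  have hP : (sp aR).IsPrime := (Ideal.span_singleton_prime hp.ne_zero).2 hp
  obtain ⟨B, hB⟩ := Pool.Agent.Y698.exists_vs (sp aR)
  have hv : B.valuation al < 1 := by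
    have := hB aR (Ideal.mem_span_singleton_self aR)
    rwa [aR_coe] at this
  have k1 := nv_even hv hrec h hpq n hS hg h1 h2
  have hcx := cx_ev hS
  have hNo := no_fR hS
  have hcx4 := cx_four hcx hNo
  have h4 := fun x => cx_mul4 hcx (by
    rw [← aR_mul_bR]
    exact hNo.a.mul_left hNo.b) x
  refine nonvanG hbasic hfp hcnt hdec hafe h hpq hcx4 (2 * n + 1) fun h0 => k1 ?_
  rw [Bd_four h.lat hpq (2 * n + 1) hNo hcx.per h4] at h0
  have h5 : Pool.Agent.R426.QD.Bd Ω (E4 L p q Ω (2 * n + 1)) (fR * ∏ i ∈ S, π i)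
      (fun g => e7 g * X.ch π S g) = 0 := by
    refine (mul_eq_zero.1 h0).resolve_left ?_
    rcases no_e4 hNo with h6 | h6 <;> rw [h6] <;> norm_num
  rw [neg_mul, bq_negm h.lat (E4_ds h.lat hpq (2 * n + 1) hNo) (fun z => E4_neg h.lat hpq _ z)
    hNo.ne hcx.per, h5, neg_zero]

end Pool.Agent.N843.E
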