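import Pool.Agent.N843.Xe

/-!
# The L-series over `ℚ` of the twists
-/

set_option autoImplicit false
set_option linter.unusedSectionVars false
set_option linter.unusedSimpArgs false
set_option linter.unusedVariables false

open Filter
open scoped Topology PeriodPair NumberTheorySymbols

namespace Pool.Agent.N843.X

open H667R3 Pool.Agent.TH936.CW Pool.Agent.W192.HK Pool.Agent.TH936.PU
open Pool.Agent.N843
open Pool.Agent.Y698 (RR al al_sq al_ne bl bl_ne al_mul_bl LD aR aR_coe bR bR_coe cX cY co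
  v_two v_two_lt fin_quot aR_mul_bR two_coe nR mul_cj cj_coe exists_gen e7 fR nR_aR nR_bR nI nI_sp
  nI_eq_zero Tn mem_Tn nm_nI nR_nonneg sp_eq cXY_of)
open Pool.Agent.Y698.SG (Pe sy gd mc mr inp)
open Pool.Agent.R426.QD (r4 Ev tp Pn)

/-- the vectors of norm `n` -/
noncomputable def vecs (n : ℕ) : Finset (ℤ × ℤ) :=
  (Finset.Icc (-(2 * n : ℤ)) (2 * n) ×ˢ Finset.Icc (-(2 * n : ℤ)) (2 * n)).filter
    fun v => v.1 ^ 2 + v.1 * v.2 + 2 * v.2 ^ 2 = n

lemma mem_vecs {n : ℕ} {v : ℤ × ℤ} : v ∈ vecs n ↔ v.1 ^ 2 + v.1 * v.2 + 2 * v.2 ^ 2 = n := by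
  unfold vecs
  rw [Finset.mem_filter]
  refine ⟨fun h => h.2, fun h => ⟨?_, h⟩⟩
  rw [Finset.mem_product, Finset.mem_Icc, Finset.mem_Icc]
  have h1 : 7 * v.1 ^ 2 + (v.1 + 4 * v.2) ^ 2 = 8 * n := by rw [← h]; ring
  have h2 : 7 * v.2 ^ 2 + (2 * v.1 + v.2) ^ 2 = 4 * n := by rw [← h]; ring
  have h3 : v.1 ^ 2 ≤ 2 * n := by nlinarith [sq_nonneg (v.1 + 4 * v.2)]
  have h4 : v.2 ^ 2 ≤ 2 * n := by nlinarith [sq_nonneg (2 * v.1 + v.2)]
  have hn : (0 : ℤ) ≤ n := Int.natCast_nonneg n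
  have key : ∀ t : ℤ, t ^ 2 ≤ 2 * n → -(2 * n : ℤ) ≤ t ∧ t ≤ 2 * n := by
    intro t ht
    rcases hn.eq_or_lt with h0 | h0
    · have : t = 0 := by
        rw [← h0] at ht
        nlinarith [sq_nonneg t]
      rw [this]
      constructor <;> linarith
    · constructor <;> nlinarith
  exact ⟨key _ h3, key _ h4⟩

/-- the element with the coordinates `v` -/
noncomputable def rv (v : ℤ × ℤ) : RR := (v.1 : RR) + (v.2 : RR) * aR

lemma rv_coe (v : ℤ × ℤ) : (rv v : ℂ) = (v.1 : ℂ) + (v.2 : ℂ) * al := by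
  unfold rv
  push_cast
  rw [aR_coe]

lemma cXY_rv (v : ℤ × ℤ) : cX (rv v) = v.1 ∧ cY (rv v) = v.2 := by
  apply cXY_of
  rw [rv_coe]

lemma nR_rv (v : ℤ × ℤ) : nR (rv v) = v.1 ^ 2 + v.1 * v.2 + 2 * v.2 ^ 2 := by
  unfold Pool.Agent.Y698.nR
  rw [(cXY_rv v).1, (cXY_rv v).2]

lemma rv_inj {v w : ℤ × ℤ} (h : rv v = rv w) : v = w := by
  have h1 := cXY_rv v
  have h2 := cXY_rv w
  rw [h] at h1
  exact Prod.ext (h1.1.symm.trans h2.1) (h1.2.symm.trans h2.2)

lemma rv_surj (g : RR) : rv (cX g, cY g) = g := by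
  apply Subtype.ext
  rw [rv_coe]
  exact (co g).symm

lemma rv_neg (v : ℤ × ℤ) : rv (-v) = -rv v := by
  apply Subtype.ext
  push_cast
  rw [rv_coe, rv_coe]
  simp only [Prod.fst_neg, Prod.snd_neg, Int.cast_neg]
  ring

lemma mem_vecs' {n : ℕ} {v : ℤ × ℤ} : v ∈ vecs n ↔ nI (sp (rv v)) = n := by
  rw [mem_vecs, ← nR_rv, nI_sp]
  have := nR_nonneg (rv v)
  omega

open Classical in
/-- the sums over the vectors and over the ideals -/
lemma sum_vecs (f : Ideal RR → ℂ) {n : ℕ} (hn : n ≠ 0) :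
    ∑ v ∈ vecs n, f (sp (rv v)) = 2 * ∑ I ∈ Tn n, f I := by
  have h1 : ∀ v ∈ vecs n, sp (rv v) ∈ Tn n := fun v hv => mem_Tn.2 (mem_vecs'.1 hv)
  rw [← Finset.sum_fiberwise_of_maps_to h1, Finset.mul_sum]
  refine Finset.sum_congr rfl fun I hI => ?_
  obtain ⟨g, rfl⟩ := exists_gen I
  rw [mem_Tn] at hI
  have hg : g ≠ 0 := by
    rintro rfl
    apply hn
    rw [← hI, nI_eq_zero]
    exact Ideal.span_singleton_eq_bot.2 rfl
  set w : ℤ × ℤ := (cX g, cY g) with hw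
  have hwg : rv w = g := rv_surj g
  have hset : (vecs n).filter (fun v => sp (rv v) = sp g) = {w, -w} := by
    ext v
    rw [Finset.mem_filter, Finset.mem_insert, Finset.mem_singleton, mem_vecs']
    constructor
    · rintro ⟨-, h3⟩
      rcases sp_eq h3 with h4 | h4
      · left
        exact rv_inj (h4.trans hwg.symm)
      · right
        apply rv_inj
        rw [rv_neg, hwg, h4]
    · rintro (h3 | h3)
      · rw [h3, hwg]
        exact ⟨hI, rfl⟩
      · rw [h3, rv_neg, hwg]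
        have : sp (-g) = sp g := Ideal.span_singleton_neg _
        rw [this]
        exact ⟨hI, rfl⟩
  have hne : w ≠ -w := by
    intro h
    apply hg
    have h3 : rv w = -rv w := by
      conv_lhs => rw [h]
      rw [rv_neg]
    rw [hwg] at h3
    have h4 : (2 : RR) * g = 0 := by linear_combination h3
    exact (mul_eq_zero.1 h4).resolve_left two_ne_zero
  rw [hset, Finset.sum_pair hne, rv_neg, hwg]
  have : sp (-g) = sp g := Ideal.span_singleton_neg _
  rw [this]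
  ring

/-- the L-series -/
theorem lser {x : RR → ℂ} {μ : RR} (hx : Cx μ x) {m : ℕ} (hm : m ≠ 0) {s F : ℂ}
    (h : HasSum (fun J : Ideal RR => tw x m J * (nm J : ℂ) ^ (-s)) F) :
    LSeriesHasSum (fun n => (∑ v ∈ vecs n, (x (rv v) * (rv v : ℂ)) ^ m) / 2) s F := by
  classical
  have h1 := h.tsum_fiberwise (fun J : Ideal RR => nI J)
  unfold LSeriesHasSum
  refine (congrArg (fun g => HasSum g F) (funext fun n => ?_)).mp h1
  have hset : (fun J : Ideal RR => nI J) ⁻¹' {n} = ((Tn n : Finset (Ideal RR)) : Set (Ideal RR)) := by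
    ext J
    rw [Finset.mem_coe, mem_Tn]
    rfl
  rw [hset, Finset.tsum_subtype' (Tn n) (fun J : Ideal RR => tw x m J * (nm J : ℂ) ^ (-s))]
  rcases eq_or_ne n 0 with rfl | hn
  · rw [LSeries.term_zero]
    refine Finset.sum_eq_zero fun J hJ => ?_
    rw [mem_Tn, nI_eq_zero] at hJ
    have h3 : J = sp (0 : RR) := by
      rw [hJ]
      exact Ideal.span_singleton_zero.symm
    rw [h3, hx.tw_sp, ZeroMemClass.coe_zero, mul_zero, zero_pow hm, zero_mul]
  · rw [LSeries.term_of_ne_zero hn]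
    have h2 := sum_vecs (fun J => tw x m J * (nm J : ℂ) ^ (-s)) hn
    have h3 : ∑ v ∈ vecs n, (fun J => tw x m J * (nm J : ℂ) ^ (-s)) (sp (rv v)) =
        (∑ v ∈ vecs n, (x (rv v) * (rv v : ℂ)) ^ m) / (n : ℂ) ^ s := by
      rw [Finset.sum_div]
      refine Finset.sum_congr rfl fun v hv => ?_
      simp only
      rw [hx.tw_sp, nm_nI, mem_vecs'.1 hv, Complex.ofReal_natCast, Complex.cpow_neg,
        div_eq_mul_inv]
    rw [h3] at h2
    linear_combination (-1 / 2 : ℂ) * h2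

/-! ### the newforms and their twists -/

/-- the coefficients of the theta series of weight `m + 1` of the Hecke character of `X_0(49)` -/
noncomputable def cf (z : ℂ) (m n : ℕ) : ℂ :=
  (∑ v ∈ vecs n, (jacobiSym (v.1 + 4 * v.2) 7 : ℂ) * ((v.1 : ℂ) + (v.2 : ℂ) * z) ^ m) / 2

lemma e7_rv (v : ℤ × ℤ) : e7 (rv v) = (jacobiSym (v.1 + 4 * v.2) 7 : ℂ) := by
  have _ : Fact (Nat.Prime 7) := ⟨by norm_num⟩
  unfold e7
  rw [← jacobiSym.legendreSym.to_jacobiSym]
  unfold legendreSym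
  rw [Pool.Agent.Y698.r7_apply, (cXY_rv v).1, (cXY_rv v).2]
  push_cast
  rw [mul_comm (4 : ZMod 7)]

lemma odd_pow_sgn {a : ℂ} (h : a = 0 ∨ a = 1 ∨ a = -1) (k : ℕ) : a ^ (2 * k + 1) = a := by
  rcases h with h | h | h
  · rw [h, zero_pow (by omega)]
  · rw [h, one_pow]
  · rw [h, Odd.neg_one_pow ⟨k, rfl⟩]

/-- the coefficients are real: the two embeddings -/
lemma cf_conj (m n : ℕ) : cf (1 - al) m n = cf al m n := by
  unfold cf
  congr 1
  refine Finset.sum_nbij' (fun v => (v.1 + v.2, -v.2)) (fun v => (v.1 + v.2, -v.2)) ?_ ?_ ?_ ?_ ?_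
  · intro v hv
    rw [mem_vecs] at hv ⊢
    simp only
    rw [← hv]
    ring
  · intro v hv
    rw [mem_vecs] at hv ⊢
    simp only
    rw [← hv]
    ring
  · intro v hv
    simp
  · intro v hv
    simp
  · intro v hv
    simp only
    have h1 : jacobiSym (v.1 + v.2 + 4 * -v.2) 7 = jacobiSym (v.1 + 4 * v.2) 7 := by
      apply jacobiSym.mod_left'
      push_cast
      omega
    rw [h1]
    congr 1
    push_cast
    congr 1
    ring

/-- **the central values over `ℚ`** -/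
theorem coreL {D : ℕ} {S : Finset RR} (h : FD D S)
    (hg : gd (mc fun p : RR => p) (mr fun p : RR => p) S ≠ 0) {z : ℂ} (hz : z ^ 2 = z - 2) (n : ℕ) :
    ∃ F : ℂ → ℂ, Differentiable ℂ F ∧
      (∀ s : ℂ, ((2 * n + 1 : ℕ) : ℝ) + 1 / 2 < s.re →
        LSeriesHasSum (fun l => (jacobiSym l D : ℂ) * cf z (2 * (2 * n) + 1) l) s (F s)) ∧
      F ((2 * n + 1 : ℕ) : ℂ) ≠ 0 := by
  classical
  have hbasic := Pool.Agent.W287.HK.h_basic
  have hcls := Pool.Agent.W571.HK.h_cls hbasic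
  have hfp := Pool.Agent.W53.HK.h_fp hbasic hcls
  have hfpr := Pool.Agent.W366.HK.h_fpr hbasic hcls
  have hlat := Pool.Agent.W585.HK.h_lat hbasic
  have hker := Pool.Agent.W692.HK.h_ker hbasic hcls hfpr
  have hcnt := Pool.Agent.W584.HK.h_cnt hbasic hcls hfpr hlat hker
  have hdec := Pool.Agent.W856.HK.h_dec hbasic
  have hgauss := Pool.Agent.W636.HK.h_gauss hbasic hfp
  have hpois := Pool.Agent.W348.HK.h_pois hbasic
  have htheta := Pool.Agent.TH936.HK.h_theta hbasic hfp hdec hgauss hpois hcnt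
  have hafe := Pool.Agent.TH936.HK.h_afe hbasic hfp hcnt hgauss htheta
  have hC := cx_ev (Fe.of h.ev)
  obtain ⟨F, hF1, hF2, hF3⟩ := nonvanX hbasic hfp hcnt hdec hafe inp.rec' (Fe.of h.ev) hg
    h.chA h.chB n
  refine ⟨F, hF1, fun s hs => ?_, hF3⟩
  have h1 := lser hC (m := 2 * (2 * n) + 1) (by omega) (hF2 s hs)
  have hzz : cf z (2 * (2 * n) + 1) = cf al (2 * (2 * n) + 1) := by
    rcases conj_z hz with rfl | rfl
    · rfl
    · rw [al_cj]
      exact funext fun l => cf_conj _ l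
  rw [hzz]
  refine (congrArg (fun g => LSeriesHasSum g s (F s)) (funext fun l => ?_)).mp h1
  unfold cf
  rw [← mul_div_assoc, Finset.mul_sum]
  congr 1
  refine Finset.sum_congr rfl fun v hv => ?_
  rw [h.ch_eq, nR_rv, mem_vecs.1 hv, mul_pow, e7_rv, mul_pow, rv_coe]
  have k1 : ((jacobiSym (v.1 + 4 * v.2) 7 : ℤ) : ℂ) ^ (2 * (2 * n) + 1) =
      ((jacobiSym (v.1 + 4 * v.2) 7 : ℤ) : ℂ) := by
    apply odd_pow_sgn
    rcases jacobiSym.trichotomy (v.1 + 4 * v.2) 7 with h | h | h <;> rw [h] <;> simp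
  have k2 : ((jacobiSym (l : ℤ) D : ℤ) : ℂ) ^ (2 * (2 * n) + 1) =
      ((jacobiSym (l : ℤ) D : ℤ) : ℂ) := by
    apply odd_pow_sgn
    rcases jacobiSym.trichotomy (l : ℤ) D with h | h | h <;> rw [h] <;> simp
  rw [k1, k2]
  ring

end Pool.Agent.N843.X
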