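import Pool.Agent.N843.Ei
import Pool.Agent.N843.Xf

/-!
# The central values of the even weights for all the twists of `X_0(49)` by `-D`, `D ≡ 1 mod 8`
-/

set_option autoImplicit false
set_option linter.unusedSectionVars false
set_option linter.unusedSimpArgs false
set_option linter.unusedVariables false

open Filter IsDedekindDomain
open scoped Topology PeriodPair NumberTheorySymbols

namespace Pool.Agent.N843.E

open H667R3 Pool.Agent.TH936.CW Pool.Agent.W192.HK Pool.Agent.TH936.PU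
open Pool.Agent.N843 Pool.Agent.N843.X
open Pool.Agent.Y698 (RR al al_sq al_ne bl bl_ne al_mul_bl LD aR aR_coe bR bR_coe cX cY co
  v_two v_two_lt fin_quot aR_mul_bR two_coe nR mul_cj cj cj_coe exists_gen e7 fR nR_aR nR_bR
  AP EX card_sp)
open Pool.Agent.Y698.SG (Pe sy gd mc mr inp)
open Pool.Agent.R384 (OO)
open Pool.Agent.R426.QD (r4 Ev tp Pn)

lemma e4_nR (x : RR) : e4 x = ((ZMod.χ₄ ((nR x : ℤ) : ZMod 4) : ℤ) : ℂ) := by
  have h1 := congrArg r4 (mul_cj x)
  rw [map_mul, map_intCast] at h1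
  rw [← h1, map_mul ZMod.χ₄]
  rfl

/-- the Hecke character of the twist by `-D` -/
structure PsiE (D : ℕ) (z : ℂ) (ψ : Ideal OO → ℂ) : Prop where
  mul : ∀ I J : Ideal OO, ψ (I * J) = ψ I * ψ J
  val : ∀ x : OO, ψ (Ideal.span {x}) = (jacobiSym (x.re + 4 * x.im) 7 : ℂ) *
    ((ZMod.χ₄ ((x.re ^ 2 + x.re * x.im + 2 * x.im ^ 2 : ℤ) : ZMod 4) *
      jacobiSym (x.re ^ 2 + x.re * x.im + 2 * x.im ^ 2) D : ℤ) : ℂ) *
    ((x.re : ℂ) + (x.im : ℂ) * z)

lemma PsiE.conj {D : ℕ} {z : ℂ} {ψ : Ideal OO → ℂ} (h : PsiE D z ψ) :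
    PsiE D ((starRingEnd ℂ) z) (fun I => (starRingEnd ℂ) (ψ I)) := by
  refine ⟨fun I J => by rw [h.mul, map_mul], fun x => ?_⟩
  rw [h.val, map_mul, map_mul, map_intCast (starRingEnd ℂ), map_intCast (starRingEnd ℂ), map_add,
    map_mul, map_intCast (starRingEnd ℂ), map_intCast (starRingEnd ℂ)]

/-- the character -/
noncomputable def xE (S : Finset RR) (g : RR) : ℂ := e4 g * (e7 g * X.ch (fun p : RR => p) S g)

lemma xE_cx {D : ℕ} {S : Finset RR} (h : FD D S) : Cx (4 * (fR * ∏ p ∈ S, p)) (xE S) :=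
  cx_four (cx_ev (Fe.of h.ev)) (no_fR (Fe.of h.ev))

lemma psiE_of {D : ℕ} {S : Finset RR} (h : FD D S) : PsiE D al (psi (xE S)) := by
  have hC := xE_cx h
  refine ⟨hC.psi_mul, fun x => ?_⟩
  rw [hC.psi_sp, pH_coe]
  unfold xE
  rw [e7_pH, h.ch_eq, e4_nR, nR_pH]
  push_cast
  ring

/-- the relation with the character of the twist by `D` -/
lemma PsiE.eq {D : ℕ} {z : ℂ} {ψ ψ0 : Ideal OO → ℂ} (h : PsiE D z ψ) (h0 : PsiQ D z ψ0) (x : OO) :
    ψ (Ideal.span {x}) = ((ZMod.χ₄ ((x.re ^ 2 + x.re * x.im + 2 * x.im ^ 2 : ℤ) : ZMod 4) : ℤ) : ℂ) *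
      ψ0 (Ideal.span {x}) := by
  rw [h.val, h0.val]
  push_cast
  ring

/-! ### the points -/

section points

variable {F : Type} [Field F] [Fintype F] [DecidableEq F]

lemma cnt_char (hF : ringChar F ≠ 2) (f : F → F) :
    ((Nat.card {v : F × F // v.2 ^ 2 = f v.1} : ℕ) : ℤ) =
      Fintype.card F + ∑ x : F, quadraticChar F (f x) := by
  have e : {v : F × F // v.2 ^ 2 = f v.1} ≃ (x : F) × {y : F // y ^ 2 = f x} :=
    { toFun := fun p => ⟨p.1.1, ⟨p.1.2, p.2⟩⟩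
      invFun := fun q => ⟨(q.1, q.2.1), q.2.2⟩
      left_inv := fun p => rfl
      right_inv := fun q => rfl }
  rw [Nat.card_congr e, Nat.card_eq_fintype_card, Fintype.card_sigma]
  push_cast
  have h1 : ∀ x : F, (Fintype.card {y : F // y ^ 2 = f x} : ℤ) = 1 + quadraticChar F (f x) := by
    intro x
    rw [add_comm, ← quadraticChar_card_sqrts hF (f x), Set.toFinset_card]
    rfl
  simp only [h1]
  rw [Finset.sum_add_distrib]
  simp

/-- the model of the twist by `-D` -/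
def WM (D : ℕ) : WeierstrassCurve ℤ :=
  ⟨0, 3 * (D : ℤ), 0, -32 * (D : ℤ) ^ 2, 64 * (D : ℤ) ^ 3⟩

lemma two_ne_of (hF : ringChar F ≠ 2) : (2 : F) ≠ 0 := Ring.two_ne_zero hF

lemma cnt_EX (hF : ringChar F ≠ 2) (j : F) : Nat.card {v : F × F //
    (EX F j).toAffine.Equation v.1 v.2} = Nat.card {v : F × F // v.2 ^ 2 =
      (fun x => x ^ 3 - 3 * (1 + 4 * j) * x ^ 2 - 32 * (1 + 4 * j) ^ 2 * x -
        64 * (1 + 4 * j) ^ 3) v.1} := by
  have h2 := two_ne_of hF
  refine Nat.card_congr ?_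
  have k : ∀ x y : F, (EX F j).toAffine.Equation x y ↔ (4 * (2 * y + x)) ^ 2 =
      (4 * x) ^ 3 - 3 * (1 + 4 * j) * (4 * x) ^ 2 - 32 * (1 + 4 * j) ^ 2 * (4 * x) -
        64 * (1 + 4 * j) ^ 3 := by
    intro x y
    rw [WeierstrassCurve.Affine.equation_iff]
    have e1 : (EX F j).toAffine.a₁ = 1 := rfl
    have e2 : (EX F j).toAffine.a₂ = -(1 + 3 * j) := rfl
    have e3 : (EX F j).toAffine.a₃ = 0 := rfl
    have e4' : (EX F j).toAffine.a₄ = -2 * (1 + 4 * j) ^ 2 := rfl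
    have e6 : (EX F j).toAffine.a₆ = -(1 + 4 * j) ^ 3 := rfl
    rw [e1, e2, e3, e4', e6]
    have h64 : (64 : F) ≠ 0 := by
      have : (64 : F) = 2 ^ 6 := by norm_num
      rw [this]
      exact pow_ne_zero _ h2
    constructor
    · intro h
      linear_combination 64 * h
    · intro h
      apply mul_left_cancel₀ h64
      linear_combination h
  refine ⟨fun v => ⟨(4 * v.1.1, 4 * (2 * v.1.2 + v.1.1)), (k _ _).1 v.2⟩,
    fun v => ⟨(v.1.1 / 4, (v.1.2 / 4 - v.1.1 / 4) / 2), (k _ _).2 ?_⟩, ?_, ?_⟩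
  · have h4 : (4 : F) ≠ 0 := by
      have : (4 : F) = 2 * 2 := by norm_num
      rw [this]
      exact mul_ne_zero h2 h2
    have hv := v.2
    have e1 : 4 * (2 * ((v.1.2 / 4 - v.1.1 / 4) / 2) + v.1.1 / 4) = v.1.2 := by
      field_simp
      ring
    have e2 : 4 * (v.1.1 / 4) = v.1.1 := by field_simp
    rw [e1, e2]
    exact hv
  · intro v
    have h4 : (4 : F) ≠ 0 := by
      have : (4 : F) = 2 * 2 := by norm_num
      rw [this]
      exact mul_ne_zero h2 h2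
    apply Subtype.ext
    apply Prod.ext
    · show 4 * v.1.1 / 4 = v.1.1
      field_simp
    · show (4 * (2 * v.1.2 + v.1.1) / 4 - 4 * v.1.1 / 4) / 2 = v.1.2
      field_simp
      ring
  · intro v
    have h4 : (4 : F) ≠ 0 := by
      have : (4 : F) = 2 * 2 := by norm_num
      rw [this]
      exact mul_ne_zero h2 h2
    apply Subtype.ext
    apply Prod.ext
    · show 4 * (v.1.1 / 4) = v.1.1
      field_simp
    · show 4 * (2 * ((v.1.2 / 4 - v.1.1 / 4) / 2) + v.1.1 / 4) = v.1.2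
      field_simp
      ring

lemma cnt_WM (hF : ringChar F ≠ 2) (D : ℕ) : Nat.card {v : F × F //
    ((WM D).map (Int.castRingHom F)).toAffine.Equation v.1 v.2} = Nat.card {v : F × F // v.2 ^ 2 =
      (fun x => x ^ 3 + 3 * (D : F) * x ^ 2 - 32 * (D : F) ^ 2 * x + 64 * (D : F) ^ 3) v.1} := by
  refine Nat.card_congr (Equiv.subtypeEquivRight fun v => ?_)
  rw [WeierstrassCurve.Affine.equation_iff]
  have e1 : ((WM D).map (Int.castRingHom F)).toAffine.a₁ = 0 := by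
    show (Int.castRingHom F) 0 = 0
    rw [map_zero]
  have e2 : ((WM D).map (Int.castRingHom F)).toAffine.a₂ = 3 * (D : F) := by
    show (Int.castRingHom F) (3 * (D : ℤ)) = _
    rw [eq_intCast]
    push_cast
    rfl
  have e3 : ((WM D).map (Int.castRingHom F)).toAffine.a₃ = 0 := by
    show (Int.castRingHom F) 0 = 0
    rw [map_zero]
  have e4' : ((WM D).map (Int.castRingHom F)).toAffine.a₄ = -32 * (D : F) ^ 2 := by
    show (Int.castRingHom F) (-32 * (D : ℤ) ^ 2) = _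
    rw [eq_intCast]
    push_cast
    rfl
  have e6 : ((WM D).map (Int.castRingHom F)).toAffine.a₆ = 64 * (D : F) ^ 3 := by
    show (Int.castRingHom F) (64 * (D : ℤ) ^ 3) = _
    rw [eq_intCast]
    push_cast
    rfl
  rw [e1, e2, e3, e4', e6]
  constructor
  · intro h
    show v.2 ^ 2 = _
    linear_combination h
  · intro h
    have h' : v.2 ^ 2 = v.1 ^ 3 + 3 * (D : F) * v.1 ^ 2 - 32 * (D : F) ^ 2 * v.1 +
      64 * (D : F) ^ 3 := h
    linear_combination h'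

/-- the numbers of the points of the two twists -/
lemma cnt_tw (hF : ringChar F ≠ 2) {D j : ℕ} (hj : D = 1 + 4 * j) :
    ((Nat.card {v : F × F // ((WM D).map (Int.castRingHom F)).toAffine.Equation v.1 v.2} : ℕ) : ℤ) -
      Fintype.card F = ZMod.χ₄ (Fintype.card F) *
    (((Nat.card {v : F × F // (EX F (j : F)).toAffine.Equation v.1 v.2} : ℕ) : ℤ) -
      Fintype.card F) := by
  have a1 := cnt_char hF (fun x : F => x ^ 3 + 3 * (D : F) * x ^ 2 - 32 * (D : F) ^ 2 * x +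
    64 * (D : F) ^ 3)
  have a2 := cnt_char hF (fun x : F => x ^ 3 - 3 * (1 + 4 * (j : F)) * x ^ 2 -
    32 * (1 + 4 * (j : F)) ^ 2 * x - 64 * (1 + 4 * (j : F)) ^ 3)
  rw [cnt_EX hF, cnt_WM hF, a1, a2, add_sub_cancel_left, add_sub_cancel_left,
    ← quadraticChar_neg_one hF, Finset.mul_sum]
  rw [← Equiv.sum_comp (Equiv.neg F) (fun x : F => quadraticChar F (x ^ 3 + 3 * (D : F) * x ^ 2 -
    32 * (D : F) ^ 2 * x + 64 * (D : F) ^ 3))]
  refine Finset.sum_congr rfl fun x _ => ?_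
  rw [← map_mul]
  congr 1
  rw [Equiv.neg_apply, hj]
  push_cast
  ring

end points

/-- **the Euler factors** -/
theorem eulE {D : ℕ} {S : Finset RR} (h : FD D S) {j : ℕ}
    (hj : D = 1 + 4 * j) {z : ℂ} (hz : z ^ 2 = z - 2)
    {ψ ψ0 : Ideal OO → ℂ} (hψ : PsiE D z ψ) (hψ0 : PsiQ D z ψ0) (A : HeightOneSpectrum OO)
    (h7D : ((14 * D : ℕ) : OO) ∉ A.asIdeal) :
    ((Nat.card {x : (OO ⧸ A.asIdeal) × (OO ⧸ A.asIdeal) //
        ((WM D).map (Int.castRingHom (OO ⧸ A.asIdeal))).toAffine.Equation x.1 x.2} : ℕ) : ℂ) =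
      (Nat.card (OO ⧸ A.asIdeal) : ℂ) - (ψ A.asIdeal + (starRingEnd ℂ) (ψ A.asIdeal)) := by
  classical
  have h7 : ((7 * (1 + 4 * j) : ℕ) : OO) ∉ A.asIdeal := by
    intro h1
    apply h7D
    have := A.asIdeal.mul_mem_left 2 h1
    convert this using 1
    rw [hj]
    push_cast
    ring
  have h2 : (2 : OO) ∉ A.asIdeal := by
    intro h1
    apply h7D
    have := A.asIdeal.mul_mem_left ((7 * D : ℕ) : OO) h1
    convert this using 1
    push_cast
    ring
  have key := eulX h hj hz hψ0 A h7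
  obtain ⟨g, hg⟩ : ∃ g : OO, A.asIdeal = Ideal.span {g} := by
    obtain ⟨g, hg⟩ := (IsPrincipalIdealRing.principal A.asIdeal).principal
    exact ⟨g, hg⟩
  have hg0 : g ≠ 0 := by
    rintro rfl
    rw [Ideal.span_singleton_zero] at hg
    exact A.ne_bot hg
  have hrel := hψ.eq hψ0 g
  rw [← hg] at hrel
  have hcard := card_map g
  rw [← hg] at hcard
  have hfin : Finite (OO ⧸ A.asIdeal) := by
    apply Nat.finite_of_card_ne_zero
    have h3 := Pool.Agent.Y698.nR_pos (r := pH g) (fun h0 => hg0 (pH_inj (by rw [h0, map_zero])))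
    rw [← hcard] at h3
    omega
  have hmax : A.asIdeal.IsMaximal := A.isPrime.isMaximal A.ne_bot
  letI : Field (OO ⧸ A.asIdeal) := Ideal.Quotient.field _
  letI : Fintype (OO ⧸ A.asIdeal) := Fintype.ofFinite _
  have hF : ringChar (OO ⧸ A.asIdeal) ≠ 2 := by
    intro h1
    have h3 : ((2 : ℕ) : OO ⧸ A.asIdeal) = 0 := by
      rw [ringChar.spec, h1]
    apply h2
    rw [← Ideal.Quotient.eq_zero_iff_mem]
    rw [map_ofNat]
    exact_mod_cast h3
  have hN : ((Fintype.card (OO ⧸ A.asIdeal) : ℕ) : ℤ) = g.re ^ 2 + g.re * g.im + 2 * g.im ^ 2 := by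
    rw [← Nat.card_eq_fintype_card, ← nR_pH]
    exact hcard
  have hχ : ZMod.χ₄ ((Fintype.card (OO ⧸ A.asIdeal) : ℕ) : ZMod 4) =
      ZMod.χ₄ ((g.re ^ 2 + g.re * g.im + 2 * g.im ^ 2 : ℤ) : ZMod 4) := by
    rw [← hN, Int.cast_natCast]
  have h5 := cnt_tw (F := OO ⧸ A.asIdeal) hF hj
  rw [hχ] at h5
  have h6 := congrArg (fun t : ℤ => (t : ℂ)) h5
  push_cast at h6
  rw [← Nat.card_eq_fintype_card, key] at h6
  rw [hrel, map_mul, map_intCast (starRingEnd ℂ)]
  have e : ∀ a b c d : ℂ, a - b = c * (b - d - b) → a = b - c * d := fun a b c d h => by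
    linear_combination h
  have h8 := e _ _ _ _ h6
  rw [h8]
  push_cast
  ring

end Pool.Agent.N843.E
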