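import Pool.Agent.N843.Gauge
import Pool.Agent.Y690.X.Pts

/-!
# The values of the Eisenstein-Kronecker functions at `±T + Q`
-/

set_option autoImplicit false
set_option linter.unusedSectionVars false
set_option linter.unusedSimpArgs false

open scoped PeriodPair

namespace Pool.Agent.N843

open H667R3 Pool.Agent.TH936.CW Pool.Agent.Y690.NV MvPolynomial Finset

/-! ### composition of the changes of gauge -/

section comp

variable {B : Type*} [CommRing B]

lemma ca_comp (n i j : ℕ) (h : i + j ≤ n) :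
    ca n j * ca (n - j) i = ca n (i + j) * (i + j).choose j := by
  unfold ca
  have h1 : n.choose (i + j) * (i + j).choose j = n.choose j * (n - j).choose i := by
    have h2 := Nat.choose_mul (n := n) (k := i + j) (s := j) (by omega)
    rw [Nat.add_sub_cancel] at h2
    exact h2
  have h3 : (i + j).choose j * (i.factorial * j.factorial) = (i + j).factorial := by
    have h4 := Nat.choose_mul_factorial_mul_factorial (show j ≤ i + j by omega)
    rw [Nat.add_sub_cancel] at h4
    rw [← h4]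
    ring
  calc n.choose j ^ 2 * j.factorial * ((n - j).choose i ^ 2 * i.factorial)
      = (n.choose j * (n - j).choose i) ^ 2 * (i.factorial * j.factorial) := by ring
    _ = (n.choose (i + j)) ^ 2 * ((i + j).choose j * (i.factorial * j.factorial)) *
        (i + j).choose j := by rw [← h1]; ring
    _ = _ := by rw [h3]

theorem Sg_comp [Algebra ℂ B] (ψ₁ ψ₂ : B) (M : ℕ → B) (n : ℕ) :
    Sg ψ₁ (Sg ψ₂ M) n = Sg (ψ₁ + ψ₂) M n := by
  unfold Sg
  have h1 : ∀ j ∈ range (n + 1), (ca n j : B) * (ψ₁ ^ j * ∑ i ∈ range (n - j + 1),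
      (ca (n - j) i : B) * (ψ₂ ^ i * M (n - j - i))) =
      ∑ k ∈ range (n + 1), if j ≤ k then (ca n k : B) * ((k.choose j : B) *
        (ψ₁ ^ j * ψ₂ ^ (k - j)) * M (n - k)) else 0 := by
    intro j hj
    have hj' : j ≤ n := by
      have := mem_range.1 hj
      omega
    rw [← sum_filter]
    have h2 : (range (n + 1)).filter (fun k => j ≤ k) = (range (n - j + 1)).map
        (addRightEmbedding j) := by
      ext k
      simp only [mem_filter, mem_range, mem_map, addRightEmbedding_apply]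
      constructor
      · rintro ⟨h3, h4⟩
        exact ⟨k - j, by omega, by omega⟩
      · rintro ⟨a, h3, rfl⟩
        omega
    rw [h2, sum_map, mul_sum, mul_sum]
    refine sum_congr rfl fun i hi => ?_
    have hi' : i ≤ n - j := by
      have := mem_range.1 hi
      omega
    have h3 := congrArg (Nat.cast : ℕ → B) (ca_comp n i j (by omega))
    push_cast at h3
    rw [addRightEmbedding_apply, Nat.add_sub_cancel, show n - j - i = n - (i + j) by omega]
    linear_combination (ψ₁ ^ j * ψ₂ ^ i * M (n - (i + j))) * h3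
  rw [sum_congr rfl h1, sum_comm]
  refine sum_congr rfl fun k hk => ?_
  have hk' : k ≤ n := by
    have := mem_range.1 hk
    omega
  rw [← sum_filter]
  have h2 : (range (n + 1)).filter (fun j => j ≤ k) = range (k + 1) := by
    ext j
    simp only [mem_filter, mem_range]
    omega
  rw [h2, add_pow, sum_mul, mul_sum]
  refine sum_congr rfl fun j _ => ?_
  ring

lemma Sg_map {B' : Type*} [CommRing B'] [Algebra ℂ B] [Algebra ℂ B'] (f : B →+* B') (ψ : B)
    (M : ℕ → B) (n : ℕ) : f (Sg ψ M n) = Sg (f ψ) (fun k => f (M k)) n := by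
  unfold Sg
  rw [map_sum]
  refine sum_congr rfl fun j _ => ?_
  rw [map_mul, map_mul, map_pow, map_natCast]

lemma Sg_mapA {B' : Type*} [CommRing B'] [Algebra ℂ B] [Algebra ℂ B'] (f : B →ₐ[ℂ] B') (ψ : B)
    (M : ℕ → B) (n : ℕ) : f (Sg ψ M n) = Sg (f ψ) (fun k => f (M k)) n :=
  Sg_map (f : B →+* B') ψ M n

lemma Sg_sub [Algebra ℂ B] (ψ : B) (M N : ℕ → B) (n : ℕ) :
    Sg ψ (fun k => M k - N k) n = Sg ψ M n - Sg ψ N n := by
  unfold Sg
  rw [← sum_sub_distrib]
  refine sum_congr rfl fun j _ => ?_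
  ring

end comp

/-! ### parity -/

variable {L : PeriodPair} {p q : ℂ}

lemma ekp_eq (n : ℕ) {z : ℂ} (hz : z ∉ L.lattice) :
    (n.factorial : ℂ) * ek L p q n z = evG L p q ((starRingEnd ℂ) z) z
      (Sg (C (-p) : U) Dn n) := evz_Ppp L p q _ n hz

lemma evG_C (v z a : ℂ) (u : U) : evG L p q v z (C a * u) = a * evG L p q v z u := by
  rw [map_mul, ← algebraMap_eq, AlgHom.commutes]
  rfl

lemma E1p_neg {z : ℂ} : E1 L p q (-z) = -E1 L p q z := by
  unfold E1 Xx
  rw [zeta_neg, map_neg]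
  ring

lemma Xx_E1 (z : ℂ) : Xx L p q ((starRingEnd ℂ) z) z = E1 L p q z := rfl

/-- homogeneity of the transformed polynomials -/
lemma mc_Sg (c a : ℂ) (n : ℕ) : mc c (Sg (C (c ^ 2 * a) : U) Dn n) =
    C (c ^ (2 * n + 1)) * Sg (C a : U) Dn n := by
  unfold Sg
  rw [map_sum, mul_sum]
  refine sum_congr rfl fun j hj => ?_
  have hj' : j ≤ n := by
    have := mem_range.1 hj
    omega
  have h1 : mc c (C (c ^ 2 * a)) = C (c ^ 2 * a) := by
    rw [← algebraMap_eq, AlgHom.commutes]
  have e : 2 * n + 1 = 2 * j + (2 * (n - j) + 1) := by omega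
  rw [map_mul, map_natCast, map_mul, map_pow, h1, (mc_Dn c (n - j)).1, e, pow_add c (2 * j), map_mul,
    pow_mul, map_mul, mul_pow]
  simp only [map_pow]
  ring

theorem ekp_neg (n : ℕ) {z : ℂ} (hz : z ∉ L.lattice) : ek L p q n (-z) = -ek L p q n z := by
  have hz' : -z ∉ L.lattice := fun h => hz (by
    have := neg_mem h
    rwa [neg_neg] at this)
  have h : evG L p q ((starRingEnd ℂ) (-z)) (-z) =
      (evG L p q ((starRingEnd ℂ) z) z).comp (mc (-1)) := by
    refine MvPolynomial.algHom_ext fun i => ?_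
    fin_cases i
    · show evG L p q _ _ vE = evG L p q _ _ (mc _ vE)
      rw [mc_E, evG_C, evG_E, evG_E, Xx_E1, Xx_E1, E1p_neg]
      ring
    · show evG L p q _ _ vX = evG L p q _ _ (mc _ vX)
      rw [mc_X, evG_C, evG_X, evG_X, L.weierstrassP_neg]
      ring
    · show evG L p q _ _ vY = evG L p q _ _ (mc _ vY)
      rw [mc_Y, evG_C, evG_Y, evG_Y, L.derivWeierstrassP_neg]
      ring
    · show evG L p q _ _ vG = evG L p q _ _ (mc _ vG)
      rw [mc_G, evG_C, evG_G, evG_G]
      ring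
  have h1 := ekp_eq (p := p) (q := q) n hz'
  have e1 : (C (-p) : U) = C ((-1) ^ 2 * -p) := by
    congr 1
    ring
  rw [h, AlgHom.comp_apply, e1, mc_Sg, evG_C, ← ekp_eq n hz] at h1
  have h2 := fne n
  have h3 : (n.factorial : ℂ) * ek L p q n (-z) = (n.factorial : ℂ) * (-ek L p q n z) := by
    rw [h1]
    have : (-1 : ℂ) ^ (2 * n + 1) = -1 := Odd.neg_one_pow ⟨n, rfl⟩
    rw [this]
    ring
  exact mul_left_cancel₀ h2 h3

/-! ### the values -/

/-- the point of order four; `c` is a scaling factor -/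
structure TQ (L : PeriodPair) (p q c B s T : ℂ) : Prop where
  nm : 2 * T ∉ L.lattice
  fo : 4 * T ∈ L.lattice
  c0 : c ≠ 0
  B0 : B ≠ 0
  x : c ^ 2 * ℘[L] T = (1 + B) / 3
  y : c ^ 3 * ℘'[L] T = -2 * s * B
  e : c * E1 L p q T = s / 2
  g : c ^ 4 * L.g₂ = 4 / 3 * (1 - 4 * B + B ^ 2)

variable {c B s T Q : ℂ}

lemma TQ.neg (h : TQ L p q c B s T) : TQ L p q c B (-s) (-T) := by
  refine ⟨fun h1 => h.nm ?_, ?_, h.c0, h.B0, ?_, ?_, ?_, h.g⟩
  · have := neg_mem h1
    rwa [← mul_neg, neg_neg] at this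
  · have := neg_mem h.fo
    rwa [← mul_neg] at this
  · rw [L.weierstrassP_neg, h.x]
  · rw [L.derivWeierstrassP_neg]
    linear_combination (-1 : ℂ) * h.y
  · rw [E1p_neg]
    linear_combination (-1 : ℂ) * h.e

/-- the coordinates of a point -/
noncomputable def xiQ (L : PeriodPair) (c B Q : ℂ) : ℂ := 1 + (c ^ 2 * ℘[L] Q - (1 + B) / 3) / B
/-- the coordinates of a point -/
noncomputable def etQ (L : PeriodPair) (c B Q : ℂ) : ℂ := c ^ 3 * ℘'[L] Q / (2 * B)
/-- the coordinates of a point -/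
noncomputable def epQ (L : PeriodPair) (p q c Q : ℂ) : ℂ := c * E1 L p q Q
/-- the point of evaluation -/
noncomputable def ptQ (B ξ η ε : ℂ) : Fin 5 → ℂ := ![B, ξ, η, ε, (ξ - 1)⁻¹]

lemma xiQ_ne (hT : TQ L p q c B s T) (hQ : Q ∉ L.lattice) (h1 : T + Q ∉ L.lattice)
    (h2 : T - Q ∉ L.lattice) : xiQ L c B Q - 1 ≠ 0 := by
  have hT' := two_mul_notMem_of L hT.nm
  have h3 : ℘[L] T - ℘[L] Q ≠ 0 := by
    rw [sub_ne_zero, Ne, wp_eq_iff L hT' hQ]
    tauto
  unfold xiQ
  rw [← hT.x, add_sub_cancel_left, ← mul_sub]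
  refine div_ne_zero (mul_ne_zero (pow_ne_zero _ hT.c0) ?_) hT.B0
  rw [← neg_sub]
  exact neg_ne_zero.2 h3

theorem evG_ps (hs : s = 1 ∨ s = -1) (hT : TQ L p q c B s T)
    (hQ : Q ∉ L.lattice) (h1 : T + Q ∉ L.lattice) (h2 : T - Q ∉ L.lattice) (u : U) :
    evG L p q ((starRingEnd ℂ) (T + Q)) (T + Q) (mc c u) =
      eval (ptQ B (xiQ L c B Q) (etQ L c B Q) (epQ L p q c Q)) (ps s u) := by
  have hT' := two_mul_notMem_of L hT.nm
  have hξ := xiQ_ne hT hQ h1 h2
  have hB := hT.B0
  have hc := hT.c0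
  have hX : ℘[L] Q = ((1 + B) / 3 + B * (xiQ L c B Q - 1)) / c ^ 2 := by
    unfold xiQ
    field_simp
    ring
  have hXT : ℘[L] T = ((1 + B) / 3) / c ^ 2 := by
    rw [← hT.x]
    field_simp
  have hY : ℘'[L] Q = 2 * B * etQ L c B Q / c ^ 3 := by
    unfold etQ
    field_simp
  have hYT : ℘'[L] T = -2 * s * B / c ^ 3 := by
    rw [← hT.y]
    field_simp
  have hE : E1 L p q Q = epQ L p q c Q / c := by
    unfold epQ
    field_simp
  have hET : E1 L p q T = s / 2 / c := by
    rw [← hT.e]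
    field_simp
  have hg : L.g₂ = 4 / 3 * (1 - 4 * B + B ^ 2) / c ^ 4 := by
    rw [← hT.g]
    field_simp
  set ξ := xiQ L c B Q with hξd
  set η := etQ L c B Q with hηd
  set ε := epQ L p q c Q with hεd
  have h5 : (1 - ξ) ≠ 0 := fun h => hξ (by linear_combination -h)
  have hd : (1 + B) / 3 / c ^ 2 - ((1 + B) / 3 + B * (ξ - 1)) / c ^ 2 = -(B * (ξ - 1)) / c ^ 2 := by
    field_simp
    ring
  have h : (evG L p q ((starRingEnd ℂ) (T + Q)) (T + Q)).comp (mc c) =
      (aeval (ptQ B ξ η ε)).comp (ps s) := by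
    refine MvPolynomial.algHom_ext fun i => ?_
    fin_cases i
    · show evG L p q _ _ (mc c vE) = aeval _ (ps s vE)
      rw [mc_E, evG_C, evG_E, ps_E]
      rw [Xx_E1, E1_add hT' hQ h1 h2, hXT, hYT, hET, hX, hY, hE, aeval_eq_eval]
      unfold pE aE aH aT ptQ
      simp only [map_add, map_mul, eval_X, eval_C]
      simp only [Matrix.cons_val, coe_eval₂Hom]
      rw [hd]
      rcases hs with rfl | rfl
      · field_simp
        ring
      · field_simp
        ring
    · show evG L p q _ _ (mc c vX) = aeval _ (ps s vX)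
      rw [mc_X, evG_C, evG_X, ps_X, wp_add L hT.nm hQ h1 h2, hXT, hYT, hX, hY, hg, aeval_eq_eval]
      unfold pX aB aX aH aT ptQ
      simp only [map_add, map_mul, map_pow, map_one, map_ofNat, eval_X, eval_C]
      simp only [Matrix.cons_val, coe_eval₂Hom]
      rw [hd]
      rcases hs with rfl | rfl
      · field_simp
        ring
      · field_simp
        ring
    · show evG L p q _ _ (mc c vY) = aeval _ (ps s vY)
      rw [mc_Y, evG_C, evG_Y, ps_Y, wp'_add L hT.nm hQ h1 h2, hXT, hYT, hX, hY, hg, aeval_eq_eval]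
      unfold pY aB aH aT ptQ
      simp only [map_neg, map_add, map_mul, map_pow, map_one, map_ofNat, eval_X, eval_C]
      simp only [Matrix.cons_val, coe_eval₂Hom]
      rw [hd]
      rcases hs with rfl | rfl
      · field_simp
        ring
      · field_simp
        ring
    · show evG L p q _ _ (mc c vG) = aeval _ (ps s vG)
      rw [mc_G, evG_C, evG_G, ps_G, hg, aeval_eq_eval]
      unfold aG aB ptQ
      simp only [map_add, map_sub, map_mul, map_pow, map_one, map_ofNat, eval_X, eval_C]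
      simp only [Matrix.cons_val, coe_eval₂Hom]
      field_simp
      ring
  have h' := congrArg (fun f => f u) h
  simp only [AlgHom.comp_apply] at h'
  rw [h', aeval_eq_eval]

end Pool.Agent.N843
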