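import Pool.Agent.N843.Pt

/-!
# The Euler factors of the curves
-/

set_option autoImplicit false
set_option linter.unusedSectionVars false
set_option linter.unusedSimpArgs false
set_option linter.unusedVariables false

open IsDedekindDomain

namespace Pool.Agent.N843

open H667R3 Pool.Agent.TH936.CW Pool.Agent.W192.HK Pool.Agent.TH936.PU
open Pool.Agent.Y698 (RR al al_sq al_ne bl bl_ne al_mul_bl LD aR aR_coe bR bR_coe cX cY co
  v_two v_two_lt fin_quot aR_mul_bR two_coe nR mul_cj cj_coe exists_gen AP EX count_tw count_sq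
  card_sp fR e7 cXY_neg e7_eq_zero e7_neg fR_sq nR_fR)
open Pool.Agent.Y279.SG (cXY_cj)
open Pool.Agent.Y698.SG (Pe sy sy_val sy_sgn lg lg_one lg_neg_one)
open Pool.Agent.R384 (OO om qs Sqm Pr em qs_zero Indec)
open Pool.Agent.R426.QC (Pm recip prime_fR)
open Pool.Agent.R426.QD (r4 r4_eq P3 odd_cases sy_mulO sy_neg' et recG pn_fR p3_fR sy_fR tp
  neg_one_notin sy_oneO two_fR)

lemma card_map (g : OO) : (Nat.card (OO ⧸ Ideal.span {g}) : ℤ) = nR (pH g) := by
  rw [← card_sp]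
  congr 1
  exact Nat.card_congr (Ideal.quotientEquiv (Ideal.span {g}) (sp (pH g)) pE
    (by rw [← map_sp])).toEquiv

lemma pH_prime {g : OO} : Prime (pH g) ↔ Prime g := by
  rw [← pE_apply]
  exact MulEquiv.prime_iff pE

lemma pm_of {q : OO} (h : Pr q) : Pm (pH q) := by
  refine ⟨pH_prime.2 h.prime, ?_⟩
  obtain ⟨u, hu⟩ := h.one
  exact ⟨pH u, by rw [← map_ofNat pH 4, ← map_mul, ← hu, map_sub, map_one]; ring⟩

lemma pH_cj (g : OO) : pH (Pool.Agent.R384.cj g) = Pool.Agent.Y698.cj (pH g) := by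
  apply Pool.Agent.Y698.RR_ext
  · rw [(cXY_pH _).1, (cXY_cj _).1, (cXY_pH _).1, (cXY_pH _).2]
    rfl
  · rw [(cXY_pH _).2, (cXY_cj _).2, (cXY_pH _).2]
    rfl

lemma pH_f : pH (2 * om - 1) = fR := by
  rw [map_sub, map_mul, map_one, map_ofNat, pH_om]
  rfl

lemma tr_eq (g : OO) : ((pH g : RR) : ℂ) + (Pool.Agent.Y698.cj (pH g) : ℂ) =
    2 * (g.re : ℂ) + (g.im : ℂ) := by
  rw [← pH_cj, pH_coe, pH_coe]
  have e1 : (Pool.Agent.R384.cj g).re = g.re + g.im := rfl
  have e2 : (Pool.Agent.R384.cj g).im = -g.im := rfl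
  rw [e1, e2]
  push_cast
  ring

section main

variable {n : ℕ} {q : Fin n → OO} (hq : ∀ i, Pr (q i)) {D v : OO}

include hq

/-- the symbols of the parameter -/
lemma sy_D (hD : (D = ∏ i, q i ∧ v = 1 - om) ∨ (D = -∏ i, q i ∧ v = om)) {g : OO} (hg : Prime g)
    (h2 : ¬ g ∣ 2) (hgD : ¬ g ∣ D) :
    sg (pH g) * sy (pH g) (pH D) = (sgm v g : ℂ) * ∏ i, (smb (q i) g : ℂ) := by
  have hP : Prime (pH g) := pH_prime.2 hg
  have hP2 : ¬ pH g ∣ 2 := by
    rw [← map_ofNat pH 2, pH_dvd]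
    exact h2
  have hgp : ¬ g ∣ ∏ i, q i := by
    rcases hD with ⟨h, -⟩ | ⟨h, -⟩
    · rwa [← h]
    · rw [h, dvd_neg] at hgD
      exact hgD
  have hgq : ∀ i, ¬ g ∣ q i := fun i h =>
    hgp (h.trans (Finset.dvd_prod_of_mem _ (Finset.mem_univ i)))
  have hprod : ∀ T : Finset (Fin n), sy (pH g) (pH (∏ i ∈ T, q i)) =
      ∏ i ∈ T, (smb (q i) g : ℂ) := by
    intro T
    induction T using Finset.induction_on with
    | empty => rw [Finset.prod_empty, Finset.prod_empty, map_one, sy_oneO hP]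
    | insert a T ha ih =>
      rw [Finset.prod_insert ha, Finset.prod_insert ha, map_mul, sy_mulO hP hP2, ih, ← sy_smb]
      congr 1
      refine (recip (pm_of (hq a)) hP hP2 ?_ ?_).symm
      · rw [pH_mem]
        exact hgq a
      · rw [pH_mem]
        intro h
        exact hgq a (((hq a).prime.dvd_prime_iff_associated hg).1 h).symm.dvd
  rcases hD with ⟨h, hv⟩ | ⟨h, hv⟩
  · rw [h, hprod, hv, sg_sgm]
  · rw [h, map_neg, sy_neg' hP hP2, hprod, hv]
    have h3 := sy_neg_one hP hP2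
    rw [← pH_cj, sg_sgm (Pool.Agent.R384.cj g)] at h3
    have h4 : sgm (1 - om) (Pool.Agent.R384.cj g) = sgm om g := by
      have h5 : Pool.Agent.R384.cj om = 1 - om := by
        rw [← cj_om, Pool.Agent.R384.cj_cj, cj_om]
      rw [← sgm_cj om g, h5]
    rw [h4] at h3
    rw [← h3]
    ring

/-- the trace of Frobenius -/
theorem eul_g (hD : (D = ∏ i, q i ∧ v = 1 - om) ∨ (D = -∏ i, q i ∧ v = om)) {g : OO}
    (hg : Prime g) (h2 : ¬ g ∣ 2) (hgD : ¬ g ∣ D) :
    (((Nat.card (OO ⧸ Ideal.span {g}) : ℤ) -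
      Nat.card {x : (OO ⧸ Ideal.span {g}) × (OO ⧸ Ideal.span {g}) //
        (crv (Ideal.Quotient.mk (Ideal.span {g}) om)
          (Ideal.Quotient.mk (Ideal.span {g}) D)).toAffine.Equation x.1 x.2} : ℤ) : ℂ) =
      (sgm v g : ℂ) * (∏ i, (smb (q i) g : ℂ)) * (2 * (g.re : ℂ) + (g.im : ℂ)) := by
  classical
  have hP : Prime (pH g) := pH_prime.2 hg
  have hP2 : ¬ pH g ∣ 2 := by
    rw [← map_ofNat pH 2, pH_dvd]
    exact h2
  have hI : (Ideal.span {g}).IsPrime := (Ideal.span_singleton_prime hg.ne_zero).2 hg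
  have hM : (Ideal.span {g}).IsMaximal := hI.isMaximal (by
    rw [Ne, Ideal.span_singleton_eq_bot]
    exact hg.ne_zero)
  have hcard := card_map g
  have hfin : Finite (OO ⧸ Ideal.span {g}) := by
    apply Nat.finite_of_card_ne_zero
    have h3 := Pool.Agent.Y698.nR_pos hP.ne_zero
    rw [← hcard] at h3
    omega
  letI : Field (OO ⧸ Ideal.span {g}) := Ideal.Quotient.field _
  letI : Fintype (OO ⧸ Ideal.span {g}) := Fintype.ofFinite _
  set mk := Ideal.Quotient.mk (Ideal.span {g}) with hmk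
  have hz : ∀ x : OO, mk x = 0 ↔ g ∣ x := fun x => by
    rw [hmk, Ideal.Quotient.eq_zero_iff_mem, Ideal.mem_span_singleton]
  have hk2 : (2 : OO ⧸ Ideal.span {g}) ≠ 0 := by
    intro h
    apply h2
    rw [← hz, map_ofNat]
    exact h
  have hw : (mk om) ^ 2 = mk om - 2 := by
    rw [← map_pow, om_sq, map_sub, map_ofNat]
  have hd : mk D ≠ 0 := fun h => hgD ((hz D).1 h)
  by_cases h7 : g ∣ 7
  · -- the prime above seven
    have h7k : (7 : OO ⧸ Ideal.span {g}) = 0 := by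
      have := (hz 7).2 h7
      rwa [map_ofNat] at this
    have h3 : pH g ∣ fR := by
      have h4 : pH g ∣ fR ^ 2 := by
        rw [fR_sq, dvd_neg, ← map_ofNat pH 7]
        exact pH_dvd.2 h7
      exact hP.dvd_of_dvd_pow h4
    have h4 : sp (pH g) = sp fR := by
      rw [Ideal.span_singleton_eq_span_singleton]
      exact (hP.dvd_prime_iff_associated prime_fR).1 h3
    have h5 := Pool.Agent.Y698.sp_eq h4
    have h6 : nR (pH g) = 7 := by
      rcases h5 with h5 | h5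
      · rw [h5, nR_fR]
      · rw [h5, Pool.Agent.Y698.nR_neg, nR_fR]
    have h8 : Fintype.card (OO ⧸ Ideal.span {g}) % 4 = 3 := by
      rw [← Nat.card_eq_fintype_card]
      rw [h6] at hcard
      omega
    have h9 : 2 * g.re + g.im = 0 := by
      rw [← (cXY_pH g).1, ← (cXY_pH g).2]
      rcases h5 with h5 | h5
      · rw [h5, Pool.Agent.Y698.cXY_fR.1, Pool.Agent.Y698.cXY_fR.2]
        norm_num
      · rw [h5, (cXY_neg _).1, (cXY_neg _).2, Pool.Agent.Y698.cXY_fR.1, Pool.Agent.Y698.cXY_fR.2]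
        norm_num
    have h10 := card_sev (OO ⧸ Ideal.span {g}) hk2 h7k h8 hw (d := mk D)
    rw [h10]
    have h11 : 2 * (g.re : ℂ) + (g.im : ℂ) = 0 := by exact_mod_cast h9
    rw [h11]
    push_cast
    ring
  · have h7k : (7 : OO ⧸ Ideal.span {g}) ≠ 0 := by
      intro h
      apply h7
      rw [← hz, map_ofNat]
      exact h
    have h7P : ¬ pH g ∣ 7 := by
      rw [← map_ofNat pH 7, pH_dvd]
      exact h7
    have hf : ¬ pH g ∣ fR := by
      intro h
      apply h7P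
      have h4 : pH g ∣ fR ^ 2 := h.trans (dvd_pow_self _ two_ne_zero)
      rw [fR_sq, dvd_neg] at h4
      exact h4
    have hf' : ¬ fR ∣ pH g := fun h =>
      hf ((prime_fR.dvd_prime_iff_associated hP).1 h).symm.dvd
    rw [card_tw (OO ⧸ Ideal.span {g}) hk2 h7k hw hd]
    have h3 : -(2 * mk om - 1) * mk D = mk (-(2 * om - 1) * D) := by
      rw [map_mul, map_neg, map_sub, map_mul, map_one, map_ofNat]
    rw [h3]
    have h4 := smb_qc (g := g) (-(2 * om - 1) * D)
    rw [h4]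
    have h5 := Pool.Agent.R426.QC.trace_one (OO ⧸ Ideal.span {g}) hP h7P hcard
    rw [Int.cast_mul, h5, ← sy_smb, map_mul, map_neg, pH_f, sy_mulO hP hP2,
      sy_f hP hP2 (by rwa [Ideal.mem_span_singleton]) (by rwa [Ideal.mem_span_singleton]), tr_eq]
    have h6 := sy_D hq hD hg h2 hgD
    have h8 : e7 (pH g) * e7 (pH g) = 1 := by
      rw [← pow_two]
      exact Pool.Agent.Y698.e7_sq (by rwa [Ideal.mem_span_singleton])
    linear_combination (2 * (g.re : ℂ) + (g.im : ℂ)) * h6 +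
      (sg (pH g) * sy (pH g) (pH D) * (2 * (g.re : ℂ) + (g.im : ℂ))) * h8

/-- **the Euler factors** -/
theorem eul (hD : (D = ∏ i, q i ∧ v = 1 - om) ∨ (D = -∏ i, q i ∧ v = om)) {z : ℂ}
    (hz : z ^ 2 = z - 2) {ψ : Ideal OO → ℂ} (hψ : Psi q v z ψ) (P : HeightOneSpectrum OO)
    (h2D : 2 * D ∉ P.asIdeal) :
    ((Nat.card {x : (OO ⧸ P.asIdeal) × (OO ⧸ P.asIdeal) //
        (crv (Ideal.Quotient.mk P.asIdeal om)
          (Ideal.Quotient.mk P.asIdeal D)).toAffine.Equation x.1 x.2} : ℕ) : ℂ) =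
      (Nat.card (OO ⧸ P.asIdeal) : ℂ) - (ψ P.asIdeal + (starRingEnd ℂ) (ψ P.asIdeal)) := by
  obtain ⟨g, hg⟩ : ∃ g : OO, P.asIdeal = Ideal.span {g} := by
    obtain ⟨g, hg⟩ := (IsPrincipalIdealRing.principal P.asIdeal).principal
    exact ⟨g, hg⟩
  have hpr : Prime g := by
    have h1 := P.isPrime
    have h2 := P.ne_bot
    rw [hg] at h1 h2
    rw [Ne, Ideal.span_singleton_eq_bot] at h2
    exact (Ideal.span_singleton_prime h2).1 h1
  have h2 : ¬ g ∣ 2 := by
    intro h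
    apply h2D
    rw [hg, Ideal.mem_span_singleton]
    exact h.mul_right _
  have hgD : ¬ g ∣ D := by
    intro h
    apply h2D
    rw [hg, Ideal.mem_span_singleton]
    exact h.mul_left _
  have key := eul_g hq hD hpr h2 hgD
  rw [hg, hψ.val]
  have h3 : (starRingEnd ℂ) ((sgm v g : ℂ) * (∏ i, (smb (q i) g : ℂ)) *
      ((g.re : ℂ) + (g.im : ℂ) * z)) = (sgm v g : ℂ) * (∏ i, (smb (q i) g : ℂ)) *
      ((g.re : ℂ) + (g.im : ℂ) * (1 - z)) := by
    have h4 : (starRingEnd ℂ) z = 1 - z := by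
      rcases conj_z hz with h | h
      · rw [h, al_cj]
      · rw [h, Complex.conj_conj, al_cj]; ring
    rw [map_mul, map_mul, map_intCast, map_prod, map_add, map_mul, map_intCast, map_intCast, h4]
    congr 2
    exact Finset.prod_congr rfl fun i _ => map_intCast _ _
  rw [h3]
  push_cast at key
  linear_combination -key

end main

end Pool.Agent.N843
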