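import Mathlib
import Pool.Agent.N843.Em
import Pool.Agent.Results.MP_d4aa36_nt.InfiniteTowersCMForms

/-!
# Many good pairs
-/

set_option autoImplicit false

namespace Pool.Agent.F843

open Pool.Agent.Results.MP_787500_nt.AllWeightsMultiquadraticX49 (Adm RankZeroShaTwo Good Ind InClass
  AtLeast prop c add)
open Pool.Agent.Results.MP_d4aa36_nt.InfiniteTowersCMForms (prop_good tower tower_spec)
open Pool.Agent.N843.Z (Fm Gp)
open Filter
open scoped Classical

lemma adm_fm {D : ℕ} (h : Adm D) (h' : RankZeroShaTwo D) : Fm D := by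
  refine ⟨h.1, h.2.1, fun h7 => ?_, h'⟩
  rcases h.2.2 7 (by norm_num) h7 with h1 | h1 <;> omega

lemma good_gp {M n : ℕ} {d : Fin n → ℕ} (h : Good M d) : Gp M d := fun T => by
  obtain ⟨D, k, h1, h2, h3, h4⟩ := h T
  exact ⟨D, k, h1, adm_fm h2 h3, h4⟩

lemma gp_one {M : ℕ} (h : Fm M) (d : Fin 0 → ℕ) : Gp M d := fun T => by
  refine ⟨M, 1, one_ne_zero, h, ?_⟩
  have hT : T = ∅ := by
    ext i
    exact i.elim0
  rw [hT, Finset.prod_empty]
  ring

/-- two good numbers -/
lemma gp_two {D D' : ℕ} (h : Fm D) (h' : Fm D') : Gp D (fun _ : Fin 1 => D * D') := by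
  intro T
  rcases Finset.eq_empty_or_nonempty T with hT | hT
  · refine ⟨D, 1, one_ne_zero, h, ?_⟩
    rw [hT, Finset.prod_empty]
    ring
  · refine ⟨D', D, h.sq.ne_zero, h', ?_⟩
    have hT' : T = {0} := by
      obtain ⟨x, hx⟩ := hT
      ext y
      rw [Finset.mem_singleton]
      have e1 : y = 0 := Subsingleton.elim _ _
      have e2 : x = 0 := Subsingleton.elim _ _
      constructor
      · intro _
        exact e1
      · intro _
        rw [e1, ← e2]
        exact hx
    rw [hT', Finset.prod_singleton]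
    ring

/-- **many good pairs** -/
theorem atLeast_gp {M n : ℕ} {d : Fin n → ℕ} (hM : InClass M d) {P : ℕ → Prop}
    (hP : ∀ D, Gp (M * D) d → P D) : AtLeast (c ^ 2 ^ n) P := by
  intro x hx
  obtain ⟨h1, h2, h3⟩ := hM
  filter_upwards [prop_good h1 h2 h3 hx] with X hX
  refine hX.trans_le ?_
  unfold prop
  refine div_le_div_of_nonneg_right (Nat.cast_le.2 (Finset.card_le_card fun D hD => ?_))
    (Nat.cast_nonneg _)
  obtain ⟨h4, h5, h6⟩ := Finset.mem_filter.1 hD
  exact Finset.mem_filter.2 ⟨h4, h5, hP D (good_gp h6)⟩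

lemma adm_one : Adm 1 := by
  refine ⟨squarefree_one, rfl, fun p hp h1 => ?_⟩
  exact absurd (Nat.dvd_one.1 h1) hp.one_lt.ne'

/-- many good numbers -/
theorem atLeast_fm {P : ℕ → Prop} (hP : ∀ D, Adm D → RankZeroShaTwo D → P D) : AtLeast c P := by
  intro x hx
  have h := prop_good (n := 0) (M := 1) (d := fun i : Fin 0 => i.elim0) adm_one (fun i => i.elim0)
    (fun T hT => by
      obtain ⟨i, _⟩ := hT
      exact i.elim0) (x := x) (by simpa using hx)
  filter_upwards [h] with X hX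
  refine lt_of_lt_of_le hX ?_
  unfold prop
  refine div_le_div_of_nonneg_right (Nat.cast_le.2 (Finset.card_le_card fun D hD => ?_))
    (Nat.cast_nonneg _)
  obtain ⟨h1, h2, h4⟩ := Finset.mem_filter.1 hD
  refine Finset.mem_filter.2 ⟨h1, h2, hP D h2 ?_⟩
  rw [one_mul] at h4
  obtain ⟨D0, k, h5, h6, h7, h8⟩ := h4 ∅
  rw [Finset.prod_empty, mul_one] at h8
  have hk : k = 1 := by
    have h9 : k * k ∣ D := ⟨D0, by rw [h8]; ring⟩
    exact Nat.isUnit_iff.1 (h2.1 k h9)
  rw [hk, one_pow, mul_one] at h8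
  rw [h8]
  exact h7

/-- **infinite towers** -/
theorem exists_tower {M : ℕ} (hM : Adm M) (hR : RankZeroShaTwo M) : ∃ D : ℕ → ℕ,
    (∀ i, Adm (D i)) ∧ ∀ n : ℕ, Ind (fun i : Fin n => D i) ∧ Gp M (fun i : Fin n => D i) := by
  have hG : Good M (fun i : Fin 0 => tower M i) := fun T => by
    refine ⟨M, 1, one_ne_zero, hM, hR, ?_⟩
    have hT : T = ∅ := by
      ext i
      exact i.elim0
    rw [hT, Finset.prod_empty]
    ring
  refine ⟨tower M, fun i => ?_, fun n => ⟨(tower_spec hM hG n).1.2.2,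
    good_gp (tower_spec hM hG n).2⟩⟩
  have h := (tower_spec hM hG (i + 1)).1.2.1 (Fin.last i)
  simpa using h

end Pool.Agent.F843
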