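import Pool.Agent.N843.Nv
import Pool.Agent.Y690.X.Single
import Pool.Agent.Y698.Wv

/-!
# All the characters `ψ ^ a * conj ψ ^ b`
-/

set_option autoImplicit false
set_option linter.unusedSectionVars false
set_option linter.unusedSimpArgs false
set_option linter.unusedVariables false

open Filter IsDedekindDomain
open scoped Topology PeriodPair

namespace Pool.Agent.N843

open H667R3 Pool.Agent.TH936.CW Pool.Agent.W192.HK Pool.Agent.TH936.PU
open Pool.Agent.Y690.NV (Sg1)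
open Pool.Agent.Y698 (RR al al_sq al_ne bl bl_ne al_mul_bl LD aR aR_coe bR bR_coe cX cY co
  v_two v_two_lt fin_quot aR_mul_bR two_coe nR mul_cj cj_coe exists_gen)
open Pool.Agent.Y698.SG (Pe)
open Pool.Agent.TH936.CM (IsLat)

variable {μ : RR} {x : RR → ℂ}

lemma Cx.conj (h : Cx μ x) (r : RR) : (starRingEnd ℂ) (x r) = x r := by
  by_cases hcop : IsCoprime r μ
  · rcases h.sgn r hcop with h1 | h1 <;> rw [h1] <;> simp
  · rw [(h.zero r).2 hcop, map_zero]

lemma Cx.tw_rel (h : Cx μ x) (hbasic : H_BASIC) {a b : ℕ} (hab : b ≤ a) (hodd : Odd (a + b))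
    (J : Ideal RR) : tw x 1 J ^ a * (starRingEnd ℂ) (tw x 1 J) ^ b =
      tw x (a - b) J * (nm J : ℂ) ^ b := by
  obtain ⟨g, rfl⟩ := exists_gen J
  obtain ⟨b1, b2, b3, b4, b5, b6, b7, -⟩ := hbasic RR al Pool.Agent.Y698.qr
  rw [h.tw_sp, h.tw_sp, b5, ← Complex.mul_conj, pow_one, map_mul, h.conj, mul_pow, mul_pow,
    mul_pow (x g) (g : ℂ) (a - b), mul_pow (g : ℂ)]
  have h1 : x g ^ a * x g ^ b = x g := by
    rw [← pow_add]
    obtain ⟨e, he⟩ := hodd
    rw [he, h.pow_odd]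
  have h3 : x g ^ (a - b) = x g := by
    obtain ⟨e, he⟩ : Odd (a - b) := by
      rw [Nat.odd_sub hab]
      rw [Nat.odd_add] at hodd
      exact hodd
    rw [he, h.pow_odd]
  have h2 : (g : ℂ) ^ a = (g : ℂ) ^ (a - b) * (g : ℂ) ^ b := by
    rw [← pow_add, Nat.sub_add_cancel hab]
  rw [h2, h3]
  linear_combination ((g : ℂ) ^ (a - b) * (g : ℂ) ^ b * (starRingEnd ℂ) (g : ℂ) ^ b) * h1

/-- the nonvanishing for all the powers -/
def NZ (x : RR → ℂ) : Prop := ∀ e : ℕ, ∃ F : ℂ → ℂ, Differentiable ℂ F ∧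
  (∀ z : ℂ, ((e + 1 : ℕ) : ℝ) + 1 / 2 < z.re →
    HasSum (fun J : Ideal RR => tw x (2 * e + 1) J * (nm J : ℂ) ^ (-z)) (F z)) ∧
  F ((e + 1 : ℕ) : ℂ) ≠ 0

theorem Cx.single (h : Cx μ x) (hbasic : H_BASIC) (hz : NZ x) (k a b : ℕ)
    (h1 : a + b = 2 * k - 1) (hk : 1 ≤ k) : Sg1 (tw x 1) k a b := by
  have key : ∀ a b e : ℕ, a + b = 2 * k - 1 → a = b + (2 * e + 1) → Sg1 (tw x 1) k a b := by
    intro a b e h1 h2
    obtain ⟨F, hF1, hF2, hF3⟩ := hz e
    have hHC := h.hc e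
    have hke : k = e + 1 + b := by omega
    have hodd : Odd (a + b) := ⟨k - 1, by omega⟩
    have hab : a - b = 2 * e + 1 := by omega
    obtain ⟨b1, b2, b3, b4, b5, b6, b7, -⟩ := hbasic RR al Pool.Agent.Y698.qr
    have hbot : tw x (2 * e + 1) ⊥ = 0 := (hHC.zero ⊥).2 (Or.inl rfl)
    refine ⟨fun s => F (s - b), by fun_prop, fun s hs => ?_, ?_⟩
    · have hz' : ((e + 1 : ℕ) : ℝ) + 1 / 2 < (s - b).re := by
        rw [Complex.sub_re, Complex.natCast_re]
        rw [hke] at hs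
        push_cast at hs ⊢
        linarith
      have h6 : (fun J : Ideal RR => tw x 1 J ^ a * (starRingEnd ℂ) (tw x 1 J) ^ b *
          (nm J : ℂ) ^ (-s)) = fun J : Ideal RR => tw x (2 * e + 1) J *
          (nm J : ℂ) ^ (-(s - b)) := by
        funext J
        rw [h.tw_rel hbasic (by omega) hodd, hab]
        by_cases hI : J = ⊥
        · rw [hI, hbot, zero_mul, zero_mul, zero_mul]
        · have h7 : (nm J : ℂ) ≠ 0 := by
            have h8 := b3 J hI
            have : nm J ≠ 0 := by linarith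
            exact_mod_cast this
          have h8 : (nm J : ℂ) ^ (-(s - b)) = (nm J : ℂ) ^ (-s) * (nm J : ℂ) ^ b := by
            rw [show -(s - (b : ℂ)) = -s + b by ring, Complex.cpow_add _ _ h7,
              Complex.cpow_natCast]
          rw [h8]
          ring
      rw [h6]
      exact hF2 (s - b) hz'
    · have h7 : (k : ℂ) - b = ((e + 1 : ℕ) : ℂ) := by
        rw [hke]
        push_cast
        ring
      simp only
      rw [h7]
      exact hF3
  rcases lt_or_ge b a with h2 | h2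
  · obtain ⟨e, he⟩ : ∃ e, a = b + (2 * e + 1) := ⟨(a - b - 1) / 2, by omega⟩
    exact key a b e h1 he
  · obtain ⟨e, he⟩ : ∃ e, b = a + (2 * e + 1) := ⟨(b - a - 1) / 2, by omega⟩
    exact (key b a e (by omega) he).swap

lemma Cx.bot (h : Cx μ x) : tw x 1 ⊥ = 0 := ((h.hc 0).zero ⊥).2 (Or.inl rfl)

lemma Cx.top (h : Cx μ x) : tw x 1 ⊤ = 1 := by
  have h3 := (h.hc 0).princ 1 one_ne_zero (by rw [sub_self]; exact (sp μ).zero_mem)
  rwa [sp, Ideal.span_singleton_one, Subring.coe_one, one_pow] at h3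

lemma Cx.multI (h : Cx μ x) (I J : Ideal RR) : tw x 1 (I * J) = tw x 1 I * tw x 1 J :=
  (h.hc 0).mul I J

/-- the Euler product -/
lemma Cx.euler (h : Cx μ x) (hbasic : H_BASIC) {a b : ℕ}
    (hab : a + b ≠ 0) (z F : ℂ) (hF : HasSum (fun J : Ideal RR => tw x 1 J ^ a *
      (starRingEnd ℂ) (tw x 1 J) ^ b * (nm J : ℂ) ^ (-z)) F) :
    HasProd (fun v : HeightOneSpectrum RR => (1 - tw x 1 v.asIdeal ^ a *
      (starRingEnd ℂ) (tw x 1 v.asIdeal) ^ b * (nm v.asIdeal : ℂ) ^ (-z))⁻¹) F := by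
  obtain ⟨b1, b2, b3, b4, b5, b6, b7, -⟩ := hbasic RR al Pool.Agent.Y698.qr
  have hcm : Pool.Agent.Y690.CM (fun J : Ideal RR => tw x 1 J ^ a *
      (starRingEnd ℂ) (tw x 1 J) ^ b * (nm J : ℂ) ^ (-z)) := by
    refine ⟨?_, ?_, fun A B => ?_⟩
    · rw [h.bot, map_zero]
      have : (0 : ℂ) ^ a * 0 ^ b = 0 := by
        rw [← pow_add, zero_pow hab]
      rw [this, zero_mul]
    · rw [h.top, (b7 ⊤).2 rfl, Complex.ofReal_one, Complex.one_cpow, map_one, one_pow, one_pow,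
        mul_one, mul_one]
    · rw [h.multI, b4, Complex.ofReal_mul, Complex.mul_cpow_ofReal_nonneg
        (by rw [nm]; positivity) (by rw [nm]; positivity), map_mul, mul_pow, mul_pow]
      ring
  have h1 := Pool.Agent.Y690.hasProd_ideal hcm hF.summable.norm
  rw [hF.tsum_eq] at h1
  exact h1

/-- the characters that satisfy the conditions -/
theorem nz_of (hbasic : H_BASIC) (hfp : H_FP) (hcnt : H_CNT) (hdec : H_DEC) (hafe : H_AFE)
    {ι : Type} [DecidableEq ι] {π : ι → RR} {S : Finset ι} (hS : Fm S π) (hne : S.Nonempty)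
    (h1 : cc (rr π) (fun i => kp (π i)) S S = 1) (h2 : ch π S aR = -1) : NZ (xs π S) := by
  intro e
  obtain ⟨L, Ω, h⟩ := Pool.Agent.Y698.exists_LD
  obtain ⟨p, q, hpq⟩ := exists_pq (L := L)
  have hp : Prime aR := (Pool.Agent.Y698.irr_of_prime_norm (by
    have h1 : nR aR = 2 := by
      unfold Pool.Agent.Y698.nR
      rw [Pool.Agent.Y698.cXY_aR.1, Pool.Agent.Y698.cXY_aR.2]
      norm_num
    rw [h1]
    norm_num)).prime
  have hP : (sp aR).IsPrime := (Ideal.span_singleton_prime hp.ne_zero).2 hp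
  obtain ⟨B, hB⟩ := Pool.Agent.Y698.exists_vs (sp aR)
  have hv : B.valuation al < 1 := by
    have := hB aR (Ideal.mem_span_singleton_self aR)
    rwa [aR_coe] at this
  exact nonvan7 hbasic hfp hcnt hdec hafe h hpq hS e (v_main hv h hpq e hS hne h1 h2)

end Pool.Agent.N843
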