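import Pool.Agent.Y690.X.Lat
import Pool.Agent.Y690.X.Alg2

/-!
# The Eisenstein-Kronecker polynomials of a lattice and the universal ones, general case
-/

set_option autoImplicit false
set_option linter.unusedSectionVars false

open Filter
open scoped Topology PeriodPair

namespace Pool.Agent.N843

open PowerSeries H667R3 Pool.Agent.TH936.CW Pool.Agent.Y690.NV

variable (L : PeriodPair) (p q : ℂ)

lemma Ty_Mp : th (Ty (Mm L p)) = (1 - sZ (L.g₂ / 12) (L.g₃ / 4) + C p * X ^ 2) * Ty (Mm L p) := by
  have hM := Mm_an L p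
  have hz := zreg_an L
  rw [← Ty_Z, ← Ty_zderiv hM]
  have h2 : (fun z => z * deriv (Mm L p) z) =ᶠ[𝓝 0] fun z => (-1) * (z * (zreg L z * Mm L p z)) +
      p * (z * (z * Mm L p z)) := by
    filter_upwards [Mm_deriv L p] with z hz
    rw [hz]
    ring
  rw [Ty_congr h2, Ty_add (by fun_prop) (by fun_prop), Ty_cmul _ (by fun_prop), Ty_zmul (by fun_prop),
    Ty_mul hz hM, Ty_cmul _ (by fun_prop), Ty_zmul (by fun_prop), Ty_zmul hM, map_neg, map_one]
  ring

/-- the generating series of the polynomials `Uu i / i!` -/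
noncomputable def sUp : PP⟦X⟧ :=
  PowerSeries.mk fun i => MvPolynomial.C (1 / (i.factorial : ℂ)) * Uu p L.g₂ i

lemma th_sUp : th (sUp L p) = X * (hat (Dv p L.g₂) (sUp L p) + C (MvPolynomial.X 0) * sUp L p) := by
  refine PowerSeries.ext fun n => ?_
  rw [coeff_th]
  cases n with
  | zero => simp
  | succ n =>
    rw [coeff_succ_X_mul, map_add, coeff_hat, coeff_C_mul]
    unfold sUp
    rw [coeff_mk, coeff_mk, Derivation.leibniz, Dv_C, smul_zero, add_zero, smul_eq_mul, Uu]
    have h : ((n + 1 : ℕ) : PP) * MvPolynomial.C (1 / ((n + 1).factorial : ℂ)) =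
        MvPolynomial.C (1 / (n.factorial : ℂ)) := by
      rw [← MvPolynomial.C_eq_coe_nat, ← map_mul, Nat.factorial_succ]
      congr 1
      have := fne n
      have h2 : ((n + 1 : ℕ) : ℂ) ≠ 0 := by exact_mod_cast n.succ_ne_zero
      push_cast at h2 ⊢
      field_simp
    linear_combination (Dv p L.g₂ (Uu p L.g₂ n) + MvPolynomial.X 0 * Uu p L.g₂ n) * h

lemma hat_mapp (F : ℂ⟦X⟧) : hat (Dv p L.g₂) (mC F) = 0 := by
  refine PowerSeries.ext fun n => ?_
  rw [coeff_hat, coeff_map, Dv_C, map_zero]

/-- the generating series -/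
noncomputable def sAp : PP⟦X⟧ := mC (Ty (Mm L p)) * sUp L p

lemma coeff_sAp (m : ℕ) : coeff m (sAp L p) = MvPolynomial.C (1 / (m.factorial : ℂ)) * Aa L p m := by
  unfold sAp Aa
  rw [mul_comm, coeff_mul, Finset.Nat.sum_antidiagonal_eq_sum_range_succ
    (fun i j => coeff i (sUp L p) * coeff j (mC (Ty (Mm L p)))), Finset.mul_sum]
  refine Finset.sum_congr rfl fun i hi => ?_
  have hi' : i ≤ m := by
    have := Finset.mem_range.1 hi
    omega
  have h1 : coeff i (sUp L p) = MvPolynomial.C (1 / (i.factorial : ℂ)) * Uu p L.g₂ i := coeff_mk _ _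
  have h2 : coeff (m - i) (mC (Ty (Mm L p))) =
      MvPolynomial.C (rh L p (m - i) / ((m - i).factorial : ℂ)) := by
    rw [coeff_map, coeff_Ty]
    rfl
  rw [h1, h2]
  have h3 : (1 / (i.factorial : ℂ)) * (rh L p (m - i) / ((m - i).factorial : ℂ)) =
      1 / (m.factorial : ℂ) * (m.choose i * rh L p (m - i)) := by
    rw [Nat.cast_choose ℂ hi']
    have := fne m
    have := fne i
    have := fne (m - i)
    field_simp
  have h4 : (MvPolynomial.C (1 / (i.factorial : ℂ)) : PP) * MvPolynomial.C (rh L p (m - i) /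
      ((m - i).factorial : ℂ)) = MvPolynomial.C (1 / (m.factorial : ℂ)) *
      MvPolynomial.C (m.choose i * rh L p (m - i)) := by
    rw [← map_mul, h3, map_mul]
  linear_combination (Uu p L.g₂ i) * h4

lemma th_sAp : th (sAp L p) = sAp L p - mC (sZ (L.g₂ / 12) (L.g₃ / 4)) * sAp L p +
    C (MvPolynomial.C p) * X ^ 2 * sAp L p +
    X * (hat (Dv p L.g₂) (sAp L p) + C (MvPolynomial.X 0) * sAp L p) := by
  unfold sAp
  have hC : mC (C p : ℂ⟦X⟧) = C (MvPolynomial.C p) := by
    rw [PowerSeries.map_C]
  have hX : mC (X : ℂ⟦X⟧) = X := by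
    rw [PowerSeries.map_X]
  rw [th_mul, th_map, Ty_Mp, th_sUp, hat_mul, hat_mapp, map_mul, map_add, map_sub, map_one, map_mul,
    map_pow, hC, hX]
  ring

lemma sAp_zero : coeff 0 (sAp L p) = 1 := by
  have h : Mm L p 0 = 1 := by
    unfold Mm
    rw [Tt_zero, inv_one]
  rw [coeff_sAp]
  unfold Aa rh
  simp [Uu, h]

/-! ### evaluation -/

/-- the value of a universal polynomial -/
noncomputable def evG (v z : ℂ) : U →ₐ[ℂ] ℂ :=
  MvPolynomial.aeval ![Xx L p q v z, ℘[L] z, ℘'[L] z / 2, L.g₂ / 12]

lemma evG_E (v z : ℂ) : evG L p q v z vE = Xx L p q v z := by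
  unfold evG vE
  rw [MvPolynomial.aeval_X]
  rfl

lemma evG_X (v z : ℂ) : evG L p q v z vX = ℘[L] z := by
  unfold evG vX
  rw [MvPolynomial.aeval_X]
  rfl

lemma evG_Y (v z : ℂ) : evG L p q v z vY = ℘'[L] z / 2 := by
  unfold evG vY
  rw [MvPolynomial.aeval_X]
  rfl

lemma evG_G (v z : ℂ) : evG L p q v z vG = L.g₂ / 12 := by
  unfold evG vG
  rw [MvPolynomial.aeval_X]
  rfl

lemma evG_K (v : ℂ) {z : ℂ} (hz : z ∉ L.lattice) : evG L p q v z vK = L.g₃ / 4 := by
  unfold vK
  rw [map_sub, map_sub, map_pow, map_pow, map_mul, map_mul, evG_X, evG_Y, evG_G, map_ofNat]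
  have := L.derivWeierstrassP_sq z hz
  linear_combination (-1 / 4 : ℂ) * this

/-- the derivation of the universal ring -/
noncomputable def dzp : Derivation ℂ U U := dz - p • de

lemma dzp_apply (u : U) : dzp p u = dz u - p • de u := rfl

lemma evG_deriv (v : ℂ) {z : ℂ} (hz : z ∉ L.lattice) (u : U) :
    HasDerivAt (fun z => evG L p q v z u) (evG L p q v z (dzp p u)) z := by
  induction u using MvPolynomial.induction_on with
  | C a =>
    have h1 : (MvPolynomial.C a : U) = algebraMap ℂ U a := rfl
    rw [h1, Derivation.map_algebraMap, map_zero]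
    simp only [AlgHom.commutes]
    exact hasDerivAt_const _ _
  | add P Q hP hQ =>
    simp only [map_add]
    exact hP.add hQ
  | mul_X P i hP =>
    have hX : HasDerivAt (fun z => evG L p q v z (MvPolynomial.X i))
        (evG L p q v z (dzp p (MvPolynomial.X i))) z := by
      fin_cases i
      · show HasDerivAt (fun z => evG L p q v z vE) (evG L p q v z (dzp p vE)) z
        simp only [evG_E, dzp_apply, dz_E, de_E, map_sub, map_neg, evG_X, map_smul, map_one]
        unfold Xx
        have h1 := ((hasDerivAt_zeta L hz).sub ((hasDerivAt_id z).const_mul p)).sub_const (q * v)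
        refine h1.congr_deriv ?_
        rw [smul_eq_mul]
      · show HasDerivAt (fun z => evG L p q v z vX) (evG L p q v z (dzp p vX)) z
        simp only [evG_X, dzp_apply, dz_X, de_X, smul_zero, sub_zero, map_mul, map_ofNat, evG_Y]
        refine (hasDerivAt_weierstrassP L hz).congr_deriv ?_
        ring
      · show HasDerivAt (fun z => evG L p q v z vY) (evG L p q v z (dzp p vY)) z
        simp only [evG_Y, dzp_apply, dz_Y, de_Y, smul_zero, sub_zero, map_sub, map_mul, map_pow,
          map_ofNat, evG_X, evG_G]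
        refine ((hasDerivAt_wp'_all L hz).div_const 2).congr_deriv ?_
        ring
      · show HasDerivAt (fun z => evG L p q v z vG) (evG L p q v z (dzp p vG)) z
        simp only [evG_G, dzp_apply, dz_G, de_G, smul_zero, sub_zero, map_zero]
        exact hasDerivAt_const _ _
    simp only [map_mul, Derivation.leibniz, smul_eq_mul, map_add]
    refine (hP.mul hX).congr_deriv ?_
    ring

/-- uniqueness of derivatives -/
lemma der_eqp (v : ℂ) (P : PP) (u : U) (h : ∀ z, z ∉ L.lattice → evz L p q v z P = evG L p q v z u) :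
    ∀ z, z ∉ L.lattice → evz L p q v z (Dv p L.g₂ P) = evG L p q v z (dzp p u) := by
  intro z hz
  have h1 := evz_deriv L p q hz v P
  have h2 := evG_deriv L p q v hz u
  refine h1.unique (h2.congr_of_eventuallyEq ?_)
  filter_upwards [(isOpen_compl L).mem_nhds hz] with w hw
  exact h w hw

/-- the recursion for the universal polynomials -/
lemma ph_succp (m : ℕ) : ((m + 1 : ℕ) : ℂ) • ph (m + 1) = dzp p (ph m) + vE * ph m -
    ∑ j ∈ Finset.range (m + 1), coeff (j + 1) Z₀ * ph (m - j) +
    p • (if m = 0 then 0 else ph (m - 1)) := by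
  rw [ph_succ, dzp_apply]
  rcases m with _ | m
  · rw [ph_zero, Derivation.map_one_eq_zero, Derivation.map_one_eq_zero]
    simp
  · rw [de_ph, if_neg (Nat.succ_ne_zero m), Nat.add_sub_cancel]
    abel

theorem ev_sAp (v : ℂ) (m : ℕ) : ∀ z, z ∉ L.lattice →
    evz L p q v z (coeff m (sAp L p)) = evG L p q v z (ph m) := by
  induction m using Nat.strong_induction_on with
  | _ m ih =>
    cases m with
    | zero =>
      intro z _
      rw [sAp_zero, ph_zero, map_one]
      unfold evz ev
      rw [map_one]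
    | succ m =>
      intro z hz
      have h1 := congrArg (coeff (m + 1)) (th_sAp L p)
      have h2 := ph_succp p m
      have e2 : coeff (m + 1) (C (MvPolynomial.C p) * X ^ 2 * sAp L p) =
          MvPolynomial.C p * (if m = 0 then 0 else coeff (m - 1) (sAp L p)) := by
        rw [mul_assoc, coeff_C_mul, pow_two, mul_assoc, coeff_succ_X_mul]
        rcases m with _ | m
        · simp
        · rw [coeff_succ_X_mul, if_neg (Nat.succ_ne_zero m), Nat.add_sub_cancel]
      rw [coeff_th, map_add, map_add, e2, map_sub, coeff_succ_X_mul, map_add, coeff_hat, coeff_C_mul,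
        coeff_mul,
        Finset.Nat.sum_antidiagonal_eq_sum_range_succ
        (fun i j => coeff i (mC (sZ (L.g₂ / 12) (L.g₃ / 4))) * coeff j (sAp L p)),
        Finset.sum_range_succ' _ (m + 1)] at h1
      have e0 : coeff 0 (mC (sZ (L.g₂ / 12) (L.g₃ / 4))) = 1 := by
        rw [coeff_map, coeff_sZ, cc_zero]
        simp
      rw [e0, one_mul, Nat.sub_zero] at h1
      have e1 : ∀ k, coeff (m + 1 - (k + 1)) (sAp L p) = coeff (m - k) (sAp L p) := by
        intro k
        rw [Nat.add_sub_add_right]
      simp only [e1] at h1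
      have h3 : ((m + 1 : ℕ) : PP) * coeff (m + 1) (sAp L p) =
          Dv p L.g₂ (coeff m (sAp L p)) + MvPolynomial.X 0 * coeff m (sAp L p) -
          ∑ k ∈ Finset.range (m + 1), coeff (k + 1) (mC (sZ (L.g₂ / 12) (L.g₃ / 4))) *
            coeff (m - k) (sAp L p) + MvPolynomial.C p *
            (if m = 0 then 0 else coeff (m - 1) (sAp L p)) := by
        linear_combination h1
      have h4 := congrArg (fun P => evz L p q v z P) h3
      have hm : ((m + 1 : ℕ) : ℂ) ≠ 0 := by exact_mod_cast m.succ_ne_zero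
      have h5 := congrArg (evG L p q v z) h2
      rw [map_smul, map_add, map_sub, map_add, map_mul, map_sum, smul_eq_mul, map_smul,
        smul_eq_mul] at h5
      refine mul_left_cancel₀ hm ?_
      rw [h5]
      have g1 := der_eqp L p q v _ _ (ih m (Nat.lt_succ_self m)) z hz
      have g2 := ih m (Nat.lt_succ_self m) z hz
      have g3 : ∀ k, evz L p q v z (coeff (m - k) (sAp L p)) = evG L p q v z (ph (m - k)) := fun k =>
        ih (m - k) (by omega) z hz
      have g4 : ∀ k, evz L p q v z (coeff (k + 1) (mC (sZ (L.g₂ / 12) (L.g₃ / 4)))) =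
          evG L p q v z (coeff (k + 1) Z₀) := by
        intro k
        have a1 : evz L p q v z (coeff (k + 1) (mC (sZ (L.g₂ / 12) (L.g₃ / 4)))) =
            coeff (k + 1) (sZ (L.g₂ / 12) (L.g₃ / 4)) := by
          rw [coeff_map]
          exact ev_C _ _ _ _
        have a2 : coeff (k + 1) Z₀ = (-(1 / (((k + 1 : ℕ) : ℂ) - 1))) • cc vG vK (k + 1) :=
          coeff_sZ _ _ _
        rw [a1, coeff_sZ, a2, map_smul, cc_map, evG_G, evG_K L p q v hz]
      have g5 : evz L p q v z (if m = 0 then 0 else coeff (m - 1) (sAp L p)) =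
          evG L p q v z (if m = 0 then 0 else ph (m - 1)) := by
        split_ifs with hm0
        · unfold evz ev
          rw [map_zero, map_zero]
        · exact ih (m - 1) (by omega) z hz
      unfold evz at h4 g1 g2 g3 g4 g5 ⊢
      unfold ev at h4 g1 g2 g3 g4 g5 ⊢
      rw [map_mul, map_natCast, map_add, map_sub, map_add, map_mul, map_sum, g1, g2,
        MvPolynomial.eval_X, map_mul, g5, MvPolynomial.eval_C] at h4
      rw [h4, evG_E]
      congr 1
      congr 1
      refine Finset.sum_congr rfl fun k _ => ?_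
      rw [map_mul, map_mul, g3, g4]

lemma iter_eqp (v : ℂ) (n : ℕ) (P : PP) (u : U)
    (h : ∀ z, z ∉ L.lattice → evz L p q v z P = evG L p q v z u) :
    ∀ z, z ∉ L.lattice → evz L p q v z ((Dv p L.g₂)^[n] P) = evG L p q v z ((dzp p)^[n] u) := by
  induction n with
  | zero => exact h
  | succ n ih =>
    rw [Function.iterate_succ_apply', Function.iterate_succ_apply']
    exact der_eqp L p q v _ _ ih

/-! ### the binomial theorem -/

lemma dz_smul_iter (n : ℕ) (c : ℂ) (u : U) : dz^[n] (c • u) = c • dz^[n] u := by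
  induction n with
  | zero => rfl
  | succ n ih => rw [Function.iterate_succ_apply', ih, D_smul, Function.iterate_succ_apply']

lemma de_smul_iter (n : ℕ) (c : ℂ) (u : U) : de^[n] (c • u) = c • de^[n] u := by
  induction n with
  | zero => rfl
  | succ n ih => rw [Function.iterate_succ_apply', ih, D_smul, Function.iterate_succ_apply']

lemma de_iter_dz (i n : ℕ) (u : U) : de (dz^[n] (de^[i] u)) = dz^[n] (de^[i + 1] u) := by
  rw [de_iter, ← Function.iterate_succ_apply' de i]

lemma binom (n : ℕ) (u : U) : (dzp p)^[n] u = ∑ j ∈ Finset.range (n + 1),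
    ((n.choose j : ℂ) * (-p) ^ j) • dz^[n - j] (de^[j] u) := by
  induction n with
  | zero => simp
  | succ n ih =>
    rw [Function.iterate_succ_apply', ih, map_sum]
    have h1 : ∀ j ∈ Finset.range (n + 1), dzp p (((n.choose j : ℂ) * (-p) ^ j) •
        dz^[n - j] (de^[j] u)) = ((n.choose j : ℂ) * (-p) ^ j) • dz^[n + 1 - j] (de^[j] u) +
        ((n.choose j : ℂ) * (-p) ^ (j + 1)) • dz^[n - j] (de^[j + 1] u) := by
      intro j hj
      have hj' : j ≤ n := by
        have := Finset.mem_range.1 hj
        omega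
      have e : n + 1 - j = (n - j) + 1 := by omega
      rw [Derivation.map_smul, dzp_apply, de_iter_dz, e, Function.iterate_succ_apply' dz (n - j),
        smul_sub, smul_smul, sub_eq_add_neg, ← neg_smul]
      congr 2
      ring
    rw [Finset.sum_congr rfl h1, Finset.sum_add_distrib, Finset.sum_range_succ' _ (n + 1)]
    have h2 : ∑ j ∈ Finset.range (n + 1), ((n.choose j : ℂ) * (-p) ^ j) •
        dz^[n + 1 - j] (de^[j] u) = ∑ k ∈ Finset.range (n + 1), ((n.choose (k + 1) : ℂ) *
        (-p) ^ (k + 1)) • dz^[n - k] (de^[k + 1] u) + dz^[n + 1] u := by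
      rw [Finset.sum_range_succ', Finset.sum_range_succ _ n]
      have e1 : ((n.choose (n + 1) : ℂ) * (-p) ^ (n + 1)) • dz^[n - n] (de^[n + 1] u) = 0 := by
        rw [Nat.choose_succ_self]
        simp
      rw [e1, add_zero]
      congr 1
      · refine Finset.sum_congr rfl fun k _ => ?_
        rw [Nat.add_sub_add_right]
      · simp
    rw [h2]
    have h3 : ((((n + 1).choose 0 : ℕ) : ℂ) * (-p) ^ 0) • dz^[n + 1 - 0] (de^[0] u) =
        dz^[n + 1] u := by
      simp
    rw [h3, add_right_comm, ← Finset.sum_add_distrib]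
    congr 1
    refine Finset.sum_congr rfl fun k _ => ?_
    rw [← add_smul, Nat.choose_succ_succ, Nat.add_sub_add_right]
    congr 1
    push_cast
    ring

lemma de_iter_ph (j n : ℕ) (h : j ≤ n) : de^[j] (ph (n + 1)) = ph (n + 1 - j) := by
  induction j with
  | zero => rfl
  | succ j ih =>
    have e : n + 1 - j = (n - j) + 1 := by omega
    rw [Function.iterate_succ_apply', ih (by omega), e, de_ph]
    congr 1
    omega

lemma fact_ca (n j : ℕ) (h : j ≤ n) : n.factorial * n.choose j = ca n j * (n - j).factorial := by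
  unfold ca
  have h1 := Nat.choose_mul_factorial_mul_factorial h
  calc n.factorial * n.choose j = (n.choose j * j.factorial * (n - j).factorial) * n.choose j := by
        rw [h1]
    _ = _ := by ring

theorem binom_Dn (n : ℕ) : (n.factorial : U) * (dzp p)^[n] (ph (n + 1)) =
    Sg (MvPolynomial.C (-p) : U) Dn n := by
  rw [binom]
  unfold Sg
  rw [Finset.mul_sum]
  refine Finset.sum_congr rfl fun j hj => ?_
  have hj' : j ≤ n := by
    have := Finset.mem_range.1 hj
    omega
  rw [de_iter_ph j n hj']
  have e : n + 1 - j = (n - j) + 1 := by omega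
  rw [e]
  unfold Dn
  have h := congrArg (Nat.cast : ℕ → U) (fact_ca n j hj')
  push_cast at h
  rw [MvPolynomial.smul_eq_C_mul, map_mul, map_pow, map_natCast]
  linear_combination (MvPolynomial.C (-p) ^ j * dz^[n - j] (ph (n - j + 1))) * h

/-- **the Eisenstein-Kronecker polynomials are specializations of the universal ones** -/
theorem evz_Ppp (v : ℂ) (n : ℕ) {z : ℂ} (hz : z ∉ L.lattice) :
    (n.factorial : ℂ) * evz L p q v z (Pp L p n) =
      evG L p q v z (Sg (MvPolynomial.C (-p) : U) Dn n) := by
  have h1 : Pp L p n = (Dv p L.g₂)^[n] (coeff (n + 1) (sAp L p)) := by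
    rw [coeff_sAp]
    unfold Pp
    have h2 : ∀ (k : ℕ) (a : ℂ) (P : PP), (Dv p L.g₂)^[k] (MvPolynomial.C a * P) =
        MvPolynomial.C a * (Dv p L.g₂)^[k] P := by
      intro k a P
      induction k with
      | zero => rfl
      | succ k ih =>
        rw [Function.iterate_succ_apply', ih, Function.iterate_succ_apply', Derivation.leibniz,
          Dv_C, smul_zero, add_zero, smul_eq_mul]
    rw [h2]
  rw [h1, iter_eqp L p q v n _ _ (ev_sAp L p q v (n + 1)) z hz, ← binom_Dn, map_mul, map_natCast]

end Pool.Agent.N843
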