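import Pool.Agent.N843.Ind2
import Pool.Agent.Y698.Psi

/-!
# The Hecke characters
-/

set_option autoImplicit false
set_option linter.unusedSectionVars false
set_option linter.unusedSimpArgs false

namespace Pool.Agent.N843

open H667R3 Pool.Agent.TH936.CW Pool.Agent.W192.HK Pool.Agent.Y690.NV Pool.Agent.TH936.PU
open Pool.Agent.Y698 (RR al al_sq al_ne bl bl_ne al_mul_bl LD tA tB aR aR_coe bR bR_coe cX cY co
  co_uniq al_im_pos Xx_per Tb v_two v_two_lt v_bl fin_quot aR_mul_bR two_coe nR cj mul_cj cj_coe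
  cXY_int cXY_of RR_ext aR_sq ev ev_apply ev_aR isUnit_iff exists_gen)
open Pool.Agent.Y698.SG (Pe sy sy_per sy_val sy_sgn tr tr_per tr_mul Mu hc hc_val hc_per
  sp_mem_iff prime_mem Rd lg lg_one v_RR sgn_prod)

/-! ### characters and Hecke characters -/

/-- odd primitive quadratic characters modulo `μ` -/
structure Cx (μ : RR) (x : RR → ℂ) : Prop where
  ne : μ ≠ 0
  mul : ∀ a b, x (a * b) = x a * x b
  one : x 1 = 1
  neg : ∀ a, x (-a) = -x a
  per : Pe μ x
  zero : ∀ a, x a = 0 ↔ ¬ IsCoprime a μ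
  sgn : ∀ a, IsCoprime a μ → x a = 1 ∨ x a = -1
  prim : ∀ m, m ∣ μ → ¬ μ ∣ m → ∃ a, m ∣ a - 1 ∧ x a = -1

/-- the powers of the Hecke character -/
noncomputable def tw (x : RR → ℂ) (n : ℕ) (I : Ideal RR) : ℂ :=
  (x (Submodule.IsPrincipal.generator I) * ((Submodule.IsPrincipal.generator I : RR) : ℂ)) ^ n

variable {μ : RR} {x : RR → ℂ}

lemma Cx.tw_sp (h : Cx μ x) (n : ℕ) (g : RR) : tw x n (sp g) = (x g * g) ^ n := by
  unfold tw
  have h1 : sp (Submodule.IsPrincipal.generator (sp g)) = sp g :=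
    Submodule.IsPrincipal.span_singleton_generator _
  rcases Pool.Agent.Y698.sp_eq h1 with h2 | h2
  · rw [h2]
  · rw [h2, h.neg]
    push_cast
    rw [neg_mul_neg]

lemma Cx.pow_odd (h : Cx μ x) (a : RR) (e : ℕ) : x a ^ (2 * e + 1) = x a := by
  by_cases h0 : IsCoprime a μ
  · rcases h.sgn a h0 with h1 | h1
    · rw [h1, one_pow]
    · rw [h1, Odd.neg_one_pow ⟨e, rfl⟩]
  · rw [(h.zero a).2 h0, zero_pow (by omega)]

theorem Cx.hc (h : Cx μ x) (e : ℕ) : HC (2 * e + 1) (sp μ) (tw x (2 * e + 1)) := by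
  refine ⟨?_, ?_, ?_, ?_, ?_⟩
  · rw [Ne, Ideal.span_singleton_eq_bot]
    exact h.ne
  · intro I J
    obtain ⟨g, rfl⟩ := exists_gen I
    obtain ⟨k, rfl⟩ := exists_gen J
    rw [Ideal.span_singleton_mul_span_singleton, h.tw_sp, h.tw_sp, h.tw_sp, h.mul]
    push_cast
    ring
  · intro I
    obtain ⟨g, rfl⟩ := exists_gen I
    rw [h.tw_sp, pow_eq_zero_iff (by omega), mul_eq_zero, h.zero, Ideal.isCoprime_span_singleton_iff,
      Ideal.span_singleton_eq_bot]
    have : (g : ℂ) = 0 ↔ g = 0 := by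
      constructor
      · exact fun h => Subtype.ext h
      · rintro rfl; rfl
    rw [this, or_comm]
  · intro α _ h1
    rw [h.tw_sp, h.per α 1 h1, h.one, one_mul]
  · intro q' hq'
    obtain ⟨m, rfl⟩ := exists_gen q'
    have h1 : m ∣ μ := by
      rw [← Ideal.span_singleton_le_span_singleton]
      exact hq'.le
    have h2 : ¬ μ ∣ m := by
      rw [← Ideal.span_singleton_le_span_singleton]
      exact not_le_of_gt hq'
    obtain ⟨a, ha, ha2⟩ := h.prim m h1 h2
    have hcop : IsCoprime a μ := by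
      by_contra hc
      rw [(h.zero a).2 hc] at ha2
      norm_num at ha2
    have ha0 : a ≠ 0 := by
      rintro rfl
      have : x 0 = 0 := by
        have := h.neg 0
        rw [neg_zero] at this
        linear_combination (1 / 2 : ℂ) * this
      rw [this] at ha2
      norm_num at ha2
    refine ⟨a, ha0, Ideal.mem_span_singleton.2 ha, ?_, ?_⟩
    · rwa [Ideal.isCoprime_span_singleton_iff]
    · rw [h.tw_sp, mul_pow, h.pow_odd, ha2]
      intro h3
      have hC : (a : ℂ) ^ (2 * e + 1) ≠ 0 := pow_ne_zero _ (Pool.Agent.TH936.PU.coe_ne ha0)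
      have : (2 : ℂ) * (a : ℂ) ^ (2 * e + 1) = 0 := by linear_combination -h3
      exact hC ((mul_eq_zero.1 this).resolve_left two_ne_zero)

/-! ### the sign modulo the square of the conjugate of `α` -/

/-- reduction modulo `bR ^ 2` -/
noncomputable def r4b : RR →+* ZMod 4 := ev (3 : ZMod 4) (by decide)

lemma r4b_eq (g : RR) : r4b g = ((cX g - cY g : ℤ) : ZMod 4) := by
  have h : r4b g = (cX g : ZMod 4) + (cY g : ZMod 4) * 3 := rfl
  have e : (3 : ZMod 4) = -1 := by decide
  rw [h, e]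
  push_cast
  ring

lemma bb_eq : bR * bR = -(1 + aR) := by
  have e2 : bR = 1 - aR := rfl
  rw [e2]
  linear_combination aR_sq

lemma gen_eq (g : RR) : g = ((cX g : ℤ) : RR) + ((cY g : ℤ) : RR) * aR := by
  apply Subtype.ext
  push_cast
  rw [aR_coe]
  exact co g

lemma r4b_zero {g : RR} : r4b g = 0 ↔ g ∈ sp (bR * bR) := by
  constructor
  · intro h
    rw [r4b_eq, ZMod.intCast_zmod_eq_zero_iff_dvd] at h
    obtain ⟨k, hk⟩ := h
    rw [Ideal.mem_span_singleton', bb_eq]
    refine ⟨-(k : RR) * (2 - aR) - ((cY g : ℤ) : RR), ?_⟩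
    have e := gen_eq g
    have hk' : ((cX g : ℤ) : RR) - ((cY g : ℤ) : RR) = 4 * (k : RR) := by
      exact_mod_cast congrArg (fun t : ℤ => (t : RR)) hk
    linear_combination (-(k : RR)) * aR_sq - e - hk'
  · intro h
    rw [Ideal.mem_span_singleton'] at h
    obtain ⟨c, hc⟩ := h
    rw [← hc, map_mul, map_mul]
    have : r4b bR = 2 := by
      have e2 : bR = 1 - aR := rfl
      rw [e2, map_sub, map_one]
      show 1 - ev (3 : ZMod 4) _ aR = 2
      rw [ev_aR]
      decide
    rw [this]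
    have : (2 * 2 : ZMod 4) = 0 := by decide
    rw [this, mul_zero]

lemma sp_bR_iff {g : RR} : g ∈ sp bR ↔ (2 : ℤ) ∣ cX g - cY g := by
  have e2 : bR = 1 - aR := rfl
  constructor
  · intro h
    rw [Ideal.mem_span_singleton'] at h
    obtain ⟨c, hc⟩ := h
    have h1 : cX g = cX c + 2 * cY c ∧ cY g = -cX c := by
      apply cXY_of
      rw [← hc]
      push_cast
      rw [bR_coe, co c]
      unfold bl
      linear_combination (-(cY c : ℂ)) * al_sq
    exact ⟨cX c + cY c, by rw [h1.1, h1.2]; ring⟩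
  · rintro ⟨k, hk⟩
    rw [Ideal.mem_span_singleton']
    refine ⟨(k : RR) * aR - ((cY g : ℤ) : RR) * bR, ?_⟩
    have e := gen_eq g
    have hk' : ((cX g : ℤ) : RR) - ((cY g : ℤ) : RR) = 2 * (k : RR) := by
      exact_mod_cast congrArg (fun t : ℤ => (t : RR)) hk
    linear_combination (k : RR) * aR_mul_bR - e - hk' - ((cY g : ℤ) : RR) * bb_eq

/-- the sign -/
noncomputable def sg (g : RR) : ℂ := ((ZMod.χ₄ (r4b g) : ℤ) : ℂ)

lemma sg_mul (g h : RR) : sg (g * h) = sg g * sg h := by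
  unfold sg
  rw [map_mul, map_mul]
  push_cast
  rfl

lemma sg_one : sg 1 = 1 := by
  unfold sg
  rw [map_one, map_one]
  norm_num

lemma sg_neg (g : RR) : sg (-g) = -sg g := by
  unfold sg
  rw [map_neg]
  have h1 : ∀ x : ZMod 4, ZMod.χ₄ (-x) = -ZMod.χ₄ x := by decide
  rw [h1]
  push_cast
  rfl

lemma sg_per : Pe (bR * bR) sg := by
  intro x y h
  rw [← r4b_zero, map_sub, sub_eq_zero] at h
  unfold sg
  rw [h]

lemma sg_zero {g : RR} : sg g = 0 ↔ g ∈ sp bR := by
  unfold sg
  rw [Int.cast_eq_zero, sp_bR_iff]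
  have h1 : ∀ x : ZMod 4, ZMod.χ₄ x = 0 ↔ 2 * x = 0 := by decide
  rw [h1, r4b_eq]
  have e : (2 * ((cX g - cY g : ℤ) : ZMod 4)) = ((2 * (cX g - cY g) : ℤ) : ZMod 4) := by
    push_cast
    ring
  rw [e, ZMod.intCast_zmod_eq_zero_iff_dvd]
  push_cast
  omega

lemma sg_sgn {g : RR} (h : g ∉ sp bR) : sg g = 1 ∨ sg g = -1 := by
  have h0 : sg g ≠ 0 := fun h1 => h (sg_zero.1 h1)
  unfold sg at h0 ⊢
  have h1 : ∀ x : ZMod 4, ZMod.χ₄ x = 0 ∨ ZMod.χ₄ x = 1 ∨ ZMod.χ₄ x = -1 := by decide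
  rcases h1 (r4b g) with h2 | h2 | h2
  · rw [h2] at h0
    simp at h0
  · left
    rw [h2]
    norm_num
  · right
    rw [h2]
    norm_num

lemma sg_fo {g : RR} (h : Fo g) : sg g = 1 := by
  rw [← sg_one]
  apply sg_per
  rw [Ideal.mem_span_singleton]
  refine dvd_trans ?_ h
  exact ⟨aR * aR, by linear_combination (-(aR * bR + 2)) * aR_mul_bR⟩

lemma prime_bR : Prime bR := by
  have h : (nR bR).natAbs.Prime := by
    have h1 : nR bR = 2 := by
      have e : cX bR = 1 ∧ cY bR = -1 := by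
        apply cXY_of
        rw [bR_coe]
        unfold bl
        push_cast
        ring
      unfold Pool.Agent.Y698.nR
      rw [e.1, e.2]
      norm_num
    rw [h1]
    norm_num
  exact (Pool.Agent.Y698.irr_of_prime_norm h).prime

/-! ### the characters of the families -/

variable {ι : Type} [DecidableEq ι] {π : ι → RR} {S : Finset ι}

/-- the character -/
noncomputable def xs (π : ι → RR) (S : Finset ι) (g : RR) : ℂ := sg g * ch π S g

/-- the modulus -/
noncomputable def ms (π : ι → RR) (S : Finset ι) : RR := (bR * bR) * ∏ i ∈ S, π i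

lemma ch_zero (hS : Fm S π) {g : RR} : ch π S g = 0 ↔ ∃ i ∈ S, g ∈ sp (π i) := by
  unfold ch
  rw [Finset.prod_eq_zero_iff]
  refine exists_congr fun i => and_congr_right fun hi => ?_
  rcases sy_val (π i) g with ⟨h1, h2⟩ | ⟨h1, h2⟩
  · exact ⟨fun _ => h1, fun _ => h2⟩
  · refine ⟨fun h => ?_, fun h => absurd h h1⟩
    rw [h] at h2
    norm_num at h2

lemma cop_prime {ϖ g : RR} (h : Prime ϖ) : IsCoprime g ϖ ↔ g ∉ sp ϖ := by
  rw [isCoprime_comm, Irreducible.coprime_iff_not_dvd h.irreducible, Ideal.mem_span_singleton]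

lemma ms_cop (hS : Fm S π) {g : RR} :
    IsCoprime g (ms π S) ↔ g ∉ sp bR ∧ ∀ i ∈ S, g ∉ sp (π i) := by
  unfold ms
  rw [IsCoprime.mul_right_iff, IsCoprime.mul_right_iff, cop_prime prime_bR, and_self_iff,
    IsCoprime.prod_right_iff]
  refine and_congr_right fun _ => forall_congr' fun i => forall_congr' fun hi => ?_
  exact cop_prime (hS.pd i hi).pr

lemma ms_ne (hS : Fm S π) : ms π S ≠ 0 :=
  mul_ne_zero (mul_ne_zero bR_ne0 bR_ne0) hS.fo.ne

lemma sy_one {ϖ : RR} (h : Prime ϖ) : sy ϖ 1 = 1 := by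
  unfold sy
  rw [if_neg, if_pos ⟨1, by rw [map_one, mul_one]⟩]
  rw [Ideal.mem_span_singleton]
  exact fun h1 => h.not_isUnit (isUnit_of_dvd_one h1)

/-- there are nonresidues -/
lemma Pd.nonres {ϖ : RR} (h : Pd ϖ) : ∃ u, sy ϖ u = -1 := by
  by_contra hcon
  push Not at hcon
  have f1 := fin_quot h.pr.ne_zero
  let _ : Fintype (RR ⧸ sp ϖ) := Fintype.ofFinite _
  have hs := h.sum
  have h1 : ∀ x : RR ⧸ sp ϖ, sy ϖ x.out = tr ϖ x.out := by
    intro x
    unfold tr
    rcases sy_val ϖ x.out with ⟨h1, h2⟩ | ⟨h1, h2⟩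
    · rw [if_pos h1, h2]
    · rw [if_neg h1]
      exact h2.resolve_right (hcon _)
  have h2 := h.sum_hc
  rw [Sm_eq] at h2
  unfold hc at h2
  have h3 : ∑ x : RR ⧸ sp ϖ, (sy ϖ x.out + tr ϖ x.out) / 2 = 0 := by
    rw [← hs]
    refine Finset.sum_congr rfl fun x _ => ?_
    rw [h1 x]
    ring
  rw [h3, h.tt] at h2
  have h4 : (N843.tt ϖ : ℂ) = 0 := by
    push_cast at h2
    linear_combination (-1 / 2 : ℂ) * h2
  have h5 : N843.tt ϖ = 0 := by exact_mod_cast h4
  have h6 := h.tt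
  rw [h5] at h6
  have h7 : Nat.card (RR ⧸ sp ϖ) = 1 := by
    have := Pd.card (ϖ := ϖ)
    rw [h6] at this
    omega
  have h8 : Subsingleton (RR ⧸ sp ϖ) := (Nat.card_eq_one_iff_unique.1 h7).1
  rw [Ideal.Quotient.subsingleton_iff, Ideal.span_singleton_eq_top] at h8
  exact h.pr.not_isUnit h8

lemma crt2 {a b : RR} (h : IsCoprime a b) (x y : RR) : ∃ z, a ∣ z - x ∧ b ∣ z - y := by
  obtain ⟨u, w, huw⟩ := h
  refine ⟨y * u * a + x * w * b, ⟨(y - x) * u, ?_⟩, ⟨(x - y) * w, ?_⟩⟩
  · linear_combination x * huw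
  · linear_combination y * huw

theorem xs_cx (hS : Fm S π) : Cx (ms π S) (xs π S) := by
  have hbn : IsCoprime (bR * bR) (∏ i ∈ S, π i) := hS.fo.cop_bR.mul_left hS.fo.cop_bR
  have hval : ∀ a, IsCoprime a (ms π S) → xs π S a = 1 ∨ xs π S a = -1 := by
    intro a ha
    rw [ms_cop hS] at ha
    unfold xs
    exact Pool.Agent.Y698.SG.sgn_mul (sg_sgn ha.1) (ch_unit hS ha.2)
  have hper : Pe (ms π S) (xs π S) :=
    (sg_per.mono (Dvd.intro _ rfl)).mul ((ch_per π S).mono (Dvd.intro_left _ rfl))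
  have hmul : ∀ a b, xs π S (a * b) = xs π S a * xs π S b := by
    intro a b
    unfold xs
    rw [sg_mul, hS.ch_mul]
    ring
  have hone : xs π S 1 = 1 := by
    unfold xs ch
    rw [sg_one, one_mul]
    exact Finset.prod_eq_one fun i hi => sy_one (hS.pd i hi).pr
  have hzero : ∀ a, xs π S a = 0 ↔ ¬ IsCoprime a (ms π S) := by
    intro a
    constructor
    · intro h1 h2
      rcases hval a h2 with h3 | h3
      · rw [h3] at h1; exact one_ne_zero h1
      · rw [h3] at h1; norm_num at h1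
    · intro h1
      rw [ms_cop hS, not_and_or] at h1
      unfold xs
      rcases h1 with h1 | h1
      · rw [not_not] at h1
        rw [sg_zero.2 h1, zero_mul]
      · push Not at h1
        rw [(ch_zero hS).2 h1, mul_zero]
  refine ⟨ms_ne hS, hmul, hone, ?_, hper, hzero, hval, ?_⟩
  · intro a
    unfold xs
    rw [sg_neg, hS.ch_neg]
    ring
  · intro m hm hm2
    obtain ⟨k, hk⟩ := hm
    have hk0 : k ≠ 0 := by
      rintro rfl
      rw [mul_zero] at hk
      exact ms_ne hS hk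
    have hku : ¬ IsUnit k := by
      intro hu
      apply hm2
      rw [hk]
      exact (IsUnit.mul_right_dvd hu).2 dvd_rfl
    obtain ⟨ρ, hρ, hρk⟩ := WfDvdMonoid.exists_irreducible_factor hku hk0
    have hρp : Prime ρ := hρ.prime
    obtain ⟨k', hk'⟩ := hρk
    have hρm : ρ ∣ ms π S := by
      rw [hk, hk']
      exact ⟨m * k', by ring⟩
    have hcase : ρ ∣ bR ∨ ∃ i ∈ S, ρ ∣ π i := by
      unfold ms at hρm
      rcases hρp.dvd_or_dvd hρm with h1 | h1
      · left
        rcases hρp.dvd_or_dvd h1 with h1 | h1 <;> exact h1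
      · right
        exact (hρp.dvd_finsetProd_iff _).1 h1
    rcases hcase with h1 | ⟨i, hi, h1⟩
    · -- the sign
      obtain ⟨u, hu⟩ := (hρp.dvd_prime_iff_associated prime_bR).1 h1
      obtain ⟨a, ha1, ha2⟩ := crt2 hbn (-1) 1
      have hsg : sg a = -1 := by
        rw [← sg_one, ← sg_neg]
        exact sg_per _ _ (Ideal.mem_span_singleton.2 ha1)
      have hch : ch π S a = 1 := by
        rw [ch_per π S a 1 (Ideal.mem_span_singleton.2 ha2)]
        exact Finset.prod_eq_one fun i hi => sy_one (hS.pd i hi).pr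
      refine ⟨a, ?_, by unfold xs; rw [hsg, hch, mul_one]⟩
      -- `m` divides `bR * n`
      have h2 : m ∣ bR * ∏ i ∈ S, π i := by
        have h3 : ρ * (m * k') = ρ * (↑u * (bR * ∏ i ∈ S, π i)) := by
          have : ms π S = ρ * (m * k') := by rw [hk, hk']; ring
          rw [← this]
          unfold ms
          linear_combination (-(bR * ∏ i ∈ S, π i)) * hu
        have h4 := mul_left_cancel₀ hρp.ne_zero h3
        have h5 : m ∣ ↑u * (bR * ∏ i ∈ S, π i) := ⟨k', h4.symm⟩
        exact (IsUnit.dvd_mul_left u.isUnit).1 h5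
      refine h2.trans ?_
      refine hS.fo.cop_bR.mul_dvd ?_ ha2
      have h6 : bR ∣ (2 : RR) := ⟨aR, by linear_combination -aR_mul_bR⟩
      have h7 : a - 1 = (a - -1) - 2 := by ring
      rw [h7]
      exact dvd_sub ((Dvd.intro _ rfl).trans ha1) h6
    · -- a nonresidue
      obtain ⟨u, hu⟩ := (hρp.dvd_prime_iff_associated (hS.pd i hi).pr).1 h1
      obtain ⟨t, ht⟩ := (hS.pd i hi).nonres
      have hci : IsCoprime (π i) ((bR * bR) * ∏ j ∈ S.erase i, π j) := by
        have c1 : IsCoprime (π i) (∏ j ∈ S.erase i, π j) := by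
          refine IsCoprime.prod_right fun j hj => ?_
          rw [Finset.mem_erase] at hj
          exact (hS.pd i hi).cop (hS.ne j hj.2 i hi hj.1)
        have c2 : IsCoprime (π i) bR := ((hS.pd i hi).fo.cop_bR).symm
        exact (c2.mul_right c2).mul_right c1
      obtain ⟨a, ha1, ha2⟩ := crt2 hci t 1
      have hsi : sy (π i) a = -1 := by
        rw [← ht]
        exact sy_per _ _ _ (Ideal.mem_span_singleton.2 ha1)
      have hsg : sg a = 1 := by
        rw [← sg_one]
        exact sg_per _ _ (Ideal.mem_span_singleton.2 ((Dvd.intro _ rfl).trans ha2))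
      have hch : ch π S a = -1 := by
        unfold ch
        rw [← Finset.mul_prod_erase _ _ hi, hsi]
        have : ∏ j ∈ S.erase i, sy (π j) a = 1 := by
          refine Finset.prod_eq_one fun j hj => ?_
          have hjS := (Finset.mem_erase.1 hj).2
          rw [← sy_one (hS.pd j hjS).pr]
          refine sy_per _ _ _ (Ideal.mem_span_singleton.2 (dvd_trans ?_ ha2))
          exact (Finset.dvd_prod_of_mem _ hj).trans (Dvd.intro_left _ rfl)
        rw [this, mul_one]
      refine ⟨a, ?_, by unfold xs; rw [hsg, hch, one_mul]⟩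
      have h2 : m ∣ (bR * bR) * ∏ j ∈ S.erase i, π j := by
        have h3 : ρ * (m * k') = ρ * (↑u * ((bR * bR) * ∏ j ∈ S.erase i, π j)) := by
          have : ms π S = ρ * (m * k') := by rw [hk, hk']; ring
          rw [← this]
          unfold ms
          rw [← Finset.mul_prod_erase _ _ hi]
          linear_combination (-((bR * bR) * ∏ j ∈ S.erase i, π j)) * hu
        have h4 := mul_left_cancel₀ hρp.ne_zero h3
        have h5 : m ∣ ↑u * ((bR * bR) * ∏ j ∈ S.erase i, π j) := ⟨k', h4.symm⟩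
        exact (IsUnit.dvd_mul_left u.isUnit).1 h5
      exact h2.trans ha2

end Pool.Agent.N843
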