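import Pool.Agent.N843.Ct
import Pool.Agent.N843.Dt

/-!
# The valuations of the weighted sums
-/

set_option autoImplicit false
set_option linter.unusedSectionVars false
set_option linter.unusedSimpArgs false

open Filter
open scoped Topology PeriodPair

namespace Pool.Agent.N843

open H667R3 Pool.Agent.TH936.CW Pool.Agent.W192.HK Pool.Agent.Y690.NV Pool.Agent.TH936.PU
open Pool.Agent.Y698 (RR al al_sq al_ne bl bl_ne al_mul_bl LD tA tB aR aR_coe bR bR_coe cX cY co
  co_uniq al_im_pos Xx_per Tb v_two v_two_lt v_bl fin_quot aR_mul_bR two_coe nR cj mul_cj cj_coe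
  cXY_int cXY_of RR_ext)
open Pool.Agent.Y698.SG (Pe sy sy_per sy_val sy_sgn tr tr_per tr_mul Mu hc hc_val hc_per
  sp_mem_iff prime_mem Rd lg lg_one v_RR sgn_prod)
open Pool.Agent.TH936.CM (IsLat)

variable {L : PeriodPair} {Ω p q : ℂ}

/-! ### the two distributions -/

theorem GQ_ds (hL : IsLat L RR Ω) (hpq : ∀ l ∈ L.lattice, eta L l = p * l + q * (starRingEnd ℂ) l)
    (r : ℕ) : Ds L Ω (fun c => gm r (c : ℂ)) (GQ L p q Ω r) :=
  ⟨fun _ _ hz h => GQ_per hpq hL r hz h, fun _ hz => GQ_neg hL r hz,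
    fun _ hc _ _ hz => GQ_dist hpq hL r hc.ne hc hz⟩

theorem GD_ds (hL : IsLat L RR Ω)
    (hpq : ∀ l ∈ L.lattice, eta L l = p * l + q * (starRingEnd ℂ) l) :
    Ds L Ω (fun c => gm 0 (c : ℂ)) (GD L p q Ω) := by
  have hG := GQ_ds hL hpq 0
  refine ⟨fun z w hz h => ?_, fun z hz => ?_, fun c hc _ z hz => ?_⟩
  · unfold GD
    rw [hG.per z w hz h, hG.per (al * z) (al * w) (hz.al hL) (by
      have := al_mem hL h
      rwa [mul_sub] at this)]
  · unfold GD
    rw [hG.ev z hz, mul_neg, hG.ev _ (hz.al hL)]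
  · unfold GD
    have h1 := hG.dist c hc z hz
    have h2 := hG.dist c hc (al * z) (hz.al hL)
    have hc0 := Pool.Agent.TH936.PU.coe_ne hc.ne
    have hpe : Pe c (fun x => GQ L p q Ω 0 (al * z + Ω * x / (c : ℂ))) := by
      intro x y hxy
      refine hG.per _ _ ((hz.al hL).add (hc.od hL y)) ?_
      have h3 := (div_mem_iff hL hc.ne (x - y)).2 hxy
      convert h3 using 1
      push_cast
      ring
    have h3 := sum_unit hc.cop_aR hpe
    rw [h2] at h3
    rw [Finset.sum_add_distrib, h1, ← Finset.mul_sum]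
    have h4 : ∑ t : RR ⧸ sp c, GQ L p q Ω 0 (al * (z + Ω * t.out / c)) =
        ∑ x : RR ⧸ sp c, GQ L p q Ω 0 (al * z + Ω * ((aR * x.out : RR) : ℂ) / c) := by
      refine Finset.sum_congr rfl fun x _ => ?_
      congr 1
      push_cast
      rw [aR_coe]
      ring
    rw [h4, h3]
    have e : (c : ℂ) * (al * z) = al * (c * z) := by ring
    rw [e]
    ring

lemma gm_zero (c : ℂ) : gm 0 c = c := by
  rw [gm_eq]
  simp

section val

variable {Γ : Type*} [LinearOrderedCommGroupWithZero Γ] {v : Valuation ℂ Γ}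

lemma v_Fo (hv : v al < 1) {c : RR} (hc : Fo c) : v ((c : ℂ) - 1) ≤ v 4 := by
  obtain ⟨u, hu⟩ := hc
  have h := congrArg (fun r : RR => (r : ℂ)) hu
  push_cast at h
  rw [four_coe] at h
  rw [h, map_mul]
  exact mul_le_of_le_one_right' (v_RR hv u)

lemma v_four_lt (hv : v al < 1) : v 4 < 1 := by
  rw [v_four hv]
  exact pow_lt_one₀ zero_le hv two_ne_zero

lemma v_Fo1 (hv : v al < 1) {c : RR} (hc : Fo c) : v (c : ℂ) = 1 := by
  have h := v_Fo hv hc
  have e : (c : ℂ) = 1 + ((c : ℂ) - 1) := by ring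
  rw [e]
  exact v.map_one_add_of_lt (h.trans_lt (v_four_lt hv))

lemma v_pow_Fo (hv : v al < 1) {c : RR} (hc : Fo c) (n : ℕ) : v ((c : ℂ) ^ n - 1) ≤ v 4 := by
  induction n with
  | zero => rw [pow_zero, sub_self, map_zero]; exact zero_le
  | succ n ih =>
    have e : (c : ℂ) ^ (n + 1) - 1 = (c : ℂ) * ((c : ℂ) ^ n - 1) + ((c : ℂ) - 1) := by ring
    rw [e]
    refine v_add_le ?_ (v_Fo hv hc)
    rw [map_mul, v_Fo1 hv hc, one_mul]
    exact ih

lemma v_gm (hv : v al < 1) (r : ℕ) {c : RR} (hc : Fo c) : v (gm r (c : ℂ) - 1) ≤ v 4 := by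
  rw [gm_eq, ← cj_coe]
  have h1 := v_pow_Fo hv hc (r + 1)
  have h2 := v_pow_Fo hv hc.cj r
  have h0 := v_Fo1 hv hc.cj
  have h3 : ((Pool.Agent.Y698.cj c : RR) : ℂ) ^ r ≠ 0 := by
    intro h
    have := congrArg v h
    rw [map_pow, h0, one_pow, map_zero] at this
    exact one_ne_zero this
  have e : (c : ℂ) ^ (r + 1) / ((Pool.Agent.Y698.cj c : RR) : ℂ) ^ r - 1 =
      (((c : ℂ) ^ (r + 1) - 1) - (((Pool.Agent.Y698.cj c : RR) : ℂ) ^ r - 1)) /
        ((Pool.Agent.Y698.cj c : RR) : ℂ) ^ r := by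
    field_simp
    ring
  rw [e, map_div₀, map_pow v, h0, one_pow, div_one]
  exact v_sub_le h1 h2

lemma v_half {x : ℂ} {g : Γ} (h20 : v 2 ≠ 0) (h : v x ≤ v 2 * g) : v (x / 2) ≤ g := by
  rw [map_div₀, div_le_iff₀ (zero_lt_iff.2 h20), mul_comm]
  exact h

variable (hv : v al < 1)
include hv

lemma v_two0 : v (2 : ℂ) ≠ 0 := by rw [v_two hv]; exact v_al0

lemma v_eight : v (8 : ℂ) = v 2 * v 4 := by
  rw [← map_mul]
  norm_num

lemma v_four2 : v (4 : ℂ) = v 2 * v 2 := by
  rw [← map_mul]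
  norm_num

/-! ### the recursion -/

variable {ι : Type} [DecidableEq ι] {π : ι → RR}

/-- the normalized sums -/
noncomputable def bb (Ω : ℂ) (W : ℂ → ℂ) (π : ι → RR) (A : Finset ι) : ℂ :=
  Bd Ω W (∏ i ∈ A, π i) (ch π A) / 2 ^ A.card

/-- the Euler factors -/
noncomputable def ef (lam : RR → ℂ) (π : ι → RR) (S A : Finset ι) : ℂ :=
  ∏ i ∈ S \ A, ((lam (π i) - ch π A (π i)) / 2)

omit hv in
theorem rec_b {lam : RR → ℂ} {W : ℂ → ℂ} (hW : Ds L Ω lam W) (hL : IsLat L RR Ω) {S : Finset ι}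
    (hS : Fm S π) : bb Ω W π S + ∑ A ∈ S.powerset.erase S, ef lam π S A * bb Ω W π A =
      Bd Ω W (∏ i ∈ S, π i) (fun m => ∏ i ∈ S, hc (π i) m) := by
  have h2 := Bd_subsets hW hL S hS
  have h20 : (2 : ℂ) ^ S.card ≠ 0 := pow_ne_zero _ two_ne_zero
  have h3 : ∀ A ∈ S.powerset, (∏ i ∈ S \ A, (lam (π i) - ch π A (π i))) *
      Bd Ω W (∏ i ∈ A, π i) (ch π A) = 2 ^ S.card * (ef lam π S A * bb Ω W π A) := by
    intro A hA
    rw [Finset.mem_powerset] at hA
    have hcs : S.card = (S \ A).card + A.card := (Finset.card_sdiff_add_card_eq_card hA).symm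
    unfold ef bb
    rw [Finset.prod_div_distrib, Finset.prod_const, hcs, pow_add]
    field_simp
  rw [Finset.sum_congr rfl h3, ← Finset.mul_sum] at h2
  have h4 := mul_left_cancel₀ h20 h2
  rw [← h4, ← Finset.add_sum_erase _ _ (Finset.mem_powerset_self S)]
  congr 1
  unfold ef
  rw [Finset.sdiff_self, Finset.prod_empty, one_mul]

/-- the symbols -/
noncomputable def rr (π : ι → RR) (i j : ι) : ZMod 2 := lg (sy (π j) (π i))

omit hv in
lemma ch_sgn {S A : Finset ι} (hS : Fm S π) (hA : A ⊆ S) {i : ι} (hi : i ∈ S \ A) :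
    (ch π A (π i) = 1 ∨ ch π A (π i) = -1) ∧ lg (ch π A (π i)) = ∑ j ∈ A, rr π i j := by
  rw [Finset.mem_sdiff] at hi
  exact sgn_prod (s := A) (f := fun j => sy (π j) (π i)) fun j hj => sy_sgn
    (hS.ne i hi.1 j (hA hj) fun h => hi.2 (h ▸ hj))

lemma v_ef {r : ℕ} {S A : Finset ι} (hS : Fm S π) (hA : A ⊆ S) :
    ∀ i ∈ S \ A, v ((gm r (π i : ℂ) - ch π A (π i)) / 2) ≤ 1 := by
  intro i hi
  have h1 := (ch_sgn hS hA hi).1
  have h2 := v_gm hv r (hS.pd i (Finset.mem_sdiff.1 hi).1).fo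
  have h20 := v_two0 hv
  have e : (gm r (π i : ℂ) - ch π A (π i)) / 2 =
      (gm r (π i : ℂ) - 1) / 2 + (1 - ch π A (π i)) / 2 := by ring
  rw [e]
  refine v_add_le (v_half h20 ?_) ?_
  · rw [mul_one]
    refine h2.trans ?_
    rw [v_four2 hv]
    exact mul_le_of_le_one_right' (v_two_lt hv).le
  · rcases h1 with h1 | h1
    · rw [h1, sub_self, zero_div, map_zero]
      exact zero_le_one
    · rw [h1]
      have : (1 - (-1) : ℂ) / 2 = 1 := by norm_num
      rw [this, map_one]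

lemma v_ef_sub {r : ℕ} {S A : Finset ι} (hS : Fm S π) (hA : A ⊆ S) :
    v (ef (fun c => gm r (c : ℂ)) π S A - ef (fun c => gm 0 (c : ℂ)) π S A) ≤ v 2 := by
  unfold ef
  have key : ∀ B ⊆ S \ A, v (∏ i ∈ B, ((gm r (π i : ℂ) - ch π A (π i)) / 2) -
      ∏ i ∈ B, ((gm 0 (π i : ℂ) - ch π A (π i)) / 2)) ≤ v 2 := by
    intro B
    induction B using Finset.induction_on with
    | empty =>
      intro _
      rw [Finset.prod_empty, Finset.prod_empty, sub_self, map_zero]
      exact zero_le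
    | insert j B hj ih =>
      intro hB
      have hjS : j ∈ S \ A := hB (Finset.mem_insert_self _ _)
      have hBs : B ⊆ S \ A := (Finset.subset_insert _ _).trans hB
      have ih' := ih hBs
      rw [Finset.prod_insert hj, Finset.prod_insert hj]
      set X := ∏ i ∈ B, ((gm r (π i : ℂ) - ch π A (π i)) / 2)
      set Y := ∏ i ∈ B, ((gm 0 (π i : ℂ) - ch π A (π i)) / 2) with hY
      have hYv : v Y ≤ 1 := by
        rw [hY]
        exact Pool.Agent.Y698.v_prod_le _ fun i hi => v_ef hv hS hA i (hBs hi)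
      have hx := v_ef hv (r := r) hS hA j hjS
      have hd : v ((gm r (π j : ℂ) - ch π A (π j)) / 2 - (gm 0 (π j : ℂ) - ch π A (π j)) / 2) ≤
          v 2 := by
        have e : (gm r (π j : ℂ) - ch π A (π j)) / 2 - (gm 0 (π j : ℂ) - ch π A (π j)) / 2 =
            ((gm r (π j : ℂ) - 1) - (gm 0 (π j : ℂ) - 1)) / 2 := by ring
        rw [e]
        refine v_half (v_two0 hv) ?_
        rw [← v_four2 hv]
        have hf := (hS.pd j (Finset.mem_sdiff.1 hjS).1).fo
        exact v_sub_le (v_gm hv r hf) (v_gm hv 0 hf)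
      have e : (gm r (π j : ℂ) - ch π A (π j)) / 2 * X - (gm 0 (π j : ℂ) - ch π A (π j)) / 2 * Y =
          (gm r (π j : ℂ) - ch π A (π j)) / 2 * (X - Y) +
          ((gm r (π j : ℂ) - ch π A (π j)) / 2 - (gm 0 (π j : ℂ) - ch π A (π j)) / 2) * Y := by
        ring
      rw [e]
      refine v_add_le ?_ ?_
      · rw [map_mul]
        calc _ ≤ 1 * v 2 := mul_le_mul' hx ih'
          _ = v 2 := one_mul _
      · rw [map_mul]
        calc _ ≤ v 2 * 1 := mul_le_mul' hd hYv
          _ = v 2 := mul_one _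
  exact key _ (subset_refl _)

/-- the sum of the coordinates of a quarter of `ϖ - 1` -/
noncomputable def kp (ϖ : RR) : ZMod 2 := (((cX ϖ - 1) / 4 + cY ϖ / 4 : ℤ) : ZMod 2)

omit hv in
lemma co_four {ϖ u : RR} (hu : ϖ - 1 = 4 * u) : cX ϖ = 4 * cX u + 1 ∧ cY ϖ = 4 * cY u := by
  apply cXY_of
  have h := congrArg (fun r : RR => (r : ℂ)) hu
  push_cast at h
  rw [four_coe, co u] at h
  push_cast
  linear_combination h

omit hv in
lemma tt_mod {ϖ u : RR} (h : Pd ϖ) (hu : ϖ - 1 = 4 * u) : (tt ϖ : ZMod 2) = (cY u : ZMod 2) := by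
  obtain ⟨h1, h2⟩ := co_four hu
  have h3 := h.tt
  have h4 : (tt ϖ : ℤ) = cY u + 2 * (cX u + 2 * cX u ^ 2 + 2 * cX u * cY u + 4 * cY u ^ 2) := by
    unfold Pool.Agent.Y698.nR at h3
    rw [h1, h2] at h3
    linarith
  have h5 : ((tt ϖ : ℤ) : ZMod 2) = (cY u : ZMod 2) := by
    rw [h4]
    push_cast
    have : (2 : ZMod 2) = 0 := by decide
    rw [this]
    ring
  rw [← h5, Int.cast_natCast]

lemma Rd_R (u : RR) : Rd v (u : ℂ) (cX u : ZMod 2) := by
  rw [co u, ← add_zero (cX u : ZMod 2)]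
  refine Rd.add (v_two_lt hv) ?_ ?_
  · rcases Int.even_or_odd (cX u) with ⟨k, hk⟩ | ⟨k, hk⟩
    · have e : (cX u : ZMod 2) = 0 := by
        rw [hk]
        push_cast
        exact CharTwo.add_self_eq_zero _
      rw [e, Rd.zero_iff, hk]
      push_cast
      rw [← two_mul]
      exact v_mul_lt' (v_two_lt hv) (v_int k)
    · have e : (cX u : ZMod 2) = 1 := by
        rw [hk]
        push_cast
        have : (2 : ZMod 2) = 0 := by decide
        rw [this, zero_mul, zero_add]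
      rw [e, Rd.one_iff, hk]
      push_cast
      rw [add_sub_cancel_right]
      exact v_mul_lt' (v_two_lt hv) (v_int k)
  · rw [Rd.zero_iff, mul_comm]
    exact v_mul_lt' hv (v_int _)

lemma Rd_nat (n : ℕ) : Rd v (n : ℂ) (n : ZMod 2) := by
  have h := Rd_R hv ((n : ℕ) : RR)
  rw [(Pool.Agent.Y698.cXY_nat n).1, Int.cast_natCast] at h
  rwa [nat_coe] at h

theorem Rd_ef {S A : Finset ι} (hS : Fm S π) (hA : A ⊆ S) :
    Rd v (ef (fun c => gm 0 (c : ℂ)) π S A) (∏ i ∈ S \ A, ∑ j ∈ A, rr π i j) := by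
  unfold ef
  refine Rd.prod fun i hi => ?_
  have h1 := ch_sgn hS hA hi
  obtain ⟨u, hu⟩ := (hS.pd i (Finset.mem_sdiff.1 hi).1).fo
  have h2 := Rd.euler (s := 1) hv (ϖ := π i) ⟨u, by linear_combination hu⟩ (Or.inl rfl) h1.1
  rw [mul_one, lg_one, zero_add, h1.2] at h2
  show Rd v ((gm 0 (π i : ℂ) - ch π A (π i)) / 2) _
  rw [gm_zero]
  exact h2

/-- the sums of weight zero -/
theorem ind_zero (h : LD L Ω)
    (hpq : ∀ l ∈ L.lattice, eta L l = p * l + q * (starRingEnd ℂ) l)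
    {S0 : Finset ι} (hS0 : Fm S0 π) (S : Finset ι) (hSS : S ⊆ S0) (hne : S.Nonempty) :
    Rd v (bb Ω (GQ L p q Ω 0) π S / 2) (cc (rr π) (fun i => kp (π i)) S0 S) := by
  have hL := h.lat
  have t2 := v_two_lt hv
  induction S using Finset.strongInduction with
  | H S ih =>
    have hS := hS0.mono hSS
    have hW := GQ_ds hL hpq 0
    have hrec := rec_b hW hL hS
    obtain ⟨H, hH1, hH2, hH3⟩ := Bd_half hS hne hL
    rw [hH3 _ _ hW] at hrec
    have hemp : ∅ ∈ S.powerset.erase S := by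
      rw [Finset.mem_erase, Finset.mem_powerset]
      exact ⟨hne.ne_empty.symm, Finset.empty_subset S⟩
    rw [← Finset.add_sum_erase _ _ hemp] at hrec
    have hb0 : bb Ω (GQ L p q Ω 0) π ∅ = 1 := by
      unfold bb
      have f1 := fin_quot (one_ne_zero (α := RR))
      let _ : Fintype (RR ⧸ sp 1) := Fintype.ofFinite _
      rw [Finset.prod_empty, Bd_eq]
      have h1 : Subsingleton (RR ⧸ sp 1) := by
        rw [Ideal.Quotient.subsingleton_iff]
        exact Ideal.span_singleton_one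
      have h2 : ∀ x : RR ⧸ sp 1, ch π ∅ x.out * GQ L p q Ω 0 (Ω * x.out / ((1 : RR) : ℂ)) = 1 := by
        intro x
        unfold ch
        rw [Finset.prod_empty, one_mul]
        refine GQ_zero_lat h hpq ?_
        have := hL.mem_mul x.out
        convert this using 1
        push_cast
        ring
      rw [Finset.sum_congr rfl (fun x _ => h2 x), Finset.sum_const, Finset.card_univ]
      have : Fintype.card (RR ⧸ sp 1) = 1 := Fintype.card_eq_one_iff_nonempty_unique.2
        ⟨⟨⟨0⟩, fun a => Subsingleton.elim _ _⟩⟩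
      rw [this]
      simp
    rw [hb0, mul_one] at hrec
    have hpow : ef (fun c => gm 0 (c : ℂ)) π S ∅ / 2 =
        2 ^ (S.card - 1) * ∏ i ∈ S, (((π i : ℂ) - 1) / 4) := by
      unfold ef
      rw [Finset.sdiff_empty]
      have e : ∀ i ∈ S, (gm 0 (π i : ℂ) - ch π ∅ (π i)) / 2 = 2 * (((π i : ℂ) - 1) / 4) := by
        intro i _
        rw [gm_zero]
        unfold ch
        rw [Finset.prod_empty]
        ring
      rw [Finset.prod_congr rfl e, Finset.prod_mul_distrib, Finset.prod_const]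
      have h4 : S.card = (S.card - 1) + 1 := by
        have := Finset.card_pos.2 hne
        omega
      conv_lhs => rw [h4, pow_succ']
      ring
    -- the values
    have hsum : ∑ x ∈ H, GQ L p q Ω 0 (Ω * (x.out : RR) / ((∏ i ∈ S, π i : RR) : ℂ)) =
        (H.card : ℂ) + 2 * ∑ x ∈ H, tau L Ω (Ω * (x.out : RR) / ((∏ i ∈ S, π i : RR) : ℂ)) := by
      rw [Finset.sum_congr rfl (fun x hx => GQ_zero h hpq (hS.fo.od hL _) (hH1 x hx)),
        Finset.sum_add_distrib, Finset.sum_const, nsmul_eq_mul, mul_one, Finset.mul_sum]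
    have hτ : v (∑ x ∈ H, tau L Ω (Ω * (x.out : RR) / ((∏ i ∈ S, π i : RR) : ℂ))) ≤ 1 :=
      v_sum_le _ fun x hx => (v_tau h hv (hS.fo.od hL _) (hH1 x hx)).le
    have hY : Rd v (∑ x ∈ H, GQ L p q Ω 0 (Ω * (x.out : RR) / ((∏ i ∈ S, π i : RR) : ℂ)))
        (H.card : ZMod 2) := by
      rw [hsum, ← add_zero (H.card : ZMod 2)]
      exact Rd.add t2 (Rd_nat hv _) (Rd.zero_iff.2 (v_mul_lt' t2 hτ))
    have hfin : bb Ω (GQ L p q Ω 0) π S / 2 =
        ∑ x ∈ H, GQ L p q Ω 0 (Ω * (x.out : RR) / ((∏ i ∈ S, π i : RR) : ℂ)) +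
        -(2 ^ (S.card - 1) * ∏ i ∈ S, (((π i : ℂ) - 1) / 4)) +
        -∑ A ∈ (S.powerset.erase S).erase ∅, ef (fun c => gm 0 (c : ℂ)) π S A *
          (bb Ω (GQ L p q Ω 0) π A / 2) := by
      rw [← hpow]
      have e : ∑ A ∈ (S.powerset.erase S).erase ∅, ef (fun c => gm 0 (c : ℂ)) π S A *
          (bb Ω (GQ L p q Ω 0) π A / 2) = (∑ A ∈ (S.powerset.erase S).erase ∅,
          ef (fun c => gm 0 (c : ℂ)) π S A * bb Ω (GQ L p q Ω 0) π A) / 2 := by
        rw [Finset.sum_div]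
        exact Finset.sum_congr rfl fun A _ => by ring
      rw [e]
      linear_combination (1 / 2 : ℂ) * hrec
    have hu : ∀ i ∈ S, ∃ u : RR, π i - 1 = 4 * u ∧ ((π i : ℂ) - 1) / 4 = u := by
      intro i hi
      obtain ⟨u, hu⟩ := (hS.pd i hi).fo
      refine ⟨u, hu, ?_⟩
      have h := congrArg (fun r : RR => (r : ℂ)) hu
      push_cast at h
      rw [four_coe] at h
      rw [h]
      ring
    have hsm : Rd v (∑ A ∈ (S.powerset.erase S).erase ∅, ef (fun c => gm 0 (c : ℂ)) π S A *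
          (bb Ω (GQ L p q Ω 0) π A / 2)) (∑ A ∈ (S.powerset.erase S).erase ∅,
          (∏ i ∈ S \ A, ∑ j ∈ A, rr π i j) * cc (rr π) (fun i => kp (π i)) S0 A) := by
      refine Rd.sum t2 fun A hA => ?_
      rw [Finset.mem_erase, Finset.mem_erase, Finset.mem_powerset] at hA
      refine Rd.mul (Rd_ef hv hS hA.2.2) (ih A (hA.2.2.ssubset_of_ne hA.2.1)
        (hA.2.2.trans hSS) (Finset.nonempty_iff_ne_empty.2 hA.1))
    rw [hfin]
    rcases Nat.lt_or_ge 1 S.card with hcard | hcard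
    · rw [cc_rec _ _ S0 hcard]
      have hz : Rd v (-(2 ^ (S.card - 1) * ∏ i ∈ S, (((π i : ℂ) - 1) / 4))) 0 := by
        refine Rd.neg t2 ?_
        rw [Rd.zero_iff]
        refine v_mul_lt' ?_ (Pool.Agent.Y698.v_prod_le _ fun i hi => ?_)
        · rw [map_pow]
          exact pow_lt_one₀ zero_le t2 (by omega)
        · obtain ⟨u, -, hu⟩ := hu i hi
          rw [hu]
          exact v_RR hv u
      have hH0 : (H.card : ZMod 2) = 0 := by
        rw [hH2]
        push_cast
        have : (2 : ZMod 2) = 0 := by decide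
        rw [this, zero_pow (by omega), zero_mul]
      rw [hH0] at hY
      have := Rd.add t2 (Rd.add t2 hY hz) (Rd.neg t2 hsm)
      rwa [add_zero, zero_add] at this
    · have hc1 : S.card = 1 := by
        have := Finset.card_pos.2 hne
        omega
      obtain ⟨i, rfl⟩ := Finset.card_eq_one.1 hc1
      have hiS0 : i ∈ S0 := hSS (Finset.mem_singleton_self i)
      rw [cc_single _ _ hiS0]
      have he : ((({i} : Finset ι).powerset.erase {i}).erase ∅) = ∅ := by
        ext A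
        rw [Finset.mem_erase, Finset.mem_erase, Finset.mem_powerset, Finset.subset_singleton_iff]
        constructor
        · rintro ⟨h1, h2, h3⟩
          rcases h3 with h3 | h3
          · exact absurd h3 h1
          · exact absurd h3 h2
        · intro h
          exact absurd h (Finset.notMem_empty _)
      obtain ⟨u, hu1, hu2⟩ := hu i (Finset.mem_singleton_self i)
      rw [he, Finset.sum_empty, neg_zero, add_zero, Finset.card_singleton, Nat.sub_self, pow_zero,
        one_mul, Finset.prod_singleton (fun i => ((π i : ℂ) - 1) / 4) i, hu2]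
      have hH0 : (H.card : ZMod 2) = (cY u : ZMod 2) := by
        rw [hH2, Finset.card_singleton, Nat.sub_self, pow_zero, one_mul, Finset.prod_singleton,
          tt_mod (hS.pd i (Finset.mem_singleton_self i)) hu1]
      rw [hH0] at hY
      have hk : kp (π i) = (cY u : ZMod 2) + (cX u : ZMod 2) := by
        obtain ⟨h1, h2⟩ := co_four hu1
        unfold kp
        have e1 : (cX (π i) - 1) / 4 = cX u := by omega
        have e2 : cY (π i) / 4 = cY u := by omega
        rw [e1, e2]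
        push_cast
        ring
      rw [hk]
      exact Rd.add t2 hY (Rd.neg t2 (Rd_R hv u))

end val

end Pool.Agent.N843
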