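import Pool.Agent.N843.Ind

/-!
# The valuations of the weighted sums in all weights
-/

set_option autoImplicit false
set_option linter.unusedSectionVars false
set_option linter.unusedSimpArgs false

open Filter
open scoped Topology PeriodPair

namespace Pool.Agent.N843

open H667R3 Pool.Agent.TH936.CW Pool.Agent.W192.HK Pool.Agent.Y690.NV Pool.Agent.TH936.PU
open Pool.Agent.Y698 (RR al al_sq al_ne bl bl_ne al_mul_bl LD tA tB aR aR_coe bR bR_coe cX cY co
  co_uniq al_im_pos Xx_per Tb v_two v_two_lt v_bl fin_quot aR_mul_bR two_coe nR cj mul_cj cj_coe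
  cXY_int cXY_of RR_ext)
open Pool.Agent.Y698.SG (Pe sy sy_per sy_val sy_sgn tr tr_per tr_mul Mu hc hc_val hc_per
  sp_mem_iff prime_mem Rd lg lg_one v_RR sgn_prod)
open Pool.Agent.TH936.CM (IsLat)

variable {L : PeriodPair} {Ω p q : ℂ}

lemma Pd.aR {ϖ : RR} (h : Pd ϖ) : aR ∉ sp ϖ := by
  intro h1
  apply h.two
  have := Ideal.mul_mem_right bR _ h1
  rwa [aR_mul_bR] at this

lemma Pd.bR {ϖ : RR} (h : Pd ϖ) : Pool.Agent.Y698.bR ∉ sp ϖ := by
  intro h1
  apply h.two
  have := Ideal.mul_mem_left _ Pool.Agent.Y698.aR h1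
  rwa [aR_mul_bR] at this

variable {ι : Type} {π : ι → RR}

lemma ch_unit {A : Finset ι} (hA : Fm A π) {x : RR} (hx : ∀ i ∈ A, x ∉ sp (π i)) :
    ch π A x = 1 ∨ ch π A x = -1 :=
  (sgn_prod (s := A) (f := fun j => sy (π j) x) fun j hj => sy_sgn (hx j hj)).1

lemma ch_sq {A : Finset ι} (hA : Fm A π) {x : RR} (hx : ∀ i ∈ A, x ∉ sp (π i)) :
    ch π A x * ch π A x = 1 := by
  rcases ch_unit hA hx with h | h <;> rw [h] <;> norm_num

theorem Bd_GD (hL : IsLat L RR Ω)
    (hpq : ∀ l ∈ L.lattice, eta L l = p * l + q * (starRingEnd ℂ) l) {A : Finset ι}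
    (hA : Fm A π) : Bd Ω (GD L p q Ω) (∏ i ∈ A, π i) (ch π A) =
      (1 + ch π A aR * bl⁻¹) * Bd Ω (GQ L p q Ω 0) (∏ i ∈ A, π i) (ch π A) := by
  have hG := GQ_ds hL hpq 0
  set n : RR := ∏ i ∈ A, π i with hn
  have hfo : Fo n := hA.fo
  have f1 := fin_quot hfo.ne
  let _ : Fintype (RR ⧸ sp n) := Fintype.ofFinite _
  have hper : Pe n (fun x => ch π A x * GQ L p q Ω 0 (Ω * x / (n : ℂ))) := fun x y hxy =>
    Bd_term hG hL hfo (ch_per π A) hxy
  have h1 := sum_unit hfo.cop_aR hper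
  have hs := ch_sq hA (x := aR) fun i hi => (hA.pd i hi).aR
  rw [Bd_eq, Bd_eq]
  have h2 : ∀ x : RR ⧸ sp n, ch π A x.out * GD L p q Ω (Ω * x.out / (n : ℂ)) =
      ch π A x.out * GQ L p q Ω 0 (Ω * x.out / (n : ℂ)) + (ch π A aR * bl⁻¹) *
        (ch π A (aR * x.out) * GQ L p q Ω 0 (Ω * ((aR * x.out : RR) : ℂ) / (n : ℂ))) := by
    intro x
    have e : Ω * ((aR * x.out : RR) : ℂ) / (n : ℂ) = al * (Ω * x.out / (n : ℂ)) := by
      push_cast
      rw [aR_coe]
      ring
    unfold GD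
    rw [hA.ch_mul, e]
    linear_combination (-(ch π A x.out * bl⁻¹ * GQ L p q Ω 0 (al * (Ω * x.out / (n : ℂ))))) * hs
  rw [Finset.sum_congr rfl (fun x _ => h2 x), Finset.sum_add_distrib, ← Finset.mul_sum, h1]
  ring

section val

variable {Γ : Type*} [LinearOrderedCommGroupWithZero Γ] {v : Valuation ℂ Γ}
variable (hv : v al < 1)
include hv
variable [DecidableEq ι]

omit hv in
lemma bb_empty (hL : IsLat L RR Ω) {lam : RR → ℂ} {W : ℂ → ℂ} (hW : Ds L Ω lam W) :
    bb Ω W π ∅ = W 0 := by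
  unfold bb
  have f1 := fin_quot (one_ne_zero (α := RR))
  let _ : Fintype (RR ⧸ sp 1) := Fintype.ofFinite _
  rw [Finset.prod_empty, Bd_eq]
  have h1 : Subsingleton (RR ⧸ sp 1) := by
    rw [Ideal.Quotient.subsingleton_iff]
    exact Ideal.span_singleton_one
  have h2 : ∀ x : RR ⧸ sp 1, ch π ∅ x.out * W (Ω * x.out / ((1 : RR) : ℂ)) = W 0 := by
    intro x
    unfold ch
    rw [Finset.prod_empty, one_mul]
    refine hW.per _ _ (Od.of_mem (zero_mem _)) ?_
    have := hL.mem_mul x.out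
    convert this using 1
    push_cast
    ring
  rw [Finset.sum_congr rfl (fun x _ => h2 x), Finset.sum_const, Finset.card_univ]
  have : Fintype.card (RR ⧸ sp 1) = 1 := Fintype.card_eq_one_iff_nonempty_unique.2
    ⟨⟨⟨0⟩, fun a => Subsingleton.elim _ _⟩⟩
  rw [this]
  simp

omit hv in
lemma bb_GD (hL : IsLat L RR Ω)
    (hpq : ∀ l ∈ L.lattice, eta L l = p * l + q * (starRingEnd ℂ) l) {A : Finset ι}
    (hA : Fm A π) : bb Ω (GD L p q Ω) π A =
      (1 + ch π A aR * bl⁻¹) * bb Ω (GQ L p q Ω 0) π A := by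
  unfold bb
  rw [Bd_GD hL hpq hA]
  ring

lemma v_fac {A : Finset ι} (hA : Fm A π) : v (1 + ch π A aR * bl⁻¹) ≤ v 2 := by
  have h2 : v (1 + bl⁻¹) ≤ v 2 := by
    rw [v_one_bl hv, v_four2 hv]
    exact mul_le_of_le_one_right' (v_two_lt hv).le
  rcases ch_unit hA (x := aR) fun i hi => (hA.pd i hi).aR with h | h
  · rw [h, one_mul]
    exact h2
  · rw [h]
    have e : (1 + -1 * bl⁻¹ : ℂ) = 2 - (1 + bl⁻¹) := by ring
    rw [e]
    exact v_sub_le le_rfl h2

lemma v_fac_neg {A : Finset ι} (h : ch π A aR = -1) : v (1 + ch π A aR * bl⁻¹) = v 2 := by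
  rw [h]
  have hb := bl_ne
  have e : (1 + -1 * bl⁻¹ : ℂ) = -al / bl := by
    field_simp
    unfold bl
    ring
  rw [e, map_div₀, Valuation.map_neg, v_bl hv, div_one, v_two hv]

theorem v_bb0 (h : LD L Ω)
    (hpq : ∀ l ∈ L.lattice, eta L l = p * l + q * (starRingEnd ℂ) l)
    {A : Finset ι} (hA : Fm A π) (hne : A.Nonempty) : v (bb Ω (GQ L p q Ω 0) π A) ≤ v 2 := by
  have h1 := (ind_zero hv h hpq hA A (subset_refl _) hne).le
  rw [map_div₀, div_le_iff₀ (zero_lt_iff.2 (v_two0 hv)), one_mul] at h1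
  exact h1

theorem v_bbD (h : LD L Ω)
    (hpq : ∀ l ∈ L.lattice, eta L l = p * l + q * (starRingEnd ℂ) l)
    {A : Finset ι} (hA : Fm A π) : v (bb Ω (GD L p q Ω) π A) ≤ v 4 := by
  have hL := h.lat
  rcases A.eq_empty_or_nonempty with rfl | hne
  · rw [bb_empty hL (GD_ds hL hpq)]
    unfold GD
    rw [mul_zero, GQ_zero_lat h hpq (zero_mem _), mul_one]
    exact (v_one_bl hv).le
  · rw [bb_GD hL hpq hA, map_mul, v_four2 hv]
    exact mul_le_mul' (v_fac hv hA) (v_bb0 hv h hpq hA hne)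

omit hv in
lemma v_mul_le2 {a b : ℂ} {g g' : Γ} (ha : v a ≤ g) (hb : v b ≤ g') : v (a * b) ≤ g * g' := by
  rw [map_mul]
  exact mul_le_mul' ha hb

/-- the congruence between the sums -/
theorem ind_diff (h : LD L Ω)
    (hpq : ∀ l ∈ L.lattice, eta L l = p * l + q * (starRingEnd ℂ) l) (r : ℕ)
    (S : Finset ι) (hS : Fm S π) (hne : S.Nonempty) :
    v (bb Ω (GQ L p q Ω (r + 1)) π S - bb Ω (GD L p q Ω) π S) ≤ v 8 := by
  have hL := h.lat
  have t2 := v_two_lt hv
  have e8 := v_eight hv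
  induction S using Finset.strongInduction with
  | H S ih =>
    have hW := GQ_ds hL hpq (r + 1)
    have hD := GD_ds hL hpq
    have r1 := rec_b hW hL hS
    have r2 := rec_b hD hL hS
    obtain ⟨H, hH1, -, hH3⟩ := Bd_half hS hne hL
    rw [hH3 _ _ hW] at r1
    rw [hH3 _ _ hD] at r2
    have hfin : bb Ω (GQ L p q Ω (r + 1)) π S - bb Ω (GD L p q Ω) π S =
        2 * ∑ x ∈ H, (GQ L p q Ω (r + 1) (Ω * (x.out : RR) / ((∏ i ∈ S, π i : RR) : ℂ)) -
          GD L p q Ω (Ω * (x.out : RR) / ((∏ i ∈ S, π i : RR) : ℂ))) -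
        ∑ A ∈ S.powerset.erase S, (ef (fun c => gm (r + 1) (c : ℂ)) π S A *
          (bb Ω (GQ L p q Ω (r + 1)) π A - bb Ω (GD L p q Ω) π A) +
          (ef (fun c => gm (r + 1) (c : ℂ)) π S A - ef (fun c => gm 0 (c : ℂ)) π S A) *
            bb Ω (GD L p q Ω) π A) := by
      have e1 : ∑ A ∈ S.powerset.erase S, (ef (fun c => gm (r + 1) (c : ℂ)) π S A *
          (bb Ω (GQ L p q Ω (r + 1)) π A - bb Ω (GD L p q Ω) π A) +
          (ef (fun c => gm (r + 1) (c : ℂ)) π S A - ef (fun c => gm 0 (c : ℂ)) π S A) *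
            bb Ω (GD L p q Ω) π A) = ∑ A ∈ S.powerset.erase S,
          ef (fun c => gm (r + 1) (c : ℂ)) π S A * bb Ω (GQ L p q Ω (r + 1)) π A -
          ∑ A ∈ S.powerset.erase S, ef (fun c => gm 0 (c : ℂ)) π S A *
            bb Ω (GD L p q Ω) π A := by
        rw [← Finset.sum_sub_distrib]
        exact Finset.sum_congr rfl fun A _ => by ring
      rw [e1, Finset.sum_sub_distrib]
      linear_combination r1 - r2
    rw [hfin]
    refine v_sub_le ?_ ?_
    · rw [e8]
      refine v_mul_le2 le_rfl (Valuation.map_sum_le v fun x hx => ?_)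
      exact GQ_cong h hv hpq r (hS.fo.od hL _)
    · refine Valuation.map_sum_le v fun A hA => ?_
      rw [Finset.mem_erase, Finset.mem_powerset] at hA
      have hAS : Fm A π := hS.mono hA.2
      have hsub := v_ef_sub hv (r := r + 1) hS hA.2
      refine v_add_le ?_ ?_
      · rcases A.eq_empty_or_nonempty with rfl | hAne
        · have k1 : v (ef (fun c => gm (r + 1) (c : ℂ)) π S ∅) ≤ v 2 := by
            obtain ⟨i, hi⟩ := hne
            unfold ef
            rw [Finset.sdiff_empty, ← Finset.mul_prod_erase _ _ hi, map_mul]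
            have k2 : v ((gm (r + 1) (π i : ℂ) - ch π ∅ (π i)) / 2) ≤ v 2 := by
              refine v_half (v_two0 hv) ?_
              unfold ch
              rw [Finset.prod_empty, ← v_four2 hv]
              exact v_gm hv _ (hS.pd i hi).fo
            have k3 : v (∏ j ∈ S.erase i, ((gm (r + 1) (π j : ℂ) - ch π ∅ (π j)) / 2)) ≤ 1 := by
              refine Pool.Agent.Y698.v_prod_le _ fun j hj => v_ef hv hS hA.2 j ?_
              rw [Finset.sdiff_empty]
              exact Finset.mem_of_mem_erase hj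
            calc _ ≤ v 2 * 1 := mul_le_mul' k2 k3
              _ = v 2 := mul_one _
          have k2 : v (bb Ω (GQ L p q Ω (r + 1)) π ∅ - bb Ω (GD L p q Ω) π ∅) ≤ v 4 := by
            rw [bb_empty hL hW, bb_empty hL hD]
            exact GQ_cong h hv hpq r (Od.of_mem (zero_mem _))
          rw [e8]
          exact v_mul_le2 k1 k2
        · have k1 := ih A (hA.2.ssubset_of_ne hA.1) hAS hAne
          have k2 : v (ef (fun c => gm (r + 1) (c : ℂ)) π S A) ≤ 1 := by
            unfold ef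
            exact Pool.Agent.Y698.v_prod_le _ fun j hj => v_ef hv hS hA.2 j hj
          have := v_mul_le2 k2 k1
          rwa [one_mul] at this
      · rw [e8]
        exact v_mul_le2 hsub (v_bbD hv h hpq hAS)

/-- the exact valuation -/
theorem v_main (h : LD L Ω)
    (hpq : ∀ l ∈ L.lattice, eta L l = p * l + q * (starRingEnd ℂ) l) (r : ℕ)
    {S : Finset ι} (hS : Fm S π) (hne : S.Nonempty)
    (h1 : cc (rr π) (fun i => kp (π i)) S S = 1) (h2 : ch π S aR = -1) :
    bb Ω (GQ L p q Ω r) π S ≠ 0 := by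
  have hL := h.lat
  have t2 := v_two_lt hv
  have t20 := v_two0 hv
  have k1 := ind_zero hv h hpq hS S (subset_refl _) hne
  rw [h1, Rd.one_iff] at k1
  have k2 : v (bb Ω (GQ L p q Ω 0) π S / 2) = 1 := by
    have e : bb Ω (GQ L p q Ω 0) π S / 2 = 1 + (bb Ω (GQ L p q Ω 0) π S / 2 - 1) := by ring
    rw [e]
    exact v.map_one_add_of_lt k1
  have k3 : v (bb Ω (GQ L p q Ω 0) π S) = v 2 := by
    rwa [map_div₀, div_eq_one_iff_eq t20] at k2
  rcases r with _ | r
  · intro h0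
    rw [h0, map_zero] at k3
    exact t20 k3.symm
  · have k4 : v (bb Ω (GD L p q Ω) π S) = v 4 := by
      rw [bb_GD hL hpq hS, map_mul, v_fac_neg hv h2, k3, ← v_four2 hv]
    have k5 := ind_diff hv h hpq r S hS hne
    intro h0
    rw [h0, zero_sub, Valuation.map_neg, k4, v_eight hv] at k5
    have k6 : v (2 : ℂ) * v 4 < v 4 := by
      have h40 : 0 < v (4 : ℂ) := zero_lt_iff.2 (by rw [v_four hv]; exact pow_ne_zero _ v_al0)
      calc v 2 * v 4 < 1 * v 4 := mul_lt_mul_of_pos_right t2 h40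
        _ = v 4 := one_mul _
    exact absurd k5 (not_le.2 k6)

theorem v_main_empty (h : LD L Ω)
    (hpq : ∀ l ∈ L.lattice, eta L l = p * l + q * (starRingEnd ℂ) l) (r : ℕ) :
    bb Ω (GQ L p q Ω r) π ∅ ≠ 0 := by
  have hL := h.lat
  rw [bb_empty hL (GQ_ds hL hpq r)]
  rcases r with _ | r
  · rw [GQ_zero_lat h hpq (zero_mem _)]
    exact one_ne_zero
  · intro h0
    have := GQ_lat_val h hv hpq r (z := 0) (zero_mem _)
    rw [h0, map_zero, v_four hv] at this
    exact pow_ne_zero _ v_al0 this.symm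

end val

end Pool.Agent.N843
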