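import Pool.Agent.N843.Cong

/-!
# The sum of the values at `T + Q` and `-T + Q`
-/

set_option autoImplicit false
set_option linter.unusedSectionVars false
set_option linter.unusedSimpArgs false

open scoped PeriodPair

namespace Pool.Agent.N843

open H667R3 Pool.Agent.TH936.CW Pool.Agent.Y690.NV MvPolynomial Finset Pool.Agent.TH936.PU

/-- half of the sum of the values of weight one -/
noncomputable def aM : A := aE + aH * aT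

/-- the sum of the values at `T + Q` and `-T + Q` -/
theorem key_sum (n : ℕ) : ps 1 (Dn n) + ps (-1) (Dn n) -
    Sg (-aφ) (Mq (C 2 * aM)) n ∈ II := by
  have h1 := compat_ps (Or.inl rfl : (1 : ℂ) = 1 ∨ (1 : ℂ) = -1)
  have h2 := compat_ps (Or.inr rfl : (-1 : ℂ) = 1 ∨ (-1 : ℂ) = -1)
  refine (seq_eq (I := II) (fun z hz => da_II hz) (d := fun n => ps 1 (Dn n) + ps (-1) (Dn n))
    (S := Sg (-aφ) (Mq (C 2 * aM))) (-aφ) aG ?_ ?_ ?_ ?_ ?_ n).1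
  · have : ps 1 (Dn 0) + ps (-1) (Dn 0) - Sg (-aφ) (Mq (C 2 * aM)) 0 = 0 := by
      rw [Sg_zero, Mq_zero, Dn_zero, ps_E, ps_E]
      unfold pE aM
      refine MvPolynomial.funext fun v => ?_
      simp only [map_add, map_sub, map_mul, map_one, map_ofNat, eval_C, map_zero]
      ring
    show ps 1 (Dn 0) + ps (-1) (Dn 0) - Sg (-aφ) (Mq (C 2 * aM)) 0 ∈ II
    rw [this]
    exact II.zero_mem
  · have h := II.add_mem (rec1 h1) (rec1 h2)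
    convert h using 1
    rw [map_add]
    ring
  · intro n
    have h := II.add_mem (rec2 h1 n) (rec2 h2 n)
    rw [ps_G, ps_G] at h
    convert h using 1
    rw [map_add]
    ring
  · rw [Sg_one, Sg_zero, Mq_one, Mq_zero]
  · intro n
    exact Sg_rec da da_φ (by rw [Mq_one, Mq_zero]) (Mq_rec _) n

/-! ### the polynomials modulo four -/

/-- congruence modulo four and the relations -/
def Q4 (x y : A) : Prop := ∃ w ∈ WW, ∃ z ∈ II, x = y + 4 * w + z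

lemma Q4.da {x y : A} (h : Q4 x y) : Q4 (Pool.Agent.Y690.NV.da x) (Pool.Agent.Y690.NV.da y) := by
  obtain ⟨w, hw, z, hz, h⟩ := h
  refine ⟨Pool.Agent.Y690.NV.da w, da_WW hw, Pool.Agent.Y690.NV.da z, da_II hz, ?_⟩
  rw [h, map_add, map_add, da_four]

lemma Q4.trans {x y z : A} (h : Q4 x y) (h' : Q4 y z) : Q4 x z := by
  obtain ⟨w, hw, u, hu, h⟩ := h
  obtain ⟨w', hw', u', hu', h'⟩ := h'
  exact ⟨w + w', WW.add_mem hw hw', u + u', II.add_mem hu hu', by rw [h, h']; ring⟩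

lemma Q4.add_four {x y w : A} (h : Q4 x y) (hw : w ∈ WW) : Q4 (x + 4 * w) y := by
  obtain ⟨w', hw', u, hu, h⟩ := h
  exact ⟨w' + w, WW.add_mem hw' hw, u, hu, by rw [h]; ring⟩

lemma aM_mem : aM ∈ WW := WW.add_mem aE_mem (WW.mul_mem aH_mem aT_mem)

/-- the values -/
noncomputable def q1 : A := 2 * aT * aE - aT ^ 2 * aH + 2 * aT ^ 2 * aE
/-- the values -/
noncomputable def q2 : A := aT ^ 2 * aH + 2 * aT ^ 3 * aH
/-- the values -/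
noncomputable def q3 : A := 2 * aT * aE - aT ^ 2 * aH + 2 * aT ^ 2 * aE + 2 * aT ^ 3 * aH +
  2 * aT ^ 4 * aH

lemma in_II (a b : A) : a * r1 + b * r2 ∈ II := mem_II.2 ⟨a, b, rfl⟩

lemma da_two : da (2 : A) = 0 := A_ofNat da 2

lemma st1 : Q4 (da aM) q1 := by
  refine ⟨-(aE * aT) - aE * aT ^ 2 - 2 * b4 * aE - 2 * b4 * aH * aT, ?_,
    (-(2 * aE * aT) - aH * aT - 2 * aX * aE * aT - 4 * b4 * aE + 4 * b4 * aH + 4 * b4 * aX * aE +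
      8 * b4 * aX * aE * aT - 8 * b4 * aX * aH * aT - 8 * b4 * aX ^ 2 * aE * aT) * r1 +
    (-(2 * aE * aT ^ 2)) * r2, in_II _ _, ?_⟩
  · have m2 := ofNat_mem_WW 2
    exact WW.sub_mem (WW.sub_mem (WW.sub_mem (WW.neg_mem (WW.mul_mem aE_mem aT_mem))
      (WW.mul_mem aE_mem (WW.pow_mem aT_mem 2))) (WW.mul_mem (WW.mul_mem m2 b4_mem) aE_mem))
      (WW.mul_mem (WW.mul_mem (WW.mul_mem m2 b4_mem) aH_mem) aT_mem)
  · unfold aM q1 r1 r2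
    rw [map_add, A_mul, da_E, da_H, da_T]
    unfold fX
    rw [aB_eq]
    ring

lemma st2 : Q4 (da q1) q2 := by
  refine ⟨-(aH * aE ^ 2 * aT ^ 2) - 2 * aH * aE ^ 2 * aT ^ 3 - 5 * b4 * aE - 16 * b4 * aE * aT -
      12 * b4 * aE * aT ^ 2 - b4 * aH * aT + 2 * b4 * aH * aT ^ 2, ?_,
    (2 * aH * aT ^ 2 + 4 * aX * aE * aT ^ 2 - 20 * b4 * aE - 36 * b4 * aE * aT + 4 * b4 * aH * aT -
      12 * b4 * aX * aE * aT - 48 * b4 * aX * aE * aT ^ 2 + 16 * b4 * aX * aH * aT ^ 2 +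
      16 * b4 * aX ^ 2 * aE * aT ^ 2) * r1 + (4 * aE * aT ^ 3) * r2, in_II _ _, ?_⟩
  · have m2 := ofNat_mem_WW 2
    have m5 := ofNat_mem_WW 5
    have m16 := ofNat_mem_WW 16
    have m12 := ofNat_mem_WW 12
    have be : b4 * aE ∈ WW := WW.mul_mem b4_mem aE_mem
    have bh : b4 * aH ∈ WW := WW.mul_mem b4_mem aH_mem
    have he : aH * aE ^ 2 ∈ WW := WW.mul_mem aH_mem (WW.pow_mem aE_mem 2)
    have t2 := WW.pow_mem aT_mem 2
    have t3 := WW.pow_mem aT_mem 3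
    have e : -(aH * aE ^ 2 * aT ^ 2) - 2 * aH * aE ^ 2 * aT ^ 3 - 5 * b4 * aE -
        16 * b4 * aE * aT - 12 * b4 * aE * aT ^ 2 - b4 * aH * aT + 2 * b4 * aH * aT ^ 2 =
      -((aH * aE ^ 2) * aT ^ 2) - 2 * ((aH * aE ^ 2) * aT ^ 3) - 5 * (b4 * aE) -
        16 * ((b4 * aE) * aT) - 12 * ((b4 * aE) * aT ^ 2) - (b4 * aH) * aT +
        2 * ((b4 * aH) * aT ^ 2) := by ring
    rw [e]
    exact WW.add_mem (WW.sub_mem (WW.sub_mem (WW.sub_mem (WW.sub_mem (WW.sub_mem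
      (WW.neg_mem (WW.mul_mem he t2)) (WW.mul_mem m2 (WW.mul_mem he t3))) (WW.mul_mem m5 be))
      (WW.mul_mem m16 (WW.mul_mem be aT_mem))) (WW.mul_mem m12 (WW.mul_mem be t2)))
      (WW.mul_mem bh aT_mem)) (WW.mul_mem m2 (WW.mul_mem bh t2))
  · unfold q1 q2 r1 r2
    simp only [map_add, map_sub, A_mul, A_pow, da_E, da_H, da_T, da_two]
    unfold fX
    rw [aB_eq]
    push_cast
    ring

lemma st3 : Q4 (da q2) q3 := by
  refine ⟨-(aE * aT) - 4 * aE * aT ^ 2 - 6 * aE * aT ^ 3 - 3 * aE * aT ^ 4 - 2 * aH * aT ^ 3 -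
      2 * aH * aT ^ 4 - b4 * aE - 8 * b4 * aE * aT - 8 * b4 * aE * aT ^ 2 - b4 * aH * aT -
      10 * b4 * aH * aT ^ 2 - 12 * b4 * aH * aT ^ 3, ?_,
    (-(2 * aE * aT) - 12 * aE * aT ^ 2 - 12 * aE * aT ^ 3 - 2 * aH * aT ^ 2 - 6 * aH * aT ^ 3 -
      4 * aX * aE * aT ^ 2 - 12 * aX * aE * aT ^ 3 - 4 * b4 * aE - 28 * b4 * aE * aT -
      8 * b4 * aE * aT ^ 2 - 4 * b4 * aH * aT - 24 * b4 * aH * aT ^ 2 - 4 * b4 * aX * aE * aT -
      8 * b4 * aX * aE * aT ^ 2 + 48 * b4 * aX * aE * aT ^ 3 - 16 * b4 * aX * aH * aT ^ 2 -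
      48 * b4 * aX * aH * aT ^ 3 - 16 * b4 * aX ^ 2 * aE * aT ^ 2 -
      48 * b4 * aX ^ 2 * aE * aT ^ 3) * r1 + (-(4 * aE * aT ^ 3) - 12 * aE * aT ^ 4) * r2,
    in_II _ _, ?_⟩
  · have m2 := ofNat_mem_WW 2
    have m3 := ofNat_mem_WW 3
    have m4 := ofNat_mem_WW 4
    have m6 := ofNat_mem_WW 6
    have m8 := ofNat_mem_WW 8
    have m10 := ofNat_mem_WW 10
    have m12 := ofNat_mem_WW 12
    have be : b4 * aE ∈ WW := WW.mul_mem b4_mem aE_mem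
    have bh : b4 * aH ∈ WW := WW.mul_mem b4_mem aH_mem
    have t2 := WW.pow_mem aT_mem 2
    have t3 := WW.pow_mem aT_mem 3
    have t4 := WW.pow_mem aT_mem 4
    have e : -(aE * aT) - 4 * aE * aT ^ 2 - 6 * aE * aT ^ 3 - 3 * aE * aT ^ 4 - 2 * aH * aT ^ 3 -
      2 * aH * aT ^ 4 - b4 * aE - 8 * b4 * aE * aT - 8 * b4 * aE * aT ^ 2 - b4 * aH * aT -
      10 * b4 * aH * aT ^ 2 - 12 * b4 * aH * aT ^ 3 =
      -(aE * aT) - 4 * (aE * aT ^ 2) - 6 * (aE * aT ^ 3) - 3 * (aE * aT ^ 4) - 2 * (aH * aT ^ 3) -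
      2 * (aH * aT ^ 4) - b4 * aE - 8 * ((b4 * aE) * aT) - 8 * ((b4 * aE) * aT ^ 2) -
      (b4 * aH) * aT - 10 * ((b4 * aH) * aT ^ 2) - 12 * ((b4 * aH) * aT ^ 3) := by ring
    rw [e]
    exact WW.sub_mem (WW.sub_mem (WW.sub_mem (WW.sub_mem (WW.sub_mem (WW.sub_mem (WW.sub_mem
      (WW.sub_mem (WW.sub_mem (WW.sub_mem (WW.sub_mem (WW.neg_mem (WW.mul_mem aE_mem aT_mem))
      (WW.mul_mem m4 (WW.mul_mem aE_mem t2))) (WW.mul_mem m6 (WW.mul_mem aE_mem t3)))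
      (WW.mul_mem m3 (WW.mul_mem aE_mem t4))) (WW.mul_mem m2 (WW.mul_mem aH_mem t3)))
      (WW.mul_mem m2 (WW.mul_mem aH_mem t4))) be) (WW.mul_mem m8 (WW.mul_mem be aT_mem)))
      (WW.mul_mem m8 (WW.mul_mem be t2))) (WW.mul_mem bh aT_mem)) (WW.mul_mem m10
      (WW.mul_mem bh t2))) (WW.mul_mem m12 (WW.mul_mem bh t3))
  · unfold q2 q3 r1 r2
    simp only [map_add, map_sub, A_mul, A_pow, da_E, da_H, da_T, da_two]
    unfold fX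
    rw [aB_eq]
    push_cast
    ring

lemma st4 : Q4 (da q3) q2 := by
  refine ⟨-(2 * aE * aT ^ 2) - 8 * aE * aT ^ 3 - 10 * aE * aT ^ 4 - 4 * aE * aT ^ 5 -
      aH * aT ^ 3 - 3 * aH * aT ^ 4 - 2 * aH * aT ^ 5 - aH * aE ^ 2 * aT ^ 2 -
      2 * aH * aE ^ 2 * aT ^ 3 - 5 * b4 * aE - 22 * b4 * aE * aT - 30 * b4 * aE * aT ^ 2 -
      12 * b4 * aE * aT ^ 3 - b4 * aH * aT - 4 * b4 * aH * aT ^ 2 - 22 * b4 * aH * aT ^ 3 -
      16 * b4 * aH * aT ^ 4, ?_,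
    (-(8 * aE * aT ^ 2) - 24 * aE * aT ^ 3 - 16 * aE * aT ^ 4 + 2 * aH * aT ^ 2 -
      6 * aH * aT ^ 3 - 8 * aH * aT ^ 4 + 4 * aX * aE * aT ^ 2 - 12 * aX * aE * aT ^ 3 -
      16 * aX * aE * aT ^ 4 - 20 * b4 * aE - 60 * b4 * aE * aT - 48 * b4 * aE * aT ^ 2 -
      8 * b4 * aE * aT ^ 3 + 4 * b4 * aH * aT - 24 * b4 * aH * aT ^ 2 - 40 * b4 * aH * aT ^ 3 -
      12 * b4 * aX * aE * aT - 72 * b4 * aX * aE * aT ^ 2 + 8 * b4 * aX * aE * aT ^ 3 +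
      64 * b4 * aX * aE * aT ^ 4 + 16 * b4 * aX * aH * aT ^ 2 - 48 * b4 * aX * aH * aT ^ 3 -
      64 * b4 * aX * aH * aT ^ 4 + 16 * b4 * aX ^ 2 * aE * aT ^ 2 -
      48 * b4 * aX ^ 2 * aE * aT ^ 3 - 64 * b4 * aX ^ 2 * aE * aT ^ 4) * r1 +
    (4 * aE * aT ^ 3 - 12 * aE * aT ^ 4 - 16 * aE * aT ^ 5) * r2, in_II _ _, ?_⟩
  · have m2 := ofNat_mem_WW 2
    have m3 := ofNat_mem_WW 3
    have m4 := ofNat_mem_WW 4
    have m5 := ofNat_mem_WW 5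
    have m8 := ofNat_mem_WW 8
    have m10 := ofNat_mem_WW 10
    have m12 := ofNat_mem_WW 12
    have m16 := ofNat_mem_WW 16
    have m22 := ofNat_mem_WW 22
    have m30 := ofNat_mem_WW 30
    have be : b4 * aE ∈ WW := WW.mul_mem b4_mem aE_mem
    have bh : b4 * aH ∈ WW := WW.mul_mem b4_mem aH_mem
    have he : aH * aE ^ 2 ∈ WW := WW.mul_mem aH_mem (WW.pow_mem aE_mem 2)
    have t2 := WW.pow_mem aT_mem 2
    have t3 := WW.pow_mem aT_mem 3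
    have t4 := WW.pow_mem aT_mem 4
    have t5 := WW.pow_mem aT_mem 5
    have e : -(2 * aE * aT ^ 2) - 8 * aE * aT ^ 3 - 10 * aE * aT ^ 4 - 4 * aE * aT ^ 5 -
      aH * aT ^ 3 - 3 * aH * aT ^ 4 - 2 * aH * aT ^ 5 - aH * aE ^ 2 * aT ^ 2 -
      2 * aH * aE ^ 2 * aT ^ 3 - 5 * b4 * aE - 22 * b4 * aE * aT - 30 * b4 * aE * aT ^ 2 -
      12 * b4 * aE * aT ^ 3 - b4 * aH * aT - 4 * b4 * aH * aT ^ 2 - 22 * b4 * aH * aT ^ 3 -
      16 * b4 * aH * aT ^ 4 =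
      -(2 * (aE * aT ^ 2)) - 8 * (aE * aT ^ 3) - 10 * (aE * aT ^ 4) - 4 * (aE * aT ^ 5) -
      aH * aT ^ 3 - 3 * (aH * aT ^ 4) - 2 * (aH * aT ^ 5) - (aH * aE ^ 2) * aT ^ 2 -
      2 * ((aH * aE ^ 2) * aT ^ 3) - 5 * (b4 * aE) - 22 * ((b4 * aE) * aT) -
      30 * ((b4 * aE) * aT ^ 2) - 12 * ((b4 * aE) * aT ^ 3) - (b4 * aH) * aT -
      4 * ((b4 * aH) * aT ^ 2) - 22 * ((b4 * aH) * aT ^ 3) - 16 * ((b4 * aH) * aT ^ 4) := by ring
    rw [e]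
    exact WW.sub_mem (WW.sub_mem (WW.sub_mem (WW.sub_mem (WW.sub_mem (WW.sub_mem (WW.sub_mem
      (WW.sub_mem (WW.sub_mem (WW.sub_mem (WW.sub_mem (WW.sub_mem (WW.sub_mem (WW.sub_mem
      (WW.sub_mem (WW.sub_mem (WW.neg_mem (WW.mul_mem m2 (WW.mul_mem aE_mem t2)))
      (WW.mul_mem m8 (WW.mul_mem aE_mem t3))) (WW.mul_mem m10 (WW.mul_mem aE_mem t4)))
      (WW.mul_mem m4 (WW.mul_mem aE_mem t5))) (WW.mul_mem aH_mem t3))
      (WW.mul_mem m3 (WW.mul_mem aH_mem t4))) (WW.mul_mem m2 (WW.mul_mem aH_mem t5)))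
      (WW.mul_mem he t2)) (WW.mul_mem m2 (WW.mul_mem he t3))) (WW.mul_mem m5 be))
      (WW.mul_mem m22 (WW.mul_mem be aT_mem))) (WW.mul_mem m30 (WW.mul_mem be t2)))
      (WW.mul_mem m12 (WW.mul_mem be t3))) (WW.mul_mem bh aT_mem))
      (WW.mul_mem m4 (WW.mul_mem bh t2))) (WW.mul_mem m22 (WW.mul_mem bh t3)))
      (WW.mul_mem m16 (WW.mul_mem bh t4))
  · unfold q3 q2 r1 r2
    simp only [map_add, map_sub, A_mul, A_pow, da_E, da_H, da_T, da_two]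
    unfold fX
    rw [aB_eq]
    push_cast
    ring

lemma Q4_step {n : ℕ} {y z : A} (h : Q4 (Mq aM (n + 1)) y) (h' : Q4 (da y) z) :
    Q4 (Mq aM (n + 2)) z := by
  rw [Mq_rec, aβ_eq]
  have e : ((n : A) + 1) ^ 2 * (4 * (b4 * (1 - 4 * aB)) * Mq aM n) =
      4 * (((n : A) + 1) ^ 2 * (b4 * (1 - 4 * aB) * Mq aM n)) := by ring
  rw [e]
  refine (h.da.trans h').add_four ?_
  exact WW.mul_mem (WW.pow_mem (WW.add_mem (nat_mem_WW n) WW.one_mem) 2)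
      (WW.mul_mem bb_mem (Mq_mem aM_mem n).1)

/-- the even terms modulo four -/
theorem Mq_even (n : ℕ) : Q4 (Mq aM (2 * n + 2)) q2 := by
  induction n with
  | zero =>
    have h0 : Q4 (Mq aM (0 + 1)) q1 := by
      rw [zero_add, Mq_one]
      exact st1
    exact Q4_step h0 st2
  | succ n ih =>
    have h1 : Q4 (Mq aM (2 * n + 1 + 2)) q3 := Q4_step (n := 2 * n + 1) ih st3
    have h2 : Q4 (Mq aM (2 * n + 2 + 2)) q2 := Q4_step (n := 2 * n + 2) h1 st4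
    have e : 2 * (n + 1) + 2 = 2 * n + 2 + 2 := by ring
    rw [e]
    exact h2

end Pool.Agent.N843
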