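import Pool.Agent.N843.Ind2
import Pool.Agent.R384.Alg

/-!
# The families of primes
-/

set_option autoImplicit false
set_option linter.unusedSectionVars false
set_option linter.unusedSimpArgs false

namespace Pool.Agent.N843

open H667R3 Pool.Agent.TH936.CW Pool.Agent.W192.HK Pool.Agent.Y690.NV Pool.Agent.TH936.PU
open Pool.Agent.Y698 (RR al al_sq al_ne bl bl_ne al_mul_bl LD tA tB aR aR_coe bR bR_coe cX cY co
  co_uniq al_im_pos Xx_per Tb v_two v_two_lt v_bl fin_quot aR_mul_bR two_coe nR cj mul_cj cj_coe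
  cXY_int cXY_of RR_ext aR_sq)
open Pool.Agent.Y698.SG (Pe sy sy_per sy_val sy_sgn tr tr_per tr_mul Mu hc hc_val hc_per
  sp_mem_iff prime_mem Rd lg lg_one lg_neg_one v_RR sgn_prod)
open Pool.Agent.R384 (OO om qs Sqm Pr em qs_zero Indec)

/-! ### the isomorphism -/

/-- the ring isomorphism as a homomorphism -/
noncomputable def pH : OO →+* RR := em aR_sq

lemma pH_apply (z : OO) : pH z = (z.re : RR) + (z.im : RR) * aR := rfl

lemma om_sq : om ^ 2 = om - 2 := by linear_combination -Pool.Agent.R384.om_mul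

lemma cXY_pH (z : OO) : cX (pH z) = z.re ∧ cY (pH z) = z.im := by
  apply cXY_of
  rw [pH_apply]
  push_cast
  rw [aR_coe]

lemma pH_om : pH om = aR := by
  rw [pH_apply]
  simp [om]

lemma pH_inj : Function.Injective pH := by
  intro x y h
  have h1 := cXY_pH x
  have h2 := cXY_pH y
  rw [h] at h1
  ext
  · rw [← h1.1, h2.1]
  · rw [← h1.2, h2.2]

lemma pH_surj : Function.Surjective pH := by
  intro r
  refine ⟨⟨cX r, cY r⟩, RR_ext ?_ ?_⟩
  · rw [(cXY_pH _).1]
  · rw [(cXY_pH _).2]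

/-- the ring isomorphism -/
noncomputable def pE : OO ≃+* RR := RingEquiv.ofBijective pH ⟨pH_inj, pH_surj⟩

lemma pE_apply (z : OO) : pE z = pH z := rfl

lemma pH_dvd {x y : OO} : pH x ∣ pH y ↔ x ∣ y := by
  rw [← pE_apply, ← pE_apply]
  exact map_dvd_iff pE

lemma pH_mem {x y : OO} : pH x ∈ sp (pH y) ↔ y ∣ x := by
  rw [Ideal.mem_span_singleton, pH_dvd]

lemma pH_pd {q : OO} (h : Pr q) : Pd (pH q) := by
  refine ⟨?_, ?_⟩
  · rw [← pE_apply]
    exact (MulEquiv.prime_iff pE).2 h.prime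
  · have h1 := map_dvd pH h.one
    rw [map_ofNat, map_sub, map_one] at h1
    exact h1

lemma sy_pH {q x : OO} (hx : ¬ q ∣ x) : sy (pH q) (pH x) = 1 ↔ Sqm q x := by
  have h0 : pH x ∉ sp (pH q) := fun h => hx (pH_mem.1 h)
  unfold sy
  rw [if_neg h0]
  have key : IsSquare (Ideal.Quotient.mk (sp (pH q)) (pH x)) ↔ Sqm q x := by
    constructor
    · rintro ⟨t, ht⟩
      obtain ⟨y, hy⟩ := pH_surj t.out
      refine ⟨y, ?_⟩
      rw [← pH_dvd, map_sub, map_pow, hy, ← Ideal.mem_span_singleton,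
        ← Ideal.Quotient.mk_eq_mk_iff_sub_mem, map_pow, Ideal.Quotient.mk_out, ht, pow_two]
    · rintro ⟨y, hy⟩
      refine ⟨Ideal.Quotient.mk _ (pH y), ?_⟩
      rw [← map_mul, Ideal.Quotient.mk_eq_mk_iff_sub_mem, Ideal.mem_span_singleton, ← map_mul,
        ← map_sub, pH_dvd, ← pow_two]
      exact hy
  rw [← key]
  split_ifs with h
  · simp [h]
  · simp only [h, iff_false]
    norm_num

lemma lg_pH {q x : OO} (hx : ¬ q ∣ x) : lg (sy (pH q) (pH x)) = qs q x := by
  have h1 := sy_pH hx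
  have h0 : pH x ∉ sp (pH q) := fun h => hx (pH_mem.1 h)
  rcases sy_sgn h0 with h | h
  · rw [h, lg_one]
    exact (qs_zero.2 (h1.1 h)).symm
  · have h2 : ¬ Sqm q x := fun h3 => by
      have := h1.2 h3
      rw [h] at this
      norm_num at this
    rw [h, lg_neg_one]
    have : qs q x ≠ 0 := fun h3 => h2 (qs_zero.1 h3)
    have h01 : ∀ a : ZMod 2, a ≠ 0 → a = 1 := by decide
    exact (h01 _ this).symm

section fam

variable {n : ℕ} {q : Fin n → OO} (hq : ∀ i, Pr (q i)) (hinj : Function.Injective q)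

/-- the primes in the ring -/
noncomputable def pq (q : Fin n → OO) (i : Fin n) : RR := pH (q i)

include hq hinj

lemma pq_fm (S : Finset (Fin n)) : Fm S (pq q) :=
  ⟨fun i _ => pH_pd (hq i), fun i _ j _ hij h =>
    Pool.Agent.R384.not_dvd (hq j) (hq i) (fun h1 => hij (hinj h1).symm) (pH_mem.1 h)⟩

lemma rr_pq {i j : Fin n} (hij : i ≠ j) : rr (pq q) i j = qs (q j) (q i) :=
  lg_pH (Pool.Agent.R384.not_dvd (hq j) (hq i) fun h1 => hij (hinj h1).symm)

lemma rr_symm (i j : Fin n) : rr (pq q) i j = rr (pq q) j i := by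
  by_cases hij : i = j
  · rw [hij]
  · rw [rr_pq hq hinj hij, rr_pq hq hinj (fun h => hij h.symm)]
    exact Pool.Agent.R384.recip (hq j) (hq i) fun h1 => hij (hinj h1).symm

omit hinj in
lemma kp_pq (i : Fin n) : kp (pq q i) = qs (q i) (1 - om) := by
  have h1 := (hq i).re
  have h2 := (hq i).im
  have h3 := Pool.Agent.R384.om_symb' (hq i)
  obtain ⟨c1, c2⟩ := cXY_pH (q i)
  have h01 : ∀ a b : ZMod 2, (a = 0 ↔ b = 0) → a = b := by decide
  apply h01
  rw [h3]
  unfold kp pq
  rw [c1, c2, ZMod.intCast_zmod_eq_zero_iff_dvd]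
  push_cast
  omega

lemma rr_sum {i : Fin n} {V : Finset (Fin n)} (hi : i ∉ V) :
    ∑ l ∈ V, rr (pq q) i l = qs (q i) (∏ k ∈ V, q k) := by
  have hne : ∀ l ∈ V, i ≠ l := fun l hl h => hi (h ▸ hl)
  rw [Pool.Agent.R384.qs_prod (hq i) V q fun l hl =>
    Pool.Agent.R384.not_dvd (hq i) (hq l) fun h1 => hne l hl (hinj h1)]
  refine Finset.sum_congr rfl fun l hl => ?_
  rw [rr_symm hq hinj, rr_pq hq hinj (hne l hl).symm]

/-- the conditions of the main theorem -/
theorem cond (h5 : (8 : OO) ∣ ∏ i, q i - 5) (hind : Indec q) :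
    cc (rr (pq q)) (fun i => kp (pq q i)) Finset.univ Finset.univ = 1 ∧
      ch (pq q) Finset.univ aR = -1 := by
  have h01 : ∀ a : ZMod 2, a ≠ 0 → a = 1 := by decide
  constructor
  · unfold cc
    have h1 : ∀ i ∈ (Finset.univ : Finset (Fin n)), kp (pq q i) * uu (rr (pq q)) i Finset.univ =
        qs (q i) (1 - om) := by
      intro i hi
      rw [kp_pq hq i, uu_one (rr (pq q)) hi (fun p _ l _ => rr_symm hq hinj p l), mul_one]
      intro V _ hVn hVS
      by_contra hcon
      push Not at hcon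
      obtain ⟨c1, c2⟩ := hcon
      have h3 := hind V (fun i hi => ?_) fun i hi => ?_
      · rcases h3 with h3 | h3
        · exact hVn.ne_empty h3
        · exact hVS h3
      · rw [← qs_zero, ← rr_sum hq hinj hi]
        by_contra h4
        exact c2 i (by simp [hi]) (h01 _ h4)
      · rw [← qs_zero, ← rr_sum hq hinj (by simp [hi])]
        by_contra h4
        refine c1 i hi ?_
        rw [← Finset.compl_eq_univ_sdiff]
        exact h01 _ h4
    rw [Finset.sum_congr rfl h1]
    exact Pool.Agent.R384.sum_one' q hq h5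
  · have hF := pq_fm hq hinj (Finset.univ : Finset (Fin n))
    have h1 := sgn_prod (s := (Finset.univ : Finset (Fin n))) (f := fun j => sy (pq q j) aR)
      fun j hj => sy_sgn (hF.pd j hj).aR
    have h2 : lg (ch (pq q) Finset.univ aR) = 1 := by
      unfold ch
      rw [h1.2, ← Pool.Agent.R384.sum_one q hq h5]
      refine Finset.sum_congr rfl fun i _ => ?_
      rw [← pH_om]
      exact lg_pH (Pool.Agent.R384.not_dvd_two_div (hq i) Pool.Agent.R384.om_mul)
    rcases h1.1 with h3 | h3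
    · exfalso
      unfold ch at h2
      rw [h3, lg_one] at h2
      exact zero_ne_one h2
    · exact h3

end fam

end Pool.Agent.N843
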