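import Pool.Agent.N843.Dist
import Pool.Agent.N843.Cong
import Pool.Agent.Y698.Tw

/-!
# The lattice of `ℤ[(1 + √-7)/2]` and its point of order four
-/

set_option autoImplicit false
set_option linter.unusedSectionVars false
set_option linter.unusedSimpArgs false

open Filter
open scoped Topology PeriodPair

namespace Pool.Agent.N843

open H667R3 Pool.Agent.TH936.CW Pool.Agent.W192.HK Pool.Agent.Y690.NV Pool.Agent.TH936.PU
open Pool.Agent.Y698 (RR al al_sq al_ne bl bl_ne al_mul_bl LD tA tB aR aR_coe bR bR_coe cX cY co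
  co_uniq al_im_pos Xx_per Tb)
open Pool.Agent.TH936.CM (IsLat)

variable {L : PeriodPair} {Ω p q : ℂ}

lemma bl_eq : bl = 1 - al := rfl

/-! ### the quasi-periods -/

lemma zeta_al (h : LD L Ω) : ∃ c₂ : ℂ, ∀ z, al * z ∉ L.lattice →
    al * zeta L (al * z) = zeta L z + zeta L (z - tA Ω) + ℘[L] (tA Ω) * z + c₂ := by
  have hL := h.lat
  have hmul : ∀ w ∈ L.lattice, al * w ∈ L.lattice := fun w hw => by
    have := hL.mul aR w hw
    rwa [aR_coe] at this
  set g : ℂ → ℂ := fun z => al * zeta L (al * z) - (zeta L z + zeta L (z - tA Ω)) -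
    ℘[L] (tA Ω) * z with hg
  have hnot : ∀ z, al * z ∉ L.lattice → z ∉ L.lattice ∧ z - tA Ω ∉ L.lattice := by
    intro z hz
    refine ⟨fun h1 => hz (hmul z h1), fun h1 => hz ?_⟩
    have h2 := hmul _ h1
    rw [mul_sub] at h2
    have h3 := add_mem h2 (Pool.Agent.Y698.tA_mem hL)
    rwa [sub_add_cancel] at h3
  have hder : ∀ z, z ∉ (Pool.Agent.W245.EB.scL L al al_ne).lattice → HasDerivAt g 0 z := by
    intro z hz
    have hz' : al * z ∉ L.lattice := fun h => hz (Pool.Agent.W245.EB.mem_scL.2 h)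
    obtain ⟨h1, h2⟩ := hnot z hz'
    have d1 : HasDerivAt (fun z => al * zeta L (al * z)) (al * (-℘[L] (al * z) * al)) z := by
      have h0 : HasDerivAt (fun x : ℂ => al * x) al z := by
        simpa using (hasDerivAt_id z).const_mul al
      exact ((hasDerivAt_zeta L hz').comp z h0).const_mul al
    have d2 : HasDerivAt (fun z => zeta L z + zeta L (z - tA Ω))
        (-℘[L] z + -℘[L] (z - tA Ω)) z :=
      (hasDerivAt_zeta L h1).add ((hasDerivAt_zeta L h2).comp_sub_const z _)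
    have d3 : HasDerivAt (fun z => ℘[L] (tA Ω) * z) (℘[L] (tA Ω)) z := by
      simpa using (hasDerivAt_id z).const_mul (℘[L] (tA Ω))
    refine ((d1.fun_sub d2).fun_sub d3).congr_deriv ?_
    have := Pool.Agent.Y698.mul_al hL hz'
    linear_combination -this
  obtain ⟨z₀, hz₀⟩ : ∃ z₀, z₀ ∉ (Pool.Agent.W245.EB.scL L al al_ne).lattice :=
    ⟨_, (Pool.Agent.W245.EB.scL L al al_ne).ω₁_div_two_notMem_lattice⟩
  refine ⟨g z₀, fun z hz => ?_⟩
  have h1 : g z = g z₀ :=
    (isOpen_compl (Pool.Agent.W245.EB.scL L al al_ne)).is_const_of_deriv_eq_zero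
      (isPreconnected_compl (Pool.Agent.W245.EB.scL L al al_ne))
      (fun x hx => (hder x hx).differentiableAt.differentiableWithinAt)
      (fun x hx => (hder x hx).deriv) (fun h => hz (Pool.Agent.W245.EB.mem_scL.1 h)) hz₀
  rw [← h1, hg]
  ring

lemma conj_al : (starRingEnd ℂ) al = bl := by
  apply Complex.ext
  · rw [Complex.conj_re, bl_eq, Complex.sub_re, Complex.one_re, Pool.Agent.Y698.al_re]
    norm_num
  · rw [Complex.conj_im, bl_eq, Complex.sub_im, Complex.one_im, zero_sub]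

theorem p_val (h : LD L Ω) (hpq : ∀ l ∈ L.lattice, eta L l = p * l + q * (starRingEnd ℂ) l) :
    p = 1 / 4 := by
  have hL := h.lat
  obtain ⟨c₂, hc₂⟩ := zeta_al h
  have hmul : ∀ w ∈ L.lattice, al * w ∈ L.lattice := fun w hw => by
    have := hL.mul aR w hw
    rwa [aR_coe] at this
  have h1 : ∀ l ∈ L.lattice, (p * al ^ 2 - 2 * p - ℘[L] (tA Ω)) * l +
      0 * (starRingEnd ℂ) l = 0 := by
    intro l hl
    obtain ⟨z, hz⟩ : ∃ z, al * z ∉ L.lattice := by
      refine ⟨al⁻¹ * (L.ω₁ / 2), ?_⟩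
      rw [mul_inv_cancel_left₀ al_ne]
      exact L.ω₁_div_two_notMem_lattice
    have hz0 : z ∉ L.lattice := fun h1 => hz (hmul z h1)
    have hzA : z - tA Ω ∉ L.lattice := fun h1 => hz (by
      have h2 := hmul _ h1
      rw [mul_sub] at h2
      have h3 := add_mem h2 (Pool.Agent.Y698.tA_mem hL)
      rwa [sub_add_cancel] at h3)
    have hz' : al * (z + l) ∉ L.lattice := by
      rw [mul_add]
      intro h
      exact hz ((add_mem_iff L (hmul l hl)).1 h)
    have e1 := hc₂ z hz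
    have e2 := hc₂ (z + l) hz'
    have e3 : z + l - tA Ω = z - tA Ω + l := by ring
    rw [mul_add, zeta_add_coe L hz (hmul l hl), hpq _ (hmul l hl), zeta_add_coe L hz0 hl, e3,
      zeta_add_coe L hzA hl, hpq l hl, map_mul, conj_al] at e2
    have e4 : al * (q * (bl * (starRingEnd ℂ) l)) = 2 * (q * (starRingEnd ℂ) l) := by
      linear_combination (q * (starRingEnd ℂ) l) * al_mul_bl
    linear_combination e2 - e1 - e4
  obtain ⟨h2, -⟩ := lin_zero L h1
  rw [h.ea] at h2
  have h3 : al - 4 ≠ 0 := by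
    intro h4
    have h5 := congrArg Complex.im h4
    have := al_im_pos
    simp at h5
    linarith
  have h6 : (al - 4) * (p - 1 / 4) = 0 := by
    linear_combination h2 - p * al_sq
  have h7 := (mul_eq_zero.1 h6).resolve_left h3
  linear_combination h7

/-! ### the point of order four -/

/-- the point -/
noncomputable def T0 (Ω : ℂ) : ℂ := Ω * ((-2 + al) / 4)

lemma quarter (hL : IsLat L RR Ω) {x y : ℤ} (h : Ω * ((x + y * al) / 4) ∈ L.lattice) :
    (4 : ℤ) ∣ x ∧ (4 : ℤ) ∣ y := by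
  obtain ⟨r, hr⟩ := (hL.mem _).1 h
  have h1 : ((x : ℂ) + y * al) / 4 = r := mul_left_cancel₀ hL.ne hr
  rw [co r] at h1
  have h2 : ((x : ℤ) : ℂ) + (y : ℤ) * al = ((4 * cX r : ℤ) : ℂ) + ((4 * cY r : ℤ) : ℂ) * al := by
    push_cast
    linear_combination 4 * h1
  obtain ⟨h3, h4⟩ := co_uniq h2
  exact ⟨⟨_, h3⟩, ⟨_, h4⟩⟩

lemma T0_two (hL : IsLat L RR Ω) : 2 * T0 Ω ∉ L.lattice := by
  intro h
  have h1 := quarter hL (x := -4) (y := 2) (by
    convert h using 1
    unfold T0
    push_cast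
    ring)
  omega

lemma T0_ne (hL : IsLat L RR Ω) : T0 Ω ∉ L.lattice := two_mul_notMem_of L (T0_two hL)

lemma T0_four (hL : IsLat L RR Ω) : 4 * T0 Ω ∈ L.lattice := by
  have h1 := hL.mem_mul (aR - 2)
  convert h1 using 1
  unfold T0
  have e2 : ((2 : RR) : ℂ) = 2 := Pool.Agent.Y698.two_coe
  push_cast
  rw [aR_coe, e2]
  ring

lemma T0_al : al * T0 Ω + T0 Ω = -Ω := by
  unfold T0
  linear_combination (Ω / 4) * al_sq

lemma T0_bl : bl * T0 Ω = tB Ω := by
  unfold tB
  have := bl_ne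
  field_simp
  unfold T0 bl
  linear_combination (Ω * (al - 3) / 4) * al_sq

lemma tB_eq : tB Ω = Ω * (2 * al / 4) := by
  unfold tB
  have := bl_ne
  field_simp
  linear_combination (-2 * Ω) * al_mul_bl

lemma T0_subB (hL : IsLat L RR Ω) : T0 Ω - tB Ω ∉ L.lattice := by
  intro h
  have h1 := quarter hL (x := -2) (y := -1) (by
    convert h using 1
    rw [tB_eq]
    unfold T0
    push_cast
    ring)
  omega

lemma T0_addB (hL : IsLat L RR Ω) : T0 Ω + tB Ω ∉ L.lattice := by
  intro h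
  have h1 := quarter hL (x := -2) (y := 3) (by
    convert h using 1
    rw [tB_eq]
    unfold T0
    push_cast
    ring)
  omega

lemma al_T0 (hL : IsLat L RR Ω) : al * T0 Ω ∉ L.lattice := by
  intro h
  have h1 := quarter hL (x := -2) (y := -1) (by
    convert h using 1
    unfold T0
    push_cast
    linear_combination (-Ω / 4) * al_sq)
  omega

lemma Xx_tB (h : LD L Ω) : Pool.Agent.Y698.Xx L (tB Ω) = -(2 + al) / 4 := by
  unfold Pool.Agent.Y698.Xx
  rw [h.eb]
  ring

theorem Xx_T0 (h : LD L Ω) : Pool.Agent.Y698.Xx L (T0 Ω) = al / 2 := by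
  have hL := h.lat
  obtain ⟨h1, h2⟩ := h.mul_al (al_T0 hL)
  have h3 : Pool.Agent.Y698.Xx L (al * T0 Ω) = Pool.Agent.Y698.Xx L (T0 Ω) := by
    have e : al * T0 Ω = -T0 Ω + -Ω := by linear_combination T0_al (Ω := Ω)
    have h4 : -T0 Ω + -Ω - -T0 Ω ∈ L.lattice := by
      have h5 := hL.mem_mul (-1)
      convert h5 using 1
      push_cast
      ring
    rw [e, Xx_per h4, Pool.Agent.Y698.Xx_neg]
  rw [h3] at h1
  have h5 : Pool.Agent.Y698.Xx L (T0 Ω) - Pool.Agent.Y698.Xx L (tB Ω) ≠ 0 := by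
    unfold Pool.Agent.Y698.Xx
    rw [add_sub_add_right_eq_sub, sub_ne_zero, Ne, wp_eq_iff L (T0_ne hL)
      (Pool.Agent.Y698.tB_notMem hL)]
    rintro (h6 | h6)
    · exact T0_addB hL h6
    · exact T0_subB hL h6
  rw [Xx_tB h] at h5
  have h6 : al - 3 ≠ 0 := by
    intro h4
    have h5 := congrArg Complex.im h4
    have := al_im_pos
    simp at h5
    linarith
  have h7 : (al - 3) * ((Pool.Agent.Y698.Xx L (T0 Ω) - al / 2) *
      (Pool.Agent.Y698.Xx L (T0 Ω) - -(2 + al) / 4)) = 0 := by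
    unfold bl at h1
    linear_combination h1 + (Pool.Agent.Y698.Xx L (T0 Ω) * (-1 / 4) -
      Pool.Agent.Y698.Xx L (T0 Ω) ^ 2 - (al + (0 : ℂ)) / 8) * al_sq
  have h8 := (mul_eq_zero.1 ((mul_eq_zero.1 h7).resolve_left h6)).resolve_right h5
  linear_combination h8

end Pool.Agent.N843
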