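import Pool.Agent.N843.Lt

/-!
# The lattice of `ℤ[(1 + √-7)/2]`: the scaling and the integrality of the coordinates
-/

set_option autoImplicit false
set_option linter.unusedSectionVars false
set_option linter.unusedSimpArgs false

open Filter
open scoped Topology PeriodPair

namespace Pool.Agent.N843

open H667R3 Pool.Agent.TH936.CW Pool.Agent.W192.HK Pool.Agent.Y690.NV Pool.Agent.TH936.PU
open Pool.Agent.Y698 (RR al al_sq al_ne bl bl_ne al_mul_bl LD tA tB aR aR_coe bR bR_coe cX cY co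
  co_uniq al_im_pos Xx_per Tb v_two v_two_lt v_bl)
open Pool.Agent.TH936.CM (IsLat)

variable {L : PeriodPair} {Ω p q : ℂ}

lemma E1p_dup {z : ℂ} (hz : 2 * z ∉ L.lattice) : E1 L p q (2 * z) = 2 * E1 L p q z +
    (6 * ℘[L] z ^ 2 - L.g₂ / 2) / (2 * ℘'[L] z) := by
  unfold E1 Xx
  rw [zeta_two L hz, map_mul]
  have : (starRingEnd ℂ) (2 : ℂ) = 2 := Complex.conj_ofNat 2
  rw [this]
  ring

lemma E1_half (hpq : ∀ l ∈ L.lattice, eta L l = p * l + q * (starRingEnd ℂ) l) {z : ℂ}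
    (hz : z ∉ L.lattice) (h2 : 2 * z ∈ L.lattice) : E1 L p q z = 0 := by
  have h1 : E1 L p q (-z) = E1 L p q z := by
    refine E1_per' hpq hz ?_
    have := neg_mem h2
    convert this using 1
    ring
  rw [E1p_neg] at h1
  linear_combination (-1 / 2 : ℂ) * h1

lemma wp_T0 (h : LD L Ω) : ℘[L] (T0 Ω) = al / 2 - 1 / 4 := by
  have := Xx_T0 h
  unfold Pool.Agent.Y698.Xx at this
  linear_combination this

lemma wp'_T0 (h : LD L Ω) : ℘'[L] (T0 Ω) ^ 2 = -7 * (3 * al + 2) / 4 := by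
  rw [h.ode (T0_ne h.lat), Xx_T0 h]
  linear_combination (al / 2 - 1 / 4) * al_sq

lemma al_lin {a b : ℝ} (h : (a : ℂ) * al + b = 0) : a = 0 := by
  have h1 := congrArg Complex.im h
  simp at h1
  rcases h1 with h1 | h1
  · exact h1
  · exact absurd h1 al_im_pos.ne'

lemma wp'_T0_ne (h : LD L Ω) : ℘'[L] (T0 Ω) ≠ 0 := by
  intro h0
  have h1 := wp'_T0 h
  rw [h0] at h1
  have h2 : ((3 : ℝ) : ℂ) * al + (2 : ℝ) = 0 := by
    push_cast
    linear_combination (4 / 7 : ℂ) * h1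
  have := al_lin h2
  norm_num at this

lemma E1_T0 (h : LD L Ω) (hpq : ∀ l ∈ L.lattice, eta L l = p * l + q * (starRingEnd ℂ) l) :
    E1 L p q (T0 Ω) * ℘'[L] (T0 Ω) = 7 / 4 := by
  have hL := h.lat
  have h1 := E1p_dup (p := p) (q := q) (T0_two hL)
  have h2 : E1 L p q (2 * T0 Ω) = 0 := E1_half hpq (T0_two hL) (by
    have := T0_four hL
    convert this using 1
    ring)
  rw [h2, wp_T0 h, h.g2] at h1
  have h3 := wp'_T0_ne h
  field_simp at h1
  linear_combination (-1 / 256 : ℂ) * h1 - (3 / 8 : ℂ) * al_sq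

/-- the scaling factor -/
noncomputable def cT (L : PeriodPair) (Ω : ℂ) : ℂ := 2 / 7 * ℘'[L] (T0 Ω)
/-- the parameter -/
noncomputable def BT : ℂ := (2 - 3 * al) / 4

lemma BT_eq : BT = al ^ 4 / 4 := by
  unfold BT
  linear_combination (-(al ^ 2 + al - 1) / 4) * al_sq

lemma BT_ne : BT ≠ 0 := by
  rw [BT_eq]
  exact div_ne_zero (pow_ne_zero _ al_ne) (by norm_num)

lemma cT_sq (h : LD L Ω) : cT L Ω ^ 2 = -(3 * al + 2) / 7 := by
  unfold cT
  linear_combination (4 / 49 : ℂ) * wp'_T0 h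

theorem tq (h : LD L Ω) (hpq : ∀ l ∈ L.lattice, eta L l = p * l + q * (starRingEnd ℂ) l) :
    TQ L p q (cT L Ω) BT 1 (T0 Ω) := by
  have hL := h.lat
  have hc := cT_sq h
  have hp := wp'_T0 h
  have hB : BT = (2 - 3 * al) / 4 := rfl
  refine ⟨T0_two hL, T0_four hL, mul_ne_zero (by norm_num) (wp'_T0_ne h), BT_ne, ?_, ?_, ?_, ?_⟩
  · rw [hc, wp_T0 h, hB]
    linear_combination (-3 / 14 : ℂ) * al_sq
  · have e : cT L Ω ^ 3 * ℘'[L] (T0 Ω) = cT L Ω ^ 2 * (2 / 7 * ℘'[L] (T0 Ω) ^ 2) := by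
      unfold cT
      ring
    rw [e, hc, hp, hB]
    linear_combination (9 / 14 : ℂ) * al_sq
  · unfold cT
    linear_combination (2 / 7 : ℂ) * E1_T0 h hpq
  · have e : cT L Ω ^ 4 = (cT L Ω ^ 2) ^ 2 := by ring
    rw [e, hc, h.g2, hB]
    linear_combination (6 / 7 : ℂ) * al_sq

/-- the total change of gauge -/
lemma psi_eq (h : LD L Ω) (hp : p = 1 / 4) : ψt p (cT L Ω) BT = 4 * (1 - 2 * al) / 7 := by
  unfold ψt
  rw [cT_sq h, hp]
  unfold BT
  ring

/-! ### the valuations of the constants -/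

section val

variable {Γ : Type*} [LinearOrderedCommGroupWithZero Γ] {v : Valuation ℂ Γ}

lemma v_four (hv : v al < 1) : v 4 = v al ^ 2 := by
  have : (4 : ℂ) = 2 * 2 := by norm_num
  rw [this, map_mul, v_two hv, pow_two]

lemma v_odd (hv : v al < 1) {n : ℕ} (hn : Odd n) : v (n : ℂ) = 1 := by
  obtain ⟨k, rfl⟩ := hn
  push_cast
  rw [add_comm]
  refine v.map_one_add_of_lt ?_
  rw [map_mul]
  exact mul_lt_one_of_lt_of_le (v_two_lt hv) (v_nat k)

lemma v_seven (hv : v al < 1) : v 7 = 1 := by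
  have := v_odd hv (n := 7) (by decide)
  exact_mod_cast this

lemma v_al0 : v al ≠ 0 := (Valuation.ne_zero_iff v).2 al_ne

lemma v_one_sub (hv : v al < 1) : v (1 - 2 * al) = 1 := by
  rw [Valuation.map_sub_eq_of_lt_left v, map_one]
  rw [map_one, map_mul]
  exact mul_lt_one_of_lt_of_le (v_two_lt hv) hv.le

lemma v_BT (hv : v al < 1) : v BT = v 4 := by
  have h4 := v_four hv
  have h0 : v (4 : ℂ) ≠ 0 := by rw [h4]; exact pow_ne_zero _ v_al0
  rw [BT_eq, map_div₀, map_pow, div_eq_iff h0, h4, ← pow_add]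

lemma v_psi (h : LD L Ω) (hv : v al < 1) (hp : p = 1 / 4) : v (ψt p (cT L Ω) BT) = v 4 := by
  rw [psi_eq h hp, map_div₀, map_mul, v_seven hv, v_one_sub hv, mul_one, div_one]

lemma v_cT (h : LD L Ω) (hv : v al < 1) : v (cT L Ω) = v al := by
  have h1 : cT L Ω ^ 2 = -(al ^ 2 * (1 - 2 * al)) / 7 := by
    rw [cT_sq h]
    linear_combination ((1 - 2 * al) / 7 - 2 / 7 : ℂ) * al_sq
  have h2 := congrArg v h1
  rw [map_pow, map_div₀, Valuation.map_neg, map_mul, map_pow, v_seven hv, v_one_sub hv, mul_one,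
    div_one] at h2
  exact (pow_left_inj₀ zero_le zero_le two_ne_zero).1 h2

end val

end Pool.Agent.N843
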