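import Pool.Agent.N843.Lt2

/-!
# The points of odd order
-/

set_option autoImplicit false
set_option linter.unusedSectionVars false
set_option linter.unusedSimpArgs false

open Filter
open scoped Topology PeriodPair

namespace Pool.Agent.N843

open H667R3 Pool.Agent.TH936.CW Pool.Agent.W192.HK Pool.Agent.Y690.NV Pool.Agent.TH936.PU
open Pool.Agent.Y698 (RR al al_sq al_ne bl bl_ne al_mul_bl LD tA tB aR aR_coe bR bR_coe cX cY co
  co_uniq al_im_pos Xx_per Tb v_two v_two_lt v_bl fin_quot aR_mul_bR two_coe)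
open Pool.Agent.TH936.CM (IsLat)

variable {L : PeriodPair} {Ω p q : ℂ}

/-- points of odd order -/
def Od (L : PeriodPair) (z : ℂ) : Prop := ∃ N : ℕ, Odd N ∧ (N : ℂ) * z ∈ L.lattice

lemma Od.neg {z : ℂ} (h : Od L z) : Od L (-z) := by
  obtain ⟨N, h1, h2⟩ := h
  refine ⟨N, h1, ?_⟩
  rw [mul_neg]
  exact neg_mem h2

lemma Od.smul (hL : IsLat L RR Ω) {z : ℂ} (h : Od L z) (r : RR) : Od L (r * z) := by
  obtain ⟨N, h1, h2⟩ := h
  refine ⟨N, h1, ?_⟩
  have := hL.mul r _ h2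
  convert this using 1
  ring

lemma Od.of_mem {z : ℂ} (h : z ∈ L.lattice) : Od L z := ⟨1, odd_one, by rwa [Nat.cast_one, one_mul]⟩

lemma nat_mul_mem {z : ℂ} (h : z ∈ L.lattice) (n : ℕ) : (n : ℂ) * z ∈ L.lattice := by
  have := nsmul_mem h n
  rwa [nsmul_eq_mul] at this

lemma Od.add {z w : ℂ} (h : Od L z) (h' : Od L w) : Od L (z + w) := by
  obtain ⟨N, h1, h2⟩ := h
  obtain ⟨M, h3, h4⟩ := h'
  refine ⟨N * M, h1.mul h3, ?_⟩
  have := add_mem (nat_mul_mem h2 M) (nat_mul_mem h4 N)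
  convert this using 1
  push_cast
  ring

lemma Od.two {z : ℂ} (h : Od L z) (hz : z ∉ L.lattice) : 2 * z ∉ L.lattice := by
  obtain ⟨N, ⟨k, hk⟩, h2⟩ := h
  intro h3
  apply hz
  have := sub_mem h2 (nat_mul_mem h3 k)
  convert this using 1
  rw [hk]
  push_cast
  ring

lemma al_mem (hL : IsLat L RR Ω) {z : ℂ} (h : z ∈ L.lattice) : al * z ∈ L.lattice := by
  have := hL.mul aR z h
  rwa [aR_coe] at this

lemma bl_mem (hL : IsLat L RR Ω) {z : ℂ} (h : z ∈ L.lattice) : bl * z ∈ L.lattice := by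
  have := hL.mul bR z h
  rwa [bR_coe] at this

lemma Od.al (hL : IsLat L RR Ω) {z : ℂ} (h : Od L z) : Od L (al * z) := by
  have := h.smul hL aR
  rwa [aR_coe] at this

lemma Od.bl (hL : IsLat L RR Ω) {z : ℂ} (h : Od L z) : Od L (bl * z) := by
  have := h.smul hL bR
  rwa [bR_coe] at this

lemma Od.al_ne (hL : IsLat L RR Ω) {z : ℂ} (h : Od L z) (hz : z ∉ L.lattice) :
    Pool.Agent.Y698.al * z ∉ L.lattice := by
  intro h1
  apply h.two hz
  have := bl_mem hL h1
  rwa [← mul_assoc, mul_comm Pool.Agent.Y698.bl, al_mul_bl] at this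

lemma Od.bl_ne (hL : IsLat L RR Ω) {z : ℂ} (h : Od L z) (hz : z ∉ L.lattice) :
    Pool.Agent.Y698.bl * z ∉ L.lattice := by
  intro h1
  apply h.two hz
  have := al_mem hL h1
  rwa [← mul_assoc, al_mul_bl] at this

lemma Od.T_add (hL : IsLat L RR Ω) {z : ℂ} (h : Od L z) : T0 Ω + z ∉ L.lattice := by
  obtain ⟨N, ⟨k, hk⟩, h2⟩ := h
  intro h3
  apply T0_two hL
  have h4 := nat_mul_mem (sub_mem (nat_mul_mem h3 N) h2) 2
  have h5 := nat_mul_mem (T0_four hL) k
  have := sub_mem h4 h5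
  convert this using 1
  rw [hk]
  push_cast
  ring

lemma Od.T_sub (hL : IsLat L RR Ω) {z : ℂ} (h : Od L z) : T0 Ω - z ∉ L.lattice := by
  rw [sub_eq_add_neg]
  exact h.neg.T_add hL

lemma Od.B_add (hL : IsLat L RR Ω) {z : ℂ} (h : Od L z) : z + tB Ω ∉ L.lattice := by
  obtain ⟨N, ⟨k, hk⟩, h2⟩ := h
  intro h3
  apply Pool.Agent.Y698.tB_notMem hL
  have h4 := sub_mem (nat_mul_mem h3 N) h2
  have h5 := nat_mul_mem (Pool.Agent.Y698.two_tB hL) k
  have := sub_mem h4 h5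
  convert this using 1
  rw [hk]
  push_cast
  ring

lemma Od.B_sub (hL : IsLat L RR Ω) {z : ℂ} (h : Od L z) : z - tB Ω ∉ L.lattice := by
  intro h1
  apply h.neg.B_add hL
  have := neg_mem h1
  convert this using 1
  ring

section val

variable {Γ : Type*} [LinearOrderedCommGroupWithZero Γ] {v : Valuation ℂ Γ}

lemma nat_coe (N : ℕ) : ((N : RR) : ℂ) = N := by push_cast; rfl

lemma Od.tb (hv : v Pool.Agent.Y698.al < 1) {z : ℂ} (h : Od L z) (hz : z ∉ L.lattice) : Tb v L z := by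
  obtain ⟨N, h1, h2⟩ := h
  exact ⟨hz, N, by rw [nat_coe]; exact v_odd hv h1, by rw [nat_coe]; exact h2⟩

lemma tB_tb (hv : v Pool.Agent.Y698.al < 1) (hL : IsLat L RR Ω) : Tb v L (tB Ω) :=
  ⟨Pool.Agent.Y698.tB_notMem hL, bR, by rw [bR_coe]; exact v_bl hv, by
    rw [bR_coe]; exact Pool.Agent.Y698.tB_mem hL⟩

lemma T0_tb (hv : v Pool.Agent.Y698.al < 1) (hL : IsLat L RR Ω) : Tb v L (T0 Ω) := by
  refine ⟨T0_ne hL, bR * bR, ?_, ?_⟩
  · push_cast
    rw [bR_coe, map_mul, v_bl hv, one_mul]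
  · have := Pool.Agent.Y698.tB_mem hL
    rw [← T0_bl] at this
    push_cast
    rwa [bR_coe, mul_assoc]

end val

/-! ### the distribution relation for the second prime -/

lemma bR_res (r : RR) : r ∈ sp bR ∨ r - 1 ∈ sp bR := by
  have e : r = ((cX r : ℤ) : RR) + ((cY r : ℤ) : RR) * aR := by
    apply Subtype.ext
    push_cast
    rw [aR_coe]
    exact co r
  have e2 : bR = 1 - aR := rfl
  rcases Int.even_or_odd (cX r + cY r) with ⟨k, hk⟩ | ⟨k, hk⟩
  · left
    rw [Ideal.mem_span_singleton']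
    refine ⟨(k : RR) * aR - ((cY r : ℤ) : RR), ?_⟩
    have hk' : ((cX r : ℤ) : RR) + ((cY r : ℤ) : RR) = k + k := by
      exact_mod_cast congrArg (fun t : ℤ => (t : RR)) hk
    linear_combination (k : RR) * aR_mul_bR - e - hk' - ((cY r : ℤ) : RR) * e2
  · right
    rw [Ideal.mem_span_singleton']
    refine ⟨(k : RR) * aR - ((cY r : ℤ) : RR), ?_⟩
    have hk' : ((cX r : ℤ) : RR) + ((cY r : ℤ) : RR) = 2 * k + 1 := by
      exact_mod_cast congrArg (fun t : ℤ => (t : RR)) hk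
    linear_combination (k : RR) * aR_mul_bR - e - hk' - ((cY r : ℤ) : RR) * e2

lemma bR_one : (1 : RR) ∉ sp bR := Pool.Agent.Y698.not_dvd_one Pool.Agent.Y698.bR_nu

lemma bR_bij : Function.Bijective (fun i : Fin 2 => Ideal.Quotient.mk (sp bR) ((i : ℕ) : RR)) := by
  constructor
  · intro i j h
    have h1 := (Ideal.Quotient.mk_eq_mk_iff_sub_mem _ _).1 h
    fin_cases i <;> fin_cases j
    · rfl
    · exfalso
      simp only [Nat.cast_zero, Nat.cast_one, zero_sub] at h1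
      have := neg_mem h1
      rw [neg_neg] at this
      exact bR_one (by simpa using this)
    · exfalso
      exact bR_one (by simpa using h1)
    · rfl
  · intro x
    have h1 : Ideal.Quotient.mk (sp bR) x.out = x := Ideal.Quotient.mk_out x
    rcases bR_res x.out with h | h
    · refine ⟨0, ?_⟩
      rw [← h1]
      refine (Ideal.Quotient.mk_eq_mk_iff_sub_mem _ _).2 ?_
      have := neg_mem h
      convert this using 1
      simp
    · refine ⟨1, ?_⟩
      rw [← h1]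
      refine (Ideal.Quotient.mk_eq_mk_iff_sub_mem _ _).2 ?_
      have := neg_mem h
      convert this using 1
      simp

lemma ek_zero {z : ℂ} (hz : z ∉ L.lattice) : ek L p q 0 z = E1 L p q z := by
  have h := ekp_eq (p := p) (q := q) 0 hz
  rw [Nat.factorial_zero, Nat.cast_one, one_mul, Sg_zero, Dn_zero, evG_E] at h
  exact h

lemma bR_ne0 : bR ≠ 0 := fun h => bl_ne (by rw [← bR_coe, h]; rfl)

theorem E1_bl (hL : IsLat L RR Ω) (hpq : ∀ l ∈ L.lattice, eta L l = p * l + q * (starRingEnd ℂ) l)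
    {z : ℂ} (h : Od L z) (hz : z ∉ L.lattice) :
    E1 L p q z + E1 L p q (z + tB Ω) = bl * E1 L p q (bl * z) := by
  have f1 := fin_quot bR_ne0
  let _ : Fintype (RR ⧸ sp bR) := Fintype.ofFinite _
  obtain ⟨N, h1, h2⟩ := id h
  have hz' : (bR : ℂ) * z ∉ L.lattice := by
    rw [bR_coe]
    exact h.bl_ne hL hz
  have hd := ekp_dist (p := p) (q := q) hpq hL 0 bR bR_ne0 hz' h1.pos h2
  have hg : gm 0 (bR : ℂ) = bl := by
    rw [gm_eq, bR_coe]
    simp
  rw [hg, ek_zero hz', bR_coe] at hd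
  rw [← hd]
  have hbC : (bR : ℂ) ≠ 0 := by rw [bR_coe]; exact Pool.Agent.Y698.bl_ne
  have hs := sum_rep (I := sp bR) (fun i : Fin 2 => ((i : ℕ) : RR)) bR_bij
    (fun x : RR => ek L p q 0 (z + Ω * x / (bR : ℂ))) ?_
  · rw [bR_coe] at hs
    rw [hs, Fin.sum_univ_two]
    have e0 : z + Ω * (((((0 : Fin 2) : ℕ) : RR)) : ℂ) / bl = z := by
      simp
    have e1 : z + Ω * (((((1 : Fin 2) : ℕ) : RR)) : ℂ) / bl = z + tB Ω := by
      unfold tB
      simp
    rw [e0, e1, ek_zero hz, ek_zero (h.B_add hL)]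
  · intro x y hxy
    refine (ek_per hpq 0 ?_ ?_)
    · exact mu_mul hL bR bR_ne0 y hz'
    · have := (lat_dm_iff hL bR bR_ne0 (x - y)).2 hxy
      convert this using 1
      push_cast
      ring

theorem E1_bl' (h : LD L Ω) (hpq : ∀ l ∈ L.lattice, eta L l = p * l + q * (starRingEnd ℂ) l)
    {z : ℂ} (ho : Od L z) (hz : z ∉ L.lattice) :
    bl * (2 * E1 L p q (bl * z)) = 2 * (2 * E1 L p q z) +
      ℘'[L] z / (Pool.Agent.Y698.Xx L z - Pool.Agent.Y698.Xx L (tB Ω)) := by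
  have hL := h.lat
  have h1 := E1_bl hL hpq ho hz
  have hB := Pool.Agent.Y698.tB_notMem hL
  rw [E1_add hz hB (ho.B_add hL) (ho.B_sub hL), E1_half hpq hB (Pool.Agent.Y698.two_tB hL),
    Pool.Agent.Y698.dwp_half (Pool.Agent.Y698.two_tB hL)] at h1
  have e : Pool.Agent.Y698.Xx L z - Pool.Agent.Y698.Xx L (tB Ω) = ℘[L] z - ℘[L] (tB Ω) := by
    unfold Pool.Agent.Y698.Xx
    ring
  have h3 : ℘[L] z - ℘[L] (tB Ω) ≠ 0 := by
    rw [sub_ne_zero, Ne, wp_eq_iff L hz hB]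
    rintro (h6 | h6)
    · exact ho.B_add hL h6
    · exact ho.B_sub hL h6
  rw [e, mul_left_comm, ← h1]
  field_simp
  ring

section val

variable {Γ : Type*} [LinearOrderedCommGroupWithZero Γ] {v : Valuation ℂ Γ}

lemma exists_per (hL : IsLat L RR Ω) {z : ℂ} (ho : Od L z) :
    ∃ m : ℕ, 0 < m ∧ bl ^ m * z - z ∈ L.lattice := by
  obtain ⟨N, ⟨k, hk⟩, h2⟩ := ho
  have hN0 : ((N : ℕ) : RR) ≠ 0 := by
    intro h0
    have := congrArg (fun r : RR => (r : ℂ)) h0
    simp only [nat_coe] at this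
    have h3 : N = 0 := by exact_mod_cast this
    omega
  have f1 := fin_quot hN0
  have hu : IsUnit (Ideal.Quotient.mk (sp ((N : ℕ) : RR)) bR) := by
    refine IsUnit.of_mul_eq_one (Ideal.Quotient.mk _ (-(k : RR) * aR)) ?_
    rw [← map_mul, ← map_one (Ideal.Quotient.mk _), Ideal.Quotient.mk_eq_mk_iff_sub_mem,
      Ideal.mem_span_singleton']
    refine ⟨-1, ?_⟩
    have hk' : ((N : ℕ) : RR) = 2 * k + 1 := by exact_mod_cast congrArg (fun t : ℕ => (t : RR)) hk
    linear_combination (-1 : RR) * hk' + (k : RR) * aR_mul_bR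
  obtain ⟨u, hu⟩ := hu
  have f2 : Finite (RR ⧸ sp ((N : ℕ) : RR))ˣ := inferInstance
  have h3 : u ^ Nat.card (RR ⧸ sp ((N : ℕ) : RR))ˣ = 1 := pow_card_eq_one'
  refine ⟨Nat.card (RR ⧸ sp ((N : ℕ) : RR))ˣ, Nat.card_pos, ?_⟩
  have h4 := congrArg (fun w : (RR ⧸ sp ((N : ℕ) : RR))ˣ => (w : RR ⧸ sp ((N : ℕ) : RR))) h3
  simp only [Units.val_pow_eq_pow_val, Units.val_one] at h4
  rw [hu, ← map_pow, ← map_one (Ideal.Quotient.mk _), Ideal.Quotient.mk_eq_mk_iff_sub_mem,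
    Ideal.mem_span_singleton'] at h4
  obtain ⟨c, hc⟩ := h4
  have h5 := hL.mul c _ h2
  have h6 := congrArg (fun r : RR => (r : ℂ)) hc
  push_cast at h6
  rw [bR_coe] at h6
  convert h5 using 1
  linear_combination (-z) * h6

/-- `2 E₁` is integral at the points of odd order -/
theorem E1_int (h : LD L Ω) (hv : v al < 1)
    (hpq : ∀ l ∈ L.lattice, eta L l = p * l + q * (starRingEnd ℂ) l) {z : ℂ} (ho : Od L z)
    (hz : z ∉ L.lattice) : v (2 * E1 L p q z) ≤ 1 := by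
  have hL := h.lat
  have step : ∀ z : ℂ, Od L z → z ∉ L.lattice →
      v (2 * E1 L p q (bl * z)) ≤ max (v 2 * v (2 * E1 L p q z)) 1 := by
    intro z ho hz
    have h1 := E1_bl' h hpq ho hz
    have ht := ho.tb hv hz
    have d1 := (ht.deriv h hv (ho.two hz)).1
    have d2 := ht.diff h hv (tB_tb hv hL) (ho.B_add hL) (ho.B_sub hL)
    have h2 := congrArg v h1
    rw [map_mul, v_bl hv, one_mul] at h2
    rw [h2]
    refine (v.map_add _ _).trans (max_le_max ?_ ?_)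
    · rw [map_mul]
    · rw [map_div₀, d1, d2, div_one]
  by_contra hcon
  push Not at hcon
  set g := v (2 * E1 L p q z) with hg
  have hg0 : 0 < g := lt_trans zero_lt_one hcon
  have key : ∀ m : ℕ, Od L (bl ^ m * z) ∧ bl ^ m * z ∉ L.lattice ∧
      (0 < m → v (2 * E1 L p q (bl ^ m * z)) < g) := by
    intro m
    induction m with
    | zero =>
      rw [pow_zero, one_mul]
      exact ⟨ho, hz, fun h => absurd h (lt_irrefl _)⟩
    | succ m ih =>
      obtain ⟨i1, i2, i3⟩ := ih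
      have e : bl ^ (m + 1) * z = bl * (bl ^ m * z) := by ring
      rw [e]
      refine ⟨i1.bl hL, i1.bl_ne hL i2, fun _ => ?_⟩
      refine (step _ i1 i2).trans_lt (max_lt ?_ hcon)
      have h3 : v (2 * E1 L p q (bl ^ m * z)) ≤ g := by
        rcases Nat.eq_zero_or_pos m with rfl | hm
        · rw [pow_zero, one_mul]
        · exact (i3 hm).le
      calc v 2 * v (2 * E1 L p q (bl ^ m * z)) ≤ v 2 * g := mul_le_mul_right h3 _
        _ < 1 * g := mul_lt_mul_of_pos_right (v_two_lt hv) hg0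
        _ = g := one_mul _
  obtain ⟨m, hm, hper⟩ := exists_per hL ho
  obtain ⟨-, -, k3⟩ := key m
  have h4 := k3 hm
  rw [E1_per' hpq hz hper] at h4
  exact lt_irrefl _ h4

end val

end Pool.Agent.N843
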