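import Pool.Agent.N843.Lt3

/-!
# The distributions and their congruences
-/

set_option autoImplicit false
set_option linter.unusedSectionVars false
set_option linter.unusedSimpArgs false

open Filter
open scoped Topology PeriodPair

namespace Pool.Agent.N843

open H667R3 Pool.Agent.TH936.CW Pool.Agent.W192.HK Pool.Agent.Y690.NV Pool.Agent.TH936.PU
open Pool.Agent.Y698 (RR al al_sq al_ne bl bl_ne al_mul_bl LD tA tB aR aR_coe bR bR_coe cX cY co
  co_uniq al_im_pos Xx_per Tb v_two v_two_lt v_bl fin_quot aR_mul_bR two_coe)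
open Pool.Agent.TH936.CM (IsLat)

variable {L : PeriodPair} {Ω p q : ℂ}

/-- the even distributions -/
noncomputable def GQ (L : PeriodPair) (p q Ω : ℂ) (r : ℕ) (z : ℂ) : ℂ :=
  (r.factorial : ℂ) * (cT L Ω ^ (2 * r + 1) *
    (ek L p q r (T0 Ω + z) - ek L p q r (-T0 Ω + z)))

/-- the combination -/
noncomputable def GD (L : PeriodPair) (p q Ω z : ℂ) : ℂ :=
  GQ L p q Ω 0 z + bl⁻¹ * GQ L p q Ω 0 (al * z)

/-- the coordinate -/
noncomputable def tau (L : PeriodPair) (Ω z : ℂ) : ℂ := (xiQ L (cT L Ω) BT z - 1)⁻¹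

section basic

lemma Od.Tn_add (hL : IsLat L RR Ω) {z : ℂ} (h : Od L z) : -T0 Ω + z ∉ L.lattice := by
  intro h1
  apply h.T_sub hL
  have := neg_mem h1
  convert this using 1
  ring

lemma Od.congr {z w : ℂ} (h : Od L z) (hw : w - z ∈ L.lattice) : Od L w := by
  obtain ⟨N, h1, h2⟩ := h
  refine ⟨N, h1, ?_⟩
  have := add_mem h2 (nat_mul_mem hw N)
  convert this using 1
  ring

variable (hpq : ∀ l ∈ L.lattice, eta L l = p * l + q * (starRingEnd ℂ) l)
include hpq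

lemma GQ_per (hL : IsLat L RR Ω) (r : ℕ) {z w : ℂ} (hz : Od L z) (h : w - z ∈ L.lattice) :
    GQ L p q Ω r w = GQ L p q Ω r z := by
  unfold GQ
  rw [ek_per hpq r (hz.T_add hL) (show T0 Ω + w - (T0 Ω + z) ∈ L.lattice by
      convert h using 1; ring),
    ek_per hpq r (hz.Tn_add hL) (show -T0 Ω + w - (-T0 Ω + z) ∈ L.lattice by
      convert h using 1; ring)]

omit hpq in
lemma GQ_neg (hL : IsLat L RR Ω) (r : ℕ) {z : ℂ} (hz : Od L z) :
    GQ L p q Ω r (-z) = GQ L p q Ω r z := by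
  unfold GQ
  have e1 : T0 Ω + -z = -(-T0 Ω + z) := by ring
  have e2 : -T0 Ω + -z = -(T0 Ω + z) := by ring
  rw [e1, e2, ekp_neg r (hz.Tn_add hL), ekp_neg r (hz.T_add hL)]
  ring

lemma T0_four_mul (hL : IsLat L RR Ω) {c : RR} (hc : (4 : RR) ∣ c - 1) :
    (c : ℂ) * T0 Ω - T0 Ω ∈ L.lattice := by
  obtain ⟨k, hk⟩ := hc
  have h1 := hL.mul k _ (T0_four hL)
  convert h1 using 1
  have h2 := congrArg (fun r : RR => (r : ℂ)) hk
  push_cast at h2
  have h4 : ((4 : RR) : ℂ) = 4 := rfl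
  rw [h4] at h2
  linear_combination (T0 Ω) * h2

theorem GQ_dist (hL : IsLat L RR Ω) (r : ℕ) {c : RR} (hc0 : c ≠ 0) (hc : (4 : RR) ∣ c - 1)
    [Fintype (RR ⧸ sp c)] {z : ℂ} (hz : Od L z) :
    ∑ t : RR ⧸ sp c, GQ L p q Ω r (z + Ω * t.out / c) = gm r (c : ℂ) * GQ L p q Ω r (c * z) := by
  have hcz := hz.smul hL c
  obtain ⟨N, ⟨k, hk⟩, h2⟩ := id hz
  have hN : 0 < 4 * N := by omega
  have hT := T0_four_mul hpq hL hc
  have key : ∀ T : ℂ, 4 * T ∈ L.lattice → T + c * z ∉ L.lattice → (c : ℂ) * T - T ∈ L.lattice →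
      ∑ t : RR ⧸ sp c, ek L p q r (T + (z + Ω * t.out / c)) =
        gm r (c : ℂ) * ek L p q r (T + c * z) := by
    intro T h4 hn hcT
    have e1 : (c : ℂ) * (T + z) - (T + c * z) ∈ L.lattice := by
      convert hcT using 1
      ring
    have hn' : (c : ℂ) * (T + z) ∉ L.lattice := by
      intro h
      have := sub_mem h e1
      rw [sub_sub_cancel] at this
      exact hn this
    have h5 : ((4 * N : ℕ) : ℂ) * (T + z) ∈ L.lattice := by
      have := add_mem (nat_mul_mem h4 N) (nat_mul_mem h2 4)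
      convert this using 1
      push_cast
      ring
    have h6 := ekp_dist (p := p) (q := q) hpq hL r c hc0 hn' hN h5
    rw [ek_per hpq r hn e1] at h6
    rw [← h6]
    refine Finset.sum_congr rfl fun t _ => ?_
    rw [add_assoc]
  unfold GQ
  rw [← Finset.mul_sum, ← Finset.mul_sum, Finset.sum_sub_distrib, key (T0 Ω) (T0_four hL)
    (hcz.T_add hL) hT, key (-T0 Ω) (by
      have := neg_mem (T0_four hL)
      convert this using 1
      ring) (hcz.Tn_add hL) (by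
      have := neg_mem hT
      convert this using 1
      ring)]
  ring

end basic

section val

variable {Γ : Type*} [LinearOrderedCommGroupWithZero Γ] {v : Valuation ℂ Γ}

lemma cT_ne (h : LD L Ω) : cT L Ω ≠ 0 := mul_ne_zero (by norm_num) (wp'_T0_ne h)

lemma xi_sub (h : LD L Ω) (z : ℂ) : xiQ L (cT L Ω) BT z - 1 =
    cT L Ω ^ 2 * (Pool.Agent.Y698.Xx L z - Pool.Agent.Y698.Xx L (T0 Ω)) / BT := by
  unfold xiQ
  rw [Xx_T0 h]
  have hB := BT_ne
  have e : cT L Ω ^ 2 * (al / 2) = (1 + BT) / 3 + cT L Ω ^ 2 / 4 := by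
    rw [cT_sq h]
    unfold BT
    linear_combination (-3 / 14 : ℂ) * al_sq
  unfold Pool.Agent.Y698.Xx
  field_simp
  linear_combination (24 : ℂ) * e

lemma c2B (h : LD L Ω) : cT L Ω ^ 2 * (1 - 2 * al) = bl ^ 2 * BT := by
  rw [cT_sq h]
  unfold bl BT
  linear_combination (3 / 4 * al - 11 / 28) * al_sq

lemma xi_s (h : LD L Ω) (z : ℂ) : (xiQ L (cT L Ω) BT z - 1) * (1 - 2 * al) =
    bl * (bl * Pool.Agent.Y698.Xx L z - 1) := by
  rw [xi_sub h, Xx_T0 h]
  have hB := BT_ne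
  have h1 := c2B h
  have e : cT L Ω ^ 2 * (Pool.Agent.Y698.Xx L z - al / 2) / BT * (1 - 2 * al) =
      (cT L Ω ^ 2 * (1 - 2 * al)) * (Pool.Agent.Y698.Xx L z - al / 2) / BT := by ring
  rw [e, h1]
  field_simp
  linear_combination (-bl) * al_mul_bl

theorem v_xi (h : LD L Ω) (hv : v al < 1) {z : ℂ} (ho : Od L z) (hz : z ∉ L.lattice) :
    v (xiQ L (cT L Ω) BT z - 1) = 1 := by
  have hL := h.lat
  have h4 : v (4 : ℂ) ≠ 0 := by rw [v_four hv]; exact pow_ne_zero _ v_al0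
  have h1 := (ho.tb hv hz).diff h hv (T0_tb hv hL) (by rw [add_comm]; exact ho.T_add hL)
    (by
      intro h1
      apply ho.T_sub hL
      have := neg_mem h1
      rwa [neg_sub] at this)
  rw [xi_sub h, map_div₀, map_mul, map_pow, v_cT h hv, v_BT hv, ← v_four hv, h1, mul_one,
    div_self h4]

lemma v_tau (h : LD L Ω) (hv : v al < 1) {z : ℂ} (ho : Od L z) (hz : z ∉ L.lattice) :
    v (tau L Ω z) = 1 := by
  unfold tau
  rw [map_inv₀, v_xi h hv ho hz, inv_one]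

lemma v_et (h : LD L Ω) (hv : v al < 1) {z : ℂ} (ho : Od L z) (hz : z ∉ L.lattice) :
    v (etQ L (cT L Ω) BT z) = 1 := by
  have h0 : v al ≠ 0 := v_al0
  have h1 := ((ho.tb hv hz).deriv h hv (ho.two hz)).1
  unfold etQ
  rw [map_div₀, map_mul, map_pow, map_mul, v_cT h hv, h1, v_BT hv, v_four hv, v_two hv, mul_one,
    ← pow_succ', div_self (pow_ne_zero _ h0)]

lemma v_ep (h : LD L Ω) (hv : v al < 1)
    (hpq : ∀ l ∈ L.lattice, eta L l = p * l + q * (starRingEnd ℂ) l) {z : ℂ} (ho : Od L z)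
    (hz : z ∉ L.lattice) : v (epQ L p q (cT L Ω) z) ≤ 1 := by
  have h0 : v al ≠ 0 := v_al0
  have h1 := E1_int h hv hpq ho hz
  have e : epQ L p q (cT L Ω) z = cT L Ω / 2 * (2 * E1 L p q z) := by
    unfold epQ
    ring
  rw [e, map_mul, map_div₀, v_cT h hv, v_two hv, div_self h0, one_mul]
  exact h1

lemma GQ_eq (h : LD L Ω) (hpq : ∀ l ∈ L.lattice, eta L l = p * l + q * (starRingEnd ℂ) l) (r : ℕ)
    {z : ℂ} (ho : Od L z) (hz : z ∉ L.lattice) : GQ L p q Ω r z =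
    Sg (ψt p (cT L Ω) BT) (fun k => MvPolynomial.eval (ptQ BT (xiQ L (cT L Ω) BT z)
      (etQ L (cT L Ω) BT z) (epQ L p q (cT L Ω) z)) (Mq (1 + 2 * aT) k)) r :=
  val_diff (tq h hpq) hz (ho.T_add h.lat) (ho.T_sub h.lat) r

/-- the value of weight zero -/
theorem GQ_zero (h : LD L Ω) (hpq : ∀ l ∈ L.lattice, eta L l = p * l + q * (starRingEnd ℂ) l)
    {z : ℂ} (ho : Od L z) (hz : z ∉ L.lattice) : GQ L p q Ω 0 z = 1 + 2 * tau L Ω z := by
  rw [GQ_eq h hpq 0 ho hz, Sg_zero, Mq_zero]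
  unfold aT ptQ tau
  simp only [map_add, map_mul, map_one, map_ofNat, MvPolynomial.eval_X]
  simp only [Matrix.cons_val]

lemma GQ_lat (h : LD L Ω) (hpq : ∀ l ∈ L.lattice, eta L l = p * l + q * (starRingEnd ℂ) l) (r : ℕ)
    {z : ℂ} (hz : z ∈ L.lattice) : GQ L p q Ω r z =
    Sg (ψt p (cT L Ω) BT) (fun k => MvPolynomial.eval (ptQ BT 2 0 0) (Mq 1 k)) r := by
  have hL := h.lat
  rw [← val_T (tq h hpq) 2 0 0 r]
  unfold GQ
  have e1 : ek L p q r (T0 Ω + z) = ek L p q r (T0 Ω) := ek_per hpq r (T0_ne hL) (by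
    rwa [add_sub_cancel_left])
  have e2 : ek L p q r (-T0 Ω + z) = ek L p q r (-T0 Ω) := ek_per hpq r (fun h1 => T0_ne hL (by
    have := neg_mem h1
    rwa [neg_neg] at this)) (by
    rwa [add_sub_cancel_left])
  rw [e1, e2, ekp_neg r (T0_ne hL)]
  ring

theorem GQ_zero_lat (h : LD L Ω)
    (hpq : ∀ l ∈ L.lattice, eta L l = p * l + q * (starRingEnd ℂ) l) {z : ℂ}
    (hz : z ∈ L.lattice) : GQ L p q Ω 0 z = 1 := by
  rw [GQ_lat h hpq 0 hz, Sg_zero, Mq_zero, map_one]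

theorem GQ_lat_val (h : LD L Ω) (hv : v al < 1)
    (hpq : ∀ l ∈ L.lattice, eta L l = p * l + q * (starRingEnd ℂ) l) (r : ℕ) {z : ℂ}
    (hz : z ∈ L.lattice) : v (GQ L p q Ω (r + 1) z) = v 4 := by
  rw [GQ_lat h hpq (r + 1) hz]
  refine exact_T ?_ ?_ ?_ ?_ (v_BT hv) (v_psi h hv (p_val h hpq)) (v_two_lt hv) ?_ r
  · exact (v_two_lt hv).le
  · rw [map_zero]; exact zero_le_one
  · rw [map_zero]; exact zero_le_one
  · norm_num
  · rw [v_two hv]; exact v_al0

/-- the relation between the coordinates of `z` and `α z` -/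
lemma tau_key (h : LD L Ω) {z : ℂ} (hz : al * z ∉ L.lattice) :
    (al ^ 2 * Pool.Agent.Y698.Xx L z - bl) * ((1 - 2 * al) ^ 2 *
      ((xiQ L (cT L Ω) BT z - 1) ^ 2 - (xiQ L (cT L Ω) BT (al * z) - 1))) =
    bl * (al * (-2 * (1 + al) * Pool.Agent.Y698.Xx L z ^ 3 -
      2 * (1 + bl) * Pool.Agent.Y698.Xx L z ^ 2 + (7 - 2 * bl) * Pool.Agent.Y698.Xx L z +
      (3 * bl - 2))) := by
  obtain ⟨h3, -⟩ := h.mul_al hz
  have h1 := xi_s h z
  have h2 := xi_s h (al * z)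
  set X := Pool.Agent.Y698.Xx L z
  set X' := Pool.Agent.Y698.Xx L (al * z)
  set a := xiQ L (cT L Ω) BT z - 1
  set b := xiQ L (cT L Ω) BT (al * z) - 1
  have e1 : (al ^ 2 * X - bl) * ((1 - 2 * al) ^ 2 * (a ^ 2 - b)) =
      (al ^ 2 * X - bl) * ((a * (1 - 2 * al)) ^ 2 - (1 - 2 * al) * (b * (1 - 2 * al))) := by ring
  rw [e1, h1, h2]
  have e2 : (al ^ 2 * X - bl) * ((bl * (bl * X - 1)) ^ 2 - (1 - 2 * al) * (bl * (bl * X' - 1))) =
      bl * (bl * (bl * X - 1) ^ 2 * (al ^ 2 * X - bl) - (1 - 2 * al) *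
        (bl * (X' * (al ^ 2 * X - bl)) - (al ^ 2 * X - bl))) := by ring
  rw [e2, h3]
  congr 1
  have q : al ^ 2 = al - 2 := al_sq
  have q3 : al ^ 3 = -al - 2 := by linear_combination (al + 1) * q
  have q4 : al ^ 4 = -3 * al + 2 := by linear_combination (al ^ 2 + al - 1) * q
  have q5 : al ^ 5 = -al + 6 := by linear_combination (al ^ 3 + al ^ 2 - al - 3) * q
  unfold bl
  ring_nf
  rw [q5, q4, q3, q]
  ring

theorem tau_al (h : LD L Ω) (hv : v al < 1) {z : ℂ} (ho : Od L z) (hz : z ∉ L.lattice) :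
    v (tau L Ω (al * z) - tau L Ω z ^ 2) ≤ v al := by
  have hL := h.lat
  have hz' := ho.al_ne hL hz
  have k := tau_key h hz'
  have v1 := v_xi h hv ho hz
  have v2 := v_xi h hv (ho.al hL) hz'
  have hX := (ho.tb hv hz).int h hv
  set X := Pool.Agent.Y698.Xx L z
  set a := xiQ L (cT L Ω) BT z - 1 with ha
  set b := xiQ L (cT L Ω) BT (al * z) - 1 with hb
  have ha0 : a ≠ 0 := by
    rintro h0
    rw [h0, map_zero] at v1
    exact zero_ne_one v1
  have hb0 : b ≠ 0 := by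
    rintro h0
    rw [h0, map_zero] at v2
    exact zero_ne_one v2
  have vbl := v_bl hv
  have v3 : v (al ^ 2 * X - bl) = 1 := by
    rw [Valuation.map_sub_eq_of_lt_right v, vbl]
    rw [vbl, map_mul]
    exact mul_lt_one_of_lt_of_le (by rw [map_pow]; exact pow_lt_one₀ zero_le hv two_ne_zero) hX
  have v1' : v (1 : ℂ) ≤ 1 := by rw [map_one]
  have v2' : v (2 : ℂ) ≤ 1 := (v_two_lt hv).le
  have v3' : v (3 : ℂ) ≤ 1 := by
    have := v_nat (v := v) 3
    exact_mod_cast this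
  have k2 := congrArg v k
  rw [map_mul, v3, one_mul, map_mul, map_pow, v_one_sub hv, one_pow, one_mul, map_mul, vbl,
    one_mul, map_mul] at k2
  have k3 : v (a ^ 2 - b) ≤ v al := by
    rw [k2]
    refine mul_le_of_le_one_right' ?_
    refine v_add_le (v_add_le (v_sub_le ?_ ?_) ?_) ?_
    · refine v_mul_le (v_mul_le ?_ (v_add_le v1' hv.le)) (v_pow_le hX 3)
      rw [Valuation.map_neg]
      exact v2'
    · exact v_mul_le (v_mul_le v2' (v_add_le v1' vbl.le)) (v_pow_le hX 2)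
    · exact v_mul_le (v_sub_le (v_seven hv).le (v_mul_le v2' vbl.le)) hX
    · exact v_sub_le (v_mul_le v3' vbl.le) v2'
  have e : tau L Ω (al * z) - tau L Ω z ^ 2 = (a ^ 2 - b) / (b * a ^ 2) := by
    unfold tau
    rw [← ha, ← hb]
    field_simp
  rw [e, map_div₀, map_mul, map_pow, v1, v2, one_pow, mul_one, div_one]
  exact k3

lemma v_one_bl (hv : v al < 1) : v (1 + bl⁻¹) = v 4 := by
  have e : 1 + bl⁻¹ = -(al ^ 2) / bl := by
    have := bl_ne
    field_simp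
    unfold bl
    linear_combination al_sq
  rw [e, map_div₀, Valuation.map_neg, map_pow, v_bl hv, div_one, v_four hv]

/-- the congruence between the distributions -/
theorem GQ_cong (h : LD L Ω) (hv : v al < 1)
    (hpq : ∀ l ∈ L.lattice, eta L l = p * l + q * (starRingEnd ℂ) l) (r : ℕ) {z : ℂ}
    (ho : Od L z) : v (GQ L p q Ω (r + 1) z - GD L p q Ω z) ≤ v 4 := by
  have hL := h.lat
  by_cases hz : z ∈ L.lattice
  · unfold GD
    rw [GQ_zero_lat h hpq hz, GQ_zero_lat h hpq (al_mem hL hz), mul_one]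
    exact v_sub_le (GQ_lat_val h hv hpq r hz).le (v_one_bl hv).le
  have hz' := ho.al_ne hL hz
  have v1 := v_xi h hv ho hz
  have c1 : v (xiQ L (cT L Ω) BT z) ≤ 1 := by
    have e : xiQ L (cT L Ω) BT z = (xiQ L (cT L Ω) BT z - 1) + 1 := by ring
    rw [e]
    exact v_add_le v1.le (by rw [map_one])
  have c4 := v_tau h hv ho hz
  have k1 := cong_Q (v_BT hv).le c1 (v_et h hv ho hz).le (v_ep h hv hpq ho hz) c4.le
    (v_psi h hv (p_val h hpq)).le r
  rw [← GQ_eq h hpq (r + 1) ho hz] at k1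
  have k2 := tau_al h hv ho hz
  have hx0 : xiQ L (cT L Ω) BT z - 1 ≠ 0 := by
    rintro h0
    rw [h0, map_zero] at v1
    exact zero_ne_one v1
  have e1 : ((xiQ L (cT L Ω) BT z - 1)⁻¹) ^ 2 * xiQ L (cT L Ω) BT z =
      tau L Ω z ^ 2 + tau L Ω z := by
    unfold tau
    field_simp
    ring
  rw [e1] at k1
  have hb := bl_ne
  have vbl := v_bl hv
  have e2 : GQ L p q Ω (r + 1) z - GD L p q Ω z =
      (GQ L p q Ω (r + 1) z - 2 * (tau L Ω z ^ 2 + tau L Ω z)) - (1 + bl⁻¹) -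
      2 * (tau L Ω (al * z) - tau L Ω z ^ 2) - (2 * al) * (tau L Ω (al * z) * bl⁻¹) := by
    unfold GD
    rw [GQ_zero h hpq ho hz, GQ_zero h hpq (ho.al hL) hz']
    have e3 : al = 1 - bl := by unfold bl; ring
    have e4 : (2 * al) * (tau L Ω (al * z) * bl⁻¹) =
        2 * tau L Ω (al * z) * bl⁻¹ - 2 * tau L Ω (al * z) := by
      rw [show (2 * al : ℂ) = 2 * (1 - bl) by rw [← e3]]
      field_simp
    rw [e4]
    ring
  rw [e2]
  have f4 : v (4 : ℂ) = v 2 * v al := by rw [v_four hv, v_two hv, pow_two]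
  refine v_sub_le (v_sub_le (v_sub_le k1 (v_one_bl hv).le) ?_) ?_
  · rw [map_mul, f4]
    exact mul_le_mul_right k2 _
  · rw [map_mul, map_mul v 2 al, f4, map_mul, map_inv₀, vbl,
      v_tau h hv (ho.al hL) hz', inv_one, mul_one, mul_one]

end val

end Pool.Agent.N843
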