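import Pool.Agent.R384.End
import Pool.Agent.R384.Inf
import Pool.Agent.N843.Eul

/-!
# The characters are not trivial
-/

set_option autoImplicit false
set_option linter.unusedSectionVars false
set_option linter.unusedSimpArgs false
set_option linter.unusedVariables false

namespace Pool.Agent.N843

open Pool.Agent.R384
open Pool.Agent.Y676.IS
open Pool.Agent.Y715.Red Pool.Agent.Y715.Nr Pool.Agent.W237.RK
open Pool.Agent.Y715.Gi (QB KK GK i₀_mem gk_fix)
open Pool.Agent.Y715.Df (Cmp exists_cmp)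
open Pool.Agent.Y715.Lc (norm_two_odd)

variable {i₀ : QB} (hi : i₀ ^ 2 = i₀ - 2)

variable {κ κ' : GK i₀ →* ℤ_[2]ˣ} {D : OO} {r I : QB}

/-- the characters are not trivial -/
theorem nontriv {n : ℕ} {q : Fin n → OO} (hq : ∀ i, Pr (q i)) (hinj : Function.Injective q)
    (hD : D = ∏ i, q i ∨ D = -∏ i, q i) (kd : KD hi κ κ' D r I) (i : Fin n) (j : ℤ) :
    κ ^ j * κ' ^ (1 - j) ≠ 1 := by
  classical
  obtain ⟨m, s, hm, cd⟩ := chiD hi kd j
  have hm' : m = ∏ i, q i ∨ m = -∏ i, q i := by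
    rcases hm with rfl | rfl
    · exact hD
    · rcases hD with h | h
      · right; rw [h]
      · left; rw [h, neg_neg]
  obtain ⟨m1, hm1, hm1'⟩ : ∃ m1, m = q i * m1 ∧ ¬ q i ∣ m1 := by
    have h1 := Finset.mul_prod_erase Finset.univ q (Finset.mem_univ i)
    have h2 := nd_prod hq hinj (Finset.notMem_erase i Finset.univ)
    rcases hm' with h | h
    · exact ⟨_, by rw [h, ← h1], h2⟩
    · refine ⟨-∏ k ∈ Finset.univ.erase i, q k, by rw [h, ← h1]; ring, ?_⟩
      rwa [dvd_neg]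
  obtain ⟨l, hl, ι, hι⟩ := exists_emb hi (hq i).prime
  rw [ι_em] at hι
  have hl2 : l ≠ 2 := fun h => (hq i).two ((two_of_dvd (hq i).prime (iw hi ι) hι).1 h)
  obtain ⟨σ₀, h0, h2⟩ := exists_ram hi cd (hq i).prime hm1 hm1' hι
  obtain ⟨τ, hτ, hin⟩ := h0
  have h3 := (cd.inert l ι τ σ₀ hl2 hτ hin).2 h2
  intro h
  rw [h, MonoidHom.one_apply] at h3
  have h4 : ((1 : ℤ_[2]ˣ) : ℤ_[2]) = ((-1 : ℤ_[2]ˣ) : ℤ_[2]) := congrArg Units.val h3
  rw [Units.val_neg, Units.val_one] at h4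
  have h5 : (2 : ℤ_[2]) = 0 := by linear_combination h4
  exact two_ne_zero h5

end Pool.Agent.N843
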