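import Pool.Agent.N843.Hk
import Pool.Agent.Y690.X.Main

/-!
# The central values
-/

set_option autoImplicit false
set_option linter.unusedSectionVars false
set_option linter.unusedSimpArgs false
set_option linter.unusedVariables false

open Filter
open scoped Topology PeriodPair

namespace Pool.Agent.N843

open H667R3 Pool.Agent.TH936.CW Pool.Agent.W192.HK Pool.Agent.Y690.NV Pool.Agent.TH936.PU
open Pool.Agent.Y698 (RR al al_sq al_ne bl bl_ne al_mul_bl LD tA tB aR aR_coe bR bR_coe cX cY co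
  co_uniq al_im_pos Xx_per Tb v_two v_two_lt v_bl fin_quot aR_mul_bR two_coe nR cj mul_cj cj_coe
  cXY_int cXY_of RR_ext aR_sq ev ev_apply ev_aR isUnit_iff exists_gen)
open Pool.Agent.Y698.SG (Pe sy sy_per sy_val sy_sgn tr tr_per tr_mul Mu hc hc_val hc_per
  sp_mem_iff prime_mem Rd lg lg_one v_RR sgn_prod)
open Pool.Agent.TH936.CM (IsLat)
open Pool.Agent.W192.CM (nu)

variable {L : PeriodPair} {Ω p q : ℂ}

lemma T0_div : T0 Ω = Ω / (bl * bl) := by
  have h1 := T0_bl (Ω := Ω)
  unfold tB at h1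
  have := bl_ne
  field_simp at h1 ⊢
  linear_combination h1

/-- the sum over the residues modulo the square -/
lemma sum_sg (g : RR → ℂ) (hg : Pe (bR * bR) (fun x => sg x * g x))
    [Fintype (RR ⧸ sp (bR * bR))] :
    ∑ u : RR ⧸ sp (bR * bR), sg u.out * g u.out = g 1 - g (-1) := by
  classical
  set m : RR → RR ⧸ sp (bR * bR) := fun x => Ideal.Quotient.mk _ x with hm
  have hmo : ∀ x : RR, sg (m x).out * g (m x).out = sg x * g x := by
    intro x
    refine hg _ _ ?_
    have := neg_mem (out_mk (sp (bR * bR)) x)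
    rwa [neg_sub] at this
  have hne : m 1 ≠ m (-1) := by
    intro h
    rw [hm] at h
    simp only at h
    rw [Ideal.Quotient.mk_eq_mk_iff_sub_mem, ← r4b_zero] at h
    rw [map_sub, map_neg, map_one] at h
    revert h
    decide
  rw [Fintype.sum_eq_add (m 1) (m (-1)) hne, hmo, hmo, sg_neg, sg_one]
  · ring
  · rintro c ⟨h1, h2⟩
    have h3 : ∀ t : ZMod 4, t ≠ 1 → t ≠ -1 → ZMod.χ₄ t = 0 := by decide
    have h4 : sg c.out = 0 := by
      unfold sg
      rw [h3 (r4b c.out), Int.cast_zero]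
      · intro h5
        apply h1
        rw [← Ideal.Quotient.mk_out c, hm]
        show _ = Ideal.Quotient.mk _ 1
        rw [Ideal.Quotient.mk_eq_mk_iff_sub_mem, ← r4b_zero, map_sub, h5, map_one, sub_self]
      · intro h5
        apply h2
        rw [← Ideal.Quotient.mk_out c, hm]
        show _ = Ideal.Quotient.mk _ (-1)
        rw [Ideal.Quotient.mk_eq_mk_iff_sub_mem, ← r4b_zero, map_sub, h5, map_neg, map_one,
          sub_self]
    rw [h4, zero_mul]

variable {ι : Type} [DecidableEq ι] {π : ι → RR} {S : Finset ι}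

/-- the nonvanishing of the central value follows from that of the finite sum -/
theorem nonvan7 (hbasic : H_BASIC) (hfp : H_FP) (hcnt : H_CNT) (hdec : H_DEC) (hafe : H_AFE)
    (h : LD L Ω) (hpq : ∀ l ∈ L.lattice, eta L l = p * l + q * (starRingEnd ℂ) l)
    (hS : Fm S π) (e : ℕ) (hne : bb Ω (GQ L p q Ω e) π S ≠ 0) :
    ∃ F : ℂ → ℂ, Differentiable ℂ F ∧
      (∀ z : ℂ, ((e + 1 : ℕ) : ℝ) + 1 / 2 < z.re →
        HasSum (fun J : Ideal RR => tw (xs π S) (2 * e + 1) J * (nm J : ℂ) ^ (-z)) (F z)) ∧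
      F ((e + 1 : ℕ) : ℂ) ≠ 0 := by
  classical
  have hL := h.lat
  have hx := xs_cx hS
  have hθ := hx.hc e
  set θ := tw (xs π S) (2 * e + 1) with hθd
  set μ : RR := ms π S with hμdef
  have hμ : μ ≠ 0 := ms_ne hS
  have hμC := Pool.Agent.TH936.PU.coe_ne hμ
  have hQR := Pool.Agent.Y698.qr
  obtain ⟨b1, b2, b3, b4, b5, b6, b7, -, -⟩ := hbasic RR al hQR
  have f1 := fin_quot hμ
  let _ : Fintype (RR ⧸ sp μ) := Fintype.ofFinite _
  obtain ⟨T, hSys⟩ : ∃ T : Finset RR, Sys (sp μ) {⊤} ⊤ μ T := by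
    refine ⟨Finset.univ.image (fun x : RR ⧸ sp μ => x.out), ?_⟩
    refine ⟨⟨?_, ?_⟩, ?_, ?_, ?_, ?_, ?_, ⟨?_, ?_⟩⟩
    · intro b hb
      rw [Finset.mem_singleton] at hb
      rw [hb]
      exact top_ne_bot
    · intro J hJ
      refine ⟨⊤, ⟨Finset.mem_singleton_self _, ?_⟩, ?_⟩
      · obtain ⟨α, hα⟩ := (IsPrincipalIdealRing.principal J).principal
        exact ⟨α, by rw [Ideal.mul_top]; exact hα⟩
      · rintro b ⟨hb, -⟩
        exact Finset.mem_singleton.mp hb
    · intro b hb
      rw [Finset.mem_singleton] at hb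
      rw [hb, ← Ideal.one_eq_top]
      exact isCoprime_one_left
    · intro b hb
      rw [Finset.mem_singleton] at hb
      rw [hb]
    · exact top_ne_bot
    · rw [← Ideal.one_eq_top]
      exact isCoprime_one_left
    · rw [Ideal.mul_top]
    · intro x _
      exact Submodule.mem_top
    · intro α
      refine ⟨(Ideal.Quotient.mk (sp μ) α).out,
        ⟨Finset.mem_image_of_mem _ (Finset.mem_univ _), ?_⟩, ?_⟩
      · exact out_mk (sp μ) α
      · rintro y ⟨hy, hy2⟩
        obtain ⟨x, -, rfl⟩ := Finset.mem_image.mp hy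
        have h1 : Ideal.Quotient.mk (sp μ) α = x := by
          rw [← Ideal.Quotient.mk_eq_mk_iff_sub_mem, Ideal.Quotient.mk_out] at hy2
          exact hy2
        rw [h1]
  obtain ⟨F, hF1, hF2, hF3⟩ := lim_LK hbasic hfp hcnt hdec hafe hQR hθ hSys
  refine ⟨F, hF1, hF2, fun hF0 => hne ?_⟩
  have hθ1 : θ ⊤ = 1 := by
    have h1 := hθ.princ 1 one_ne_zero (by rw [sub_self]; exact (sp _).zero_mem)
    have h2 : sp (1 : RR) = ⊤ := Ideal.span_singleton_one
    rw [h2] at h1
    rw [h1]
    have h3 : ((1 : RR) : ℂ) = 1 := rfl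
    rw [h3, one_pow]
  have hnm : nm (⊤ : Ideal RR) = 1 := (b7 ⊤).mpr rfl
  rw [hF0, map_zero, mul_zero] at hF3
  have hlim : Tendsto (fun δ : ℝ => SK e (ck e θ ⊤) δ) (𝓝[>] 0) (𝓝 0) := by
    refine hF3.congr fun δ => ?_
    rw [Finset.sum_singleton, hθ1, hnm]
    simp
  set c : RR → ℂ := ck e θ ⊤ with hc
  have hx0 : xs π S 0 = 0 := by
    have := hx.neg 0
    rw [neg_zero] at this
    linear_combination (1 / 2 : ℂ) * this
  have hcv : ∀ r : RR, c r = xs π S r := by
    intro r
    rw [hc]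
    unfold ck fp
    rw [if_pos Submodule.mem_top, hθd, hx.tw_sp, mul_pow, hx.pow_odd]
    by_cases hr : r = 0
    · rw [hr, hx0]
      simp
    · rw [mul_div_cancel_right₀ _ (pow_ne_zero _ (Pool.Agent.TH936.PU.coe_ne hr))]
      by_cases hcop : IsCoprime r μ
      · rcases hx.sgn r hcop with h1 | h1 <;> rw [h1] <;> simp
      · rw [(hx.zero r).2 hcop, map_zero]
  have hcper : ∀ a b : RR, a - b ∈ sp μ → c a = c b := by
    intro a b h
    rw [hcv, hcv, hx.per a b h]
  have hc0 : ∀ a ∈ sp μ, c a = 0 := by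
    intro a ha
    rw [hcv, ← hx0]
    exact hx.per _ _ (by rwa [sub_zero])
  have hc1 : ∀ a : RR, ‖c a‖ ≤ 1 := by
    intro a
    rw [hcv]
    by_cases hcop : IsCoprime a μ
    · rcases hx.sgn a hcop with h1 | h1 <;> rw [h1] <;> simp
    · rw [(hx.zero a).2 hcop, norm_zero]
      exact zero_le_one
  have hval := valuep hpq hbasic hQR hL e μ hμ c hcper hc0 hc1 hlim
  have hΩ := hL.ne
  have hκ : gg e ((starRingEnd ℂ) ((μ : ℂ) / Ω)) ((μ : ℂ) / Ω) ≠ 0 := by
    have h : (μ : ℂ) / Ω ≠ 0 := div_ne_zero hμC hΩ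
    unfold gg
    exact mul_ne_zero (pow_ne_zero _ ((map_ne_zero _).2 h)) (pow_ne_zero _ (inv_ne_zero h))
  have hqe : (q ^ e)⁻¹ ≠ 0 := inv_ne_zero (pow_ne_zero _ (q_ne hpq))
  have hs : ∑ x : RR ⧸ sp μ, c x.out * ek L p q e (Ω * x.out / μ) = 0 := by
    have h1 := (mul_eq_zero.1 hval.symm).resolve_left hκ
    exact (mul_eq_zero.1 h1).resolve_left hqe
  -- the reduction
  set n : RR := ∏ i ∈ S, π i with hn
  have hfo : Fo n := hS.fo
  have hn0 := Pool.Agent.TH936.PU.coe_ne hfo.ne
  have hbb : IsCoprime (bR * bR) n := hfo.cop_bR.mul_left hfo.cop_bR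
  have hbb0 : bR * bR ≠ 0 := mul_ne_zero bR_ne0 bR_ne0
  have hbbC := Pool.Agent.TH936.PU.coe_ne hbb0
  have f2 := fin_quot hfo.ne
  have f3 := fin_quot hbb0
  let _ : Fintype (RR ⧸ sp n) := Fintype.ofFinite _
  let _ : Fintype (RR ⧸ sp (bR * bR)) := Fintype.ofFinite _
  have hekper : ∀ a b : RR, a - b ∈ sp μ → c a * ek L p q e (Ω * a / μ) =
      c b * ek L p q e (Ω * b / μ) := by
    intro a b hab
    by_cases hb : b ∈ sp μ
    · have ha : a ∈ sp μ := by
        have := (sp μ).add_mem hab hb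
        rwa [sub_add_cancel] at this
      rw [hc0 a ha, hc0 b hb, zero_mul, zero_mul]
    · rw [hcper a b hab]
      congr 1
      have hz : Ω * b / μ ∉ L.lattice := fun h => hb ((div_mem_iff hL hμ _).1 h)
      refine ek_per hpq e hz ?_
      have := (div_mem_iff hL hμ (a - b)).2 hab
      convert this using 1
      push_cast
      ring
  have hsum : ∑ x : RR ⧸ sp μ, c x.out * ek L p q e (Ω * x.out / μ) =
      ∑ w : RR ⧸ sp n, ∑ u : RR ⧸ sp (bR * bR),
        (fun r : RR => c r * ek L p q e (Ω * r / μ)) (w.out * (bR * bR) + u.out * n) := by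
    rw [← Fintype.sum_prod_type (f := fun z : (RR ⧸ sp n) × (RR ⧸ sp (bR * bR)) =>
      (fun r : RR => c r * ek L p q e (Ω * r / μ)) (z.1.out * (bR * bR) + z.2.out * n))]
    exact sum_rep (I := sp μ) (fun z : (RR ⧸ sp n) × (RR ⧸ sp (bR * bR)) =>
      z.1.out * (bR * bR) + z.2.out * n) (bij_crt hbb)
      (fun r : RR => c r * ek L p q e (Ω * r / μ)) hekper
  rw [hs] at hsum
  have hchb : ch π S (bR * bR) = 1 := by
    rw [hS.ch_mul]
    exact ch_sq hS fun i hi => (hS.pd i hi).bR
  have hterm : ∀ (w : RR ⧸ sp n) (u : RR ⧸ sp (bR * bR)),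
      (fun r : RR => c r * ek L p q e (Ω * r / μ)) (w.out * (bR * bR) + u.out * n) =
      ch π S w.out * (sg u.out * ek L p q e (Ω * u.out / (bl * bl) + Ω * w.out / n)) := by
    intro w u
    simp only
    have e1 : Ω * ((w.out * (bR * bR) + u.out * n : RR) : ℂ) / μ =
        Ω * u.out / (bl * bl) + Ω * w.out / n := by
      have hb := bl_ne
      have hμn : (μ : ℂ) = bl * bl * n := by
        rw [hμdef]
        unfold ms
        rw [← hn]
        push_cast
        rw [bR_coe]
      rw [hμn]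
      push_cast
      rw [bR_coe]
      field_simp
      ring
    have e2 : xs π S (w.out * (bR * bR) + u.out * n) = sg u.out * ch π S w.out := by
      unfold xs
      have h1 : sg (w.out * (bR * bR) + u.out * n) = sg u.out := by
        have h2 : sg (w.out * (bR * bR) + u.out * n) = sg (u.out * n) := by
          apply sg_per
          rw [add_sub_cancel_right, Ideal.mem_span_singleton']
          exact ⟨w.out, rfl⟩
        rw [h2, sg_mul, sg_fo hfo, mul_one]
      have h3 : ch π S (w.out * (bR * bR) + u.out * n) = ch π S w.out := by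
        have h2 : ch π S (w.out * (bR * bR) + u.out * n) = ch π S (w.out * (bR * bR)) := by
          apply ch_per
          rw [add_sub_cancel_left, Ideal.mem_span_singleton']
          exact ⟨u.out, rfl⟩
        rw [h2, hS.ch_mul, hchb, mul_one]
      rw [h1, h3]
    rw [hcv, e1, e2]
    ring
  have hin : ∀ w : RR ⧸ sp n, ∑ u : RR ⧸ sp (bR * bR),
      (fun r : RR => c r * ek L p q e (Ω * r / μ)) (w.out * (bR * bR) + u.out * n) =
      ch π S w.out * (ek L p q e (T0 Ω + Ω * w.out / n) - ek L p q e (-T0 Ω + Ω * w.out / n)) := by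
    intro w
    rw [Finset.sum_congr rfl (fun u _ => hterm w u), ← Finset.mul_sum]
    congr 1
    have hod : Od L (Ω * (w.out : RR) / n) := hfo.od hL _
    have hnl : ∀ u : RR, u ∉ sp bR → Ω * u / (bl * bl) + Ω * (w.out : RR) / n ∉ L.lattice := by
      intro u hu hm
      obtain ⟨N, hN1, hN2⟩ := hod
      have h3 := sub_mem (nat_mul_mem hm N) hN2
      have h4 : Ω * ((N * u : RR) : ℂ) / ((bR * bR : RR) : ℂ) ∈ L.lattice := by
        convert h3 using 1
        push_cast
        rw [bR_coe]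
        ring
      rw [div_mem_iff hL hbb0] at h4
      have h5 : (N : RR) * u ∈ sp bR := by
        have : sp (bR * bR) ≤ sp bR := Ideal.span_singleton_le_span_singleton.2 (Dvd.intro _ rfl)
        exact this h4
      rw [Ideal.mem_span_singleton] at h5 hu
      rcases prime_bR.dvd_or_dvd h5 with h6 | h6
      · rw [← Ideal.mem_span_singleton, sp_bR_iff, (Pool.Agent.Y698.cXY_nat N).1,
          (Pool.Agent.Y698.cXY_nat N).2] at h6
        rw [Nat.odd_iff] at hN1
        omega
      · exact hu h6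
    have h1 := sum_sg (fun u : RR => ek L p q e (Ω * u / (bl * bl) + Ω * (w.out : RR) / n)) ?_
    · rw [h1, T0_div]
      congr 2
      · congr 1
        push_cast
        ring
      · congr 1
        push_cast
        ring
    · intro x y hxy
      by_cases hy : y ∈ sp bR
      · have h2 : sg y = 0 := sg_zero.2 hy
        have h3 : sg x = 0 := by rw [sg_per x y hxy, h2]
        simp only [h2, h3, zero_mul]
      · show sg x * _ = sg y * _
        rw [sg_per x y hxy]
        congr 1
        refine ek_per hpq e (hnl y hy) ?_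
        have := (div_mem_iff hL hbb0 (x - y)).2 hxy
        convert this using 1
        push_cast
        rw [bR_coe]
        ring
  rw [Finset.sum_congr rfl (fun w _ => hin w)] at hsum
  unfold bb
  rw [← hn, Bd_eq]
  have h5 : ∑ x : RR ⧸ sp n, ch π S x.out * GQ L p q Ω e (Ω * x.out / (n : ℂ)) =
      ((e.factorial : ℂ) * cT L Ω ^ (2 * e + 1)) * ∑ w : RR ⧸ sp n, ch π S w.out *
        (ek L p q e (T0 Ω + Ω * w.out / n) - ek L p q e (-T0 Ω + Ω * w.out / n)) := by
    rw [Finset.mul_sum]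
    refine Finset.sum_congr rfl fun w _ => ?_
    unfold GQ
    ring
  rw [h5, ← hsum, mul_zero, zero_div]

end Pool.Agent.N843
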