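import Pool.Agent.R426.QD.Rec
import Pool.Agent.N843.Cnt

/-!
# The Euler factors of the curves
-/

set_option autoImplicit false
set_option linter.unusedSectionVars false
set_option linter.unusedSimpArgs false
set_option linter.unusedVariables false

open IsDedekindDomain

namespace Pool.Agent.N843

open H667R3 Pool.Agent.TH936.CW Pool.Agent.W192.HK Pool.Agent.TH936.PU
open Pool.Agent.Y698 (RR al al_sq al_ne bl bl_ne al_mul_bl LD aR aR_coe bR bR_coe cX cY co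
  v_two v_two_lt fin_quot aR_mul_bR two_coe nR mul_cj cj_coe exists_gen AP EX count_tw count_sq
  card_sp fR e7 cXY_neg e7_eq_zero e7_neg)
open Pool.Agent.Y279.SG (cXY_cj)
open Pool.Agent.Y698.SG (Pe sy sy_val sy_sgn lg lg_one lg_neg_one)
open Pool.Agent.R384 (OO om qs Sqm Pr em qs_zero Indec)
open Pool.Agent.R426.QC (Pm recip)
open Pool.Agent.R426.QD (r4 r4_eq P3 odd_cases sy_mulO sy_neg' et recG pn_fR p3_fR sy_fR tp
  neg_one_notin sy_oneO)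

/-! ### the sign and the symbols -/

lemma r4_cj (ϖ : RR) : r4 (Pool.Agent.Y698.cj ϖ) = r4b ϖ := by
  rw [r4_eq, r4b_eq, (cXY_cj ϖ).1, (cXY_cj ϖ).2]
  congr 1
  ring

lemma r4b_cj (ϖ : RR) : r4b (Pool.Agent.Y698.cj ϖ) = r4 ϖ := by
  rw [← r4_cj, Pool.Agent.Y698.cj_cj]

/-- the value of the sign -/
lemma et_sg {ϖ : RR} (h : ϖ ∉ sp bR) : (et ϖ = 0 ∧ sg ϖ = 1) ∨ (et ϖ = 1 ∧ sg ϖ = -1) := by
  unfold et
  rw [r4_cj]
  rcases sg_sgn h with h1 | h1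
  · left
    refine ⟨?_, h1⟩
    rw [if_pos]
    unfold sg at h1
    have h4 : ∀ t : ZMod 4, ZMod.χ₄ t = 1 → t = 1 := by decide
    apply h4
    exact_mod_cast h1
  · right
    refine ⟨?_, h1⟩
    rw [if_neg]
    intro h2
    unfold sg at h1
    rw [h2, map_one] at h1
    norm_num at h1

lemma not_bR {ϖ : RR} (h : Prime ϖ) (h2 : ¬ ϖ ∣ 2) : ϖ ∉ sp bR := by
  rw [Ideal.mem_span_singleton]
  intro h3
  apply h2
  have h4 : ϖ ∣ bR := (prime_bR.dvd_prime_iff_associated h).1 h3 |>.symm.dvd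
  exact h4.trans ⟨aR, by linear_combination -aR_mul_bR⟩

lemma sp_neg (ϖ : RR) : sp (-ϖ) = sp ϖ := Ideal.span_singleton_neg _

lemma sy_negl (ϖ x : RR) : sy (-ϖ) x = sy ϖ x := by
  classical
  have key : ∀ I J : Ideal RR, I = J → (if x ∈ I then (0 : ℂ) else
      if IsSquare (Ideal.Quotient.mk I x) then 1 else -1) =
      if x ∈ J then (0 : ℂ) else if IsSquare (Ideal.Quotient.mk J x) then 1 else -1 := by
    rintro I J rfl
    rfl
  unfold sy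
  have h := key _ _ (sp_neg ϖ)
  convert h using 3

/-- the reciprocity law for `√-7` -/
theorem sy_f {ϖ : RR} (h : Prime ϖ) (h2 : ¬ ϖ ∣ 2) (h7 : ϖ ∉ sp fR) (h7' : fR ∉ sp ϖ) :
    sy ϖ (-fR) = e7 ϖ * sg ϖ := by
  have hn : -fR ∉ sp ϖ := fun h3 => h7' (by
    have := neg_mem h3
    rwa [neg_neg] at this)
  have hn' : ϖ ∉ sp (-fR) := by
    rwa [sp_neg]
  have h1 := recG pn_fR h h2 hn hn'
  have h3 : tp (-fR) = 1 := p3_fR.negp.tp
  have h4 : sy (-fR) ϖ = e7 ϖ := by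
    rw [← sy_fR, sy_negl]
  rw [h3, one_mul, h4] at h1
  have h5 : e7 ϖ = 1 ∨ e7 ϖ = -1 := by
    rw [← h4]
    exact sy_sgn hn'
  rcases h5 with h5 | h5 <;> rcases sy_sgn hn with h6 | h6 <;>
    rcases et_sg (not_bR h h2) with ⟨h8, h9⟩ | ⟨h8, h9⟩ <;>
    rw [h5, h6, h8] at h1 <;> rw [h5, h6, h9] <;>
    first
      | (norm_num; done)
      | (exfalso; simp only [lg_one, lg_neg_one] at h1; revert h1; decide)

/-- the symbol of `-1` -/
lemma sy_neg_one {ϖ : RR} (h : Prime ϖ) (h2 : ¬ ϖ ∣ 2) :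
    sy ϖ (-1) * sg ϖ = sg (Pool.Agent.Y698.cj ϖ) := by
  have key : ∀ ϖ : RR, Pm ϖ → sy ϖ (-1) = 1 ∧ r4b ϖ = 1 ∧ r4 ϖ = 1 := by
    intro ϖ h
    refine ⟨h.pd.neg, ?_, Pool.Agent.R426.QD.r4_m4 h.m4⟩
    rw [← r4_cj]
    exact Pool.Agent.R426.QD.r4_m4 h.cj.m4
  unfold sg
  rw [r4b_cj]
  rcases odd_cases h h2 with (h1 | h1) | ⟨p, A, B, h1⟩
  · obtain ⟨a1, a2, a3⟩ := key ϖ h1
    rw [a1, a2, a3, one_mul]
  · obtain ⟨a1, a2, a3⟩ := key (-ϖ) h1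
    rw [map_neg] at a2 a3
    have b2 : r4b ϖ = -1 := by rw [← a2, neg_neg]
    have b3 : r4 ϖ = -1 := by rw [← a3, neg_neg]
    have b1 : sy ϖ (-1) = 1 := by
      rw [← a1, sy_negl]
    rw [b1, b2, b3, one_mul]
  · rw [h1.neg, r4b_eq, r4_eq, h1.hX, h1.hY]
    have hA := h1.hA
    have hB := h1.hB
    obtain ⟨a, rfl⟩ : ∃ a, A = 2 * a := ⟨A / 2, by omega⟩
    obtain ⟨b, rfl⟩ : ∃ b, B = 2 * b + 1 := ⟨B / 2, by omega⟩
    have h4 : (4 : ZMod 4) = 0 := by decide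
    have e1 : ((2 * a - (2 * b + 1) - 2 * (2 * b + 1) : ℤ) : ZMod 4) = 2 * (a : ZMod 4) +
        2 * (b : ZMod 4) + 1 := by
      push_cast
      linear_combination (-2 * (b : ZMod 4) - 1) * h4
    have e2 : ((2 * a - (2 * b + 1) + 2 * (2 * (2 * b + 1)) : ℤ) : ZMod 4) = 2 * (a : ZMod 4) +
        2 * (b : ZMod 4) + 3 := by
      push_cast
      linear_combination (b : ZMod 4) * h4
    rw [e1, e2]
    have h5 : ∀ a b : ZMod 4, -1 * ZMod.χ₄ (2 * a + 2 * b + 1) = ZMod.χ₄ (2 * a + 2 * b + 3) := by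
      decide
    rw [← h5]
    push_cast
    ring

end Pool.Agent.N843
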