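import Pool.Agent.N843.Fin
import Pool.Agent.N843.Link

/-!
# Transfer to the abstract ring of integers
-/

set_option autoImplicit false
set_option linter.unusedSectionVars false
set_option linter.unusedSimpArgs false
set_option linter.unusedVariables false

open Filter IsDedekindDomain
open scoped Topology PeriodPair

namespace Pool.Agent.N843

open H667R3 Pool.Agent.TH936.CW Pool.Agent.W192.HK Pool.Agent.TH936.PU
open Pool.Agent.Y698 (RR al al_sq al_ne bl bl_ne al_mul_bl LD aR aR_coe bR bR_coe cX cY co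
  v_two v_two_lt fin_quot aR_mul_bR two_coe nR mul_cj cj_coe exists_gen)
open Pool.Agent.Y698.SG (Pe sy)
open Pool.Agent.R384 (OO om qs Sqm Pr em qs_zero Indec)

variable {μ : RR} {x : RR → ℂ}

/-- the character on the ideals of the abstract ring -/
noncomputable def psi (x : RR → ℂ) (I : Ideal OO) : ℂ := tw x 1 (I.map (pE : OO →+* RR))

lemma map_sp (g : OO) : (Ideal.span {g}).map (pE : OO →+* RR) = sp (pH g) := by
  rw [Ideal.map_span, Set.image_singleton]
  rfl

lemma Cx.psi_sp (h : Cx μ x) (g : OO) : psi x (Ideal.span {g}) = x (pH g) * (pH g : ℂ) := by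
  unfold psi
  rw [map_sp, h.tw_sp, pow_one]

lemma Cx.psi_mul (h : Cx μ x) (I J : Ideal OO) : psi x (I * J) = psi x I * psi x J := by
  unfold psi
  rw [Ideal.map_mul, h.multI]

lemma nm_map (I : Ideal OO) : nm (I.map (pE : OO →+* RR)) = (Nat.card (OO ⧸ I) : ℝ) := by
  unfold nm
  congr 1
  exact (Nat.card_congr (Ideal.quotientEquiv I (I.map (pE : OO →+* RR)) pE rfl).toEquiv).symm

/-- the transfer of the Euler products -/
lemma hp_map (f : Ideal RR → ℂ) (F : ℂ)
    (h : HasProd (fun v : HeightOneSpectrum RR => f v.asIdeal) F) :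
    HasProd (fun v : HeightOneSpectrum OO => f (v.asIdeal.map (pE : OO →+* RR))) F := by
  have h1 := ((HeightOneSpectrum.equivOfRingEquiv pE).hasProd_iff
    (f := fun v : HeightOneSpectrum RR => f v.asIdeal) (a := F)).2 h
  have h2 : ((fun v : HeightOneSpectrum RR => f v.asIdeal) ∘
      (HeightOneSpectrum.equivOfRingEquiv pE)) = fun v : HeightOneSpectrum OO =>
        f (v.asIdeal.map (pE : OO →+* RR)) := by
    funext v
    show f ((v.asIdeal).comap (pE.symm : RR →+* OO)) = _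
    rw [show Ideal.comap (pE.symm : RR →+* OO) v.asIdeal = Ideal.map (pE : OO →+* RR) v.asIdeal
      from Ideal.comap_symm pE]
  rw [h2] at h1
  exact h1

/-- the conclusion for all the characters `ψ ^ j * conj ψ ^ (1 - j)` -/
def AllJ (ψ : Ideal OO → ℂ) : Prop := ∀ j : ℤ, ∃ L : ℂ → ℂ, Differentiable ℂ L ∧
  (∀ s : ℂ, 3 / 2 < s.re → HasProd (fun P : HeightOneSpectrum OO =>
    (1 - ψ P.asIdeal ^ j * (starRingEnd ℂ) (ψ P.asIdeal) ^ (1 - j) *
      (Nat.card (OO ⧸ P.asIdeal) : ℂ) ^ (-s))⁻¹) (L s)) ∧ L 1 ≠ 0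

lemma conj_hp {ψ : Ideal OO → ℂ} {j : ℤ} {L : ℂ → ℂ} (h1 : Differentiable ℂ L)
    (h2 : ∀ s : ℂ, 3 / 2 < s.re → HasProd (fun P : HeightOneSpectrum OO =>
    (1 - ψ P.asIdeal ^ j * (starRingEnd ℂ) (ψ P.asIdeal) ^ (1 - j) *
      (Nat.card (OO ⧸ P.asIdeal) : ℂ) ^ (-s))⁻¹) (L s)) (h3 : L 1 ≠ 0) :
    ∃ L : ℂ → ℂ, Differentiable ℂ L ∧
  (∀ s : ℂ, 3 / 2 < s.re → HasProd (fun P : HeightOneSpectrum OO =>
    (1 - ψ P.asIdeal ^ (1 - j) * (starRingEnd ℂ) (ψ P.asIdeal) ^ (1 - (1 - j)) *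
      (Nat.card (OO ⧸ P.asIdeal) : ℂ) ^ (-s))⁻¹) (L s)) ∧ L 1 ≠ 0 := by
  refine ⟨Pool.Agent.Y690.cj L, Pool.Agent.Y690.cj_diff h1, fun s hs => ?_, ?_⟩
  · have h6 := (h2 ((starRingEnd ℂ) s) (by rw [Complex.conj_re]; exact hs)).map (starRingEnd ℂ)
      Complex.continuous_conj
    have h7 : (fun P : HeightOneSpectrum OO =>
        (1 - ψ P.asIdeal ^ (1 - j) * (starRingEnd ℂ) (ψ P.asIdeal) ^ (1 - (1 - j)) *
        (Nat.card (OO ⧸ P.asIdeal) : ℂ) ^ (-s))⁻¹) =
        (starRingEnd ℂ) ∘ (fun P : HeightOneSpectrum OO =>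
        (1 - ψ P.asIdeal ^ j * (starRingEnd ℂ) (ψ P.asIdeal) ^ (1 - j) *
        (Nat.card (OO ⧸ P.asIdeal) : ℂ) ^ (-(starRingEnd ℂ) s))⁻¹) := by
      funext P
      simp only [Function.comp]
      rw [map_inv₀, map_sub, map_one, map_mul, map_mul, map_zpow₀, map_zpow₀, Complex.conj_conj]
      rw [← map_neg, Complex.cpow_conj _ _ (by
        rw [Complex.natCast_arg]
        exact Real.pi_pos.ne), Complex.conj_conj, Complex.conj_natCast, sub_sub_cancel]
      ring
    rw [h7]
    exact h6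
  · have h4 : Pool.Agent.Y690.cj L 1 = (starRingEnd ℂ) (L 1) := by
      unfold Pool.Agent.Y690.cj
      rw [map_one]
    rw [h4, Ne, map_eq_zero]
    exact h3

theorem Cx.allJ (h : Cx μ x) (hbasic : H_BASIC) (hz : NZ x) : AllJ (psi x) := by
  have key : ∀ e : ℕ, ∃ L : ℂ → ℂ, Differentiable ℂ L ∧
      (∀ s : ℂ, 3 / 2 < s.re → HasProd (fun P : HeightOneSpectrum OO =>
      (1 - psi x P.asIdeal ^ ((e : ℤ) + 1) *
      (starRingEnd ℂ) (psi x P.asIdeal) ^ (1 - ((e : ℤ) + 1)) *
        (Nat.card (OO ⧸ P.asIdeal) : ℂ) ^ (-s))⁻¹) (L s)) ∧ L 1 ≠ 0 := by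
    intro e
    obtain ⟨b1, b2, b3, b4, b5, b6, b7, -⟩ := hbasic RR al Pool.Agent.Y698.qr
    obtain ⟨F, hF1, hF2, hF3⟩ := hz e
    refine ⟨fun s => F (s + e), by fun_prop, fun s hs => ?_, ?_⟩
    · have hz' : ((e + 1 : ℕ) : ℝ) + 1 / 2 < (s + e).re := by
        rw [Complex.add_re, Complex.natCast_re]
        push_cast
        linarith
      have h1 := hF2 (s + e) hz'
      have h2 : (fun J : Ideal RR => tw x (2 * e + 1) J * (nm J : ℂ) ^ (-(s + e))) =
          fun J : Ideal RR => tw x 1 J ^ (2 * e + 1) * (starRingEnd ℂ) (tw x 1 J) ^ 0 *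
            (nm J : ℂ) ^ (-(s + e)) := by
        funext J
        rw [pow_zero, mul_one]
        unfold tw
        rw [pow_one]
      rw [h2] at h1
      have h3 := h.euler hbasic (by omega) _ _ h1
      have h4 := hp_map (fun J => (1 - tw x 1 J ^ (2 * e + 1) * (starRingEnd ℂ) (tw x 1 J) ^ 0 *
        (nm J : ℂ) ^ (-(s + (e : ℂ))))⁻¹) _ h3
      have h5 : (fun P : HeightOneSpectrum OO =>
          (1 - psi x P.asIdeal ^ ((e : ℤ) + 1) *
          (starRingEnd ℂ) (psi x P.asIdeal) ^ (1 - ((e : ℤ) + 1)) *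
          (Nat.card (OO ⧸ P.asIdeal) : ℂ) ^ (-s))⁻¹) =
          fun P : HeightOneSpectrum OO => (fun J => (1 - tw x 1 J ^ (2 * e + 1) *
            (starRingEnd ℂ) (tw x 1 J) ^ 0 * (nm J : ℂ) ^ (-(s + (e : ℂ))))⁻¹)
              (P.asIdeal.map (pE : OO →+* RR)) := by
        funext P
        simp only
        congr 2
        rw [nm_map, pow_zero, mul_one]
        change psi x P.asIdeal ^ ((e : ℤ) + 1) * _ * _ = psi x P.asIdeal ^ (2 * e + 1) * _
        obtain ⟨g, hg⟩ : ∃ g : OO, P.asIdeal = Ideal.span {g} := by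
          obtain ⟨g, hg⟩ := exists_gen (P.asIdeal.map (pE : OO →+* RR))
          obtain ⟨g', rfl⟩ := pH_surj g
          rw [← map_sp] at hg
          have h6 := congrArg (Ideal.comap (pE : OO →+* RR)) hg
          rw [Ideal.comap_map_of_bijective (pE : OO →+* RR) pE.bijective,
            Ideal.comap_map_of_bijective (pE : OO →+* RR) pE.bijective] at h6
          exact ⟨g', h6⟩
        have hg0 : pH g ≠ 0 := by
          intro h0
          have h1 : g = 0 := pH_inj (by rw [h0, map_zero])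
          rw [h1, Ideal.span_singleton_zero] at hg
          exact P.ne_bot hg
        by_cases hx : psi x P.asIdeal = 0
        · rw [hx, zero_zpow _ (by omega), zero_pow (by omega), zero_mul, zero_mul, zero_mul]
        · have hcop : x (pH g) = 1 ∨ x (pH g) = -1 := by
            apply h.sgn
            by_contra hc
            apply hx
            rw [hg, h.psi_sp, (h.zero _).2 hc, zero_mul]
          have hN : (starRingEnd ℂ) (psi x P.asIdeal) * psi x P.asIdeal =
              (Nat.card (OO ⧸ P.asIdeal) : ℂ) := by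
            have h7 : ((Nat.card (OO ⧸ P.asIdeal) : ℝ) : ℂ) = (pH g : ℂ) *
                (starRingEnd ℂ) (pH g : ℂ) := by
              rw [← nm_map, hg, map_sp, b5, Complex.mul_conj]
            rw [Complex.ofReal_natCast] at h7
            rw [h7]
            rw [hg, h.psi_sp, map_mul, h.conj]
            rcases hcop with h8 | h8 <;> rw [h8] <;> ring
          have hNz : (Nat.card (OO ⧸ P.asIdeal) : ℂ) ≠ 0 := by
            rw [← hN]
            exact mul_ne_zero ((map_ne_zero _).2 hx) hx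
          rw [Complex.ofReal_natCast]
          have h9 : (Nat.card (OO ⧸ P.asIdeal) : ℂ) ^ (-(s + (e : ℂ))) =
              (Nat.card (OO ⧸ P.asIdeal) : ℂ) ^ (-s) *
                ((Nat.card (OO ⧸ P.asIdeal) : ℂ) ^ e)⁻¹ := by
            rw [neg_add, Complex.cpow_add _ _ hNz, Complex.cpow_neg _ (e : ℂ),
              Complex.cpow_natCast]
          rw [h9]
          have h10 : 1 - ((e : ℤ) + 1) = -(e : ℤ) := by ring
          rw [h10, zpow_neg, zpow_natCast, ← hN]
          have h11 : psi x P.asIdeal ^ ((e : ℤ) + 1) = psi x P.asIdeal ^ (e + 1) := by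
            exact_mod_cast zpow_natCast (psi x P.asIdeal) (e + 1)
          rw [h11, mul_pow]
          have h12 : (starRingEnd ℂ) (psi x P.asIdeal) ≠ 0 := (map_ne_zero _).2 hx
          field_simp
          ring
      rw [h5]
      exact h4
    · have h7 : (1 : ℂ) + e = ((e + 1 : ℕ) : ℂ) := by
        push_cast
        ring
      simp only
      rw [h7]
      exact hF3
  intro j
  rcases le_or_gt 1 j with hj | hj
  · obtain ⟨e, rfl⟩ : ∃ e : ℕ, j = (e : ℤ) + 1 := ⟨(j - 1).toNat, by omega⟩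
    exact key e
  · obtain ⟨e, he⟩ : ∃ e : ℕ, 1 - j = (e : ℤ) + 1 := ⟨(-j).toNat, by omega⟩
    obtain ⟨L, h1, h2, h3⟩ := key e
    have h4 := conj_hp h1 h2 h3
    have h5 : 1 - ((e : ℤ) + 1) = j := by omega
    rw [h5] at h4
    exact h4

end Pool.Agent.N843
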