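import Pool.Agent.N843.Ekp

/-!
# The value formulas
-/

set_option autoImplicit false
set_option linter.unusedSectionVars false
set_option linter.unusedSimpArgs false

open scoped PeriodPair

namespace Pool.Agent.N843

open H667R3 Pool.Agent.TH936.CW Pool.Agent.Y690.NV MvPolynomial Finset

variable {L : PeriodPair} {p q : ℂ} {c B s T Q : ℂ}

lemma rel_Q (hT : TQ L p q c B s T) (hs : s = 1 ∨ s = -1) (hQ : Q ∉ L.lattice) :
    etQ L c B Q ^ 2 = xiQ L c B Q ^ 2 + B * xiQ L c B Q * (xiQ L c B Q - 1) ^ 2 := by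
  have hT' := two_mul_notMem_of L hT.nm
  have hB := hT.B0
  have hc := hT.c0
  have hX : ℘[L] Q = ((1 + B) / 3 + B * (xiQ L c B Q - 1)) / c ^ 2 := by
    unfold xiQ
    field_simp
    ring
  have hXT : ℘[L] T = ((1 + B) / 3) / c ^ 2 := by
    rw [← hT.x]
    field_simp
  have hY : ℘'[L] Q = 2 * B * etQ L c B Q / c ^ 3 := by
    unfold etQ
    field_simp
  have hYT : ℘'[L] T = -2 * s * B / c ^ 3 := by
    rw [← hT.y]
    field_simp
  have hg : L.g₂ = 4 / 3 * (1 - 4 * B + B ^ 2) / c ^ 4 := by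
    rw [← hT.g]
    field_simp
  set ξ := xiQ L c B Q with hξd
  set η := etQ L c B Q with hηd
  have h5 := L.derivWeierstrassP_sq Q hQ
  have h6 := L.derivWeierstrassP_sq T hT'
  rw [hX, hY, hg] at h5
  rw [hXT, hYT, hg] at h6
  have h7 : s ^ 2 = 1 := by
    rcases hs with rfl | rfl <;> norm_num
  have h8 : L.g₃ = (4 * ((1 + B) / 3) ^ 3 - 4 / 3 * (1 - 4 * B + B ^ 2) * ((1 + B) / 3) -
      4 * B ^ 2) / c ^ 6 := by
    have e : (-2 * s * B / c ^ 3) ^ 2 = 4 * B ^ 2 / c ^ 6 := by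
      field_simp
      linear_combination (4 : ℂ) * h7
    rw [e] at h6
    field_simp at h6 ⊢
    linear_combination h6
  rw [h8] at h5
  field_simp at h5
  have h9 : B ^ 2 * (η ^ 2 - (ξ ^ 2 + B * ξ * (ξ - 1) ^ 2)) = 0 := by
    linear_combination (1 / 108 : ℂ) * h5
  have h10 := (mul_eq_zero.1 h9).resolve_left (pow_ne_zero _ hB)
  linear_combination h10

/-- the ideal is killed by the evaluation at a point of the curve -/
lemma evp_II {ξ η ε : ℂ} (h1 : ξ - 1 ≠ 0) (h2 : η ^ 2 = ξ ^ 2 + B * ξ * (ξ - 1) ^ 2) {z : A}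
    (hz : z ∈ II) : eval (ptQ B ξ η ε) z = 0 := by
  obtain ⟨a, b, rfl⟩ := mem_II.mp hz
  have e1 : eval (ptQ B ξ η ε) r1 = 0 := by
    unfold r1 aX aT ptQ
    simp only [map_sub, map_mul, map_one, eval_X]
    simp only [Matrix.cons_val]
    field_simp
    ring
  have e2 : eval (ptQ B ξ η ε) r2 = 0 := by
    unfold r2 aX aH aB ptQ
    simp only [map_sub, map_mul, map_pow, map_one, eval_X]
    simp only [Matrix.cons_val]
    linear_combination h2
  rw [map_add, map_mul, map_mul, e1, e2]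
  ring

/-- the total change of gauge -/
noncomputable def ψt (p c B : ℂ) : ℂ := -(c ^ 2 * p) - (1 - 5 * B) / 3

lemma eval_ψ (ξ η ε : ℂ) : eval (ptQ B ξ η ε) (C (c ^ 2 * -p) + -aφ) = ψt p c B := by
  unfold aφ aB ptQ ψt
  simp only [map_add, map_sub, map_neg, map_mul, map_one, map_ofNat, eval_X, eval_C]
  simp only [Matrix.cons_val]
  ring

theorem val_diff (hT : TQ L p q c B 1 T) (hQ : Q ∉ L.lattice) (h1 : T + Q ∉ L.lattice)
    (h2 : T - Q ∉ L.lattice) (r : ℕ) :
    (r.factorial : ℂ) * (c ^ (2 * r + 1) * (ek L p q r (T + Q) - ek L p q r (-T + Q))) =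
      Sg (ψt p c B) (fun k => eval (ptQ B (xiQ L c B Q) (etQ L c B Q) (epQ L p q c Q))
        (Mq (1 + 2 * aT) k)) r := by
  have hξ := xiQ_ne hT hQ h1 h2
  have hrel := rel_Q hT (Or.inl rfl) hQ
  have h4 : -T + Q ∉ L.lattice := fun h => h2 (by
    have := neg_mem h
    rwa [show -(-T + Q) = T - Q by ring] at this)
  have h5 : -T - Q ∉ L.lattice := fun h => h1 (by
    have := neg_mem h
    rwa [show -(-T - Q) = T + Q by ring] at this)
  set P := ptQ B (xiQ L c B Q) (etQ L c B Q) (epQ L p q c Q) with hP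
  have key : ∀ (s T' : ℂ), (s = 1 ∨ s = -1) → TQ L p q c B s T' → T' + Q ∉ L.lattice →
      T' - Q ∉ L.lattice → (r.factorial : ℂ) * (c ^ (2 * r + 1) * ek L p q r (T' + Q)) =
      Sg (eval P (C (c ^ 2 * -p))) (fun k => eval P (ps s (Dn k))) r := by
    intro s T' hs hT' h1' h2'
    have e1 := ekp_eq (p := p) (q := q) r h1'
    have e2 := mc_Sg c (-p) r
    have e3 := congrArg (evG L p q ((starRingEnd ℂ) (T' + Q)) (T' + Q)) e2
    rw [evG_C, ← e1, evG_ps hs hT' hQ h1' h2', Sg_mapA (ps s), ← hP,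
      Sg_map (eval P : A →+* ℂ)] at e3
    have e4 : ps s (C (c ^ 2 * -p)) = C (c ^ 2 * -p) := by
      rw [← algebraMap_eq, AlgHom.commutes]
      rfl
    rw [e4] at e3
    rw [mul_left_comm, ← e3]
  have k1 := key 1 T (Or.inl rfl) hT h1 h2
  have k2 := key (-1) (-T) (Or.inr rfl) hT.neg h4 h5
  have e : (r.factorial : ℂ) * (c ^ (2 * r + 1) * (ek L p q r (T + Q) - ek L p q r (-T + Q))) =
      (r.factorial : ℂ) * (c ^ (2 * r + 1) * ek L p q r (T + Q)) -
      (r.factorial : ℂ) * (c ^ (2 * r + 1) * ek L p q r (-T + Q)) := by ring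
  rw [e, k1, k2, ← Sg_sub]
  have e5 : (fun k => eval P (ps 1 (Dn k)) - eval P (ps (-1) (Dn k))) =
      fun k => Sg (eval P (-aφ)) (fun k => eval P (Mq (1 + 2 * aT) k)) k := by
    funext k
    have e6 := evp_II (B := B) (ε := epQ L p q c Q) hξ hrel (key_diff k)
    rw [map_sub, map_sub, Sg_map (eval _ : A →+* ℂ)] at e6
    rw [← hP] at e6
    linear_combination e6
  rw [e5, Sg_comp]
  congr 1
  rw [← map_add, hP, eval_ψ]

/-- the value at `T` -/
theorem evG_T (hT : TQ L p q c B 1 T) (ξ η ε : ℂ) (u : U) :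
    evG L p q ((starRingEnd ℂ) T) T (mc c u) = eval (ptQ B ξ η ε) (pT u) := by
  have h : (evG L p q ((starRingEnd ℂ) T) T).comp (mc c) = (aeval (ptQ B ξ η ε)).comp pT := by
    refine MvPolynomial.algHom_ext fun i => ?_
    fin_cases i
    · show evG L p q _ _ (mc c vE) = aeval _ (pT vE)
      rw [mc_E, evG_C, evG_E, pT_E, aeval_eq_eval, Xx_E1, hT.e]
      exact (eval_C _).symm
    · show evG L p q _ _ (mc c vX) = aeval _ (pT vX)
      rw [mc_X, evG_C, evG_X, pT_X, aeval_eq_eval, hT.x]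
      unfold aB ptQ
      simp only [map_add, map_mul, map_one, eval_X, eval_C]
      simp only [Matrix.cons_val]
      ring
    · show evG L p q _ _ (mc c vY) = aeval _ (pT vY)
      rw [mc_Y, evG_C, evG_Y, pT_Y, aeval_eq_eval]
      unfold aB ptQ
      simp only [map_neg, eval_X, eval_C]
      simp only [Matrix.cons_val]
      linear_combination (1 / 2 : ℂ) * hT.y
    · show evG L p q _ _ (mc c vG) = aeval _ (pT vG)
      rw [mc_G, evG_C, evG_G, pT_G, aeval_eq_eval]
      unfold aG aB ptQ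
      simp only [map_add, map_sub, map_mul, map_pow, map_one, map_ofNat, eval_X, eval_C]
      simp only [Matrix.cons_val, coe_eval₂Hom]
      linear_combination (1 / 12 : ℂ) * hT.g
  have h' := congrArg (fun f => f u) h
  simp only [AlgHom.comp_apply] at h'
  rw [h', aeval_eq_eval]

theorem val_T (hT : TQ L p q c B 1 T) (ξ η ε : ℂ) (r : ℕ) :
    (r.factorial : ℂ) * (c ^ (2 * r + 1) * (2 * ek L p q r T)) =
      Sg (ψt p c B) (fun k => eval (ptQ B ξ η ε) (Mq 1 k)) r := by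
  have hT' := two_mul_notMem_of L hT.nm
  set P := ptQ B ξ η ε with hP
  have e1 := ekp_eq (p := p) (q := q) r hT'
  have e2 := mc_Sg c (-p) r
  have e3 := congrArg (evG L p q ((starRingEnd ℂ) T) T) e2
  rw [evG_C, ← e1, evG_T hT ξ η ε, Sg_mapA pT, ← hP, Sg_map (eval P : A →+* ℂ)] at e3
  have e4 : pT (C (c ^ 2 * -p)) = C (c ^ 2 * -p) := by
    rw [← algebraMap_eq, AlgHom.commutes]
    rfl
  rw [e4] at e3
  have e5 : (fun k => eval P (pT (Dn k))) =
      fun k => (1 / 2 : ℂ) * Sg (eval P (-aφ)) (fun k => eval P (Mq 1 k)) k := by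
    funext k
    show eval P (pT (Dn k)) = _
    rw [key_T, map_mul, eval_C, Sg_map (eval P : A →+* ℂ)]
  have e6 : ∀ (a : ℂ) (M : ℕ → ℂ) (n : ℕ), Sg a (fun k => (1 / 2 : ℂ) * M k) n =
      (1 / 2 : ℂ) * Sg a M n := by
    intro a M n
    unfold Sg
    rw [mul_sum]
    refine sum_congr rfl fun j _ => ?_
    ring
  rw [e5, e6, Sg_comp] at e3
  have e7 : eval P (C (c ^ 2 * -p)) + eval P (-aφ) = ψt p c B := by
    rw [← map_add, hP, eval_ψ]
  have e8 : Sg ((eval P : A →+* ℂ) (C (c ^ 2 * -p)) + eval P (-aφ)) (fun k => eval P (Mq 1 k)) r =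
      Sg (ψt p c B) (fun k => eval P (Mq 1 k)) r := by
    congr 1
  rw [e8] at e3
  linear_combination (-2 : ℂ) * e3

end Pool.Agent.N843
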