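import Pool.Agent.N843.Ks
import Pool.Agent.N843.Lt4

/-!
# The odd distributions and their congruences
-/

set_option autoImplicit false
set_option linter.unusedSectionVars false
set_option linter.unusedSimpArgs false

open Filter
open scoped Topology PeriodPair

namespace Pool.Agent.N843

open H667R3 Pool.Agent.TH936.CW Pool.Agent.W192.HK Pool.Agent.Y690.NV Pool.Agent.TH936.PU
open Pool.Agent.Y698 (RR al al_sq al_ne bl bl_ne al_mul_bl LD tA tB aR aR_coe bR bR_coe cX cY co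
  co_uniq al_im_pos Xx_per Tb v_two v_two_lt v_bl fin_quot aR_mul_bR two_coe)
open Pool.Agent.TH936.CM (IsLat)
open MvPolynomial (eval C)

/-! ### the values -/

section val

variable {L : PeriodPair} {p q : ℂ} {c B s T Q : ℂ}

lemma Sg_add' {R : Type*} [CommRing R] [Algebra ℂ R] (ψ : R) (M N : ℕ → R) (n : ℕ) :
    Sg ψ (fun k => M k + N k) n = Sg ψ M n + Sg ψ N n := by
  unfold Sg
  rw [← Finset.sum_add_distrib]
  refine Finset.sum_congr rfl fun j _ => ?_
  ring

lemma Sg_smul' (a : ℂ) (b : ℂ) (M : ℕ → ℂ) (n : ℕ) :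
    Sg a (fun k => b * M k) n = b * Sg a M n := by
  unfold Sg
  rw [Finset.mul_sum]
  refine Finset.sum_congr rfl fun j _ => ?_
  ring

theorem val_sum (hT : TQ L p q c B 1 T) (hQ : Q ∉ L.lattice) (h1 : T + Q ∉ L.lattice)
    (h2 : T - Q ∉ L.lattice) (r : ℕ) :
    (r.factorial : ℂ) * (c ^ (2 * r + 1) * (ek L p q r (T + Q) + ek L p q r (-T + Q))) =
      2 * Sg (ψt p c B) (fun k => eval (ptQ B (xiQ L c B Q) (etQ L c B Q) (epQ L p q c Q))
        (Mq aM k)) r := by
  have hξ := xiQ_ne hT hQ h1 h2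
  have hrel := rel_Q hT (Or.inl rfl) hQ
  have h4 : -T + Q ∉ L.lattice := fun h => h2 (by
    have := neg_mem h
    rwa [show -(-T + Q) = T - Q by ring] at this)
  have h5 : -T - Q ∉ L.lattice := fun h => h1 (by
    have := neg_mem h
    rwa [show -(-T - Q) = T + Q by ring] at this)
  set P := ptQ B (xiQ L c B Q) (etQ L c B Q) (epQ L p q c Q) with hP
  have key : ∀ (s T' : ℂ), (s = 1 ∨ s = -1) → TQ L p q c B s T' → T' + Q ∉ L.lattice →
      T' - Q ∉ L.lattice → (r.factorial : ℂ) * (c ^ (2 * r + 1) * ek L p q r (T' + Q)) =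
      Sg (eval P (C (c ^ 2 * -p))) (fun k => eval P (ps s (Dn k))) r := by
    intro s T' hs hT' h1' h2'
    have e1 := ekp_eq (p := p) (q := q) r h1'
    have e2 := mc_Sg c (-p) r
    have e3 := congrArg (evG L p q ((starRingEnd ℂ) (T' + Q)) (T' + Q)) e2
    rw [evG_C, ← e1, evG_ps hs hT' hQ h1' h2', Sg_mapA (ps s), ← hP,
      Sg_map (eval P : A →+* ℂ)] at e3
    have e4 : ps s (C (c ^ 2 * -p)) = C (c ^ 2 * -p) := by
      rw [← MvPolynomial.algebraMap_eq, AlgHom.commutes]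
      rfl
    rw [e4] at e3
    rw [mul_left_comm, ← e3]
  have k1 := key 1 T (Or.inl rfl) hT h1 h2
  have k2 := key (-1) (-T) (Or.inr rfl) hT.neg h4 h5
  have e : (r.factorial : ℂ) * (c ^ (2 * r + 1) * (ek L p q r (T + Q) + ek L p q r (-T + Q))) =
      (r.factorial : ℂ) * (c ^ (2 * r + 1) * ek L p q r (T + Q)) +
      (r.factorial : ℂ) * (c ^ (2 * r + 1) * ek L p q r (-T + Q)) := by ring
  rw [e, k1, k2, ← Sg_add', ← Sg_smul']
  have e5 : (fun k => eval P (ps 1 (Dn k)) + eval P (ps (-1) (Dn k))) =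
      fun k => Sg (eval P (-aφ)) (fun k => 2 * eval P (Mq aM k)) k := by
    funext k
    have e6 := evp_II (B := B) (ε := epQ L p q c Q) hξ hrel (key_sum k)
    rw [map_sub, map_add, Sg_map (eval _ : A →+* ℂ)] at e6
    rw [← hP] at e6
    have e7 : (fun k => (eval P : A →+* ℂ) (Mq (C 2 * aM) k)) =
        fun k => 2 * eval P (Mq aM k) := by
      funext k
      rw [(Mq_Cmul 2 aM k).1, map_mul]
      congr 1
      exact MvPolynomial.eval_C _
    rw [e7] at e6
    linear_combination e6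
  rw [e5, Sg_comp]
  congr 1
  rw [← map_add, hP, eval_ψ]

end val

section cong

variable {Γ : Type*} [LinearOrderedCommGroupWithZero Γ] {v : Valuation ℂ Γ}
variable {B ξ η ε : ℂ}

lemma ev_q2 : eval (ptQ B ξ η ε) q2 = ((ξ - 1)⁻¹) ^ 2 * η + 2 * ((ξ - 1)⁻¹) ^ 3 * η := by
  unfold q2 aT aH ptQ
  simp only [map_add, map_mul, map_pow, map_ofNat, MvPolynomial.eval_X]
  simp only [Matrix.cons_val]

theorem cong_M (hξ : ξ - 1 ≠ 0) (hrel : η ^ 2 = ξ ^ 2 + B * ξ * (ξ - 1) ^ 2)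
    (h0 : v B ≤ v 4) (h1 : v ξ ≤ 1) (h2 : v η ≤ 1) (h3 : v ε ≤ 1)
    (h4 : v (ξ - 1)⁻¹ ≤ 1) {ψ : ℂ} (hψ : v ψ ≤ v 4) (n : ℕ) :
    v (Sg ψ (fun k => eval (ptQ B ξ η ε) (Mq aM k)) (2 * n + 2) -
      (((ξ - 1)⁻¹) ^ 2 * η + 2 * ((ξ - 1)⁻¹) ^ 3 * η)) ≤ v 4 := by
  have hv4 : v (4 : ℂ) ≤ 1 := by
    have := v_nat (v := v) 4
    exact_mod_cast this
  have hM : ∀ n, v (eval (ptQ B ξ η ε) (Mq aM n)) ≤ 1 := fun n =>
    ev_WW h0 h1 h2 h3 h4 (Mq_mem aM_mem n).1
  have k1 := Sg_cong hψ hv4 hM (2 * n + 2)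
  obtain ⟨w, hw, z, hz, h⟩ := Mq_even n
  have k2 := ev_WW h0 h1 h2 h3 h4 hw
  have k3 := evp_II (B := B) (ε := ε) hξ hrel hz
  have e : eval (ptQ B ξ η ε) (Mq aM (2 * n + 2)) =
      (((ξ - 1)⁻¹) ^ 2 * η + 2 * ((ξ - 1)⁻¹) ^ 3 * η) + 4 * eval (ptQ B ξ η ε) w := by
    rw [h, map_add, map_add, k3, ev_q2, map_mul, map_ofNat, add_zero]
  have e2 : Sg ψ (fun k => eval (ptQ B ξ η ε) (Mq aM k)) (2 * n + 2) -
      (((ξ - 1)⁻¹) ^ 2 * η + 2 * ((ξ - 1)⁻¹) ^ 3 * η) =
      (Sg ψ (fun k => eval (ptQ B ξ η ε) (Mq aM k)) (2 * n + 2) -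
      eval (ptQ B ξ η ε) (Mq aM (2 * n + 2))) + 4 * eval (ptQ B ξ η ε) w := by
    rw [e]
    ring
  rw [e2]
  refine v_add_le k1 ?_
  rw [map_mul]
  calc v 4 * v (eval (ptQ B ξ η ε) w) ≤ v 4 * 1 := mul_le_mul_right k2 _
    _ = v 4 := mul_one _

end cong

/-! ### the distributions -/

variable {L : PeriodPair} {Ω p q : ℂ}

open Classical in
/-- the odd distributions -/
noncomputable def HS (L : PeriodPair) (p q Ω : ℂ) (r : ℕ) (z : ℂ) : ℂ :=
  if z ∈ L.lattice then 0 else (r.factorial : ℂ) * (cT L Ω ^ (2 * r + 1) *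
    (ek L p q r (T0 Ω + z) + ek L p q r (-T0 Ω + z)))

lemma HS_of {r : ℕ} {z : ℂ} (hz : z ∉ L.lattice) : HS L p q Ω r z =
    (r.factorial : ℂ) * (cT L Ω ^ (2 * r + 1) *
    (ek L p q r (T0 Ω + z) + ek L p q r (-T0 Ω + z))) := if_neg hz

lemma HS_lat {r : ℕ} {z : ℂ} (hz : z ∈ L.lattice) : HS L p q Ω r z = 0 := if_pos hz

/-- the formula holds everywhere -/
lemma HS_eq (hL : IsLat L RR Ω) (hpq : ∀ l ∈ L.lattice, eta L l = p * l + q * (starRingEnd ℂ) l)
    (r : ℕ) (z : ℂ) : HS L p q Ω r z =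
    (r.factorial : ℂ) * (cT L Ω ^ (2 * r + 1) *
    (ek L p q r (T0 Ω + z) + ek L p q r (-T0 Ω + z))) := by
  by_cases hz : z ∈ L.lattice
  · rw [HS_lat hz]
    have hT := T0_ne hL
    have hT' : -T0 Ω ∉ L.lattice := fun h1 => hT (by
      have := neg_mem h1
      rwa [neg_neg] at this)
    have e1 : ek L p q r (T0 Ω + z) = ek L p q r (T0 Ω) := ek_per hpq r hT (by
      rwa [add_sub_cancel_left])
    have e2 : ek L p q r (-T0 Ω + z) = ek L p q r (-T0 Ω) := ek_per hpq r hT' (by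
      rwa [add_sub_cancel_left])
    rw [e1, e2, ekp_neg r hT]
    ring
  · exact HS_of hz

section basic

variable (hpq : ∀ l ∈ L.lattice, eta L l = p * l + q * (starRingEnd ℂ) l)
include hpq

lemma HS_per (hL : IsLat L RR Ω) (r : ℕ) {z w : ℂ} (hz : Od L z) (h : w - z ∈ L.lattice) :
    HS L p q Ω r w = HS L p q Ω r z := by
  rw [HS_eq hL hpq, HS_eq hL hpq]
  rw [ek_per hpq r (hz.T_add hL) (show T0 Ω + w - (T0 Ω + z) ∈ L.lattice by
      convert h using 1; ring),
    ek_per hpq r (hz.Tn_add hL) (show -T0 Ω + w - (-T0 Ω + z) ∈ L.lattice by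
      convert h using 1; ring)]

lemma HS_neg (hL : IsLat L RR Ω) (r : ℕ) {z : ℂ} (hz : Od L z) :
    HS L p q Ω r (-z) = -HS L p q Ω r z := by
  rw [HS_eq hL hpq, HS_eq hL hpq]
  have e1 : T0 Ω + -z = -(-T0 Ω + z) := by ring
  have e2 : -T0 Ω + -z = -(T0 Ω + z) := by ring
  rw [e1, e2, ekp_neg r (hz.Tn_add hL), ekp_neg r (hz.T_add hL)]
  ring

theorem HS_dist (hL : IsLat L RR Ω) (r : ℕ) {c : RR} (hc0 : c ≠ 0) (hc : (4 : RR) ∣ c - 1)
    [Fintype (RR ⧸ sp c)] {z : ℂ} (hz : Od L z) :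
    ∑ t : RR ⧸ sp c, HS L p q Ω r (z + Ω * t.out / c) = gm r (c : ℂ) * HS L p q Ω r (c * z) := by
  have hcz := hz.smul hL c
  obtain ⟨N, ⟨k, hk⟩, h2⟩ := id hz
  have hN : 0 < 4 * N := by omega
  have hT := T0_four_mul hpq hL hc
  have key : ∀ T : ℂ, 4 * T ∈ L.lattice → T + c * z ∉ L.lattice → (c : ℂ) * T - T ∈ L.lattice →
      ∑ t : RR ⧸ sp c, ek L p q r (T + (z + Ω * t.out / c)) =
        gm r (c : ℂ) * ek L p q r (T + c * z) := by
    intro T h4 hn hcT
    have e1 : (c : ℂ) * (T + z) - (T + c * z) ∈ L.lattice := by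
      convert hcT using 1
      ring
    have hn' : (c : ℂ) * (T + z) ∉ L.lattice := by
      intro h
      have := sub_mem h e1
      rw [sub_sub_cancel] at this
      exact hn this
    have h5 : ((4 * N : ℕ) : ℂ) * (T + z) ∈ L.lattice := by
      have := add_mem (nat_mul_mem h4 N) (nat_mul_mem h2 4)
      convert this using 1
      push_cast
      ring
    have h6 := ekp_dist (p := p) (q := q) hpq hL r c hc0 hn' hN h5
    rw [ek_per hpq r hn e1] at h6
    rw [← h6]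
    refine Finset.sum_congr rfl fun t _ => ?_
    rw [add_assoc]
  simp only [HS_eq hL hpq]
  rw [← Finset.mul_sum, ← Finset.mul_sum, Finset.sum_add_distrib, key (T0 Ω) (T0_four hL)
    (hcz.T_add hL) hT, key (-T0 Ω) (by
      have := neg_mem (T0_four hL)
      convert this using 1
      ring) (hcz.Tn_add hL) (by
      have := neg_mem hT
      convert this using 1
      ring)]
  ring

end basic

/-- the depleted distribution of weight one -/
noncomputable def HD (L : PeriodPair) (p q Ω z : ℂ) : ℂ :=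
  HS L p q Ω 0 z - bl⁻¹ * HS L p q Ω 0 (al * z)

/-! ### the distribution relations for the two primes above two -/

lemma aR_res (r : RR) : r ∈ sp aR ∨ r - 1 ∈ sp aR := by
  have e : r = ((cX r : ℤ) : RR) + ((cY r : ℤ) : RR) * aR := by
    apply Subtype.ext
    push_cast
    rw [aR_coe]
    exact co r
  rcases Int.even_or_odd (cX r) with ⟨k, hk⟩ | ⟨k, hk⟩
  · left
    rw [Ideal.mem_span_singleton']
    refine ⟨(k : RR) * bR + ((cY r : ℤ) : RR), ?_⟩
    have hk' : ((cX r : ℤ) : RR) = k + k := by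
      exact_mod_cast congrArg (fun t : ℤ => (t : RR)) hk
    linear_combination (k : RR) * aR_mul_bR - e - hk'
  · right
    rw [Ideal.mem_span_singleton']
    refine ⟨(k : RR) * bR + ((cY r : ℤ) : RR), ?_⟩
    have hk' : ((cX r : ℤ) : RR) = 2 * k + 1 := by
      exact_mod_cast congrArg (fun t : ℤ => (t : RR)) hk
    linear_combination (k : RR) * aR_mul_bR - e - hk'

lemma aR_one : (1 : RR) ∉ sp aR := Pool.Agent.Y698.not_dvd_one Pool.Agent.Y698.aR_nu

lemma aR_bij : Function.Bijective (fun i : Fin 2 => Ideal.Quotient.mk (sp aR) ((i : ℕ) : RR)) := by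
  constructor
  · intro i j h
    have h1 := (Ideal.Quotient.mk_eq_mk_iff_sub_mem _ _).1 h
    fin_cases i <;> fin_cases j
    · rfl
    · exfalso
      simp only [Nat.cast_zero, Nat.cast_one, zero_sub] at h1
      have := neg_mem h1
      rw [neg_neg] at this
      exact aR_one (by simpa using this)
    · exfalso
      exact aR_one (by simpa using h1)
    · rfl
  · intro x
    have h1 : Ideal.Quotient.mk (sp aR) x.out = x := Ideal.Quotient.mk_out x
    rcases aR_res x.out with h | h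
    · refine ⟨0, ?_⟩
      rw [← h1]
      refine (Ideal.Quotient.mk_eq_mk_iff_sub_mem _ _).2 ?_
      have := neg_mem h
      convert this using 1
      simp
    · refine ⟨1, ?_⟩
      rw [← h1]
      refine (Ideal.Quotient.mk_eq_mk_iff_sub_mem _ _).2 ?_
      have := neg_mem h
      convert this using 1
      simp

lemma aR_ne0 : aR ≠ 0 := fun h => al_ne (by rw [← aR_coe, h]; rfl)

/-- the distribution relation for a prime above two -/
theorem ek_two (hL : IsLat L RR Ω) (hpq : ∀ l ∈ L.lattice, eta L l = p * l + q * (starRingEnd ℂ) l)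
    {g : RR} (hg0 : g ≠ 0)
    (hg : Function.Bijective (fun i : Fin 2 => Ideal.Quotient.mk (sp g) ((i : ℕ) : RR))) (r : ℕ)
    {z : ℂ} {N : ℕ} (hN : 0 < N) (h2 : (N : ℂ) * z ∈ L.lattice) (hz : (g : ℂ) * z ∉ L.lattice) :
    ek L p q r z + ek L p q r (z + Ω / g) = gm r (g : ℂ) * ek L p q r (g * z) := by
  have f1 := fin_quot hg0
  let _ : Fintype (RR ⧸ sp g) := Fintype.ofFinite _
  have hd := ekp_dist (p := p) (q := q) hpq hL r g hg0 hz hN h2
  rw [← hd]
  have hs := sum_rep (I := sp g) (fun i : Fin 2 => ((i : ℕ) : RR)) hg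
    (fun x : RR => ek L p q r (z + Ω * x / (g : ℂ))) ?_
  · rw [hs, Fin.sum_univ_two]
    congr 2
    · simp
    · simp
  · intro x y hxy
    refine (ek_per hpq r ?_ ?_)
    · exact mu_mul hL g hg0 y hz
    · have := (lat_dm_iff hL g hg0 (x - y)).2 hxy
      convert this using 1
      push_cast
      ring

end Pool.Agent.N843
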