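import Pool.Agent.N843.Vs

/-!
# The congruence between the odd distributions
-/

set_option autoImplicit false
set_option linter.unusedSectionVars false
set_option linter.unusedSimpArgs false

open Filter
open scoped Topology PeriodPair

namespace Pool.Agent.N843

open H667R3 Pool.Agent.TH936.CW Pool.Agent.W192.HK Pool.Agent.Y690.NV Pool.Agent.TH936.PU
open Pool.Agent.Y698 (RR al al_sq al_ne bl bl_ne al_mul_bl LD tA tB aR aR_coe bR bR_coe cX cY co
  co_uniq al_im_pos Xx_per Tb v_two v_two_lt v_bl fin_quot aR_mul_bR two_coe)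
open Pool.Agent.TH936.CM (IsLat)
open MvPolynomial (eval C)

variable {L : PeriodPair} {Ω p q : ℂ}

lemma Od.A_add (hL : IsLat L RR Ω) {z : ℂ} (h : Od L z) : z + tA Ω ∉ L.lattice := by
  obtain ⟨N, ⟨k, hk⟩, h2⟩ := h
  intro h3
  apply Pool.Agent.Y698.tA_notMem hL
  have h4 := sub_mem (nat_mul_mem h3 N) h2
  have h5 := nat_mul_mem (Pool.Agent.Y698.two_tA hL) k
  have := sub_mem h4 h5
  convert this using 1
  rw [hk]
  push_cast
  ring

lemma Od.A_sub (hL : IsLat L RR Ω) {z : ℂ} (h : Od L z) : z - tA Ω ∉ L.lattice := by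
  intro h1
  apply h.neg.A_add hL
  have := neg_mem h1
  convert this using 1
  ring

theorem E1_al (hL : IsLat L RR Ω) (hpq : ∀ l ∈ L.lattice, eta L l = p * l + q * (starRingEnd ℂ) l)
    {z : ℂ} (h : Od L z) (hz : z ∉ L.lattice) :
    E1 L p q z + E1 L p q (z + tA Ω) = al * E1 L p q (al * z) := by
  obtain ⟨N, h1, h2⟩ := id h
  have hz' : (aR : ℂ) * z ∉ L.lattice := by
    rw [aR_coe]
    exact h.al_ne hL hz
  have hd := ek_two hL hpq aR_ne0 aR_bij 0 h1.pos h2 hz'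
  have hg : gm 0 (aR : ℂ) = al := by
    rw [gm_eq, aR_coe]
    simp
  rw [hg, ek_zero hz', aR_coe, ek_zero hz] at hd
  rw [← hd]
  congr 1
  exact (ek_zero (h.A_add hL)).symm

theorem E1_al' (h : LD L Ω) (hpq : ∀ l ∈ L.lattice, eta L l = p * l + q * (starRingEnd ℂ) l)
    {z : ℂ} (ho : Od L z) (hz : z ∉ L.lattice) :
    al * (2 * E1 L p q (al * z)) = 2 * (2 * E1 L p q z) +
      ℘'[L] z / (Pool.Agent.Y698.Xx L z - (al - 3) / 4) := by
  have hL := h.lat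
  have h1 := E1_al hL hpq ho hz
  have hA := Pool.Agent.Y698.tA_notMem hL
  rw [E1_add hz hA (ho.A_add hL) (ho.A_sub hL), E1_half hpq hA (Pool.Agent.Y698.two_tA hL),
    Pool.Agent.Y698.dwp_half (Pool.Agent.Y698.two_tA hL)] at h1
  have e : Pool.Agent.Y698.Xx L z - (al - 3) / 4 = ℘[L] z - ℘[L] (tA Ω) := by
    rw [h.ea]
    unfold Pool.Agent.Y698.Xx
    ring
  have h3 : ℘[L] z - ℘[L] (tA Ω) ≠ 0 := by
    rw [sub_ne_zero, Ne, wp_eq_iff L hz hA]
    rintro (h6 | h6)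
    · exact ho.A_add hL h6
    · exact ho.A_sub hL h6
  rw [e, mul_left_comm, ← h1]
  field_simp
  ring

/-- the value of weight one -/
theorem HS_zero (h : LD L Ω) (hpq : ∀ l ∈ L.lattice, eta L l = p * l + q * (starRingEnd ℂ) l)
    {z : ℂ} (ho : Od L z) (hz : z ∉ L.lattice) : HS L p q Ω 0 z =
      2 * (cT L Ω * E1 L p q z + etQ L (cT L Ω) BT z * (xiQ L (cT L Ω) BT z - 1)⁻¹) := by
  rw [HS_of hz, val_sum (tq h hpq) hz (ho.T_add h.lat) (ho.T_sub h.lat) 0, Sg_zero, Mq_zero]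
  unfold aM aE aH aT ptQ epQ
  simp only [map_add, map_mul, MvPolynomial.eval_X]
  simp only [Matrix.cons_val]

lemma HS_gen (h : LD L Ω) (hpq : ∀ l ∈ L.lattice, eta L l = p * l + q * (starRingEnd ℂ) l) (r : ℕ)
    {z : ℂ} (ho : Od L z) (hz : z ∉ L.lattice) : HS L p q Ω r z =
    2 * Sg (ψt p (cT L Ω) BT) (fun k => eval (ptQ BT (xiQ L (cT L Ω) BT z)
      (etQ L (cT L Ω) BT z) (epQ L p q (cT L Ω) z)) (Mq aM k)) r := by
  rw [HS_of hz, val_sum (tq h hpq) hz (ho.T_add h.lat) (ho.T_sub h.lat) r]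

lemma s_ne : (1 - 2 * al : ℂ) ≠ 0 := by
  intro h0
  have h2 : ((-2 : ℝ) : ℂ) * al + (1 : ℝ) = 0 := by
    push_cast
    linear_combination h0
  have := al_lin h2
  norm_num at this

section alg

variable {X X' Y Y' a a' c E E' : ℂ}

/-- the algebra for the depleted distribution -/
lemma HD_alg (m1 : X' * (al ^ 2 * X - bl) = X ^ 2 - al)
    (m2 : Y' * (al ^ 2 * X - bl) ^ 2 = Y * (al * X ^ 2 - bl ^ 2 * X + al ^ 2))
    (m0 : al ^ 2 * X - bl ≠ 0)
    (x1 : a * (1 - 2 * al) = bl * (bl * X - 1)) (x2 : a' * (1 - 2 * al) = bl * (bl * X' - 1))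
    (e1 : al * (2 * E') = 2 * (2 * E) + Y / (X - (al - 3) / 4))
    (hc : c ^ 2 * (1 - 2 * al) = bl ^ 2 * BT) (hc0 : c ≠ 0) (ha : a ≠ 0) (ha' : a' ≠ 0) :
    a + 2 ≠ 0 ∧
    2 * (c * E + c ^ 3 * Y / (2 * BT) * a⁻¹) -
      bl⁻¹ * (2 * (c * E' + c ^ 3 * Y' / (2 * BT) * a'⁻¹)) =
      2 * (c ^ 3 * Y / (2 * BT) / (a * (a + 2))) := by
  have hs := s_ne
  have hal := al_ne
  have hbl := bl_ne
  have hB := BT_ne
  -- the factorization
  have f1 : (bl * X' - 1) * (al ^ 2 * X - bl) = (bl * X - 1) * (X + 1 + al) := by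
    unfold bl at m1 ⊢
    linear_combination (1 - al) * m1 + al_sq
  have f2 : (a + 2) * (1 - 2 * al) = bl ^ 2 * (X + 1 + al) := by
    unfold bl at x1 ⊢
    linear_combination x1 - al * al_sq
  have hn1 : bl * X - 1 ≠ 0 := by
    intro h0
    rw [h0, mul_zero] at x1
    exact ha ((mul_eq_zero.1 x1).resolve_right hs)
  have hn2 : bl * X' - 1 ≠ 0 := by
    intro h0
    rw [h0, mul_zero] at x2
    exact ha' ((mul_eq_zero.1 x2).resolve_right hs)
  have hn3 : X + 1 + al ≠ 0 := by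
    intro h0
    rw [h0, mul_zero] at f1
    exact (mul_ne_zero hn2 m0) f1
  have hn4 : a + 2 ≠ 0 := by
    intro h0
    rw [h0, zero_mul] at f2
    exact (mul_ne_zero (pow_ne_zero 2 hbl) hn3) f2.symm
  refine ⟨hn4, ?_⟩
  have hD : al ^ 2 * (X - (al - 3) / 4) = al ^ 2 * X - bl := by
    unfold bl
    linear_combination (1 / 2 - 1 / 4 * al) * al_sq
  have hX : X - (al - 3) / 4 ≠ 0 := by
    intro h0
    rw [h0, mul_zero] at hD
    exact m0 hD.symm
  have hXD : (2 : ℂ) * bl ^ 2 * (al ^ 2 * X - bl) * (X + 1 + al) -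
      al ^ 2 * bl * (bl * X - 1) * (X + 1 + al) -
      2 * bl * (al * X ^ 2 - bl ^ 2 * X + al ^ 2) = 2 * (1 - 2 * al) * (al ^ 2 * X - bl) := by
    unfold bl
    linear_combination (X * al ^ 3 - X ^ 2 * al + X ^ 2 * al ^ 2 - al + al ^ 2) * al_sq
  generalize al ^ 2 * X - bl = D at *
  -- the terms
  have t1 : bl⁻¹ * (2 * (c * E')) = 2 * (c * E) + c * Y * al ^ 2 / (2 * D) := by
    have e2 : bl⁻¹ = al / 2 := by
      field_simp
      linear_combination -al_mul_bl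
    have e3 : Y / (X - (al - 3) / 4) = Y * al ^ 2 / D := by
      rw [← hD]
      field_simp
    rw [e3] at e1
    rw [e2]
    linear_combination (c / 2) * e1
  have hY' : Y' = Y * (al * X ^ 2 - bl ^ 2 * X + al ^ 2) / D ^ 2 := by
    rw [← m2]
    field_simp
  have hX' : bl * X' - 1 = (bl * X - 1) * (X + 1 + al) / D := by
    rw [← f1]
    field_simp
  have ha1 : a = bl * (bl * X - 1) / (1 - 2 * al) := by
    rw [← x1]
    field_simp
  have ha2 : a' = bl * ((bl * X - 1) * (X + 1 + al) / D) / (1 - 2 * al) := by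
    rw [← hX', ← x2]
    field_simp
  have ha3 : a + 2 = bl ^ 2 * (X + 1 + al) / (1 - 2 * al) := by
    rw [← f2]
    field_simp
  have hBc : BT = c ^ 2 * (1 - 2 * al) / bl ^ 2 := by
    rw [hc]
    field_simp
  have e5 : 2 * (c * E + c ^ 3 * Y / (2 * BT) * a⁻¹) -
      bl⁻¹ * (2 * (c * E' + c ^ 3 * Y' / (2 * BT) * a'⁻¹)) =
      c ^ 3 * Y / BT * a⁻¹ - c * Y * al ^ 2 / (2 * D) - bl⁻¹ * (c ^ 3 * Y' / BT * a'⁻¹) := by
    have e6 : bl⁻¹ * (2 * (c * E' + c ^ 3 * Y' / (2 * BT) * a'⁻¹)) =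
        bl⁻¹ * (2 * (c * E')) + bl⁻¹ * (c ^ 3 * Y' / BT * a'⁻¹) := by
      field_simp
    rw [e6, t1]
    field_simp
    ring
  rw [e5, ha3, ha2, ha1, hY', hBc]
  have hs2 : (1 - al * 2 : ℂ) ≠ 0 := by rwa [mul_comm]
  field_simp
  linear_combination Y * hXD

end alg

/-- the depleted distribution -/
theorem HD_eq (h : LD L Ω) (hpq : ∀ l ∈ L.lattice, eta L l = p * l + q * (starRingEnd ℂ) l)
    {z : ℂ} (ho : Od L z) (hz : z ∉ L.lattice) (ha : xiQ L (cT L Ω) BT z - 1 ≠ 0)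
    (ha' : xiQ L (cT L Ω) BT (al * z) - 1 ≠ 0) :
    xiQ L (cT L Ω) BT z - 1 + 2 ≠ 0 ∧ HD L p q Ω z = 2 * (etQ L (cT L Ω) BT z /
      ((xiQ L (cT L Ω) BT z - 1) * (xiQ L (cT L Ω) BT z - 1 + 2))) := by
  have hL := h.lat
  have hz' := ho.al_ne hL hz
  obtain ⟨m1, m0⟩ := h.mul_al hz'
  have m2 := h.deriv_al hz'
  have x1 := xi_s h z
  have x2 := xi_s h (al * z)
  have e1 := E1_al' h hpq ho hz
  obtain ⟨k1, k2⟩ := HD_alg m1 m2 m0 x1 x2 e1 (c2B h) (cT_ne h) ha ha'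
  refine ⟨k1, ?_⟩
  unfold HD
  rw [HS_zero h hpq ho hz, HS_zero h hpq (ho.al hL) hz']
  exact k2

section val

variable {Γ : Type*} [LinearOrderedCommGroupWithZero Γ] {v : Valuation ℂ Γ}

theorem HS_cong (h : LD L Ω) (hv : v al < 1)
    (hpq : ∀ l ∈ L.lattice, eta L l = p * l + q * (starRingEnd ℂ) l) (n : ℕ) {z : ℂ}
    (ho : Od L z) : v (HS L p q Ω (2 * n + 2) z - HD L p q Ω z) ≤ v 2 * v 4 := by
  have hL := h.lat
  by_cases hz : z ∈ L.lattice
  · unfold HD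
    rw [HS_lat hz, HS_lat hz, HS_lat (al_mem hL hz), mul_zero, sub_self, sub_self, map_zero]
    exact zero_le
  have hz' := ho.al_ne hL hz
  have v1 := v_xi h hv ho hz
  have v2 := v_xi h hv (ho.al hL) hz'
  have c1 : v (xiQ L (cT L Ω) BT z) ≤ 1 := by
    have e : xiQ L (cT L Ω) BT z = (xiQ L (cT L Ω) BT z - 1) + 1 := by ring
    rw [e]
    exact v_add_le v1.le (by rw [map_one])
  have c4 := v_tau h hv ho hz
  have hx0 : xiQ L (cT L Ω) BT z - 1 ≠ 0 := by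
    rintro h0
    rw [h0, map_zero] at v1
    exact zero_ne_one v1
  have hx1 : xiQ L (cT L Ω) BT (al * z) - 1 ≠ 0 := by
    rintro h0
    rw [h0, map_zero] at v2
    exact zero_ne_one v2
  have k1 := cong_M hx0 (rel_Q (tq h hpq) (Or.inl rfl) hz) (v_BT hv).le c1 (v_et h hv ho hz).le
    (v_ep h hv hpq ho hz) c4.le (v_psi h hv (p_val h hpq)).le n
  obtain ⟨k2, k3⟩ := HD_eq h hpq ho hz hx0 hx1
  rw [HS_gen h hpq _ ho hz, k3, ← mul_sub, map_mul]
  refine mul_le_mul_right ?_ _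
  have vη := v_et h hv ho hz
  set a := xiQ L (cT L Ω) BT z - 1
  set η := etQ L (cT L Ω) BT z
  have va2 : v (a + 2) = 1 := by
    rw [Valuation.map_add_eq_of_lt_left v, v1]
    rw [v1]
    exact v_two_lt hv
  have e : (a⁻¹ ^ 2 * η + 2 * a⁻¹ ^ 3 * η) - η / (a * (a + 2)) = 4 * (η * (a + 1) / (a ^ 3 * (a + 2))) := by
    field_simp
    ring
  have e2 : ∀ x : ℂ, x - η / (a * (a + 2)) = (x - (a⁻¹ ^ 2 * η + 2 * a⁻¹ ^ 3 * η)) +
      ((a⁻¹ ^ 2 * η + 2 * a⁻¹ ^ 3 * η) - η / (a * (a + 2))) := fun x => by ring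
  rw [e2]
  refine v_add_le k1 ?_
  rw [e, map_mul]
  refine mul_le_of_le_one_right' ?_
  rw [map_div₀, map_mul, map_mul, map_pow, v1, va2, vη, one_pow, one_mul, one_mul, div_one]
  exact v_add_le v1.le (by rw [map_one])

end val

end Pool.Agent.N843
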