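import Pool.Agent.N843.Vt
import Pool.Agent.N843.Ind2
import Pool.Agent.Y698.Wn

/-!
# The twist of odd distributions by the quadratic character modulo `√-7`
-/

set_option autoImplicit false
set_option linter.unusedSectionVars false
set_option linter.unusedSimpArgs false

open Filter
open scoped Topology PeriodPair

namespace Pool.Agent.N843

open H667R3 Pool.Agent.TH936.CW Pool.Agent.W192.HK Pool.Agent.Y690.NV Pool.Agent.TH936.PU
open Pool.Agent.Y698 (RR al al_sq al_ne bl bl_ne al_mul_bl LD tA tB aR aR_coe bR bR_coe cX cY co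
  co_uniq al_im_pos Xx_per Tb v_two v_two_lt v_bl fin_quot aR_mul_bR two_coe e7 e7_per e7_mul
  e7_neg e7_one e7_eq_zero e7_sq fR fR_ne fR_sq irr_fR)
open Pool.Agent.Y698.SG (Pe sy sy_per sy_val sy_sgn tr tr_per tr_mul Mu hc hc_val hc_per
  sp_mem_iff prime_mem Rd lg lg_one v_RR sgn_prod)
open Pool.Agent.TH936.CM (IsLat)

variable {L : PeriodPair} {Ω p q : ℂ}

/-- odd distributions on the points of odd order -/
structure Do (L : PeriodPair) (Ω : ℂ) (lam : RR → ℂ) (F : ℂ → ℂ) : Prop where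
  per : ∀ z w : ℂ, Od L z → w - z ∈ L.lattice → F w = F z
  od : ∀ z : ℂ, Od L z → F (-z) = -F z
  dist : ∀ c : RR, Fo c → ∀ [Fintype (RR ⧸ sp c)], ∀ z : ℂ, Od L z →
    ∑ t : RR ⧸ sp c, F (z + Ω * t.out / c) = lam c * F (c * z)

theorem HS_do (hL : IsLat L RR Ω) (hpq : ∀ l ∈ L.lattice, eta L l = p * l + q * (starRingEnd ℂ) l)
    (r : ℕ) : Do L Ω (fun c => gm r (c : ℂ)) (HS L p q Ω r) :=
  ⟨fun _ _ hz h => HS_per hpq hL r hz h, fun _ hz => HS_neg hpq hL r hz,
    fun _ hc _ _ hz => HS_dist hpq hL r hc.ne hc hz⟩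

theorem HD_do (hL : IsLat L RR Ω)
    (hpq : ∀ l ∈ L.lattice, eta L l = p * l + q * (starRingEnd ℂ) l) :
    Do L Ω (fun c => gm 0 (c : ℂ)) (HD L p q Ω) := by
  have hG := HS_do hL hpq 0
  refine ⟨fun z w hz h => ?_, fun z hz => ?_, fun c hc _ z hz => ?_⟩
  · unfold HD
    rw [hG.per z w hz h, hG.per (al * z) (al * w) (hz.al hL) (by
      have := al_mem hL h
      rwa [mul_sub] at this)]
  · unfold HD
    rw [hG.od z hz, mul_neg, hG.od _ (hz.al hL)]
    ring
  · unfold HD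
    have h1 := hG.dist c hc z hz
    have h2 := hG.dist c hc (al * z) (hz.al hL)
    have hpe : Pe c (fun x => HS L p q Ω 0 (al * z + Ω * x / (c : ℂ))) := by
      intro x y hxy
      refine hG.per _ _ ((hz.al hL).add (hc.od hL y)) ?_
      have h3 := (div_mem_iff hL hc.ne (x - y)).2 hxy
      convert h3 using 1
      push_cast
      ring
    have h3 := sum_unit hc.cop_aR hpe
    rw [h2] at h3
    rw [Finset.sum_sub_distrib, h1, ← Finset.mul_sum]
    have h4 : ∑ t : RR ⧸ sp c, HS L p q Ω 0 (al * (z + Ω * t.out / c)) =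
        ∑ x : RR ⧸ sp c, HS L p q Ω 0 (al * z + Ω * ((aR * x.out : RR) : ℂ) / c) := by
      refine Finset.sum_congr rfl fun x _ => ?_
      congr 1
      push_cast
      rw [aR_coe]
      ring
    rw [h4, h3]
    have e : (c : ℂ) * (al * z) = al * (c * z) := by ring
    rw [e]
    ring

/-! ### the twist -/

/-- the twist -/
noncomputable def Kt (Ω : ℂ) (F : ℂ → ℂ) (z : ℂ) : ℂ :=
  1 / 2 * ∑ᶠ y : RR ⧸ sp fR, e7 y.out * F (z + Ω * y.out / fR)

lemma Kt_eq [Fintype (RR ⧸ sp fR)] (F : ℂ → ℂ) (z : ℂ) :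
    Kt Ω F z = 1 / 2 * ∑ y : RR ⧸ sp fR, e7 y.out * F (z + Ω * y.out / fR) := by
  unfold Kt
  rw [finsum_eq_sum_of_fintype]

lemma fR_div (y : RR) : (7 : ℂ) * (Ω * y / fR) = Ω * ((-(y * fR) : RR) : ℂ) := by
  have h0 := Pool.Agent.TH936.PU.coe_ne fR_ne
  have h1 := congrArg (fun r : RR => (r : ℂ)) fR_sq
  push_cast at h1
  have h7 : ((7 : RR) : ℂ) = 7 := rfl
  rw [h7] at h1
  field_simp
  push_cast
  linear_combination (Ω * (y : ℂ)) * h1

lemma od_f (hL : IsLat L RR Ω) (y : RR) : Od L (Ω * y / fR) := by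
  refine ⟨7, by decide, ?_⟩
  have h1 := fR_div (Ω := Ω) y
  push_cast
  rw [h1]
  exact hL.mem_mul _

lemma sum_e7 [Fintype (RR ⧸ sp fR)] : ∑ y : RR ⧸ sp fR, e7 y.out = 0 := by
  have h1 : ∑ y : RR ⧸ sp fR, e7 y.out = ∑ y : RR ⧸ sp fR, e7 (-y.out) := by
    have h2 : IsCoprime (-1 : RR) fR := isCoprime_one_left.neg_left
    have h3 := sum_unit h2 (F := e7) (fun x y hxy => e7_per hxy)
    rw [← h3]
    refine Finset.sum_congr rfl fun y _ => ?_
    rw [neg_one_mul]
  simp only [e7_neg, Finset.sum_neg_distrib] at h1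
  linear_combination (1 / 2 : ℂ) * h1

section twist

variable {lam : RR → ℂ} {F : ℂ → ℂ}

lemma Do.pe (hF : Do L Ω lam F) (hL : IsLat L RR Ω) {z : ℂ} (hz : Od L z) :
    Pe fR (fun x => e7 x * F (z + Ω * x / fR)) := by
  intro x y hxy
  simp only
  rw [e7_per hxy]
  congr 1
  refine hF.per _ _ (hz.add (od_f hL y)) ?_
  have h3 := (div_mem_iff hL fR_ne (x - y)).2 hxy
  convert h3 using 1
  push_cast
  ring

lemma Do.neg_pt (hF : Do L Ω lam F) (hL : IsLat L RR Ω) {z : ℂ} (hz : Od L z)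
    [Fintype (RR ⧸ sp fR)] : ∑ y : RR ⧸ sp fR, e7 y.out * F (-z + Ω * y.out / fR) =
      ∑ y : RR ⧸ sp fR, e7 y.out * F (z + Ω * y.out / fR) := by
  have h2 : IsCoprime (-1 : RR) fR := isCoprime_one_left.neg_left
  have h3 := sum_unit h2 (hF.pe hL hz)
  rw [← h3]
  refine Finset.sum_congr rfl fun y _ => ?_
  rw [neg_one_mul, e7_neg]
  have e : z + Ω * ((-y.out : RR) : ℂ) / fR = -(-z + Ω * y.out / fR) := by
    push_cast
    ring
  rw [e, hF.od _ (hz.neg.add (od_f hL _))]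
  ring

theorem Kt_ds (hF : Do L Ω lam F) (hL : IsLat L RR Ω) :
    Ds L Ω (fun c => lam c * e7 c) (Kt Ω F) := by
  have f1 := fin_quot fR_ne
  let _ : Fintype (RR ⧸ sp fR) := Fintype.ofFinite _
  refine ⟨fun z w hz h => ?_, fun z hz => ?_, fun c hc _ z hz => ?_⟩
  · rw [Kt_eq, Kt_eq]
    congr 1
    refine Finset.sum_congr rfl fun y _ => ?_
    congr 1
    refine hF.per _ _ (hz.add (od_f hL _)) ?_
    convert h using 1
    ring
  · rw [Kt_eq, Kt_eq, hF.neg_pt hL hz]
  · simp only [Kt_eq]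
    rw [← Finset.mul_sum, Finset.sum_comm]
    have h1 : ∀ y : RR ⧸ sp fR, ∑ t : RR ⧸ sp c, e7 y.out * F (z + Ω * t.out / c +
        Ω * y.out / fR) = lam c * (e7 y.out * F (c * z + Ω * ((c * y.out : RR) : ℂ) / fR)) := by
      intro y
      have h2 := hF.dist c hc (z + Ω * y.out / fR) (hz.add (od_f hL _))
      rw [← Finset.mul_sum]
      have h3 : ∑ t : RR ⧸ sp c, F (z + Ω * t.out / c + Ω * y.out / fR) =
          ∑ t : RR ⧸ sp c, F (z + Ω * y.out / fR + Ω * t.out / c) :=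
        Finset.sum_congr rfl fun t _ => by congr 1; ring
      rw [h3, h2]
      have e : (c : ℂ) * (z + Ω * y.out / fR) = c * z + Ω * ((c * y.out : RR) : ℂ) / fR := by
        push_cast
        ring
      rw [e]
      ring
    rw [Finset.sum_congr rfl (fun y _ => h1 y), ← Finset.mul_sum]
    have hcz : Od L (c * z) := hz.smul hL c
    by_cases hcf : c ∈ sp fR
    · have h4 : e7 c = 0 := e7_eq_zero.2 hcf
      have h5 : ∀ y : RR ⧸ sp fR, e7 y.out * F (c * z + Ω * ((c * y.out : RR) : ℂ) / fR) =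
          e7 y.out * F (c * z) := by
        intro y
        congr 1
        refine hF.per _ _ hcz ?_
        rw [add_sub_cancel_left, div_mem_iff hL fR_ne]
        exact Ideal.mul_mem_right _ _ hcf
      rw [Finset.sum_congr rfl (fun y _ => h5 y), ← Finset.sum_mul, sum_e7, h4]
      ring
    · have hcop : IsCoprime c fR := by
        rw [isCoprime_comm]
        rw [Ideal.mem_span_singleton] at hcf
        exact (Irreducible.coprime_iff_not_dvd irr_fR).2 hcf
      have h4 := e7_sq hcf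
      have h5 := sum_unit hcop (hF.pe hL hcz)
      have h6 : ∑ y : RR ⧸ sp fR, e7 y.out * F (c * z + Ω * ((c * y.out : RR) : ℂ) / fR) =
          e7 c * ∑ y : RR ⧸ sp fR, e7 y.out * F (c * z + Ω * y.out / fR) := by
        rw [← h5, Finset.mul_sum]
        refine Finset.sum_congr rfl fun y _ => ?_
        rw [e7_mul]
        linear_combination (-(e7 y.out * F (c * z + Ω * ((c * y.out : RR) : ℂ) / fR))) * h4
      rw [h6]
      ring

end twist

/-! ### the congruence -/

section val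

variable {Γ : Type*} [LinearOrderedCommGroupWithZero Γ] {v : Valuation ℂ Γ}

lemma v_e7 (x : RR) : v (e7 x) ≤ 1 := by
  by_cases h : x ∈ sp fR
  · rw [e7_eq_zero.2 h, map_zero]
    exact zero_le_one
  · rcases sq_eq_one_iff.1 (e7_sq h) with h1 | h1 <;> rw [h1]
    · rw [map_one]
    · rw [Valuation.map_neg, map_one]

/-- the difference of the twists -/
lemma Kt_sub (F G : ℂ → ℂ) (z : ℂ) : Kt Ω F z - Kt Ω G z = Kt Ω (fun w => F w - G w) z := by
  have f1 := fin_quot fR_ne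
  let _ : Fintype (RR ⧸ sp fR) := Fintype.ofFinite _
  rw [Kt_eq, Kt_eq, Kt_eq, ← mul_sub, ← Finset.sum_sub_distrib]
  congr 1
  exact Finset.sum_congr rfl fun y _ => by ring

variable (hv : v al < 1)
include hv

lemma v_Kt (hL : IsLat L RR Ω) {F : ℂ → ℂ} {g : Γ} (hF : ∀ z, Od L z → v (F z) ≤ v 2 * g)
    {z : ℂ} (hz : Od L z) : v (Kt Ω F z) ≤ g := by
  have f1 := fin_quot fR_ne
  let _ : Fintype (RR ⧸ sp fR) := Fintype.ofFinite _
  rw [Kt_eq]
  have e : ∀ x : ℂ, 1 / 2 * x = x / 2 := fun x => by ring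
  rw [e]
  refine v_half (v_two0 hv) ?_
  refine Valuation.map_sum_le v fun y _ => ?_
  rw [map_mul]
  calc v (e7 y.out) * v (F (z + Ω * y.out / fR)) ≤ 1 * (v 2 * g) :=
        mul_le_mul' (v_e7 _) (hF _ (hz.add (od_f hL _)))
    _ = v 2 * g := one_mul _

/-- at the origin -/
lemma v_Kt_zero (hL : IsLat L RR Ω) {lam : RR → ℂ} {F : ℂ → ℂ}
    (hF1 : ∀ z w : ℂ, Od L z → w - z ∈ L.lattice → F w = F z)
    (hF2 : ∀ z : ℂ, Od L z → F (-z) = -F z) {a : ℂ}
    (ha : a ≠ 0) (hF : ∀ z, Od L z → v (F z) ≤ v a) : v (Kt Ω F 0) ≤ v a := by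
  classical
  have f1 := fin_quot fR_ne
  let _ : Fintype (RR ⧸ sp fR) := Fintype.ofFinite _
  have ha0 : v a ≠ 0 := (Valuation.ne_zero_iff v).2 ha
  rw [Kt_eq]
  have e : ∀ x : ℂ, 1 / 2 * x = x / 2 := fun x => by ring
  rw [e]
  refine v_half (v_two0 hv) ?_
  set f : RR ⧸ sp fR → ℂ := fun y => e7 y.out * F (0 + Ω * y.out / fR) with hf
  have hout : ∀ x : RR ⧸ sp fR, (-x).out - (-x.out) ∈ sp fR := by
    intro x
    rw [← Ideal.Quotient.mk_eq_mk_iff_sub_mem, Ideal.Quotient.mk_out, map_neg,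
      Ideal.Quotient.mk_out]
  have h0 : f 0 = 0 := by
    have h1 : Quotient.out (0 : RR ⧸ sp fR) ∈ sp fR := by
      rw [← Ideal.Quotient.eq_zero_iff_mem, Ideal.Quotient.mk_out]
    rw [hf]
    simp only
    rw [e7_eq_zero.2 h1, zero_mul]
  rw [← Finset.add_sum_erase _ _ (Finset.mem_univ (0 : RR ⧸ sp fR))]
  show v (f 0 + ∑ x ∈ Finset.univ.erase 0, f x) ≤ _
  rw [h0, zero_add]
  have key : v (∑ x ∈ (Finset.univ : Finset (RR ⧸ sp fR)).erase 0, f x / a) ≤ v 2 := by
    refine Pool.Agent.Y698.v_sum_pair' _ ?_ ?_ _ ?_ ?_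
    · intro x hx
      rw [Finset.mem_erase] at hx ⊢
      exact ⟨neg_ne_zero.2 hx.1, Finset.mem_univ _⟩
    · intro x hx hxx
      have hx0 := (Finset.mem_erase.1 hx).1
      apply hx0
      have h2 : (2 : RR ⧸ sp fR) * x = 0 := by
        rw [two_mul]
        nth_rewrite 1 [← hxx]
        rw [neg_add_cancel]
      have h3 : (7 : RR ⧸ sp fR) = 0 := by
        have h4 : Ideal.Quotient.mk (sp fR) (fR ^ 2) = 0 := by
          rw [Ideal.Quotient.eq_zero_iff_mem, pow_two]
          exact Ideal.mul_mem_right _ _ (Ideal.mem_span_singleton_self _)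
        rw [fR_sq, map_neg, map_ofNat, neg_eq_zero] at h4
        exact h4
      linear_combination x * h3 - 3 * h2
    · intro x _
      have h1 : f (-x) = f x := by
        rw [hf]
        simp only
        rw [zero_add, zero_add, e7_per (hout x), e7_neg]
        have h2 : F (Ω * ((-x).out : RR) / fR) = F (-(Ω * x.out / fR)) := by
          refine hF1 _ _ (od_f hL _).neg ?_
          have h3 := (div_mem_iff hL fR_ne ((-x).out - (-x.out))).2 (hout x)
          convert h3 using 1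
          push_cast
          ring
        rw [h2, hF2 _ (od_f hL _)]
        ring
      rw [h1]
    · intro x _
      rw [map_div₀, div_le_iff₀ (zero_lt_iff.2 ha0), one_mul, hf]
      simp only
      rw [map_mul, zero_add]
      calc v (e7 x.out) * v (F (Ω * x.out / fR)) ≤ 1 * v a :=
            mul_le_mul' (v_e7 _) (hF _ (od_f hL _))
        _ = v a := one_mul _
  rw [← Finset.sum_div, map_div₀, div_le_iff₀ (zero_lt_iff.2 ha0)] at key
  exact key

end val

end Pool.Agent.N843
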