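import Pool.Agent.N843.Wd
import Pool.Agent.Y698.Gd

/-!
# The link with the sums of weight one
-/

set_option autoImplicit false
set_option linter.unusedSectionVars false
set_option linter.unusedSimpArgs false

open Filter
open scoped Topology PeriodPair

namespace Pool.Agent.N843

open H667R3 Pool.Agent.TH936.CW Pool.Agent.W192.HK Pool.Agent.Y690.NV Pool.Agent.TH936.PU
open Pool.Agent.Y698 (RR al al_sq al_ne bl bl_ne al_mul_bl LD tA tB aR aR_coe bR bR_coe cX cY co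
  co_uniq al_im_pos Xx_per Tb v_two v_two_lt v_bl fin_quot aR_mul_bR two_coe e7 e7_per e7_mul
  e7_neg e7_one e7_eq_zero e7_sq fR fR_ne fR_sq irr_fR Gv GG G_dist nR)
open Pool.Agent.Y698.SG (Pe)
open Pool.Agent.TH936.CM (IsLat Dd zeta_sec)

variable {L : PeriodPair} {Ω p q : ℂ}

/-- the points of odd order prime to seven -/
def Nf (Ω z : ℂ) : Prop := ∃ n x : RR, Fo n ∧ IsCoprime fR n ∧ z = Ω * x / n

lemma Nf.smul {z : ℂ} (h : Nf Ω z) (r : RR) : Nf Ω (r * z) := by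
  obtain ⟨n, x, h1, h2, rfl⟩ := h
  refine ⟨n, r * x, h1, h2, ?_⟩
  push_cast
  ring

lemma Nf.bl {z : ℂ} (h : Nf Ω z) : Nf Ω (Pool.Agent.Y698.bl * z) := by
  have := h.smul bR
  rwa [bR_coe] at this

lemma Nf.neg {z : ℂ} (h : Nf Ω z) : Nf Ω (-z) := by
  have := h.smul (-1)
  convert this using 1
  push_cast
  ring

lemma Nf.od (hL : IsLat L RR Ω) {z : ℂ} (h : Nf Ω z) : Od L z := by
  obtain ⟨n, x, h1, h2, rfl⟩ := h
  exact h1.od hL x

lemma Nf.zero : Nf Ω 0 := ⟨1, 0, Fo.one, isCoprime_one_right, by simp⟩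

lemma Nf.nm (hL : IsLat L RR Ω) {z : ℂ} (h : Nf Ω z) {y : RR} (hy : y ∉ sp fR) :
    z + Ω * y / fR ∉ L.lattice := by
  obtain ⟨n, x, h1, h2, rfl⟩ := h
  have hn := Pool.Agent.TH936.PU.coe_ne h1.ne
  have hf := Pool.Agent.TH936.PU.coe_ne fR_ne
  intro h3
  have e : Ω * x / n + Ω * y / fR = Ω * ((x * fR + y * n : RR) : ℂ) / ((n * fR : RR) : ℂ) := by
    push_cast
    field_simp
  rw [e, div_mem_iff hL (mul_ne_zero h1.ne fR_ne)] at h3
  apply hy
  rw [Ideal.mem_span_singleton] at h3 ⊢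
  have h4 : fR ∣ x * fR + y * n := (Dvd.intro_left n rfl).trans h3
  have h5 : fR ∣ y * n := (dvd_add_right (Dvd.intro_left x rfl)).1 h4
  exact h2.dvd_of_dvd_mul_right h5

/-- the twisted sum -/
noncomputable def Pk (L : PeriodPair) (p q Ω : ℂ) (r : ℕ) (z : ℂ) : ℂ :=
  ∑ᶠ y : RR ⧸ sp fR, e7 y.out * ek L p q r (z + Ω * y.out / fR)

lemma Pk_eq [Fintype (RR ⧸ sp fR)] (r : ℕ) (z : ℂ) :
    Pk L p q Ω r z = ∑ y : RR ⧸ sp fR, e7 y.out * ek L p q r (z + Ω * y.out / fR) := by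
  unfold Pk
  rw [finsum_eq_sum_of_fintype]

lemma e7_bR : e7 bR = 1 := by
  have h : Pool.Agent.Y698.r7 bR = 4 := by
    rw [Pool.Agent.Y698.r7_apply]
    have e : cX bR = 1 ∧ cY bR = -1 := by
      apply Pool.Agent.Y698.cXY_of
      rw [bR_coe]
      unfold Pool.Agent.Y698.bl
      push_cast
      ring
    rw [e.1, e.2]
    decide
  unfold e7
  rw [h]
  have : quadraticChar (ZMod 7) 4 = 1 := by decide
  rw [this]
  norm_num

lemma cop_bR_fR : IsCoprime bR fR := by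
  rw [isCoprime_comm]
  refine (Irreducible.coprime_iff_not_dvd irr_fR).2 fun h => ?_
  rw [← Ideal.mem_span_singleton, ← e7_eq_zero, e7_bR] at h
  exact one_ne_zero h

section basic

variable (hL : IsLat L RR Ω) (hpq : ∀ l ∈ L.lattice, eta L l = p * l + q * (starRingEnd ℂ) l)
include hL hpq

lemma Pk_pe (r : ℕ) {z : ℂ} (hz : Nf Ω z) :
    Pe fR (fun x => e7 x * ek L p q r (z + Ω * x / fR)) := by
  intro x y hxy
  simp only
  rw [e7_per hxy]
  by_cases hy : y ∈ sp fR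
  · rw [e7_eq_zero.2 hy, zero_mul, zero_mul]
  · congr 1
    refine ek_per hpq r (hz.nm hL hy) ?_
    have h3 := (div_mem_iff hL fR_ne (x - y)).2 hxy
    convert h3 using 1
    push_cast
    ring

lemma Pk_per (r : ℕ) {z w : ℂ} (hz : Nf Ω z) (h : w - z ∈ L.lattice) :
    Pk L p q Ω r w = Pk L p q Ω r z := by
  have f1 := fin_quot fR_ne
  let _ : Fintype (RR ⧸ sp fR) := Fintype.ofFinite _
  rw [Pk_eq, Pk_eq]
  refine Finset.sum_congr rfl fun y _ => ?_
  by_cases hy : y.out ∈ sp fR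
  · rw [e7_eq_zero.2 hy, zero_mul, zero_mul]
  · congr 1
    refine ek_per hpq r (hz.nm hL hy) ?_
    convert h using 1
    ring

/-- the sums twice the distribution relation -/
theorem ek_bl2 (r : ℕ) {w : ℂ} (ho : Od L w) (hw : w ∉ L.lattice) :
    ek L p q r (T0 Ω + w) + ek L p q r (-T0 Ω + w) =
      gm r bl * (gm r bl * ek L p q r (bl * (bl * w)) - ek L p q r (bl * w)) := by
  obtain ⟨N, hN1, hN2⟩ := id ho
  have hb := bl_ne
  have hT4 := T0_four hL
  have hbw := ho.bl_ne hL hw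
  have hbb := (ho.bl hL).bl_ne hL hbw
  -- the first relation
  have hm : (bR : ℂ) * (T0 Ω + w) ∉ L.lattice := by
    rw [bR_coe, mul_add, T0_bl, add_comm]
    exact (ho.bl hL).B_add hL
  have hN3 : ((4 * N : ℕ) : ℂ) * (T0 Ω + w) ∈ L.lattice := by
    have := add_mem (nat_mul_mem hT4 N) (nat_mul_mem hN2 4)
    convert this using 1
    push_cast
    ring
  have k1 := ek_two hL hpq bR_ne0 bR_bij r (N := 4 * N) (by have := hN1.pos; omega) hN3 hm
  rw [bR_coe] at k1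
  have e1 : ek L p q r (T0 Ω + w + Ω / bl) = ek L p q r (-T0 Ω + w) := by
    refine ek_per hpq r (ho.Tn_add hL) ?_
    have h1 := hL.mem_mul (-bR)
    convert h1 using 1
    push_cast
    rw [bR_coe]
    have h2 : Ω / bl = Ω * (2 * al / 4) := tB_eq
    rw [h2]
    unfold T0 bl
    ring
  rw [e1, mul_add, T0_bl] at k1
  -- the second relation
  have k2 := ek_two hL hpq bR_ne0 bR_bij r hN1.pos (z := bl * w) (by
    have := bl_mem hL hN2
    convert this using 1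
    ring) (by rw [bR_coe]; exact hbb)
  rw [bR_coe] at k2
  have e2 : bl * w + Ω / bl = tB Ω + bl * w := by
    unfold tB
    ring
  rw [e2] at k2
  rw [k1]
  linear_combination (gm r bl) * k2

/-- the twist of the distributions in terms of the sums -/
theorem Kt_HS (r : ℕ) {z : ℂ} (hz : Nf Ω z) : Kt Ω (HS L p q Ω r) z =
    1 / 2 * ((r.factorial : ℂ) * (cT L Ω ^ (2 * r + 1) * (gm r bl *
      (gm r bl * Pk L p q Ω r (bl * (bl * z)) - Pk L p q Ω r (bl * z))))) := by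
  have f1 := fin_quot fR_ne
  let _ : Fintype (RR ⧸ sp fR) := Fintype.ofFinite _
  rw [Kt_eq]
  congr 1
  have key : ∀ w : ℂ, Nf Ω w → ∑ y : RR ⧸ sp fR, e7 y.out * ek L p q r
      (bl * w + Ω * ((bR * y.out : RR) : ℂ) / fR) = Pk L p q Ω r (bl * w) := by
    intro w hw
    have h1 := sum_unit cop_bR_fR (Pk_pe hL hpq r hw.bl)
    rw [Pk_eq, ← h1]
    refine Finset.sum_congr rfl fun y _ => ?_
    rw [e7_mul, e7_bR, one_mul]
  have key2 : ∑ y : RR ⧸ sp fR, e7 y.out * ek L p q r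
      (bl * (bl * z) + Ω * ((bR * (bR * y.out) : RR) : ℂ) / fR) =
        Pk L p q Ω r (bl * (bl * z)) := by
    rw [← key _ hz.bl]
    have h1 := sum_unit (F := fun x => e7 x * ek L p q r (bl * (bl * z) +
      Ω * ((bR * x : RR) : ℂ) / fR)) cop_bR_fR (by
        intro x y hxy
        have h2 := Pk_pe hL hpq r hz.bl.bl (bR * x) (bR * y) (by
          rw [← mul_sub]
          exact Ideal.mul_mem_left _ _ hxy)
        simp only [e7_mul, e7_bR, one_mul] at h2
        exact h2)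
    rw [← h1]
    refine Finset.sum_congr rfl fun y _ => ?_
    rw [e7_mul, e7_bR, one_mul]
  have hterm : ∀ y : RR ⧸ sp fR, e7 y.out * HS L p q Ω r (z + Ω * y.out / fR) =
      ((r.factorial : ℂ) * cT L Ω ^ (2 * r + 1) * gm r bl * gm r bl) *
        (e7 y.out * ek L p q r (bl * (bl * z) + Ω * ((bR * (bR * y.out) : RR) : ℂ) / fR)) -
      ((r.factorial : ℂ) * cT L Ω ^ (2 * r + 1) * gm r bl) *
        (e7 y.out * ek L p q r (bl * z + Ω * ((bR * y.out : RR) : ℂ) / fR)) := by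
    intro y
    by_cases hy : y.out ∈ sp fR
    · rw [e7_eq_zero.2 hy]
      ring
    · have hn := hz.nm hL hy
      rw [HS_of hn, ek_bl2 hL hpq r ((hz.od hL).add (od_f hL _)) hn]
      have e1 : bl * (z + Ω * y.out / fR) = bl * z + Ω * ((bR * y.out : RR) : ℂ) / fR := by
        push_cast
        rw [bR_coe]
        ring
      have e2 : bl * (bl * z + Ω * ((bR * y.out : RR) : ℂ) / fR) =
          bl * (bl * z) + Ω * ((bR * (bR * y.out) : RR) : ℂ) / fR := by
        push_cast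
        rw [bR_coe]
        ring
      rw [e1, e2]
      ring
  rw [Finset.sum_congr rfl (fun y _ => hterm y), Finset.sum_sub_distrib, ← Finset.mul_sum,
    ← Finset.mul_sum, key2, key _ hz]
  ring

end basic

/-! ### weight one -/

lemma e1_sec {w z : ℂ} (hw : w ∉ L.lattice) (hz : z ∉ L.lattice) (h1 : w + z ∉ L.lattice)
    (h2 : w - z ∉ L.lattice) :
    E1 L p q (w + z) + E1 L p q (w - z) - 2 * E1 L p q w = Dd L w z := by
  rw [← zeta_sec hw hz h1 h2]
  unfold E1 Xx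
  rw [map_add, map_sub]
  ring

theorem Pk_HH (hL : IsLat L RR Ω)
    (hpq : ∀ l ∈ L.lattice, eta L l = p * l + q * (starRingEnd ℂ) l) [Fintype (RR ⧸ sp fR)]
    {z : ℂ} (hz : Nf Ω z) (hn : z ∉ L.lattice) :
    Pk L p q Ω 0 z = Pool.Agent.TH936.PU.HH L Ω fR e7 z + Pk L p q Ω 0 0 := by
  have h1 := sum_unit (isCoprime_one_left.neg_left : IsCoprime (-1 : RR) fR)
    (Pk_pe hL hpq 0 hz)
  have hneg : ∀ y : RR ⧸ sp fR, e7 (-1 * y.out) * ek L p q 0 (z + Ω * ((-1 * y.out : RR) : ℂ) / fR) =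
      e7 y.out * ek L p q 0 (Ω * y.out / fR - z) := by
    intro y
    rw [neg_one_mul, e7_neg]
    by_cases hy : y.out ∈ sp fR
    · rw [e7_eq_zero.2 hy]
      ring
    · have hn1 : Ω * y.out / fR - z ∉ L.lattice := by
        have := hz.neg.nm hL hy
        rwa [neg_add_eq_sub] at this
      have e : z + Ω * ((-y.out : RR) : ℂ) / fR = -(Ω * y.out / fR - z) := by
        push_cast
        ring
      rw [e, ekp_neg 0 hn1]
      ring
  rw [Finset.sum_congr rfl (fun y _ => hneg y)] at h1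
  have h0 : Pk L p q Ω 0 0 = ∑ y : RR ⧸ sp fR, e7 y.out * ek L p q 0 (Ω * y.out / fR) := by
    rw [Pk_eq]
    simp only [zero_add]
  have h2 : Pool.Agent.TH936.PU.HH L Ω fR e7 z = 1 / 2 * (∑ y : RR ⧸ sp fR, e7 y.out *
      ek L p q 0 (z + Ω * y.out / fR) + ∑ y : RR ⧸ sp fR, e7 y.out *
      ek L p q 0 (Ω * y.out / fR - z) - 2 * ∑ y : RR ⧸ sp fR, e7 y.out *
        ek L p q 0 (Ω * y.out / fR)) := by
    unfold Pool.Agent.TH936.PU.HH
    rw [← Finset.sum_add_distrib, Finset.mul_sum, Finset.mul_sum, ← Finset.sum_sub_distrib,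
      Finset.mul_sum]
    refine Finset.sum_congr rfl fun y _ => ?_
    by_cases hy : y.out ∈ sp fR
    · rw [e7_eq_zero.2 hy]
      ring
    · have n0 : Ω * y.out / fR ∉ L.lattice := by
        have := (Nf.zero (Ω := Ω)).nm hL hy
        rwa [zero_add] at this
      have n1 := hz.nm hL hy
      have n2 : Ω * y.out / fR - z ∉ L.lattice := by
        have := hz.neg.nm hL hy
        rwa [neg_add_eq_sub] at this
      rw [ek_zero n0, ek_zero n1, ek_zero n2]
      rw [add_comm] at n1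
      rw [← e1_sec (p := p) (q := q) n0 hn n1 n2, add_comm z]
      ring
  rw [h2, h1, h0, Pk_eq]
  ring

/-- the sums of weight one agree -/
theorem Pk_Gv (hL : IsLat L RR Ω)
    (hpq : ∀ l ∈ L.lattice, eta L l = p * l + q * (starRingEnd ℂ) l) [Fintype (RR ⧸ sp fR)]
    {T : ℂ} (hT : Tendsto (fun δ : ℝ => GG Ω δ 1) (𝓝[>] 0) (𝓝 T)) {z : ℂ} (hz : Nf Ω z) :
    Pk L p q Ω 0 z = Gv L Ω T z := by
  have key : ∀ w : ℂ, Nf Ω w → Pk L p q Ω 0 w = Gv L Ω T w + (Pk L p q Ω 0 0 - T) := by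
    intro w hw
    unfold Gv
    by_cases h : w ∈ L.lattice
    · rw [if_pos h, Pk_per hL hpq 0 Nf.zero (by rwa [sub_zero])]
      ring
    · rw [if_neg h, Pk_HH hL hpq hw h]
      ring
  -- the constant
  have f5 : Fo (5 : RR) := ⟨1, by norm_num⟩
  have c5 : IsCoprime fR (5 : RR) := ⟨2 * fR, 3, by linear_combination 2 * fR_sq⟩
  have n5 : nR (5 : RR) = 25 := by
    have e : cX (5 : RR) = 5 ∧ cY (5 : RR) = 0 := by
      apply Pool.Agent.Y698.cXY_of
      push_cast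
      have : ((5 : RR) : ℂ) = 5 := rfl
      rw [this]
      ring
    unfold nR
    rw [e.1, e.2]
    norm_num
  have e5 : e7 (5 : RR) = -1 := by
    have h : Pool.Agent.Y698.r7 (5 : RR) = 5 := by
      rw [map_ofNat]
    unfold e7
    rw [h]
    have : quadraticChar (ZMod 7) 5 = -1 := by decide
    rw [this]
    norm_num
  have f1 := fin_quot f5.ne
  let _ : Fintype (RR ⧸ sp (5 : RR)) := Fintype.ofFinite _
  have hcard : (Fintype.card (RR ⧸ sp (5 : RR)) : ℂ) = 25 := by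
    have h1 := Pd.card (ϖ := (5 : RR))
    rw [n5, Nat.card_eq_fintype_card] at h1
    exact_mod_cast congrArg (fun t : ℤ => (t : ℂ)) h1
  have h5C : ((5 : RR) : ℂ) = 5 := rfl
  have g1 := G_dist hL hT f5.ne f5.ne c5 c5 1
  have hpt : ∀ t : RR, Ω * ((1 + 5 * t : RR) : ℂ) / ((5 * 5 : RR) : ℂ) =
      Ω * ((1 : RR) : ℂ) / ((5 * 5 : RR) : ℂ) + Ω * t / ((5 : RR) : ℂ) := by
    intro t
    push_cast
    rw [h5C]
    field_simp
  have hnf : ∀ t : RR, Nf Ω (Ω * ((1 + 5 * t : RR) : ℂ) / ((5 * 5 : RR) : ℂ)) := fun t =>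
    ⟨5 * 5, 1 + 5 * t, f5.mul f5, c5.mul_right c5, rfl⟩
  have hnf5 : Nf Ω (Ω * ((1 : RR) : ℂ) / ((5 : RR) : ℂ)) := ⟨5, 1, f5, c5, rfl⟩
  -- the distribution relation for the sums
  have g2 : ∑ t : RR ⧸ sp (5 : RR), Pk L p q Ω 0 (Ω * ((1 + 5 * t.out : RR) : ℂ) /
      ((5 * 5 : RR) : ℂ)) = 5 * e7 5 * Pk L p q Ω 0 (Ω * ((1 : RR) : ℂ) / ((5 : RR) : ℂ)) := by
    simp only [Pk_eq]
    rw [Finset.sum_comm]
    have h1 : ∀ y : RR ⧸ sp fR, ∑ t : RR ⧸ sp (5 : RR), e7 y.out * ek L p q 0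
        (Ω * ((1 + 5 * t.out : RR) : ℂ) / ((5 * 5 : RR) : ℂ) + Ω * y.out / fR) =
        5 * (e7 y.out * ek L p q 0 (Ω * ((1 : RR) : ℂ) / ((5 : RR) : ℂ) +
          Ω * ((5 * y.out : RR) : ℂ) / fR)) := by
      intro y
      by_cases hy : y.out ∈ sp fR
      · rw [e7_eq_zero.2 hy]
        simp
      · rw [← Finset.mul_sum]
        have hod : Od L (Ω * ((1 : RR) : ℂ) / ((5 * 5 : RR) : ℂ) + Ω * y.out / fR) :=
          ((f5.mul f5).od hL 1).add (od_f hL _)
        obtain ⟨N, hN1, hN2⟩ := hod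
        have e : ((5 : RR) : ℂ) * (Ω * ((1 : RR) : ℂ) / ((5 * 5 : RR) : ℂ) + Ω * y.out / fR) =
            Ω * ((1 : RR) : ℂ) / ((5 : RR) : ℂ) + Ω * ((5 * y.out : RR) : ℂ) / fR := by
          push_cast
          rw [h5C]
          field_simp
        have hy5 : (5 * y.out : RR) ∉ sp fR := by
          intro h
          rw [Ideal.mem_span_singleton] at h hy
          exact hy (c5.dvd_of_dvd_mul_left h)
        have h2 := ekp_dist (p := p) (q := q) hpq hL 0 (5 : RR) f5.ne (z :=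
          Ω * ((1 : RR) : ℂ) / ((5 * 5 : RR) : ℂ) + Ω * y.out / fR)
          (by rw [e]; exact hnf5.nm hL hy5) hN1.pos hN2
        rw [e, gm_zero, h5C] at h2
        have h3 : ∑ t : RR ⧸ sp (5 : RR), ek L p q 0 (Ω * ((1 + 5 * t.out : RR) : ℂ) /
            ((5 * 5 : RR) : ℂ) + Ω * y.out / fR) = ∑ t : RR ⧸ sp (5 : RR), ek L p q 0
            (Ω * ((1 : RR) : ℂ) / ((5 * 5 : RR) : ℂ) + Ω * y.out / fR +
              Ω * t.out / (5 : ℂ)) := by
          refine Finset.sum_congr rfl fun t _ => ?_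
          rw [hpt, h5C]
          congr 1
          ring
        rw [h3, h2, h5C]
        ring
    rw [Finset.sum_congr rfl (fun y _ => h1 y), ← Finset.mul_sum]
    have c5' : IsCoprime (5 : RR) fR := c5.symm
    have h4 := sum_unit c5' (Pk_pe hL hpq 0 hnf5)
    rw [← h4]
    have e55 : e7 (5 : RR) * e7 5 = 1 := by rw [e5]; norm_num
    rw [Finset.mul_sum, Finset.mul_sum]
    refine Finset.sum_congr rfl fun y _ => ?_
    rw [e7_mul]
    linear_combination (-(5 * (e7 y.out * ek L p q 0 (Ω * ((1 : RR) : ℂ) / ((5 : RR) : ℂ) +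
          Ω * ((5 * y.out : RR) : ℂ) / fR)))) * e55
  have g3 : ∑ t : RR ⧸ sp (5 : RR), Pk L p q Ω 0 (Ω * ((1 + 5 * t.out : RR) : ℂ) /
      ((5 * 5 : RR) : ℂ)) = ∑ t : RR ⧸ sp (5 : RR), Gv L Ω T (Ω * ((1 + 5 * t.out : RR) : ℂ) /
      ((5 * 5 : RR) : ℂ)) + 25 * (Pk L p q Ω 0 0 - T) := by
    rw [Finset.sum_congr rfl (fun t _ => key _ (hnf t.out)), Finset.sum_add_distrib,
      Finset.sum_const, nsmul_eq_mul, Finset.card_univ, hcard]
  rw [g2, g1, key _ hnf5, e5, h5C] at g3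
  have hδ : Pk L p q Ω 0 0 - T = 0 := by
    linear_combination (-1 / 30 : ℂ) * g3
  rw [key z hz, hδ, add_zero]

end Pool.Agent.N843
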