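import Pool.Agent.N843.We
import Pool.Agent.Y698.SG.Wn

/-!
# The weighted sums of the twisted distributions
-/

set_option autoImplicit false
set_option linter.unusedSectionVars false
set_option linter.unusedSimpArgs false

open Filter
open scoped Topology PeriodPair

namespace Pool.Agent.N843

open H667R3 Pool.Agent.TH936.CW Pool.Agent.W192.HK Pool.Agent.Y690.NV Pool.Agent.TH936.PU
open Pool.Agent.Y698 (RR al al_sq al_ne bl bl_ne al_mul_bl LD tA tB aR aR_coe bR bR_coe cX cY co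
  co_uniq al_im_pos Xx_per Tb v_two v_two_lt v_bl fin_quot aR_mul_bR two_coe e7 e7_per e7_mul
  e7_neg e7_one e7_eq_zero e7_sq fR fR_ne fR_sq irr_fR Gv GG G_dist nR nR_mul nR_fR)
open Pool.Agent.Y698.SG (Pe sy sy_per sy_val sy_sgn tr tr_per tr_mul Mu hc hc_val hc_per
  sp_mem_iff prime_mem Rd lg lg_one v_RR sgn_prod PD Fam Bg Bg_eq gd S_REC mc mr Gd e7_sgn)
open Pool.Agent.TH936.CM (IsLat)

variable {L : PeriodPair} {Ω p q : ℂ}

/-! ### the primes -/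

lemma Pd.cop_fR {ϖ : RR} (h : Pd ϖ) : IsCoprime fR ϖ := by
  refine (Irreducible.coprime_iff_not_dvd irr_fR).2 fun hd => ?_
  obtain ⟨c, hc⟩ := hd
  have h1 : IsUnit c := (h.pr.irreducible.isUnit_or_isUnit hc).resolve_left irr_fR.not_isUnit
  have h2 : nR ϖ = 7 := by
    rw [hc, nR_mul, nR_fR]
    rcases Pool.Agent.Y698.isUnit_iff.1 h1 with h2 | h2
    · have e : cX (1 : RR) = 1 ∧ cY (1 : RR) = 0 := by
        apply Pool.Agent.Y698.cXY_of
        push_cast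
        ring
      rw [h2]
      unfold nR
      rw [e.1, e.2]
      norm_num
    · have e : cX (-1 : RR) = -1 ∧ cY (-1 : RR) = 0 := by
        apply Pool.Agent.Y698.cXY_of
        push_cast
        ring
      rw [h2]
      unfold nR
      rw [e.1, e.2]
      norm_num
  have h3 := h.fo.nR
  rw [h2] at h3
  omega

lemma Pd.PD {ϖ : RR} (h : Pd ϖ) : PD ϖ :=
  ⟨h.pr, by
    obtain ⟨u, hu⟩ := h.fo
    exact ⟨u, by linear_combination hu⟩, h.cop_fR, h.mul, h.neg⟩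

variable {ι : Type} {π : ι → RR}

lemma Fm.fam {S : Finset ι} (h : Fm S π) : Fam S π := ⟨fun i hi => (h.pd i hi).PD, h.ne⟩

lemma Fm.cop_fR {S : Finset ι} (h : Fm S π) : IsCoprime fR (∏ i ∈ S, π i) :=
  IsCoprime.prod_right fun i hi => (h.pd i hi).cop_fR

lemma Fm.nf {S : Finset ι} (h : Fm S π) (x : RR) :
    Nf Ω (Ω * x / ((∏ i ∈ S, π i : RR) : ℂ)) := ⟨_, x, h.fo, h.cop_fR, rfl⟩

lemma e7_aR : e7 aR = 1 := by
  have h := congrArg e7 aR_mul_bR
  have h2 : e7 (2 : RR) = 1 := by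
    have h : Pool.Agent.Y698.r7 (2 : RR) = 2 := by
      rw [map_ofNat]
    unfold e7
    rw [h]
    have : quadraticChar (ZMod 7) 2 = 1 := by decide
    rw [this]
    norm_num
  rw [e7_mul, e7_bR, mul_one, h2] at h
  exact h

/-! ### the weighted sums -/

section basic

variable (hL : IsLat L RR Ω) (hpq : ∀ l ∈ L.lattice, eta L l = p * l + q * (starRingEnd ℂ) l)
include hL hpq

lemma ch_Pk_pe {A : Finset ι} (hA : Fm A π) (r : ℕ) :
    Pe (∏ i ∈ A, π i) (fun x => ch π A x * Pk L p q Ω r (Ω * x / ((∏ i ∈ A, π i : RR) : ℂ))) := by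
  intro x y hxy
  simp only
  rw [ch_per π A x y hxy]
  congr 1
  refine Pk_per hL hpq r (hA.nf y) ?_
  have h1 := (div_mem_iff hL hA.fo.ne (x - y)).2 hxy
  convert h1 using 1
  push_cast
  ring

/-- the weighted sums for the twisted distributions -/
theorem Bd_KH {A : Finset ι} (hA : Fm A π) (r : ℕ) :
    Bd Ω (Kt Ω (HS L p q Ω r)) (∏ i ∈ A, π i) (ch π A) =
      1 / 2 * ((r.factorial : ℂ) * (cT L Ω ^ (2 * r + 1) * (gm r bl *
        (gm r bl - ch π A bR)))) * Bd Ω (Pk L p q Ω r) (∏ i ∈ A, π i) (ch π A) := by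
  have f1 := fin_quot hA.fo.ne
  let _ : Fintype (RR ⧸ sp (∏ i ∈ A, π i)) := Fintype.ofFinite _
  have hs := ch_sq hA (x := bR) fun i hi => (hA.pd i hi).bR
  have hpe := ch_Pk_pe hL hpq hA r
  set n : RR := ∏ i ∈ A, π i with hn
  have hcb : IsCoprime bR n := hA.fo.cop_bR
  have k1 := sum_unit hcb hpe
  have k2 := sum_unit (u := bR * bR) (hcb.mul_left hcb) hpe
  rw [Bd_eq, Bd_eq]
  have h2 : ∀ x : RR ⧸ sp n, ch π A x.out * Kt Ω (HS L p q Ω r) (Ω * x.out / (n : ℂ)) =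
      1 / 2 * ((r.factorial : ℂ) * (cT L Ω ^ (2 * r + 1) * (gm r bl * gm r bl))) *
        (ch π A (bR * bR * x.out) * Pk L p q Ω r
          (Ω * ((bR * bR * x.out : RR) : ℂ) / (n : ℂ))) -
      1 / 2 * ((r.factorial : ℂ) * (cT L Ω ^ (2 * r + 1) * (gm r bl * ch π A bR))) *
        (ch π A (bR * x.out) * Pk L p q Ω r (Ω * ((bR * x.out : RR) : ℂ) / (n : ℂ))) := by
    intro x
    have e1 : Ω * ((bR * bR * x.out : RR) : ℂ) / (n : ℂ) = bl * (bl * (Ω * x.out / (n : ℂ))) := by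
      push_cast
      rw [bR_coe]
      ring
    have e2 : Ω * ((bR * x.out : RR) : ℂ) / (n : ℂ) = bl * (Ω * x.out / (n : ℂ)) := by
      push_cast
      rw [bR_coe]
      ring
    rw [Kt_HS hL hpq r (hA.nf _), hA.ch_mul, hA.ch_mul bR bR, hA.ch_mul bR, e1, e2]
    linear_combination (-(ch π A x.out * (1 / 2 * ((r.factorial : ℂ) * (cT L Ω ^ (2 * r + 1) *
      (gm r bl * (gm r bl * Pk L p q Ω r (bl * (bl * (Ω * x.out / (n : ℂ)))) -
        Pk L p q Ω r (bl * (Ω * x.out / (n : ℂ)))))))))) * hs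
  rw [Finset.sum_congr rfl (fun x _ => h2 x), Finset.sum_sub_distrib, ← Finset.mul_sum,
    ← Finset.mul_sum, k1, k2]
  ring

/-- the twist of the depleted distribution -/
lemma Kt_HD {z : ℂ} (hz : Od L z) : Kt Ω (HD L p q Ω) z =
    Kt Ω (HS L p q Ω 0) z - bl⁻¹ * Kt Ω (HS L p q Ω 0) (al * z) := by
  have f1 := fin_quot fR_ne
  let _ : Fintype (RR ⧸ sp fR) := Fintype.ofFinite _
  have hcop : IsCoprime aR fR := by
    rw [isCoprime_comm]
    refine (Irreducible.coprime_iff_not_dvd irr_fR).2 fun h => ?_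
    rw [← Ideal.mem_span_singleton, ← e7_eq_zero, e7_aR] at h
    exact one_ne_zero h
  have h1 := sum_unit hcop ((HS_do hL hpq 0).pe hL (hz.al hL))
  rw [Kt_eq, Kt_eq, Kt_eq, ← h1]
  have h2 : ∀ y : RR ⧸ sp fR, e7 y.out * HD L p q Ω (z + Ω * y.out / fR) =
      e7 y.out * HS L p q Ω 0 (z + Ω * y.out / fR) - bl⁻¹ * (e7 (aR * y.out) *
        HS L p q Ω 0 (al * z + Ω * ((aR * y.out : RR) : ℂ) / fR)) := by
    intro y
    have e : al * (z + Ω * y.out / fR) = al * z + Ω * ((aR * y.out : RR) : ℂ) / fR := by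
      push_cast
      rw [aR_coe]
      ring
    unfold HD
    rw [e7_mul, e7_aR, e]
    ring
  rw [Finset.sum_congr rfl (fun y _ => h2 y), Finset.sum_sub_distrib, ← Finset.mul_sum]
  ring

theorem Bd_KD {A : Finset ι} (hA : Fm A π) :
    Bd Ω (Kt Ω (HD L p q Ω)) (∏ i ∈ A, π i) (ch π A) =
      (1 - ch π A aR * bl⁻¹) * Bd Ω (Kt Ω (HS L p q Ω 0)) (∏ i ∈ A, π i) (ch π A) := by
  have hG := Kt_ds (HS_do hL hpq 0) hL
  have hfo := hA.fo
  have f1 := fin_quot hfo.ne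
  let _ : Fintype (RR ⧸ sp (∏ i ∈ A, π i)) := Fintype.ofFinite _
  have hs := ch_sq hA (x := aR) fun i hi => (hA.pd i hi).aR
  have hper : Pe (∏ i ∈ A, π i) (fun x => ch π A x * Kt Ω (HS L p q Ω 0)
      (Ω * x / ((∏ i ∈ A, π i : RR) : ℂ))) := fun x y hxy =>
    Bd_term hG hL hfo (ch_per π A) hxy
  set n : RR := ∏ i ∈ A, π i with hn
  have h1 := sum_unit hfo.cop_aR hper
  rw [Bd_eq, Bd_eq]
  have h2 : ∀ x : RR ⧸ sp n, ch π A x.out * Kt Ω (HD L p q Ω) (Ω * x.out / (n : ℂ)) =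
      ch π A x.out * Kt Ω (HS L p q Ω 0) (Ω * x.out / (n : ℂ)) - (ch π A aR * bl⁻¹) *
        (ch π A (aR * x.out) * Kt Ω (HS L p q Ω 0)
          (Ω * ((aR * x.out : RR) : ℂ) / (n : ℂ))) := by
    intro x
    have e : Ω * ((aR * x.out : RR) : ℂ) / (n : ℂ) = al * (Ω * x.out / (n : ℂ)) := by
      push_cast
      rw [aR_coe]
      ring
    rw [Kt_HD hL hpq (hfo.od hL _), hA.ch_mul, e]
    linear_combination (ch π A x.out * bl⁻¹ * Kt Ω (HS L p q Ω 0)
      (al * (Ω * x.out / (n : ℂ)))) * hs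
  rw [Finset.sum_congr rfl (fun x _ => h2 x), Finset.sum_sub_distrib, ← Finset.mul_sum, h1]
  ring

/-- weight one -/
theorem Bd_Pk0 [Fintype (RR ⧸ sp fR)] {T : ℂ}
    (hT : Tendsto (fun δ : ℝ => GG Ω δ 1) (𝓝[>] 0) (𝓝 T)) {A : Finset ι} (hA : Fm A π) :
    Bd Ω (Pk L p q Ω 0) (∏ i ∈ A, π i) (ch π A) =
      Bg L Ω T (∏ i ∈ A, π i) (fun m => ∏ i ∈ A, sy (π i) m) := by
  have f1 := fin_quot hA.fo.ne
  let _ : Fintype (RR ⧸ sp (∏ i ∈ A, π i)) := Fintype.ofFinite _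
  rw [Bd_eq, Bg_eq]
  refine Finset.sum_congr rfl fun x _ => ?_
  rw [Pk_Gv hL hpq hT (hA.nf _)]
  rfl

end basic

end Pool.Agent.N843
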