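import Pool.Agent.N843.Wf
import Pool.Agent.Y698.Cv

/-!
# The valuations of the weighted sums in the even weights
-/

set_option autoImplicit false
set_option linter.unusedSectionVars false
set_option linter.unusedSimpArgs false

open Filter
open scoped Topology PeriodPair

namespace Pool.Agent.N843

open H667R3 Pool.Agent.TH936.CW Pool.Agent.W192.HK Pool.Agent.Y690.NV Pool.Agent.TH936.PU
open Pool.Agent.Y698 (RR al al_sq al_ne bl bl_ne al_mul_bl LD tA tB aR aR_coe bR bR_coe cX cY co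
  co_uniq al_im_pos Xx_per Tb v_two v_two_lt v_bl fin_quot aR_mul_bR two_coe e7 e7_per e7_mul
  e7_neg e7_one e7_eq_zero e7_sq fR fR_ne fR_sq irr_fR Gv GG G_dist nR nR_mul nR_fR)
open Pool.Agent.Y698.SG (Pe sy sy_per sy_val sy_sgn tr tr_per tr_mul Mu hc hc_val hc_per
  sp_mem_iff prime_mem Rd lg lg_one v_RR sgn_prod PD Fam Bg Bg_eq gd S_REC mc mr Gd e7_sgn)
open Pool.Agent.TH936.CM (IsLat)

variable {L : PeriodPair} {Ω p q : ℂ}
variable {ι : Type} [DecidableEq ι] {π : ι → RR}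

section val

variable {Γ : Type*} [LinearOrderedCommGroupWithZero Γ] {v : Valuation ℂ Γ}
variable (hv : v al < 1)
include hv

/-- the normalized sums of weight one are integral -/
lemma v_Bg (hrec : S_REC) (h : LD L Ω) [Fintype (RR ⧸ sp fR)] {T : ℂ}
    (hT : Tendsto (fun δ : ℝ => GG Ω δ 1) (𝓝[>] 0) (𝓝 T)) {S0 : Finset ι} (hS0 : Fm S0 π)
    {A : Finset ι} (hA : A ⊆ S0) :
    Rd v (Bg L Ω T (∏ i ∈ A, π i) (fun m => ∏ i ∈ A, sy (π i) m) / (2 ^ A.card * T))
      (gd (mc π) (mr π) A) := by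
  have hL := h.lat
  have hvT := h.v_T hv hT
  have h1 := Pool.Agent.Y698.SG.ind (v := v) (n := 1) (φ := fun _ => 1) (K := 1) hrec hL hT hv hvT
    Gd.one (fun _ _ _ => rfl) one_ne_zero
    (by rw [Pool.Agent.Y698.SG.Bg_one hL, div_one, sub_self, map_zero]; exact zero_lt_one)
    hS0.fam (fun i _ m => by ring)
    (by
      intro A hA hne
      rw [div_one, mul_one]
      simp only [one_mul]
      exact Pool.Agent.Y698.SG.Bg_hc h hv hvT (hS0.fam.mono hA) hne) A hA
  rw [mul_one] at h1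
  simp only [one_mul] at h1
  exact h1

/-- the normalized sums of weight one -/
lemma v_bbP (hrec : S_REC) (h : LD L Ω)
    (hpq : ∀ l ∈ L.lattice, eta L l = p * l + q * (starRingEnd ℂ) l)
    {S0 : Finset ι} (hS0 : Fm S0 π) {A : Finset ι} (hA : A ⊆ S0) :
    v (bb Ω (Pk L p q Ω 0) π A) ≤ 1 ∧
      (gd (mc π) (mr π) A ≠ 0 → v (bb Ω (Pk L p q Ω 0) π A) = 1) := by
  have hL := h.lat
  have f1 := fin_quot fR_ne
  let _ : Fintype (RR ⧸ sp fR) := Fintype.ofFinite _
  obtain ⟨F0, -, -, k3⟩ := Pool.Agent.Y698.val_one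
  have hT := k3 L Ω hL
  have hvT := h.v_T hv hT
  have hR := v_Bg hv hrec h hT hS0 hA
  set T := 2 * (starRingEnd ℂ) (F0 1) * fR / Ω with hTd
  have hT0 : T ≠ 0 := by
    intro h0
    rw [h0, map_zero] at hvT
    exact zero_ne_one hvT
  have e : bb Ω (Pk L p q Ω 0) π A =
      Bg L Ω T (∏ i ∈ A, π i) (fun m => ∏ i ∈ A, sy (π i) m) / (2 ^ A.card * T) * T := by
    unfold bb
    rw [Bd_Pk0 hL hpq hT (hS0.mono hA)]
    field_simp
  rw [e, map_mul, hvT, mul_one]
  refine ⟨hR.le, fun hg => ?_⟩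
  rw [(Pool.Agent.Y698.SG.zm2 _).resolve_left hg, Rd.one_iff] at hR
  set a := Bg L Ω T (∏ i ∈ A, π i) (fun m => ∏ i ∈ A, sy (π i) m) / (2 ^ A.card * T)
  have e : a = 1 + (a - 1) := by ring
  rw [e]
  exact v.map_one_add_of_lt hR

omit hv in
lemma bl_sub_one : (bl : ℂ) - 1 = -al := by
  unfold bl
  ring

omit hv in
lemma bl_add_one : (bl : ℂ) + 1 = -(al * al) := by
  unfold bl
  linear_combination al_sq

lemma v_bl_sub {s : ℂ} (hs : s = 1 ∨ s = -1) : v (bl - s) ≤ v 2 := by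
  rcases hs with rfl | rfl
  · rw [bl_sub_one, Valuation.map_neg, v_two hv]
  · rw [sub_neg_eq_add, bl_add_one, Valuation.map_neg, map_mul, v_two hv]
    exact mul_le_of_le_one_right' hv.le

lemma v_bl_sub_one : v (bl - 1) = v 2 := by
  rw [bl_sub_one, Valuation.map_neg, v_two hv]

lemma v_c2 (h : LD L Ω) : v (cT L Ω / 2) = 1 := by
  rw [map_div₀, v_cT h hv, v_two hv, div_self]
  exact v_al0

omit hv [DecidableEq ι] in
lemma bb_KH (hL : IsLat L RR Ω)
    (hpq : ∀ l ∈ L.lattice, eta L l = p * l + q * (starRingEnd ℂ) l) {A : Finset ι}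
    (hA : Fm A π) : bb Ω (Kt Ω (HS L p q Ω 0)) π A =
      cT L Ω / 2 * bl * (bl - ch π A bR) * bb Ω (Pk L p q Ω 0) π A := by
  unfold bb
  rw [Bd_KH hL hpq hA, gm_zero]
  simp only [Nat.factorial_zero, Nat.cast_one, mul_zero, zero_add, pow_one]
  ring

omit hv [DecidableEq ι] in
lemma bb_KD (hL : IsLat L RR Ω)
    (hpq : ∀ l ∈ L.lattice, eta L l = p * l + q * (starRingEnd ℂ) l) {A : Finset ι}
    (hA : Fm A π) : bb Ω (Kt Ω (HD L p q Ω)) π A =
      (bl - ch π A aR) * (cT L Ω / 2 * (bl - ch π A bR) * bb Ω (Pk L p q Ω 0) π A) := by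
  have hb := bl_ne
  have e : bb Ω (Kt Ω (HD L p q Ω)) π A = (1 - ch π A aR * bl⁻¹) *
      bb Ω (Kt Ω (HS L p q Ω 0)) π A := by
    unfold bb
    rw [Bd_KD hL hpq hA]
    ring
  rw [e, bb_KH hL hpq hA]
  field_simp

/-- the sums of the depleted distribution -/
lemma v_bbKD (hrec : S_REC) (h : LD L Ω)
    (hpq : ∀ l ∈ L.lattice, eta L l = p * l + q * (starRingEnd ℂ) l)
    {S0 : Finset ι} (hS0 : Fm S0 π) {A : Finset ι} (hA : A ⊆ S0) :
    v (bb Ω (Kt Ω (HD L p q Ω)) π A) ≤ v 4 ∧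
      (gd (mc π) (mr π) A ≠ 0 → ch π A aR = 1 → ch π A bR = 1 →
        v (bb Ω (Kt Ω (HD L p q Ω)) π A) = v 4) := by
  have hL := h.lat
  have hAm := hS0.mono hA
  obtain ⟨k1, k2⟩ := v_bbP hv hrec h hpq hS0 hA
  have c2 := v_c2 hv h
  rw [bb_KD hL hpq hAm, map_mul, map_mul, map_mul, c2, one_mul, v_four2 hv]
  refine ⟨mul_le_mul' (v_bl_sub hv (ch_unit hAm fun i hi => (hAm.pd i hi).aR)) ?_,
    fun hg h1 h2 => ?_⟩
  · calc _ ≤ v 2 * 1 := mul_le_mul' (v_bl_sub hv (ch_unit hAm fun i hi => (hAm.pd i hi).bR)) k1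
      _ = v 2 := mul_one _
  · rw [h1, h2, v_bl_sub_one hv, k2 hg, mul_one]

/-! ### the Euler factors -/

/-- the eigenvalues -/
noncomputable def lm (r : ℕ) (c : RR) : ℂ := gm r (c : ℂ) * e7 c

omit hv [DecidableEq ι] in
lemma Fm.e7 {S : Finset ι} (hS : Fm S π) {i : ι} (hi : i ∈ S) :
    e7 (π i) = 1 ∨ e7 (π i) = -1 := e7_sgn (hS.pd i hi).cop_fR

omit hv in
lemma v_sgn {s : ℂ} (hs : s = 1 ∨ s = -1) : v s = 1 := by
  rcases hs with rfl | rfl
  · exact map_one v
  · rw [Valuation.map_neg, map_one]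

lemma v_lm {r : ℕ} {S A : Finset ι} (hS : Fm S π) (hA : A ⊆ S) :
    ∀ i ∈ S \ A, v ((lm r (π i) - ch π A (π i)) / 2) ≤ 1 := by
  intro i hi
  have hiS := (Finset.mem_sdiff.1 hi).1
  have h1 := (ch_sgn hS hA hi).1
  have h3 := hS.e7 hiS
  have h2 := v_gm hv r (hS.pd i hiS).fo
  have h20 := v_two0 hv
  have e : (lm r (π i) - ch π A (π i)) / 2 =
      ((gm r (π i : ℂ) - 1) * e7 (π i)) / 2 + (e7 (π i) - ch π A (π i)) / 2 := by
    unfold lm
    ring
  rw [e]
  refine v_add_le (v_half h20 ?_) ?_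
  · rw [mul_one, map_mul, v_sgn h3, mul_one]
    refine h2.trans ?_
    rw [v_four2 hv]
    exact mul_le_of_le_one_right' (v_two_lt hv).le
  · rcases h1 with h1 | h1 <;> rcases h3 with h3 | h3 <;> rw [h1, h3]
    · rw [sub_self, zero_div, map_zero]
      exact zero_le_one
    · have : (-1 - 1 : ℂ) / 2 = -1 := by norm_num
      rw [this, Valuation.map_neg, map_one]
    · have : (1 - (-1) : ℂ) / 2 = 1 := by norm_num
      rw [this, map_one]
    · rw [sub_self, zero_div, map_zero]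
      exact zero_le_one

lemma v_lm_sub {r : ℕ} {S A : Finset ι} (hS : Fm S π) (hA : A ⊆ S) :
    v (ef (lm r) π S A - ef (lm 0) π S A) ≤ v 2 := by
  unfold ef
  have key : ∀ B ⊆ S \ A, v (∏ i ∈ B, ((lm r (π i) - ch π A (π i)) / 2) -
      ∏ i ∈ B, ((lm 0 (π i) - ch π A (π i)) / 2)) ≤ v 2 := by
    intro B
    induction B using Finset.induction_on with
    | empty =>
      intro _
      rw [Finset.prod_empty, Finset.prod_empty, sub_self, map_zero]
      exact zero_le
    | insert j B hj ih =>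
      intro hB
      have hjS : j ∈ S \ A := hB (Finset.mem_insert_self _ _)
      have hBs : B ⊆ S \ A := (Finset.subset_insert _ _).trans hB
      have ih' := ih hBs
      rw [Finset.prod_insert hj, Finset.prod_insert hj]
      set X := ∏ i ∈ B, ((lm r (π i) - ch π A (π i)) / 2)
      set Y := ∏ i ∈ B, ((lm 0 (π i) - ch π A (π i)) / 2) with hY
      have hYv : v Y ≤ 1 := by
        rw [hY]
        exact Pool.Agent.Y698.v_prod_le _ fun i hi => v_lm hv hS hA i (hBs hi)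
      have hx := v_lm hv (r := r) hS hA j hjS
      have hd : v ((lm r (π j) - ch π A (π j)) / 2 - (lm 0 (π j) - ch π A (π j)) / 2) ≤
          v 2 := by
        have e : (lm r (π j) - ch π A (π j)) / 2 - (lm 0 (π j) - ch π A (π j)) / 2 =
            (((gm r (π j : ℂ) - 1) - (gm 0 (π j : ℂ) - 1)) * e7 (π j)) / 2 := by
          unfold lm
          ring
        rw [e]
        refine v_half (v_two0 hv) ?_
        rw [← v_four2 hv, map_mul, v_sgn (hS.e7 (Finset.mem_sdiff.1 hjS).1), mul_one]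
        have hf := (hS.pd j (Finset.mem_sdiff.1 hjS).1).fo
        exact v_sub_le (v_gm hv r hf) (v_gm hv 0 hf)
      have e : (lm r (π j) - ch π A (π j)) / 2 * X - (lm 0 (π j) - ch π A (π j)) / 2 * Y =
          (lm r (π j) - ch π A (π j)) / 2 * (X - Y) +
          ((lm r (π j) - ch π A (π j)) / 2 - (lm 0 (π j) - ch π A (π j)) / 2) * Y := by
        ring
      rw [e]
      refine v_add_le ?_ ?_
      · rw [map_mul]
        calc _ ≤ 1 * v 2 := mul_le_mul' hx ih'
          _ = v 2 := one_mul _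
      · rw [map_mul]
        calc _ ≤ v 2 * 1 := mul_le_mul' hd hYv
          _ = v 2 := mul_one _
  exact key _ (subset_refl _)

/-- the congruence between the sums -/
theorem ind_even (hrec : S_REC) (h : LD L Ω)
    (hpq : ∀ l ∈ L.lattice, eta L l = p * l + q * (starRingEnd ℂ) l) (n : ℕ)
    (S : Finset ι) (hS : Fm S π) :
    v (bb Ω (Kt Ω (HS L p q Ω (2 * n + 2))) π S - bb Ω (Kt Ω (HD L p q Ω)) π S) ≤ v 8 := by
  have hL := h.lat
  have t2 := v_two_lt hv
  have e8 := v_eight hv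
  have hdif : ∀ z : ℂ, Od L z →
      v (HS L p q Ω (2 * n + 2) z - HD L p q Ω z) ≤ v 2 * v 4 := fun z hz =>
    HS_cong h hv hpq n hz
  induction S using Finset.strongInduction with
  | H S ih =>
    have hW := Kt_ds (HS_do hL hpq (2 * n + 2)) hL
    have hD := Kt_ds (HD_do hL hpq) hL
    rcases S.eq_empty_or_nonempty with rfl | hne
    · rw [bb_empty hL hW, bb_empty hL hD, Kt_sub]
      refine v_Kt_zero hv hL (lam := fun _ => 0) ?_ ?_ (a := 8) (by norm_num) ?_
      · intro z w hz hzw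
        rw [(HS_do hL hpq (2 * n + 2)).per z w hz hzw, (HD_do hL hpq).per z w hz hzw]
      · intro z hz
        rw [(HS_do hL hpq (2 * n + 2)).od z hz, (HD_do hL hpq).od z hz]
        ring
      · intro z hz
        rw [e8]
        exact hdif z hz
    have r1 := rec_b hW hL hS
    have r2 := rec_b hD hL hS
    obtain ⟨H, hH1, -, hH3⟩ := Bd_half hS hne hL
    rw [hH3 _ _ hW] at r1
    rw [hH3 _ _ hD] at r2
    have hfin : bb Ω (Kt Ω (HS L p q Ω (2 * n + 2))) π S - bb Ω (Kt Ω (HD L p q Ω)) π S =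
        2 * ∑ x ∈ H, (Kt Ω (HS L p q Ω (2 * n + 2)) (Ω * (x.out : RR) /
          ((∏ i ∈ S, π i : RR) : ℂ)) -
          Kt Ω (HD L p q Ω) (Ω * (x.out : RR) / ((∏ i ∈ S, π i : RR) : ℂ))) -
        ∑ A ∈ S.powerset.erase S, (ef (lm (2 * n + 2)) π S A *
          (bb Ω (Kt Ω (HS L p q Ω (2 * n + 2))) π A - bb Ω (Kt Ω (HD L p q Ω)) π A) +
          (ef (lm (2 * n + 2)) π S A - ef (lm 0) π S A) *
            bb Ω (Kt Ω (HD L p q Ω)) π A) := by
      have e1 : ∑ A ∈ S.powerset.erase S, (ef (lm (2 * n + 2)) π S A *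
          (bb Ω (Kt Ω (HS L p q Ω (2 * n + 2))) π A - bb Ω (Kt Ω (HD L p q Ω)) π A) +
          (ef (lm (2 * n + 2)) π S A - ef (lm 0) π S A) *
            bb Ω (Kt Ω (HD L p q Ω)) π A) = ∑ A ∈ S.powerset.erase S,
          ef (lm (2 * n + 2)) π S A * bb Ω (Kt Ω (HS L p q Ω (2 * n + 2))) π A -
          ∑ A ∈ S.powerset.erase S, ef (lm 0) π S A * bb Ω (Kt Ω (HD L p q Ω)) π A := by
        rw [← Finset.sum_sub_distrib]
        exact Finset.sum_congr rfl fun A _ => by ring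
      have r1' : bb Ω (Kt Ω (HS L p q Ω (2 * n + 2))) π S + ∑ A ∈ S.powerset.erase S,
          ef (lm (2 * n + 2)) π S A * bb Ω (Kt Ω (HS L p q Ω (2 * n + 2))) π A = _ := r1
      have r2' : bb Ω (Kt Ω (HD L p q Ω)) π S + ∑ A ∈ S.powerset.erase S,
          ef (lm 0) π S A * bb Ω (Kt Ω (HD L p q Ω)) π A = _ := r2
      rw [e1, Finset.sum_sub_distrib]
      linear_combination r1' - r2'
    rw [hfin]
    refine v_sub_le ?_ ?_
    · rw [e8]
      refine v_mul_le2 le_rfl (Valuation.map_sum_le v fun x hx => ?_)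
      rw [Kt_sub]
      exact v_Kt hv hL hdif (hS.fo.od hL _)
    · refine Valuation.map_sum_le v fun A hA => ?_
      rw [Finset.mem_erase, Finset.mem_powerset] at hA
      have hAS : Fm A π := hS.mono hA.2
      refine v_add_le ?_ ?_
      · have k1 := ih A (hA.2.ssubset_of_ne hA.1) hAS
        have k2 : v (ef (lm (2 * n + 2)) π S A) ≤ 1 := by
          unfold ef
          exact Pool.Agent.Y698.v_prod_le _ fun j hj => v_lm hv hS hA.2 j hj
        have := v_mul_le2 k2 k1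
        rwa [one_mul] at this
      · rw [e8]
        exact v_mul_le2 (v_lm_sub hv hS hA.2) (v_bbKD hv hrec h hpq hS hA.2).1

/-- **the nonvanishing of the sums** -/
theorem v_even (hrec : S_REC) (h : LD L Ω)
    (hpq : ∀ l ∈ L.lattice, eta L l = p * l + q * (starRingEnd ℂ) l) (n : ℕ)
    {S : Finset ι} (hS : Fm S π) (hg : gd (mc π) (mr π) S ≠ 0) (h1 : ch π S aR = 1)
    (h2 : ch π S bR = 1) :
    Bd Ω (Pk L p q Ω (2 * n)) (∏ i ∈ S, π i) (ch π S) ≠ 0 := by
  have hL := h.lat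
  have t2 := v_two_lt hv
  rcases n with _ | n
  · intro h0
    have k1 := (v_bbP hv hrec h hpq hS (subset_refl S)).2 hg
    unfold bb at k1
    rw [mul_zero] at h0
    rw [h0, zero_div, map_zero] at k1
    exact zero_ne_one k1
  · intro h0
    have e2 : 2 * (n + 1) = 2 * n + 2 := by ring
    rw [e2] at h0
    have k0 : bb Ω (Kt Ω (HS L p q Ω (2 * n + 2))) π S = 0 := by
      unfold bb
      rw [Bd_KH hL hpq hS, h0, mul_zero, zero_div]
    have k4 := (v_bbKD hv hrec h hpq hS (subset_refl S)).2 hg h1 h2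
    have k5 := ind_even hv hrec h hpq n S hS
    rw [k0, zero_sub, Valuation.map_neg, k4, v_eight hv] at k5
    have k6 : v (2 : ℂ) * v 4 < v 4 := by
      have h40 : 0 < v (4 : ℂ) := zero_lt_iff.2 (by rw [v_four hv]; exact pow_ne_zero _ v_al0)
      calc v 2 * v 4 < 1 * v 4 := mul_lt_mul_of_pos_right t2 h40
        _ = v 4 := one_mul _
    exact absurd k5 (not_le.2 k6)

end val

end Pool.Agent.N843
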