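import Pool.Agent.N843.Wg
import Pool.Agent.N843.Nv

/-!
# The Hecke characters of the twists of `X_0(49)` and their central values
-/

set_option autoImplicit false
set_option linter.unusedSectionVars false
set_option linter.unusedSimpArgs false
set_option linter.unusedVariables false

open Filter
open scoped Topology PeriodPair

namespace Pool.Agent.N843

open H667R3 Pool.Agent.TH936.CW Pool.Agent.W192.HK Pool.Agent.Y690.NV Pool.Agent.TH936.PU
open Pool.Agent.Y698 (RR al al_sq al_ne bl bl_ne al_mul_bl LD tA tB aR aR_coe bR bR_coe cX cY co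
  co_uniq al_im_pos Xx_per Tb v_two v_two_lt v_bl fin_quot aR_mul_bR two_coe nR cj mul_cj cj_coe
  cXY_int cXY_of RR_ext aR_sq ev ev_apply ev_aR isUnit_iff exists_gen e7 e7_per e7_mul
  e7_neg e7_one e7_eq_zero e7_sq fR fR_ne fR_sq irr_fR)
open Pool.Agent.Y698.SG (Pe sy sy_per sy_val sy_sgn tr tr_per tr_mul Mu hc hc_val hc_per
  sp_mem_iff prime_mem Rd lg lg_one v_RR sgn_prod)
open Pool.Agent.TH936.CM (IsLat)
open Pool.Agent.W192.CM (nu)

variable {L : PeriodPair} {Ω p q : ℂ}
variable {ι : Type} [DecidableEq ι] {π : ι → RR} {S : Finset ι}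

lemma e7_val {g : RR} (h : g ∉ sp fR) : e7 g = 1 ∨ e7 g = -1 := sq_eq_one_iff.1 (e7_sq h)

/-- the character -/
noncomputable def xc (π : ι → RR) (S : Finset ι) (g : RR) : ℂ := e7 g * ch π S g

/-- the modulus -/
noncomputable def mm (π : ι → RR) (S : Finset ι) : RR := fR * ∏ i ∈ S, π i

lemma mm_cop (hS : Fm S π) {g : RR} :
    IsCoprime g (mm π S) ↔ g ∉ sp fR ∧ ∀ i ∈ S, g ∉ sp (π i) := by
  unfold mm
  rw [IsCoprime.mul_right_iff, cop_prime irr_fR.prime, IsCoprime.prod_right_iff]
  refine and_congr_right fun _ => forall_congr' fun i => forall_congr' fun hi => ?_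
  exact cop_prime (hS.pd i hi).pr

lemma mm_ne (hS : Fm S π) : mm π S ≠ 0 := mul_ne_zero fR_ne hS.fo.ne

theorem xc_cx (hS : Fm S π) : Cx (mm π S) (xc π S) := by
  have hbn : IsCoprime fR (∏ i ∈ S, π i) := hS.cop_fR
  have hval : ∀ a, IsCoprime a (mm π S) → xc π S a = 1 ∨ xc π S a = -1 := by
    intro a ha
    rw [mm_cop hS] at ha
    unfold xc
    exact Pool.Agent.Y698.SG.sgn_mul (e7_val ha.1) (ch_unit hS ha.2)
  have hper : Pe (mm π S) (xc π S) := by
    have h1 : Pe fR e7 := fun x y h => e7_per h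
    exact (h1.mono (Dvd.intro _ rfl)).mul ((ch_per π S).mono (Dvd.intro_left _ rfl))
  have hmul : ∀ a b, xc π S (a * b) = xc π S a * xc π S b := by
    intro a b
    unfold xc
    rw [e7_mul, hS.ch_mul]
    ring
  have hone : xc π S 1 = 1 := by
    unfold xc ch
    rw [e7_one, one_mul]
    exact Finset.prod_eq_one fun i hi => sy_one (hS.pd i hi).pr
  have hzero : ∀ a, xc π S a = 0 ↔ ¬ IsCoprime a (mm π S) := by
    intro a
    constructor
    · intro h1 h2
      rcases hval a h2 with h3 | h3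
      · rw [h3] at h1; exact one_ne_zero h1
      · rw [h3] at h1; norm_num at h1
    · intro h1
      rw [mm_cop hS, not_and_or] at h1
      unfold xc
      rcases h1 with h1 | h1
      · rw [not_not] at h1
        rw [e7_eq_zero.2 h1, zero_mul]
      · push Not at h1
        rw [(ch_zero hS).2 h1, mul_zero]
  refine ⟨mm_ne hS, hmul, hone, ?_, hper, hzero, hval, ?_⟩
  · intro a
    unfold xc
    rw [e7_neg, hS.ch_neg]
    ring
  · intro m hm hm2
    obtain ⟨k, hk⟩ := hm
    have hk0 : k ≠ 0 := by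
      rintro rfl
      rw [mul_zero] at hk
      exact mm_ne hS hk
    have hku : ¬ IsUnit k := by
      intro hu
      apply hm2
      rw [hk]
      exact (IsUnit.mul_right_dvd hu).2 dvd_rfl
    obtain ⟨ρ, hρ, hρk⟩ := WfDvdMonoid.exists_irreducible_factor hku hk0
    have hρp : Prime ρ := hρ.prime
    obtain ⟨k', hk'⟩ := hρk
    have hρm : ρ ∣ mm π S := by
      rw [hk, hk']
      exact ⟨m * k', by ring⟩
    have hcase : ρ ∣ fR ∨ ∃ i ∈ S, ρ ∣ π i := by
      unfold mm at hρm
      rcases hρp.dvd_or_dvd hρm with h1 | h1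
      · exact Or.inl h1
      · right
        exact (hρp.dvd_finsetProd_iff _).1 h1
    rcases hcase with h1 | ⟨i, hi, h1⟩
    · -- the quadratic character modulo `√-7`
      obtain ⟨u, hu⟩ := (hρp.dvd_prime_iff_associated irr_fR.prime).1 h1
      obtain ⟨a, ha1, ha2⟩ := crt2 hbn (-1) 1
      have hsg : e7 a = -1 := by
        rw [← e7_one, ← e7_neg]
        exact e7_per (Ideal.mem_span_singleton.2 ha1)
      have hch : ch π S a = 1 := by
        rw [ch_per π S a 1 (Ideal.mem_span_singleton.2 ha2)]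
        exact Finset.prod_eq_one fun i hi => sy_one (hS.pd i hi).pr
      refine ⟨a, ?_, by unfold xc; rw [hsg, hch, mul_one]⟩
      have h2 : m ∣ ∏ i ∈ S, π i := by
        have h3 : ρ * (m * k') = ρ * (↑u * ∏ i ∈ S, π i) := by
          have : mm π S = ρ * (m * k') := by rw [hk, hk']; ring
          rw [← this]
          unfold mm
          linear_combination (-(∏ i ∈ S, π i)) * hu
        have h4 := mul_left_cancel₀ hρp.ne_zero h3
        have h5 : m ∣ ↑u * ∏ i ∈ S, π i := ⟨k', h4.symm⟩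
        exact (IsUnit.dvd_mul_left u.isUnit).1 h5
      exact h2.trans ha2
    · -- a nonresidue
      obtain ⟨u, hu⟩ := (hρp.dvd_prime_iff_associated (hS.pd i hi).pr).1 h1
      obtain ⟨t, ht⟩ := (hS.pd i hi).nonres
      have hci : IsCoprime (π i) (fR * ∏ j ∈ S.erase i, π j) := by
        have c1 : IsCoprime (π i) (∏ j ∈ S.erase i, π j) := by
          refine IsCoprime.prod_right fun j hj => ?_
          rw [Finset.mem_erase] at hj
          exact (hS.pd i hi).cop (hS.ne j hj.2 i hi hj.1)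
        exact ((hS.pd i hi).cop_fR).symm.mul_right c1
      obtain ⟨a, ha1, ha2⟩ := crt2 hci t 1
      have hsi : sy (π i) a = -1 := by
        rw [← ht]
        exact sy_per _ _ _ (Ideal.mem_span_singleton.2 ha1)
      have hsg : e7 a = 1 := by
        rw [← e7_one]
        exact e7_per (Ideal.mem_span_singleton.2 ((Dvd.intro _ rfl).trans ha2))
      have hch : ch π S a = -1 := by
        unfold ch
        rw [← Finset.mul_prod_erase _ _ hi, hsi]
        have : ∏ j ∈ S.erase i, sy (π j) a = 1 := by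
          refine Finset.prod_eq_one fun j hj => ?_
          have hjS := (Finset.mem_erase.1 hj).2
          rw [← sy_one (hS.pd j hjS).pr]
          refine sy_per _ _ _ (Ideal.mem_span_singleton.2 (dvd_trans ?_ ha2))
          exact (Finset.dvd_prod_of_mem _ hj).trans (Dvd.intro_left _ rfl)
        rw [this, mul_one]
      refine ⟨a, ?_, by unfold xc; rw [hsg, hch, one_mul]⟩
      have h2 : m ∣ fR * ∏ j ∈ S.erase i, π j := by
        have h3 : ρ * (m * k') = ρ * (↑u * (fR * ∏ j ∈ S.erase i, π j)) := by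
          have : mm π S = ρ * (m * k') := by rw [hk, hk']; ring
          rw [← this]
          unfold mm
          rw [← Finset.mul_prod_erase _ _ hi]
          linear_combination (-(fR * ∏ j ∈ S.erase i, π j)) * hu
        have h4 := mul_left_cancel₀ hρp.ne_zero h3
        have h5 : m ∣ ↑u * (fR * ∏ j ∈ S.erase i, π j) := ⟨k', h4.symm⟩
        exact (IsUnit.dvd_mul_left u.isUnit).1 h5
      exact h2.trans ha2

/-- the nonvanishing of one central value -/
def NZ1 (x : RR → ℂ) (e : ℕ) : Prop := ∃ F : ℂ → ℂ, Differentiable ℂ F ∧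
  (∀ z : ℂ, ((e + 1 : ℕ) : ℝ) + 1 / 2 < z.re →
    HasSum (fun J : Ideal RR => tw x (2 * e + 1) J * (nm J : ℂ) ^ (-z)) (F z)) ∧
  F ((e + 1 : ℕ) : ℂ) ≠ 0

/-- the nonvanishing of the central value follows from that of the finite sum -/
theorem nonvanC (hbasic : H_BASIC) (hfp : H_FP) (hcnt : H_CNT) (hdec : H_DEC) (hafe : H_AFE)
    (h : LD L Ω) (hpq : ∀ l ∈ L.lattice, eta L l = p * l + q * (starRingEnd ℂ) l)
    (hS : Fm S π) (e : ℕ) (hne : Bd Ω (Pk L p q Ω e) (∏ i ∈ S, π i) (ch π S) ≠ 0) :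
    NZ1 (xc π S) e := by
  classical
  have hL := h.lat
  have hx := xc_cx hS
  have hθ := hx.hc e
  set θ := tw (xc π S) (2 * e + 1) with hθd
  set μ : RR := mm π S with hμdef
  have hμ : μ ≠ 0 := mm_ne hS
  have hμC := Pool.Agent.TH936.PU.coe_ne hμ
  have hQR := Pool.Agent.Y698.qr
  obtain ⟨b1, b2, b3, b4, b5, b6, b7, -, -⟩ := hbasic RR al hQR
  have f1 := fin_quot hμ
  let _ : Fintype (RR ⧸ sp μ) := Fintype.ofFinite _
  obtain ⟨T, hSys⟩ : ∃ T : Finset RR, Sys (sp μ) {⊤} ⊤ μ T := by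
    refine ⟨Finset.univ.image (fun x : RR ⧸ sp μ => x.out), ?_⟩
    refine ⟨⟨?_, ?_⟩, ?_, ?_, ?_, ?_, ?_, ⟨?_, ?_⟩⟩
    · intro b hb
      rw [Finset.mem_singleton] at hb
      rw [hb]
      exact top_ne_bot
    · intro J hJ
      refine ⟨⊤, ⟨Finset.mem_singleton_self _, ?_⟩, ?_⟩
      · obtain ⟨α, hα⟩ := (IsPrincipalIdealRing.principal J).principal
        exact ⟨α, by rw [Ideal.mul_top]; exact hα⟩
      · rintro b ⟨hb, -⟩
        exact Finset.mem_singleton.mp hb
    · intro b hb
      rw [Finset.mem_singleton] at hb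
      rw [hb, ← Ideal.one_eq_top]
      exact isCoprime_one_left
    · intro b hb
      rw [Finset.mem_singleton] at hb
      rw [hb]
    · exact top_ne_bot
    · rw [← Ideal.one_eq_top]
      exact isCoprime_one_left
    · rw [Ideal.mul_top]
    · intro x _
      exact Submodule.mem_top
    · intro α
      refine ⟨(Ideal.Quotient.mk (sp μ) α).out,
        ⟨Finset.mem_image_of_mem _ (Finset.mem_univ _), ?_⟩, ?_⟩
      · exact out_mk (sp μ) α
      · rintro y ⟨hy, hy2⟩
        obtain ⟨x, -, rfl⟩ := Finset.mem_image.mp hy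
        have h1 : Ideal.Quotient.mk (sp μ) α = x := by
          rw [← Ideal.Quotient.mk_eq_mk_iff_sub_mem, Ideal.Quotient.mk_out] at hy2
          exact hy2
        rw [h1]
  obtain ⟨F, hF1, hF2, hF3⟩ := lim_LK hbasic hfp hcnt hdec hafe hQR hθ hSys
  refine ⟨F, hF1, hF2, fun hF0 => hne ?_⟩
  have hθ1 : θ ⊤ = 1 := by
    have h1 := hθ.princ 1 one_ne_zero (by rw [sub_self]; exact (sp _).zero_mem)
    have h2 : sp (1 : RR) = ⊤ := Ideal.span_singleton_one
    rw [h2] at h1
    rw [h1]
    have h3 : ((1 : RR) : ℂ) = 1 := rfl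
    rw [h3, one_pow]
  have hnm : nm (⊤ : Ideal RR) = 1 := (b7 ⊤).mpr rfl
  rw [hF0, map_zero, mul_zero] at hF3
  have hlim : Tendsto (fun δ : ℝ => SK e (ck e θ ⊤) δ) (𝓝[>] 0) (𝓝 0) := by
    refine hF3.congr fun δ => ?_
    rw [Finset.sum_singleton, hθ1, hnm]
    simp
  set c : RR → ℂ := ck e θ ⊤ with hc
  have hx0 : xc π S 0 = 0 := by
    have := hx.neg 0
    rw [neg_zero] at this
    linear_combination (1 / 2 : ℂ) * this
  have hcv : ∀ r : RR, c r = xc π S r := by
    intro r
    rw [hc]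
    unfold ck fp
    rw [if_pos Submodule.mem_top, hθd, hx.tw_sp, mul_pow, hx.pow_odd]
    by_cases hr : r = 0
    · rw [hr, hx0]
      simp
    · rw [mul_div_cancel_right₀ _ (pow_ne_zero _ (Pool.Agent.TH936.PU.coe_ne hr))]
      by_cases hcop : IsCoprime r μ
      · rcases hx.sgn r hcop with h1 | h1 <;> rw [h1] <;> simp
      · rw [(hx.zero r).2 hcop, map_zero]
  have hcper : ∀ a b : RR, a - b ∈ sp μ → c a = c b := by
    intro a b h
    rw [hcv, hcv, hx.per a b h]
  have hc0 : ∀ a ∈ sp μ, c a = 0 := by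
    intro a ha
    rw [hcv, ← hx0]
    exact hx.per _ _ (by rwa [sub_zero])
  have hc1 : ∀ a : RR, ‖c a‖ ≤ 1 := by
    intro a
    rw [hcv]
    by_cases hcop : IsCoprime a μ
    · rcases hx.sgn a hcop with h1 | h1 <;> rw [h1] <;> simp
    · rw [(hx.zero a).2 hcop, norm_zero]
      exact zero_le_one
  have hval := valuep hpq hbasic hQR hL e μ hμ c hcper hc0 hc1 hlim
  have hΩ := hL.ne
  have hκ : gg e ((starRingEnd ℂ) ((μ : ℂ) / Ω)) ((μ : ℂ) / Ω) ≠ 0 := by
    have h : (μ : ℂ) / Ω ≠ 0 := div_ne_zero hμC hΩ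
    unfold gg
    exact mul_ne_zero (pow_ne_zero _ ((map_ne_zero _).2 h)) (pow_ne_zero _ (inv_ne_zero h))
  have hqe : (q ^ e)⁻¹ ≠ 0 := inv_ne_zero (pow_ne_zero _ (q_ne hpq))
  have hs : ∑ x : RR ⧸ sp μ, c x.out * ek L p q e (Ω * x.out / μ) = 0 := by
    have h1 := (mul_eq_zero.1 hval.symm).resolve_left hκ
    exact (mul_eq_zero.1 h1).resolve_left hqe
  -- the reduction
  set n : RR := ∏ i ∈ S, π i with hn
  have hfo : Fo n := hS.fo
  have hn0 := Pool.Agent.TH936.PU.coe_ne hfo.ne
  have hcf : IsCoprime fR n := hS.cop_fR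
  have hfC := Pool.Agent.TH936.PU.coe_ne fR_ne
  have f2 := fin_quot hfo.ne
  have f3 := fin_quot fR_ne
  let _ : Fintype (RR ⧸ sp n) := Fintype.ofFinite _
  let _ : Fintype (RR ⧸ sp fR) := Fintype.ofFinite _
  have hekper : ∀ a b : RR, a - b ∈ sp μ → c a * ek L p q e (Ω * a / μ) =
      c b * ek L p q e (Ω * b / μ) := by
    intro a b hab
    by_cases hb : b ∈ sp μ
    · have ha : a ∈ sp μ := by
        have := (sp μ).add_mem hab hb
        rwa [sub_add_cancel] at this
      rw [hc0 a ha, hc0 b hb, zero_mul, zero_mul]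
    · rw [hcper a b hab]
      congr 1
      have hz : Ω * b / μ ∉ L.lattice := fun h => hb ((div_mem_iff hL hμ _).1 h)
      refine ek_per hpq e hz ?_
      have := (div_mem_iff hL hμ (a - b)).2 hab
      convert this using 1
      push_cast
      ring
  have hsum : ∑ x : RR ⧸ sp μ, c x.out * ek L p q e (Ω * x.out / μ) =
      ∑ w : RR ⧸ sp n, ∑ u : RR ⧸ sp fR,
        (fun r : RR => c r * ek L p q e (Ω * r / μ)) (w.out * fR + u.out * n) := by
    rw [← Fintype.sum_prod_type (f := fun z : (RR ⧸ sp n) × (RR ⧸ sp fR) =>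
      (fun r : RR => c r * ek L p q e (Ω * r / μ)) (z.1.out * fR + z.2.out * n))]
    exact sum_rep (I := sp μ) (fun z : (RR ⧸ sp n) × (RR ⧸ sp fR) =>
      z.1.out * fR + z.2.out * n) (bij_crt hcf)
      (fun r : RR => c r * ek L p q e (Ω * r / μ)) hekper
  rw [hs] at hsum
  have hterm : ∀ (w : RR ⧸ sp n) (u : RR ⧸ sp fR),
      (fun r : RR => c r * ek L p q e (Ω * r / μ)) (w.out * fR + u.out * n) =
      (e7 n * ch π S fR) * (ch π S w.out * (e7 u.out * ek L p q e (Ω * w.out / n +
        Ω * u.out / fR))) := by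
    intro w u
    simp only
    have e1 : Ω * ((w.out * fR + u.out * n : RR) : ℂ) / μ =
        Ω * w.out / n + Ω * u.out / fR := by
      have hμn : (μ : ℂ) = fR * n := by
        rw [hμdef]
        unfold mm
        rw [← hn]
        push_cast
        rfl
      rw [hμn]
      push_cast
      field_simp
    have e2 : xc π S (w.out * fR + u.out * n) = (e7 n * ch π S fR) *
        (ch π S w.out * e7 u.out) := by
      unfold xc
      have h1 : e7 (w.out * fR + u.out * n) = e7 u.out * e7 n := by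
        rw [← e7_mul]
        apply e7_per
        rw [add_sub_cancel_right, Ideal.mem_span_singleton']
        exact ⟨w.out, rfl⟩
      have h3 : ch π S (w.out * fR + u.out * n) = ch π S w.out * ch π S fR := by
        rw [← hS.ch_mul]
        apply ch_per
        rw [add_sub_cancel_left, Ideal.mem_span_singleton']
        exact ⟨u.out, rfl⟩
      rw [h1, h3]
      ring
    rw [hcv, e1, e2]
    ring
  have hin : ∀ w : RR ⧸ sp n, ∑ u : RR ⧸ sp fR,
      (fun r : RR => c r * ek L p q e (Ω * r / μ)) (w.out * fR + u.out * n) =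
      (e7 n * ch π S fR) * (ch π S w.out * Pk L p q Ω e (Ω * w.out / n)) := by
    intro w
    rw [Finset.sum_congr rfl (fun u _ => hterm w u), ← Finset.mul_sum, ← Finset.mul_sum, Pk_eq]
  rw [Finset.sum_congr rfl (fun w _ => hin w), ← Finset.mul_sum] at hsum
  rw [Bd_eq]
  refine (mul_eq_zero.1 hsum.symm).resolve_left (mul_ne_zero ?_ ?_)
  · rw [Ne, e7_eq_zero]
    intro h1
    rw [Ideal.mem_span_singleton] at h1
    exact irr_fR.not_isUnit (hcf.isUnit_of_dvd h1)
  · rw [Ne, ch_zero hS]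
    rintro ⟨i, hi, h1⟩
    rw [Ideal.mem_span_singleton] at h1
    exact (hS.pd i hi).pr.not_isUnit ((hS.pd i hi).cop_fR.symm.isUnit_of_dvd h1)

end Pool.Agent.N843
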