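import Pool.Agent.N843.Wj
import Pool.Agent.Y698.SG.Inp
import Pool.Agent.R426.QC.Tr

/-!
# The Hecke characters of the twists of `X_0(49)` by rational numbers
-/

set_option autoImplicit false
set_option linter.unusedSectionVars false
set_option linter.unusedSimpArgs false
set_option linter.unusedVariables false

open Filter IsDedekindDomain
open scoped Topology PeriodPair NumberTheorySymbols

namespace Pool.Agent.N843

open H667R3 Pool.Agent.TH936.CW Pool.Agent.W192.HK Pool.Agent.TH936.PU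
open Pool.Agent.Y698 (RR al al_sq al_ne bl bl_ne al_mul_bl LD aR aR_coe bR bR_coe cX cY co
  v_two v_two_lt fin_quot aR_mul_bR two_coe nR mul_cj cj_coe exists_gen e7 fR Inq qch nR_aR nR_bR
  AP EX card_sp)
open Pool.Agent.Y698.SG (Pe sy Spl ix pf Cho mat mc mr gd inp exists_cho fam gd_ne prod_sy prod_pf)
open Pool.Agent.R384 (OO om qs Sqm Pr em qs_zero Indec)
open Pool.Agent.R426.QC (Pm)

lemma qch_prod {S : Finset ℕ} (hS : ∀ p ∈ S, p.Prime) (m : ℤ) :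
    ∏ p ∈ S, qch p m = ((jacobiSym m (∏ p ∈ S, p) : ℤ) : ℂ) := by
  classical
  induction S using Finset.induction_on with
  | empty => rw [Finset.prod_empty, Finset.prod_empty, jacobiSym.one_right, Int.cast_one]
  | insert a S ha ih =>
    have h1 := hS a (Finset.mem_insert_self _ _)
    have h2 : ∏ p ∈ S, p ≠ 0 := Finset.prod_ne_zero_iff.2 fun p hp =>
      (hS p (Finset.mem_insert_of_mem hp)).ne_zero
    have : NeZero a := ⟨h1.ne_zero⟩
    have : NeZero (∏ p ∈ S, p) := ⟨h2⟩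
    rw [Finset.prod_insert ha, Finset.prod_insert ha, jacobiSym.mul_right,
      ih fun p hp => hS p (Finset.mem_insert_of_mem hp), Int.cast_mul]
    rfl

/-- the families -/
theorem fam_rat {Q P : Finset ℕ} (hQ : ∀ q ∈ Q, Inq q) (hP : ∀ p ∈ P, Spl p)
    (hdet : (mat Q P).det ≠ 0) (h8 : (∏ q ∈ Q ∪ P, q) % 8 = 1) :
    ∃ π : ℕ × Bool → RR, Fm (ix Q P) π ∧ gd (mc π) (mr π) (ix Q P) ≠ 0 ∧
      ch π (ix Q P) aR = 1 ∧ ch π (ix Q P) bR = 1 ∧
      (∏ i ∈ ix Q P, π i = ((∏ q ∈ Q ∪ P, q : ℕ) : RR)) ∧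
      ∀ x, ch π (ix Q P) x = ((jacobiSym (nR x) (∏ q ∈ Q ∪ P, q) : ℤ) : ℂ) := by
  obtain ⟨ϖ, hc⟩ := exists_cho inp.pi hP
  have hf := fam inp.pd1 inp.pd2 hQ hP hc
  have hpr : ∀ p ∈ Q ∪ P, p.Prime := by
    intro p hp
    rcases Finset.mem_union.1 hp with h | h
    · exact (hQ p h).pr
    · exact (hP p h).pr
  have hch : ∀ x, ch (pf Q ϖ) (ix Q P) x = ((jacobiSym (nR x) (∏ q ∈ Q ∪ P, q) : ℤ) : ℂ) := by
    intro x
    rw [← qch_prod hpr]
    exact prod_sy inp.pd1 inp.pd2 hQ hP hc x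
  have hodd : Odd (∏ q ∈ Q ∪ P, q) := by
    rw [Nat.odd_iff]
    omega
  have h2 : jacobiSym 2 (∏ q ∈ Q ∪ P, q) = 1 := by
    rw [jacobiSym.at_two hodd, ZMod.χ₈_nat_eq_if_mod_eight]
    rw [if_neg (by omega), if_pos (Or.inl h8)]
  refine ⟨pf Q ϖ, ⟨fun i hi => ⟨(hf.pd i hi).pr, ?_⟩, hf.ne⟩,
    gd_ne inp.ns1 inp.pd1 inp.pd2 inp.rc hQ hP hc hdet, ?_, ?_, ?_, hch⟩
  · obtain ⟨u, hu⟩ := (hf.pd i hi).m4
    exact ⟨u, by linear_combination hu⟩
  · rw [hch, nR_aR, h2, Int.cast_one]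
  · rw [hch, nR_bR, h2, Int.cast_one]
  · exact prod_pf hQ hP hc

/-! ### the characters -/

/-- the Hecke character of the twist by `D` -/
structure PsiQ (D : ℕ) (z : ℂ) (ψ : Ideal OO → ℂ) : Prop where
  mul : ∀ I J : Ideal OO, ψ (I * J) = ψ I * ψ J
  val : ∀ x : OO, ψ (Ideal.span {x}) = (jacobiSym (x.re + 4 * x.im) 7 : ℂ) *
    (jacobiSym (x.re ^ 2 + x.re * x.im + 2 * x.im ^ 2) D : ℂ) * ((x.re : ℂ) + (x.im : ℂ) * z)

lemma e7_pH (x : OO) : e7 (pH x) = (jacobiSym (x.re + 4 * x.im) 7 : ℂ) := by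
  have _ : Fact (Nat.Prime 7) := ⟨by norm_num⟩
  unfold e7
  rw [← jacobiSym.legendreSym.to_jacobiSym]
  unfold legendreSym
  rw [Pool.Agent.Y698.r7_apply, (cXY_pH x).1, (cXY_pH x).2]
  push_cast
  rw [mul_comm (4 : ZMod 7)]

lemma nR_pH (x : OO) : nR (pH x) = x.re ^ 2 + x.re * x.im + 2 * x.im ^ 2 := by
  unfold Pool.Agent.Y698.nR
  rw [(cXY_pH x).1, (cXY_pH x).2]

lemma psiQ_of {ι : Type} [DecidableEq ι] {S : Finset ι} {π : ι → RR} (hS : Fm S π) {D : ℕ}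
    (hch : ∀ x, ch π S x = ((jacobiSym (nR x) D : ℤ) : ℂ)) : PsiQ D al (psi (xc π S)) := by
  have hC := xc_cx hS
  refine ⟨hC.psi_mul, fun x => ?_⟩
  rw [hC.psi_sp, pH_coe]
  unfold xc
  rw [e7_pH, hch, nR_pH]

lemma PsiQ.conj {D : ℕ} {z : ℂ} {ψ : Ideal OO → ℂ} (h : PsiQ D z ψ) :
    PsiQ D ((starRingEnd ℂ) z) (fun I => (starRingEnd ℂ) (ψ I)) := by
  refine ⟨fun I J => by rw [h.mul, map_mul], fun x => ?_⟩
  rw [h.val, map_mul, map_mul, map_intCast, map_intCast, map_add, map_mul, map_intCast, map_intCast]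

/-- **the central values of the odd weights** -/
theorem nonvan_rat (hbasic : H_BASIC) (hfp : H_FP) (hcnt : H_CNT) (hdec : H_DEC) (hafe : H_AFE)
    {Q P : Finset ℕ} (hQ : ∀ q ∈ Q, Inq q) (hP : ∀ p ∈ P, Spl p)
    (hdet : (mat Q P).det ≠ 0) (h8 : (∏ q ∈ Q ∪ P, q) % 8 = 1) {z : ℂ} (hz : z ^ 2 = z - 2) :
    ∃ ψ : Ideal OO → ℂ, PsiQ (∏ q ∈ Q ∪ P, q) z ψ ∧
      ∀ n : ℕ, J1 ψ (2 * n + 1) ∧ J1 ψ (1 - (2 * n + 1)) := by
  classical
  obtain ⟨π, hF, hg, ha, hb, -, hch⟩ := fam_rat hQ hP hdet h8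
  obtain ⟨L, Ω, h⟩ := Pool.Agent.Y698.exists_LD
  obtain ⟨p, q, hpq⟩ := exists_pq (L := L)
  have hp : Prime aR := (Pool.Agent.Y698.irr_of_prime_norm (by
    rw [nR_aR]
    norm_num)).prime
  have hPp : (sp aR).IsPrime := (Ideal.span_singleton_prime hp.ne_zero).2 hp
  obtain ⟨B, hB⟩ := Pool.Agent.Y698.exists_vs (sp aR)
  have hv : B.valuation al < 1 := by
    have := hB aR (Ideal.mem_span_singleton_self aR)
    rwa [aR_coe] at this
  have key : ∀ n : ℕ, J1 (psi (xc π (ix Q P))) (2 * n + 1) := by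
    intro n
    have h1 := v_even hv inp.rec' h hpq n hF hg ha hb
    have h2 := nonvanC hbasic hfp hcnt hdec hafe h hpq hF (2 * n) h1
    have h3 := (xc_cx hF).oneJ hbasic h2
    push_cast at h3
    exact h3
  rcases conj_z hz with rfl | rfl
  · exact ⟨_, psiQ_of hF hch, fun n => ⟨key n, (key n).swap⟩⟩
  · refine ⟨_, (psiQ_of hF hch).conj, fun n => ⟨?_, (key n).conj⟩⟩
    have h1 := (key n).swap.conj
    rwa [sub_sub_cancel] at h1

end Pool.Agent.N843
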