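import Pool.Agent.N843.Wh
import Pool.Agent.N843.Sgn

/-!
# Transfer to the abstract ring of integers, one weight
-/

set_option autoImplicit false
set_option linter.unusedSectionVars false
set_option linter.unusedSimpArgs false
set_option linter.unusedVariables false

open Filter IsDedekindDomain
open scoped Topology PeriodPair

namespace Pool.Agent.N843

open H667R3 Pool.Agent.TH936.CW Pool.Agent.W192.HK Pool.Agent.TH936.PU
open Pool.Agent.Y698 (RR al al_sq al_ne bl bl_ne al_mul_bl LD aR aR_coe bR bR_coe cX cY co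
  v_two v_two_lt fin_quot aR_mul_bR two_coe nR mul_cj cj_coe exists_gen e7 fR)
open Pool.Agent.Y698.SG (Pe sy)
open Pool.Agent.R384 (OO om qs Sqm Pr em qs_zero Indec)

variable {μ : RR} {x : RR → ℂ}

/-- the conclusion for the character `ψ ^ j * conj ψ ^ (1 - j)` -/
def J1 (ψ : Ideal OO → ℂ) (j : ℤ) : Prop := ∃ L : ℂ → ℂ, Differentiable ℂ L ∧
  (∀ s : ℂ, 3 / 2 < s.re → HasProd (fun P : HeightOneSpectrum OO =>
    (1 - ψ P.asIdeal ^ j * (starRingEnd ℂ) (ψ P.asIdeal) ^ (1 - j) *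
      (Nat.card (OO ⧸ P.asIdeal) : ℂ) ^ (-s))⁻¹) (L s)) ∧ L 1 ≠ 0

lemma J1.swap {ψ : Ideal OO → ℂ} {j : ℤ} (h : J1 ψ j) : J1 ψ (1 - j) := by
  obtain ⟨L, h1, h2, h3⟩ := h
  exact conj_hp h1 h2 h3

lemma J1.conj {ψ : Ideal OO → ℂ} {j : ℤ} (h : J1 ψ j) :
    J1 (fun I => (starRingEnd ℂ) (ψ I)) (1 - j) := by
  obtain ⟨L, h1, h2, h3⟩ := h
  refine ⟨L, h1, fun s hs => ?_, h3⟩
  have h4 := h2 s hs
  rw [sub_sub_cancel]
  convert h4 using 4
  rw [Complex.conj_conj]
  ring

/-- one weight -/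
theorem Cx.oneJ (h : Cx μ x) (hbasic : H_BASIC) {e : ℕ} (hz : NZ1 x e) :
    J1 (psi x) ((e : ℤ) + 1) := by
  obtain ⟨b1, b2, b3, b4, b5, b6, b7, -⟩ := hbasic RR al Pool.Agent.Y698.qr
  obtain ⟨F, hF1, hF2, hF3⟩ := hz
  refine ⟨fun s => F (s + e), by fun_prop, fun s hs => ?_, ?_⟩
  · have hz' : ((e + 1 : ℕ) : ℝ) + 1 / 2 < (s + e).re := by
      rw [Complex.add_re, Complex.natCast_re]
      push_cast
      linarith
    have h1 := hF2 (s + e) hz'
    have h2 : (fun J : Ideal RR => tw x (2 * e + 1) J * (nm J : ℂ) ^ (-(s + e))) =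
        fun J : Ideal RR => tw x 1 J ^ (2 * e + 1) * (starRingEnd ℂ) (tw x 1 J) ^ 0 *
          (nm J : ℂ) ^ (-(s + e)) := by
      funext J
      rw [pow_zero, mul_one]
      unfold tw
      rw [pow_one]
    rw [h2] at h1
    have h3 := h.euler hbasic (by omega) _ _ h1
    have h4 := hp_map (fun J => (1 - tw x 1 J ^ (2 * e + 1) * (starRingEnd ℂ) (tw x 1 J) ^ 0 *
      (nm J : ℂ) ^ (-(s + (e : ℂ))))⁻¹) _ h3
    have h5 : (fun P : HeightOneSpectrum OO =>
        (1 - psi x P.asIdeal ^ ((e : ℤ) + 1) *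
        (starRingEnd ℂ) (psi x P.asIdeal) ^ (1 - ((e : ℤ) + 1)) *
        (Nat.card (OO ⧸ P.asIdeal) : ℂ) ^ (-s))⁻¹) =
        fun P : HeightOneSpectrum OO => (fun J => (1 - tw x 1 J ^ (2 * e + 1) *
          (starRingEnd ℂ) (tw x 1 J) ^ 0 * (nm J : ℂ) ^ (-(s + (e : ℂ))))⁻¹)
            (P.asIdeal.map (pE : OO →+* RR)) := by
      funext P
      simp only
      congr 2
      rw [nm_map, pow_zero, mul_one]
      change psi x P.asIdeal ^ ((e : ℤ) + 1) * _ * _ = psi x P.asIdeal ^ (2 * e + 1) * _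
      obtain ⟨g, hg⟩ : ∃ g : OO, P.asIdeal = Ideal.span {g} := by
        obtain ⟨g, hg⟩ := exists_gen (P.asIdeal.map (pE : OO →+* RR))
        obtain ⟨g', rfl⟩ := pH_surj g
        rw [← map_sp] at hg
        have h6 := congrArg (Ideal.comap (pE : OO →+* RR)) hg
        rw [Ideal.comap_map_of_bijective (pE : OO →+* RR) pE.bijective,
          Ideal.comap_map_of_bijective (pE : OO →+* RR) pE.bijective] at h6
        exact ⟨g', h6⟩
      have hg0 : pH g ≠ 0 := by
        intro h0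
        have h1 : g = 0 := pH_inj (by rw [h0, map_zero])
        rw [h1, Ideal.span_singleton_zero] at hg
        exact P.ne_bot hg
      by_cases hx : psi x P.asIdeal = 0
      · rw [hx, zero_zpow _ (by omega), zero_pow (by omega), zero_mul, zero_mul, zero_mul]
      · have hcop : x (pH g) = 1 ∨ x (pH g) = -1 := by
          apply h.sgn
          by_contra hc
          apply hx
          rw [hg, h.psi_sp, (h.zero _).2 hc, zero_mul]
        have hN : (starRingEnd ℂ) (psi x P.asIdeal) * psi x P.asIdeal =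
            (Nat.card (OO ⧸ P.asIdeal) : ℂ) := by
          have h7 : ((Nat.card (OO ⧸ P.asIdeal) : ℝ) : ℂ) = (pH g : ℂ) *
              (starRingEnd ℂ) (pH g : ℂ) := by
            rw [← nm_map, hg, map_sp, b5, Complex.mul_conj]
          rw [Complex.ofReal_natCast] at h7
          rw [h7]
          rw [hg, h.psi_sp, map_mul, h.conj]
          rcases hcop with h8 | h8 <;> rw [h8] <;> ring
        have hNz : (Nat.card (OO ⧸ P.asIdeal) : ℂ) ≠ 0 := by
          rw [← hN]
          exact mul_ne_zero ((map_ne_zero _).2 hx) hx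
        rw [Complex.ofReal_natCast]
        have h9 : (Nat.card (OO ⧸ P.asIdeal) : ℂ) ^ (-(s + (e : ℂ))) =
            (Nat.card (OO ⧸ P.asIdeal) : ℂ) ^ (-s) *
              ((Nat.card (OO ⧸ P.asIdeal) : ℂ) ^ e)⁻¹ := by
          rw [neg_add, Complex.cpow_add _ _ hNz, Complex.cpow_neg _ (e : ℂ),
            Complex.cpow_natCast]
        rw [h9]
        have h10 : 1 - ((e : ℤ) + 1) = -(e : ℤ) := by ring
        rw [h10, zpow_neg, zpow_natCast, ← hN]
        have h11 : psi x P.asIdeal ^ ((e : ℤ) + 1) = psi x P.asIdeal ^ (e + 1) := by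
          exact_mod_cast zpow_natCast (psi x P.asIdeal) (e + 1)
        rw [h11, mul_pow]
        have h12 : (starRingEnd ℂ) (psi x P.asIdeal) ≠ 0 := (map_ne_zero _).2 hx
        field_simp
        ring
    rw [h5]
    exact h4
  · have h7 : (1 : ℂ) + e = ((e + 1 : ℕ) : ℂ) := by
      push_cast
      ring
    simp only
    rw [h7]
    exact hF3

end Pool.Agent.N843
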