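import Pool.Agent.N843.Wi
import Pool.Agent.N843.Eul

/-!
# The numbers of points of the twists of `X_0(49)` by rational numbers
-/

set_option autoImplicit false
set_option linter.unusedSectionVars false
set_option linter.unusedSimpArgs false
set_option linter.unusedVariables false

open Filter IsDedekindDomain
open scoped Topology PeriodPair NumberTheorySymbols

namespace Pool.Agent.N843

open H667R3 Pool.Agent.TH936.CW Pool.Agent.W192.HK Pool.Agent.TH936.PU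
open Pool.Agent.Y698 (RR al al_sq al_ne bl bl_ne al_mul_bl LD aR aR_coe bR bR_coe cX cY co
  v_two v_two_lt fin_quot aR_mul_bR two_coe nR mul_cj cj_coe exists_gen e7 fR Inq qch nR_aR nR_bR
  AP EX card_sp)
open Pool.Agent.Y698.SG (Pe sy Spl ix pf Cho mat mc mr gd inp exists_cho fam gd_ne prod_sy prod_pf)
open Pool.Agent.R384 (OO om qs Sqm Pr em qs_zero Indec)
open Pool.Agent.R426.QC (Pm)

/-- **the Euler factors** -/
theorem eulQ {Q P : Finset ℕ} (hQ : ∀ q ∈ Q, Inq q) (hP : ∀ p ∈ P, Spl p)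
    (hdet : (mat Q P).det ≠ 0) (h8 : (∏ q ∈ Q ∪ P, q) % 8 = 1) {j : ℕ}
    (hj : ∏ q ∈ Q ∪ P, q = 1 + 4 * j) {z : ℂ} (hz : z ^ 2 = z - 2)
    {ψ : Ideal OO → ℂ} (hψ : PsiQ (∏ q ∈ Q ∪ P, q) z ψ) (A : HeightOneSpectrum OO)
    (h7D : ((7 * (1 + 4 * j) : ℕ) : OO) ∉ A.asIdeal) :
    ((Nat.card {x : (OO ⧸ A.asIdeal) × (OO ⧸ A.asIdeal) //
        (EX (OO ⧸ A.asIdeal) (j : OO ⧸ A.asIdeal)).toAffine.Equation x.1 x.2} : ℕ) : ℂ) =
      (Nat.card (OO ⧸ A.asIdeal) : ℂ) - (ψ A.asIdeal + (starRingEnd ℂ) (ψ A.asIdeal)) := by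
  classical
  obtain ⟨π, hF, -, -, -, hprod, hch⟩ := fam_rat hQ hP hdet h8
  obtain ⟨g, hg⟩ : ∃ g : OO, A.asIdeal = Ideal.span {g} := by
    obtain ⟨g, hg⟩ := (IsPrincipalIdealRing.principal A.asIdeal).principal
    exact ⟨g, hg⟩
  have hpr : Prime g := by
    have h1 := A.isPrime
    have h2 := A.ne_bot
    rw [hg] at h1 h2
    rw [Ne, Ideal.span_singleton_eq_bot] at h2
    exact (Ideal.span_singleton_prime h2).1 h1
  have hgd : ¬ g ∣ ((7 * (1 + 4 * j) : ℕ) : OO) := by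
    rw [← Ideal.mem_span_singleton, ← hg]
    exact h7D
  rw [hg, hψ.val]
  have hPr : Prime (pH g) := pH_prime.2 hpr
  have hI : (Ideal.span {g}).IsPrime := (Ideal.span_singleton_prime hpr.ne_zero).2 hpr
  have hM : (Ideal.span {g}).IsMaximal := hI.isMaximal (by
    rw [Ne, Ideal.span_singleton_eq_bot]
    exact hpr.ne_zero)
  have hcard := card_map g
  have hfin : Finite (OO ⧸ Ideal.span {g}) := by
    apply Nat.finite_of_card_ne_zero
    have h3 := Pool.Agent.Y698.nR_pos hPr.ne_zero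
    rw [← hcard] at h3
    omega
  letI : Field (OO ⧸ Ideal.span {g}) := Ideal.Quotient.field _
  set φ : RR →+* OO ⧸ Ideal.span {g} :=
    (Ideal.Quotient.mk (Ideal.span {g})).comp (pE.symm : RR →+* OO) with hφd
  have hφH : ∀ x : OO, φ (pH x) = Ideal.Quotient.mk (Ideal.span {g}) x := by
    intro x
    rw [hφd]
    show Ideal.Quotient.mk (Ideal.span {g}) (pE.symm (pE x)) = _
    rw [RingEquiv.symm_apply_apply]
  have hs : Function.Surjective φ := by
    intro y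
    obtain ⟨x, rfl⟩ := Ideal.Quotient.mk_surjective y
    exact ⟨pH x, hφH x⟩
  have hφ : ∀ x, φ x = 0 ↔ x ∈ sp (pH g) := by
    intro x
    obtain ⟨y, rfl⟩ := pH_surj x
    rw [hφH, Ideal.Quotient.eq_zero_iff_mem, Ideal.mem_span_singleton, pH_mem]
  have h7 : ¬ pH g ∣ 7 := by
    rw [← map_ofNat pH 7, pH_dvd]
    intro h
    apply hgd
    push_cast
    exact h.mul_right _
  have hDg : ¬ pH g ∣ ((∏ q ∈ Q ∪ P, q : ℕ) : RR) := by
    rw [hj, ← map_natCast pH, pH_dvd]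
    intro h
    apply hgd
    push_cast at h ⊢
    exact h.mul_left _
  have hpm : ∀ i ∈ ix Q P, Pm (π i) := by
    intro i hi
    refine ⟨(hF.pd i hi).pr, ?_⟩
    obtain ⟨u, hu⟩ := (hF.pd i hi).fo
    exact ⟨u, by linear_combination hu⟩
  have hne : ∀ i ∈ ix Q P, π i ∉ sp (pH g) := by
    intro i hi h
    rw [Ideal.mem_span_singleton] at h
    apply hDg
    rw [← hprod]
    exact h.trans (Finset.dvd_prod_of_mem _ hi)
  have hJ : ∏ i ∈ ix Q P, π i = 1 + 4 * ((j : ℕ) : RR) := by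
    rw [hprod, hj]
    push_cast
    rfl
  have key := Pool.Agent.R426.QC.trace_D (OO ⧸ Ideal.span {g}) hPr h7 hcard φ hs hφ hpm hne hJ
  have e0 : φ ((j : ℕ) : RR) = (j : OO ⧸ Ideal.span {g}) := map_natCast φ j
  rw [e0] at key
  have e1 : ∏ i ∈ ix Q P, sy (π i) (pH g) = (jacobiSym (g.re ^ 2 + g.re * g.im + 2 * g.im ^ 2)
      (∏ q ∈ Q ∪ P, q) : ℂ) := by
    rw [← nR_pH]
    exact hch (pH g)
  rw [e1, e7_pH, tr_eq] at key
  have h3 : (starRingEnd ℂ) ((jacobiSym (g.re + 4 * g.im) 7 : ℂ) *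
      (jacobiSym (g.re ^ 2 + g.re * g.im + 2 * g.im ^ 2) (∏ q ∈ Q ∪ P, q) : ℂ) *
      ((g.re : ℂ) + (g.im : ℂ) * z)) = (jacobiSym (g.re + 4 * g.im) 7 : ℂ) *
      (jacobiSym (g.re ^ 2 + g.re * g.im + 2 * g.im ^ 2) (∏ q ∈ Q ∪ P, q) : ℂ) *
      ((g.re : ℂ) + (g.im : ℂ) * (1 - z)) := by
    have h4 : (starRingEnd ℂ) z = 1 - z := by
      rcases conj_z hz with h | h
      · rw [h, al_cj]
      · rw [h, Complex.conj_conj, al_cj]; ring
    rw [map_mul, map_mul, map_intCast, map_intCast, map_add, map_mul, map_intCast, map_intCast, h4]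
  rw [h3]
  push_cast at key
  have e2 : ((Nat.card (AP (EX (OO ⧸ Ideal.span {g}) (j : OO ⧸ Ideal.span {g}))) : ℕ) : ℂ) =
      ((Nat.card {x : (OO ⧸ Ideal.span {g}) × (OO ⧸ Ideal.span {g}) //
        (EX (OO ⧸ Ideal.span {g}) (j : OO ⧸ Ideal.span {g})).toAffine.Equation x.1 x.2} : ℕ) : ℂ) :=
    rfl
  rw [e2] at key
  linear_combination -key

end Pool.Agent.N843
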