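import Pool.Agent.N843.Wk
import Pool.Agent.Results.MP_787500_nt.AllWeightsMultiquadraticX49
import Pool.Agent.W287.HK.Basic
import Pool.Agent.W571.HK.Cls
import Pool.Agent.W53.HK.Fp
import Pool.Agent.W366.HK.Fpr
import Pool.Agent.W585.HK.LAT
import Pool.Agent.W692.HK.Ker
import Pool.Agent.W584.HK.CNT
import Pool.Agent.W856.HK.Dec
import Pool.Agent.W636.HK.Gauss
import Pool.Agent.W348.HK.Pois

/-!
# The central values of the odd weights for the twists of `X_0(49)` of the class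
-/

set_option autoImplicit false
set_option linter.unusedSectionVars false
set_option linter.unusedSimpArgs false
set_option linter.unusedVariables false

open Filter IsDedekindDomain
open scoped Topology PeriodPair NumberTheorySymbols

namespace Pool.Agent.N843

open H667R3 Pool.Agent.TH936.CW Pool.Agent.W192.HK Pool.Agent.TH936.PU
open Pool.Agent.Y698 (Inq)
open Pool.Agent.Y698.SG (Spl mat)
open Pool.Agent.R384 (OO)
open Pool.Agent.Results.MP_787500_nt.AllWeightsMultiquadraticX49 (Adm RankZeroShaTwo adm_iff sets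
  good_iff)

/-- the integral model of the twist by `D` of `X_0(49)` -/
def WZ (D : ℕ) : WeierstrassCurve ℤ :=
  ⟨1, -((3 * (D : ℤ) + 1) / 4), 0, -2 * (D : ℤ) ^ 2, -(D : ℤ) ^ 3⟩

lemma WZ_map {D j : ℕ} (hj : D = 1 + 4 * j) {F : Type} [CommRing F] :
    (WZ D).map (Int.castRingHom F) = Pool.Agent.Y698.EX F (j : F) := by
  have h1 : (3 * ((1 + 4 * j : ℕ) : ℤ) + 1) / 4 = 1 + 3 * (j : ℤ) := by
    push_cast
    omega
  unfold WZ WeierstrassCurve.map Pool.Agent.Y698.EX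
  subst hj
  rw [h1]
  ext <;> simp

theorem coreQ {D : ℕ} (hA : Adm D) (hR : RankZeroShaTwo D) {z : ℂ} (hz : z ^ 2 = z - 2) :
    ∃ ψ : Ideal OO → ℂ, PsiQ D z ψ ∧
      (∀ A : HeightOneSpectrum OO, ((7 * D : ℕ) : OO) ∉ A.asIdeal →
        ((Nat.card {x : (OO ⧸ A.asIdeal) × (OO ⧸ A.asIdeal) //
          ((WZ D).map (Int.castRingHom (OO ⧸ A.asIdeal))).toAffine.Equation x.1 x.2} : ℕ) : ℂ) =
        (Nat.card (OO ⧸ A.asIdeal) : ℂ) - (ψ A.asIdeal + (starRingEnd ℂ) (ψ A.asIdeal))) ∧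
      ∀ n : ℕ, J1 ψ (2 * n + 1) ∧ J1 ψ (1 - (2 * n + 1)) := by
  classical
  have hbasic := Pool.Agent.W287.HK.h_basic
  have hcls := Pool.Agent.W571.HK.h_cls hbasic
  have hfp := Pool.Agent.W53.HK.h_fp hbasic hcls
  have hfpr := Pool.Agent.W366.HK.h_fpr hbasic hcls
  have hlat := Pool.Agent.W585.HK.h_lat hbasic
  have hker := Pool.Agent.W692.HK.h_ker hbasic hcls hfpr
  have hcnt := Pool.Agent.W584.HK.h_cnt hbasic hcls hfpr hlat hker
  have hdec := Pool.Agent.W856.HK.h_dec hbasic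
  have hgauss := Pool.Agent.W636.HK.h_gauss hbasic hfp
  have hpois := Pool.Agent.W348.HK.h_pois hbasic
  have htheta := Pool.Agent.TH936.HK.h_theta hbasic hfp hdec hgauss hpois hcnt
  have hafe := Pool.Agent.TH936.HK.h_afe hbasic hfp hcnt hgauss htheta
  have hA' := (adm_iff D).1 hA
  have hgd := (good_iff hA'.1).1 hR
  rw [Pool.Agent.R428.Q0.gd_iff] at hgd
  obtain ⟨hQ, hP, hDu⟩ := sets hA'.1
  set Q := D.primeFactors.filter fun p => p % 8 ≠ 1 with hQd
  set P := D.primeFactors.filter fun p => p % 8 = 1 with hPd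
  have h8 : (∏ q ∈ Q ∪ P, q) % 8 = 1 := by rw [hDu]; exact hA.2.1
  obtain ⟨j, hj⟩ : ∃ j, D = 1 + 4 * j := ⟨D / 4, by have := hA.2.1; omega⟩
  obtain ⟨ψ, h1, h2⟩ := nonvan_rat hbasic hfp hcnt hdec hafe hQ hP hgd h8 hz
  refine ⟨ψ, by rwa [hDu] at h1, fun A hA7 => ?_, h2⟩
  rw [WZ_map hj]
  refine eulQ hQ hP hgd h8 (hDu.trans hj) hz h1 A ?_
  rwa [← hj]

end Pool.Agent.N843
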