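import Pool.Agent.N843.Wh
import Pool.Agent.R426.QD.Cnt

/-!
# The distributions on all the points of odd order
-/

set_option autoImplicit false
set_option linter.unusedSectionVars false
set_option linter.unusedSimpArgs false

open Filter
open scoped Topology PeriodPair

namespace Pool.Agent.N843.X

open H667R3 Pool.Agent.TH936.CW Pool.Agent.W192.HK Pool.Agent.Y690.NV Pool.Agent.TH936.PU
open Pool.Agent.N843
open Pool.Agent.Y698 (RR al al_sq al_ne bl bl_ne al_mul_bl LD tA tB aR aR_coe bR bR_coe cX cY co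
  co_uniq al_im_pos Xx_per Tb v_two v_two_lt v_bl fin_quot aR_mul_bR two_coe nR cj mul_cj cj_coe)
open Pool.Agent.Y698.SG (Pe Mu)
open Pool.Agent.TH936.CM (IsLat)


variable {L : PeriodPair} {Ω p q : ℂ}

open Classical in
/-- the Eisenstein-Kronecker numbers, zero on the lattice -/
noncomputable def E0 (L : PeriodPair) (p q : ℂ) (r : ℕ) (z : ℂ) : ℂ :=
  if z ∈ L.lattice then 0 else ek L p q r z

lemma E0_of {r : ℕ} {z : ℂ} (hz : z ∉ L.lattice) : E0 L p q r z = ek L p q r z := if_neg hz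

lemma E0_lat {r : ℕ} {z : ℂ} (hz : z ∈ L.lattice) : E0 L p q r z = 0 := if_pos hz

lemma E0_neg (r : ℕ) (z : ℂ) : E0 L p q r (-z) = -E0 L p q r z := by
  by_cases hz : z ∈ L.lattice
  · rw [E0_lat hz, E0_lat (neg_mem hz), neg_zero]
  · rw [E0_of hz, E0_of (fun h => hz (by
      have := neg_mem h
      rwa [neg_neg] at this)), ekp_neg r hz]

section basic

variable (hL : IsLat L RR Ω) (hpq : ∀ l ∈ L.lattice, eta L l = p * l + q * (starRingEnd ℂ) l)

include hpq in
lemma E0_per (r : ℕ) {z w : ℂ} (h : z - w ∈ L.lattice) : E0 L p q r z = E0 L p q r w := by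
  by_cases hw : w ∈ L.lattice
  · have hz : z ∈ L.lattice := by
      have := add_mem h hw
      rwa [sub_add_cancel] at this
    rw [E0_lat hw, E0_lat hz]
  · have hz : z ∉ L.lattice := fun hz => hw (by
      have := sub_mem hz h
      rwa [sub_sub_cancel] at this)
    rw [E0_of hw, E0_of hz, ek_per hpq r hw h]

include hL hpq

theorem E0_dist (r : ℕ) {c : RR} (hc0 : c ≠ 0) [Fintype (RR ⧸ sp c)] {z : ℂ} {M : ℕ}
    (hM : 0 < M) (hz : (M : ℂ) * z ∈ L.lattice) :
    ∑ t : RR ⧸ sp c, E0 L p q r (z + Ω * t.out / c) = gm r (c : ℂ) * E0 L p q r (c * z) := by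
  have hc := Pool.Agent.TH936.PU.coe_ne hc0
  by_cases hcz : (c : ℂ) * z ∈ L.lattice
  · rw [E0_lat hcz, mul_zero]
    obtain ⟨y, hy⟩ := (hL.mem _).1 hcz
    have hper : Pe c (fun x => E0 L p q r (Ω * x / c)) := by
      intro x x' hx
      refine E0_per hpq r ?_
      have h1 := (div_mem_iff hL hc0 (x - x')).2 hx
      convert h1 using 1
      push_cast
      ring
    have h0 := Pool.Agent.R426.QD.sum_odd0 (n := c) hper (fun x => by
      have e : Ω * ((-x : RR) : ℂ) / c = -(Ω * x / c) := by push_cast; ring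
      simp only [e]
      exact E0_neg r _)
    have hb : Function.Bijective (fun t : RR ⧸ sp c => Ideal.Quotient.mk (sp c) (y + t.out)) := by
      have e1 : (fun t : RR ⧸ sp c => Ideal.Quotient.mk (sp c) (y + t.out)) =
          fun t => Equiv.addLeft (Ideal.Quotient.mk (sp c) y) t := by
        funext t
        rw [map_add, Ideal.Quotient.mk_out, Equiv.coe_addLeft]
      rw [e1]
      exact (Equiv.addLeft _).bijective
    have h1 := sum_rep (I := sp c) (fun t : RR ⧸ sp c => y + t.out) hb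
      (fun x => E0 L p q r (Ω * x / c)) hper
    rw [h1] at h0
    rw [← h0]
    refine Finset.sum_congr rfl fun t _ => ?_
    congr 1
    push_cast
    have e : z = Ω * y / c := by
      field_simp
      linear_combination hy
    rw [e]
    ring
  · rw [E0_of hcz, ← ekp_dist (p := p) (q := q) hpq hL r c hc0 hcz hM hz]
    refine Finset.sum_congr rfl fun t _ => E0_of ?_
    intro h
    apply hcz
    have h1 := hL.mul c _ h
    have h2 := hL.mem_mul t.out
    have h3 := sub_mem h1 h2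
    convert h3 using 1
    field_simp
    ring

end basic

/-- a positive multiple -/
lemma nat_kill (hL : IsLat L RR Ω) {N : RR} (hN : N ≠ 0) {z : ℂ} (hz : (N : ℂ) * z ∈ L.lattice) :
    ∃ M : ℕ, 0 < M ∧ (M : ℤ) = nR N ∧ (M : ℂ) * z ∈ L.lattice := by
  have h1 := Pool.Agent.Y698.nR_nonneg N
  obtain ⟨M, hM⟩ := Int.eq_ofNat_of_zero_le h1
  have h9 := mul_cj N
  have h9' := congrArg (fun r : RR => (r : ℂ)) h9
  rw [hM] at h9'
  push_cast at h9'
  refine ⟨M, ?_, hM.symm, ?_⟩
  · rcases Nat.eq_zero_or_pos M with h | h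
    · exfalso
      rw [h] at h9'
      have h2 : (N : ℂ) * ((cj N : RR) : ℂ) = 0 := by
        rw [h9']; simp
      rcases mul_eq_zero.1 h2 with h3 | h3
      · exact Pool.Agent.TH936.PU.coe_ne hN h3
      · rw [cj_coe, map_eq_zero] at h3
        exact Pool.Agent.TH936.PU.coe_ne hN h3
    · exact h
  · have h3 := hL.mul (cj N) _ hz
    convert h3 using 1
    have e : (M : ℂ) = (N : ℂ) * ((cj N : RR) : ℂ) := by
      rw [h9']
    rw [e]
    ring

theorem E0_ds (hL : IsLat L RR Ω)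
    (hpq : ∀ l ∈ L.lattice, eta L l = p * l + q * (starRingEnd ℂ) l) (r : ℕ) {N : RR}
    (hN : N ≠ 0) : Pool.Agent.R426.QD.Ds L Ω N (fun c => gm r (c : ℂ)) (E0 L p q r) := by
  refine ⟨fun z w h => E0_per hpq r h, fun c hc _ _ z hz => ?_⟩
  obtain ⟨M, hM, -, hMz⟩ := nat_kill hL hN hz
  exact E0_dist hL hpq r hc hM hMz

section ds

variable {N : RR} {lam : RR → ℂ} {W : ℂ → ℂ}

/-- composition with a unit -/
theorem ds_comp (hL : IsLat L RR Ω) (hW : Pool.Agent.R426.QD.Ds L Ω N lam W) (g : RR) (hg : IsCoprime g N) :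
    Pool.Agent.R426.QD.Ds L Ω N lam (fun z => W (g * z)) := by
  refine ⟨fun z w h => hW.per _ _ ?_, fun c hc hcN _ z hz => ?_⟩
  · have := hL.mul g _ h
    rwa [mul_sub] at this
  · have hgc : IsCoprime g c := hg.of_isCoprime_of_dvd_right hcN
    have hc' := Pool.Agent.TH936.PU.coe_ne hc
    have hper : Pe c (fun x => W (g * z + Ω * x / c)) := by
      intro x x' hx
      refine hW.per _ _ ?_
      have h1 := (div_mem_iff hL hc (x - x')).2 hx
      convert h1 using 1
      push_cast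
      ring
    have h1 := sum_unit hgc hper
    have h2 := hW.dist c hc hcN (g * z) (by
      have := hL.mul g _ hz
      convert this using 1
      ring)
    have e : (g : ℂ) * (c * z) = c * (g * z) := by ring
    rw [e, ← h2, ← h1]
    refine Finset.sum_congr rfl fun t _ => ?_
    congr 1
    push_cast
    ring

theorem ds_lin {W' : ℂ → ℂ} (hW : Pool.Agent.R426.QD.Ds L Ω N lam W) (hW' : Pool.Agent.R426.QD.Ds L Ω N lam W') (a b : ℂ) :
    Pool.Agent.R426.QD.Ds L Ω N lam (fun z => a * W z + b * W' z) := by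
  refine ⟨fun z w h => ?_, fun c hc hcN _ z hz => ?_⟩
  · rw [hW.per _ _ h, hW'.per _ _ h]
  · rw [Finset.sum_add_distrib, ← Finset.mul_sum, ← Finset.mul_sum, hW.dist c hc hcN z hz,
      hW'.dist c hc hcN z hz]
    ring

/-- the sum of the composition -/
theorem bq_comp (hL : IsLat L RR Ω) (hW : Pool.Agent.R426.QD.Ds L Ω N lam W) {n g : RR} (hn : n ≠ 0)
    (hg : IsCoprime g n) {φ : RR → ℂ} (hφ : Pe n φ) {κ : ℂ} (hm : ∀ x, φ (g * x) = κ * φ x)
    (hκ : κ * κ = 1) : Pool.Agent.R426.QD.Bd Ω (fun z => W (g * z)) n φ = κ * Pool.Agent.R426.QD.Bd Ω W n φ := by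
  have f1 := fin_quot hn
  let _ : Fintype (RR ⧸ sp n) := Fintype.ofFinite _
  rw [Pool.Agent.R426.QD.Bd_eq, Pool.Agent.R426.QD.Bd_eq,
    ← sum_unit hg (F := fun x => φ x * W (Ω * x / (n : ℂ)))
      (fun x y h => Pool.Agent.R426.QD.Bd_term hW hL hn hφ h), Finset.mul_sum]
  refine Finset.sum_congr rfl fun x _ => ?_
  rw [hm]
  have e : (g : ℂ) * (Ω * x.out / n) = Ω * ((g * x.out : RR) : ℂ) / n := by
    push_cast
    ring
  rw [e]
  linear_combination (-(φ x.out * W (Ω * ((g * x.out : RR) : ℂ) / n))) * hκ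

lemma bq_lin {W' : ℂ → ℂ} {n : RR} (hn : n ≠ 0) (φ : RR → ℂ) (a b : ℂ) :
    Pool.Agent.R426.QD.Bd Ω (fun z => a * W z + b * W' z) n φ = a * Pool.Agent.R426.QD.Bd Ω W n φ + b * Pool.Agent.R426.QD.Bd Ω W' n φ := by
  have f1 := fin_quot hn
  let _ : Fintype (RR ⧸ sp n) := Fintype.ofFinite _
  rw [Pool.Agent.R426.QD.Bd_eq, Pool.Agent.R426.QD.Bd_eq, Pool.Agent.R426.QD.Bd_eq,
    Finset.mul_sum, Finset.mul_sum, ← Finset.sum_add_distrib]
  exact Finset.sum_congr rfl fun x _ => by ring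

end ds

end Pool.Agent.N843.X
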