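import Pool.Agent.N843.Xa
import Pool.Agent.R426.QD.Qd

/-!
# The depleted distributions
-/

set_option autoImplicit false
set_option linter.unusedSectionVars false
set_option linter.unusedSimpArgs false

open Filter
open scoped Topology PeriodPair

namespace Pool.Agent.N843.X

open H667R3 Pool.Agent.TH936.CW Pool.Agent.W192.HK Pool.Agent.Y690.NV Pool.Agent.TH936.PU
open Pool.Agent.N843
open Pool.Agent.Y698 (RR al al_sq al_ne bl bl_ne al_mul_bl LD tA tB aR aR_coe bR bR_coe cX cY co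
  co_uniq al_im_pos Xx_per Tb v_two v_two_lt v_bl fin_quot aR_mul_bR two_coe nR cj mul_cj cj_coe
  nR_mul)
open Pool.Agent.Y698.SG (Pe Mu Rd)
open Pool.Agent.TH936.CM (IsLat Dd)


variable {L : PeriodPair} {Ω p q : ℂ}

/-- odd moduli -/
structure No (N : RR) : Prop where
  ne : N ≠ 0
  a : IsCoprime aR N
  b : IsCoprime bR N

lemma two_aR_bR : (2 : RR) = aR * bR := aR_mul_bR.symm

lemma nR_odd {N : RR} (h : No N) : ¬ (2 : ℤ) ∣ nR N := by
  rintro ⟨k, hk⟩
  have h1 := mul_cj N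
  rw [hk] at h1
  push_cast at h1
  have ha : Prime aR := Pool.Agent.R426.QC.prime_aR
  have h2 : aR ∣ N * cj N := by
    rw [h1, two_aR_bR]
    exact ⟨bR * k, by ring⟩
  rcases ha.dvd_or_dvd h2 with h3 | h3
  · exact ha.not_isUnit (h.a.isUnit_of_dvd' dvd_rfl h3)
  · obtain ⟨c, hc⟩ := h3
    have h4 : N = bR * cj c := by
      have h5 := congrArg cj hc
      rw [map_mul, Pool.Agent.Y698.cj_cj, Pool.Agent.R426.QC.cj_aR] at h5
      exact h5
    have hb : Prime bR := Pool.Agent.N843.prime_bR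
    exact hb.not_isUnit (h.b.isUnit_of_dvd' dvd_rfl ⟨_, h4⟩)

lemma No.od (hL : IsLat L RR Ω) {N : RR} (h : No N) {z : ℂ} (hz : (N : ℂ) * z ∈ L.lattice) :
    Od L z := by
  obtain ⟨M, hM, h1, h2⟩ := nat_kill hL h.ne hz
  refine ⟨M, ?_, h2⟩
  have h3 := nR_odd h
  rw [← h1] at h3
  rw [← Nat.not_even_iff_odd]
  rintro ⟨k, hk⟩
  exact h3 ⟨k, by rw [hk]; push_cast; ring⟩

/-- the depleted numbers -/
noncomputable def G (L : PeriodPair) (p q Ω : ℂ) (r : ℕ) (z : ℂ) : ℂ :=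
  ((r.factorial : ℂ) * cT L Ω ^ (2 * r + 1) * gm r bl * gm r bl) *
    E0 L p q r (((bR * bR : RR) : ℂ) * z) +
  (-((r.factorial : ℂ) * cT L Ω ^ (2 * r + 1) * gm r bl)) * E0 L p q r ((bR : ℂ) * z)

/-- the depleted numbers of weight one -/
noncomputable def GD (L : PeriodPair) (p q Ω : ℂ) (z : ℂ) : ℂ :=
  1 * G L p q Ω 0 z + (-bl⁻¹) * G L p q Ω 0 ((aR : ℂ) * z)

lemma G_eq (hL : IsLat L RR Ω)
    (hpq : ∀ l ∈ L.lattice, eta L l = p * l + q * (starRingEnd ℂ) l) (r : ℕ) {z : ℂ}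
    (hz : Od L z) : G L p q Ω r z = HS L p q Ω r z := by
  unfold G
  have e1 : ((bR * bR : RR) : ℂ) * z = bl * (bl * z) := by
    push_cast
    rw [bR_coe]
    ring
  rw [e1, bR_coe]
  by_cases h : z ∈ L.lattice
  · rw [HS_lat h, E0_lat (bl_mem hL (bl_mem hL h)), E0_lat (bl_mem hL h)]
    ring
  · have h1 := hz.bl_ne hL h
    have h2 := (hz.bl hL).bl_ne hL h1
    rw [HS_of h, ek_bl2 hL hpq r hz h, E0_of h1, E0_of h2]
    ring

lemma GD_eq (hL : IsLat L RR Ω)
    (hpq : ∀ l ∈ L.lattice, eta L l = p * l + q * (starRingEnd ℂ) l) {z : ℂ}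
    (hz : Od L z) : GD L p q Ω z = HD L p q Ω z := by
  unfold GD HD
  rw [aR_coe, G_eq hL hpq 0 hz, G_eq hL hpq 0 (hz.al hL)]
  ring

section ds

variable (hL : IsLat L RR Ω) (hpq : ∀ l ∈ L.lattice, eta L l = p * l + q * (starRingEnd ℂ) l)
include hL hpq

theorem G_ds (r : ℕ) {N : RR} (hN : No N) :
    Pool.Agent.R426.QD.Ds L Ω N (fun c => gm r (c : ℂ)) (G L p q Ω r) := by
  have h := E0_ds hL hpq r hN.ne
  exact ds_lin (ds_comp hL h _ (hN.b.mul_left hN.b)) (ds_comp hL h _ hN.b) _ _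

theorem GD_ds {N : RR} (hN : No N) :
    Pool.Agent.R426.QD.Ds L Ω N (fun c => gm 0 (c : ℂ)) (GD L p q Ω) := by
  have h := G_ds hL hpq 0 hN
  exact ds_lin h (ds_comp hL h _ hN.a) _ _

omit hL hpq in
lemma G_neg (r : ℕ) (z : ℂ) : G L p q Ω r (-z) = -G L p q Ω r z := by
  unfold G
  rw [mul_neg, mul_neg, E0_neg, E0_neg]
  ring

omit hL hpq in
lemma GD_neg (z : ℂ) : GD L p q Ω (-z) = -GD L p q Ω z := by
  unfold GD
  rw [mul_neg, G_neg, G_neg]
  ring

/-- the sums of the depleted numbers -/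
theorem bq_G (r : ℕ) {N n : RR} (hN : No N) (hn : n ≠ 0) (hnN : n ∣ N) {φ : RR → ℂ}
    (hφ : Pe n φ) (hm : ∀ x y, φ (x * y) = φ x * φ y) (hκ : φ bR * φ bR = 1) :
    Pool.Agent.R426.QD.Bd Ω (G L p q Ω r) n φ = ((r.factorial : ℂ) * cT L Ω ^ (2 * r + 1) * gm r bl *
      (gm r bl - φ bR)) * Pool.Agent.R426.QD.Bd Ω (E0 L p q r) n φ := by
  have h := E0_ds hL hpq r hN.ne
  have hb : IsCoprime bR n := hN.b.of_isCoprime_of_dvd_right hnN
  unfold G
  rw [bq_lin hn, bq_comp hL h hn (hb.mul_left hb) hφ (κ := 1) (fun x => by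
      rw [hm, hm]
      linear_combination (φ x) * hκ) (one_mul 1),
    bq_comp hL h hn hb hφ (hm bR) hκ]
  ring

theorem bq_GD {N n : RR} (hN : No N) (hn : n ≠ 0) (hnN : n ∣ N) {φ : RR → ℂ}
    (hφ : Pe n φ) (hm : ∀ x y, φ (x * y) = φ x * φ y) (hκ : φ bR * φ bR = 1)
    (hκ' : φ aR * φ aR = 1) :
    Pool.Agent.R426.QD.Bd Ω (GD L p q Ω) n φ = ((bl - φ aR) * (cT L Ω * (bl - φ bR))) *
      Pool.Agent.R426.QD.Bd Ω (E0 L p q 0) n φ := by
  have h := G_ds hL hpq 0 hN
  have ha : IsCoprime aR n := hN.a.of_isCoprime_of_dvd_right hnN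
  have hb := bl_ne
  unfold GD
  rw [bq_lin hn, bq_comp hL h hn ha hφ (hm aR) hκ', bq_G hL hpq 0 hN hn hnN hφ hm hκ, gm_zero]
  simp only [Nat.factorial_zero, Nat.cast_one, mul_zero, zero_add, pow_one]
  field_simp
  ring

end ds

/-! ### weight one -/

section one

variable (hL : IsLat L RR Ω) (hpq : ∀ l ∈ L.lattice, eta L l = p * l + q * (starRingEnd ℂ) l)
include hL hpq

/-- the difference in terms of the numbers -/
lemma V0_eq {z : ℂ} (ho : Od L z) (hz : z ∉ L.lattice) :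
    Pool.Agent.R426.QD.V0 L Ω z = 2 * bl * E0 L p q 0 (bl * z) - 4 * E0 L p q 0 z := by
  classical
  obtain ⟨N, hN1, hN2⟩ := id ho
  have hbz := ho.bl_ne hL hz
  have hB := Pool.Agent.Y698.tB_mem hL
  have n1 : z + tB Ω ∉ L.lattice := fun h => hbz (by
    have := sub_mem (bl_mem hL h) hB
    convert this using 1
    ring)
  have n2 : z - tB Ω ∉ L.lattice := fun h => hbz (by
    have := add_mem (bl_mem hL h) hB
    convert this using 1
    ring)
  have k2 := ek_two hL hpq bR_ne0 bR_bij 0 hN1.pos (z := z) hN2 (by rw [bR_coe]; exact hbz)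
  rw [bR_coe, gm_zero] at k2
  have e2 : z + Ω / bl = z + tB Ω := by unfold tB; ring
  rw [e2] at k2
  have e3 : ek L p q 0 (z - tB Ω) = ek L p q 0 (z + tB Ω) := ek_per hpq 0 n1 (by
    have := neg_mem (Pool.Agent.Y698.two_tB hL)
    convert this using 1
    ring)
  have k3 := e1_sec (p := p) (q := q) hz (Pool.Agent.Y698.tB_notMem hL) n1 n2
  rw [← ek_zero n1, ← ek_zero n2, ← ek_zero hz, e3] at k3
  unfold Pool.Agent.R426.QD.V0
  rw [if_neg hbz, E0_of hbz, E0_of hz, ← k3]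
  linear_combination 2 * k2

/-- the numbers of the library -/
theorem Wm_eq {N : RR} {m : ℕ} (hN : Pool.Agent.R426.QD.Lv N m) (hNo : No N) {z : ℂ}
    (hz : (N : ℂ) * z ∈ L.lattice) :
    Pool.Agent.R426.QD.Wm L Ω m z = 2 * E0 L p q 0 z := by
  classical
  have hb := bl_ne
  have hal := Pool.Agent.R426.QD.al_pow_ne hN.m0
  unfold Pool.Agent.R426.QD.Wm
  by_cases h0 : z ∈ L.lattice
  · rw [E0_lat h0, mul_zero]
    have h1 : ∀ j ∈ Finset.range m, al ^ (m - 1 - j) *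
        Pool.Agent.R426.QD.V0 L Ω (bl ^ j * z) = 0 := by
      intro j _
      have h2 : bl ^ j * z ∈ L.lattice := by
        have := hL.mul (bR ^ j) z h0
        push_cast at this
        rwa [bR_coe] at this
      unfold Pool.Agent.R426.QD.V0
      rw [if_pos (bl_mem hL h2), mul_zero]
    rw [Finset.sum_eq_zero h1, mul_zero, mul_zero]
  · have hV : ∀ j : ℕ, Pool.Agent.R426.QD.V0 L Ω (bl ^ j * z) =
        2 * bl * E0 L p q 0 (bl ^ (j + 1) * z) - 4 * E0 L p q 0 (bl ^ j * z) := by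
      intro j
      have h1 := hNo.od hL (Pool.Agent.R426.QD.mul_bl_mem hL hz j)
      rw [V0_eq hL hpq h1 (hN.good' hL hz h0 j), pow_succ']
      congr 3
      ring
    have hs : ∀ k : ℕ, bl⁻¹ * ∑ j ∈ Finset.range k, al ^ (k - 1 - j) *
        Pool.Agent.R426.QD.V0 L Ω (bl ^ j * z) =
        2 * (E0 L p q 0 (bl ^ k * z) - al ^ k * E0 L p q 0 z) := by
      intro k
      induction k with
      | zero => simp
      | succ k ih =>
        rw [Finset.sum_range_succ]
        have e3 : ∀ j ∈ Finset.range k, al ^ (k + 1 - 1 - j) *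
            Pool.Agent.R426.QD.V0 L Ω (bl ^ j * z) =
            al * (al ^ (k - 1 - j) * Pool.Agent.R426.QD.V0 L Ω (bl ^ j * z)) := by
          intro j hj
          rw [Finset.mem_range] at hj
          have : k + 1 - 1 - j = (k - 1 - j) + 1 := by omega
          rw [this, pow_succ]
          ring
        rw [Finset.sum_congr rfl e3, ← Finset.mul_sum]
        have e4 : k + 1 - 1 - k = 0 := by omega
        rw [e4, pow_zero, one_mul, hV k]
        have e5 : bl⁻¹ * (al * ∑ j ∈ Finset.range k, al ^ (k - 1 - j) *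
            Pool.Agent.R426.QD.V0 L Ω (bl ^ j * z)) = al * (2 * (E0 L p q 0 (bl ^ k * z) -
              al ^ k * E0 L p q 0 z)) := by
          rw [← ih]
          ring
        rw [mul_add, e5]
        have e6 : bl⁻¹ * (2 * bl * E0 L p q 0 (bl ^ (k + 1) * z) -
            4 * E0 L p q 0 (bl ^ k * z)) = 2 * E0 L p q 0 (bl ^ (k + 1) * z) -
            2 * al * E0 L p q 0 (bl ^ k * z) := by
          have e7 : (4 : ℂ) = 2 * (al * bl) := by rw [al_mul_bl]; norm_num
          rw [e7]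
          field_simp
        rw [e6, pow_succ' al k]
        ring
    rw [hs m]
    have e7 : E0 L p q 0 (bl ^ m * z) = E0 L p q 0 z := E0_per hpq 0 (hN.per hL hz)
    rw [e7]
    have e8 : 2 * (E0 L p q 0 z - al ^ m * E0 L p q 0 z) = (1 - al ^ m) *
        (2 * E0 L p q 0 z) := by ring
    rw [e8, inv_mul_cancel_left₀ hal]

end one

end Pool.Agent.N843.X
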