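import Pool.Agent.N843.Xb
import Pool.Agent.R426.QD.Cf

/-!
# The congruence between the sums, families of both types
-/

set_option autoImplicit false
set_option linter.unusedSectionVars false
set_option linter.unusedSimpArgs false

open Filter
open scoped Topology PeriodPair

namespace Pool.Agent.N843.X

open H667R3 Pool.Agent.TH936.CW Pool.Agent.W192.HK Pool.Agent.Y690.NV Pool.Agent.TH936.PU
open Pool.Agent.N843
open Pool.Agent.Y698 (RR al al_sq al_ne bl bl_ne al_mul_bl LD tA tB aR aR_coe bR bR_coe cX cY co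
  co_uniq al_im_pos Xx_per Tb v_two v_two_lt v_bl fin_quot aR_mul_bR two_coe nR cj mul_cj cj_coe
  nR_mul e7 fR fR_ne)
open Pool.Agent.Y698.SG (Pe Mu Rd sy sy_per hc hc_val hcprod tr v_RR gd mc mr S_REC lg)
open Pool.Agent.TH936.CM (IsLat Dd)
open Pool.Agent.R426.QD (Pn Fa r4 r4_zero tp nb nb_or nb_r4 Lv pe C7 fa_ext c7_cop)


variable {L : PeriodPair} {Ω p q : ℂ}
variable {ι : Type} [DecidableEq ι] {π : ι → RR}

lemma pn_cop_a {ϖ : RR} (h : Pn ϖ) : IsCoprime aR ϖ := by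
  refine IsCoprime.symm ((h.pr.irreducible.coprime_iff_not_dvd).2 fun h1 => h.od ?_)
  rw [← aR_mul_bR]
  exact h1.mul_right _

lemma fa_no {S : Finset ι} (hS : Fa S π) : No (∏ i ∈ S, π i) :=
  ⟨hS.prod_ne, IsCoprime.prod_right fun i hi => pn_cop_a (hS.pn i hi),
    IsCoprime.prod_right fun i hi => (hS.pn i hi).cop_b⟩

/-- the normalized sums -/
noncomputable def bq (Ω : ℂ) (W : ℂ → ℂ) (π : ι → RR) (A : Finset ι) : ℂ :=
  Pool.Agent.R426.QD.Bd Ω W (∏ i ∈ A, π i) (fun m => ∏ i ∈ A, sy (π i) m) / 2 ^ A.card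

/-- the Euler factors -/
noncomputable def er (lam : RR → ℂ) (π : ι → RR) (S A : Finset ι) : ℂ :=
  ∏ i ∈ S \ A, ((lam (π i) - ∏ j ∈ A, sy (π j) (π i)) / 2)

lemma rec_q {N : RR} {lam : RR → ℂ} {W : ℂ → ℂ} (hW : Pool.Agent.R426.QD.Ds L Ω N lam W) (hL : IsLat L RR Ω)
    {S : Finset ι} (hS : Fa S π) (hN : ∏ i ∈ S, π i ∣ N) :
    bq Ω W π S + ∑ A ∈ S.powerset.erase S, er lam π S A * bq Ω W π A =
      Pool.Agent.R426.QD.Bd Ω W (∏ i ∈ S, π i) (fun m => ∏ i ∈ S, hc (π i) m) := by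
  have h2 := Pool.Agent.R426.QD.Bd_subsets hW hL S hS hN
  have h20 : (2 : ℂ) ^ S.card ≠ 0 := pow_ne_zero _ two_ne_zero
  have h3 : ∀ A ∈ S.powerset, (∏ i ∈ S \ A, (lam (π i) - ∏ j ∈ A, sy (π j) (π i))) *
      Pool.Agent.R426.QD.Bd Ω W (∏ i ∈ A, π i) (fun m => ∏ i ∈ A, sy (π i) m) =
      2 ^ S.card * (er lam π S A * bq Ω W π A) := by
    intro A hA
    rw [Finset.mem_powerset] at hA
    have hcs : S.card = (S \ A).card + A.card := (Finset.card_sdiff_add_card_eq_card hA).symm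
    unfold er bq
    rw [Finset.prod_div_distrib, Finset.prod_const, hcs, pow_add]
    field_simp
  rw [Finset.sum_congr rfl h3, ← Finset.mul_sum] at h2
  have h4 := mul_left_cancel₀ h20 h2
  rw [← h4, ← Finset.add_sum_erase _ _ (Finset.mem_powerset_self S)]
  congr 1
  unfold er
  rw [Finset.sdiff_self, Finset.prod_empty, one_mul]

section val

variable {Γ : Type*} [LinearOrderedCommGroupWithZero Γ] {v : Valuation ℂ Γ}
variable (hv : v al < 1)
include hv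

lemma v_r4 {x : RR} (h : r4 x = 1) : v ((x : ℂ) - 1) ≤ v 4 := by
  obtain ⟨u, hu⟩ := r4_zero (x := x - 1) (by rw [map_sub, h, map_one, sub_self])
  have hu' : (x : ℂ) - 1 = al ^ 2 * (u : ℂ) := by
    have h1 := congrArg (fun r : RR => (r : ℂ)) hu
    push_cast at h1
    rw [aR_coe] at h1
    exact h1
  rw [hu', map_mul, map_pow, v_four2 hv, v_two hv, ← pow_two]
  exact mul_le_of_le_one_right' (v_RR hv u)

omit hv in
lemma v_pw {x : ℂ} (h : v (x - 1) ≤ v 4) (h1 : v x ≤ 1) (n : ℕ) : v (x ^ n - 1) ≤ v 4 := by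
  induction n with
  | zero => rw [pow_zero, sub_self, map_zero]; exact zero_le
  | succ n ih =>
    have e : x ^ (n + 1) - 1 = x * (x ^ n - 1) + (x - 1) := by ring
    rw [e]
    refine v_add_le ?_ h
    rw [map_mul]
    calc v x * v (x ^ n - 1) ≤ 1 * v 4 := mul_le_mul' h1 ih
      _ = v 4 := one_mul _

lemma v_four_lt : v (4 : ℂ) < 1 := by
  rw [v_four2 hv]
  have := v_two_lt hv
  calc v (2 : ℂ) * v 2 ≤ v 2 * 1 := mul_le_mul_right this.le _
    _ < 1 := by rwa [mul_one]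

lemma v_unit4 {x : ℂ} (h : v (x - 1) ≤ v 4) : v x = 1 := by
  have e : x = 1 + (x - 1) := by ring
  rw [e]
  exact v.map_one_add_of_lt (h.trans_lt (v_four_lt hv))

lemma v_gmP (n : ℕ) {ϖ : RR} (h : Pn ϖ) : v (gm (2 * n) (ϖ : ℂ) - 1) ≤ v 4 := by
  rw [gm_eq, ← cj_coe]
  have k1 := v_r4 hv h.r4
  have k2 := v_r4 hv (nb_r4 h)
  have u1 := v_unit4 hv k1
  have u2 := v_unit4 hv k2
  have e1 : ((cj ϖ : RR) : ℂ) ^ (2 * n) = ((cj (nb ϖ) : RR) : ℂ) ^ (2 * n) := by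
    rcases nb_or ϖ with h1 | h1 <;> rw [h1]
    rw [map_neg]
    push_cast
    rw [Even.neg_pow (even_two_mul n)]
  rw [e1]
  have h1 := v_pw k1 u1.le (2 * n + 1)
  have h2 := v_pw k2 u2.le (2 * n)
  have h3 : ((cj (nb ϖ) : RR) : ℂ) ^ (2 * n) ≠ 0 := by
    intro h
    have := congrArg v h
    rw [map_pow, u2, one_pow, map_zero] at this
    exact one_ne_zero this
  have e : (ϖ : ℂ) ^ (2 * n + 1) / ((cj (nb ϖ) : RR) : ℂ) ^ (2 * n) - 1 =
      (((ϖ : ℂ) ^ (2 * n + 1) - 1) - (((cj (nb ϖ) : RR) : ℂ) ^ (2 * n) - 1)) /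
        ((cj (nb ϖ) : RR) : ℂ) ^ (2 * n) := by
    field_simp
    ring
  rw [e, map_div₀, map_pow v, u2, one_pow, div_one]
  exact v_sub_le h1 h2

omit hv [DecidableEq ι] in
lemma chi_sgn {S A : Finset ι} (hS : Fa S π) {i : ι} (hi : i ∈ S) (hA : A ⊆ S) (hiA : i ∉ A) :
    (∏ j ∈ A, sy (π j) (π i)) = 1 ∨ (∏ j ∈ A, sy (π j) (π i)) = -1 :=
  (Pool.Agent.Y698.SG.sgn_prod (s := A) (f := fun j => sy (π j) (π i)) fun j hj =>
    Pool.Agent.Y698.SG.sy_sgn (hS.ne i hi j (hA hj) fun h => hiA (h ▸ hj))).1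

lemma v_fac (n : ℕ) {S A : Finset ι} (hS : Fa S π) (hA : A ⊆ S) :
    ∀ i ∈ S \ A, v ((gm (2 * n) (π i : ℂ) - ∏ j ∈ A, sy (π j) (π i)) / 2) ≤ 1 := by
  intro i hi
  obtain ⟨hiS, hiA⟩ := Finset.mem_sdiff.1 hi
  have h1 := chi_sgn hS hiS hA hiA
  have h2 := v_gmP hv n (hS.pn i hiS)
  have h20 := v_two0 hv
  have e : (gm (2 * n) (π i : ℂ) - ∏ j ∈ A, sy (π j) (π i)) / 2 =
      (gm (2 * n) (π i : ℂ) - 1) / 2 + (1 - ∏ j ∈ A, sy (π j) (π i)) / 2 := by
    ring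
  rw [e]
  refine v_add_le (v_half h20 ?_) ?_
  · rw [mul_one]
    refine h2.trans ?_
    rw [v_four2 hv]
    exact mul_le_of_le_one_right' (v_two_lt hv).le
  · rcases h1 with h1 | h1 <;> rw [h1]
    · rw [sub_self, zero_div, map_zero]
      exact zero_le_one
    · have : (1 - (-1) : ℂ) / 2 = 1 := by norm_num
      rw [this, map_one]

lemma v_er (n : ℕ) {S A : Finset ι} (hS : Fa S π) (hA : A ⊆ S) :
    v (er (fun c => gm (2 * n) (c : ℂ)) π S A) ≤ 1 := by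
  unfold er
  exact Pool.Agent.Y698.v_prod_le _ fun i hi => v_fac hv n hS hA i hi

lemma v_er_sub (n : ℕ) {S A : Finset ι} (hS : Fa S π) (hA : A ⊆ S) :
    v (er (fun c => gm (2 * n) (c : ℂ)) π S A - er (fun c => gm 0 (c : ℂ)) π S A) ≤ v 2 := by
  unfold er
  have key : ∀ B ⊆ S \ A, v (∏ i ∈ B, ((gm (2 * n) (π i : ℂ) - ∏ j ∈ A, sy (π j) (π i)) / 2) -
      ∏ i ∈ B, ((gm 0 (π i : ℂ) - ∏ j ∈ A, sy (π j) (π i)) / 2)) ≤ v 2 := by
    intro B
    induction B using Finset.induction_on with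
    | empty =>
      intro _
      rw [Finset.prod_empty, Finset.prod_empty, sub_self, map_zero]
      exact zero_le
    | insert j B hj ih =>
      intro hB
      have hjS : j ∈ S \ A := hB (Finset.mem_insert_self _ _)
      have hBs : B ⊆ S \ A := (Finset.subset_insert _ _).trans hB
      have ih' := ih hBs
      rw [Finset.prod_insert hj, Finset.prod_insert hj]
      set X := ∏ i ∈ B, ((gm (2 * n) (π i : ℂ) - ∏ j ∈ A, sy (π j) (π i)) / 2)
      set Y := ∏ i ∈ B, ((gm 0 (π i : ℂ) - ∏ j ∈ A, sy (π j) (π i)) / 2) with hY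
      have hYv : v Y ≤ 1 := by
        rw [hY]
        exact Pool.Agent.Y698.v_prod_le _ fun i hi => by
          have := v_fac hv 0 hS hA i (hBs hi)
          rwa [mul_zero] at this
      have hx := v_fac hv n hS hA j hjS
      have hpn := hS.pn j (Finset.mem_sdiff.1 hjS).1
      have hd : v ((gm (2 * n) (π j : ℂ) - ∏ j' ∈ A, sy (π j') (π j)) / 2 -
          (gm 0 (π j : ℂ) - ∏ j' ∈ A, sy (π j') (π j)) / 2) ≤ v 2 := by
        have e : (gm (2 * n) (π j : ℂ) - ∏ j' ∈ A, sy (π j') (π j)) / 2 -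
            (gm 0 (π j : ℂ) - ∏ j' ∈ A, sy (π j') (π j)) / 2 =
            ((gm (2 * n) (π j : ℂ) - 1) - (gm 0 (π j : ℂ) - 1)) / 2 := by
          ring
        rw [e]
        refine v_half (v_two0 hv) ?_
        rw [← v_four2 hv]
        have h0 := v_gmP hv 0 hpn
        rw [mul_zero] at h0
        exact v_sub_le (v_gmP hv n hpn) h0
      have e : (gm (2 * n) (π j : ℂ) - ∏ j' ∈ A, sy (π j') (π j)) / 2 * X -
          (gm 0 (π j : ℂ) - ∏ j' ∈ A, sy (π j') (π j)) / 2 * Y =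
          (gm (2 * n) (π j : ℂ) - ∏ j' ∈ A, sy (π j') (π j)) / 2 * (X - Y) +
          ((gm (2 * n) (π j : ℂ) - ∏ j' ∈ A, sy (π j') (π j)) / 2 -
          (gm 0 (π j : ℂ) - ∏ j' ∈ A, sy (π j') (π j)) / 2) * Y := by
        ring
      rw [e]
      refine v_add_le ?_ ?_
      · rw [map_mul]
        calc _ ≤ 1 * v 2 := mul_le_mul' hx ih'
          _ = v 2 := one_mul _
      · rw [map_mul]
        calc _ ≤ v 2 * 1 := mul_le_mul' hd hYv
          _ = v 2 := mul_one _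
  exact key _ (subset_refl _)

/-! ### weight one -/

omit hv in
lemma chi_mul {A : Finset ι} (hA : Fa A π) (x y : RR) :
    ∏ i ∈ A, sy (π i) (x * y) = (∏ i ∈ A, sy (π i) x) * ∏ i ∈ A, sy (π i) y := by
  rw [← Finset.prod_mul_distrib]
  exact Finset.prod_congr rfl fun i hi => (hA.pn i hi).mul x y

omit hv in
lemma chi_unit {A : Finset ι} (hA : Fa A π) {x : RR} (hx : ∀ i ∈ A, x ∉ sp (π i)) :
    (∏ i ∈ A, sy (π i) x) = 1 ∨ (∏ i ∈ A, sy (π i) x) = -1 :=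
  (Pool.Agent.Y698.SG.sgn_prod (s := A) (f := fun j => sy (π j) x) fun j hj =>
    Pool.Agent.Y698.SG.sy_sgn (hx j hj)).1

omit hv in
lemma pn_aR {ϖ : RR} (h : Pn ϖ) : aR ∉ sp ϖ := fun h1 =>
  h.pr.not_isUnit ((pn_cop_a h).symm.isUnit_of_dvd' dvd_rfl (Ideal.mem_span_singleton.1 h1))

omit hv in
lemma pn_bR {ϖ : RR} (h : Pn ϖ) : bR ∉ sp ϖ := fun h1 =>
  h.pr.not_isUnit (h.cop_b.symm.isUnit_of_dvd' dvd_rfl (Ideal.mem_span_singleton.1 h1))

omit hv in
lemma sq_one_of {κ : ℂ} (h : κ = 1 ∨ κ = -1) : κ * κ = 1 := by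
  rcases h with h | h <;> rw [h] <;> norm_num

/-- the sums of weight one -/
lemma bq_GD_eq (hL : IsLat L RR Ω)
    (hpq : ∀ l ∈ L.lattice, eta L l = p * l + q * (starRingEnd ℂ) l) {S0 A : Finset ι}
    (hS0 : Fa S0 π) (hA : A ⊆ S0) {m : ℕ} (hN : Lv (∏ i ∈ S0, π i) m) :
    bq Ω (GD L p q Ω) π A = (bl - ∏ i ∈ A, sy (π i) aR) * (cT L Ω / 2 *
      (bl - ∏ i ∈ A, sy (π i) bR)) *
      (Pool.Agent.R426.QD.Bd Ω (Pool.Agent.R426.QD.Wm L Ω m) (∏ i ∈ A, π i) (fun m => ∏ i ∈ A, sy (π i) m) /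
        2 ^ A.card) := by
  have hAf := hS0.mono hA
  have hNo := fa_no hS0
  have hn := hAf.prod_ne
  have hnN : ∏ i ∈ A, π i ∣ ∏ i ∈ S0, π i := Finset.prod_dvd_prod_of_subset _ _ _ hA
  have h1 := bq_GD hL hpq hNo hn hnN (φ := fun m => ∏ i ∈ A, sy (π i) m)
    (Pe.prod fun p _ => sy_per (π p)) (chi_mul hAf)
    (sq_one_of (chi_unit hAf fun i hi => pn_bR (hAf.pn i hi)))
    (sq_one_of (chi_unit hAf fun i hi => pn_aR (hAf.pn i hi)))
  have h2 : Pool.Agent.R426.QD.Bd Ω (Pool.Agent.R426.QD.Wm L Ω m) (∏ i ∈ A, π i) (fun m => ∏ i ∈ A, sy (π i) m) =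
      2 * Pool.Agent.R426.QD.Bd Ω (E0 L p q 0) (∏ i ∈ A, π i) (fun m => ∏ i ∈ A, sy (π i) m) := by
    have f1 := fin_quot hn
    let _ : Fintype (RR ⧸ sp (∏ i ∈ A, π i)) := Fintype.ofFinite _
    rw [Pool.Agent.R426.QD.Bd_eq, Pool.Agent.R426.QD.Bd_eq, Finset.mul_sum]
    refine Finset.sum_congr rfl fun x _ => ?_
    rw [Wm_eq hL hpq hN hNo (Pool.Agent.R426.QD.pt_lat hL hn hnN _)]
    ring
  unfold bq
  rw [h1, h2]
  ring

lemma lv_S0 {S0 : Finset ι} (hS0 : Fa S0 π) : ∃ m, Lv (∏ i ∈ S0, π i) m :=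
  Pool.Agent.R426.QD.lv_exists hS0.prod_ne (fa_no hS0).b

lemma v_S0 {S0 : Finset ι} (hS0 : Fa S0 π) : v ((∏ i ∈ S0, π i : RR) : ℂ) = 1 := by
  push_cast
  rw [map_prod]
  exact Finset.prod_eq_one fun o ho => (hS0.pn o ho).v_eq hv

/-- the sums of the library -/
lemma rd_Wm (hrec : S_REC) (h : LD L Ω) {S0 : Finset ι} (hS0 : Fa S0 π) {m : ℕ}
    (hN : Lv (∏ i ∈ S0, π i) m) {A : Finset ι} (hA : A ⊆ S0) (hne : A.Nonempty) :
    Rd v (Pool.Agent.R426.QD.Bd Ω (Pool.Agent.R426.QD.Wm L Ω m) (∏ i ∈ A, π i) (fun m => ∏ i ∈ A, sy (π i) m) /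
        2 ^ A.card) (gd (fun i => tp (π i)) (fun i j => lg (sy (π i) (π j))) A) :=
  Pool.Agent.R426.QD.indW hrec h.lat hv (Pool.Agent.R426.QD.lv_ds hN h.lat)
    (fun z => Pool.Agent.R426.QD.Wm_neg z)
    (fun z h1 h2 => Pool.Agent.R426.QD.Wm_one hN h hv (v_S0 hv hS0) h1 h2) hS0 dvd_rfl A hA hne

lemma v_bqGD (hrec : S_REC) (h : LD L Ω)
    (hpq : ∀ l ∈ L.lattice, eta L l = p * l + q * (starRingEnd ℂ) l) {S0 : Finset ι}
    (hS0 : Fa S0 π) {A : Finset ι} (hA : A ⊆ S0) : v (bq Ω (GD L p q Ω) π A) ≤ v 4 := by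
  have hL := h.lat
  have hAf := hS0.mono hA
  rcases Pool.Agent.R426.QD.zor (∑ i ∈ A, tp (π i)) with h0 | h1
  · have h2 := Pool.Agent.R426.QD.Bd_even (GD_ds hL hpq (fa_no hS0)) hL (fun z => GD_neg z)
      hAf.prod_ne (φ := fun m => ∏ i ∈ A, sy (π i) m) (Pe.prod fun p _ => sy_per (π p))
      (Pool.Agent.R426.QD.prod_sy_neg hAf h0)
    unfold bq
    rw [h2, zero_div, map_zero]
    exact zero_le
  · have hne : A.Nonempty := by
      rw [Finset.nonempty_iff_ne_empty]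
      rintro rfl
      rw [Finset.sum_empty] at h1
      exact zero_ne_one h1
    obtain ⟨m, hN⟩ := lv_S0 hv hS0
    have k1 := (rd_Wm hv hrec h hS0 hN hA hne).le
    rw [bq_GD_eq hv hL hpq hS0 hA hN, map_mul, map_mul, map_mul, v_c2 hv h, one_mul, v_four2 hv]
    calc _ ≤ v 2 * v 2 * 1 := mul_le_mul' (mul_le_mul'
          (v_bl_sub hv (chi_unit hAf fun i hi => pn_aR (hAf.pn i hi)))
          (v_bl_sub hv (chi_unit hAf fun i hi => pn_bR (hAf.pn i hi)))) k1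
      _ = _ := mul_one _

/-! ### the induction -/

/-- the congruence between the sums -/
theorem indX (hrec : S_REC) (h : LD L Ω)
    (hpq : ∀ l ∈ L.lattice, eta L l = p * l + q * (starRingEnd ℂ) l) (n : ℕ)
    {S0 : Finset ι} (hS0 : Fa S0 π) (S : Finset ι) (hSS : S ⊆ S0) :
    v (bq Ω (G L p q Ω (2 * n + 2)) π S - bq Ω (GD L p q Ω) π S) ≤ v 8 := by
  have hL := h.lat
  have t2 := v_two_lt hv
  have e8 := v_eight hv
  have hNo := fa_no hS0
  have hdif : ∀ z : ℂ, Od L z →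
      v (G L p q Ω (2 * n + 2) z - GD L p q Ω z) ≤ v 2 * v 4 := fun z hz => by
    rw [G_eq hL hpq _ hz, GD_eq hL hpq hz]
    exact HS_cong h hv hpq n hz
  have hG := G_ds hL hpq (2 * n + 2) hNo
  have hD := GD_ds hL hpq hNo
  induction S using Finset.strongInduction with
  | H S ih =>
    have hS := hS0.mono hSS
    have hNS : ∏ i ∈ S, π i ∣ ∏ i ∈ S0, π i := Finset.prod_dvd_prod_of_subset _ _ _ hSS
    have r1 := rec_q hG hL hS hNS
    have r2 := rec_q hD hL hS hNS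
    have hfin : bq Ω (G L p q Ω (2 * n + 2)) π S - bq Ω (GD L p q Ω) π S =
        (Pool.Agent.R426.QD.Bd Ω (G L p q Ω (2 * n + 2)) (∏ i ∈ S, π i) (fun m => ∏ i ∈ S, hc (π i) m) -
          Pool.Agent.R426.QD.Bd Ω (GD L p q Ω) (∏ i ∈ S, π i) (fun m => ∏ i ∈ S, hc (π i) m)) -
        ∑ A ∈ S.powerset.erase S, (er (fun c => gm (2 * n + 2) (c : ℂ)) π S A *
          (bq Ω (G L p q Ω (2 * n + 2)) π A - bq Ω (GD L p q Ω) π A) +
          (er (fun c => gm (2 * n + 2) (c : ℂ)) π S A - er (fun c => gm 0 (c : ℂ)) π S A) *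
            bq Ω (GD L p q Ω) π A) := by
      have e1 : ∑ A ∈ S.powerset.erase S, (er (fun c => gm (2 * n + 2) (c : ℂ)) π S A *
          (bq Ω (G L p q Ω (2 * n + 2)) π A - bq Ω (GD L p q Ω) π A) +
          (er (fun c => gm (2 * n + 2) (c : ℂ)) π S A - er (fun c => gm 0 (c : ℂ)) π S A) *
            bq Ω (GD L p q Ω) π A) = ∑ A ∈ S.powerset.erase S,
          er (fun c => gm (2 * n + 2) (c : ℂ)) π S A * bq Ω (G L p q Ω (2 * n + 2)) π A -
          ∑ A ∈ S.powerset.erase S, er (fun c => gm 0 (c : ℂ)) π S A *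
            bq Ω (GD L p q Ω) π A := by
        rw [← Finset.sum_sub_distrib]
        exact Finset.sum_congr rfl fun A _ => by ring
      rw [e1]
      linear_combination r1 - r2
    rw [hfin]
    refine v_sub_le ?_ (Valuation.map_sum_le v fun A hA => ?_)
    · have hn := hS.prod_ne
      have f1 := fin_quot hn
      let _ : Fintype (RR ⧸ sp (∏ i ∈ S, π i)) := Fintype.ofFinite _
      rw [Pool.Agent.R426.QD.Bd_eq, Pool.Agent.R426.QD.Bd_eq, ← Finset.sum_sub_distrib]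
      refine Valuation.map_sum_le v fun x _ => ?_
      rw [← mul_sub, map_mul, e8]
      have hod : Od L (Ω * (x.out : RR) / ((∏ i ∈ S, π i : RR) : ℂ)) :=
        hNo.od hL (Pool.Agent.R426.QD.pt_lat hL hn hNS _)
      calc _ ≤ 1 * (v 2 * v 4) := mul_le_mul' (hcprod (v := v) S π x.out).1 (hdif _ hod)
        _ = _ := one_mul _
    · rw [Finset.mem_erase, Finset.mem_powerset] at hA
      have hAS0 : A ⊆ S0 := hA.2.trans hSS
      have e2 : 2 * n + 2 = 2 * (n + 1) := by ring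
      refine v_add_le ?_ ?_
      · have k1 := ih A (hA.2.ssubset_of_ne hA.1) hAS0
        have k2 := v_er hv (n + 1) hS hA.2
        rw [← e2] at k2
        have := v_mul_le2 k2 k1
        rwa [one_mul] at this
      · rw [e8]
        have k3 := v_er_sub hv (n + 1) hS hA.2
        rw [← e2] at k3
        exact v_mul_le2 k3 (v_bqGD hv hrec h hpq hS0 hAS0)

end val

end Pool.Agent.N843.X
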