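import Pool.Agent.N843.Xd
import Pool.Agent.N843.Wl
import Pool.Agent.R426.QD.Mn
import Pool.Agent.R426.QD.Tr
import Pool.Agent.N818.TC.Lf
import Pool.Agent.Results.MP_787500_nt.AllWeightsMultiquadraticX49
import Pool.Agent.W287.HK.Basic
import Pool.Agent.W571.HK.Cls
import Pool.Agent.W53.HK.Fp
import Pool.Agent.W366.HK.Fpr
import Pool.Agent.W585.HK.LAT
import Pool.Agent.W692.HK.Ker
import Pool.Agent.W584.HK.CNT
import Pool.Agent.W856.HK.Dec
import Pool.Agent.W636.HK.Gauss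
import Pool.Agent.W348.HK.Pois

/-!
# The central values of the odd weights for all the twists of `X_0(49)` by `D ≡ 1 mod 8`
-/

set_option autoImplicit false
set_option linter.unusedSectionVars false
set_option linter.unusedSimpArgs false
set_option linter.unusedVariables false

open Filter IsDedekindDomain
open scoped Topology PeriodPair NumberTheorySymbols

namespace Pool.Agent.N843.X

open H667R3 Pool.Agent.TH936.CW Pool.Agent.W192.HK Pool.Agent.TH936.PU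
open Pool.Agent.N843
open Pool.Agent.Y698 (RR al al_sq al_ne bl bl_ne al_mul_bl LD aR aR_coe bR bR_coe cX cY co
  v_two v_two_lt fin_quot aR_mul_bR two_coe nR mul_cj cj_coe exists_gen e7 fR nR_aR nR_bR
  AP EX card_sp)
open Pool.Agent.Y698.SG (Pe sy gd mc mr inp)
open Pool.Agent.R384 (OO)
open Pool.Agent.R426.QD (r4 Ev tp Pn)

/-- the family of the prime factors of `D` -/
structure FD (D : ℕ) (S : Finset RR) : Prop where
  sq : Squarefree D
  m8 : D % 8 = 1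
  n7 : ¬ 7 ∣ D
  mem : ∀ p, p ∈ S ↔ Prime p ∧ p ∣ (((D : ℤ) : ℤ) : RR) ∧ r4 p = 1
  prod : (((D : ℤ) : ℤ) : RR) = ∏ p ∈ S, p
  ev : Ev S (fun p => p)

lemma exists_FD {D : ℕ} (hsq : Squarefree D) (h8 : D % 8 = 1) (h7 : ¬ 7 ∣ D) :
    ∃ S, FD D S := by
  obtain ⟨S, h1, h2, h3⟩ := Pool.Agent.N818.TC.exists_fam (D := (D : ℤ))
    (Int.squarefree_natCast.2 hsq) (by omega) (fun h => h7 (by exact_mod_cast h))
  exact ⟨S, hsq, h8, h7, h1, h2, h3⟩

lemma FD.ch_eq {D : ℕ} {S : Finset RR} (h : FD D S) (x : RR) :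
    ch (fun p : RR => p) S x = ((jacobiSym (nR x) D : ℤ) : ℂ) := by
  have h4 : (D : ℤ) = 1 + 4 * ((D / 4 : ℕ) : ℤ) := by
    have := h.m8
    omega
  have h1 := Pool.Agent.N818.TC.sym_prod (Int.squarefree_natCast.2 h.sq)
    (fun h' => h.n7 (by exact_mod_cast h')) h4 h.mem x
  rw [Int.natAbs_natCast] at h1
  exact h1

lemma FD.two {D : ℕ} {S : Finset RR} (h : FD D S) : jacobiSym 2 D = 1 := by
  have h8 := h.m8
  have hodd : Odd D := by
    rw [Nat.odd_iff]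
    omega
  rw [jacobiSym.at_two hodd, ZMod.χ₈_nat_eq_if_mod_eight]
  rw [if_neg (by omega), if_pos (Or.inl h8)]

lemma FD.chA {D : ℕ} {S : Finset RR} (h : FD D S) : ch (fun p : RR => p) S aR = 1 := by
  rw [h.ch_eq, nR_aR, h.two, Int.cast_one]

lemma FD.chB {D : ℕ} {S : Finset RR} (h : FD D S) : ch (fun p : RR => p) S bR = 1 := by
  rw [h.ch_eq, nR_bR, h.two, Int.cast_one]

lemma psiX_of {D : ℕ} {S : Finset RR} (h : FD D S) :
    PsiQ D al (psi (fun g => e7 g * ch (fun p : RR => p) S g)) := by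
  have hC := cx_ev (Fe.of h.ev)
  refine ⟨hC.psi_mul, fun x => ?_⟩
  rw [hC.psi_sp, pH_coe, e7_pH, h.ch_eq, nR_pH]

/-- **the Euler factors** -/
theorem eulX {D : ℕ} {S : Finset RR} (h : FD D S) {j : ℕ}
    (hj : D = 1 + 4 * j) {z : ℂ} (hz : z ^ 2 = z - 2)
    {ψ : Ideal OO → ℂ} (hψ : PsiQ D z ψ) (A : HeightOneSpectrum OO)
    (h7D : ((7 * (1 + 4 * j) : ℕ) : OO) ∉ A.asIdeal) :
    ((Nat.card {x : (OO ⧸ A.asIdeal) × (OO ⧸ A.asIdeal) //
        (EX (OO ⧸ A.asIdeal) (j : OO ⧸ A.asIdeal)).toAffine.Equation x.1 x.2} : ℕ) : ℂ) =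
      (Nat.card (OO ⧸ A.asIdeal) : ℂ) - (ψ A.asIdeal + (starRingEnd ℂ) (ψ A.asIdeal)) := by
  classical
  have hprod : ∏ p ∈ S, p = ((D : ℕ) : RR) := by
    rw [← h.prod]
    push_cast
    rfl
  obtain ⟨g, hg⟩ : ∃ g : OO, A.asIdeal = Ideal.span {g} := by
    obtain ⟨g, hg⟩ := (IsPrincipalIdealRing.principal A.asIdeal).principal
    exact ⟨g, hg⟩
  have hpr : Prime g := by
    have h1 := A.isPrime
    have h2 := A.ne_bot
    rw [hg] at h1 h2
    rw [Ne, Ideal.span_singleton_eq_bot] at h2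
    exact (Ideal.span_singleton_prime h2).1 h1
  have hgd : ¬ g ∣ ((7 * (1 + 4 * j) : ℕ) : OO) := by
    rw [← Ideal.mem_span_singleton, ← hg]
    exact h7D
  rw [hg, hψ.val]
  have hPr : Prime (pH g) := pH_prime.2 hpr
  have hI : (Ideal.span {g}).IsPrime := (Ideal.span_singleton_prime hpr.ne_zero).2 hpr
  have hM : (Ideal.span {g}).IsMaximal := hI.isMaximal (by
    rw [Ne, Ideal.span_singleton_eq_bot]
    exact hpr.ne_zero)
  have hcard := card_map g
  have hfin : Finite (OO ⧸ Ideal.span {g}) := by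
    apply Nat.finite_of_card_ne_zero
    have h3 := Pool.Agent.Y698.nR_pos hPr.ne_zero
    rw [← hcard] at h3
    omega
  letI : Field (OO ⧸ Ideal.span {g}) := Ideal.Quotient.field _
  set φ : RR →+* OO ⧸ Ideal.span {g} :=
    (Ideal.Quotient.mk (Ideal.span {g})).comp (pE.symm : RR →+* OO) with hφd
  have hφH : ∀ x : OO, φ (pH x) = Ideal.Quotient.mk (Ideal.span {g}) x := by
    intro x
    rw [hφd]
    show Ideal.Quotient.mk (Ideal.span {g}) (pE.symm (pE x)) = _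
    rw [RingEquiv.symm_apply_apply]
  have hs : Function.Surjective φ := by
    intro y
    obtain ⟨x, rfl⟩ := Ideal.Quotient.mk_surjective y
    exact ⟨pH x, hφH x⟩
  have hφ : ∀ x, φ x = 0 ↔ x ∈ sp (pH g) := by
    intro x
    obtain ⟨y, rfl⟩ := pH_surj x
    rw [hφH, Ideal.Quotient.eq_zero_iff_mem, Ideal.mem_span_singleton, pH_mem]
  have h7 : ¬ pH g ∣ 7 := by
    rw [← map_ofNat pH 7, pH_dvd]
    intro h
    apply hgd
    push_cast
    exact h.mul_right _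
  have hDg : ¬ pH g ∣ ((D : ℕ) : RR) := by
    rw [hj, ← map_natCast pH, pH_dvd]
    intro h
    apply hgd
    push_cast at h ⊢
    exact h.mul_left _
  have hne : ∀ i ∈ S, i ∉ sp (pH g) := by
    intro i hi h
    rw [Ideal.mem_span_singleton] at h
    apply hDg
    rw [← hprod]
    exact h.trans (Finset.dvd_prod_of_mem _ hi)
  have hJ : ∏ i ∈ S, i = 1 + 4 * ((j : ℕ) : RR) := by
    rw [hprod, hj]
    push_cast
    rfl
  have key := Pool.Agent.R426.QD.trace_D (OO ⧸ Ideal.span {g}) hPr h7 hcard φ hs hφ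
    (π := fun p : RR => p) h.ev.fa.pn h.ev.tp hne hJ
  have e0 : φ ((j : ℕ) : RR) = (j : OO ⧸ Ideal.span {g}) := map_natCast φ j
  rw [e0] at key
  have e1 : ∏ i ∈ S, sy i (pH g) = (jacobiSym (g.re ^ 2 + g.re * g.im + 2 * g.im ^ 2)
      D : ℂ) := by
    rw [← nR_pH]
    exact h.ch_eq (pH g)
  rw [e1, e7_pH, tr_eq] at key
  have h3 : (starRingEnd ℂ) ((jacobiSym (g.re + 4 * g.im) 7 : ℂ) *
      (jacobiSym (g.re ^ 2 + g.re * g.im + 2 * g.im ^ 2) D : ℂ) *
      ((g.re : ℂ) + (g.im : ℂ) * z)) = (jacobiSym (g.re + 4 * g.im) 7 : ℂ) *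
      (jacobiSym (g.re ^ 2 + g.re * g.im + 2 * g.im ^ 2) D : ℂ) *
      ((g.re : ℂ) + (g.im : ℂ) * (1 - z)) := by
    have h4 : (starRingEnd ℂ) z = 1 - z := by
      rcases conj_z hz with h | h
      · rw [h, al_cj]
      · rw [h, Complex.conj_conj, al_cj]; ring
    rw [map_mul, map_mul, map_intCast, map_intCast, map_add, map_mul, map_intCast, map_intCast, h4]
  rw [h3]
  push_cast at key
  have e2 : ((Nat.card (AP (EX (OO ⧸ Ideal.span {g}) (j : OO ⧸ Ideal.span {g}))) : ℕ) : ℂ) =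
      ((Nat.card {x : (OO ⧸ Ideal.span {g}) × (OO ⧸ Ideal.span {g}) //
        (EX (OO ⧸ Ideal.span {g}) (j : OO ⧸ Ideal.span {g})).toAffine.Equation x.1 x.2} : ℕ) : ℂ) :=
    rfl
  rw [e2] at key
  linear_combination -key

/-- **the central values of all the odd weights** -/
theorem coreX {D : ℕ} {S : Finset RR} (h : FD D S)
    (hg : gd (mc fun p : RR => p) (mr fun p : RR => p) S ≠ 0) {z : ℂ} (hz : z ^ 2 = z - 2) :
    ∃ ψ : Ideal OO → ℂ, PsiQ D z ψ ∧
      (∀ A : HeightOneSpectrum OO, ((7 * D : ℕ) : OO) ∉ A.asIdeal →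
        ((Nat.card {x : (OO ⧸ A.asIdeal) × (OO ⧸ A.asIdeal) //
          ((WZ D).map (Int.castRingHom (OO ⧸ A.asIdeal))).toAffine.Equation x.1 x.2} : ℕ) : ℂ) =
        (Nat.card (OO ⧸ A.asIdeal) : ℂ) - (ψ A.asIdeal + (starRingEnd ℂ) (ψ A.asIdeal))) ∧
      ∀ n : ℕ, J1 ψ (2 * n + 1) ∧ J1 ψ (1 - (2 * n + 1)) := by
  classical
  have hbasic := Pool.Agent.W287.HK.h_basic
  have hcls := Pool.Agent.W571.HK.h_cls hbasic
  have hfp := Pool.Agent.W53.HK.h_fp hbasic hcls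
  have hfpr := Pool.Agent.W366.HK.h_fpr hbasic hcls
  have hlat := Pool.Agent.W585.HK.h_lat hbasic
  have hker := Pool.Agent.W692.HK.h_ker hbasic hcls hfpr
  have hcnt := Pool.Agent.W584.HK.h_cnt hbasic hcls hfpr hlat hker
  have hdec := Pool.Agent.W856.HK.h_dec hbasic
  have hgauss := Pool.Agent.W636.HK.h_gauss hbasic hfp
  have hpois := Pool.Agent.W348.HK.h_pois hbasic
  have htheta := Pool.Agent.TH936.HK.h_theta hbasic hfp hdec hgauss hpois hcnt
  have hafe := Pool.Agent.TH936.HK.h_afe hbasic hfp hcnt hgauss htheta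
  obtain ⟨j, hj⟩ : ∃ j, D = 1 + 4 * j := ⟨D / 4, by have := h.m8; omega⟩
  have hC := cx_ev (Fe.of h.ev)
  have key : ∀ n : ℕ, J1 (psi (fun g => e7 g * ch (fun p : RR => p) S g)) (2 * n + 1) := by
    intro n
    have h2 := nonvanX hbasic hfp hcnt hdec hafe inp.rec' (Fe.of h.ev) hg h.chA h.chB n
    have h3 := hC.oneJ hbasic h2
    push_cast at h3
    exact h3
  have hcount : ∀ ψ : Ideal OO → ℂ, PsiQ D z ψ → ∀ A : HeightOneSpectrum OO,
      ((7 * D : ℕ) : OO) ∉ A.asIdeal →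
        ((Nat.card {x : (OO ⧸ A.asIdeal) × (OO ⧸ A.asIdeal) //
          ((WZ D).map (Int.castRingHom (OO ⧸ A.asIdeal))).toAffine.Equation x.1 x.2} : ℕ) : ℂ) =
        (Nat.card (OO ⧸ A.asIdeal) : ℂ) - (ψ A.asIdeal + (starRingEnd ℂ) (ψ A.asIdeal)) := by
    intro ψ hψ A hA
    rw [WZ_map hj]
    refine eulX h hj hz hψ A ?_
    rwa [← hj]
  rcases conj_z hz with rfl | rfl
  · exact ⟨_, psiX_of h, hcount _ (psiX_of h), fun n => ⟨key n, (key n).swap⟩⟩
  · refine ⟨_, (psiX_of h).conj, hcount _ (psiX_of h).conj, fun n => ⟨?_, (key n).conj⟩⟩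
    have h1 := (key n).swap.conj
    rwa [sub_sub_cancel] at h1

end Pool.Agent.N843.X
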