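import Pool.Agent.N843.Xe

/-!
# The elements that satisfy the local conditions, all the twists by `D ≡ 1 mod 8`
-/

set_option autoImplicit false
set_option linter.unusedSectionVars false
set_option linter.unusedSimpArgs false
set_option linter.unusedVariables false

namespace Pool.Agent.N843.X

open Pool.Agent.N843
open Pool.Agent.Y698 (RR al al_sq aR aR_coe bR bR_coe cX cY co nR mul_cj cj_coe exists_gen e7 fR
  nR_aR nR_bR sp_eq e7_mul e7_neg e7_one fR_ne irr_fR)
open Pool.Agent.Y698.SG (Pe sy gd mc mr inp lg lg_one lg_neg_one lg_mul sgn_prod sy_sgn sy_per)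
open Pool.Agent.R426.QD (r4 Ev tp Pn Fa r4_a r4_unit r4_m4 exists_fac sy_mulO sy_oneO)
open Pool.Agent.W192.HK (sp)

section lin

variable {ι : Type} [DecidableEq ι] {S T : Finset ι} {c t b : ι → ZMod 2} {r : ι → ι → ZMod 2}

lemma zz (x : ZMod 2) : x + x = 0 := CharTwo.add_self_eq_zero x

lemma zsq (x : ZMod 2) : x * x = x := by
  revert x
  decide

lemma sum_sd (hT : T ⊆ S) (f : ι → ZMod 2) :
    ∑ i ∈ S, f i = ∑ i ∈ T, f i + ∑ i ∈ S \ T, f i := by
  rw [add_comm, Finset.sum_sdiff hT]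

/-- **the linear algebra** -/
theorem linA (hT : T ⊆ S) (hrel : ∀ i ∈ S, ∀ j ∈ S, i ≠ j → r i j + r j i = t i * t j)
    (ht : ∑ i ∈ S, t i = 0) (hb : ∑ i ∈ S, b i = 0) (hg : gd c (fun i j => r j i) S ≠ 0)
    {a : ZMod 2} (h1 : ∀ i ∈ S, i ∉ T → a * b i + ∑ k ∈ T, r i k = 0)
    (h2 : ∀ i ∈ T, a * b i + (t i + c i) + ∑ k ∈ S \ T, r i k = 0)
    (h3 : a + ∑ k ∈ T, c k = 0) : a = 0 ∧ T = ∅ := by
  classical
  have ha0 : a = 0 := by
    have g1 : ∑ i ∈ T, (a * b i + (t i + c i) + ∑ k ∈ S \ T, r i k) = 0 :=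
      Finset.sum_eq_zero fun i hi => h2 i hi
    have g2 : ∑ i ∈ S \ T, (a * b i + ∑ k ∈ T, r i k) = 0 :=
      Finset.sum_eq_zero fun i hi => h1 i (Finset.mem_sdiff.1 hi).1 (Finset.mem_sdiff.1 hi).2
    rw [Finset.sum_add_distrib, Finset.sum_add_distrib, Finset.sum_add_distrib,
      ← Finset.mul_sum] at g1
    rw [Finset.sum_add_distrib, ← Finset.mul_sum] at g2
    have g3 : ∑ i ∈ S \ T, ∑ k ∈ T, r i k =
        ∑ i ∈ T, ∑ k ∈ S \ T, r i k + (∑ i ∈ T, t i) * ∑ k ∈ S \ T, t k := by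
      rw [Finset.sum_comm, Finset.sum_mul_sum, ← Finset.sum_add_distrib]
      refine Finset.sum_congr rfl fun i hi => ?_
      rw [← Finset.sum_add_distrib]
      refine Finset.sum_congr rfl fun k hk => ?_
      have h4 := hrel i (hT hi) k (Finset.mem_sdiff.1 hk).1 (fun h => (Finset.mem_sdiff.1 hk).2 (h ▸ hi))
      rw [← h4]
      linear_combination -zz (r i k)
    have g4 : ∑ k ∈ S \ T, t k = ∑ i ∈ T, t i := by
      rw [sum_sd hT] at ht
      linear_combination ht - zz (∑ i ∈ T, t i)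
    rw [g3, g4, zsq] at g2
    rw [sum_sd hT] at hb
    linear_combination h3 - g1 - g2 + a * hb + zz (∑ i ∈ T, ∑ k ∈ S \ T, r i k) +
      zz (∑ i ∈ T, t i)
  refine ⟨ha0, ?_⟩
  by_contra hne
  obtain ⟨i₀, hi₀⟩ := Finset.nonempty_iff_ne_empty.2 hne
  set x : S → ZMod 2 := fun i => if (i : ι) ∈ T then 1 else 0 with hx
  have key : Matrix.vecMul x (Matrix.of fun i j : S =>
      if i = j then c i + ∑ k ∈ S.erase i, r k i else r j i) = 0 := by
    funext j
    rw [Matrix.vecMul, dotProduct]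
    have e1 : ∑ i : S, x i * (Matrix.of fun i j : S =>
        if i = j then c i + ∑ k ∈ S.erase i, r k i else r j i) i j =
        ∑ i ∈ T, (if i = j then c i + ∑ k ∈ S.erase i, r k i else r j i) := by
      have e2 : ∑ i : S, x i * (Matrix.of fun i j : S =>
          if i = j then c i + ∑ k ∈ S.erase i, r k i else r j i) i j =
          ∑ i ∈ S, (if i ∈ T then (if i = (j : ι) then c i + ∑ k ∈ S.erase i, r k i else r j i)
            else 0) := by
        rw [← Finset.sum_coe_sort S]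
        refine Finset.sum_congr rfl fun i _ => ?_
        rw [hx]
        simp only [Matrix.of_apply]
        have e3 : (i = j) ↔ ((i : ι) = (j : ι)) := Subtype.ext_iff
        by_cases h : (i : ι) ∈ T
        · rw [if_pos h, if_pos h, one_mul]
          by_cases h' : i = j
          · rw [if_pos h', if_pos (e3.1 h')]
          · rw [if_neg h', if_neg (fun h'' => h' (e3.2 h''))]
        · rw [if_neg h, if_neg h, zero_mul]
      rw [e2, ← Finset.sum_filter]
      refine Finset.sum_congr ?_ fun _ _ => rfl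
      ext i
      rw [Finset.mem_filter]
      exact ⟨fun h => h.2, fun h => ⟨hT h, h⟩⟩
    rw [e1, Pi.zero_apply]
    by_cases hj : (j : ι) ∈ T
    · rw [← Finset.add_sum_erase T _ hj, if_pos rfl]
      have e4 : ∑ i ∈ T.erase j, (if i = (j : ι) then c i + ∑ k ∈ S.erase i, r k i else r j i) =
          ∑ i ∈ T.erase j, r j i :=
        Finset.sum_congr rfl fun i hi => if_neg (Finset.ne_of_mem_erase hi)
      have e5 : ∑ k ∈ S.erase (j : ι), r k j = ∑ k ∈ S.erase (j : ι), r j k + t j := by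
        have e6 : ∑ k ∈ S.erase (j : ι), r k j =
            ∑ k ∈ S.erase (j : ι), r j k + t j * ∑ k ∈ S.erase (j : ι), t k := by
          rw [Finset.mul_sum, ← Finset.sum_add_distrib]
          refine Finset.sum_congr rfl fun k hk => ?_
          rw [← hrel j (hT hj) k (Finset.mem_of_mem_erase hk) (Finset.ne_of_mem_erase hk).symm]
          linear_combination -zz (r j k)
        have e7 : ∑ k ∈ S.erase (j : ι), t k = t j := by
          rw [← Finset.add_sum_erase S t (hT hj)] at ht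
          linear_combination ht - zz (t j)
        rw [e6, e7, zsq]
      have e8 : ∑ k ∈ S.erase (j : ι), r j k =
          ∑ k ∈ T.erase (j : ι), r j k + ∑ k ∈ S \ T, r j k := by
        rw [sum_sd (Finset.erase_subset_erase _ hT)]
        congr 1
        refine Finset.sum_congr ?_ fun _ _ => rfl
        ext k
        rw [Finset.mem_sdiff, Finset.mem_sdiff, Finset.mem_erase, Finset.mem_erase]
        constructor
        · rintro ⟨⟨h5, h6⟩, h7⟩
          exact ⟨h6, fun h8 => h7 ⟨h5, h8⟩⟩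
        · rintro ⟨h5, h6⟩
          exact ⟨⟨fun h => h6 (h ▸ hj), h5⟩, fun h8 => h6 h8.2⟩
      rw [e4, e5, e8]
      have h4 := h2 j hj
      rw [ha0, zero_mul, zero_add] at h4
      linear_combination h4 + zz (∑ k ∈ T.erase (j : ι), r j k)
    · have h4 := h1 j j.2 hj
      rw [ha0, zero_mul, zero_add] at h4
      rw [← h4]
      exact Finset.sum_congr rfl fun i hi => if_neg (fun h : i = (j : ι) => hj (h ▸ hi))
  have h5 := Matrix.eq_zero_of_vecMul_eq_zero hg key
  have h6 := congrFun h5 ⟨i₀, hT hi₀⟩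
  rw [hx] at h6
  simp only [Pi.zero_apply] at h6
  rw [if_pos hi₀] at h6
  exact one_ne_zero h6

end lin

/-! ### factorizations -/

lemma fac1 {x : RR} (hsq : Squarefree x) (h4 : r4 x = 1) :
    ∃ S : Finset RR, (∀ p, p ∈ S ↔ Prime p ∧ p ∣ x ∧ r4 p = 1) ∧ x = ∏ p ∈ S, p := by
  have hna : ¬ aR ∣ x := by
    rintro ⟨y, hy⟩
    rw [hy, map_mul, r4_a] at h4
    revert h4
    generalize r4 y = z
    revert z
    decide
  obtain ⟨S, hS, hx⟩ := exists_fac x hsq hna
  have hp1 : r4 (∏ p ∈ S, p) = 1 := by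
    rw [map_prod]
    exact Finset.prod_eq_one fun p hp => (hS p hp).2
  have hx1 : x = ∏ p ∈ S, p := by
    rcases hx with h | h
    · exact h
    · exfalso
      rw [h, map_neg, hp1] at h4
      revert h4
      decide
  refine ⟨S, fun p => ⟨fun hp => ⟨(hS p hp).1, ?_, (hS p hp).2⟩, fun hp => ?_⟩, hx1⟩
  · rw [hx1]
    exact Finset.dvd_prod_of_mem _ hp
  · obtain ⟨h1, h2, h3⟩ := hp
    rw [hx1] at h2
    obtain ⟨q, hq, hpq⟩ := (h1.dvd_finsetProd_iff _).1 h2
    obtain ⟨u, hu⟩ := h1.associated_of_dvd (hS q hq).1 hpq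
    rcases Pool.Agent.Y698.isUnit_iff.1 u.isUnit with h4 | h4
    · rw [h4, mul_one] at hu
      rw [hu]
      exact hq
    · exfalso
      rw [h4] at hu
      have h5 := (hS q hq).2
      rw [← hu, map_mul, h3, one_mul, map_neg, map_one] at h5
      revert h5
      decide

/-- two primes congruent to one -/
lemma eq_of_r4 {p q : RR} (hp : Prime p) (hq : Prime q) (h : p ∣ q) (h1 : r4 p = 1)
    (h2 : r4 q = 1) : p = q := by
  obtain ⟨u, hu⟩ := hp.associated_of_dvd hq h
  rcases Pool.Agent.Y698.isUnit_iff.1 u.isUnit with h4 | h4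
  · rw [h4, mul_one] at hu
    exact hu
  · exfalso
    rw [h4] at hu
    rw [← hu, map_mul, h1, one_mul, map_neg, map_one] at h2
    revert h2
    decide

/-! ### the symbols -/

lemma sy_prodO {p : RR} (hp : Prime p) (h2 : ¬ p ∣ 2) (T : Finset RR) (f : RR → RR) :
    sy p (∏ k ∈ T, f k) = ∏ k ∈ T, sy p (f k) := by
  classical
  induction T using Finset.induction_on with
  | empty => rw [Finset.prod_empty, Finset.prod_empty, sy_oneO hp]
  | insert a s ha ih => rw [Finset.prod_insert ha, Finset.prod_insert ha, sy_mulO hp h2, ih]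

lemma e7_prod (T : Finset RR) (f : RR → RR) : e7 (∏ k ∈ T, f k) = ∏ k ∈ T, e7 (f k) := by
  classical
  induction T using Finset.induction_on with
  | empty => rw [Finset.prod_empty, Finset.prod_empty, e7_one]
  | insert a s ha ih => rw [Finset.prod_insert ha, Finset.prod_insert ha, e7_mul, ih]

lemma lg_syprod {p : RR} (hp : Prime p) (h2 : ¬ p ∣ 2) {T : Finset RR}
    (h : ∀ k ∈ T, k ∉ sp p) : lg (sy p (∏ k ∈ T, k)) = ∑ k ∈ T, lg (sy p k) := by
  rw [sy_prodO hp h2 T (fun k => k)]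
  exact (sgn_prod fun k hk => sy_sgn (h k hk)).2

lemma lg_e7prod {T : Finset RR} (h : ∀ k ∈ T, k ∉ sp fR) :
    lg (e7 (∏ k ∈ T, k)) = ∑ k ∈ T, lg (e7 k) := by
  rw [e7_prod T (fun k => k)]
  exact (sgn_prod fun k hk => e7_val (h k hk)).2

lemma r4_nb : r4 (-bR) = 1 := by
  rw [map_neg]
  have : bR = 1 - aR := rfl
  rw [this, map_sub, map_one, r4_a]
  decide

lemma r4_nf : r4 (-fR) = 1 := by
  rw [map_neg]
  unfold fR
  rw [map_sub, map_mul, map_one, map_ofNat, r4_a]
  decide

end Pool.Agent.N843.X
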