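import Pool.Agent.N843.Yc
import Pool.Agent.R384.X.Mq7

/-!
# The vanishing of the Selmer groups, all the twists by `D ≡ 1 mod 8`
-/

set_option autoImplicit false
set_option linter.unusedSectionVars false
set_option linter.unusedSimpArgs false
set_option linter.unusedVariables false

namespace Pool.Agent.N843.X

open QuadraticAlgebra

open Pool.Agent.N843
open Pool.Agent.Y698 (RR al al_sq aR aR_coe bR bR_coe cX cY co nR mul_cj cj_coe exists_gen e7 fR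
  nR_aR nR_bR sp_eq e7_mul e7_neg e7_one fR_ne irr_fR aR_mul_bR)
open Pool.Agent.Y698.SG (Pe sy gd mc mr inp lg lg_one lg_neg_one lg_mul sgn_prod sy_sgn sy_per)
open Pool.Agent.R426.QD (r4 Ev tp Pn Fa r4_a r4_unit r4_m4 exists_fac sy_mulO sy_oneO)
open Pool.Agent.R384
open Pool.Agent.Y715.Red Pool.Agent.Y715.Nr Pool.Agent.W237.RK
open Pool.Agent.Y715.Gi (QB KK GK i₀_mem gk_fix)
open Pool.Agent.Y715.Df (Cmp exists_cmp)
open Pool.Agent.Y715.Lc (norm_two_odd)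

open scoped Classical

lemma cj_cj' (x : OO) : cj (cj x) = x := by
  ext <;> simp [cj]

/-- complex conjugation -/
def cjE : OO ≃+* OO := RingEquiv.ofRingHom cjH cjH (RingHom.ext fun x => cj_cj' x)
  (RingHom.ext fun x => cj_cj' x)

lemma cjE_om : cjE om = 1 - om := by
  have h : cj (1 - om) = om := by ext <;> simp [cj, om]
  show cj om = _
  have h2 := congrArg cj h
  rw [cj_cj'] at h2
  exact h2.symm

lemma s7_om : s7 = om + om - 1 := by
  ext <;> simp [s7, om]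

/-- the second isomorphism -/
noncomputable def pE' : OO ≃+* RR := cjE.trans pE

lemma pE_om : pE om = aR := by rw [pE_apply, pH_om]

lemma pE_s7 : pE s7 = fR := by
  rw [s7_om, map_sub, map_add, map_one, pE_om]
  unfold fR
  ring

lemma pE'_om' : pE' (1 - om) = aR := by
  show pE (cjE (1 - om)) = aR
  rw [map_sub, map_one, cjE_om, sub_sub_cancel, pE_om]

lemma pE'_s7 : pE' s7 = -fR := by
  have h : s7 = 1 - ((1 - om) + (1 - om)) := by
    rw [s7_om]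
    ring
  rw [h, map_sub, map_add, map_one, pE'_om']
  unfold fR
  ring

variable {i₀ : QB} (hi : i₀ ^ 2 = i₀ - 2)
variable {κ κ' : GK i₀ →* ℤ_[2]ˣ} {r I : QB}

lemma eight_of {D : ℕ} (h8 : D % 8 = 1) : (8 : OO) ∣ ((D : ℤ) : OO) - 1 := by
  refine ⟨((D / 8 : ℕ) : OO), ?_⟩
  have h : D = 8 * (D / 8) + 1 := by omega
  have h2 : ((D : ℤ) : OO) = ((8 * (D / 8) + 1 : ℕ) : OO) := by
    rw [← h]
    norm_cast
  rw [h2]
  push_cast
  ring

/-- **The vanishing theorem** for the curve `E_D`. -/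
theorem vanishX {D : ℕ} {S : Finset RR} (h : FD D S)
    (hg : gd (mc fun p : RR => p) (mr fun p : RR => p) S ≠ 0)
    (kd : KD hi κ κ' (-(s7 * ((D : ℤ) : OO))) r I) (j : ℤ) {ϖ ϖ' : OO}
    (hϖ : (Even j ∧ ϖ = om ∧ ϖ' = 1 - om) ∨ (Odd j ∧ ϖ = 1 - om ∧ ϖ' = om))
    {c : GK i₀ → ℚ_[2]} (hc : Coc (κ ^ j * κ' ^ (1 - j)) c)
    (hodd : ∀ (p : ℕ) [Fact p.Prime] (ι : QB →ₐ[ℚ] PadicAlgCl p), p ≠ 2 →
      CobOn (κ ^ j * κ' ^ (1 - j)) (II ι) c)
    (hstr : ∀ ι : QB →ₐ[ℚ] PadicAlgCl 2, ‖ι (em hi ϖ)‖ < 1 →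
      CobOn (κ ^ j * κ' ^ (1 - j)) (DD ι) c) :
    ∃ y : ℚ_[2], ∀ σ, c σ = (vl (κ ^ j * κ' ^ (1 - j)) σ - 1) * y := by
  obtain ⟨m, s, hm, cd⟩ := chiD7 hi kd j
  have h8 := eight_of h.m8
  rcases hϖ with ⟨hj, h1, h2⟩ | ⟨hj, h1, h2⟩
  · have hm' : m = -(s7 * ((D : ℤ) : OO)) := by
      rcases hm with ⟨-, h⟩ | ⟨h, -⟩
      · exact h
      · exact absurd hj (Int.not_even_iff_odd.2 h)
    refine mainG hi h hg cd pE (Or.inl ⟨h1, h2⟩) (by rw [h1, pE_om]) (Or.inl pE_s7) ?_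
      (fun ι hι => ?_) hc hodd hstr
    · rw [hm', map_neg, map_mul, pE_s7, map_intCast]
      ring
    · rw [h1] at hι
      rw [hm']
      exact (s7_five hi h8).1 hι
  · have hm' : m = s7 * ((D : ℤ) : OO) := by
      rcases hm with ⟨h, -⟩ | ⟨-, h⟩
      · exact absurd h (Int.not_even_iff_odd.2 hj)
      · rw [h, neg_neg]
    refine mainG hi h hg cd pE' (Or.inr ⟨h1, h2⟩) (by rw [h1, pE'_om']) (Or.inr pE'_s7) ?_
      (fun ι hι => ?_) hc hodd hstr
    · rw [hm', map_mul, pE'_s7, map_intCast]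
    · rw [h1] at hι
      rw [hm']
      exact (s7_five hi h8).2 hι

end Pool.Agent.N843.X
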