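import Pool.Agent.N843.DM.Stm
import Pool.Agent.N973.ND.Fin
import Pool.Agent.N818.TC.Crit

/-!
# The proportion of the good `D` in a union of residue classes
-/

set_option autoImplicit false

open scoped Classical

namespace Pool.Agent.N843.Z

open Finset Filter
open Pool.Agent.N973.ND
open Pool.Agent.Y703.CQ (c2)

/-- averages -/
lemma avg {ι : Type} (R : Finset ι) (hR : R.Nonempty) (u v : ι → ℕ → ℝ) (θ : ℝ)
    (hv : ∀ i ∈ R, ∀ᶠ X in atTop, 0 < v i X)
    (h : ∀ i ∈ R, Tendsto (fun X => u i X / v i X) atTop (nhds θ)) :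
    Tendsto (fun X => (∑ i ∈ R, u i X) / (∑ i ∈ R, v i X)) atTop (nhds θ) := by
  rw [Metric.tendsto_atTop]
  intro ε hε
  have h1 : ∀ᶠ X in atTop, ∀ i ∈ R, 0 < v i X ∧ |u i X / v i X - θ| < ε := by
    rw [Filter.eventually_all_finset]
    intro i hi
    filter_upwards [hv i hi, Metric.tendsto_nhds.1 (h i hi) ε hε] with X h1 h2
    exact ⟨h1, by rwa [Real.dist_eq] at h2⟩
  obtain ⟨X₀, hX⟩ := Filter.eventually_atTop.1 h1
  refine ⟨X₀, fun X hX' => ?_⟩
  have h2 := hX X hX'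
  have hpos : 0 < ∑ i ∈ R, v i X := Finset.sum_pos (fun i hi => (h2 i hi).1) hR
  rw [Real.dist_eq]
  have e : (∑ i ∈ R, u i X) / (∑ i ∈ R, v i X) - θ =
      (∑ i ∈ R, (u i X - θ * v i X)) / (∑ i ∈ R, v i X) := by
    rw [Finset.sum_sub_distrib, ← Finset.mul_sum, sub_div, mul_div_cancel_right₀ _ hpos.ne']
  rw [e, abs_div, abs_of_pos hpos, div_lt_iff₀ hpos]
  refine lt_of_le_of_lt (Finset.abs_sum_le_sum_abs _ _) ?_
  rw [Finset.mul_sum]
  refine Finset.sum_lt_sum_of_nonempty hR fun i hi => ?_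
  obtain ⟨h3, h4⟩ := h2 i hi
  have e2 : u i X - θ * v i X = (u i X / v i X - θ) * v i X := by
    field_simp
  rw [e2, abs_mul, abs_of_pos h3]
  exact mul_lt_mul_of_pos_right h4 h3

/-- the squarefree `D ≤ X` in the classes of `R` modulo `m` with `Q` -/
noncomputable def cnt (m : ℕ) (R : Finset ℕ) (Q : ℕ → Prop) (X : ℕ) : ℕ :=
  ((Icc 1 X).filter fun D => (Squarefree D ∧ D % m ∈ R) ∧ Q D).card

lemma cnt_sum (m : ℕ) (R : Finset ℕ) (Q : ℕ → Prop) (X : ℕ) :
    cnt m R Q X = ∑ a ∈ R, ((Icc 1 X).filter fun D => Squarefree D ∧ D % m = a ∧ Q D).card := by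
  unfold cnt
  rw [← Finset.card_biUnion]
  · congr 1
    ext D
    simp only [Finset.mem_filter, Finset.mem_biUnion]
    constructor
    · rintro ⟨h1, ⟨h2, h3⟩, h4⟩
      exact ⟨D % m, h3, h1, h2, rfl, h4⟩
    · rintro ⟨a, h3, h1, h2, h5, h4⟩
      exact ⟨h1, ⟨h2, by rwa [h5]⟩, h4⟩
  · intro a _ b _ hab
    rw [Function.onFun, Finset.disjoint_left]
    intro D h1 h2
    rw [Finset.mem_filter] at h1 h2
    exact hab (h1.2.2.1.symm.trans h2.2.2.1)

/-- the classes: `56 ∣ m`, and the `a` in `R` are less than `m`, prime to `m` and `1` modulo `4` -/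
structure Cls (m : ℕ) (R : Finset ℕ) : Prop where
  pos : 0 < m
  dvd : 56 ∣ m
  ne : R.Nonempty
  cop : ∀ a ∈ R, a < m ∧ Nat.Coprime a m ∧ a % 4 = 1

open Pool.Agent.N843.DM in
/-- **the proportion in the classes of `R`** -/
theorem den_R (hM : M_DEN) {m : ℕ} {R : Finset ℕ} (hR : Cls m R) :
    Tendsto (fun X : ℕ => (cnt m R (fun D => Gd Pool.Agent.N973.NT.AA Pool.Agent.N973.NT.bb D.primeFactors) X : ℝ) /
      (cnt m R (fun _ => True) X : ℝ)) atTop (nhds (c2 / 2)) := by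
  obtain ⟨C, hC⟩ := Pool.Agent.N973.NT.t_BIL
  have hc : (0 : ℝ) < c2 / 2 := by
    have := Pool.Agent.Y948.CQ.t_C2.2.2.2.1
    linarith
  have key : ∀ a ∈ R, Tendsto
      (fun X : ℕ => (((Icc 1 X).filter fun D => Squarefree D ∧ D % m = a ∧
          Gd Pool.Agent.N973.NT.AA Pool.Agent.N973.NT.bb D.primeFactors).card : ℝ) /
        (((Icc 1 X).filter fun D => Squarefree D ∧ D % m = a ∧ True).card : ℝ))
      atTop (nhds (c2 / 2)) := by
    intro a ha
    obtain ⟨h1, h2, h3⟩ := hR.cop a ha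
    have h := hM m a ⟨hR.pos, hR.dvd, h2, h3⟩ Pool.Agent.N973.NT.AA Pool.Agent.N973.NT.bb C Pool.Agent.N973.NT.recA hC
    rw [Nat.mod_eq_of_lt h1] at h
    refine h.congr fun X => ?_
    simp only [and_true]
  have hpos : ∀ a ∈ R, ∀ᶠ X : ℕ in atTop,
      (0 : ℝ) < (((Icc 1 X).filter fun D => Squarefree D ∧ D % m = a ∧ True).card : ℝ) := by
    intro a ha
    filter_upwards [(key a ha).eventually_const_lt hc] with X hX
    by_contra hcon
    have h0 : (((Icc 1 X).filter fun D => Squarefree D ∧ D % m = a ∧ True).card : ℝ) = 0 :=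
      le_antisymm (not_lt.1 hcon) (Nat.cast_nonneg _)
    rw [h0, div_zero] at hX
    exact lt_irrefl _ hX
  refine (avg R hR.ne _ _ _ hpos key).congr fun X => ?_
  rw [cnt_sum, cnt_sum]
  push_cast
  congr!

/-- `D` of the classes are prime to `7` and `1` modulo `4` -/
lemma cls_mod {m : ℕ} {R : Finset ℕ} (hR : Cls m R) {D : ℕ} (h : D % m ∈ R) :
    D % 4 = 1 ∧ ¬ 7 ∣ D := by
  obtain ⟨h1, h2, h3⟩ := hR.cop _ h
  obtain ⟨q, hq⟩ := hR.dvd
  constructor
  · have e : D % m % 4 = D % 4 := Nat.mod_mod_of_dvd D (by rw [hq]; exact ⟨14 * q, by ring⟩)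
    omega
  · intro h7
    have h8 : 7 ∣ D % m := (Nat.dvd_mod_iff (by rw [hq]; exact ⟨8 * q, by ring⟩)).2 h7
    have h9 : 7 ∣ m := by rw [hq]; exact ⟨8 * q, by ring⟩
    have := Nat.dvd_gcd h8 h9
    rw [h2] at this
    omega

lemma cnt_congr {m : ℕ} {R : Finset ℕ} {Q Q' : ℕ → Prop}
    (h : ∀ D, Squarefree D → D % m ∈ R → (Q D ↔ Q' D)) (X : ℕ) : cnt m R Q X = cnt m R Q' X := by
  unfold cnt
  congr 1
  ext D
  simp only [Finset.mem_filter]
  refine and_congr_right fun _ => and_congr_right fun h1 => h D h1.1 h1.2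

/-- the number of the `D` with finitely many points and no element of order two in `Ш` -/
theorem rz_R (hM : Pool.Agent.N843.DM.M_DEN) {m : ℕ} {R : Finset ℕ} (hR : Cls m R) :
    Tendsto (fun X : ℕ => (cnt m R (fun D => Pool.Agent.N818.TC.Rz
        (Pool.Agent.N818.TC.A D) (Pool.Agent.N818.TC.B D)) X : ℝ) /
      (cnt m R (fun _ => True) X : ℝ)) atTop (nhds (c2 / 2)) := by
  refine (den_R hM hR).congr fun X => ?_
  rw [cnt_congr (Q' := fun D => Pool.Agent.N818.TC.Rz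
        (Pool.Agent.N818.TC.A D) (Pool.Agent.N818.TC.B D)) (fun D h1 h2 => ?_)]
  obtain ⟨h3, h4⟩ := cls_mod hR h2
  exact (Pool.Agent.N818.TC.rz_gd h1 h3 h4).symm

end Pool.Agent.N843.Z
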