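import Pool.Agent.N843.Za
import Pool.Agent.N843.Wn
import Pool.Agent.N843.Xf
import Pool.Agent.N843.Ye
import Pool.Agent.N818.TD.Mod

/-!
# The core for all `D ≡ 1` modulo `8` prime to `7`: the two sides
-/

set_option autoImplicit false
set_option linter.unusedSectionVars false
set_option linter.unusedSimpArgs false
set_option linter.unusedVariables false

namespace Pool.Agent.N843.Z

open Pool.Agent.R384
open Pool.Agent.Y698 (RR)
open Pool.Agent.Y698.SG (gd mc mr)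
open Pool.Agent.Y715.Red Pool.Agent.Y715.Nr Pool.Agent.W237.RK
open Pool.Agent.Y715.Gi (QB KK GK i₀_mem gk_fix)
open Pool.Agent.Y715.Df (Cmp exists_cmp)
open Pool.Agent.N843
open Pool.Agent.N843.X (FD exists_FD vanish_mqX vanishX)
open Pool.Agent.Results.MP_787500_nt.AllWeightsMultiquadraticX49 (RankZeroShaTwo tw tw_eq tw_ne
  tw_iso elliptic Chr QBar OK E ED EK Iso TateModule SelmerZero GalL galL_eq selmer_of chi
  OddWeights OK)
open Pool.Agent.Kdt384 (exists_tate em_om em_om')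

open scoped Classical

/-- the family -/
structure Fm (D : ℕ) : Prop where
  sq : Squarefree D
  m8 : D % 8 = 1
  n7 : ¬ 7 ∣ D
  rz : RankZeroShaTwo D

/-- the two models -/
theorem rz_long {D : ℕ} (h4 : D % 4 = 1) : RankZeroShaTwo D ↔
    Pool.Agent.N818.TC.Rz (Pool.Agent.N818.TC.A D) (Pool.Agent.N818.TC.B D) := by
  obtain ⟨j, hj⟩ : ∃ j : ℕ, D = 1 + 4 * j := ⟨D / 4, by omega⟩
  rw [Pool.Agent.N818.TD.same hj]
  have e : E D = Pool.Agent.Y698.EX ℚ (j : ℚ) := by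
    unfold E Pool.Agent.Y698.EX
    rw [hj]
    ext
    · rfl
    · show -((3 * ((1 + 4 * j : ℕ) : ℚ) + 1) / 4) = -(1 + 3 * (j : ℚ))
      push_cast
      ring
    · rfl
    · show -2 * ((1 + 4 * j : ℕ) : ℚ) ^ 2 = -2 * (1 + 4 * (j : ℚ)) ^ 2
      push_cast
      ring
    · show -((1 + 4 * j : ℕ) : ℚ) ^ 3 = -(1 + 4 * (j : ℚ)) ^ 3
      push_cast
      ring
  unfold RankZeroShaTwo
  rw [e]

/-- the set of the primes of `K` -/
theorem Fm.fam {D : ℕ} (h : Fm D) : ∃ S : Finset RR, FD D S ∧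
    gd (mc fun p : RR => p) (mr fun p : RR => p) S ≠ 0 := by
  obtain ⟨S, hS⟩ := exists_FD h.sq h.m8 h.n7
  refine ⟨S, hS, ?_⟩
  have h4 : D % 4 = 1 := by have := h.m8; omega
  have h4' : (D : ℤ) % 4 = 1 := by omega
  exact (Pool.Agent.N818.TC.rz_iff h4' hS.prod hS.ev).1 ((rz_long h4).1 h.rz)

/-- the criterion by the factorisations -/
theorem rank_fac {D : ℕ} (hsq : Squarefree D) (h4 : D % 4 = 1) (h7 : ¬ 7 ∣ D) :
    RankZeroShaTwo D ↔ ¬ Pool.Agent.N818.TD.Fac D :=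
  (rz_long h4).trans (Pool.Agent.N818.TD.rz_fac (Int.squarefree_natCast.2 hsq) (by omega)
    (fun h => h7 (by exact_mod_cast h)))

/-- the pairs -/
def Gp (M : ℕ) {n : ℕ} (d : Fin n → ℕ) : Prop := ∀ T : Finset (Fin n), ∃ D k : ℕ,
  k ≠ 0 ∧ Fm D ∧ M * ∏ i ∈ T, d i = D * k ^ 2

lemma gp_ne {M n : ℕ} {d : Fin n → ℕ} (hG : Gp M d) : M ≠ 0 ∧ ∀ i, d i ≠ 0 := by
  constructor
  · obtain ⟨D, k, hk, hD, he⟩ := hG ∅
    rw [Finset.prod_empty, mul_one] at he
    rw [he]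
    exact mul_ne_zero hD.sq.ne_zero (pow_ne_zero 2 hk)
  · intro i
    obtain ⟨D, k, hk, hD, he⟩ := hG {i}
    rw [Finset.prod_singleton] at he
    exact right_ne_zero_of_mul (he ▸ mul_ne_zero hD.sq.ne_zero (pow_ne_zero 2 hk))

/-- the characters are not trivial on the Galois groups of the multiquadratic fields -/
theorem exists_fixG {w : QBar} (hw : w ^ 2 = w - 2) {M n : ℕ} {d : Fin n → ℕ} (hG : Gp M d)
    {κ κ' : Chr w} {r I : QBar} (kd : KD hw κ κ' (Pool.Agent.Results.MP_787500_nt.AllWeightsMultiquadraticX49.tw M) r I) {s : Fin n → QBar}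
    (hs : ∀ i, s i ^ 2 = (d i : QBar)) (j : ℤ) :
    ∃ σ : Pool.Agent.Results.MP_787500_nt.AllWeightsMultiquadraticX49.Gal w,
      (∀ i, σ (s i) = s i) ∧ (κ ^ j * κ' ^ (1 - j)) σ = -1 := by
  obtain ⟨D0, k0, hk0, hA0, he0⟩ := hG ∅
  rw [Finset.prod_empty, mul_one] at he0
  have hk0' : (k0 : QB) ≠ 0 := Nat.cast_ne_zero.2 hk0
  have kd2 : KD hw κ κ' (-(s7 * ((D0 : ℤ) : OO))) ((k0 : QB)⁻¹ * r) I := by
    refine KD.resc hw kd (inv_ne_zero hk0') (fun σ => by rw [map_inv₀, map_natCast]) ?_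
    have h1 : ((M : ℤ) : OO) = ((D0 : ℤ) : OO) * ((k0 : ℤ) : OO) ^ 2 := by
      rw [he0]
      push_cast
      ring
    have h2 : em hw (((k0 : ℤ) : OO)) = (k0 : QB) := by
      rw [map_intCast]
      norm_cast
    rw [mul_pow, kd.hr, tw_eq, h1, map_neg, map_mul, map_mul, map_pow, h2, map_neg, map_mul]
    field_simp
  obtain ⟨p, hp, ι, hp2, hι, σ, τ, hc, hin, hσ⟩ := exists_mone hw hA0.n7 kd2 j
  refine ⟨σ, fun i => ?_, hσ⟩
  obtain ⟨D1, k1, hk1, hA1, he1⟩ := hG {i}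
  rw [Finset.prod_singleton] at he1
  obtain ⟨a, ha⟩ : ∃ a : QB, a ^ 2 = ((D0 * D1 : ℕ) : QB) :=
    IsAlgClosed.exists_pow_nat_eq _ (by norm_num)
  have h7 : ¬ 7 ∣ D0 * D1 := by
    intro h
    rcases (Nat.Prime.dvd_mul (by norm_num)).1 h with h | h
    · exact hA0.n7 h
    · exact hA1.n7 h
  have hfa := fix_seven hw h7 ha hp2 hι hc hin
  have hD0 : (D0 : QB) ≠ 0 := Nat.cast_ne_zero.2 hA0.sq.ne_zero
  have h1 : (s i * (D0 * k0)) ^ 2 = (a * k1) ^ 2 := by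
    have h2 : ((M * d i : ℕ) : QB) = ((D1 * k1 ^ 2 : ℕ) : QB) := congrArg _ he1
    rw [he0] at h2
    push_cast at h2 ha
    rw [mul_pow (s i), mul_pow a, hs i, ha]
    linear_combination (D0 : QB) * h2
  have hne : (D0 : QB) * k0 ≠ 0 := mul_ne_zero hD0 hk0'
  have hfix : ∀ y : QB, y = a * k1 ∨ y = -(a * k1) → σ y = y := by
    rintro y (rfl | rfl)
    · rw [map_mul, map_natCast, hfa]
    · rw [map_neg, map_mul, map_natCast, hfa]
  have h3 := hfix _ (sq_eq_sq_iff_eq_or_eq_neg.1 h1)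
  rw [map_mul, map_mul, map_natCast, map_natCast] at h3
  exact mul_right_cancel₀ hne h3

/-- **the Selmer groups are zero in all odd weights** -/
theorem odd_weights {w : QBar} (hw : w ^ 2 = w - 2) {M n : ℕ} {d : Fin n → ℕ} (hG : Gp M d)
    {κ κ' : Chr w} {r I : QBar} (kd : KD hw κ κ' (Pool.Agent.Results.MP_787500_nt.AllWeightsMultiquadraticX49.tw M) r I) {s : Fin n → QBar}
    (hs : ∀ i, s i ^ 2 = (d i : QBar)) : OddWeights κ κ' s := by
  obtain ⟨hM0, hd0⟩ := gp_ne hG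
  have hE : ∀ i, s i ^ 2 = em hw (((d i : ℤ) : OO)) := by
    intro i
    rw [hs i, map_intCast]
    norm_cast
  have hE0 : ∀ i, ((d i : ℤ) : OO) ≠ 0 := by
    intro i h
    have h1 := congrArg QuadraticAlgebra.re h
    have h2 : ((d i : ℤ)) = 0 := by simpa using h1
    exact hd0 i (by exact_mod_cast h2)
  have hgood : ∀ T : Finset (Fin n), ∃ (D0 : ℕ) (S : Finset RR) (z : OO), FD D0 S ∧
      gd (mc fun p : RR => p) (mr fun p : RR => p) S ≠ 0 ∧ z ≠ 0 ∧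
      Pool.Agent.Results.MP_787500_nt.AllWeightsMultiquadraticX49.tw M * ∏ i ∈ T, ((d i : ℤ) : OO) = -(s7 * ((D0 : ℤ) : OO)) * z ^ 2 := by
    intro T
    obtain ⟨D, k, hk, hF, he⟩ := hG T
    obtain ⟨S, hS, hg⟩ := hF.fam
    refine ⟨D, S, ((k : ℤ) : OO), hS, hg, ?_, ?_⟩
    · intro h
      have h1 := congrArg QuadraticAlgebra.re h
      have h2 : ((k : ℤ)) = 0 := by simpa using h1
      exact hk (by exact_mod_cast h2)
    · have h1 : (((M * ∏ i ∈ T, d i : ℕ) : ℤ) : OO) = (((D * k ^ 2 : ℕ) : ℤ) : OO) := by rw [he]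
      push_cast at h1
      rw [tw_eq]
      push_cast
      linear_combination (-s7) * h1
  intro k hk hk'
  have hke : Even (1 - k) := by
    rw [Int.even_sub]
    simp [Int.not_even_iff_odd.2 hk']
  rw [galL_eq]
  exact ⟨selmer_of hw (vanish_mqX hw hE kd (tw_ne hM0) hE0 hgood k (Or.inr ⟨hk', rfl, rfl⟩))
      (Pool.Agent.Kdt384.em_om' hw),
    selmer_of hw (vanish_mqX hw hE kd (tw_ne hM0) hE0 hgood (1 - k) (Or.inl ⟨hke, rfl, rfl⟩))
      (Pool.Agent.Kdt384.em_om hw)⟩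

end Pool.Agent.N843.Z
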